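import Mathlib

set_option autoImplicit false

/-!
# Pairs of quadratic forms: smoothness and nontrivial common zeros
-/

universe u

namespace Pool.Agent.Helper26

open MvPolynomial

/-- The canonical embedding of a field `k` into its completion for the topology of the valuation
of a valuation ring `V` of `k`. -/
noncomputable def toCompletion {k : Type u} [Field k] (V : ValuationSubring k) :
    k →+* V.valuation.Completion :=
  (UniformSpace.Completion.coeRingHom (α := WithVal V.valuation)).comp
    (WithVal.equiv V.valuation).symm.toRingHom

/-- The polynomials `Q₁` and `Q₂`, with coefficients sent to the field `L` by `f`, have a common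
zero in `L ^ n` different from the origin. -/
def HasNontrivialZero {n : ℕ} {k L : Type*} [Field k] [Field L] (f : k →+* L)
    (Q₁ Q₂ : MvPolynomial (Fin n) k) : Prop :=
  ∃ x : Fin n → L, x ≠ 0 ∧ eval₂ f x Q₁ = 0 ∧ eval₂ f x Q₂ = 0

/-- The Jacobian criterion for the projective scheme `Q₁ = Q₂ = 0` to be smooth over `k` of
codimension two: at every common zero different from the origin over an algebraic closure of `k`
the gradients of `Q₁` and `Q₂` are linearly independent. -/
def IsSmoothPair {n : ℕ} {k : Type u} [Field k] (Q₁ Q₂ : MvPolynomial (Fin n) k) : Prop :=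
  ∀ x : Fin n → AlgebraicClosure k, x ≠ 0 → aeval x Q₁ = 0 → aeval x Q₂ = 0 →
    LinearIndependent (AlgebraicClosure k)
      ![fun i => aeval x (pderiv i Q₁), fun i => aeval x (pderiv i Q₂)]

end Pool.Agent.Helper26
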