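import Mathlib
import Pool.Agent.Helper26.PairDefs

set_option autoImplicit false

/-!
# Norm forms of Artin-Schreier extensions and smooth binary forms
-/

universe u

namespace Pool.Agent.Helper26

open MvPolynomial

/-- The element `e` is a value of the norm form `y ^ 2 + y * z + a * z ^ 2` over the field `L`. -/
def IsNormValue {L : Type*} [Field L] (a e : L) : Prop :=
  ∃ y z : L, y ^ 2 + y * z + a * z ^ 2 = e

/-- The binary form `f` has no multiple zero over an algebraic closure of `k`: at every zero
different from the origin at least one of the two partial derivatives does not vanish. -/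
def IsSmoothForm {k : Type u} [Field k] (f : MvPolynomial (Fin 2) k) : Prop :=
  ∀ x : Fin 2 → AlgebraicClosure k, x ≠ 0 → aeval x f = 0 → ∃ i, aeval x (pderiv i f) ≠ 0

end Pool.Agent.Helper26
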