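import Mathlib

set_option autoImplicit false

/-!
# Smooth hypersurfaces
-/

universe u

namespace Pool.Agent.Helper26

open MvPolynomial

/-- The projective hypersurface `f = 0` is smooth over `k`: at each of its points over an algebraic
closure of `k` some partial derivative of the form `f` does not vanish. -/
def IsSmoothHyp {n : ℕ} {k : Type u} [Field k] (f : MvPolynomial (Fin n) k) : Prop :=
  ∀ x : Fin n → AlgebraicClosure k, x ≠ 0 → aeval x f = 0 → ∃ i, aeval x (pderiv i f) ≠ 0

end Pool.Agent.Helper26
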