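import Mathlib

set_option autoImplicit false
set_option linter.unusedSectionVars false

/-!
# Alternating matrices of odd size in characteristic two
-/

namespace Pool.Agent.Helper26

open Matrix Finset

/-- An alternating matrix of odd size over a ring of characteristic two has determinant zero. -/
lemma det_alt_odd {n R : Type*} [Fintype n] [DecidableEq n] [CommRing R] [CharP R 2]
    (hn : Odd (Fintype.card n)) (M : Matrix n n R) (hsymm : ∀ i j, M i j = M j i)
    (hdiag : ∀ i, M i i = 0) : M.det = 0 := by
  rw [Matrix.det_apply]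
  have hsign : ∀ (σ : Equiv.Perm n) (x : R), Equiv.Perm.sign σ • x = x := by
    intro σ x
    rcases Int.units_eq_one_or (Equiv.Perm.sign σ) with h | h
    · rw [h, one_smul]
    · rw [h, Units.neg_smul, one_smul, CharTwo.neg_eq]
  simp only [hsign]
  have hinv : ∀ σ : Equiv.Perm n, ∏ i, M (σ⁻¹ i) i = ∏ i, M (σ i) i := by
    intro σ
    rw [← Equiv.prod_comp σ (fun i => M (σ⁻¹ i) i)]
    refine Finset.prod_congr rfl fun i _ => ?_
    rw [Equiv.Perm.inv_def, Equiv.symm_apply_apply, hsymm]
  refine Finset.sum_involution (fun σ _ => σ⁻¹) ?_ ?_ (fun _ _ => Finset.mem_univ _)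
    (fun σ _ => inv_inv σ)
  · intro σ _
    rw [hinv, CharTwo.add_self_eq_zero]
  · intro σ _ hne h
    apply hne
    have h2 : σ ^ 2 ^ 1 = 1 := by
      rw [pow_one, pow_two]
      nth_rewrite 1 [← h]
      exact inv_mul_cancel σ
    have : Fact (Nat.Prime 2) := ⟨Nat.prime_two⟩
    obtain ⟨a, ha⟩ := Equiv.Perm.exists_fixed_point_of_prime (p := 2) (n := 1) (σ := σ)
      (by rw [← even_iff_two_dvd, Nat.not_even_iff_odd]; exact hn) h2
    refine Finset.prod_eq_zero (Finset.mem_univ a) ?_
    rw [ha, hdiag]

/-- The rank of an alternating bilinear form is even. -/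
lemma even_of_isCompl {L V : Type*} [Field L] [CharP L 2] [AddCommGroup V] [Module L V]
    [FiniteDimensional L V] (B : LinearMap.BilinForm L V) (hsymm : ∀ x y, B x y = B y x)
    (halt : ∀ x, B x x = 0) (U : Submodule L V) (hU : IsCompl (LinearMap.ker B) U) :
    Even (Module.finrank L U) := by
  rw [← Nat.not_odd_iff_even]
  intro hodd
  set b := Module.finBasis L U with hb
  set G : Matrix (Fin (Module.finrank L U)) (Fin (Module.finrank L U)) L :=
    fun i j => B (b i) (b j) with hG
  have h0 : G.det = 0 := by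
    apply det_alt_odd
    · rw [Fintype.card_fin]; exact hodd
    · intro i j; exact hsymm _ _
    · intro i; exact halt _
  obtain ⟨v, hv0, hv⟩ := Matrix.exists_mulVec_eq_zero_iff.2 h0
  set u : U := ∑ i, v i • b i with hu
  have hBu : ∀ i, B (u : V) (b i) = 0 := by
    intro i
    have h1 := congrFun hv i
    rw [hsymm, hu]
    simp only [Submodule.coe_sum, Submodule.coe_smul, map_sum, map_smul, smul_eq_mul]
    simp only [Matrix.mulVec, dotProduct, Pi.zero_apply, hG] at h1
    rw [← h1]
    exact Finset.sum_congr rfl fun j _ => mul_comm _ _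
  have hBU : ∀ w : U, B (u : V) w = 0 := by
    intro w
    rw [← b.sum_repr w]
    simp only [Submodule.coe_sum, Submodule.coe_smul, map_sum, map_smul, hBu, smul_zero,
      Finset.sum_const_zero]
  have hker : (u : V) ∈ LinearMap.ker B := by
    rw [LinearMap.mem_ker]
    ext w
    obtain ⟨x, hx, y, hy, rfl⟩ := Submodule.mem_sup.1 (show w ∈ LinearMap.ker B ⊔ U by
      rw [hU.sup_eq_top]; trivial)
    rw [map_add, hsymm _ x, LinearMap.mem_ker.1 hx, LinearMap.zero_apply, zero_add,
      LinearMap.zero_apply]
    exact hBU ⟨y, hy⟩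
  have hu0 : (u : V) = 0 := by
    have : (u : V) ∈ LinearMap.ker B ⊓ U := ⟨hker, u.2⟩
    rw [hU.inf_eq_bot] at this
    exact this
  have hu0' : u = 0 := Subtype.ext hu0
  apply hv0
  ext i
  have h2 := congrArg (fun z => b.repr z i) hu0'
  simp only [hu, map_sum, map_smul, Module.Basis.repr_self, Finsupp.coe_finset_sum,
    Finset.sum_apply, Finsupp.coe_smul, Pi.smul_apply, smul_eq_mul, map_zero, Finsupp.coe_zero,
    Pi.zero_apply] at h2
  rw [Finset.sum_eq_single i] at h2
  · simpa using h2
  · intro j _ hji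
    rw [Finsupp.single_eq_of_ne (Ne.symm hji), mul_zero]
  · intro h; exact absurd (Finset.mem_univ i) h

end Pool.Agent.Helper26
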