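import Mathlib
import Pool.Agent.Helper26.AltDet

set_option autoImplicit false
set_option linter.unusedSectionVars false

/-!
# Pairs of quadratic forms given by coefficient matrices
-/

namespace Pool.Agent.Helper26

open Matrix Finset

section

variable {n : Type*} [Fintype n] {R : Type*} [CommRing R]

/-- The quadratic form with coefficients `g`. -/
def qf (g : n → n → R) (x : n → R) : R := ∑ i, ∑ j, g i j * x i * x j

/-- The matrix of the polar form. -/
def pm (g : n → n → R) : Matrix n n R := Matrix.of fun i j => g i j + g j i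

lemma qf_add (g : n → n → R) (x y : n → R) :
    qf g (x + y) = qf g x + qf g y + x ⬝ᵥ (pm g).mulVec y := by
  have h1 : x ⬝ᵥ (pm g).mulVec y = ∑ i, ∑ j, g i j * x i * y j + ∑ i, ∑ j, g i j * y i * x j := by
    have h2 : ∑ i, ∑ j, g i j * y i * x j = ∑ i, ∑ j, g j i * y j * x i := Finset.sum_comm
    rw [h2]
    simp only [dotProduct, Matrix.mulVec, pm, Matrix.of_apply, Finset.mul_sum,
      ← Finset.sum_add_distrib]
    refine Finset.sum_congr rfl fun i _ => Finset.sum_congr rfl fun j _ => ?_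
    ring
  rw [h1]
  simp only [qf, Pi.add_apply, ← Finset.sum_add_distrib]
  refine Finset.sum_congr rfl fun i _ => Finset.sum_congr rfl fun j _ => ?_
  ring

lemma qf_smul (g : n → n → R) (c : R) (x : n → R) : qf g (c • x) = c ^ 2 * qf g x := by
  simp only [qf, Pi.smul_apply, smul_eq_mul, Finset.mul_sum]
  refine Finset.sum_congr rfl fun i _ => Finset.sum_congr rfl fun j _ => ?_
  ring

lemma qf_map {S : Type*} [CommRing S] (f : R →+* S) (g : n → n → R) (x : n → R) :
    f (qf g x) = qf (fun i j => f (g i j)) (fun i => f (x i)) := by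
  simp only [qf, map_sum, map_mul]

lemma pm_map {S : Type*} [CommRing S] (f : R →+* S) (g : n → n → R) :
    (pm g).map f = pm (fun i j => f (g i j)) := by
  ext i j
  simp [pm]

lemma pm_symm (g : n → n → R) (i j : n) : pm g i j = pm g j i := by
  simp only [pm, Matrix.of_apply]
  ring

lemma pm_diag [CharP R 2] (g : n → n → R) (i : n) : pm g i i = 0 := by
  simp only [pm, Matrix.of_apply]
  exact CharTwo.add_self_eq_zero _

lemma dot_symm {M : Matrix n n R} (hM : ∀ i j, M i j = M j i) (x y : n → R) :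
    x ⬝ᵥ M.mulVec y = y ⬝ᵥ M.mulVec x := by
  simp only [dotProduct, Matrix.mulVec, Finset.mul_sum]
  rw [Finset.sum_comm]
  refine Finset.sum_congr rfl fun i _ => Finset.sum_congr rfl fun j _ => ?_
  rw [hM]
  ring

lemma dot_self [CharP R 2] {M : Matrix n n R} (hM : ∀ i j, M i j = M j i) (hd : ∀ i, M i i = 0)
    (x : n → R) : x ⬝ᵥ M.mulVec x = 0 := by
  classical
  simp only [dotProduct, Matrix.mulVec, Finset.mul_sum]
  rw [← Finset.sum_product']
  refine Finset.sum_involution (fun p _ => (p.2, p.1)) ?_ ?_ ?_ ?_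
  · rintro ⟨i, j⟩ _
    simp only
    rw [hM j i]
    have : x i * (M i j * x j) = x j * (M i j * x i) := by ring
    rw [this, CharTwo.add_self_eq_zero]
  · rintro ⟨i, j⟩ _ hne h
    simp only [Prod.mk.injEq] at h
    apply hne
    simp only [h.1, hd, zero_mul, mul_zero]
  · rintro ⟨i, j⟩ _
    simp
  · rintro ⟨i, j⟩ _
    rfl

/-- The Jacobian condition for a pair of quadratic forms. -/
def JacInd (g₁ g₂ : n → n → R) : Prop :=
  ∀ x : n → R, x ≠ 0 → qf g₁ x = 0 → qf g₂ x = 0 → ∀ a b : R,
    (a • pm g₁ + b • pm g₂).mulVec x = 0 → a = 0 ∧ b = 0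

lemma qf_pencil_add (g₁ g₂ : n → n → R) (a b : R) (x y : n → R)
    (hy : (a • pm g₁ + b • pm g₂).mulVec y = 0) :
    a * qf g₁ (x + y) + b * qf g₂ (x + y) =
      (a * qf g₁ x + b * qf g₂ x) + (a * qf g₁ y + b * qf g₂ y) := by
  have h1 : a * (x ⬝ᵥ (pm g₁).mulVec y) + b * (x ⬝ᵥ (pm g₂).mulVec y) = 0 := by
    have h2 := congrArg (fun z => x ⬝ᵥ z) hy
    simp only [Matrix.add_mulVec, Matrix.smul_mulVec, dotProduct_add, dotProduct_smul, smul_eq_mul,
      dotProduct_zero] at h2
    exact h2
  rw [qf_add, qf_add]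
  linear_combination h1

end

section

variable {n : Type*} [Fintype n] {L : Type*} [Field L] [IsAlgClosed L] [CharP L 2]

lemma exists_quad_root {a : L} (ha : a ≠ 0) (b c : L) : ∃ s : L, a * s ^ 2 + b * s + c = 0 := by
  obtain ⟨s, hs⟩ := IsAlgClosed.exists_root
    (Polynomial.C a * Polynomial.X ^ 2 + Polynomial.C b * Polynomial.X + Polynomial.C c)
    (by rw [Polynomial.degree_quadratic ha]; norm_num)
  refine ⟨s, ?_⟩
  simpa [Polynomial.IsRoot] using hs

lemma no_two {g₁ g₂ : n → n → L} (hs : JacInd g₁ g₂) {a b : L} (hab : a ≠ 0 ∨ b ≠ 0)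
    (u v : n → L) (hu : (a • pm g₁ + b • pm g₂).mulVec u = 0)
    (hv : (a • pm g₁ + b • pm g₂).mulVec v = 0)
    (hqu : a * qf g₁ u + b * qf g₂ u = 0) (hqv : a * qf g₁ v + b * qf g₂ v = 0)
    (hu0 : u ≠ 0) (hind : ∀ s : L, v + s • u ≠ 0) : False := by
  have key : ∀ g : n → n → L, (∀ x, a * qf g₁ x + b * qf g₂ x = 0 → qf g x = 0 →
      qf g₁ x = 0 ∧ qf g₂ x = 0) → False := by
    intro g hg
    by_cases h0 : qf g u = 0
    · obtain ⟨h1, h2⟩ := hg u hqu h0
      obtain ⟨e1, e2⟩ := hs u hu0 h1 h2 a b hu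
      rcases hab with h | h
      · exact h e1
      · exact h e2
    · obtain ⟨s, hsr⟩ := exists_quad_root h0 (v ⬝ᵥ (pm g).mulVec u) (qf g v)
      have hker : (a • pm g₁ + b • pm g₂).mulVec (v + s • u) = 0 := by
        rw [Matrix.mulVec_add, Matrix.mulVec_smul, hu, hv, smul_zero, add_zero]
      have hsu : (a • pm g₁ + b • pm g₂).mulVec (s • u) = 0 := by
        rw [Matrix.mulVec_smul, hu, smul_zero]
      have hq : a * qf g₁ (v + s • u) + b * qf g₂ (v + s • u) = 0 := by
        rw [qf_pencil_add g₁ g₂ a b v (s • u) hsu, hqv, qf_smul, qf_smul]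
        linear_combination s ^ 2 * hqu
      have hq' : qf g (v + s • u) = 0 := by
        rw [qf_add, qf_smul, Matrix.mulVec_smul, dotProduct_smul, smul_eq_mul]
        linear_combination hsr
      obtain ⟨h1, h2⟩ := hg _ hq hq'
      obtain ⟨e1, e2⟩ := hs _ (hind s) h1 h2 a b hker
      rcases hab with h | h
      · exact h e1
      · exact h e2
  by_cases hb : b = 0
  · apply key g₂
    intro x hx hx2
    refine ⟨?_, hx2⟩
    rw [hb] at hx
    have ha : a ≠ 0 := by tauto
    have : a * qf g₁ x = 0 := by linear_combination hx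
    rcases mul_eq_zero.1 this with h | h
    · exact absurd h ha
    · exact h
  · apply key g₁
    intro x hx hx1
    refine ⟨hx1, ?_⟩
    rw [hx1] at hx
    have : b * qf g₂ x = 0 := by linear_combination hx
    rcases mul_eq_zero.1 this with h | h
    · exact absurd h hb
    · exact h

/-- The kernel of a member of the pencil of polar forms has dimension at most two. -/
lemma no_three {g₁ g₂ : n → n → L} (hs : JacInd g₁ g₂) {a b : L} (hab : a ≠ 0 ∨ b ≠ 0)
    (x₁ x₂ x₃ : n → L) (h1 : (a • pm g₁ + b • pm g₂).mulVec x₁ = 0)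
    (h2 : (a • pm g₁ + b • pm g₂).mulVec x₂ = 0) (h3 : (a • pm g₁ + b • pm g₂).mulVec x₃ = 0)
    (hind : ∀ s₁ s₂ s₃ : L, s₁ • x₁ + s₂ • x₂ + s₃ • x₃ = 0 → s₁ = 0 ∧ s₂ = 0 ∧ s₃ = 0) :
    False := by
  set q : (n → L) → L := fun x => a * qf g₁ x + b * qf g₂ x with hq
  -- an element of the kernel on which `q` does not vanish kills the value of `q`
  have kill : ∀ x y : n → L, (a • pm g₁ + b • pm g₂).mulVec y = 0 → q y ≠ 0 →
      ∃ t : L, q (x + t • y) = 0 := by
    intro x y hy hqy
    obtain ⟨t, ht⟩ := exists_quad_root hqy 0 (q x)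
    refine ⟨t, ?_⟩
    have hty : (a • pm g₁ + b • pm g₂).mulVec (t • y) = 0 := by
      rw [Matrix.mulVec_smul, hy, smul_zero]
    simp only [hq] at ht ⊢
    rw [qf_pencil_add g₁ g₂ a b x (t • y) hty, qf_smul, qf_smul]
    linear_combination ht
  by_cases hq3 : q x₃ = 0
  · by_cases hq2 : q x₂ = 0
    · refine no_two hs hab x₃ x₂ h3 h2 hq3 hq2 ?_ ?_
      · intro h0
        have := hind 0 0 1 (by rw [h0]; simp)
        exact one_ne_zero this.2.2
      · intro s h0
        have := hind 0 1 s (by rw [← h0]; simp)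
        exact one_ne_zero this.2.1
    · obtain ⟨t, ht⟩ := kill x₁ x₂ h2 hq2
      refine no_two hs hab x₃ (x₁ + t • x₂) h3 ?_ hq3 ht ?_ ?_
      · rw [Matrix.mulVec_add, Matrix.mulVec_smul, h1, h2, smul_zero, add_zero]
      · intro h0
        have := hind 0 0 1 (by rw [h0]; simp)
        exact one_ne_zero this.2.2
      · intro s h0
        have := hind 1 t s (by rw [← h0]; simp)
        exact one_ne_zero this.1
  · obtain ⟨t, ht⟩ := kill x₁ x₃ h3 hq3
    obtain ⟨t', ht'⟩ := kill x₂ x₃ h3 hq3
    refine no_two hs hab (x₁ + t • x₃) (x₂ + t' • x₃) ?_ ?_ ht ht' ?_ ?_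
    · rw [Matrix.mulVec_add, Matrix.mulVec_smul, h1, h3, smul_zero, add_zero]
    · rw [Matrix.mulVec_add, Matrix.mulVec_smul, h2, h3, smul_zero, add_zero]
    · intro h0
      have := hind 1 0 t (by rw [← h0]; simp)
      exact one_ne_zero this.1
    · intro s h0
      have := hind s 1 (t' + s * t) (by rw [← h0, smul_add, smul_smul, add_smul, one_smul]; abel)
      exact one_ne_zero this.2.1

/-- In odd dimension the kernel of a member of the pencil is a line. -/
lemma ker_line [DecidableEq n] (hn : Odd (Fintype.card n)) {g₁ g₂ : n → n → L}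
    (hs : JacInd g₁ g₂) {a b : L} (hab : a ≠ 0 ∨ b ≠ 0) (x u : n → L)
    (hx : (a • pm g₁ + b • pm g₂).mulVec x = 0) (hu : (a • pm g₁ + b • pm g₂).mulVec u = 0)
    (hx0 : x ≠ 0) : ∃ c : L, u = c • x := by
  set N := a • pm g₁ + b • pm g₂ with hN
  have hNs : ∀ i j, N i j = N j i := by
    intro i j
    simp only [hN, Matrix.add_apply, Matrix.smul_apply, pm_symm g₁ i j, pm_symm g₂ i j]
  have hNd : ∀ i, N i i = 0 := by
    intro i
    simp only [hN, Matrix.add_apply, Matrix.smul_apply, pm_diag, smul_zero, add_zero]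
  set B : LinearMap.BilinForm L (n → L) := Matrix.toBilin' N with hB
  have hBapp : ∀ v w, B v w = v ⬝ᵥ N.mulVec w := fun v w => Matrix.toBilin'_apply' N v w
  have hker : ∀ v, v ∈ LinearMap.ker B ↔ N.mulVec v = 0 := by
    intro v
    rw [LinearMap.mem_ker]
    constructor
    · intro h
      ext i
      have h2 := congrArg (fun f => f (Pi.single i 1)) h
      simp only [hBapp, LinearMap.zero_apply] at h2
      rw [dot_symm hNs, single_dotProduct, one_mul] at h2
      rw [h2]
      rfl
    · intro h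
      ext w
      simp only [LinearMap.coe_comp, LinearMap.coe_single, Function.comp_apply, hBapp,
        LinearMap.zero_apply]
      rw [dot_symm hNs, h, dotProduct_zero]
  obtain ⟨U, hU⟩ := Submodule.exists_isCompl (LinearMap.ker B)
  have heven : Even (Module.finrank L U) := even_of_isCompl B
    (fun v w => by rw [hBapp, hBapp, dot_symm hNs]) (fun v => by rw [hBapp, dot_self hNs hNd]) U hU
  have hsum : Module.finrank L (LinearMap.ker B) + Module.finrank L U = Fintype.card n := by
    rw [Submodule.finrank_add_eq_of_isCompl hU, Module.finrank_fintype_fun_eq_card]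
  have hle : Module.finrank L (LinearMap.ker B) < 3 := by
    by_contra hcon
    push Not at hcon
    set b' := Module.finBasis L (LinearMap.ker B) with hb'
    set e : Fin 3 → (n → L) := fun i => (b' (Fin.castLE hcon i) : n → L) with he
    have hli : LinearIndependent L e := by
      have h1 := (b'.linearIndependent.comp (Fin.castLE hcon) (Fin.castLE_injective hcon)).map'
        (LinearMap.ker B).subtype (Submodule.ker_subtype _)
      exact h1
    refine no_three hs hab (e 0) (e 1) (e 2) ((hker _).1 (b' _).2) ((hker _).1 (b' _).2)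
      ((hker _).1 (b' _).2) ?_
    intro s₁ s₂ s₃ h
    have h2 := Fintype.linearIndependent_iff.1 hli ![s₁, s₂, s₃] (by
      rw [Fin.sum_univ_three]; simpa using h)
    exact ⟨h2 0, h2 1, h2 2⟩
  have hone : Module.finrank L (LinearMap.ker B) = 1 := by
    have h1 : Odd (Module.finrank L (LinearMap.ker B)) := by
      rw [← hsum] at hn
      exact (Nat.odd_add.1 hn).2 heven
    obtain ⟨m, hm⟩ := h1
    omega
  obtain ⟨c, hc⟩ := (finrank_eq_one_iff_of_nonzero' (⟨x, (hker x).2 hx⟩ : LinearMap.ker B)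
    (by intro h; exact hx0 (congrArg Subtype.val h))).1 hone ⟨u, (hker u).2 hu⟩
  exact ⟨c, (congrArg Subtype.val hc).symm⟩

/-- In odd dimension every member of the pencil has a nonzero adjugate. -/
lemma adjugate_ne_zero_of_ker_line {m : ℕ} {L : Type*} [Field L] [CharP L 2]
    (N : Matrix (Fin (m + 1)) (Fin (m + 1)) L) (hm : Odd (m + 1))
    (hNs : ∀ i j, N i j = N j i) (hNd : ∀ i, N i i = 0)
    (hline : ∀ x u : Fin (m + 1) → L, N.mulVec x = 0 → N.mulVec u = 0 → x ≠ 0 →
      ∃ c : L, u = c • x) : N.adjugate ≠ 0 := by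
  have hdet : N.det = 0 := det_alt_odd (by rwa [Fintype.card_fin]) N hNs hNd
  obtain ⟨x, hx0, hx⟩ := Matrix.exists_mulVec_eq_zero_iff.2 hdet
  obtain ⟨j, hj⟩ := Function.ne_iff.1 hx0
  intro hadj
  have h1 := congrFun (congrFun hadj j) j
  rw [Matrix.adjugate_fin_succ_eq_det_submatrix] at h1
  have h2 : (N.submatrix j.succAbove j.succAbove).det = 0 := by
    rcases mul_eq_zero.1 h1 with h | h
    · exact absurd h (pow_ne_zero _ (neg_ne_zero.2 one_ne_zero))
    · exact h
  obtain ⟨v, hv0, hv⟩ := Matrix.exists_mulVec_eq_zero_iff.2 h2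
  set u : Fin (m + 1) → L := j.insertNth 0 v with hu
  have hu1 : ∀ i, N.mulVec u (j.succAbove i) = 0 := by
    intro i
    have h3 := congrFun hv i
    rw [Matrix.mulVec, dotProduct, Fin.sum_univ_succAbove _ j]
    simp only [hu, Fin.insertNth_apply_same, mul_zero, zero_add, Fin.insertNth_apply_succAbove]
    simpa [Matrix.mulVec, dotProduct] using h3
  have hu2 : N.mulVec u j = 0 := by
    have h3 : x ⬝ᵥ N.mulVec u = 0 := by rw [dot_symm hNs, hx, dotProduct_zero]
    rw [dotProduct, Fin.sum_univ_succAbove _ j] at h3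
    simp only [hu1, mul_zero, Finset.sum_const_zero, add_zero] at h3
    rcases mul_eq_zero.1 h3 with h | h
    · exact absurd h hj
    · exact h
  have hu3 : N.mulVec u = 0 := by
    ext i
    rcases Fin.eq_self_or_eq_succAbove j i with h | ⟨i', h⟩
    · rw [h]; exact hu2
    · rw [h]; exact hu1 i'
  obtain ⟨c, hc⟩ := hline x u hx hu3 hx0
  have h4 := congrFun hc j
  simp only [hu, Fin.insertNth_apply_same, Pi.smul_apply, smul_eq_mul] at h4
  have hc0 : c = 0 := by
    rcases mul_eq_zero.1 h4.symm with h | h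
    · exact h
    · exact absurd h hj
  apply hv0
  ext i
  have h5 := congrFun hc (j.succAbove i)
  simpa [hu, hc0] using h5

end

end Pool.Agent.Helper26
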