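import Mathlib
import Pool.Agent.Helper26.QF

set_option autoImplicit false
set_option linter.unusedSectionVars false

/-!
# The pair of quadratic forms attached to a quartic algebra and an Artin-Schreier extension
-/

namespace Pool.Agent.Helper26

open Polynomial Matrix Finset

section

variable {L : Type*} [Field L]

/-- The coefficient of `X ^ 3` modulo `P`. -/
noncomputable def tau (P D : L[X]) : L := (D %ₘ P).coeff 3

lemma tau_add (P D E : L[X]) : tau P (D + E) = tau P D + tau P E := by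
  rw [tau, add_modByMonic, coeff_add]; rfl

lemma tau_zero (P : L[X]) : tau P 0 = 0 := by
  rw [tau, zero_modByMonic, coeff_zero]

lemma tau_C_mul (P : L[X]) (c : L) (D : L[X]) : tau P (C c * D) = c * tau P D := by
  rw [tau, ← smul_eq_C_mul, smul_modByMonic, coeff_smul, smul_eq_mul]; rfl

lemma tau_sum (P : L[X]) {ι : Type*} (s : Finset ι) (f : ι → L[X]) :
    tau P (∑ i ∈ s, f i) = ∑ i ∈ s, tau P (f i) := by
  classical
  induction s using Finset.induction_on with
  | empty => simp [tau_zero]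
  | insert a s ha ih => rw [Finset.sum_insert ha, Finset.sum_insert ha, tau_add, ih]

lemma tau_eq_of_dvd {P D E : L[X]} (hP : P.Monic) (h : P ∣ D - E) : tau P D = tau P E := by
  have h1 : D = E + (D - E) := by ring
  rw [h1, tau_add]
  have : tau P (D - E) = 0 := by
    rw [tau, (modByMonic_eq_zero_iff_dvd hP).2 h, coeff_zero]
  rw [this, add_zero]

lemma tau_map {M : Type*} [Field M] (f : L →+* M) {P : L[X]} (hP : P.Monic) (D : L[X]) :
    f (tau P D) = tau (P.map f) (D.map f) := by
  rw [tau, tau, ← map_modByMonic f hP, coeff_map]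

lemma tau_of_natDegree {P D : L[X]} (hP : P.Monic) (hP4 : P.natDegree = 4)
    (hD : D.natDegree < 4) : tau P D = D.coeff 3 := by
  rw [tau, (modByMonic_eq_self_iff hP).2]
  exact degree_lt_degree (by rw [hP4]; exact hD)

/-- Nondegeneracy of `tau`. -/
lemma dvd_of_tau {P D : L[X]} (hP : P.Monic) (hP4 : P.natDegree = 4)
    (h : ∀ i < 4, tau P (X ^ i * D) = 0) : P ∣ D := by
  set R := D %ₘ P with hR
  have hRd : R.natDegree < 4 := by
    rw [← hP4]
    exact natDegree_modByMonic_lt D hP (by rintro rfl; simp at hP4)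
  have hDR : ∀ i, tau P (X ^ i * D) = tau P (X ^ i * R) := by
    intro i
    apply tau_eq_of_dvd hP
    have h1 := modByMonic_add_div D P
    refine ⟨X ^ i * (D /ₘ P), ?_⟩
    rw [← hR] at h1
    linear_combination -X ^ i * h1
  have h3 : R.coeff 3 = 0 := by
    have := h 0 (by norm_num)
    rw [hDR, pow_zero, one_mul, tau_of_natDegree hP hP4 hRd] at this
    exact this
  have key : ∀ i, i ≤ 3 → ∀ j, 3 ≤ j + i → R.coeff j = 0 := by
    intro i
    induction i with
    | zero =>
      intro _ j hj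
      rcases Nat.lt_or_ge 3 j with h4 | h4
      · exact coeff_eq_zero_of_natDegree_lt (by omega)
      · have : j = 3 := by omega
        rw [this]; exact h3
    | succ i ih =>
      intro hi j hj
      rcases Nat.lt_or_ge 3 (j + (i + 1)) with h4 | h4
      · exact ih (by omega) j (by omega)
      · have hj' : j + (i + 1) = 3 := by omega
        have h5 := h (i + 1) (by omega)
        rw [hDR] at h5
        have h6 : (X ^ (i + 1) * R).natDegree < 4 := by
          have h7 : R.natDegree ≤ j := by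
            rw [natDegree_le_iff_coeff_eq_zero]
            intro m hm
            exact ih (by omega) m (by omega)
          have h8 := natDegree_mul_le (p := (X : L[X]) ^ (i + 1)) (q := R)
          rw [natDegree_X_pow] at h8
          omega
        rw [tau_of_natDegree hP hP4 h6, mul_comm, coeff_mul_X_pow', if_pos (by omega)] at h5
        have : 3 - (i + 1) = j := by omega
        rwa [this] at h5
  have hR0 : R = 0 := by
    ext j
    rw [coeff_zero]
    exact key 3 le_rfl j (by omega)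
  rw [← modByMonic_eq_zero_iff_dvd hP, ← hR, hR0]

/-- The basis vectors. -/
noncomputable def e1 (i : Fin 8) : L[X] := if (i : ℕ) < 4 then X ^ (i : ℕ) else 0

noncomputable def e2 (i : Fin 8) : L[X] := if (i : ℕ) < 4 then 0 else X ^ ((i : ℕ) - 4)

noncomputable def Xp (z : Fin 8 → L) : L[X] := ∑ i, C (z i) * e1 i

noncomputable def Yp (z : Fin 8 → L) : L[X] := ∑ i, C (z i) * e2 i

lemma Xp_eq (z : Fin 8 → L) :
    Xp z = C (z 0) + C (z 1) * X + C (z 2) * X ^ 2 + C (z 3) * X ^ 3 := by
  simp [Xp, e1, Fin.sum_univ_eight]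

lemma Yp_eq (z : Fin 8 → L) :
    Yp z = C (z 4) + C (z 5) * X + C (z 6) * X ^ 2 + C (z 7) * X ^ 3 := by
  simp [Yp, e2, Fin.sum_univ_eight]

lemma natDegree_cubic' (a b c d : L) :
    (C a + C b * X + C c * X ^ 2 + C d * X ^ 3 : L[X]).natDegree < 4 := by
  have h : (C a + C b * X + C c * X ^ 2 + C d * X ^ 3 : L[X]) =
      C d * X ^ 3 + C c * X ^ 2 + C b * X + C a := by ring
  rw [h]
  exact lt_of_le_of_lt natDegree_cubic_le (by norm_num)

lemma exists_vec {D E : L[X]} (hD : D.natDegree < 4) (hE : E.natDegree < 4) :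
    ∃ z : Fin 8 → L, Xp z = D ∧ Yp z = E := by
  refine ⟨![D.coeff 0, D.coeff 1, D.coeff 2, D.coeff 3, E.coeff 0, E.coeff 1, E.coeff 2,
    E.coeff 3], ?_, ?_⟩
  · rw [Xp_eq]
    conv_rhs => rw [D.as_sum_range' 4 hD]
    simp [Finset.sum_range_succ, ← C_mul_X_pow_eq_monomial]
  · rw [Yp_eq]
    conv_rhs => rw [E.as_sum_range' 4 hE]
    simp [Finset.sum_range_succ, ← C_mul_X_pow_eq_monomial]

lemma vec_eq_zero {z : Fin 8 → L} (h1 : Xp z = 0) (h2 : Yp z = 0) : z = 0 := by
  rw [Xp_eq] at h1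
  rw [Yp_eq] at h2
  have a0 := congrArg (fun p : L[X] => p.coeff 0) h1
  have a1 := congrArg (fun p : L[X] => p.coeff 1) h1
  have a2 := congrArg (fun p : L[X] => p.coeff 2) h1
  have a3 := congrArg (fun p : L[X] => p.coeff 3) h1
  have b0 := congrArg (fun p : L[X] => p.coeff 0) h2
  have b1 := congrArg (fun p : L[X] => p.coeff 1) h2
  have b2 := congrArg (fun p : L[X] => p.coeff 2) h2
  have b3 := congrArg (fun p : L[X] => p.coeff 3) h2
  simp [coeff_X, coeff_C, coeff_X_pow] at a0 a1 a2 a3 b0 b1 b2 b3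
  ext i
  fin_cases i
  · exact a0
  · exact a1
  · exact a2
  · exact a3
  · exact b0
  · exact b1
  · exact b2
  · exact b3

/-- The quadratic map. -/
noncomputable def chQ (a : L) (Δ Δ' U Y : L[X]) : L[X] := Δ * U ^ 2 + U * Y + C a * Δ' * Y ^ 2

/-- The matrices of the pair. -/
noncomputable def chG (P : L[X]) (a : L) (Δ Δ' : L[X]) (j : ℕ) (i l : Fin 8) : L :=
  tau P (X ^ j * (e1 i * e2 l)) +
    if i = l then tau P (X ^ j * (Δ * e1 i ^ 2 + C a * Δ' * e2 i ^ 2)) else 0

lemma chG_map {M : Type*} [Field M] (f : L →+* M) {P : L[X]} (hP : P.Monic) (a : L)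
    (Δ Δ' : L[X]) (j : ℕ) (i l : Fin 8) :
    f (chG P a Δ Δ' j i l) = chG (P.map f) (f a) (Δ.map f) (Δ'.map f) j i l := by
  have h1 : ∀ i : Fin 8, (e1 i : L[X]).map f = e1 i := by
    intro i
    unfold e1
    split_ifs <;> simp
  have h2 : ∀ i : Fin 8, (e2 i : L[X]).map f = e2 i := by
    intro i
    unfold e2
    split_ifs <;> simp
  unfold chG
  rw [map_add, tau_map f hP, apply_ite f, tau_map f hP, map_zero]
  simp only [Polynomial.map_mul, Polynomial.map_add, Polynomial.map_pow, map_X, map_C, h1, h2]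

variable [CharP L 2]

lemma qf_chG (P : L[X]) (a : L) (Δ Δ' : L[X]) (j : ℕ) (z : Fin 8 → L) :
    qf (chG P a Δ Δ' j) z = tau P (X ^ j * chQ a Δ Δ' (Xp z) (Yp z)) := by
  have h1 : (Xp z) ^ 2 = ∑ i, C (z i ^ 2) * e1 i ^ 2 := by
    rw [Xp, CharTwo.sum_sq]
    exact Finset.sum_congr rfl fun i _ => by rw [mul_pow, C_pow]
  have h2 : (Yp z) ^ 2 = ∑ i, C (z i ^ 2) * e2 i ^ 2 := by
    rw [Yp, CharTwo.sum_sq]
    exact Finset.sum_congr rfl fun i _ => by rw [mul_pow, C_pow]
  have h3 : Xp z * Yp z = ∑ i, ∑ l, C (z i * z l) * (e1 i * e2 l) := by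
    rw [Xp, Yp, Finset.sum_mul_sum]
    refine Finset.sum_congr rfl fun i _ => Finset.sum_congr rfl fun l _ => ?_
    rw [C_mul]; ring
  have h4 : X ^ j * chQ a Δ Δ' (Xp z) (Yp z) =
      (∑ i, ∑ l, C (z i * z l) * (X ^ j * (e1 i * e2 l))) +
      ∑ i, C (z i ^ 2) * (X ^ j * (Δ * e1 i ^ 2 + C a * Δ' * e2 i ^ 2)) := by
    rw [chQ, h1, h2, h3]
    simp only [Finset.mul_sum, mul_add, ← Finset.sum_add_distrib]
    refine Finset.sum_congr rfl fun x _ => ?_
    have h5 : ∑ i, X ^ j * (C (z x * z i) * (e1 x * e2 i)) =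
        ∑ l, C (z x * z l) * (X ^ j * (e1 x * e2 l)) :=
      Finset.sum_congr rfl fun l _ => by ring
    rw [h5]
    ring
  rw [h4, tau_add, tau_sum, tau_sum, qf, ← Finset.sum_add_distrib]
  refine Finset.sum_congr rfl fun i _ => ?_
  rw [tau_sum, tau_C_mul]
  simp only [tau_C_mul, chG, add_mul, Finset.sum_add_distrib, ite_mul, zero_mul,
    Finset.sum_ite_eq, Finset.mem_univ, if_true]
  congr 1
  · refine Finset.sum_congr rfl fun l _ => ?_
    ring
  · ring

lemma pm_chG (P : L[X]) (a : L) (Δ Δ' : L[X]) (j : ℕ) (i l : Fin 8) :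
    pm (chG P a Δ Δ' j) i l = tau P (X ^ j * (e1 i * e2 l + e1 l * e2 i)) := by
  rw [mul_add, tau_add]
  simp only [pm, Matrix.of_apply, chG]
  by_cases h : i = l
  · subst h
    simp only [if_true]
    have h2 : ∀ x : L, x + x = 0 := fun x => CharTwo.add_self_eq_zero x
    linear_combination h2 (tau P (X ^ j * (Δ * e1 i ^ 2 + C a * Δ' * e2 i ^ 2)))
  · rw [if_neg h, if_neg (Ne.symm h), add_zero, add_zero]

lemma pm_chG_mulVec (P : L[X]) (a : L) (Δ Δ' : L[X]) (j : ℕ) (z : Fin 8 → L) (i : Fin 8) :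
    (pm (chG P a Δ Δ' j)).mulVec z i = tau P (X ^ j * (e1 i * Yp z + e2 i * Xp z)) := by
  have h1 : X ^ j * (e1 i * Yp z + e2 i * Xp z) =
      ∑ l, C (z l) * (X ^ j * (e1 i * e2 l + e1 l * e2 i)) := by
    rw [Yp, Xp, Finset.mul_sum, Finset.mul_sum, ← Finset.sum_add_distrib, Finset.mul_sum]
    refine Finset.sum_congr rfl fun l _ => ?_
    ring
  rw [h1, tau_sum]
  simp only [Matrix.mulVec, dotProduct, pm_chG, tau_C_mul]
  exact Finset.sum_congr rfl fun l _ => mul_comm _ _

/-- The Jacobian condition on the hyperplane `z 7 = 0`. -/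
theorem ch_jac {P : L[X]} (hP : P.Monic) (hP4 : P.natDegree = 4) (hsq : Squarefree P) (a : L)
    {Δ Δ' : L[X]} (hΔ : P ∣ Δ * Δ' - 1) (hΔ3 : Δ.natDegree < 4)
    (hΔd : Δ.coeff 0 * Δ.coeff 3 + Δ.coeff 1 * Δ.coeff 2 ≠ 0) {z : Fin 8 → L} (hz : z ≠ 0)
    (hz7 : z 7 = 0) (h0 : tau P (chQ a Δ Δ' (Xp z) (Yp z)) = 0)
    (h1 : tau P (X * chQ a Δ Δ' (Xp z) (Yp z)) = 0) {r s : L}
    (hrs : ∀ i : Fin 8, i ≠ 7 → (r • pm (chG P a Δ Δ' 0) + s • pm (chG P a Δ Δ' 1)).mulVec z i = 0) :
    r = 0 ∧ s = 0 := by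
  have h2 : ∀ x : L, x + x = 0 := fun x => CharTwo.add_self_eq_zero x
  have h2' : ∀ x : L[X], x + x = 0 := fun x => CharTwo.add_self_eq_zero x
  set U := Xp z with hU
  set Y := Yp z with hY
  have hUd : U.natDegree < 4 := by rw [hU, Xp_eq]; exact natDegree_cubic' _ _ _ _
  have hYd : Y.natDegree < 4 := by rw [hY, Yp_eq]; exact natDegree_cubic' _ _ _ _
  have hY3 : Y.coeff 3 = 0 := by
    rw [hY, Yp_eq, hz7]; simp [coeff_X, coeff_C, coeff_X_pow]
  have hP0 : P ≠ 0 := hP.ne_zero
  -- small multiples of `P` vanish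
  have hsmall : ∀ D : L[X], P ∣ D → D.natDegree < 4 → D = 0 := fun D hD hd =>
    eq_zero_of_dvd_of_natDegree_lt hD (by rw [hP4]; exact hd)
  set ℓ : L[X] := C r + C s * X with hℓ
  have hmv : ∀ i : Fin 8, i ≠ 7 → tau P (ℓ * (e1 i * Y + e2 i * U)) = 0 := by
    intro i hi
    have h3 := hrs i hi
    rw [Matrix.add_mulVec, Matrix.smul_mulVec, Matrix.smul_mulVec, Pi.add_apply, Pi.smul_apply,
      Pi.smul_apply, pm_chG_mulVec, pm_chG_mulVec, smul_eq_mul, smul_eq_mul, ← tau_C_mul,
      ← tau_C_mul, ← tau_add] at h3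
    rw [← h3, hℓ]
    congr 1
    ring
  have hPY : P ∣ ℓ * Y := by
    apply dvd_of_tau hP hP4
    intro i hi
    have h3 := hmv ⟨i, by omega⟩ (by
      intro h
      have := congrArg Fin.val h
      simp only at this
      change i = 7 at this
      omega)
    simp only [e1, e2, if_pos hi, zero_mul, add_zero] at h3
    rw [← h3]
    congr 1
    ring
  obtain ⟨κ, hκ⟩ : ∃ κ : L, P ∣ ℓ * U - C κ := by
    set R := (ℓ * U) %ₘ P with hR
    have hRd : R.natDegree < 4 := by
      rw [← hP4]
      exact natDegree_modByMonic_lt _ hP (by rintro rfl; simp at hP4)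
    have hdiv : P ∣ ℓ * U - R := by
      have h3 := modByMonic_add_div (ℓ * U) P
      exact ⟨(ℓ * U) /ₘ P, by rw [← hR] at h3; linear_combination -h3⟩
    have hj : ∀ j < 3, tau P (X ^ j * R) = 0 := by
      intro j hj
      have h3 := hmv ⟨j + 4, by omega⟩ (by
        intro h
        have := congrArg Fin.val h
        change j + 4 = 7 at this
        omega)
      simp only [e1, e2, if_neg (show ¬ j + 4 < 4 by omega), zero_mul, zero_add,
        Nat.add_sub_cancel] at h3
      rw [← h3]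
      apply tau_eq_of_dvd hP
      have : X ^ j * R - ℓ * (X ^ j * U) = - (X ^ j * (ℓ * U - R)) := by ring
      rw [this]
      exact (Dvd.dvd.mul_left hdiv _).neg_right
    have c3 : R.coeff 3 = 0 := by
      have := hj 0 (by norm_num)
      rwa [pow_zero, one_mul, tau_of_natDegree hP hP4 hRd] at this
    have hR2 : R.natDegree ≤ 2 := by
      rw [natDegree_le_iff_coeff_eq_zero]
      intro m hm
      rcases Nat.lt_or_ge 3 m with h4 | h4
      · exact coeff_eq_zero_of_natDegree_lt (by omega)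
      · have : m = 3 := by omega
        rw [this]; exact c3
    have c2 : R.coeff 2 = 0 := by
      have := hj 1 (by norm_num)
      rw [tau_of_natDegree hP hP4 (by
        have h8 := natDegree_mul_le (p := (X : L[X]) ^ 1) (q := R)
        rw [natDegree_X_pow] at h8
        omega), mul_comm, coeff_mul_X_pow'] at this
      simpa using this
    have hR1 : R.natDegree ≤ 1 := by
      rw [natDegree_le_iff_coeff_eq_zero]
      intro m hm
      rcases Nat.lt_or_ge 2 m with h4 | h4
      · exact coeff_eq_zero_of_natDegree_lt (by omega)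
      · have : m = 2 := by omega
        rw [this]; exact c2
    have c1 : R.coeff 1 = 0 := by
      have := hj 2 (by norm_num)
      rw [tau_of_natDegree hP hP4 (by
        have h8 := natDegree_mul_le (p := (X : L[X]) ^ 2) (q := R)
        rw [natDegree_X_pow] at h8
        omega), mul_comm, coeff_mul_X_pow'] at this
      simpa using this
    have hRC : R = C (R.coeff 0) := by
      apply eq_C_of_natDegree_eq_zero
      have : R.natDegree ≤ 0 := by
        rw [natDegree_le_iff_coeff_eq_zero]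
        intro m hm
        rcases Nat.lt_or_ge 1 m with h4 | h4
        · exact coeff_eq_zero_of_natDegree_lt (by omega)
        · have : m = 1 := by omega
          rw [this]; exact c1
      omega
    exact ⟨R.coeff 0, by rw [← hRC]; exact hdiv⟩
  by_contra hne
  by_cases hκ0 : κ = 0
  · rw [hκ0, C_0, sub_zero] at hκ
    -- `P` divides both `ℓ * U` and `ℓ * Y`
    have hnot : ¬ (P ∣ U ∧ P ∣ Y) := by
      rintro ⟨h3, h4⟩
      exact hz (vec_eq_zero (hsmall U h3 hUd) (hsmall Y h4 hYd))
    by_cases hs : s = 0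
    · have hr : r ≠ 0 := fun h => hne ⟨h, hs⟩
      apply hnot
      have hℓC : ℓ = C r := by rw [hℓ, hs]; simp
      rw [hℓC] at hκ hPY
      have hu : IsUnit (C r : L[X]) := isUnit_C.2 (isUnit_iff_ne_zero.2 hr)
      exact ⟨(hu.dvd_mul_left).1 hκ, (hu.dvd_mul_left).1 hPY⟩
    · set ρ := r / s with hρ
      have hℓ' : ℓ = C s * (X - C ρ) := by
        have h3 : C s * (X - C ρ) = C s * X - C (s * ρ) := by rw [C_mul]; ring
        rw [h3, hρ, mul_div_cancel₀ _ hs, hℓ, CharTwo.sub_eq_add, add_comm]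
      have hu : IsUnit (C s : L[X]) := isUnit_C.2 (isUnit_iff_ne_zero.2 hs)
      have hκ' : P ∣ (X - C ρ) * U := by
        rw [hℓ', mul_assoc] at hκ
        exact (hu.dvd_mul_left).1 hκ
      have hPY' : P ∣ (X - C ρ) * Y := by
        rw [hℓ', mul_assoc] at hPY
        exact (hu.dvd_mul_left).1 hPY
      by_cases hroot : P.eval ρ = 0
      · obtain ⟨P₁, hP₁⟩ := dvd_iff_isRoot.2 (show P.IsRoot ρ from hroot)
        have hXρ : (X - C ρ : L[X]) ≠ 0 := X_sub_C_ne_zero ρ
        have hP₁m : P₁.Monic := (monic_X_sub_C ρ).of_mul_monic_left (by rw [← hP₁]; exact hP)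
        have hP₁d : P₁.natDegree = 3 := by
          have h3 := congrArg natDegree hP₁
          rw [(monic_X_sub_C ρ).natDegree_mul hP₁m, natDegree_X_sub_C, hP4] at h3
          omega
        have hdvd : ∀ D : L[X], P ∣ (X - C ρ) * D → D.natDegree < 4 →
            D = C (D.coeff 3) * P₁ := by
          intro D hD hd
          rw [hP₁] at hD
          obtain ⟨E, hE⟩ := (mul_dvd_mul_iff_left hXρ).1 hD
          by_cases hE0 : E = 0
          · rw [hE, hE0]; simp
          have hdeg : E.natDegree = 0 := by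
            have h3 := congrArg natDegree hE
            rw [hP₁m.natDegree_mul' hE0, hP₁d] at h3
            omega
          have hEC := eq_C_of_natDegree_eq_zero hdeg
          have h4 : D.coeff 3 = E.coeff 0 := by
            rw [hE, hEC, mul_comm, coeff_C_mul]
            have : P₁.coeff 3 = 1 := by rw [← hP₁d]; exact hP₁m.leadingCoeff
            rw [this, mul_one, coeff_C_zero]
          rw [h4, ← hEC, hE, mul_comm]
        have hY0 : Y = 0 := by rw [hdvd Y hPY' hYd, hY3]; simp
        have hUe := hdvd U hκ' hUd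
        set u := U.coeff 3 with hu3
        have hΔρ : Δ.eval ρ ≠ 0 := by
          intro h3
          have h4 := (dvd_iff_isRoot.2 (show P.IsRoot ρ from hroot)).trans hΔ
          rw [dvd_iff_isRoot, IsRoot.def, eval_sub, eval_mul, h3, zero_mul, eval_one,
            zero_sub] at h4
          exact one_ne_zero (neg_eq_zero.1 h4)
        have hP₁ρ : P₁.eval ρ ≠ 0 := by
          intro h3
          obtain ⟨P₂, hP₂⟩ := dvd_iff_isRoot.2 (show P₁.IsRoot ρ from h3)
          have h4 := hsq (X - C ρ) ⟨P₂, by rw [hP₁, hP₂]; ring⟩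
          have h5 := natDegree_eq_zero_of_isUnit h4
          rw [natDegree_X_sub_C] at h5
          exact one_ne_zero h5
        have h5 : tau P (chQ a Δ Δ' U Y) = u ^ 2 * (Δ.eval ρ * P₁.eval ρ) := by
          have h6 : chQ a Δ Δ' U Y = C (u ^ 2) * (Δ * P₁ ^ 2) := by
            rw [chQ, hY0, hUe, C_pow]; ring
          rw [h6, tau_C_mul]
          congr 1
          have h7 : tau P (Δ * P₁ ^ 2) = tau P (C (Δ.eval ρ * P₁.eval ρ) * P₁) := by
            apply tau_eq_of_dvd hP
            obtain ⟨E, hE⟩ := dvd_iff_isRoot.2 (show (Δ * P₁ - C (Δ.eval ρ * P₁.eval ρ)).IsRoot ρ by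
              rw [IsRoot.def, eval_sub, eval_mul, eval_C, sub_self])
            refine ⟨E, ?_⟩
            rw [hP₁]
            linear_combination P₁ * hE
          rw [h7, tau_C_mul, tau_of_natDegree hP hP4 (by omega)]
          have : P₁.coeff 3 = 1 := by rw [← hP₁d]; exact hP₁m.leadingCoeff
          rw [this, mul_one]
        rw [h5] at h0
        have hu0 : u = 0 := by
          rcases mul_eq_zero.1 h0 with h6 | h6
          · exact (pow_eq_zero_iff two_ne_zero).1 h6
          · exact absurd h6 (mul_ne_zero hΔρ hP₁ρ)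
        apply hz
        apply vec_eq_zero _ hY0
        change U = 0
        rw [hUe, hu0]; simp
      · have hcop : IsCoprime P (X - C ρ) := by
          refine (((irreducible_X_sub_C ρ).coprime_iff_not_dvd).2 ?_).symm
          rw [dvd_iff_isRoot]
          exact hroot
        exact hnot ⟨hcop.dvd_of_dvd_mul_left hκ', hcop.dvd_of_dvd_mul_left hPY'⟩
  · -- `κ ≠ 0`
    have huκ : IsUnit (C κ : L[X]) := isUnit_C.2 (isUnit_iff_ne_zero.2 hκ0)
    have hY0 : Y = 0 := by
      apply hsmall Y _ hYd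
      apply (huκ.dvd_mul_left).1
      have h3 : C κ * Y = U * (ℓ * Y) - Y * (ℓ * U - C κ) := by ring
      rw [h3]
      exact dvd_sub (Dvd.dvd.mul_left hPY _) (Dvd.dvd.mul_left hκ _)
    have hQ : chQ a Δ Δ' U Y = Δ * U ^ 2 := by rw [chQ, hY0]; ring
    rw [hQ] at h0 h1
    set R := (Δ * U ^ 2) %ₘ P with hR
    have hRd : R.natDegree < 4 := by
      rw [← hP4]
      exact natDegree_modByMonic_lt _ hP (by rintro rfl; simp at hP4)
    have hdiv : P ∣ Δ * U ^ 2 - R := by
      have h3 := modByMonic_add_div (Δ * U ^ 2) P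
      exact ⟨(Δ * U ^ 2) /ₘ P, by rw [← hR] at h3; linear_combination -h3⟩
    have c3 : R.coeff 3 = 0 := by
      rw [tau_eq_of_dvd hP hdiv, tau_of_natDegree hP hP4 hRd] at h0
      exact h0
    have hR2 : R.natDegree ≤ 2 := by
      rw [natDegree_le_iff_coeff_eq_zero]
      intro m hm
      rcases Nat.lt_or_ge 3 m with h4 | h4
      · exact coeff_eq_zero_of_natDegree_lt (by omega)
      · have : m = 3 := by omega
        rw [this]; exact c3
    have c2 : R.coeff 2 = 0 := by
      have h3 : tau P (X * (Δ * U ^ 2)) = tau P (X * R) := by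
        apply tau_eq_of_dvd hP
        rw [← mul_sub]
        exact Dvd.dvd.mul_left hdiv _
      rw [h3, tau_of_natDegree hP hP4 (by
        have h8 := natDegree_mul_le (p := (X : L[X])) (q := R)
        rw [natDegree_X] at h8
        omega), mul_comm, coeff_mul_X] at h1
      exact h1
    have hR1 : R = C (R.coeff 0) + C (R.coeff 1) * X := by
      have h3 : R.natDegree < 2 := by
        have : R.natDegree ≤ 1 := by
          rw [natDegree_le_iff_coeff_eq_zero]
          intro m hm
          rcases Nat.lt_or_ge 2 m with h4 | h4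
          · exact coeff_eq_zero_of_natDegree_lt (by omega)
          · have : m = 2 := by omega
            rw [this]; exact c2
        omega
      conv_lhs => rw [R.as_sum_range' 2 h3]
      simp [Finset.sum_range_succ, ← C_mul_X_pow_eq_monomial]
    set A := R.coeff 0 with hA
    set B := R.coeff 1 with hB
    have hfin : C (κ ^ 2) * Δ + ℓ ^ 2 * R = 0 := by
      apply hsmall
      · have h3 : C (κ ^ 2) * Δ + ℓ ^ 2 * R =
            ℓ ^ 2 * (Δ * U ^ 2 - R) - (ℓ * U - C κ) * (ℓ * U + C κ) * Δ + (ℓ ^ 2 * R + ℓ ^ 2 * R) := by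
          rw [C_pow]; ring
        rw [h3, h2', add_zero]
        exact dvd_sub (Dvd.dvd.mul_left hdiv _)
          (Dvd.dvd.mul_right (Dvd.dvd.mul_right hκ _) _)
      · have h3 : ℓ ^ 2 * R = C (r ^ 2 * A) + C (r ^ 2 * B) * X + C (s ^ 2 * A) * X ^ 2 +
            C (s ^ 2 * B) * X ^ 3 := by
          rw [hR1, hℓ, CharTwo.add_sq, mul_pow, ← C_pow, ← C_pow]
          simp only [C_mul]
          ring
        rw [h3]
        refine lt_of_le_of_lt (natDegree_add_le _ _) (max_lt ?_ (natDegree_cubic' _ _ _ _))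
        exact lt_of_le_of_lt (natDegree_C_mul_le _ _) hΔ3
    have h3 : ℓ ^ 2 * R = C (r ^ 2 * A) + C (r ^ 2 * B) * X + C (s ^ 2 * A) * X ^ 2 +
        C (s ^ 2 * B) * X ^ 3 := by
      rw [hR1, hℓ, CharTwo.add_sq, mul_pow, ← C_pow, ← C_pow]
      simp only [C_mul]
      ring
    rw [h3] at hfin
    have k0 := congrArg (fun p : L[X] => p.coeff 0) hfin
    have k1 := congrArg (fun p : L[X] => p.coeff 1) hfin
    have k2 := congrArg (fun p : L[X] => p.coeff 2) hfin
    have k3 := congrArg (fun p : L[X] => p.coeff 3) hfin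
    simp only [coeff_add, coeff_C_mul, coeff_zero, coeff_X_pow, coeff_X, coeff_C] at k0 k1 k2 k3
    norm_num at k0 k1 k2 k3
    apply hΔd
    have h4 : κ ^ 4 * (Δ.coeff 0 * Δ.coeff 3 + Δ.coeff 1 * Δ.coeff 2) = 0 := by
      have e0 : κ ^ 2 * Δ.coeff 0 = r ^ 2 * A := CharTwo.add_eq_zero.1 k0
      have e1 : κ ^ 2 * Δ.coeff 1 = r ^ 2 * B := CharTwo.add_eq_zero.1 k1
      have e2 : κ ^ 2 * Δ.coeff 2 = s ^ 2 * A := CharTwo.add_eq_zero.1 k2
      have e3 : κ ^ 2 * Δ.coeff 3 = s ^ 2 * B := CharTwo.add_eq_zero.1 k3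
      linear_combination (κ ^ 2 * Δ.coeff 3) * e0 + r ^ 2 * A * e3 + (κ ^ 2 * Δ.coeff 2) * e1 +
        r ^ 2 * B * e2 + h2 (r ^ 2 * A * s ^ 2 * B)
    exact (mul_eq_zero.1 h4).resolve_left (pow_ne_zero _ hκ0)

end

end Pool.Agent.Helper26
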