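import Mathlib

set_option autoImplicit false
set_option linter.unusedSectionVars false

/-!
# The Cartier operator attached to a `2`-basis of a field of characteristic two
-/

namespace Pool.Agent.Helper26

/-- `θ` is a `2`-basis of the field `K`: every element is uniquely `u ^ 2 + θ * v ^ 2`. -/
structure IsTwoBasis {K : Type*} [Field K] (θ : K) : Prop where
  span : ∀ g : K, ∃ u v : K, g = u ^ 2 + θ * v ^ 2
  not_sq : ∀ s : K, s ^ 2 ≠ θ

section

variable {K : Type*} [Field K] [CharP K 2] {θ : K}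

lemma add_self_zero (x : K) : x + x = 0 := CharTwo.add_self_eq_zero x

lemma IsTwoBasis.unique (h : IsTwoBasis θ) {u v u' v' : K}
    (e : u ^ 2 + θ * v ^ 2 = u' ^ 2 + θ * v' ^ 2) : u = u' ∧ v = v' := by
  have e1 : (u + u') ^ 2 + θ * (v + v') ^ 2 = 0 := by
    rw [CharTwo.add_sq, CharTwo.add_sq]
    linear_combination e + CharTwo.add_self_eq_zero (u' ^ 2) +
      CharTwo.add_self_eq_zero (θ * v' ^ 2)
  have hv : v + v' = 0 := by
    by_contra hne
    apply h.not_sq ((u + u') / (v + v'))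
    have h2 : (v + v') ^ 2 ≠ 0 := pow_ne_zero _ hne
    rw [div_pow, div_eq_iff h2]
    have := eq_neg_of_add_eq_zero_left e1
    rw [this, CharTwo.neg_eq]
  have hu : u + u' = 0 := by
    rw [hv] at e1
    simpa using e1
  exact ⟨CharTwo.add_eq_zero.1 hu, CharTwo.add_eq_zero.1 hv⟩

/-- The Cartier operator: `cart (u ^ 2 + θ * v ^ 2) = v`. -/
noncomputable def IsTwoBasis.cart (h : IsTwoBasis θ) (g : K) : K :=
  (h.span g).choose_spec.choose

/-- The square part: `sqp (u ^ 2 + θ * v ^ 2) = u`. -/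
noncomputable def IsTwoBasis.sqp (h : IsTwoBasis θ) (g : K) : K :=
  (h.span g).choose

lemma IsTwoBasis.eq (h : IsTwoBasis θ) (g : K) : g = h.sqp g ^ 2 + θ * h.cart g ^ 2 :=
  (h.span g).choose_spec.choose_spec

lemma IsTwoBasis.cart_eq (h : IsTwoBasis θ) {g u v : K} (e : g = u ^ 2 + θ * v ^ 2) :
    h.cart g = v :=
  (h.unique ((h.eq g).symm.trans e)).2

lemma IsTwoBasis.sqp_eq (h : IsTwoBasis θ) {g u v : K} (e : g = u ^ 2 + θ * v ^ 2) :
    h.sqp g = u :=
  (h.unique ((h.eq g).symm.trans e)).1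

lemma IsTwoBasis.cart_add (h : IsTwoBasis θ) (f g : K) :
    h.cart (f + g) = h.cart f + h.cart g := by
  apply h.cart_eq (u := h.sqp f + h.sqp g)
  rw [CharTwo.add_sq, CharTwo.add_sq]
  nth_rewrite 1 [h.eq f]
  nth_rewrite 1 [h.eq g]
  ring

lemma IsTwoBasis.cart_sq_mul (h : IsTwoBasis θ) (x g : K) :
    h.cart (x ^ 2 * g) = x * h.cart g := by
  apply h.cart_eq (u := x * h.sqp g)
  nth_rewrite 1 [h.eq g]
  ring

lemma IsTwoBasis.cart_mul_sq (h : IsTwoBasis θ) (x g : K) :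
    h.cart (g * x ^ 2) = h.cart g * x := by
  rw [mul_comm, h.cart_sq_mul, mul_comm]

lemma IsTwoBasis.cart_sq (h : IsTwoBasis θ) (x : K) : h.cart (x ^ 2) = 0 :=
  h.cart_eq (u := x) (by ring)

@[simp] lemma IsTwoBasis.cart_zero (h : IsTwoBasis θ) : h.cart 0 = 0 :=
  h.cart_eq (u := 0) (by ring)

@[simp] lemma IsTwoBasis.cart_one (h : IsTwoBasis θ) : h.cart 1 = 0 :=
  h.cart_eq (u := 1) (by ring)

lemma IsTwoBasis.cart_theta_mul_sq (h : IsTwoBasis θ) (x : K) : h.cart (θ * x ^ 2) = x :=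
  h.cart_eq (u := 0) (by ring)

lemma IsTwoBasis.cart_theta (h : IsTwoBasis θ) : h.cart θ = 1 :=
  h.cart_eq (u := 0) (by ring)

lemma IsTwoBasis.cart_theta_mul (h : IsTwoBasis θ) (g : K) : h.cart (θ * g) = h.sqp g := by
  apply h.cart_eq (u := θ * h.cart g)
  nth_rewrite 1 [h.eq g]
  ring

/-- The Cartier operator as an additive map. -/
noncomputable def IsTwoBasis.cartHom (h : IsTwoBasis θ) : K →+ K where
  toFun := h.cart
  map_zero' := h.cart_zero
  map_add' := h.cart_add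

@[simp] lemma IsTwoBasis.cartHom_apply (h : IsTwoBasis θ) (g : K) : h.cartHom g = h.cart g := rfl

lemma IsTwoBasis.cart_sum (h : IsTwoBasis θ) {ι : Type*} (s : Finset ι) (f : ι → K) :
    h.cart (∑ i ∈ s, f i) = ∑ i ∈ s, h.cart (f i) :=
  map_sum h.cartHom f s

/-- An element with `cart g = 0` is a square. -/
lemma IsTwoBasis.eq_sq_of_cart (h : IsTwoBasis θ) {g : K} (hg : h.cart g = 0) :
    g = h.sqp g ^ 2 := by
  have := h.eq g
  rwa [hg, zero_pow two_ne_zero, mul_zero, add_zero] at this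

/-- Change of the `2`-basis. -/
lemma IsTwoBasis.cart_change {θ' : K} (h : IsTwoBasis θ) (h' : IsTwoBasis θ') (g : K) :
    h.cart g = h.cart θ' * h'.cart g := by
  nth_rewrite 1 [h'.eq g]
  rw [h.cart_add, h.cart_sq, zero_add, h.cart_mul_sq]

/-- A fixed vector of the Cartier operator: `φ * ψ` is a square only if `φ = ψ`. -/
lemma IsTwoBasis.fixed_inj (h : IsTwoBasis θ) {φ ψ : K} (hφ : h.cart φ = φ) (hψ : h.cart ψ = ψ)
    (hφ0 : φ ≠ 0) (hψ0 : ψ ≠ 0) {s : K} (hs : φ * ψ = s ^ 2) : φ = ψ := by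
  have e1 := h.eq φ
  have e2 := h.eq ψ
  rw [hφ] at e1
  rw [hψ] at e2
  -- φψ(φ+ψ) is a square
  have e3 : (φ + ψ) * s ^ 2 = (h.sqp φ * ψ + h.sqp ψ * φ) ^ 2 := by
    rw [CharTwo.add_sq, ← hs]
    have e1' : h.sqp φ ^ 2 = φ + θ * φ ^ 2 := by
      linear_combination e1 + CharTwo.add_self_eq_zero (h.sqp φ ^ 2)
        - CharTwo.add_self_eq_zero φ
    have e2' : h.sqp ψ ^ 2 = ψ + θ * ψ ^ 2 := by
      linear_combination e2 + CharTwo.add_self_eq_zero (h.sqp ψ ^ 2)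
        - CharTwo.add_self_eq_zero ψ
    rw [mul_pow, mul_pow, e1', e2']
    linear_combination -CharTwo.add_self_eq_zero (θ * φ ^ 2 * ψ ^ 2)
  have hs0 : s ≠ 0 := by
    rintro rfl
    rw [zero_pow two_ne_zero] at hs
    exact (mul_ne_zero hφ0 hψ0) hs
  have e4 : φ + ψ = ((h.sqp φ * ψ + h.sqp ψ * φ) / s) ^ 2 := by
    rw [div_pow, eq_div_iff (pow_ne_zero _ hs0)]
    exact e3
  have e5 : h.cart (φ + ψ) = 0 := by rw [e4, h.cart_sq]
  rw [h.cart_add, hφ, hψ] at e5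
  exact CharTwo.add_eq_zero.1 e5

end

end Pool.Agent.Helper26
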