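import Mathlib
import Pool.Agent.Helper26.Cart

set_option autoImplicit false
set_option linter.unusedSectionVars false

/-!
# Logarithmic derivatives and norms from Artin-Schreier quadratic extensions
-/

namespace Pool.Agent.Helper26

section

variable {K : Type*} [Field K] [CharP K 2] {θ : K}

/-- The norm form `X² + XY + aY²`. -/
def nf {R : Type*} [CommRing R] (a X Y : R) : R := X ^ 2 + X * Y + a * Y ^ 2

/-- The logarithmic derivative with respect to the `2`-basis. -/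
noncomputable def IsTwoBasis.dl (h : IsTwoBasis θ) (e : K) : K := h.cart e ^ 2 / e

lemma IsTwoBasis.cart_mul (h : IsTwoBasis θ) (x y : K) :
    h.cart (x * y) = h.sqp x * h.cart y + h.cart x * h.sqp y := by
  apply h.cart_eq (u := h.sqp x * h.sqp y + θ * (h.cart x * h.cart y))
  rw [CharTwo.add_sq, CharTwo.add_sq]
  nth_rewrite 1 [h.eq x]
  nth_rewrite 1 [h.eq y]
  ring

lemma IsTwoBasis.cart_mul_pow (h : IsTwoBasis θ) (x y : K) :
    h.cart (x * y) ^ 2 = x * h.cart y ^ 2 + y * h.cart x ^ 2 := by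
  rw [h.cart_mul, CharTwo.add_sq]
  have h1 := h.eq x
  have h2 := h.eq y
  have h3 : θ * h.cart x ^ 2 * h.cart y ^ 2 + θ * h.cart x ^ 2 * h.cart y ^ 2 = 0 :=
    CharTwo.add_self_eq_zero _
  linear_combination -h.cart y ^ 2 * h1 - h.cart x ^ 2 * h2 - h3

lemma IsTwoBasis.dl_mul (h : IsTwoBasis θ) {x y : K} (hx : x ≠ 0) (hy : y ≠ 0) :
    h.dl (x * y) = h.dl x + h.dl y := by
  rw [dl, dl, dl, h.cart_mul_pow]
  field_simp
  ring

lemma IsTwoBasis.dl_sq (h : IsTwoBasis θ) (x : K) : h.dl (x ^ 2) = 0 := by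
  rw [dl, h.cart_sq]; simp

@[simp] lemma IsTwoBasis.dl_one (h : IsTwoBasis θ) : h.dl 1 = 0 := by
  rw [dl, h.cart_one]; simp

lemma IsTwoBasis.dl_inv (h : IsTwoBasis θ) {x : K} (hx : x ≠ 0) : h.dl x⁻¹ = h.dl x := by
  have h1 := h.dl_mul hx (inv_ne_zero hx)
  rw [mul_inv_cancel₀ hx, h.dl_one] at h1
  exact (CharTwo.add_eq_zero.1 h1.symm).symm

lemma IsTwoBasis.cart_dl (h : IsTwoBasis θ) (e : K) : h.cart (h.dl e) = h.dl e := by
  by_cases he : e = 0
  · subst he; simp [dl]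
  have h1 : h.dl e = (h.cart e / e) ^ 2 * e := by rw [dl]; field_simp
  rw [h1, h.cart_sq_mul]
  field_simp

/-- An element fixed by the Cartier operator is a logarithmic derivative. -/
lemma IsTwoBasis.eq_dl_of_fixed (h : IsTwoBasis θ) {q : K} (hq : h.cart q = q) (hq0 : q ≠ 0) :
    q = h.dl q⁻¹ := by
  rw [h.dl_inv hq0, dl, hq]
  field_simp

/-- The symbol of `a` and `e`. -/
noncomputable def IsTwoBasis.sym (h : IsTwoBasis θ) (a e : K) : K := h.cart (a * h.dl e)

lemma IsTwoBasis.sym_mul (h : IsTwoBasis θ) (a : K) {x y : K} (hx : x ≠ 0) (hy : y ≠ 0) :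
    h.sym a (x * y) = h.sym a x + h.sym a y := by
  rw [sym, sym, sym, h.dl_mul hx hy, mul_add, h.cart_add]

@[simp] lemma IsTwoBasis.sym_one (h : IsTwoBasis θ) (a : K) : h.sym a 1 = 0 := by
  rw [sym, h.dl_one, mul_zero, h.cart_zero]

lemma IsTwoBasis.sym_sq (h : IsTwoBasis θ) (a x : K) : h.sym a (x ^ 2) = 0 := by
  rw [sym, h.dl_sq, mul_zero, h.cart_zero]

/-- A non-square is a `2`-basis. -/
lemma IsTwoBasis.of_not_sq (h : IsTwoBasis θ) {e : K} (he : ∀ s : K, s ^ 2 ≠ e) : IsTwoBasis e where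
  span := by
    intro g
    have hc : h.cart e ≠ 0 := by
      intro h0
      exact he _ (h.eq_sq_of_cart h0).symm
    have h1 := h.eq e
    have h2 := h.eq g
    refine ⟨h.sqp g + h.sqp e * h.cart g / h.cart e, h.cart g / h.cart e, ?_⟩
    rw [CharTwo.add_sq]
    have h3 : e * (h.cart g / h.cart e) ^ 2 =
        (h.sqp e * h.cart g / h.cart e) ^ 2 + θ * h.cart g ^ 2 := by
      nth_rewrite 1 [h1]
      field_simp
    rw [h3]
    have h4 : (h.sqp e * h.cart g / h.cart e) ^ 2 + (h.sqp e * h.cart g / h.cart e) ^ 2 = 0 :=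
      CharTwo.add_self_eq_zero _
    linear_combination h2 - h4
  not_sq := he

lemma IsTwoBasis.sym_nonsq (h : IsTwoBasis θ) {e : K} (he : IsTwoBasis e) (a : K) :
    h.sym a e = h.cart e ^ 2 / e * he.sqp a := by
  have he0 : e ≠ 0 := by
    rintro h0
    exact he.not_sq 0 (by rw [h0]; ring)
  have h1 : a * h.dl e = (h.cart e / e) ^ 2 * (e * a) := by rw [dl]; field_simp
  rw [sym, h1, h.cart_sq_mul, h.cart_change he (e * a), he.cart_theta_mul]
  ring

/-- The key identity. -/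
lemma IsTwoBasis.sym_key (h : IsTwoBasis θ) {e : K} (he : IsTwoBasis e) {a P η : K}
    (hP : h.sym a e = P + h.cart P + η) :
    ∃ R Z : K, a = R ^ 2 + R + e * Z ^ 2 + η * (e / h.cart e ^ 2) := by
  have he0 : e ≠ 0 := by
    rintro h0
    exact he.not_sq 0 (by rw [h0]; ring)
  have hc : h.cart e ≠ 0 := by
    intro h0
    exact he.not_sq _ (h.eq_sq_of_cart h0).symm
  set Q := P * (e / h.cart e ^ 2) with hQ
  have hPQ : P = (h.cart e / e) ^ 2 * (e * Q) := by rw [hQ]; field_simp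
  have h1 : h.cart P = h.cart e ^ 2 / e * he.sqp Q := by
    rw [hPQ, h.cart_sq_mul, h.cart_change he (e * Q), he.cart_theta_mul]
    ring
  rw [h.sym_nonsq he, h1] at hP
  have h2 : he.sqp a = Q + he.sqp Q + η * (e / h.cart e ^ 2) := by
    have h3 : he.sqp a = (h.cart e ^ 2 / e * he.sqp a) * (e / h.cart e ^ 2) := by
      field_simp
    rw [h3, hP, hQ]
    field_simp
  have h4 := he.eq a
  have h5 := he.eq Q
  refine ⟨he.sqp a + he.sqp Q, he.cart a + he.cart Q, ?_⟩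
  rw [CharTwo.add_sq, CharTwo.add_sq]
  have h6 : he.sqp a + he.sqp a = 0 := CharTwo.add_self_eq_zero _
  have h7 : Q + Q = 0 := CharTwo.add_self_eq_zero _
  have h8 : he.sqp Q + he.sqp Q = 0 := CharTwo.add_self_eq_zero _
  linear_combination h4 + h5 + h2 - h6

/-- A norm has trivial symbol. -/
lemma IsTwoBasis.sym_of_norm (h : IsTwoBasis θ) {a X Y : K} (h0 : nf a X Y ≠ 0) :
    ∃ P : K, h.sym a (nf a X Y) = P + h.cart P := by
  set e := nf a X Y with he
  by_cases hY : Y = 0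
  · refine ⟨0, ?_⟩
    have : e = X ^ 2 := by rw [he, nf, hY]; ring
    rw [this, h.sym_sq, h.cart_zero, add_zero]
  refine ⟨X / Y * h.dl e, ?_⟩
  have h1 : a = e / Y ^ 2 + (X / Y) ^ 2 + X / Y := by
    rw [he, nf]
    field_simp
    have h2 : X ^ 2 + X ^ 2 = 0 := CharTwo.add_self_eq_zero _
    have h3 : X * Y + X * Y = 0 := CharTwo.add_self_eq_zero _
    linear_combination -h2 - h3
  have h2 : a * h.dl e = (h.cart e / Y) ^ 2 + (X / Y) ^ 2 * h.dl e + X / Y * h.dl e := by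
    nth_rewrite 1 [h1]
    rw [IsTwoBasis.dl]
    field_simp
  rw [sym, h2, h.cart_add, h.cart_add, h.cart_sq, h.cart_sq_mul, h.cart_dl, zero_add]

/-- A symbol which is trivial comes from a norm. -/
lemma IsTwoBasis.norm_of_sym (h : IsTwoBasis θ) {a e P : K} (he0 : e ≠ 0)
    (hP : h.sym a e = P + h.cart P) : ∃ X Y : K, e = nf a X Y := by
  by_cases hsq : ∃ s : K, s ^ 2 = e
  · obtain ⟨s, rfl⟩ := hsq
    exact ⟨s, 0, by rw [nf]; ring⟩
  push Not at hsq
  have he := h.of_not_sq hsq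
  obtain ⟨R, Z, hRZ⟩ := h.sym_key he (η := 0) (by rw [hP, add_zero])
  rw [zero_mul, add_zero] at hRZ
  by_cases hZ : Z = 0
  · -- the extension is split
    rw [hZ] at hRZ
    refine ⟨e + R * (1 + e), 1 + e, ?_⟩
    rw [nf, hRZ]
    have h1 : ∀ x : K, x + x = 0 := fun x => CharTwo.add_self_eq_zero x
    have e1 : (e + R * (1 + e)) ^ 2 = e ^ 2 + R ^ 2 * (1 + e) ^ 2 := by
      rw [CharTwo.add_sq]; ring
    rw [e1]
    linear_combination -h1 (R ^ 2 * (1 + e) ^ 2) - h1 (R * (1 + e) ^ 2) - h1 (e ^ 2)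
  · refine ⟨R / Z, 1 / Z, ?_⟩
    rw [nf, hRZ]
    field_simp
    have h1 : ∀ x : K, x + x = 0 := fun x => CharTwo.add_self_eq_zero x
    linear_combination -h1 (R ^ 2) - h1 R

end

end Pool.Agent.Helper26
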