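import Mathlib

set_option autoImplicit false
set_option linter.unusedSectionVars false

/-!
# The cokernel of `1 - c` for a contracting endomorphism
-/

namespace Pool.Agent.Helper26

/-- Let `c` be an additive endomorphism of `M` which moves everything into a finite stable
subgroup `G₀`, and let `inv` be a surjective `c`-invariant map onto `(ZMod 2) ^ S`. If `c` has at
most `2 ^ #S` fixed points, then the kernel of `inv` is the image of `1 - c`. -/
theorem contract_coker {M : Type*} [AddCommGroup M] (c : M →+ M) (G₀ : AddSubgroup M)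
    (hfin : Finite G₀) (hstab : ∀ g ∈ G₀, c g ∈ G₀)
    (habs : ∀ g, ∃ n : ℕ, (c^[n]) g ∈ G₀)
    {S : Type*} [Fintype S] (inv : M →+ (S → ZMod 2)) (hsurj : Function.Surjective inv)
    (hinv : ∀ g, inv (c g) = inv g)
    (hker : Nat.card {g : M // c g = g} ≤ 2 ^ Fintype.card S)
    (hkerfin : Finite {g : M // c g = g})
    (g : M) (hg : inv g = 0) : ∃ h, g = h - c h := by
  classical
  -- restrict to `G₀`
  let c₀ : G₀ →+ G₀ := (c.comp G₀.subtype).codRestrict G₀ fun x => hstab x x.2
  let δ : G₀ →+ G₀ := AddMonoidHom.id G₀ - c₀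
  let inv₀ : G₀ →+ (S → ZMod 2) := inv.comp G₀.subtype
  have hiter : ∀ n : ℕ, ∀ x : M, inv ((c^[n]) x) = inv x := by
    intro n
    induction n with
    | zero => intro x; rfl
    | succ n ih => intro x; rw [Function.iterate_succ_apply, ih, hinv]
  have hsurj₀ : Function.Surjective inv₀ := by
    intro s
    obtain ⟨x, hx⟩ := hsurj s
    obtain ⟨n, hn⟩ := habs x
    refine ⟨⟨_, hn⟩, ?_⟩
    change inv ((c^[n]) x) = s
    rw [hiter, hx]
  have hle : δ.range ≤ inv₀.ker := by
    rintro _ ⟨x, rfl⟩
    rw [AddMonoidHom.mem_ker]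
    change inv ((x : M) - c x) = 0
    rw [map_sub, hinv, sub_self]
  have h1 : δ.range.index = Nat.card δ.ker := AddSubgroup.index_range
  have h2 : Nat.card δ.ker ≤ 2 ^ Fintype.card S := by
    refine le_trans ?_ hker
    refine Nat.card_le_card_of_injective
      (fun x : δ.ker => (⟨((x : G₀) : M), ?_⟩ : {g : M // c g = g})) ?_
    · have h3 : δ x = 0 := x.2
      have h4 : ((x : G₀) : M) - c ((x : G₀) : M) = 0 := congrArg (Subtype.val) h3
      exact (sub_eq_zero.1 h4).symm
    · intro x y hxy
      have : ((x : G₀) : M) = ((y : G₀) : M) := congrArg (fun z : {g : M // c g = g} => z.1) hxy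
      exact Subtype.ext (Subtype.ext this)
  have h3 : inv₀.ker.index = 2 ^ Fintype.card S := by
    rw [AddSubgroup.index_ker, AddMonoidHom.range_eq_top.2 hsurj₀, AddSubgroup.card_top,
      Nat.card_eq_fintype_card, Fintype.card_fun, ZMod.card]
  have h4 : Nat.card δ.range * δ.range.index = Nat.card G₀ := AddSubgroup.card_mul_index _
  have h5 : Nat.card inv₀.ker * inv₀.ker.index = Nat.card G₀ := AddSubgroup.card_mul_index _
  have h6 : Nat.card inv₀.ker ≤ Nat.card δ.range := by
    by_contra hlt
    push Not at hlt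
    have h7 : δ.range.index ≤ 2 ^ Fintype.card S := h1 ▸ h2
    have h8 : Nat.card δ.range * δ.range.index < Nat.card inv₀.ker * inv₀.ker.index := by
      rw [h3]
      calc Nat.card δ.range * δ.range.index ≤ Nat.card δ.range * 2 ^ Fintype.card S :=
            Nat.mul_le_mul_left _ h7
        _ < Nat.card inv₀.ker * 2 ^ Fintype.card S :=
            Nat.mul_lt_mul_of_pos_right hlt (by positivity)
    omega
  have h7 : δ.range = inv₀.ker := AddSubgroup.eq_of_le_of_card_ge hle h6
  -- the telescoping argument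
  have htel : ∀ n : ℕ, ∀ x : M, ∃ h, x = (h - c h) + (c^[n]) x := by
    intro n
    induction n with
    | zero => intro x; exact ⟨0, by simp⟩
    | succ n ih =>
      intro x
      obtain ⟨h, hh⟩ := ih x
      refine ⟨h + (c^[n]) x, ?_⟩
      rw [Function.iterate_succ_apply', map_add]
      nth_rewrite 1 [hh]
      abel
  obtain ⟨n, hn⟩ := habs g
  have h8 : (⟨_, hn⟩ : G₀) ∈ inv₀.ker := by
    rw [AddMonoidHom.mem_ker]
    change inv ((c^[n]) g) = 0
    rw [hiter, hg]
  rw [← h7] at h8
  obtain ⟨y, hy⟩ := h8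
  have h9 : (y : M) - c y = (c^[n]) g := congrArg Subtype.val hy
  obtain ⟨h, hh⟩ := htel n g
  refine ⟨h + y, ?_⟩
  rw [map_add, hh, ← h9]
  abel

end Pool.Agent.Helper26
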