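import Mathlib
import Pool.Agent.Helper26.Cart

set_option autoImplicit false
set_option linter.unusedSectionVars false

/-!
# The `2`-basis `X` of `RatFunc F` for a finite field `F` of characteristic two
-/

namespace Pool.Agent.Helper26

open Polynomial

section

variable {F : Type*} [Field F] [Finite F] [CharP F 2]

lemma exists_sq (a : F) : ∃ b : F, b ^ 2 = a := by
  have : IsSquare a := FiniteField.isSquare_of_char_two (ringChar.eq F 2 |>.symm ▸ rfl) a
  obtain ⟨b, hb⟩ := this
  exact ⟨b, by rw [hb]; ring⟩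

/-- Every polynomial is `u ^ 2 + X * v ^ 2` with the expected degrees. -/
lemma poly_decomp (n : ℕ) : ∀ f : F[X], f.natDegree ≤ n → ∃ u v : F[X], f = u ^ 2 + X * v ^ 2 ∧
    2 * u.natDegree ≤ f.natDegree ∧ (v ≠ 0 → 2 * v.natDegree + 1 ≤ f.natDegree) := by
  induction n with
  | zero =>
    intro f hf
    obtain ⟨b, hb⟩ := exists_sq (f.coeff 0)
    refine ⟨C b, 0, ?_, by simp, by simp⟩
    rw [← C_pow, hb]
    simpa using eq_C_of_natDegree_le_zero hf
  | succ n ih =>
    intro f hf
    by_cases hf0 : f.natDegree = 0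
    · obtain ⟨b, hb⟩ := exists_sq (f.coeff 0)
      refine ⟨C b, 0, ?_, by simp, by simp⟩
      rw [← C_pow, hb]
      simpa using eq_C_of_natDegree_eq_zero hf0
    have hd : (divX f).natDegree = f.natDegree - 1 := natDegree_divX_eq_natDegree_tsub_one
    obtain ⟨u, v, e, hu, hv⟩ := ih (divX f) (by omega)
    obtain ⟨b, hb⟩ := exists_sq (f.coeff 0)
    refine ⟨X * v + C b, u, ?_, ?_, ?_⟩
    · rw [CharTwo.add_sq, ← C_pow, hb]
      have := (divX_mul_X_add f).symm
      rw [e] at this
      linear_combination this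
    · by_cases hv0 : v = 0
      · simp [hv0]
      · have h1 : (X * v + C b).natDegree = v.natDegree + 1 := by
          rw [natDegree_add_C, natDegree_X_mul hv0]
        have h2 := hv hv0
        omega
    · intro _
      omega

lemma poly_decomp' (f : F[X]) : ∃ u v : F[X], f = u ^ 2 + X * v ^ 2 ∧
    2 * u.natDegree ≤ f.natDegree ∧ (v ≠ 0 → 2 * v.natDegree + 1 ≤ f.natDegree) :=
  poly_decomp _ f le_rfl

lemma natDegree_sq_add (u v : F[X]) :
    (u ^ 2 + X * v ^ 2 = 0 → u = 0 ∧ v = 0) := by
  intro h
  by_cases hv : v = 0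
  · subst hv
    simpa using h
  · exfalso
    have h1 : u ^ 2 = X * v ^ 2 := by
      have := eq_neg_of_add_eq_zero_left h
      rwa [CharTwo.neg_eq] at this
    have h2 : (u ^ 2).natDegree = (X * v ^ 2).natDegree := by rw [h1]
    rw [natDegree_pow, natDegree_X_mul (pow_ne_zero _ hv), natDegree_pow] at h2
    omega

end

section

variable {F : Type*} [Field F] [Finite F] [CharP F 2]

instance charP_ratFunc : CharP (RatFunc F) 2 :=
  charP_of_injective_algebraMap (algebraMap F (RatFunc F)).injective 2

/-- `X` is a `2`-basis of `RatFunc F`. -/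
lemma isTwoBasis_X : IsTwoBasis (RatFunc.X : RatFunc F) where
  span := by
    intro g
    obtain ⟨u, v, e, -, -⟩ := poly_decomp' (g.num * g.denom)
    have hd : (algebraMap F[X] (RatFunc F) g.denom) ≠ 0 :=
      RatFunc.algebraMap_ne_zero g.denom_ne_zero
    refine ⟨algebraMap _ _ u / algebraMap _ _ g.denom, algebraMap _ _ v / algebraMap _ _ g.denom,
      ?_⟩
    have h1 : g = algebraMap F[X] (RatFunc F) g.num / algebraMap F[X] (RatFunc F) g.denom :=
      (RatFunc.num_div_denom g).symm
    have h2 := congrArg (algebraMap F[X] (RatFunc F)) e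
    rw [map_mul, map_add, map_pow, map_mul, map_pow, RatFunc.algebraMap_X] at h2
    rw [div_pow, div_pow, ← mul_div_assoc, ← add_div, ← h2]
    nth_rewrite 1 [h1]
    field_simp
  not_sq := by
    intro s hs
    have hd : (algebraMap F[X] (RatFunc F) s.denom) ≠ 0 :=
      RatFunc.algebraMap_ne_zero s.denom_ne_zero
    have h1 : s = algebraMap F[X] (RatFunc F) s.num / algebraMap F[X] (RatFunc F) s.denom :=
      (RatFunc.num_div_denom s).symm
    rw [h1, div_pow, div_eq_iff (pow_ne_zero _ hd), ← map_pow, ← map_pow, ← RatFunc.algebraMap_X,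
      ← map_mul] at hs
    have h2 := RatFunc.algebraMap_injective F hs
    have h3 : s.num ^ 2 + X * s.denom ^ 2 = 0 := by
      rw [h2]; exact CharTwo.add_self_eq_zero _
    exact s.denom_ne_zero (natDegree_sq_add _ _ h3).2

end

end Pool.Agent.Helper26
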