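import Mathlib
import Pool.Agent.Helper26.Cart
import Pool.Agent.Helper26.PolyCart

set_option autoImplicit false
set_option linter.unusedSectionVars false

/-!
# The residue at infinity on `RatFunc F`
-/

namespace Pool.Agent.Helper26

open Polynomial

section

variable {F : Type*} [Field F]

/-- The coefficient of `1 / X` in the expansion of `p / q` at infinity, `q` monic. -/
noncomputable def resP (p q : F[X]) : F := (p %ₘ q).coeff (q.natDegree - 1)

lemma natDegree_modByMonic_le' (p : F[X]) {q : F[X]} (hq : q.Monic) :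
    (p %ₘ q).natDegree ≤ q.natDegree - 1 := by
  by_cases h1 : q = 1
  · simp [h1]
  · have := natDegree_modByMonic_lt p hq h1
    omega

lemma resP_mul_right (p q s : F[X]) (hq : q.Monic) (hs : s.Monic) :
    resP (p * s) (q * s) = resP p q := by
  unfold resP
  have h1 : (p * s) %ₘ (q * s) = (p %ₘ q) * s := by
    have hqs : (q * s).Monic := hq.mul hs
    have h2 : (p %ₘ q) * s + (q * s) * (p /ₘ q) = p * s := by
      have := modByMonic_add_div p q
      linear_combination s * this
    have h3 : ((p %ₘ q) * s).degree < (q * s).degree := by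
      rw [degree_mul, degree_mul]
      have h4 := degree_modByMonic_lt p hq
      have h5 : s.degree ≠ ⊥ := by
        rw [Ne, degree_eq_bot]; exact hs.ne_zero
      exact WithBot.add_lt_add_right h5 h4
    exact ((div_modByMonic_unique _ _ hqs ⟨h2, h3⟩).2)
  rw [h1]
  by_cases h0 : q.natDegree = 0
  · have hq1 : q = 1 := hq.natDegree_eq_zero.1 h0
    simp [hq1]
  · have h2 : (q * s).natDegree - 1 = (q.natDegree - 1) + s.natDegree := by
      rw [hq.natDegree_mul hs]; omega
    rw [h2, coeff_mul_add_eq_of_natDegree_le (natDegree_modByMonic_le' p hq) le_rfl]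
    rw [show s.coeff s.natDegree = 1 from hs]
    rw [mul_one]

lemma resP_add (p p' q : F[X]) : resP (p + p') q = resP p q + resP p' q := by
  simp [resP, add_modByMonic]

lemma resP_C_mul (c : F) (p q : F[X]) : resP (C c * p) q = c * resP p q := by
  unfold resP
  rw [← smul_eq_C_mul, smul_modByMonic]
  simp

/-- The residue at infinity (up to sign). -/
noncomputable def res (f : RatFunc F) : F := resP f.num f.denom

lemma res_div (p q : F[X]) (hq : q.Monic) :
    res (algebraMap F[X] (RatFunc F) p / algebraMap F[X] (RatFunc F) q) = resP p q := by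
  set f := algebraMap F[X] (RatFunc F) p / algebraMap F[X] (RatFunc F) q with hf
  have h1 := RatFunc.num_div_denom f
  have hd : algebraMap F[X] (RatFunc F) f.denom ≠ 0 := RatFunc.algebraMap_ne_zero f.denom_ne_zero
  have hq0 : algebraMap F[X] (RatFunc F) q ≠ 0 := RatFunc.algebraMap_ne_zero hq.ne_zero
  have h2 : f.num * q = p * f.denom := by
    apply RatFunc.algebraMap_injective F
    rw [map_mul, map_mul]
    rw [hf, div_eq_div_iff hd hq0] at h1
    rw [← hf] at h1
    exact h1
  unfold res
  rw [← resP_mul_right f.num f.denom q (RatFunc.monic_denom f) hq, h2, mul_comm f.denom q,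
    resP_mul_right p q f.denom hq (RatFunc.monic_denom f)]

lemma exists_monic_rep (f : RatFunc F) : ∃ p q : F[X], q.Monic ∧
    f = algebraMap F[X] (RatFunc F) p / algebraMap F[X] (RatFunc F) q :=
  ⟨f.num, f.denom, RatFunc.monic_denom f, (RatFunc.num_div_denom f).symm⟩

lemma res_algebraMap (p : F[X]) : res (algebraMap F[X] (RatFunc F) p) = 0 := by
  have h := res_div p 1 monic_one
  rw [map_one, div_one] at h
  rw [h]
  simp [resP]

lemma res_add (f g : RatFunc F) : res (f + g) = res f + res g := by
  obtain ⟨p, q, hq, rfl⟩ := exists_monic_rep f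
  obtain ⟨p', q', hq', rfl⟩ := exists_monic_rep g
  have hq0 : algebraMap F[X] (RatFunc F) q ≠ 0 := RatFunc.algebraMap_ne_zero hq.ne_zero
  have hq0' : algebraMap F[X] (RatFunc F) q' ≠ 0 := RatFunc.algebraMap_ne_zero hq'.ne_zero
  rw [div_add_div _ _ hq0 hq0', ← map_mul, ← map_mul, ← map_mul, ← map_add,
    res_div _ _ (hq.mul hq'), res_div _ _ hq, res_div _ _ hq', resP_add,
    resP_mul_right _ _ _ hq hq', mul_comm q p', mul_comm q q',
    resP_mul_right _ _ _ hq' hq]

lemma res_C_mul (c : F) (f : RatFunc F) :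
    res (algebraMap F[X] (RatFunc F) (C c) * f) = c * res f := by
  obtain ⟨p, q, hq, rfl⟩ := exists_monic_rep f
  rw [← mul_div_assoc, ← map_mul, res_div _ _ hq, res_div _ _ hq, resP_C_mul]

/-- Non-degeneracy of the residue pairing. -/
lemma exists_res_ne_zero (f : RatFunc F)
    (hf : ∀ p : F[X], algebraMap F[X] (RatFunc F) p ≠ f) :
    ∃ j : ℕ, res (algebraMap F[X] (RatFunc F) (X ^ j) * f) ≠ 0 := by
  obtain ⟨p, q, hq, rfl⟩ := exists_monic_rep f
  have hq0 : algebraMap F[X] (RatFunc F) q ≠ 0 := RatFunc.algebraMap_ne_zero hq.ne_zero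
  set r := p %ₘ q with hr
  have hr0 : r ≠ 0 := by
    intro h0
    apply hf (p /ₘ q)
    have h1 := modByMonic_add_div p q
    rw [← hr, h0, zero_add] at h1
    rw [eq_div_iff hq0, ← map_mul, mul_comm, h1]
  have hq1 : q ≠ 1 := by
    rintro rfl
    exact hr0 (by rw [hr, modByMonic_one])
  have hlt := natDegree_modByMonic_lt p hq hq1
  rw [← hr] at hlt
  refine ⟨q.natDegree - 1 - r.natDegree, ?_⟩
  set j := q.natDegree - 1 - r.natDegree with hj
  rw [← mul_div_assoc, ← map_mul, res_div _ _ hq]
  unfold resP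
  have h1 : (X ^ j * p) %ₘ q = X ^ j * r := by
    have h2 : X ^ j * r + q * (X ^ j * (p /ₘ q)) = X ^ j * p := by
      have := modByMonic_add_div p q
      rw [← hr] at this
      linear_combination X ^ j * this
    have h3 : (X ^ j * r).degree < q.degree := by
      rw [degree_eq_natDegree (mul_ne_zero (pow_ne_zero _ X_ne_zero) hr0),
        degree_eq_natDegree hq.ne_zero, natDegree_mul (pow_ne_zero _ X_ne_zero) hr0,
        natDegree_X_pow]
      exact_mod_cast (by omega)
    exact (div_modByMonic_unique _ _ hq ⟨h2, h3⟩).2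
  rw [h1, show q.natDegree - 1 = r.natDegree + j by omega, coeff_X_pow_mul]
  exact leadingCoeff_ne_zero.2 hr0

variable [Finite F] [CharP F 2]

/-- Compatibility of the residue with the Cartier operator. -/
lemma res_cart (f : RatFunc F) : res (isTwoBasis_X.cart f) ^ 2 = res f := by
  obtain ⟨p, q, hq, rfl⟩ := exists_monic_rep f
  have hq0 : algebraMap F[X] (RatFunc F) q ≠ 0 := RatFunc.algebraMap_ne_zero hq.ne_zero
  -- divide `p * q` by `q ^ 2`
  set s := (p * q) /ₘ (q ^ 2) with hs
  set r := (p * q) %ₘ (q ^ 2) with hr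
  have hq2 : (q ^ 2).Monic := hq.pow 2
  have h1 : r + q ^ 2 * s = p * q := modByMonic_add_div _ _
  obtain ⟨u, v, e, hu, hv⟩ := poly_decomp' r
  obtain ⟨u', v', e', -, -⟩ := poly_decomp' s
  have hrdeg : r.natDegree ≤ (q ^ 2).natDegree - 1 := natDegree_modByMonic_le' _ hq2
  have hcart : isTwoBasis_X.cart
      (algebraMap F[X] (RatFunc F) p / algebraMap F[X] (RatFunc F) q) =
      algebraMap F[X] (RatFunc F) (v + q * v') / algebraMap F[X] (RatFunc F) q := by
    apply isTwoBasis_X.cart_eq (u := algebraMap F[X] (RatFunc F) (u + q * u') /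
      algebraMap F[X] (RatFunc F) q)
    have hq20 : algebraMap F[X] (RatFunc F) q ^ 2 ≠ 0 := pow_ne_zero _ hq0
    rw [div_pow, div_pow, ← mul_div_assoc, ← add_div, ← RatFunc.algebraMap_X, ← map_pow, ← map_pow,
      ← map_mul, ← map_add, div_eq_div_iff hq0 hq20, ← map_pow, ← map_mul, ← map_mul]
    congr 1
    rw [CharTwo.add_sq, CharTwo.add_sq]
    rw [e, e'] at h1
    linear_combination -q * h1
  rw [hcart, res_div _ _ hq]
  have h2 : res (algebraMap F[X] (RatFunc F) p / algebraMap F[X] (RatFunc F) q) =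
      resP (p * q) (q ^ 2) := by
    rw [res_div _ _ hq, pow_two, resP_mul_right _ _ _ hq hq]
  rw [h2]
  unfold resP
  rw [← hr]
  by_cases hq1 : q = 1
  · simp only [hq1, modByMonic_one, coeff_zero, one_pow, natDegree_one]
    rw [zero_pow two_ne_zero]
    have : r = 0 := by rw [hr, hq1]; simp
    rw [this, coeff_zero]
  have hqd : 0 < q.natDegree := by
    rcases Nat.eq_zero_or_pos q.natDegree with h | h
    · exact absurd (hq.natDegree_eq_zero.1 h) hq1
    · exact h
  have hq2d : (q ^ 2).natDegree = 2 * q.natDegree := by rw [natDegree_pow]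
  have hvd : v.natDegree ≤ q.natDegree - 1 := by
    by_cases hv0 : v = 0
    · simp [hv0]
    · have := hv hv0
      omega
  have h3 : (v + q * v') %ₘ q = v := by
    have h4 : v.degree < q.degree := by
      by_cases hv0 : v = 0
      · rw [hv0, degree_zero]
        exact bot_lt_iff_ne_bot.2 (by rw [Ne, degree_eq_bot]; exact hq.ne_zero)
      · exact degree_lt_degree (by omega)
    exact (div_modByMonic_unique _ _ hq ⟨rfl, h4⟩).2
  rw [h3, e, coeff_add, show (q ^ 2).natDegree - 1 = (2 * (q.natDegree - 1)) + 1 by omega,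
    coeff_X_mul]
  have h5 : (u ^ 2).coeff (2 * (q.natDegree - 1) + 1) = 0 := by
    apply coeff_eq_zero_of_natDegree_lt
    rw [natDegree_pow]
    omega
  rw [h5, zero_add, two_mul, pow_two v, coeff_mul_add_eq_of_natDegree_le hvd hvd, pow_two]

end

end Pool.Agent.Helper26
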