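import Mathlib
import Pool.Agent.Helper26.Cart

set_option autoImplicit false
set_option linter.unusedSectionVars false

/-!
# Extension of a `2`-basis to a separable extension, and compatibility with the trace
-/

namespace Pool.Agent.Helper26

section

variable {k K : Type*} [Field k] [Field K] [Algebra k K] [CharP k 2] [CharP K 2]

/-- A `2`-basis of `k` is a `2`-basis of every separable algebraic extension. -/
lemma IsTwoBasis.extend [Algebra.IsSeparable k K] {θ : k} (h : IsTwoBasis θ) :
    IsTwoBasis (algebraMap k K θ) where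
  span := by
    intro g
    have hq : ExpChar k 2 := ExpChar.prime Nat.prime_two
    have h1 := Field.span_map_pow_expChar_pow_eq_top_of_isSeparable (F := k) (E := K) 2 1
      (v := fun x : K => x) (by rw [Set.range_id']; exact Submodule.span_univ)
    have h2 : g ∈ Submodule.span k (Set.range fun x : K => x ^ 2 ^ 1) := by
      rw [h1]; trivial
    refine Submodule.span_induction (p := fun g _ => ∃ u v : K, g = u ^ 2 + algebraMap k K θ * v ^ 2)
      ?_ ?_ ?_ ?_ h2
    · rintro _ ⟨x, rfl⟩
      exact ⟨x, 0, by simp⟩
    · exact ⟨0, 0, by simp⟩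
    · rintro _ _ _ _ ⟨u, v, rfl⟩ ⟨u', v', rfl⟩
      refine ⟨u + u', v + v', ?_⟩
      rw [CharTwo.add_sq, CharTwo.add_sq]
      ring
    · rintro a _ _ ⟨u, v, rfl⟩
      obtain ⟨p, q, rfl⟩ := h.span a
      refine ⟨algebraMap k K p * u + algebraMap k K θ * algebraMap k K q * v,
        algebraMap k K p * v + algebraMap k K q * u, ?_⟩
      rw [Algebra.smul_def, map_add, map_mul, map_pow, map_pow, CharTwo.add_sq, CharTwo.add_sq]
      ring
  not_sq := by
    intro s hs
    have hq : ExpChar k 2 := ExpChar.prime Nat.prime_two
    have h1 : s ∈ perfectClosure k K := by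
      rw [mem_perfectClosure_iff_pow_mem 2]
      exact ⟨1, θ, by rw [pow_one, hs]⟩
    rw [perfectClosure.eq_bot_of_isSeparable, IntermediateField.mem_bot] at h1
    obtain ⟨x, rfl⟩ := h1
    apply h.not_sq x
    rw [← map_pow] at hs
    exact (algebraMap k K).injective hs

lemma trace_sq [FiniteDimensional k K] [Algebra.IsSeparable k K] (x : K) :
    Algebra.trace k K (x ^ 2) = Algebra.trace k K x ^ 2 := by
  let E := AlgebraicClosure k
  have : CharP E 2 := charP_of_injective_algebraMap (algebraMap k E).injective 2
  apply (algebraMap k E).injective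
  rw [(algebraMap k E).map_pow, trace_eq_sum_embeddings E, trace_eq_sum_embeddings E]
  have h1 := map_sum (frobenius E 2) (fun σ : K →ₐ[k] E => σ x) Finset.univ
  simp only [frobenius_def] at h1
  rw [h1]
  simp

lemma IsTwoBasis.trace_cart [FiniteDimensional k K] [Algebra.IsSeparable k K] {θ : k}
    (h : IsTwoBasis θ) (h' : IsTwoBasis (algebraMap k K θ)) (x : K) :
    Algebra.trace k K (h'.cart x) = h.cart (Algebra.trace k K x) := by
  symm
  apply h.cart_eq (u := Algebra.trace k K (h'.sqp x))
  nth_rewrite 1 [h'.eq x]
  rw [map_add, trace_sq, ← Algebra.smul_def, LinearMap.map_smul, trace_sq, smul_eq_mul]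

end

end Pool.Agent.Helper26
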