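import Mathlib
import Pool.Agent.Helper26.Cart
import Pool.Agent.Helper26.PolyCart
import Pool.Agent.Helper26.TwoBasisExt
import Pool.Agent.Helper26.Res

set_option autoImplicit false
set_option linter.unusedSectionVars false

/-!
# Trace duals and the Cartier operator
-/

namespace Pool.Agent.Helper26

open Polynomial IsDedekindDomain

/-- The ring of integers of a function field. -/
noncomputable abbrev OK (F K : Type*) [Field F] [Field K] [Algebra F[X] K] := FunctionField.ringOfIntegers F K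

section

variable (F K : Type*) [Field F] [Finite F] [CharP F 2] [Field K] [CharP K 2]
  [Algebra F[X] K] [Algebra (RatFunc F) K] [IsScalarTower F[X] (RatFunc F) K]
  [FunctionField F K] [Algebra.IsSeparable (RatFunc F) K]

lemma isTwoBasis_K : IsTwoBasis (algebraMap (RatFunc F) K RatFunc.X) :=
  isTwoBasis_X.extend

end

section

variable {F K : Type*} [Field F] [Field K]
  [Algebra F[X] K] [Algebra (RatFunc F) K] [IsScalarTower F[X] (RatFunc F) K]

/-- The trace dual of an ideal. -/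
def TD (I : Ideal (OK F K)) : AddSubgroup K where
  carrier := {g | ∀ h ∈ I, ∃ p : F[X], algebraMap F[X] (RatFunc F) p =
    Algebra.trace (RatFunc F) K (g * algebraMap (OK F K) K h)}
  zero_mem' := fun h _ => ⟨0, by simp⟩
  add_mem' := by
    intro a b ha hb h hh
    obtain ⟨p, hp⟩ := ha h hh
    obtain ⟨q, hq⟩ := hb h hh
    exact ⟨p + q, by rw [map_add, hp, hq, add_mul, map_add]⟩
  neg_mem' := by
    intro a ha h hh
    obtain ⟨p, hp⟩ := ha h hh
    exact ⟨-p, by rw [map_neg, hp, neg_mul, map_neg]⟩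

lemma mem_TD {I : Ideal (OK F K)} {g : K} : g ∈ TD I ↔ ∀ h ∈ I, ∃ p : F[X],
    algebraMap F[X] (RatFunc F) p = Algebra.trace (RatFunc F) K (g * algebraMap (OK F K) K h) :=
  Iff.rfl

lemma TD_anti {I J : Ideal (OK F K)} (h : I ≤ J) : TD J ≤ TD I :=
  fun _ hg x hx => hg x (h hx)

lemma TD_mul_mem {I J : Ideal (OK F K)} {g : K} (hg : g ∈ TD I) (s : OK F K)
    (hs : ∀ x ∈ J, s * x ∈ I) : algebraMap (OK F K) K s * g ∈ TD J := by
  intro x hx
  obtain ⟨p, hp⟩ := hg (s * x) (hs x hx)
  refine ⟨p, ?_⟩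
  rw [hp, (algebraMap (OK F K) K).map_mul]
  congr 1
  ring

variable [FunctionField F K] [Algebra.IsSeparable (RatFunc F) K]

lemma OK_le_TD (x : OK F K) (I : Ideal (OK F K)) : algebraMap (OK F K) K x ∈ TD I := by
  intro h _
  have h1 : IsIntegral F[X] (Algebra.trace (RatFunc F) K
      (algebraMap (OK F K) K x * algebraMap (OK F K) K h)) := by
    apply Algebra.isIntegral_trace
    rw [← map_mul]
    exact (x * h).2
  obtain ⟨p, hp⟩ := IsIntegrallyClosed.isIntegral_iff.1 h1
  exact ⟨p, hp⟩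

variable [Finite F] [CharP F 2] [CharP K 2]

lemma cart_algebraMap (p : F[X]) : ∃ q : F[X], algebraMap F[X] (RatFunc F) q =
    isTwoBasis_X.cart (algebraMap F[X] (RatFunc F) p) ∧
    (q ≠ 0 → 2 * q.natDegree + 1 ≤ p.natDegree) := by
  obtain ⟨u, v, e, -, hv⟩ := poly_decomp' p
  refine ⟨v, ?_, hv⟩
  symm
  apply isTwoBasis_X.cart_eq (u := algebraMap F[X] (RatFunc F) u)
  rw [e, map_add, map_mul, map_pow, map_pow, RatFunc.algebraMap_X]

lemma trace_cart_mul (g h : K) :
    Algebra.trace (RatFunc F) K ((isTwoBasis_K F K).cart g * h) =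
      isTwoBasis_X.cart (Algebra.trace (RatFunc F) K (g * h ^ 2)) := by
  rw [← (isTwoBasis_K F K).cart_mul_sq, isTwoBasis_X.trace_cart]

lemma cart_mem_TD {I : Ideal (OK F K)} {g : K} (hg : g ∈ TD I) :
    (isTwoBasis_K F K).cart g ∈ TD I := by
  intro h hh
  rw [trace_cart_mul]
  obtain ⟨p, hp⟩ := hg (h ^ 2) (Ideal.pow_mem_of_mem I hh 2 (by norm_num))
  rw [map_pow] at hp
  rw [← hp]
  obtain ⟨q, hq, -⟩ := cart_algebraMap p
  exact ⟨q, hq⟩

end

end Pool.Agent.Helper26
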