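import Mathlib
import Pool.Agent.Helper26.TraceDual

set_option autoImplicit false
set_option linter.unusedSectionVars false

/-!
# A finite stable absorbing subgroup of the trace dual
-/

namespace Pool.Agent.Helper26

open Polynomial IsDedekindDomain

lemma finite_natDegree_le {F : Type*} [Field F] [Finite F] (n : ℕ) :
    Finite {p : F[X] // p.natDegree ≤ n} := by
  refine Finite.of_injective (β := Fin (n + 1) → F) (fun p i => p.1.coeff i) ?_
  rintro ⟨p, hp⟩ ⟨q, hq⟩ h
  rw [Subtype.mk.injEq]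
  ext m
  by_cases hm : m < n + 1
  · exact congrFun h ⟨m, hm⟩
  · rw [coeff_eq_zero_of_natDegree_lt (by omega), coeff_eq_zero_of_natDegree_lt (by omega)]

section

variable {F K : Type*} [Field F] [Field K]
  [Algebra F[X] K] [Algebra (RatFunc F) K] [IsScalarTower F[X] (RatFunc F) K]
  [FunctionField F K] [Algebra.IsSeparable (RatFunc F) K]

lemma exists_basis_in_ideal (I : Ideal (OK F K)) (hI : I ≠ ⊥) :
    ∃ (n : ℕ) (b : Module.Basis (Fin n) (RatFunc F) K) (e : Fin n → OK F K),
      (∀ i, e i ∈ I) ∧ ∀ i, b i = algebraMap (OK F K) K (e i) := by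
  have hfd : FiniteDimensional (RatFunc F) K := ‹FunctionField F K›
  obtain ⟨s, b, hb⟩ := FiniteDimensional.exists_is_basis_integral F[X] (RatFunc F) K
  obtain ⟨a, ha, ha0⟩ := Submodule.exists_mem_ne_zero_of_ne_bot hI
  have ha0' : algebraMap (OK F K) K a ≠ 0 := by
    intro h
    exact ha0 ((IsFractionRing.injective (OK F K) K) (by rw [h, map_zero]))
  let φ : K ≃ₗ[RatFunc F] K := LinearEquiv.ofInjectiveEndo
    (LinearMap.mulLeft (RatFunc F) (algebraMap (OK F K) K a))
    (mul_right_injective₀ ha0')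
  let b' := (b.map φ).reindex (Fintype.equivFin s)
  refine ⟨Fintype.card s, b', fun i => a * ⟨b ((Fintype.equivFin s).symm i), hb _⟩, ?_, ?_⟩
  · intro i
    exact Ideal.mul_mem_right _ _ ha
  · intro i
    rw [map_mul]
    simp only [b', Module.Basis.reindex_apply, Module.Basis.map_apply, φ]
    rfl

/-- The elements of `TD I` all of whose pairings with `b` have degree at most `n`. -/
def bounded {m : ℕ} (I : Ideal (OK F K)) (b : Fin m → K) (n : ℕ) : AddSubgroup (TD I) where
  carrier := {g | ∀ i, ∃ p : F[X], algebraMap F[X] (RatFunc F) p =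
    Algebra.trace (RatFunc F) K (g * b i) ∧ p.natDegree ≤ n}
  zero_mem' := fun i => ⟨0, by simp⟩
  add_mem' := by
    intro x y hx hy i
    obtain ⟨p, hp, hp'⟩ := hx i
    obtain ⟨q, hq, hq'⟩ := hy i
    refine ⟨p + q, ?_, natDegree_add_le_of_degree_le hp' hq'⟩
    rw [map_add, hp, hq, AddSubgroup.coe_add, add_mul, map_add]
  neg_mem' := by
    intro x hx i
    obtain ⟨p, hp, hp'⟩ := hx i
    refine ⟨-p, ?_, by rwa [natDegree_neg]⟩
    rw [map_neg, hp, AddSubgroup.coe_neg, neg_mul, map_neg]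

lemma bounded_mono {m : ℕ} (I : Ideal (OK F K)) (b : Fin m → K) {n n' : ℕ} (h : n ≤ n') :
    bounded I b n ≤ bounded I b n' := by
  intro x hx i
  obtain ⟨p, hp, hp'⟩ := hx i
  exact ⟨p, hp, hp'.trans h⟩

lemma finite_bounded [Finite F] {m : ℕ} (I : Ideal (OK F K))
    (b : Module.Basis (Fin m) (RatFunc F) K) (n : ℕ) : Finite (bounded I b n) := by
  have hfd : FiniteDimensional (RatFunc F) K := ‹FunctionField F K›
  have := finite_natDegree_le (F := F) n
  refine Finite.of_injective (β := Fin m → {p : F[X] // p.natDegree ≤ n})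
    (fun g i => ⟨(g.2 i).choose, (g.2 i).choose_spec.2⟩) ?_
  intro g g' h
  have h1 : ∀ i, Algebra.trace (RatFunc F) K (((g : TD I) : K) * b i) =
      Algebra.trace (RatFunc F) K (((g' : TD I) : K) * b i) := by
    intro i
    have h2 : (g.2 i).choose = (g'.2 i).choose := congrArg Subtype.val (congrFun h i)
    rw [← (g.2 i).choose_spec.1, ← (g'.2 i).choose_spec.1, h2]
  have h3 : ((g : TD I) : K) - ((g' : TD I) : K) = 0 := by
    apply (traceForm_nondegenerate (RatFunc F) K).1
    intro y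
    rw [← b.sum_repr y, map_sum]
    apply Finset.sum_eq_zero
    intro i _
    rw [LinearMap.map_smul, Algebra.traceForm_apply, sub_mul, map_sub, h1 i, sub_self, smul_zero]
  exact Subtype.ext (Subtype.ext (sub_eq_zero.1 h3))

lemma exists_bounded {m : ℕ} (I : Ideal (OK F K)) (b : Fin m → K) (e : Fin m → OK F K)
    (he : ∀ i, e i ∈ I) (hbe : ∀ i, b i = algebraMap (OK F K) K (e i)) (g : TD I) :
    ∃ n, g ∈ bounded I b n := by
  choose p hp using fun i => g.2 (e i) (he i)
  refine ⟨Finset.univ.sup fun i => (p i).natDegree, fun i => ⟨p i, ?_, ?_⟩⟩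
  · rw [hp, hbe]
  · exact Finset.le_sup (f := fun i => (p i).natDegree) (Finset.mem_univ i)

variable [Finite F] [CharP F 2] [CharP K 2]

/-- The Cartier operator on `TD I`. -/
noncomputable def cartTD (I : Ideal (OK F K)) : TD I →+ TD I :=
  ((isTwoBasis_K F K).cartHom.comp (TD I).subtype).codRestrict (TD I)
    fun x => cart_mem_TD x.2

@[simp] lemma coe_cartTD (I : Ideal (OK F K)) (g : TD I) :
    ((cartTD I g : TD I) : K) = (isTwoBasis_K F K).cart g := rfl

lemma exists_delta {m : ℕ} (I : Ideal (OK F K)) (b : Module.Basis (Fin m) (RatFunc F) K)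
    (e : Fin m → OK F K) (he : ∀ i, e i ∈ I)
    (hbe : ∀ i, b i = algebraMap (OK F K) K (e i)) :
    ∃ δ : ℕ, ∀ n, ∀ g ∈ bounded I b n, cartTD I g ∈ bounded I b ((δ + n) / 2) := by
  obtain ⟨D, hD⟩ := IsLocalization.exist_integer_multiples_of_finite (nonZeroDivisors F[X])
    (S := RatFunc F) (fun ij : Fin m × Fin m => b.repr (b ij.1 ^ 2) ij.2)
  choose A hA using hD
  have hD0 : (D : F[X]) ≠ 0 := nonZeroDivisors.ne_zero D.2
  refine ⟨Finset.univ.sup fun ij => (A ij).natDegree, fun n g hg i => ?_⟩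
  set δ := Finset.univ.sup fun ij => (A ij).natDegree with hδ
  choose p hp hpn using hg
  obtain ⟨q, hq⟩ := g.2 (e i ^ 2) (Ideal.pow_mem_of_mem I (he i) 2 (by norm_num))
  rw [map_pow, ← hbe] at hq
  have h1 : D * q = ∑ j, A (i, j) * p j := by
    apply RatFunc.algebraMap_injective F
    rw [map_mul, map_sum, hq]
    have h2 : Algebra.trace (RatFunc F) K ((g : K) * b i ^ 2) =
        ∑ j, b.repr (b i ^ 2) j * Algebra.trace (RatFunc F) K ((g : K) * b j) := by
      nth_rewrite 1 [← b.sum_repr (b i ^ 2)]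
      rw [Finset.mul_sum, map_sum]
      apply Finset.sum_congr rfl
      intro j _
      rw [mul_smul_comm, LinearMap.map_smul, smul_eq_mul]
    rw [h2, Finset.mul_sum]
    apply Finset.sum_congr rfl
    intro j _
    rw [(algebraMap F[X] (RatFunc F)).map_mul (A (i, j)) (p j), hA, Algebra.smul_def, hp,
      mul_assoc]
  have h2 : q.natDegree ≤ δ + n := by
    by_cases hq0 : q = 0
    · simp [hq0]
    have h3 : q.natDegree ≤ ((D : F[X]) * q).natDegree := by
      rw [natDegree_mul hD0 hq0]; omega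
    refine h3.trans ?_
    rw [h1]
    refine natDegree_sum_le_of_forall_le _ _ fun j _ => ?_
    refine natDegree_mul_le.trans (Nat.add_le_add ?_ (hpn j))
    exact Finset.le_sup (f := fun ij => (A ij).natDegree) (Finset.mem_univ (i, j))
  obtain ⟨r, hr, hr'⟩ := cart_algebraMap q
  refine ⟨r, ?_, ?_⟩
  · rw [coe_cartTD, trace_cart_mul, hr, hq]
  · by_cases hr0 : r = 0
    · simp [hr0]
    · have := hr' hr0
      omega

lemma exists_absorbing (I : Ideal (OK F K)) (hI : I ≠ ⊥) :
    ∃ G₀ : AddSubgroup (TD I), Finite G₀ ∧ (∀ g ∈ G₀, cartTD I g ∈ G₀) ∧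
      ∀ g, ∃ n : ℕ, ((cartTD I)^[n]) g ∈ G₀ := by
  obtain ⟨m, b, e, he, hbe⟩ := exists_basis_in_ideal I hI
  obtain ⟨δ, hδ⟩ := exists_delta I b e he hbe
  refine ⟨bounded I b δ, finite_bounded I b δ, ?_, ?_⟩
  · intro g hg
    exact bounded_mono I b (by omega) (hδ δ g hg)
  · have key : ∀ n, ∀ g ∈ bounded I b n, ∃ l : ℕ, ((cartTD I)^[l]) g ∈ bounded I b δ := by
      intro n
      induction n using Nat.strong_induction_on with
      | _ n ih =>
        intro g hg
        by_cases hn : n ≤ δ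
        · exact ⟨0, bounded_mono I b hn hg⟩
        · obtain ⟨l, hl⟩ := ih ((δ + n) / 2) (by omega) _ (hδ n g hg)
          exact ⟨l + 1, by rwa [Function.iterate_succ_apply]⟩
    intro g
    obtain ⟨n, hn⟩ := exists_bounded I b e he hbe g
    exact key n g hn

end

end Pool.Agent.Helper26
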