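import Mathlib
import Pool.Agent.Helper26.TwoBasisExt

set_option autoImplicit false
set_option linter.unusedSectionVars false

/-!
# The absolute trace of a finite field of characteristic two
-/

namespace Pool.Agent.Helper26

/-- Properties of the absolute trace. -/
structure IsAbsTrace {κ : Type*} [Field κ] (T : κ →+ ZMod 2) : Prop where
  sq : ∀ x, T (x ^ 2) = T x
  nondeg : ∀ e, e ≠ 0 → ∃ x, T (e * x) = 1
  repr : ∀ f : κ →+ ZMod 2, ∃ e, ∀ x, f x = T (e * x)

lemma exists_absTrace (κ : Type*) [Field κ] [Finite κ] [CharP κ 2] :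
    ∃ T : κ →+ ZMod 2, IsAbsTrace T := by
  let _ : Algebra (ZMod 2) κ := ZMod.algebra κ 2
  have hnd := traceForm_nondegenerate (ZMod 2) κ
  refine ⟨(Algebra.trace (ZMod 2) κ).toAddMonoidHom, ?_, ?_, ?_⟩
  · intro x
    change Algebra.trace (ZMod 2) κ (x ^ 2) = Algebra.trace (ZMod 2) κ x
    rw [trace_sq]
    generalize Algebra.trace (ZMod 2) κ x = y
    fin_cases y <;> rfl
  · intro e he
    by_contra hcon
    push Not at hcon
    apply he
    apply hnd.1
    intro x
    have h1 := hcon x
    change Algebra.trace (ZMod 2) κ (e * x) ≠ 1 at h1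
    rw [Algebra.traceForm_apply]
    generalize Algebra.trace (ZMod 2) κ (e * x) = y at h1
    fin_cases y
    · rfl
    · exact absurd rfl h1
  · intro f
    let f' : κ →ₗ[ZMod 2] ZMod 2 := f.toZModLinearMap 2
    let D := (Algebra.traceForm (ZMod 2) κ).toDual hnd
    refine ⟨D.symm f', fun x => ?_⟩
    have h1 : D (D.symm f') x = f' x := by rw [LinearEquiv.apply_symm_apply]
    rw [LinearMap.BilinForm.toDual_def, Algebra.traceForm_apply] at h1
    exact h1.symm

end Pool.Agent.Helper26
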