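import Mathlib
import Pool.Agent.Helper26.Absorb
import Pool.Agent.Helper26.FinTrace

set_option autoImplicit false
set_option linter.unusedSectionVars false

/-!
# The local invariants
-/

namespace Pool.Agent.Helper26

open Polynomial IsDedekindDomain

section

variable {F K : Type*} [Field F] [Field K]
  [Algebra F[X] K] [Algebra (RatFunc F) K] [IsScalarTower F[X] (RatFunc F) K]
  [FunctionField F K] [Algebra.IsSeparable (RatFunc F) K]

/-- The intersection of finitely many primes. -/
noncomputable def capS (S : Finset (HeightOneSpectrum (OK F K))) : Ideal (OK F K) :=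
  S.inf fun w => w.asIdeal

lemma mem_capS {S : Finset (HeightOneSpectrum (OK F K))} {x : OK F K} :
    x ∈ capS S ↔ ∀ w ∈ S, x ∈ w.asIdeal := by
  unfold capS
  simp [Submodule.mem_finsetInf]

lemma exists_mem_notMem {w w' : HeightOneSpectrum (OK F K)} (h : w ≠ w') :
    ∃ x ∈ w.asIdeal, x ∉ w'.asIdeal := by
  by_contra hcon
  push Not at hcon
  apply h
  have h1 : w.asIdeal ≤ w'.asIdeal := hcon
  have h2 : w.asIdeal = w'.asIdeal := w.isMaximal.eq_of_le w'.isPrime.ne_top h1
  exact HeightOneSpectrum.ext h2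

lemma exists_capS_notMem (S : Finset (HeightOneSpectrum (OK F K)))
    {w : HeightOneSpectrum (OK F K)} (hw : w ∉ S) : ∃ x ∈ capS S, x ∉ w.asIdeal := by
  classical
  have h1 : ∀ w' : HeightOneSpectrum (OK F K), w' ≠ w → ∃ x ∈ w'.asIdeal, x ∉ w.asIdeal :=
    fun w' h => exists_mem_notMem h
  choose! f hf hf' using h1
  refine ⟨∏ w' ∈ S, f w', ?_, ?_⟩
  · rw [mem_capS]
    intro w' hw'
    have hne : w' ≠ w := by rintro rfl; exact hw hw'
    rw [← Finset.mul_prod_erase S f hw']
    exact Ideal.mul_mem_right _ _ (hf w' hne)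
  · intro hmem
    have := w.isPrime
    obtain ⟨w', hw', h2⟩ := (Ideal.IsPrime.prod_mem_iff).1 hmem
    have hne : w' ≠ w := by rintro rfl; exact hw hw'
    exact hf' w' hne h2

lemma capS_ne_bot (S : Finset (HeightOneSpectrum (OK F K))) : capS S ≠ ⊥ := by
  classical
  intro h
  have h1 : ∀ w : HeightOneSpectrum (OK F K), ∃ x ∈ w.asIdeal, x ≠ 0 := fun w =>
    Submodule.exists_mem_ne_zero_of_ne_bot w.ne_bot
  choose f hf hf' using h1
  have h2 : (∏ w ∈ S, f w) ∈ capS S := by
    rw [mem_capS]
    intro w hw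
    rw [← Finset.mul_prod_erase S f hw]
    exact Ideal.mul_mem_right _ _ (hf w)
  rw [h, Ideal.mem_bot] at h2
  exact (Finset.prod_ne_zero_iff.2 fun w _ => hf' w) h2

lemma exists_idem (S : Finset (HeightOneSpectrum (OK F K)))
    (w : HeightOneSpectrum (OK F K)) : ∃ e : OK F K, e - 1 ∈ w.asIdeal ∧
      ∀ w' ∈ S, w' ≠ w → e ∈ w'.asIdeal := by
  classical
  obtain ⟨x, hx, hx'⟩ := exists_capS_notMem (S.erase w) (Finset.notMem_erase w S)
  have hmax := w.isMaximal
  obtain ⟨y, i, hi, hyi⟩ := hmax.exists_inv hx'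
  refine ⟨y * x, ?_, ?_⟩
  · have : y * x - 1 = -i := by linear_combination hyi
    rw [this]
    exact neg_mem hi
  · intro w' hw' hne
    apply Ideal.mul_mem_left
    exact mem_capS.1 hx w' (Finset.mem_erase.2 ⟨hne, hw'⟩)

/-- Existence of an element of the dual of a prime outside the dual of the ring. -/
lemma exists_TD_notMem (w : HeightOneSpectrum (OK F K)) :
    ∃ g ∈ TD w.asIdeal, g ∉ TD (⊤ : Ideal (OK F K)) := by
  have hfd : FiniteDimensional (RatFunc F) K := ‹FunctionField F K›
  have hw0 : (w.asIdeal : FractionalIdeal (nonZeroDivisors (OK F K)) K) ≠ 0 := by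
    rw [Ne, FractionalIdeal.coeIdeal_eq_zero]
    exact w.ne_bot
  have h10 : (1 : FractionalIdeal (nonZeroDivisors (OK F K)) K) ≠ 0 := one_ne_zero
  by_contra hcon
  push Not at hcon
  have h1 : FractionalIdeal.dual F[X] (RatFunc F)
      (w.asIdeal : FractionalIdeal (nonZeroDivisors (OK F K)) K) ≤
      FractionalIdeal.dual F[X] (RatFunc F) 1 := by
    intro x hx
    have h2 : x ∈ FractionalIdeal.dual F[X] (RatFunc F)
      (w.asIdeal : FractionalIdeal (nonZeroDivisors (OK F K)) K) := hx
    rw [FractionalIdeal.mem_dual hw0] at h2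
    change x ∈ FractionalIdeal.dual F[X] (RatFunc F)
      (1 : FractionalIdeal (nonZeroDivisors (OK F K)) K)
    rw [FractionalIdeal.mem_dual h10]
    have h3 : x ∈ TD w.asIdeal := by
      intro h hh
      obtain ⟨p, hp⟩ := h2 (algebraMap (OK F K) K h)
        (FractionalIdeal.mem_coeIdeal_of_mem _ hh)
      exact ⟨p, by rw [hp, Algebra.traceForm_apply]⟩
    intro a ha
    rw [FractionalIdeal.mem_one_iff] at ha
    obtain ⟨a', rfl⟩ := ha
    obtain ⟨p, hp⟩ := hcon x h3 a' (by trivial)
    exact ⟨p, by rw [hp, Algebra.traceForm_apply]⟩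
  rw [FractionalIdeal.dual_le_dual _ _ hw0 h10] at h1
  have h4 : (1 : OK F K) ∈ w.asIdeal := by
    have h5 : (1 : K) ∈ (w.asIdeal : FractionalIdeal (nonZeroDivisors (OK F K)) K) :=
      h1 (FractionalIdeal.one_mem_one _)
    rw [FractionalIdeal.mem_coeIdeal] at h5
    obtain ⟨x, hx, hx1⟩ := h5
    have : x = 1 := IsFractionRing.injective (OK F K) K (by rw [hx1, map_one])
    rwa [this] at hx
  exact w.isPrime.ne_top ((Ideal.eq_top_iff_one _).2 h4)

variable [Finite F] [CharP F 2] [CharP K 2]

lemma exists_local_gen {T : F →+ ZMod 2} (hT : IsAbsTrace T) (w : HeightOneSpectrum (OK F K)) :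
    ∃ g ∈ TD w.asIdeal, T (res (Algebra.trace (RatFunc F) K g)) = 1 := by
  have hfd : FiniteDimensional (RatFunc F) K := ‹FunctionField F K›
  obtain ⟨g, hg, hg'⟩ := exists_TD_notMem w
  rw [mem_TD] at hg'
  push Not at hg'
  obtain ⟨h, -, hh⟩ := hg'
  obtain ⟨j, hj⟩ := exists_res_ne_zero _ hh
  obtain ⟨e, he⟩ := hT.nondeg _ hj
  refine ⟨algebraMap (OK F K) K (algebraMap F[X] (OK F K) (C e * X ^ j) * h) * g, ?_, ?_⟩
  · exact TD_mul_mem hg _ fun x hx => Ideal.mul_mem_left _ _ hx
  · have h1 : algebraMap (OK F K) K (algebraMap F[X] (OK F K) (C e * X ^ j) * h) * g =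
        (algebraMap F[X] (RatFunc F) (C e * X ^ j)) • (g * algebraMap (OK F K) K h) := by
      rw [Algebra.smul_def, ← IsScalarTower.algebraMap_apply F[X] (RatFunc F) K,
        IsScalarTower.algebraMap_apply F[X] (OK F K) K, (algebraMap (OK F K) K).map_mul]
      ring
    rw [h1, LinearMap.map_smul, smul_eq_mul, (algebraMap F[X] (RatFunc F)).map_mul, mul_assoc,
      res_C_mul, mul_comm e]
    exact he

/-- The invariant map. -/
noncomputable def invMap (T : F →+ ZMod 2) {S : Finset (HeightOneSpectrum (OK F K))}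
    (e : S → OK F K) : TD (capS S) →+ (S → ZMod 2) where
  toFun g w := T (res (Algebra.trace (RatFunc F) K ((g : K) * algebraMap (OK F K) K (e w))))
  map_zero' := by
    ext w
    have h0 : res (0 : RatFunc F) = 0 := by
      rw [← map_zero (algebraMap F[X] (RatFunc F)), res_algebraMap]
    simp [h0]
  map_add' := by
    intro x y
    ext w
    simp only [AddSubgroup.coe_add, add_mul, map_add, res_add, Pi.add_apply]

lemma res_zero_of_mem {I : Ideal (OK F K)} {g : K} (hg : g ∈ TD I) {h : OK F K} (hh : h ∈ I) :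
    res (Algebra.trace (RatFunc F) K (g * algebraMap (OK F K) K h)) = 0 := by
  obtain ⟨p, hp⟩ := hg h hh
  rw [← hp, res_algebraMap]

lemma invMap_cart {T : F →+ ZMod 2} (hT : IsAbsTrace T)
    {S : Finset (HeightOneSpectrum (OK F K))} (e : S → OK F K)
    (he : ∀ w : S, e w - 1 ∈ w.1.asIdeal ∧ ∀ w' ∈ S, w' ≠ w.1 → e w ∈ w'.asIdeal)
    (g : TD (capS S)) : invMap T e (cartTD (capS S) g) = invMap T e g := by
  ext w
  change T (res (Algebra.trace (RatFunc F) K ((isTwoBasis_K F K).cart (g : K) *
    algebraMap (OK F K) K (e w)))) = T (res (Algebra.trace (RatFunc F) K ((g : K) *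
    algebraMap (OK F K) K (e w))))
  rw [trace_cart_mul, ← hT.sq, res_cart]
  have h1 : e w ^ 2 - e w ∈ capS S := by
    rw [mem_capS]
    intro w' hw'
    have h2 : e w ^ 2 - e w = e w * (e w - 1) := by ring
    rw [h2]
    by_cases hne : w' = w.1
    · rw [hne]
      exact Ideal.mul_mem_left _ _ (he w).1
    · exact Ideal.mul_mem_right _ _ ((he w).2 w' hw' hne)
  have h3 := res_zero_of_mem g.2 h1
  have h4 : (g : K) * algebraMap (OK F K) K (e w) ^ 2 =
      (g : K) * algebraMap (OK F K) K (e w ^ 2 - e w) + (g : K) * algebraMap (OK F K) K (e w) := by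
    rw [map_sub, map_pow]
    ring
  rw [h4, (Algebra.trace (RatFunc F) K).map_add, res_add, h3, zero_add]

lemma invMap_surjective {T : F →+ ZMod 2} (hT : IsAbsTrace T)
    {S : Finset (HeightOneSpectrum (OK F K))} (e : S → OK F K)
    (he : ∀ w : S, e w - 1 ∈ w.1.asIdeal ∧ ∀ w' ∈ S, w' ≠ w.1 → e w ∈ w'.asIdeal) :
    Function.Surjective (invMap T e) := by
  classical
  have key : ∀ w : S, Pi.single w (1 : ZMod 2) ∈ (invMap T e).range := by
    intro w
    obtain ⟨g, hg, hg1⟩ := exists_local_gen hT w.1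
    have hle : capS S ≤ w.1.asIdeal := fun x hx => mem_capS.1 hx w.1 w.2
    refine ⟨⟨g, TD_anti hle hg⟩, ?_⟩
    ext w'
    change T (res (Algebra.trace (RatFunc F) K (g * algebraMap (OK F K) K (e w')))) = _
    by_cases hww : w' = w
    · subst hww
      rw [Pi.single_eq_same]
      have h1 : g * algebraMap (OK F K) K (e w') =
          g * algebraMap (OK F K) K (e w' - 1) + g := by
        rw [map_sub, map_one]; ring
      rw [h1, (Algebra.trace (RatFunc F) K).map_add, res_add, res_zero_of_mem hg (he w').1,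
        zero_add, hg1]
    · rw [Pi.single_eq_of_ne hww, res_zero_of_mem hg ((he w').2 w.1 w.2 ?_), map_zero]
      intro h
      exact hww (Subtype.ext h.symm)
  have htop : (invMap T e).range = ⊤ := by
    rw [eq_top_iff]
    intro s _
    rw [← Finset.univ_sum_single s]
    apply sum_mem
    intro w _
    have h2 : s w = 0 ∨ s w = 1 := by
      generalize s w = y
      fin_cases y
      · exact Or.inl rfl
      · exact Or.inr rfl
    rcases h2 with h2 | h2
    · rw [h2, Pi.single_zero]
      exact zero_mem _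
    · rw [h2]
      exact key w
  exact AddMonoidHom.range_eq_top.1 htop

end

end Pool.Agent.Helper26
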