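import Mathlib

set_option autoImplicit false
set_option linter.unusedSectionVars false

/-!
# Square classes of `S`-units
-/

namespace Pool.Agent.Helper26

open IsDedekindDomain WithZero

section

variable {R K : Type*} [CommRing R] [IsDedekindDomain R] [Field K] [Algebra R K]
  [IsFractionRing R K]

/-- Outside `S` every prime has a generator. -/
def HasGenerators (K : Type*) [Field K] [Algebra R K] [IsFractionRing R K]
    (S : Finset (HeightOneSpectrum R)) : Prop :=
  ∀ w ∉ S, ∃ π : K, w.valuation K π = exp (-1 : ℤ) ∧ ∀ w' ∉ S, w' ≠ w → w'.valuation K π = 1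

lemma exists_hasGenerators [Finite (ClassGroup R)] (S₁ : Finset (HeightOneSpectrum R)) :
    ∃ S : Finset (HeightOneSpectrum R), S₁ ⊆ S ∧ HasGenerators K S := by
  classical
  have := Fintype.ofFinite (ClassGroup R)
  choose J hJ using ClassGroup.mk0_surjective (R := R)
  have hJ0 : (∏ C : ClassGroup R, (J C : Ideal R)) ≠ 0 :=
    Finset.prod_ne_zero_iff.2 fun C _ => nonZeroDivisors.ne_zero (J C).2
  let S₂ : Finset (HeightOneSpectrum R) := (Ideal.finite_factors hJ0).toFinset
  have hS₂ : ∀ w : HeightOneSpectrum R, w ∉ S₂ → ∀ C, ¬ w.asIdeal ∣ (J C : Ideal R) := by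
    intro w hw C hdvd
    apply hw
    rw [Set.Finite.mem_toFinset]
    exact hdvd.trans (Finset.dvd_prod_of_mem (fun C => (J C : Ideal R)) (Finset.mem_univ C))
  refine ⟨S₁ ∪ S₂, Finset.subset_union_left, ?_⟩
  intro w hw
  have hw2 : w ∉ S₂ := fun h => hw (Finset.mem_union_right _ h)
  have hw0 : w.asIdeal ∈ nonZeroDivisors (Ideal R) := mem_nonZeroDivisors_of_ne_zero w.ne_bot
  set C := (ClassGroup.mk0 ⟨w.asIdeal, hw0⟩)⁻¹ with hC
  have h1 : ClassGroup.mk0 (⟨w.asIdeal, hw0⟩ * J C) = 1 := by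
    rw [map_mul, hJ, hC, mul_inv_cancel]
  rw [ClassGroup.mk0_eq_one_iff] at h1
  obtain ⟨r, hr⟩ := h1
  have hr' : w.asIdeal * (J C : Ideal R) = Ideal.span {r} := hr
  have hr0 : r ≠ 0 := by
    rintro rfl
    rw [Ideal.span_singleton_eq_bot.2 rfl] at hr'
    rcases mul_eq_zero.1 hr' with h | h
    · exact w.ne_bot h
    · exact nonZeroDivisors.ne_zero (J C).2 h
  refine ⟨algebraMap R K r, ?_, ?_⟩
  · rw [HeightOneSpectrum.valuation_of_algebraMap]
    have h2 : w.intValuation r ≤ exp (-((1 : ℕ) : ℤ)) := by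
      rw [HeightOneSpectrum.intValuation_le_pow_iff_dvd, ← hr', pow_one]
      exact dvd_mul_right _ _
    have h3 : ¬ w.intValuation r ≤ exp (-((2 : ℕ) : ℤ)) := by
      rw [HeightOneSpectrum.intValuation_le_pow_iff_dvd, ← hr', pow_two]
      intro h
      exact hS₂ w hw2 C ((mul_dvd_mul_iff_left w.ne_bot).1 h)
    rw [HeightOneSpectrum.intValuation_if_neg w hr0] at h2 h3 ⊢
    rw [exp_le_exp] at h2 h3
    rw [exp_inj]
    push_cast at h2 h3
    omega
  · intro w' hw' hne
    have hw2' : w' ∉ S₂ := fun h => hw' (Finset.mem_union_right _ h)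
    rw [HeightOneSpectrum.valuation_of_algebraMap]
    refine le_antisymm (w'.intValuation_le_one r) ?_
    by_contra hlt
    push Not at hlt
    rw [HeightOneSpectrum.intValuation_lt_one_iff_dvd, ← hr'] at hlt
    rcases w'.prime.dvd_or_dvd hlt with h | h
    · have h5 : w.asIdeal ≤ w'.asIdeal := Ideal.le_of_dvd h
      have h6 : w.asIdeal = w'.asIdeal := w.isMaximal.eq_of_le w'.isPrime.ne_top h5
      exact hne (HeightOneSpectrum.ext h6.symm)
    · exact hS₂ w' hw2' C h

lemma finite_val_ne_one {φ : K} (hφ : φ ≠ 0) :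
    {w : HeightOneSpectrum R | w.valuation K φ ≠ 1}.Finite := by
  have h1 := HeightOneSpectrum.Support.finite R φ
  have h2 := HeightOneSpectrum.Support.finite R φ⁻¹
  refine (h1.union h2).subset ?_
  intro w hw
  rcases lt_or_gt_of_ne hw with h | h
  · right
    change 1 < w.valuation K φ⁻¹
    rw [map_inv₀]
    exact (one_lt_inv₀ (by
      rw [zero_lt_iff, Valuation.ne_zero_iff]; exact hφ)).2 h
  · left
    exact h

lemma exists_sq_adjust {S : Finset (HeightOneSpectrum R)} (hS : HasGenerators K S)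
    {φ : K} (hφ : φ ≠ 0) (heven : ∀ w ∉ S, ∃ m : ℤ, w.valuation K φ = exp (2 * m)) :
    ∃ s : K, s ≠ 0 ∧ ∀ w ∉ S, w.valuation K (φ * s ^ 2) = 1 := by
  classical
  choose! π hπ hπ' using hS
  choose! m hm using heven
  have hπ0 : ∀ w ∉ S, π w ≠ 0 := by
    intro w hw h0
    have := hπ w hw
    rw [h0, map_zero] at this
    exact exp_ne_zero this.symm
  let T : Finset (HeightOneSpectrum R) := (finite_val_ne_one hφ).toFinset \ S
  have hT : ∀ w ∈ T, w ∉ S := fun w hw => (Finset.mem_sdiff.1 hw).2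
  refine ⟨∏ w ∈ T, π w ^ m w, ?_, ?_⟩
  · exact Finset.prod_ne_zero_iff.2 fun w hw => zpow_ne_zero _ (hπ0 w (hT w hw))
  · intro w hw
    by_cases hwT : w ∈ T
    · rw [← Finset.mul_prod_erase T _ hwT, map_mul, map_pow, map_mul, map_prod]
      have h1 : ∏ w' ∈ T.erase w, w.valuation K (π w' ^ m w') = 1 := by
        apply Finset.prod_eq_one
        intro w' hw'
        rw [map_zpow₀, hπ' w' (hT w' (Finset.mem_of_mem_erase hw')) w hw
          (Finset.ne_of_mem_erase hw').symm, one_zpow]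
      rw [h1, mul_one, map_zpow₀, hπ w hw, hm w hw, ← exp_zsmul, ← exp_nsmul, ← exp_add,
        exp_eq_one]
      simp
    · have h2 : w.valuation K φ = 1 := by
        by_contra hne
        apply hwT
        rw [Finset.mem_sdiff, Set.Finite.mem_toFinset]
        exact ⟨hne, hw⟩
      rw [map_mul, h2, map_pow, map_prod]
      have h1 : ∏ w' ∈ T, w.valuation K (π w' ^ m w') = 1 := by
        apply Finset.prod_eq_one
        intro w' hw'
        have hne : w ≠ w' := by rintro rfl; exact hwT hw'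
        rw [map_zpow₀, hπ' w' (hT w' hw') w hw hne, one_zpow]
      rw [h1, one_pow, one_mul]

/-- The lattice of valuation vectors of `S`-units. -/
noncomputable def unitLattice (K : Type*) [Field K] [Algebra R K] [IsFractionRing R K]
    (S : Finset (HeightOneSpectrum R)) : AddSubgroup (S → ℤ) where
  carrier := {l | ∃ u : K, u ≠ 0 ∧ (∀ w ∉ S, w.valuation K u = 1) ∧
    ∀ w : S, log (w.1.valuation K u) = l w}
  zero_mem' := ⟨1, one_ne_zero, fun w _ => map_one _, fun w => by simp⟩
  add_mem' := by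
    rintro a b ⟨u, hu, hu1, hu2⟩ ⟨v, hv, hv1, hv2⟩
    refine ⟨u * v, mul_ne_zero hu hv, fun w hw => ?_, fun w => ?_⟩
    · rw [map_mul, hu1 w hw, hv1 w hw, one_mul]
    · rw [map_mul, log_mul ((Valuation.ne_zero_iff _).2 hu) ((Valuation.ne_zero_iff _).2 hv),
        hu2, hv2, Pi.add_apply]
  neg_mem' := by
    rintro a ⟨u, hu, hu1, hu2⟩
    refine ⟨u⁻¹, inv_ne_zero hu, fun w hw => ?_, fun w => ?_⟩
    · rw [map_inv₀, hu1 w hw, inv_one]
    · rw [map_inv₀, log_inv, hu2, Pi.neg_apply]

/-- There are at most `2 ^ #S` square classes with even valuations outside `S`. -/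
lemma card_square_classes {S : Finset (HeightOneSpectrum R)} (hS : HasGenerators K S)
    (hunit : ∀ u : K, u ≠ 0 → (∀ w : HeightOneSpectrum R, w.valuation K u = 1) →
      ∃ s : K, u = s ^ 2)
    {N : Type*} (f : N → K) (hf0 : ∀ x, f x ≠ 0)
    (heven : ∀ x, ∀ w ∉ S, ∃ m : ℤ, w.valuation K (f x) = exp (2 * m))
    (hinj : ∀ x y, (∃ s : K, f x * f y = s ^ 2) → x = y) :
    Finite N ∧ Nat.card N ≤ 2 ^ S.card := by
  classical
  choose s hs0 hs using fun x => exists_sq_adjust hS (hf0 x) (heven x)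
  let L : Submodule ℤ (S → ℤ) := AddSubgroup.toIntSubmodule (unitLattice K S)
  let r := Module.finrank ℤ L
  let b : Module.Basis (Fin r) ℤ L := Module.finBasis ℤ L
  have hrS : r ≤ S.card := by
    have h1 : Module.finrank ℤ L ≤ Module.finrank ℤ (S → ℤ) := Submodule.finrank_le L
    rw [Module.finrank_fintype_fun_eq_card, Fintype.card_coe] at h1
    exact h1
  obtain ⟨u, hu⟩ : ∃ u : N → K, ∀ x, u x = f x * s x ^ 2 := ⟨_, fun _ => rfl⟩
  have hu0 : ∀ x, u x ≠ 0 := fun x => by
    rw [hu]; exact mul_ne_zero (hf0 x) (pow_ne_zero _ (hs0 x))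
  have hus : ∀ x, ∀ w ∉ S, w.valuation K (u x) = 1 := fun x w hw => by rw [hu]; exact hs x w hw
  let l : N → L := fun x => ⟨fun w => log (w.1.valuation K (u x)), ⟨u x, hu0 x, hus x, fun w => rfl⟩⟩
  let g : N → (Fin r → ZMod 2) := fun x i => ((b.repr (l x) i : ℤ) : ZMod 2)
  have hg : Function.Injective g := by
    intro x y hxy
    apply hinj
    -- the difference is twice an element of the lattice
    have h1 : ∀ i, ∃ c : ℤ, b.repr (l x) i - b.repr (l y) i = 2 * c := by
      intro i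
      have h2 : ((b.repr (l x) i : ℤ) : ZMod 2) = ((b.repr (l y) i : ℤ) : ZMod 2) := congrFun hxy i
      rw [ZMod.intCast_eq_intCast_iff_dvd_sub] at h2
      obtain ⟨c, hc⟩ := h2
      exact ⟨-c, by push_cast at hc; linarith⟩
    choose c hc using h1
    have h2 : l x - l y = (2 : ℤ) • ∑ i, c i • b i := by
      rw [← b.sum_repr (l x), ← b.sum_repr (l y), ← Finset.sum_sub_distrib, Finset.smul_sum]
      apply Finset.sum_congr rfl
      intro i _
      rw [← sub_smul, hc, mul_smul]
    obtain ⟨v, hv0, hv1, hv2⟩ := (∑ i, c i • b i : L).2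
    have h3 : ∀ w : HeightOneSpectrum R, w.valuation K (u x / (u y * v ^ 2)) = 1 := by
      intro w
      by_cases hw : w ∈ S
      · have hne : w.valuation K (u x / (u y * v ^ 2)) ≠ 0 := by
          rw [Valuation.ne_zero_iff]
          exact div_ne_zero (hu0 x) (mul_ne_zero (hu0 y) (pow_ne_zero _ hv0))
        rw [← exp_log hne, exp_eq_one, map_div₀, map_mul, map_pow,
          log_div ((Valuation.ne_zero_iff _).2 (hu0 x))
            (mul_ne_zero ((Valuation.ne_zero_iff _).2 (hu0 y))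
              (pow_ne_zero _ ((Valuation.ne_zero_iff _).2 hv0))),
          log_mul ((Valuation.ne_zero_iff _).2 (hu0 y))
              (pow_ne_zero _ ((Valuation.ne_zero_iff _).2 hv0)), log_pow]
        have hv2' : log (w.valuation K v) = (((∑ i, c i • b i : L) : S → ℤ) ⟨w, hw⟩) :=
          hv2 ⟨w, hw⟩
        rw [hv2']
        have h4 := congrFun (congrArg Subtype.val h2) ⟨w, hw⟩
        have h5 : ((l x : S → ℤ) ⟨w, hw⟩) - ((l y : S → ℤ) ⟨w, hw⟩) =
            2 * (((∑ i, c i • b i : L) : S → ℤ) ⟨w, hw⟩) := h4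
        have h6 : (l x : S → ℤ) ⟨w, hw⟩ = log (w.valuation K (u x)) := rfl
        have h7 : (l y : S → ℤ) ⟨w, hw⟩ = log (w.valuation K (u y)) := rfl
        rw [h6, h7] at h5
        rw [nsmul_eq_mul]
        push_cast at h5 ⊢
        linarith
      · rw [map_div₀, map_mul, map_pow, hus x w hw, hus y w hw, hv1 w hw]
        simp
    obtain ⟨t, ht⟩ := hunit _ (div_ne_zero (hu0 x) (mul_ne_zero (hu0 y) (pow_ne_zero _ hv0))) h3
    refine ⟨t * f y * s y * v / s x, ?_⟩
    have h8 : u x = t ^ 2 * (u y * v ^ 2) := by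
      rw [← ht]
      field_simp [hu0 y, hv0]
    have h9 : f x * s x ^ 2 = t ^ 2 * (f y * s y ^ 2 * v ^ 2) := by
      rw [← hu, ← hu]; exact h8
    rw [div_pow, eq_div_iff (pow_ne_zero _ (hs0 x))]
    linear_combination f y * h9
  have hfin : Finite N := Finite.of_injective g hg
  refine ⟨hfin, ?_⟩
  have h1 := Nat.card_le_card_of_injective g hg
  rw [Nat.card_fun, Nat.card_zmod, Nat.card_fin] at h1
  exact h1.trans (Nat.pow_le_pow_right (by norm_num) hrS)

end

end Pool.Agent.Helper26
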