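import Mathlib
import Pool.Agent.Helper26.Inv
import Pool.Agent.Helper26.Contract
import Pool.Agent.Helper26.SUnits

set_option autoImplicit false
set_option linter.unusedSectionVars false

/-!
# A local-global principle for `a = P + cart P`
-/

namespace Pool.Agent.Helper26

open Polynomial IsDedekindDomain

section

variable {F K : Type*} [Field F] [Field K]
  [Algebra F[X] K] [Algebra (RatFunc F) K] [IsScalarTower F[X] (RatFunc F) K]
  [FunctionField F K] [Algebra.IsSeparable (RatFunc F) K]

lemma exists_conductor : ∃ b : OK F K, b ≠ 0 ∧ ∀ g ∈ TD (⊤ : Ideal (OK F K)),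
    ∃ x : OK F K, algebraMap (OK F K) K x = algebraMap (OK F K) K b * g := by
  have hfd : FiniteDimensional (RatFunc F) K := ‹FunctionField F K›
  have h10 : (1 : FractionalIdeal (nonZeroDivisors (OK F K)) K) ≠ 0 := one_ne_zero
  obtain ⟨b, hb, hb'⟩ := (FractionalIdeal.dual F[X] (RatFunc F)
      (1 : FractionalIdeal (nonZeroDivisors (OK F K)) K)).isFractional
  refine ⟨b, nonZeroDivisors.ne_zero hb, fun g hg => ?_⟩
  have h1 : g ∈ FractionalIdeal.dual F[X] (RatFunc F)
      (1 : FractionalIdeal (nonZeroDivisors (OK F K)) K) := by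
    rw [FractionalIdeal.mem_dual h10]
    intro a ha
    rw [FractionalIdeal.mem_one_iff] at ha
    obtain ⟨a', rfl⟩ := ha
    obtain ⟨p, hp⟩ := hg a' (by trivial)
    exact ⟨p, by rw [hp, Algebra.traceForm_apply]⟩
  obtain ⟨x, hx⟩ := hb' g h1
  exact ⟨x, by rw [hx, Algebra.smul_def]⟩

lemma finite_mem {b : OK F K} (hb : b ≠ 0) :
    {w : HeightOneSpectrum (OK F K) | b ∈ w.asIdeal}.Finite := by
  have h1 : Ideal.span {b} ≠ 0 := by
    rw [Ne, Ideal.zero_eq_bot, Ideal.span_singleton_eq_bot]
    exact hb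
  refine (Ideal.finite_factors h1).subset ?_
  intro w hw
  exact Ideal.dvd_span_singleton.2 hw

/-- Approximation at one prime. -/
lemma exists_local_approx (w : HeightOneSpectrum (OK F K)) (x : K) :
    ∃ y : K, w.valuation K (y - x) ≤ 1 ∧
      ∀ w' : HeightOneSpectrum (OK F K), w' ≠ w → w'.valuation K y ≤ 1 := by
  classical
  obtain ⟨p, d, hd, rfl⟩ := IsFractionRing.div_surjective (A := OK F K) x
  have hd0 : d ≠ 0 := nonZeroDivisors.ne_zero hd
  have hdK : algebraMap (OK F K) K d ≠ 0 := by
    intro h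
    exact hd0 ((IsFractionRing.injective (OK F K) K) (by rw [h, map_zero]))
  have h1 : Ideal.span {d} ≠ 0 := by
    rw [Ne, Ideal.zero_eq_bot, Ideal.span_singleton_eq_bot]
    exact hd0
  obtain ⟨n, J, hJ, hJe⟩ := WfDvdMonoid.max_power_factor h1 w.irreducible
  -- `w ^ n` and `J` are coprime
  have hcop : w.asIdeal ^ n ⊔ J = ⊤ := by
    have h2 : ¬ J ≤ w.asIdeal := fun h => hJ (Ideal.dvd_iff_le.2 h)
    have h3 : w.asIdeal ⊔ J = ⊤ := by
      by_contra hne
      obtain ⟨M, hM, hle⟩ := Ideal.exists_le_maximal _ hne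
      have h4 : w.asIdeal = M := w.isMaximal.eq_of_le hM.ne_top (le_sup_left.trans hle)
      exact h2 (h4 ▸ (le_sup_right.trans hle))
    exact Ideal.pow_sup_eq_top h3
  obtain ⟨i, hi, j, hj, hij⟩ := Submodule.mem_sup.1 (hcop ▸ (Submodule.mem_top : (1 : OK F K) ∈ ⊤))
  -- elements with products in `(d)`
  have hprod : ∀ s ∈ w.asIdeal ^ n, ∀ t ∈ J, ∃ z : OK F K, s * t = d * z := by
    intro s hs t ht
    have h5 : s * t ∈ w.asIdeal ^ n * J := Ideal.mul_mem_mul hs ht
    rw [← hJe, Ideal.mem_span_singleton] at h5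
    exact h5
  refine ⟨algebraMap (OK F K) K p / algebraMap (OK F K) K d * algebraMap (OK F K) K j, ?_, ?_⟩
  · obtain ⟨s, hs, hs'⟩ : ∃ s ∈ J, s ∉ w.asIdeal := by
      by_contra hcon
      push Not at hcon
      exact hJ (Ideal.dvd_iff_le.2 hcon)
    obtain ⟨z, hz⟩ := hprod i hi s hs
    have h6 : (algebraMap (OK F K) K p / algebraMap (OK F K) K d * algebraMap (OK F K) K j -
        algebraMap (OK F K) K p / algebraMap (OK F K) K d) * algebraMap (OK F K) K s =
        - algebraMap (OK F K) K (p * z) := by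
      have h7 : algebraMap (OK F K) K i * algebraMap (OK F K) K s =
        algebraMap (OK F K) K d * algebraMap (OK F K) K z := by rw [← map_mul, hz, map_mul]
      have h8 : algebraMap (OK F K) K i + algebraMap (OK F K) K j = 1 := by
        rw [← map_add, hij, map_one]
      rw [map_mul]
      field_simp
      linear_combination -algebraMap (OK F K) K p * h7 +
        algebraMap (OK F K) K p * algebraMap (OK F K) K s * h8
    have h9 := congrArg (w.valuation K) h6
    rw [map_mul, (HeightOneSpectrum.valuation_eq_one_iff_notMem _).2 hs', mul_one,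
      Valuation.map_neg] at h9
    rw [h9]
    exact HeightOneSpectrum.valuation_le_one w _
  · intro w' hw'
    obtain ⟨s, hs, hs'⟩ : ∃ s ∈ w.asIdeal ^ n, s ∉ w'.asIdeal := by
      obtain ⟨s, hs, hs'⟩ := exists_mem_notMem hw'.symm
      refine ⟨s ^ n, Ideal.pow_mem_pow hs n, fun h => hs' (w'.isPrime.mem_of_pow_mem n h)⟩
    obtain ⟨z, hz⟩ := hprod s hs j hj
    have h6 : (algebraMap (OK F K) K p / algebraMap (OK F K) K d * algebraMap (OK F K) K j) *
        algebraMap (OK F K) K s = algebraMap (OK F K) K (p * z) := by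
      have h7 : algebraMap (OK F K) K s * algebraMap (OK F K) K j =
        algebraMap (OK F K) K d * algebraMap (OK F K) K z := by rw [← map_mul, hz, map_mul]
      rw [map_mul]
      field_simp
      linear_combination algebraMap (OK F K) K p * h7
    have h9 := congrArg (w'.valuation K) h6
    rw [map_mul, (HeightOneSpectrum.valuation_eq_one_iff_notMem _).2 hs', mul_one] at h9
    rw [h9]
    exact HeightOneSpectrum.valuation_le_one w' _

/-- An element which is locally in the dual is in the dual. -/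
lemma mem_TD_of_local (h : K)
    (hloc : ∀ w : HeightOneSpectrum (OK F K), ∃ s : OK F K, s ∉ w.asIdeal ∧
      algebraMap (OK F K) K s * h ∈ TD (⊤ : Ideal (OK F K))) :
    h ∈ TD (⊤ : Ideal (OK F K)) := by
  let c : Ideal (OK F K) :=
    { carrier := {s | algebraMap (OK F K) K s * h ∈ TD (⊤ : Ideal (OK F K))}
      zero_mem' := by
        change algebraMap (OK F K) K 0 * h ∈ TD (⊤ : Ideal (OK F K))
        rw [map_zero, zero_mul]; exact zero_mem _
      add_mem' := by
        intro a b ha hb
        change algebraMap (OK F K) K (a + b) * h ∈ TD (⊤ : Ideal (OK F K))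
        rw [map_add, add_mul]; exact add_mem ha hb
      smul_mem' := by
        intro a b hb
        change algebraMap (OK F K) K (a * b) * h ∈ TD (⊤ : Ideal (OK F K))
        rw [(algebraMap (OK F K) K).map_mul, mul_assoc]
        exact TD_mul_mem hb a fun x _ => trivial }
  have hc : c = ⊤ := by
    by_contra hne
    obtain ⟨M, hM, hle⟩ := Ideal.exists_le_maximal c hne
    have hM0 : M ≠ ⊥ := by
      intro h0
      rw [h0] at hM
      exact FunctionField.ringOfIntegers.not_isField F K
        ((Ring.isField_iff_maximal_bot (R := OK F K)).2 hM)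
    let w : HeightOneSpectrum (OK F K) := ⟨M, hM.isPrime, hM0⟩
    obtain ⟨s, hs, hs'⟩ := hloc w
    exact hs (hle hs')
  have h1 : (1 : OK F K) ∈ c := by rw [hc]; trivial
  have h2 : algebraMap (OK F K) K 1 * h ∈ TD (⊤ : Ideal (OK F K)) := h1
  rwa [map_one, one_mul] at h2

variable [Finite F] [CharP F 2] [CharP K 2]

lemma local_cart_mem (w : HeightOneSpectrum (OK F K)) {h : K} (hh : w.valuation K h ≤ 1) :
    ∃ s : OK F K, s ∉ w.asIdeal ∧
      algebraMap (OK F K) K s * (h + (isTwoBasis_K F K).cart h) ∈ TD (⊤ : Ideal (OK F K)) := by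
  obtain ⟨s, x, hsx⟩ : ∃ (s : w.asIdeal.primeCompl) (x : OK F K),
      algebraMap (OK F K) K x = algebraMap (OK F K) K s * h := by
    obtain ⟨n, d, hx⟩ := w.exists_primeCompl_mul_eq_of_integer h hh
    exact ⟨d, n, by rw [← hx, mul_comm]⟩
  refine ⟨s, s.2, ?_⟩
  rw [mul_add]
  refine add_mem ?_ ?_
  · rw [← hsx]
    exact OK_le_TD x ⊤
  · have h1 : algebraMap (OK F K) K s * (isTwoBasis_K F K).cart h =
        (isTwoBasis_K F K).cart (algebraMap (OK F K) K (s * x)) := by
      rw [(algebraMap (OK F K) K).map_mul, hsx, ← mul_assoc, ← pow_two,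
        (isTwoBasis_K F K).cart_sq_mul]
    rw [h1]
    exact cart_mem_TD (OK_le_TD _ ⊤)

end

end Pool.Agent.Helper26
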