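import Mathlib
import Pool.Agent.Helper26.CFT

set_option autoImplicit false
set_option linter.unusedSectionVars false

/-!
# A local-global principle for `a = P + cart P`: the main statement
-/

namespace Pool.Agent.Helper26

open Polynomial IsDedekindDomain WithZero

section

variable {F K : Type*} [Field F] [Field K]
  [Algebra F[X] K] [Algebra (RatFunc F) K] [IsScalarTower F[X] (RatFunc F) K]
  [FunctionField F K] [Algebra.IsSeparable (RatFunc F) K] [Finite F] [CharP F 2] [CharP K 2]

lemma fixed_even {b : OK F K}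
    (hb : ∀ g ∈ TD (⊤ : Ideal (OK F K)),
      ∃ x : OK F K, algebraMap (OK F K) K x = algebraMap (OK F K) K b * g)
    {S : Finset (HeightOneSpectrum (OK F K))} (hbS : ∀ w, b ∈ w.asIdeal → w ∈ S)
    {φ : K} (hφ : φ ∈ TD (capS S)) (hφ0 : φ ≠ 0) (hfix : (isTwoBasis_K F K).cart φ = φ)
    (w : HeightOneSpectrum (OK F K)) (hw : w ∉ S) :
    ∃ m : ℤ, w.valuation K φ = exp (2 * m) := by
  obtain ⟨s, hs, hsw⟩ := exists_capS_notMem S hw
  have h1 : algebraMap (OK F K) K s * φ ∈ TD (⊤ : Ideal (OK F K)) :=
    TD_mul_mem hφ s fun x _ => Ideal.mul_mem_right _ _ hs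
  obtain ⟨x, hx⟩ := hb _ h1
  have hbw : b ∉ w.asIdeal := fun h => hw (hbS w h)
  have h2 : w.valuation K φ ≤ 1 := by
    have h3 := congrArg (w.valuation K) hx
    rw [map_mul, map_mul, (HeightOneSpectrum.valuation_eq_one_iff_notMem _).2 hbw,
      (HeightOneSpectrum.valuation_eq_one_iff_notMem _).2 hsw, one_mul, one_mul] at h3
    rw [← h3]
    exact HeightOneSpectrum.valuation_le_one w x
  rcases eq_or_lt_of_le h2 with h3 | h3
  · exact ⟨0, by rw [h3]; simp⟩
  have hdec := (isTwoBasis_K F K).eq φ
  rw [hfix] at hdec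
  set u := (isTwoBasis_K F K).sqp φ
  set θ := algebraMap (RatFunc F) K RatFunc.X with hθ
  have hθ1 : w.valuation K θ ≤ 1 := by
    have h4 : θ = algebraMap (OK F K) K (algebraMap F[X] (OK F K) X) := by
      rw [hθ, ← RatFunc.algebraMap_X, ← IsScalarTower.algebraMap_apply F[X] (RatFunc F) K,
        ← IsScalarTower.algebraMap_apply F[X] (OK F K) K]
    rw [h4]
    exact HeightOneSpectrum.valuation_le_one w _
  have h5 : φ⁻¹ = (u / φ) ^ 2 + θ := by
    have h6 : φ * 1 = (u ^ 2 + θ * φ ^ 2) := by rw [mul_one]; exact hdec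
    field_simp
    linear_combination h6
  have h7 : 1 < w.valuation K φ⁻¹ := by
    rw [map_inv₀]
    exact (one_lt_inv₀ (by rw [zero_lt_iff, Valuation.ne_zero_iff]; exact hφ0)).2 h3
  have h8 : w.valuation K ((u / φ) ^ 2) = w.valuation K φ⁻¹ := by
    have h9 : (u / φ) ^ 2 = φ⁻¹ - θ := by rw [h5]; ring
    rw [h9]
    exact Valuation.map_sub_eq_of_lt_left _ (lt_of_le_of_lt hθ1 h7)
  rw [map_pow, map_inv₀] at h8
  have h10 : w.valuation K (u / φ) ≠ 0 := by
    intro h0
    rw [h0, zero_pow two_ne_zero] at h8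
    exact inv_ne_zero ((Valuation.ne_zero_iff _).2 hφ0) h8.symm
  refine ⟨-log (w.valuation K (u / φ)), ?_⟩
  rw [← inv_inv (w.valuation K φ), ← h8, mul_neg, exp_neg]
  congr 1
  nth_rewrite 1 [← exp_log h10]
  rw [← exp_nsmul]
  congr 1

/-- Local membership in the dual. -/
def LocD (w : HeightOneSpectrum (OK F K)) (h : K) : Prop :=
  ∃ s : OK F K, s ∉ w.asIdeal ∧ algebraMap (OK F K) K s * h ∈ TD (⊤ : Ideal (OK F K))

lemma LocD.add {w : HeightOneSpectrum (OK F K)} {x y : K} (hx : LocD w x) (hy : LocD w y) :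
    LocD w (x + y) := by
  obtain ⟨s, hs, hs'⟩ := hx
  obtain ⟨t, ht, ht'⟩ := hy
  refine ⟨s * t, w.isPrime.mul_notMem hs ht, ?_⟩
  have h1 : algebraMap (OK F K) K (s * t) * (x + y) =
      algebraMap (OK F K) K t * (algebraMap (OK F K) K s * x) +
      algebraMap (OK F K) K s * (algebraMap (OK F K) K t * y) := by
    rw [(algebraMap (OK F K) K).map_mul]; ring
  rw [h1]
  exact add_mem (TD_mul_mem hs' t fun x _ => trivial) (TD_mul_mem ht' s fun x _ => trivial)

lemma LocD.of_val {w : HeightOneSpectrum (OK F K)} {h : K} (hh : w.valuation K h ≤ 1) :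
    LocD w h := by
  obtain ⟨n, d, hx⟩ := w.exists_primeCompl_mul_eq_of_integer h hh
  refine ⟨d, d.2, ?_⟩
  rw [mul_comm, hx]
  exact OK_le_TD n ⊤

/-- The local-global principle on the ring of integers. -/
theorem local_global (hunit : ∀ u : K, u ≠ 0 →
      (∀ w : HeightOneSpectrum (OK F K), w.valuation K u = 1) → ∃ s : K, u = s ^ 2)
    (a : K) (hloc : ∀ w : HeightOneSpectrum (OK F K), ∃ P : K,
      w.valuation K (a + P + (isTwoBasis_K F K).cart P) ≤ 1) :
    ∃ P : K, a = P + (isTwoBasis_K F K).cart P := by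
  classical
  have := Fintype.ofFinite F
  obtain ⟨b, hb0, hb⟩ := exists_conductor (F := F) (K := K)
  obtain ⟨S, hS₁, hS⟩ := exists_hasGenerators (R := OK F K) (K := K) (finite_mem hb0).toFinset
  have hbS : ∀ w : HeightOneSpectrum (OK F K), b ∈ w.asIdeal → w ∈ S := fun w hw =>
    hS₁ ((Set.Finite.mem_toFinset _).2 hw)
  obtain ⟨T, hT⟩ := exists_absTrace F
  set c := (isTwoBasis_K F K).cart with hc
  have hcadd : ∀ x y, c (x + y) = c x + c y := (isTwoBasis_K F K).cart_add
  -- step 1: reduce to an element of the dual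
  obtain ⟨P, hP⟩ : ∃ P : K, a + P + c P ∈ TD (⊤ : Ideal (OK F K)) := by
    have hfin : {w : HeightOneSpectrum (OK F K) | ¬ w.valuation K a ≤ 1}.Finite := by
      refine (HeightOneSpectrum.Support.finite (OK F K) a).subset ?_
      intro w hw
      exact not_le.1 hw
    choose Q hQ using hloc
    choose y hy hy' using fun w : HeightOneSpectrum (OK F K) => exists_local_approx w (Q w)
    refine ⟨∑ w ∈ hfin.toFinset, y w, ?_⟩
    set P := ∑ w ∈ hfin.toFinset, y w with hPdef
    apply mem_TD_of_local
    intro w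
    change LocD w (a + P + c P)
    by_cases hw : w ∈ hfin.toFinset
    · have h1 : w.valuation K (P - Q w) ≤ 1 := by
        have h2 : P - Q w = (y w - Q w) + ∑ w' ∈ hfin.toFinset.erase w, y w' := by
          rw [hPdef, ← Finset.add_sum_erase _ _ hw]; ring
        rw [h2]
        refine Valuation.map_add_le _ (hy w) (Valuation.map_sum_le _ fun w' hw' => ?_)
        exact hy' w' w (Finset.ne_of_mem_erase hw').symm
      have h3 : c P = c (P - Q w) + c (Q w) := by
        rw [← hcadd, sub_add_cancel]
      have h4 : a + P + c P = (a + Q w + c (Q w)) + ((P - Q w) + c (P - Q w)) := by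
        rw [h3]; ring
      rw [h4]
      exact (LocD.of_val (hQ w)).add (local_cart_mem w h1)
    · have h1 : w.valuation K P ≤ 1 := by
        refine Valuation.map_sum_le _ fun w' hw' => ?_
        have hne : w ≠ w' := by rintro rfl; exact hw hw'
        exact hy' w' w hne
      have h2 : w.valuation K a ≤ 1 := by
        by_contra hcon
        exact hw ((Set.Finite.mem_toFinset _).2 hcon)
      rw [add_assoc]
      exact (LocD.of_val h2).add (local_cart_mem w h1)
  -- step 2: the kernel
  have hker : Finite {g : TD (capS S) // cartTD (capS S) g = g} ∧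
      Nat.card {g : TD (capS S) // cartTD (capS S) g = g} ≤ 2 ^ S.card := by
    let f : {g : TD (capS S) // cartTD (capS S) g = g} → K :=
      fun g => if (g.1 : K) = 0 then 1 else (g.1 : K)
    have hfix : ∀ g : {g : TD (capS S) // cartTD (capS S) g = g}, c (g.1 : K) = (g.1 : K) :=
      fun g => congrArg Subtype.val g.2
    have hfp : ∀ x : {g : TD (capS S) // cartTD (capS S) g = g}, (x.1 : K) = 0 → f x = 1 :=
      fun x hx => if_pos hx
    have hfn : ∀ x : {g : TD (capS S) // cartTD (capS S) g = g}, ¬ (x.1 : K) = 0 →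
      f x = (x.1 : K) := fun x hx => if_neg hx
    refine card_square_classes hS hunit f ?_ ?_ ?_
    · intro x
      by_cases hx : (x.1 : K) = 0
      · rw [hfp x hx]; exact one_ne_zero
      · rw [hfn x hx]; exact hx
    · intro x w hw
      by_cases hx : (x.1 : K) = 0
      · exact ⟨0, by rw [hfp x hx]; simp⟩
      · rw [hfn x hx]
        exact fixed_even hb hbS x.1.2 hx (hfix x) w hw
    · intro x y hxy
      apply Subtype.ext
      apply Subtype.ext
      obtain ⟨s, hs⟩ := hxy
      by_cases hx : (x.1 : K) = 0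
      · by_cases hy : (y.1 : K) = 0
        · rw [hx, hy]
        · exfalso
          rw [hfp x hx, hfn y hy, one_mul] at hs
          have h1 := hfix y
          rw [hs, hc, (isTwoBasis_K F K).cart_sq, ← hs] at h1
          exact hy h1.symm
      · by_cases hy : (y.1 : K) = 0
        · exfalso
          rw [hfn x hx, hfp y hy, mul_one] at hs
          have h1 := hfix x
          rw [hs, hc, (isTwoBasis_K F K).cart_sq, ← hs] at h1
          exact hx h1.symm
        · rw [hfn x hx, hfn y hy] at hs
          exact (isTwoBasis_K F K).fixed_inj (hfix x) (hfix y) hx hy hs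
  -- step 3: the cokernel
  choose e he using fun w : S => exists_idem S w.1
  obtain ⟨G₀, hG₀, hstab, habs⟩ := exists_absorbing (capS S) (capS_ne_bot S)
  have hmem : a + P + c P ∈ TD (capS S) := TD_anti le_top hP
  have hzero : invMap T e ⟨a + P + c P, hmem⟩ = 0 := by
    ext w
    change T (res (Algebra.trace (RatFunc F) K ((a + P + c P) *
      algebraMap (OK F K) K (e w)))) = 0
    rw [res_zero_of_mem hP trivial, map_zero]
  obtain ⟨h, hh⟩ := contract_coker (cartTD (capS S)) G₀ hG₀ hstab habs (invMap T e)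
    (invMap_surjective hT e he) (invMap_cart hT e he)
    (by rw [Fintype.card_coe]; exact hker.2) hker.1 _ hzero
  have hh' : a + P + c P = (h : K) - c (h : K) := congrArg Subtype.val hh
  refine ⟨P + h, ?_⟩
  rw [hcadd]
  rw [CharTwo.sub_eq_add] at hh'
  linear_combination hh' - CharTwo.add_self_eq_zero P - CharTwo.add_self_eq_zero (c P)

end

end Pool.Agent.Helper26
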