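import Mathlib

set_option autoImplicit false
set_option linter.unusedSectionVars false

/-!
# The two quadratic forms and their approximate solutions
-/

namespace Pool.Agent.Helper26

section

variable {k : Type*} [CommRing k]

/-- The diagonal form with coefficients `a`. -/
def phi (a x : Fin 4 → k) : k :=
  a 0 * x 0 ^ 2 + a 1 * x 1 ^ 2 + a 2 * x 2 ^ 2 + a 3 * x 3 ^ 2

/-- The first bilinear form. -/
def lin1 (x : Fin 4 → k) (y : Fin 3 → k) : k := x 0 * y 0 + x 1 * y 1 + x 2 * y 2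

/-- The second bilinear form. -/
def lin2 (x : Fin 4 → k) (y : Fin 3 → k) : k := x 1 * y 0 + x 2 * y 1 + x 3 * y 2

/-- A ternary quadratic form. -/
def quad (g : Fin 3 → Fin 3 → k) (y : Fin 3 → k) : k := ∑ i, ∑ j, g i j * y i * y j

/-- The first quadratic form. -/
def Q1 (a : Fin 4 → k) (g : Fin 3 → Fin 3 → k) (x : Fin 4 → k) (y : Fin 3 → k) : k :=
  phi a x + lin1 x y + quad g y

/-- The second quadratic form. -/
def Q2 (b : Fin 4 → k) (g : Fin 3 → Fin 3 → k) (x : Fin 4 → k) (y : Fin 3 → k) : k :=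
  phi b x + lin2 x y + quad g y

lemma quad_expand (g : Fin 3 → Fin 3 → k) (y : Fin 3 → k) : quad g y =
    g 0 0 * y 0 * y 0 + g 0 1 * y 0 * y 1 + g 0 2 * y 0 * y 2 +
    (g 1 0 * y 1 * y 0 + g 1 1 * y 1 * y 1 + g 1 2 * y 1 * y 2) +
    (g 2 0 * y 2 * y 0 + g 2 1 * y 2 * y 1 + g 2 2 * y 2 * y 2) := by
  simp only [quad, Fin.sum_univ_three]

end

section

variable {k : Type*} [Field k]

/-- Approximate solvability in `x` for a fixed `y`. -/
def AppSol (V : ValuationSubring k) (a b : Fin 4 → k) (g₁ g₂ : Fin 3 → Fin 3 → k)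
    (y : Fin 3 → k) : Prop :=
  ∀ d : k, d ≠ 0 → ∃ x : Fin 4 → k, Q1 a g₁ x y / d ∈ V ∧ Q2 b g₂ x y / d ∈ V

lemma AppSol.smul {V : ValuationSubring k} {a b : Fin 4 → k} {g₁ g₂ : Fin 3 → Fin 3 → k}
    {y : Fin 3 → k} (h : AppSol V a b g₁ g₂ y) {c : k} (hc : c ≠ 0) :
    AppSol V a b g₁ g₂ (fun i => c * y i) := by
  intro d hd
  obtain ⟨x, h1, h2⟩ := h (d / c ^ 2) (div_ne_zero hd (pow_ne_zero _ hc))
  refine ⟨fun i => c * x i, ?_, ?_⟩
  · have : Q1 a g₁ (fun i => c * x i) (fun i => c * y i) / d = Q1 a g₁ x y / (d / c ^ 2) := by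
      simp only [Q1, phi, lin1, quad_expand]
      field_simp
    rw [this]; exact h1
  · have : Q2 b g₂ (fun i => c * x i) (fun i => c * y i) / d = Q2 b g₂ x y / (d / c ^ 2) := by
      simp only [Q2, phi, lin2, quad_expand]
      field_simp
    rw [this]; exact h2

lemma AppSol.of_smul {V : ValuationSubring k} {a b : Fin 4 → k} {g₁ g₂ : Fin 3 → Fin 3 → k}
    {y : Fin 3 → k} {c : k} (hc : c ≠ 0) (h : AppSol V a b g₁ g₂ (fun i => c * y i)) :
    AppSol V a b g₁ g₂ y := by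
  have := h.smul (inv_ne_zero hc)
  have h2 : (fun i => c⁻¹ * (c * y i)) = y := by
    ext i; field_simp
  rwa [h2] at this

/-- A valuation ring of rank one. -/
def IsRankOne (V : ValuationSubring k) : Prop :=
  ∀ θ ∈ V.nonunits, ∀ d : k, d ≠ 0 → ∃ n : ℕ, θ ^ n / d ∈ V

lemma one_add_unit {V : ValuationSubring k} {m : k} (hm : m ∈ V.nonunits) :
    1 + m ≠ 0 ∧ (1 + m)⁻¹ ∈ V := by
  have h1 : V.valuation m < 1 := (ValuationSubring.mem_nonunits_iff V).1 hm
  have h2 : V.valuation (1 + m) = 1 := by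
    have := Valuation.map_add_eq_of_lt_left V.valuation (x := 1) (y := m) (by rw [map_one]; exact h1)
    rw [this, map_one]
  refine ⟨?_, ?_⟩
  · intro h0
    rw [h0, map_zero] at h2
    exact zero_ne_one h2
  · rw [← ValuationSubring.valuation_le_one_iff, map_inv₀, h2, inv_one]

lemma nonunits_mem {V : ValuationSubring k} {m : k} (hm : m ∈ V.nonunits) : m ∈ V :=
  (ValuationSubring.valuation_le_one_iff V m).1 ((ValuationSubring.mem_nonunits_iff V).1 hm).le

lemma nonunits_mul {V : ValuationSubring k} {m x : k} (hm : m ∈ V.nonunits) (hx : x ∈ V) :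
    m * x ∈ V.nonunits := by
  rw [ValuationSubring.mem_nonunits_iff] at hm ⊢
  rw [map_mul]
  exact mul_lt_one_of_lt_of_le hm ((ValuationSubring.valuation_le_one_iff V x).2 hx)

lemma nonunits_mul' {V : ValuationSubring k} {m x : k} (hx : x ∈ V) (hm : m ∈ V.nonunits) :
    x * m ∈ V.nonunits := by
  rw [mul_comm]; exact nonunits_mul hm hx

lemma notMem_iff_inv_nonunits {V : ValuationSubring k} {x : k} (hx : x ∉ V) :
    x⁻¹ ∈ V.nonunits := by
  rw [ValuationSubring.mem_nonunits_iff, map_inv₀]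
  rw [← ValuationSubring.valuation_le_one_iff, not_le] at hx
  exact inv_lt_one_of_one_lt₀ hx

/-- Solving the linear system with a bound. -/
lemma solve_lin {V : ValuationSubring k} (y : Fin 3 → k) (i₀ : Fin 3) (hy0 : y i₀ ≠ 0)
    (hmax : ∀ j, y j / y i₀ ∈ V) (R₁ R₂ ρ : k) (hρ : ρ ≠ 0) (h1 : R₁ / ρ ∈ V) (h2 : R₂ / ρ ∈ V) :
    ∃ ξ : Fin 4 → k, lin1 ξ y = R₁ ∧ lin2 ξ y = R₂ ∧ ∀ j, ξ j * y i₀ / ρ ∈ V := by
  have case0 : ∀ (y : Fin 3 → k), y 0 ≠ 0 → (∀ j, y j / y 0 ∈ V) →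
      ∃ ξ : Fin 4 → k, lin1 ξ y = R₁ ∧ lin2 ξ y = R₂ ∧ ∀ j, ξ j * y 0 / ρ ∈ V := by
    intro y hy hm
    refine ⟨![(R₁ - R₂ / y 0 * y 1) / y 0, R₂ / y 0, 0, 0], ?_, ?_, ?_⟩
    · simp [lin1]; field_simp; ring
    · simp [lin2]; field_simp
    · intro j
      fin_cases j
      · have : (R₁ - R₂ / y 0 * y 1) / y 0 * y 0 / ρ = R₁ / ρ - R₂ / ρ * (y 1 / y 0) := by
          field_simp
        simp only [Fin.zero_eta, Matrix.cons_val_zero]
        rw [this]
        exact V.sub_mem h1 (V.mul_mem _ _ h2 (hm 1))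
      · have : R₂ / y 0 * y 0 / ρ = R₂ / ρ := by field_simp
        simp only [Fin.mk_one, Matrix.cons_val_one, Matrix.cons_val_zero]
        rw [this]
        exact h2
      · simp
      · simp
  fin_cases i₀
  · exact case0 y hy0 hmax
  · simp only [Fin.mk_one] at hy0 hmax ⊢
    by_cases hc : y 1 / y 0 ∈ V ∧ y 0 ≠ 0
    · obtain ⟨hc, hy00⟩ := hc
      have hm : ∀ j, y j / y 0 ∈ V := by
        intro j
        have : y j / y 0 = y j / y 1 * (y 1 / y 0) := by field_simp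
        rw [this]
        exact V.mul_mem _ _ (hmax j) hc
      obtain ⟨ξ, e1, e2, e3⟩ := case0 y hy00 hm
      refine ⟨ξ, e1, e2, fun j => ?_⟩
      have : ξ j * y 1 / ρ = ξ j * y 0 / ρ * (y 1 / y 0) := by field_simp
      rw [this]
      exact V.mul_mem _ _ (e3 j) hc
    · -- `y 0 / y 1` is a nonunit
      have hnu : y 0 / y 1 ∈ V.nonunits := by
        by_cases hy00 : y 0 = 0
        · rw [hy00, zero_div, ValuationSubring.mem_nonunits_iff, map_zero]
          exact zero_lt_one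
        · have : y 1 / y 0 ∉ V := fun h => hc ⟨h, hy00⟩
          have h3 := notMem_iff_inv_nonunits this
          rwa [inv_div] at h3
      have hm' : -(y 0 / y 1 * (y 2 / y 1)) ∈ V.nonunits := by
        have h3 := nonunits_mul hnu (V.neg_mem _ (hmax 2))
        rwa [mul_neg] at h3
      obtain ⟨hu0, hu⟩ := one_add_unit hm'
      set δ := 1 + -(y 0 / y 1 * (y 2 / y 1)) with hδ
      have hdet : y 1 ^ 2 * δ = y 1 * y 1 - y 0 * y 2 := by
        rw [hδ]; field_simp; ring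
      have hdet0 : y 1 * y 1 - y 0 * y 2 ≠ 0 := by
        rw [← hdet]; exact mul_ne_zero (pow_ne_zero _ hy0) hu0
      refine ⟨![0, (R₁ * y 1 - R₂ * y 2) / (y 1 * y 1 - y 0 * y 2),
        (R₂ * y 1 - R₁ * y 0) / (y 1 * y 1 - y 0 * y 2), 0], ?_, ?_, ?_⟩
      · simp only [lin1, Matrix.cons_val_zero, Matrix.cons_val_one, Matrix.cons_val, zero_mul,
          zero_add]
        rw [div_mul_eq_mul_div, div_mul_eq_mul_div, ← add_div, div_eq_iff hdet0]
        ring
      · simp only [lin2, Matrix.cons_val_zero, Matrix.cons_val_one, Matrix.cons_val, zero_mul,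
          add_zero]
        rw [div_mul_eq_mul_div, div_mul_eq_mul_div, ← add_div, div_eq_iff hdet0]
        ring
      · intro j
        fin_cases j
        · simp
        · have : (R₁ * y 1 - R₂ * y 2) / (y 1 * y 1 - y 0 * y 2) * y 1 / ρ =
              (R₁ / ρ - R₂ / ρ * (y 2 / y 1)) * δ⁻¹ := by
            rw [← hdet]; field_simp
          simp only [Fin.mk_one, Matrix.cons_val_one, Matrix.cons_val_zero]
          rw [this]
          exact V.mul_mem _ _ (V.sub_mem h1 (V.mul_mem _ _ h2 (hmax 2))) hu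
        · have : (R₂ * y 1 - R₁ * y 0) / (y 1 * y 1 - y 0 * y 2) * y 1 / ρ =
              (R₂ / ρ - R₁ / ρ * (y 0 / y 1)) * δ⁻¹ := by
            rw [← hdet]; field_simp
          simp only [Fin.reduceFinMk, Matrix.cons_val]
          rw [this]
          exact V.mul_mem _ _ (V.sub_mem h2 (V.mul_mem _ _ h1 (hmax 0))) hu
        · simp
  · simp only [Fin.reduceFinMk] at hy0 hmax ⊢
    refine ⟨![0, 0, R₁ / y 2, (R₂ - R₁ / y 2 * y 1) / y 2], ?_, ?_, ?_⟩
    · simp [lin1]; field_simp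
    · simp [lin2]; field_simp; ring
    · intro j
      fin_cases j
      · simp
      · simp
      · have : R₁ / y 2 * y 2 / ρ = R₁ / ρ := by field_simp
        simp only [Fin.reduceFinMk, Matrix.cons_val]
        rw [this]
        exact h1
      · have : (R₂ - R₁ / y 2 * y 1) / y 2 * y 2 / ρ = R₂ / ρ - R₁ / ρ * (y 1 / y 2) := by
          field_simp
        simp only [Fin.reduceFinMk, Matrix.cons_val]
        rw [this]
        exact V.sub_mem h2 (V.mul_mem _ _ h1 (hmax 1))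

/-- Hensel lifting without completion. -/
lemma hensel [CharP k 2] {V : ValuationSubring k} (hV : IsRankOne V) (a b : Fin 4 → k)
    (g₁ g₂ : Fin 3 → Fin 3 → k) (y : Fin 3 → k) (i₀ : Fin 3) (hy0 : y i₀ ≠ 0)
    (hmax : ∀ j, y j / y i₀ ∈ V) (A r : k) (hA : A ≠ 0) (hr : r ≠ 0)
    (ha : ∀ j, a j / A ∈ V) (hb : ∀ j, b j / A ∈ V)
    (hθ : A * r / y i₀ ^ 2 ∈ V.nonunits) (x : Fin 4 → k)
    (h1 : Q1 a g₁ x y / r ∈ V) (h2 : Q2 b g₂ x y / r ∈ V) : AppSol V a b g₁ g₂ y := by
  set θ := A * r / y i₀ ^ 2 with hθdef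
  have hθ0 : θ ≠ 0 := div_ne_zero (mul_ne_zero hA hr) (pow_ne_zero _ hy0)
  have key : ∀ n : ℕ, ∃ x : Fin 4 → k, Q1 a g₁ x y / (r * θ ^ n) ∈ V ∧
      Q2 b g₂ x y / (r * θ ^ n) ∈ V := by
    intro n
    induction n with
    | zero => exact ⟨x, by simpa using h1, by simpa using h2⟩
    | succ n ih =>
      obtain ⟨x, hx1, hx2⟩ := ih
      have hρ0 : r * θ ^ n ≠ 0 := mul_ne_zero hr (pow_ne_zero _ hθ0)
      obtain ⟨ξ, e1, e2, e3⟩ := solve_lin y i₀ hy0 hmax _ _ _ hρ0 hx1 hx2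
      have hpow : θ ^ n ∈ V := pow_mem (nonunits_mem hθ) n
      -- the new error is `phi a ξ`
      have hphi : ∀ c : Fin 4 → k, (∀ j, c j / A ∈ V) → phi c ξ / (r * θ ^ (n + 1)) ∈ V := by
        intro c hc
        have h3 : phi c ξ / (r * θ ^ (n + 1)) = θ ^ n *
            (c 0 / A * (ξ 0 * y i₀ / (r * θ ^ n)) ^ 2 + c 1 / A * (ξ 1 * y i₀ / (r * θ ^ n)) ^ 2 +
            c 2 / A * (ξ 2 * y i₀ / (r * θ ^ n)) ^ 2 +
            c 3 / A * (ξ 3 * y i₀ / (r * θ ^ n)) ^ 2) := by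
          have h4 : A * r = θ * y i₀ ^ 2 := by rw [hθdef]; field_simp
          have h5 : y i₀ ^ 2 / (A * (r * θ ^ n)) = 1 / (θ ^ n * θ) := by
            rw [div_eq_div_iff (mul_ne_zero hA hρ0) (mul_ne_zero (pow_ne_zero _ hθ0) hθ0)]
            linear_combination -θ ^ n * h4
          have h6 : ∀ j, θ ^ n * (c j / A * (ξ j * y i₀ / (r * θ ^ n)) ^ 2) =
              c j * ξ j ^ 2 / (r * θ ^ (n + 1)) := by
            intro j
            have h7 : θ ^ n * (c j / A * (ξ j * y i₀ / (r * θ ^ n)) ^ 2) =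
                θ ^ n * (c j * ξ j ^ 2 / (r * θ ^ n)) * (y i₀ ^ 2 / (A * (r * θ ^ n))) := by
              field_simp
            rw [h7, h5, pow_succ]
            field_simp
            try ring
          rw [mul_add, mul_add, mul_add, h6, h6, h6, h6]
          simp only [phi]
          ring
        rw [h3]
        refine V.mul_mem _ _ hpow (V.add_mem _ _ (V.add_mem _ _ (V.add_mem _ _ ?_ ?_) ?_) ?_) <;>
          exact V.mul_mem _ _ (hc _) (pow_mem (e3 _) 2)
      refine ⟨fun j => x j + ξ j, ?_, ?_⟩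
      · have h3 : Q1 a g₁ (fun j => x j + ξ j) y = phi a ξ := by
          have h4 : Q1 a g₁ (fun j => x j + ξ j) y =
              Q1 a g₁ x y + lin1 ξ y + phi a ξ := by
            simp only [Q1, phi, lin1, CharTwo.add_sq]
            ring
          rw [h4, e1, CharTwo.add_self_eq_zero, zero_add]
        rw [h3]
        exact hphi a ha
      · have h3 : Q2 b g₂ (fun j => x j + ξ j) y = phi b ξ := by
          have h4 : Q2 b g₂ (fun j => x j + ξ j) y =
              Q2 b g₂ x y + lin2 ξ y + phi b ξ := by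
            simp only [Q2, phi, lin2, CharTwo.add_sq]
            ring
          rw [h4, e2, CharTwo.add_self_eq_zero, zero_add]
        rw [h3]
        exact hphi b hb
  intro d hd
  obtain ⟨n, hn⟩ := hV θ hθ (d / r) (div_ne_zero hd hr)
  obtain ⟨x, hx1, hx2⟩ := key n
  have h3 : r * θ ^ n / d = θ ^ n / (d / r) := by field_simp
  refine ⟨x, ?_, ?_⟩
  · have : Q1 a g₁ x y / d = Q1 a g₁ x y / (r * θ ^ n) * (r * θ ^ n / d) := by
      have : r * θ ^ n ≠ 0 := mul_ne_zero hr (pow_ne_zero _ hθ0)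
      field_simp
    rw [this, h3]
    exact V.mul_mem _ _ hx1 hn
  · have : Q2 b g₂ x y / d = Q2 b g₂ x y / (r * θ ^ n) * (r * θ ^ n / d) := by
      have : r * θ ^ n ≠ 0 := mul_ne_zero hr (pow_ne_zero _ hθ0)
      field_simp
    rw [this, h3]
    exact V.mul_mem _ _ hx2 hn

end

end Pool.Agent.Helper26
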