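import Mathlib
import Pool.Agent.Helper26.Cart
import Pool.Agent.Helper26.Forms

set_option autoImplicit false
set_option linter.unusedSectionVars false

/-!
# From local solvability to a neighbourhood of good values of `y`
-/

namespace Pool.Agent.Helper26

section

variable {k : Type*} [Field k]

lemma exists_big (V : ValuationSubring k) {ι : Type*} [Finite ι] (c : ι → k) :
    ∃ w : k, w ≠ 0 ∧ w⁻¹ ∈ V ∧ ∀ i, c i / w ∈ V := by
  have := Fintype.ofFinite ι
  let c' : Option ι → k := fun i => i.elim 1 c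
  obtain ⟨i, -, hi⟩ := Finset.exists_max_image (Finset.univ : Finset (Option ι))
    (fun i => V.valuation (c' i)) ⟨none, Finset.mem_univ _⟩
  have h1 : 1 ≤ V.valuation (c' i) := by
    have := hi none (Finset.mem_univ _)
    simpa [c'] using this
  have hw0 : c' i ≠ 0 := by
    intro h0
    rw [h0, map_zero] at h1
    exact absurd h1 (not_le.2 zero_lt_one)
  have hpos : 0 < V.valuation (c' i) := lt_of_lt_of_le zero_lt_one h1
  refine ⟨c' i, hw0, ?_, fun j => ?_⟩
  · rw [← ValuationSubring.valuation_le_one_iff, map_inv₀]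
    exact inv_le_one_of_one_le₀ h1
  · rw [← ValuationSubring.valuation_le_one_iff, map_div₀]
    exact div_le_one_of_le₀ (hi (some j) (Finset.mem_univ _)) hpos.le

lemma exists_nonunit {V : ValuationSubring k} (hV : V ≠ ⊤) : ∃ π : k, π ≠ 0 ∧ π ∈ V.nonunits := by
  by_contra hcon
  push Not at hcon
  apply hV
  rw [eq_top_iff]
  intro x _
  by_contra hx
  have h1 := notMem_iff_inv_nonunits hx
  have h0 : x ≠ 0 := by rintro rfl; exact hx V.zero_mem
  exact hcon _ (inv_ne_zero h0) h1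

lemma mem_of_sq_mem {V : ValuationSubring k} {z : k} (h : z ^ 2 ∈ V) : z ∈ V := by
  by_contra hz
  rw [← ValuationSubring.valuation_le_one_iff, not_le] at hz
  rw [← ValuationSubring.valuation_le_one_iff, map_pow] at h
  exact absurd h (not_le.2 (one_lt_pow₀ hz two_ne_zero))

variable [CharP k 2] {t : k}

/-- The matrix of the coefficients of `a` and `b` with respect to the `2`-basis. -/
noncomputable def matPhi (ht : IsTwoBasis t) (a b : Fin 4 → k) : Matrix (Fin 4) (Fin 4) k :=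
  Matrix.of ![fun j => ht.sqp (a j), fun j => ht.cart (a j), fun j => ht.sqp (b j),
    fun j => ht.cart (b j)]

lemma phi_decomp (ht : IsTwoBasis t) (a x : Fin 4 → k) :
    phi a x = (∑ j, ht.sqp (a j) * x j) ^ 2 + t * (∑ j, ht.cart (a j) * x j) ^ 2 := by
  simp only [phi, Fin.sum_univ_four, CharTwo.add_sq]
  have h := fun j => ht.eq (a j)
  nth_rewrite 1 [h 0, h 1, h 2, h 3]
  ring

lemma mulVec_matPhi (ht : IsTwoBasis t) (a b x : Fin 4 → k) :
    (matPhi ht a b).mulVec x = ![ht.sqp (phi a x), ht.cart (phi a x), ht.sqp (phi b x),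
      ht.cart (phi b x)] := by
  rw [ht.sqp_eq (phi_decomp ht a x), ht.cart_eq (phi_decomp ht a x),
    ht.sqp_eq (phi_decomp ht b x), ht.cart_eq (phi_decomp ht b x)]
  ext i
  fin_cases i <;> simp [matPhi, Matrix.mulVec, dotProduct]

/-- Boundedness of the Cartier operator on a valuation ring. -/
def CartBdd (ht : IsTwoBasis t) (V : ValuationSubring k) : Prop :=
  ∃ s : k, s ≠ 0 ∧ ∀ g ∈ V, ht.cart g / s ∈ V

/-- For small `y` there are no primitive approximate solutions. -/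
lemma exists_c0 (ht : IsTwoBasis t) {V : ValuationSubring k} (hV : V ≠ ⊤) (hc : CartBdd ht V)
    {a b : Fin 4 → k} (hdet : (matPhi ht a b).det ≠ 0) (g₁ g₂ : Fin 3 → Fin 3 → k) :
    ∃ c₀ : k, c₀ ≠ 0 ∧ c₀ ∈ V.nonunits ∧ ∀ (x : Fin 4 → k) (y : Fin 3 → k), (∀ i, x i ∈ V) →
      (∀ i, y i / c₀ ∈ V) → Q1 a g₁ x y / c₀ ∈ V → Q2 b g₂ x y / c₀ ∈ V →
      ∀ i, x i ∈ V.nonunits := by
  obtain ⟨s, hs0, hs⟩ := hc
  obtain ⟨γ, hγ0, hγ, hγg⟩ := exists_big V
    (fun i : Fin 2 × Fin 3 × Fin 3 => if i.1 = 0 then g₁ i.2.1 i.2.2 else g₂ i.2.1 i.2.2)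
  obtain ⟨w, hw0, hw, hwst⟩ := exists_big V ![s, t]
  obtain ⟨n, hn0, hn, hnN⟩ := exists_big V (fun ij : Fin 4 × Fin 4 => (matPhi ht a b)⁻¹ ij.1 ij.2)
  obtain ⟨π, hπ0, hπ⟩ := exists_nonunit hV
  have hsw : s / w ∈ V := hwst 0
  have htw : t / w ∈ V := hwst 1
  set e := π / (w ^ 2 * n) with he
  have he0 : e ≠ 0 := div_ne_zero hπ0 (mul_ne_zero (pow_ne_zero _ hw0) hn0)
  have hen : e ∈ V.nonunits := by
    have : e = π * (w⁻¹ ^ 2 * n⁻¹) := by rw [he]; field_simp
    rw [this]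
    exact nonunits_mul hπ (V.mul_mem _ _ (pow_mem hw 2) hn)
  have hc0n : e ^ 2 / γ ∈ V.nonunits := by
    have : e ^ 2 / γ = e * (e * γ⁻¹) := by field_simp
    rw [this]
    exact nonunits_mul hen (V.mul_mem _ _ (nonunits_mem hen) hγ)
  have hc00 : e ^ 2 / γ ≠ 0 := div_ne_zero (pow_ne_zero _ he0) hγ0
  refine ⟨e ^ 2 / γ, hc00, hc0n, ?_⟩
  set c₀ := e ^ 2 / γ with hc₀
  intro x y hx hy h1 h2
  have hce : e ^ 2 = c₀ * γ := by rw [hc₀]; field_simp
  have hyV : ∀ i, y i ∈ V := by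
    intro i
    have : y i = c₀ * (y i / c₀) := by field_simp
    rw [this]
    exact V.mul_mem _ _ (nonunits_mem hc0n) (hy i)
  have hquad : ∀ g : Fin 3 → Fin 3 → k, (∀ i j, g i j / γ ∈ V) → quad g y / e ^ 2 ∈ V := by
    intro g hg
    have : quad g y / e ^ 2 = ∑ i, ∑ j, g i j / γ * y i * (y j / c₀) := by
      rw [quad, Finset.sum_div]
      refine Finset.sum_congr rfl fun i _ => ?_
      rw [Finset.sum_div]
      refine Finset.sum_congr rfl fun j _ => ?_
      rw [hce]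
      field_simp
    rw [this]
    exact sum_mem fun i _ => sum_mem fun j _ =>
      V.mul_mem _ _ (V.mul_mem _ _ (hg i j) (hyV i)) (hy j)
  have hlin : ∀ i : Fin 4, ∀ j : Fin 3, x i * y j / e ^ 2 ∈ V := by
    intro i j
    have : x i * y j / e ^ 2 = x i * (y j / c₀) * γ⁻¹ := by
      rw [hce]; field_simp
    rw [this]
    exact V.mul_mem _ _ (V.mul_mem _ _ (hx i) (hy j)) hγ
  have hphi1 : phi a x / e ^ 2 ∈ V := by
    have h3 : phi a x = Q1 a g₁ x y + lin1 x y + quad g₁ y := by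
      rw [Q1]
      linear_combination -CharTwo.add_self_eq_zero (lin1 x y) -
        CharTwo.add_self_eq_zero (quad g₁ y)
    have h4 : phi a x / e ^ 2 = Q1 a g₁ x y / c₀ * γ⁻¹ + (x 0 * y 0 / e ^ 2 + x 1 * y 1 / e ^ 2 +
        x 2 * y 2 / e ^ 2) + quad g₁ y / e ^ 2 := by
      rw [h3, add_div, add_div]
      congr 1
      · congr 1
        · rw [hce]; field_simp
        · rw [lin1, add_div, add_div]
    rw [h4]
    refine V.add_mem _ _ (V.add_mem _ _ (V.mul_mem _ _ h1 hγ) (V.add_mem _ _ (V.add_mem _ _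
      (hlin _ _) (hlin _ _)) (hlin _ _))) (hquad g₁ fun i j => ?_)
    have := hγg (0, i, j)
    simpa using this
  have hphi2 : phi b x / e ^ 2 ∈ V := by
    have h3 : phi b x = Q2 b g₂ x y + lin2 x y + quad g₂ y := by
      rw [Q2]
      linear_combination -CharTwo.add_self_eq_zero (lin2 x y) -
        CharTwo.add_self_eq_zero (quad g₂ y)
    have h4 : phi b x / e ^ 2 = Q2 b g₂ x y / c₀ * γ⁻¹ + (x 1 * y 0 / e ^ 2 + x 2 * y 1 / e ^ 2 +
        x 3 * y 2 / e ^ 2) + quad g₂ y / e ^ 2 := by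
      rw [h3, add_div, add_div]
      congr 1
      · congr 1
        · rw [hce]; field_simp
        · rw [lin2, add_div, add_div]
    rw [h4]
    refine V.add_mem _ _ (V.add_mem _ _ (V.mul_mem _ _ h2 hγ) (V.add_mem _ _ (V.add_mem _ _
      (hlin _ _) (hlin _ _)) (hlin _ _))) (hquad g₂ fun i j => ?_)
    have := hγg (1, i, j)
    simpa using this
  -- bounds for the square part and the Cartier part
  have hparts : ∀ p : k, p / e ^ 2 ∈ V → ht.cart p / (e * w ^ 2) ∈ V ∧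
      ht.sqp p / (e * w ^ 2) ∈ V := by
    intro p hp
    have h3 : ht.cart (p / e ^ 2) = ht.cart p / e := by
      have : p / e ^ 2 = (e⁻¹) ^ 2 * p := by field_simp
      rw [this, ht.cart_sq_mul]
      field_simp
    have h4 : ht.cart p / e / s ∈ V := by rw [← h3]; exact hs _ hp
    refine ⟨?_, ?_⟩
    · have : ht.cart p / (e * w ^ 2) = ht.cart p / e / s * (s / w) * w⁻¹ := by field_simp
      rw [this]
      exact V.mul_mem _ _ (V.mul_mem _ _ h4 hsw) hw
    · apply mem_of_sq_mem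
      have h5 : ht.sqp p ^ 2 = p - t * ht.cart p ^ 2 := by
        have := ht.eq p
        nth_rewrite 2 [this]
        ring
      have h6 : (ht.sqp p / (e * w ^ 2)) ^ 2 = p / e ^ 2 * w⁻¹ ^ 4 -
          t / w * (ht.cart p / e / s) ^ 2 * (s / w) ^ 2 * w⁻¹ := by
        rw [div_pow, h5]
        field_simp
      rw [h6]
      refine V.sub_mem (V.mul_mem _ _ hp (pow_mem hw 4)) ?_
      exact V.mul_mem _ _ (V.mul_mem _ _ (V.mul_mem _ _ htw (pow_mem h4 2)) (pow_mem hsw 2)) hw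
  have hM : ∀ i, (matPhi ht a b).mulVec x i / (e * w ^ 2) ∈ V := by
    intro i
    rw [mulVec_matPhi]
    fin_cases i
    · exact (hparts _ hphi1).2
    · exact (hparts _ hphi1).1
    · exact (hparts _ hphi2).2
    · exact (hparts _ hphi2).1
  intro i
  have h7 : x i = ∑ j, (matPhi ht a b)⁻¹ i j * (matPhi ht a b).mulVec x j := by
    have h8 : (matPhi ht a b)⁻¹.mulVec ((matPhi ht a b).mulVec x) = x := by
      rw [Matrix.mulVec_mulVec, Matrix.nonsing_inv_mul _ (isUnit_iff_ne_zero.2 hdet),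
        Matrix.one_mulVec]
    nth_rewrite 1 [← h8]
    rfl
  have h8 : x i = π * ∑ j, (matPhi ht a b)⁻¹ i j / n *
      ((matPhi ht a b).mulVec x j / (e * w ^ 2)) := by
    have h9 : π = e * w ^ 2 * n := by rw [he]; field_simp
    rw [h9]
    nth_rewrite 1 [h7]
    rw [Finset.mul_sum]
    refine Finset.sum_congr rfl fun j _ => ?_
    field_simp
  rw [h8]
  exact nonunits_mul hπ (sum_mem fun j _ => V.mul_mem _ _ (hnN (i, j)) (hM j))

/-- Approximate local solvability: primitive solutions to any precision. -/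
def LocApp (V : ValuationSubring k) (a b : Fin 4 → k) (g₁ g₂ : Fin 3 → Fin 3 → k) : Prop :=
  ∀ d : k, d ≠ 0 → ∃ (x : Fin 4 → k) (y : Fin 3 → k), (∀ i, x i ∈ V) ∧ (∀ i, y i ∈ V) ∧
    ((∃ i, x i ∉ V.nonunits) ∨ ∃ i, y i ∉ V.nonunits) ∧
    Q1 a g₁ x y / d ∈ V ∧ Q2 b g₂ x y / d ∈ V

lemma exists_max3 (V : ValuationSubring k) (y : Fin 3 → k) (j : Fin 3) (hj : y j ≠ 0) :
    ∃ i, y i ≠ 0 ∧ ∀ l, y l / y i ∈ V := by
  obtain ⟨i, -, hi⟩ := Finset.exists_max_image (Finset.univ : Finset (Fin 3))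
    (fun i => V.valuation (y i)) ⟨0, Finset.mem_univ _⟩
  have h1 : y i ≠ 0 := by
    intro h0
    have := hi j (Finset.mem_univ _)
    rw [h0, map_zero, nonpos_iff_eq_zero, Valuation.zero_iff] at this
    exact hj this
  refine ⟨i, h1, fun l => ?_⟩
  rw [← ValuationSubring.valuation_le_one_iff, map_div₀]
  exact div_le_one_of_le₀ (hi l (Finset.mem_univ _)) zero_le

lemma exists_nbhd (ht : IsTwoBasis t) {V : ValuationSubring k} (hV : V ≠ ⊤) (hr1 : IsRankOne V)
    (hc : CartBdd ht V) {a b : Fin 4 → k} (hdet : (matPhi ht a b).det ≠ 0)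
    (g₁ g₂ : Fin 3 → Fin 3 → k) (hloc : LocApp V a b g₁ g₂) :
    ∃ (y₀ : Fin 3 → k) (ρ : k), ρ ≠ 0 ∧ ∀ y : Fin 3 → k, (∀ i, (y i - y₀ i) / ρ ∈ V) →
      AppSol V a b g₁ g₂ y := by
  obtain ⟨c₀, hc00, hc0, hsmall⟩ := exists_c0 ht hV hc hdet g₁ g₂
  obtain ⟨A, hA0, hA, hAab⟩ := exists_big V
    (fun i : Fin 2 × Fin 4 => if i.1 = 0 then a i.2 else b i.2)
  obtain ⟨γ, hγ0, hγ, hγg⟩ := exists_big V
    (fun i : Fin 2 × Fin 3 × Fin 3 => if i.1 = 0 then g₁ i.2.1 i.2.2 else g₂ i.2.1 i.2.2)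
  obtain ⟨π, hπ0, hπ⟩ := exists_nonunit hV
  have hc0V := nonunits_mem hc0
  set r := c₀ ^ 2 * π / A with hr
  have hr0 : r ≠ 0 := div_ne_zero (mul_ne_zero (pow_ne_zero _ hc00) hπ0) hA0
  have hrc : r / c₀ ∈ V := by
    have : r / c₀ = c₀ * π * A⁻¹ := by rw [hr]; field_simp
    rw [this]
    exact V.mul_mem _ _ (V.mul_mem _ _ hc0V (nonunits_mem hπ)) hA
  obtain ⟨x, y, hx, hy, hprim, h1, h2⟩ := hloc r hr0
  have hrV : ∀ z, z / r ∈ V → z / c₀ ∈ V := by
    intro z hz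
    have : z / c₀ = z / r * (r / c₀) := by field_simp
    rw [this]
    exact V.mul_mem _ _ hz hrc
  -- some `y i` is large
  obtain ⟨j, hj⟩ : ∃ j, y j / c₀ ∉ V := by
    by_contra hcon
    push Not at hcon
    have h3 := hsmall x y hx hcon (hrV _ h1) (hrV _ h2)
    rcases hprim with ⟨i, hi⟩ | ⟨i, hi⟩
    · exact hi (h3 i)
    · apply hi
      have : y i = c₀ * (y i / c₀) := by field_simp
      rw [this]
      exact nonunits_mul hc0 (hcon i)
  have hj0 : y j ≠ 0 := by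
    intro h0
    rw [h0, zero_div] at hj
    exact hj V.zero_mem
  obtain ⟨i₀, hi₀, hmax⟩ := exists_max3 V y j hj0
  have hcy : c₀ / y i₀ ∈ V := by
    have h3 : c₀ / y j ∈ V := by
      have := nonunits_mem (notMem_iff_inv_nonunits hj)
      rwa [inv_div] at this
    have : c₀ / y i₀ = c₀ / y j * (y j / y i₀) := by field_simp
    rw [this]
    exact V.mul_mem _ _ h3 (hmax j)
  set ρ := r / γ with hρ
  have hρ0 : ρ ≠ 0 := div_ne_zero hr0 hγ0
  have hρy : ρ / y i₀ ∈ V.nonunits := by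
    have : ρ / y i₀ = π * (c₀ / y i₀ * c₀ * (A⁻¹ * γ⁻¹)) := by
      rw [hρ, hr]; field_simp
    rw [this]
    exact nonunits_mul hπ (V.mul_mem _ _ (V.mul_mem _ _ hcy hc0V) (V.mul_mem _ _ hA hγ))
  have hρr : ρ / r ∈ V := by
    have : ρ / r = γ⁻¹ := by rw [hρ]; field_simp
    rw [this]; exact hγ
  refine ⟨y, ρ, hρ0, fun y' hy' => ?_⟩
  -- `y' = y + ρ η`
  obtain ⟨η, hη⟩ : ∃ η : Fin 3 → k, ∀ i, y' i = y i + ρ * η i :=
    ⟨fun i => (y' i - y i) / ρ, fun i => by field_simp; ring⟩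
  have hηV : ∀ i, η i ∈ V := by
    intro i
    have := hy' i
    rw [hη i] at this
    have h3 : (y i + ρ * η i - y i) / ρ = η i := by field_simp; ring
    rwa [h3] at this
  have hunit : 1 + ρ / y i₀ * η i₀ ≠ 0 ∧ (1 + ρ / y i₀ * η i₀)⁻¹ ∈ V :=
    one_add_unit (nonunits_mul hρy (hηV i₀))
  have hy'0 : y' i₀ = y i₀ * (1 + ρ / y i₀ * η i₀) := by
    rw [hη i₀]; field_simp
  have hy'ne : y' i₀ ≠ 0 := by
    rw [hy'0]; exact mul_ne_zero hi₀ hunit.1
  have hρV : ρ ∈ V := by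
    have : ρ = ρ / y i₀ * y i₀ := by field_simp
    rw [this]
    exact V.mul_mem _ _ (nonunits_mem hρy) (hy i₀)
  refine hensel hr1 a b g₁ g₂ y' i₀ hy'ne ?_ A r hA0 hr0 ?_ ?_ ?_ x ?_ ?_
  · intro j
    have : y' j / y' i₀ = (y j / y i₀ + ρ / y i₀ * η j) * (1 + ρ / y i₀ * η i₀)⁻¹ := by
      rw [hy'0, hη j]
      generalize 1 + ρ / y i₀ * η i₀ = U
      rw [div_mul_eq_div_div, div_eq_mul_inv _ U]
      congr 1
      field_simp
    rw [this]
    exact V.mul_mem _ _ (V.add_mem _ _ (hmax j) (V.mul_mem _ _ (nonunits_mem hρy) (hηV j))) hunit.2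
  · intro j
    have := hAab (0, j)
    simpa using this
  · intro j
    have := hAab (1, j)
    simpa using this
  · have : A * r / y' i₀ ^ 2 = π * ((c₀ / y i₀) ^ 2 * (1 + ρ / y i₀ * η i₀)⁻¹ ^ 2) := by
      rw [hy'0, hr, mul_pow, div_mul_eq_div_div, div_eq_mul_inv _ ((1 + ρ / y i₀ * η i₀) ^ 2),
        inv_pow]
      field_simp
    rw [this]
    exact nonunits_mul hπ (V.mul_mem _ _ (pow_mem hcy 2) (pow_mem hunit.2 2))
  · have h3 : Q1 a g₁ x y' = Q1 a g₁ x y + ρ * lin1 x η + (quad g₁ y' - quad g₁ y) := by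
      simp only [Q1, lin1, hη]; ring
    have h4 : quad g₁ y' - quad g₁ y = ρ * ∑ i, ∑ j, g₁ i j * (y i * η j + η i * y j +
        ρ * η i * η j) := by
      simp only [quad]
      rw [← Finset.sum_sub_distrib, Finset.mul_sum]
      refine Finset.sum_congr rfl fun i _ => ?_
      rw [← Finset.sum_sub_distrib, Finset.mul_sum]
      refine Finset.sum_congr rfl fun j _ => ?_
      rw [hη i, hη j]; ring
    have h5 : Q1 a g₁ x y' / r = Q1 a g₁ x y / r + ρ / r * lin1 x η +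
        ∑ i, ∑ j, g₁ i j / γ * (y i * η j + η i * y j + ρ * η i * η j) := by
      rw [h3, h4, add_div, add_div, mul_div_right_comm, mul_div_right_comm, Finset.mul_sum]
      congr 1
      refine Finset.sum_congr rfl fun i _ => ?_
      rw [Finset.mul_sum]
      refine Finset.sum_congr rfl fun j _ => ?_
      rw [hρ]; field_simp
    rw [h5]
    refine V.add_mem _ _ (V.add_mem _ _ h1 (V.mul_mem _ _ hρr ?_)) ?_
    · exact V.add_mem _ _ (V.add_mem _ _ (V.mul_mem _ _ (hx _) (hηV _))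
        (V.mul_mem _ _ (hx _) (hηV _))) (V.mul_mem _ _ (hx _) (hηV _))
    · refine sum_mem fun i _ => sum_mem fun j _ => V.mul_mem _ _ ?_ ?_
      · have := hγg (0, i, j)
        simpa using this
      · exact V.add_mem _ _ (V.add_mem _ _ (V.mul_mem _ _ (hy _) (hηV _))
          (V.mul_mem _ _ (hηV _) (hy _))) (V.mul_mem _ _ (V.mul_mem _ _ hρV (hηV _)) (hηV _))
  · have h3 : Q2 b g₂ x y' = Q2 b g₂ x y + ρ * lin2 x η + (quad g₂ y' - quad g₂ y) := by
      simp only [Q2, lin2, hη]; ring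
    have h4 : quad g₂ y' - quad g₂ y = ρ * ∑ i, ∑ j, g₂ i j * (y i * η j + η i * y j +
        ρ * η i * η j) := by
      simp only [quad]
      rw [← Finset.sum_sub_distrib, Finset.mul_sum]
      refine Finset.sum_congr rfl fun i _ => ?_
      rw [← Finset.sum_sub_distrib, Finset.mul_sum]
      refine Finset.sum_congr rfl fun j _ => ?_
      rw [hη i, hη j]; ring
    have h5 : Q2 b g₂ x y' / r = Q2 b g₂ x y / r + ρ / r * lin2 x η +
        ∑ i, ∑ j, g₂ i j / γ * (y i * η j + η i * y j + ρ * η i * η j) := by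
      rw [h3, h4, add_div, add_div, mul_div_right_comm, mul_div_right_comm, Finset.mul_sum]
      congr 1
      refine Finset.sum_congr rfl fun i _ => ?_
      rw [Finset.mul_sum]
      refine Finset.sum_congr rfl fun j _ => ?_
      rw [hρ]; field_simp
    rw [h5]
    refine V.add_mem _ _ (V.add_mem _ _ h2 (V.mul_mem _ _ hρr ?_)) ?_
    · exact V.add_mem _ _ (V.add_mem _ _ (V.mul_mem _ _ (hx _) (hηV _))
        (V.mul_mem _ _ (hx _) (hηV _))) (V.mul_mem _ _ (hx _) (hηV _))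
    · refine sum_mem fun i _ => sum_mem fun j _ => V.mul_mem _ _ ?_ ?_
      · have := hγg (1, i, j)
        simpa using this
      · exact V.add_mem _ _ (V.add_mem _ _ (V.mul_mem _ _ (hy _) (hηV _))
          (V.mul_mem _ _ (hηV _) (hy _))) (V.mul_mem _ _ (V.mul_mem _ _ hρV (hηV _)) (hηV _))

end

end Pool.Agent.Helper26
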