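import Mathlib
import Pool.Agent.Helper26.FinTrace
import Pool.Agent.Helper26.PolyCart

set_option autoImplicit false
set_option linter.unusedSectionVars false

/-!
# Solvability of pairs of additive quadratic equations over a finite field
-/

namespace Pool.Agent.Helper26

open Finset

/-- The additive map given by two quadratic forms with diagonal quadratic part and linear
parts. -/
def pairMap {κ : Type*} [Field κ] [CharP κ 2] {ι : Type*} [Fintype ι] (a b m n : ι → κ) :
    (ι → κ) →+ κ × κ where
  toFun x := (∑ j, (a j * x j ^ 2 + m j * x j), ∑ j, (b j * x j ^ 2 + n j * x j))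
  map_zero' := by simp
  map_add' := by
    intro x y
    rw [Prod.mk_add_mk, ← sum_add_distrib, ← sum_add_distrib]
    congr 1
    · refine sum_congr rfl fun j _ => ?_
      rw [Pi.add_apply, CharTwo.add_sq]; ring
    · refine sum_congr rfl fun j _ => ?_
      rw [Pi.add_apply, CharTwo.add_sq]; ring

lemma pairMap_surjective {κ : Type*} [Field κ] [Finite κ] [CharP κ 2] {ι : Type*} [Fintype ι]
    (a b m n : ι → κ)
    (h : ∀ e f : κ, (∀ j, e * a j + f * b j = (e * m j + f * n j) ^ 2) → e = 0 ∧ f = 0) :
    Function.Surjective (pairMap a b m n) := by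
  classical
  obtain ⟨T, hT⟩ := exists_absTrace κ
  rw [← AddMonoidHom.range_eq_top]
  let _ : Module (ZMod 2) κ := (ZMod.algebra κ 2).toModule
  by_contra hne
  -- the range as a subspace over `ZMod 2`
  let U : Submodule (ZMod 2) (κ × κ) := AddSubgroup.toZModSubmodule 2 (pairMap a b m n).range
  have hU : U < ⊤ := by
    rw [lt_top_iff_ne_top]
    intro htop
    apply hne
    rw [eq_top_iff]
    intro x _
    have : x ∈ U := by rw [htop]; trivial
    exact this
  obtain ⟨φ, hφ, hle⟩ := Submodule.exists_le_ker_of_lt_top _ hU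
  have hvan : ∀ x, φ (pairMap a b m n x) = 0 := fun x => hle ⟨x, rfl⟩
  obtain ⟨e, he⟩ := hT.repr ((φ : κ × κ →+ ZMod 2).comp (AddMonoidHom.inl κ κ))
  obtain ⟨f, hf⟩ := hT.repr ((φ : κ × κ →+ ZMod 2).comp (AddMonoidHom.inr κ κ))
  have hφ' : ∀ x y : κ, φ (x, y) = T (e * x) + T (f * y) := by
    intro x y
    rw [← he, ← hf]
    have h1 : ((x, y) : κ × κ) = (x, 0) + (0, y) := by simp
    rw [h1, map_add]
    rfl
  have hef : e = 0 ∧ f = 0 := by
    apply h
    intro j
    by_contra hne'
    have hne2 : e * a j + f * b j + (e * m j + f * n j) ^ 2 ≠ 0 := by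
      intro h0
      exact hne' (CharTwo.add_eq_zero.1 h0)
    obtain ⟨c2, hc2⟩ := hT.nondeg _ hne2
    obtain ⟨c, rfl⟩ := exists_sq c2
    have h1 := hvan (Pi.single j c)
    have h2 : pairMap a b m n (Pi.single j c) =
        (a j * c ^ 2 + m j * c, b j * c ^ 2 + n j * c) := by
      change (∑ i, (a i * (Pi.single j c : ι → κ) i ^ 2 + m i * (Pi.single j c : ι → κ) i),
        ∑ i, (b i * (Pi.single j c : ι → κ) i ^ 2 + n i * (Pi.single j c : ι → κ) i)) = _
      rw [Finset.sum_eq_single j, Finset.sum_eq_single j, Pi.single_eq_same]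
      · intro i _ hi
        rw [Pi.single_eq_of_ne hi]; ring
      · intro hj; exact absurd (mem_univ j) hj
      · intro i _ hi
        rw [Pi.single_eq_of_ne hi]; ring
      · intro hj; exact absurd (mem_univ j) hj
    rw [h2, hφ', ← map_add] at h1
    have h3 : e * (a j * c ^ 2 + m j * c) + f * (b j * c ^ 2 + n j * c) =
        (e * a j + f * b j) * c ^ 2 + (e * m j + f * n j) * c := by ring
    have h4 : (e * a j + f * b j + (e * m j + f * n j) ^ 2) * c ^ 2 =
        (e * a j + f * b j) * c ^ 2 + ((e * m j + f * n j) * c) ^ 2 := by ring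
    rw [h4, map_add, hT.sq, ← map_add, ← h3, h1] at hc2
    exact zero_ne_one hc2
  apply hφ
  refine LinearMap.ext fun x => ?_
  obtain ⟨x, y⟩ := x
  rw [hφ', hef.1, hef.2]
  simp

end Pool.Agent.Helper26
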