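import Mathlib

set_option autoImplicit false
set_option linter.unusedSectionVars false

/-!
# A counting lemma for nets of binary cubics
-/

namespace Pool.Agent.Helper26

open Finset

lemma card_zero_one {κ : Type*} [Field κ] [Fintype κ] [DecidableEq κ]
    (L : (Fin 3 → κ) →ₗ[κ] κ) (hL : L ≠ 0) :
    (univ.filter fun z : Fin 3 → κ => L z = 0).card = Fintype.card κ ^ 2 := by
  have h1 : Module.finrank κ (LinearMap.ker L) = 2 := by
    have h2 := L.finrank_range_add_finrank_ker
    have h3 : LinearMap.range L = ⊤ := LinearMap.range_eq_top.2 (LinearMap.surjective hL)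
    rw [h3, finrank_top, Module.finrank_self, Module.finrank_fin_fun] at h2
    omega
  have h2 : Nat.card (LinearMap.ker L) = Fintype.card κ ^ 2 := by
    rw [← h1, ← Nat.card_eq_fintype_card]
    exact Module.natCard_eq_pow_finrank
  rw [← h2]
  symm
  exact Nat.subtype_card _ fun z => by simp [LinearMap.mem_ker]

lemma card_zero_two {κ : Type*} [Field κ] [Fintype κ] [DecidableEq κ]
    (L M : (Fin 3 → κ) →ₗ[κ] κ) :
    Fintype.card κ ≤ (univ.filter fun z : Fin 3 → κ => L z = 0 ∧ M z = 0).card := by
  let N : (Fin 3 → κ) →ₗ[κ] κ × κ := L.prod M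
  have h1 : 1 ≤ Module.finrank κ (LinearMap.ker N) := by
    have h2 := N.finrank_range_add_finrank_ker
    have h3 : Module.finrank κ (LinearMap.range N) ≤ 2 := by
      refine (Submodule.finrank_le _).trans ?_
      rw [Module.finrank_prod, Module.finrank_self]
    rw [Module.finrank_fin_fun] at h2
    omega
  have h2 : Nat.card (LinearMap.ker N) =
      Fintype.card κ ^ Module.finrank κ (LinearMap.ker N) := by
    rw [← Nat.card_eq_fintype_card]
    exact Module.natCard_eq_pow_finrank
  have h3 : (univ.filter fun z : Fin 3 → κ => L z = 0 ∧ M z = 0).card =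
      Nat.card (LinearMap.ker N) := by
    symm
    exact Nat.subtype_card _ fun z => by simp [N, LinearMap.mem_ker, Prod.ext_iff]
  rw [h3, h2]
  calc Fintype.card κ = Fintype.card κ ^ 1 := (pow_one _).symm
    _ ≤ _ := Nat.pow_le_pow_right Fintype.card_pos h1

/-- In a net of binary cubic forms over a field with at least three elements, without base
points and without zero members, some member has no zero. -/
lemma exists_no_zero {κ : Type*} [Field κ] [Fintype κ] [DecidableEq κ]
    (hq : 3 ≤ Fintype.card κ) (L : Option κ → ((Fin 3 → κ) →ₗ[κ] κ)) (hL : ∀ i, L i ≠ 0)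
    (h3 : ∀ z : Fin 3 → κ, z ≠ 0 → (univ.filter fun i => L i z = 0).card ≤ 3) :
    ∃ z : Fin 3 → κ, z ≠ 0 ∧ ∀ i, L i z ≠ 0 := by
  by_contra hcon
  push Not at hcon
  set q := Fintype.card κ with hqdef
  set Z : Finset (Fin 3 → κ) := univ.filter fun z => z ≠ 0 with hZ
  have hcardZ : Z.card + 1 = q ^ 3 := by
    have h1 : (univ.filter fun z : Fin 3 → κ => ¬ z ≠ 0).card = 1 := by
      rw [Finset.card_eq_one]
      exact ⟨0, by ext z; simp⟩
    have h2 := Finset.card_filter_add_card_filter_not (s := (univ : Finset (Fin 3 → κ)))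
      (fun z => z ≠ 0)
    rw [h1, Finset.card_univ, Fintype.card_fun, Fintype.card_fin] at h2
    exact h2
  let n : (Fin 3 → κ) → ℕ := fun z => (univ.filter fun i => L i z = 0).card
  have hn1 : ∀ z ∈ Z, 1 ≤ n z := by
    intro z hz
    obtain ⟨i, hi⟩ := hcon z (Finset.mem_filter.1 hz).2
    exact Finset.card_pos.2 ⟨i, Finset.mem_filter.2 ⟨Finset.mem_univ _, hi⟩⟩
  have hn3 : ∀ z ∈ Z, n z ≤ 3 := fun z hz => h3 z (Finset.mem_filter.1 hz).2
  have hn : ∀ z ∈ Z, n z * n z + 3 ≤ 4 * n z := by
    intro z hz
    have h1 := hn1 z hz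
    have h2 := hn3 z hz
    interval_cases (n z) <;> simp
  -- removing zero from a set of zeros
  have hrem : ∀ p : (Fin 3 → κ) → Prop, ∀ [DecidablePred p], p 0 →
      (Z.filter p).card + 1 = (univ.filter p).card := by
    intro p _ hp
    have h1 : univ.filter p = insert 0 (Z.filter p) := by
      ext z
      by_cases hz : z = 0
      · simp [hz, hp]
      · simp [hZ, hz]
    rw [h1, Finset.card_insert_of_notMem]
    simp [hZ]
  have hsum1 : ∑ z ∈ Z, n z + (q + 1) = (q + 1) * q ^ 2 := by
    have h1 : ∑ z ∈ Z, n z = ∑ i : Option κ, (Z.filter fun z => L i z = 0).card := by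
      simp only [n, Finset.card_filter]
      rw [Finset.sum_comm]
    have h2 : ∑ i : Option κ, ((Z.filter fun z => L i z = 0).card + 1) = (q + 1) * q ^ 2 := by
      rw [Finset.sum_congr rfl fun i _ => (hrem (fun z => L i z = 0) (map_zero _)).trans
        (card_zero_one (L i) (hL i)), Finset.sum_const, Finset.card_univ, Fintype.card_option,
        smul_eq_mul]
    rw [Finset.sum_add_distrib, Finset.sum_const, Finset.card_univ, Fintype.card_option,
      smul_eq_mul, mul_one] at h2
    rw [h1]
    exact h2
  have hsum2 : (q + 1) * q ^ 2 + (q + 1) * q * q ≤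
      ∑ z ∈ Z, n z * n z + (q + 1) * (q + 1) := by
    have h1 : ∑ z ∈ Z, n z * n z =
        ∑ i : Option κ, ∑ j : Option κ, (Z.filter fun z => L i z = 0 ∧ L j z = 0).card := by
      simp only [n, Finset.card_filter]
      have h2 : ∀ z : Fin 3 → κ, (∑ i : Option κ, if L i z = 0 then 1 else 0) *
          (∑ i : Option κ, if L i z = 0 then 1 else 0) =
          ∑ i : Option κ, ∑ j : Option κ, if L i z = 0 ∧ L j z = 0 then 1 else 0 := by
        intro z
        rw [Finset.sum_mul_sum]
        refine Finset.sum_congr rfl fun i _ => Finset.sum_congr rfl fun j _ => ?_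
        by_cases hi : L i z = 0 <;> by_cases hj : L j z = 0 <;> simp [hi, hj]
      rw [Finset.sum_congr rfl fun z _ => h2 z, Finset.sum_comm]
      refine Finset.sum_congr rfl fun i _ => ?_
      rw [Finset.sum_comm]
    have h3 : ∀ i j : Option κ, (if i = j then q ^ 2 else q) ≤
        (Z.filter fun z => L i z = 0 ∧ L j z = 0).card + 1 := by
      intro i j
      rw [hrem (fun z => L i z = 0 ∧ L j z = 0) ⟨map_zero _, map_zero _⟩]
      by_cases hij : i = j
      · subst hij
        rw [if_pos rfl]
        have := card_zero_one (L i) (hL i)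
        rw [← this]
        apply le_of_eq
        congr 1
        ext z
        simp
      · rw [if_neg hij]
        exact card_zero_two (L i) (L j)
    have h4 : ∑ i : Option κ, ∑ j : Option κ, (if i = j then q ^ 2 else q) ≤
        ∑ i : Option κ, ∑ j : Option κ,
          ((Z.filter fun z => L i z = 0 ∧ L j z = 0).card + 1) :=
      Finset.sum_le_sum fun i _ => Finset.sum_le_sum fun j _ => h3 i j
    have h5 : ∑ i : Option κ, ∑ j : Option κ, (if i = j then q ^ 2 else q) =
        (q + 1) * q ^ 2 + (q + 1) * q * q := by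
      have h6 : ∀ i : Option κ, ∑ j : Option κ, (if i = j then q ^ 2 else q) = q ^ 2 + q * q := by
        intro i
        rw [← Finset.add_sum_erase _ _ (Finset.mem_univ i), if_pos rfl]
        congr 1
        rw [Finset.sum_congr rfl fun j hj => if_neg (Finset.ne_of_mem_erase hj).symm,
          Finset.sum_const, Finset.card_erase_of_mem (Finset.mem_univ i), Finset.card_univ,
          Fintype.card_option, smul_eq_mul]
        rfl
      rw [Finset.sum_congr rfl fun i _ => h6 i, Finset.sum_const, Finset.card_univ,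
        Fintype.card_option, smul_eq_mul, ← hqdef]
      ring
    rw [h5] at h4
    simp only [Finset.sum_add_distrib, Finset.sum_const, Finset.card_univ, Fintype.card_option,
      smul_eq_mul, mul_one] at h4
    rw [← h1] at h4
    exact h4
  have hsum3 : ∑ z ∈ Z, (n z * n z + 3) ≤ ∑ z ∈ Z, 4 * n z := Finset.sum_le_sum hn
  rw [Finset.sum_add_distrib, Finset.sum_const, smul_eq_mul, ← Finset.mul_sum] at hsum3
  zify at hsum1 hsum2 hsum3 hcardZ hq
  have hZc : ((Z.card : ℕ) : ℤ) = (q : ℤ) ^ 3 - 1 := by linarith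
  have hs1 : (∑ z ∈ Z, (n z : ℤ)) = (q + 1) * q ^ 2 - (q + 1) := by linarith
  rw [hZc, hs1] at hsum3
  nlinarith [hsum2, hsum3, mul_pos (show (0 : ℤ) < q by linarith)
    (mul_pos (show (0 : ℤ) < (q : ℤ) - 1 by linarith) (show (0 : ℤ) < (q : ℤ) - 2 by linarith))]

end Pool.Agent.Helper26
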