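import Mathlib
import Pool.Agent.Helper26.Counting

set_option autoImplicit false
set_option linter.unusedSectionVars false

/-!
# Pairs of binary cubics and the net of cubics attached to them
-/

namespace Pool.Agent.Helper26

open Finset

/-- The Sylvester matrix of two binary cubic forms with coefficient vectors `a` and `b`. -/
def sylvMat {R : Type*} [CommRing R] (a b : Fin 4 → R) : Matrix (Fin 6) (Fin 6) R :=
  !![a 0, a 1, a 2, a 3, 0, 0;
     0, a 0, a 1, a 2, a 3, 0;
     0, 0, a 0, a 1, a 2, a 3;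
     b 0, b 1, b 2, b 3, 0, 0;
     0, b 0, b 1, b 2, b 3, 0;
     0, 0, b 0, b 1, b 2, b 3]

lemma sylv_inj {K : Type*} [Field K] {a b : Fin 4 → K} (h : (sylvMat a b).det ≠ 0)
    (u v : Fin 3 → K)
    (e0 : u 0 * a 0 = v 0 * b 0)
    (e1 : u 0 * a 1 + u 1 * a 0 = v 0 * b 1 + v 1 * b 0)
    (e2 : u 0 * a 2 + u 1 * a 1 + u 2 * a 0 = v 0 * b 2 + v 1 * b 1 + v 2 * b 0)
    (e3 : u 0 * a 3 + u 1 * a 2 + u 2 * a 1 = v 0 * b 3 + v 1 * b 2 + v 2 * b 1)
    (e4 : u 1 * a 3 + u 2 * a 2 = v 1 * b 3 + v 2 * b 2)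
    (e5 : u 2 * a 3 = v 2 * b 3) : u = 0 ∧ v = 0 := by
  have h1 : Matrix.vecMul ![u 0, u 1, u 2, -v 0, -v 1, -v 2] (sylvMat a b) = 0 := by
    ext i
    fin_cases i <;> simp [sylvMat, Matrix.vecMul, dotProduct, Fin.sum_univ_succ]
    · linear_combination e0
    · linear_combination e1
    · linear_combination e2
    · linear_combination e3
    · linear_combination e4
    · linear_combination e5
  have h2 := Matrix.eq_zero_of_vecMul_eq_zero h h1
  have g0 := congrFun h2 0
  have g1 := congrFun h2 1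
  have g2 := congrFun h2 2
  have g3 := congrFun h2 3
  have g4 := congrFun h2 4
  have g5 := congrFun h2 5
  simp at g0 g1 g2 g3 g4 g5
  constructor
  · ext i; fin_cases i <;> simp [g0, g1, g2]
  · ext i; fin_cases i <;> simp [g3, g4, g5]

/-- The product of a quadratic with coefficients `z` and the linear polynomial `e + f T`. -/
def mulLin {K : Type*} [Field K] (e f : K) : (Fin 3 → K) →ₗ[K] (Fin 4 → K) where
  toFun z := ![e * z 0, e * z 1 + f * z 0, e * z 2 + f * z 1, f * z 2]
  map_add' := by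
    intro x y
    ext i
    fin_cases i <;> simp <;> ring
  map_smul' := by
    intro c x
    ext i
    fin_cases i <;> simp <;> ring

lemma mulLin_injective {K : Type*} [Field K] {e f : K} (h : e ≠ 0 ∨ f ≠ 0) :
    Function.Injective (mulLin e f) := by
  rw [← LinearMap.ker_eq_bot, LinearMap.ker_eq_bot']
  intro z hz
  have g0 := congrFun hz 0
  have g1 := congrFun hz 1
  have g2 := congrFun hz 2
  have g3 := congrFun hz 3
  simp [mulLin] at g0 g1 g2 g3
  rcases h with h | h
  · have z0 : z 0 = 0 := by tauto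
    have z1 : z 1 = 0 := by rw [z0] at g1; simpa [h] using g1
    have z2 : z 2 = 0 := by rw [z1] at g2; simpa [h] using g2
    ext i; fin_cases i <;> simp [z0, z1, z2]
  · have z2 : z 2 = 0 := by tauto
    have z1 : z 1 = 0 := by rw [z2] at g2; simpa [h] using g2
    have z0 : z 0 = 0 := by rw [z1] at g1; simpa [h] using g1
    ext i; fin_cases i <;> simp [z0, z1, z2]

/-- The pairing of two vectors of length four. -/
def dot4 {K : Type*} [Field K] (r : Fin 4 → K) : (Fin 4 → K) →ₗ[K] K where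
  toFun x := r 0 * x 0 + r 1 * x 1 + r 2 * x 2 + r 3 * x 3
  map_add' := by intro x y; simp; ring
  map_smul' := by intro c x; simp; ring

lemma dot4_apply {K : Type*} [Field K] (r x : Fin 4 → K) :
    dot4 r x = r 0 * x 0 + r 1 * x 1 + r 2 * x 2 + r 3 * x 3 := rfl

lemma dot4_eq_zero {K : Type*} [Field K] {r : Fin 4 → K} (h : dot4 r = 0) : r = 0 := by
  ext i
  have h1 := LinearMap.congr_fun h (Pi.single i 1)
  fin_cases i <;> simpa [dot4_apply] using h1

/-- The value of the binary cubic attached to `z` at the point `(e : f)`. -/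
def cubicAt {K : Type*} [Field K] (R₃ R₄ : Fin 4 → K) (e f : K) : (Fin 3 → K) →ₗ[K] K :=
  (dot4 (fun j => e * R₄ j + f * R₃ j)).comp (mulLin (e ^ 2) (f ^ 2))

section

variable {K : Type*} [Field K] {a b R₃ R₄ : Fin 4 → K}

lemma cubicAt_ne_zero (hs : (sylvMat a b).det ≠ 0)
    (hind : ∀ x y : K, (∀ j, x * R₃ j + y * R₄ j = 0) → x = 0 ∧ y = 0)
    (h3a : dot4 R₃ a = 0) (h3b : dot4 R₃ b = 0) (h4a : dot4 R₄ a = 0) (h4b : dot4 R₄ b = 0)
    {e f : K} (hef : e ≠ 0 ∨ f ≠ 0) : cubicAt R₃ R₄ e f ≠ 0 := by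
  intro h0
  set l : Fin 4 → K := fun j => e * R₄ j + f * R₃ j with hl
  have hl0 : dot4 l ≠ 0 := by
    intro h
    have h1 := dot4_eq_zero h
    have h2 := hind f e (fun j => by
      have := congrFun h1 j
      simp only [hl, Pi.zero_apply] at this
      linear_combination this)
    rcases hef with h | h
    · exact h h2.2
    · exact h h2.1
  have hef2 : e ^ 2 ≠ 0 ∨ f ^ 2 ≠ 0 := by
    rcases hef with h | h
    · exact Or.inl (pow_ne_zero _ h)
    · exact Or.inr (pow_ne_zero _ h)
  have hrange : LinearMap.range (mulLin (e ^ 2) (f ^ 2)) = LinearMap.ker (dot4 l) := by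
    apply Submodule.eq_of_le_of_finrank_eq
    · rintro _ ⟨z, rfl⟩
      exact LinearMap.congr_fun h0 z
    · rw [LinearMap.finrank_range_of_inj (mulLin_injective hef2), Module.finrank_fin_fun]
      have h2 := (dot4 l).finrank_range_add_finrank_ker
      have h3 : LinearMap.range (dot4 l) = ⊤ :=
        LinearMap.range_eq_top.2 (LinearMap.surjective hl0)
      rw [h3, finrank_top, Module.finrank_self, Module.finrank_fin_fun] at h2
      omega
  have hla : dot4 l a = 0 := by
    have : dot4 l a = e * dot4 R₄ a + f * dot4 R₃ a := by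
      simp only [dot4_apply, hl]; ring
    rw [this, h4a, h3a]; ring
  have hlb : dot4 l b = 0 := by
    have : dot4 l b = e * dot4 R₄ b + f * dot4 R₃ b := by
      simp only [dot4_apply, hl]; ring
    rw [this, h4b, h3b]; ring
  obtain ⟨z, hz⟩ : a ∈ LinearMap.range (mulLin (e ^ 2) (f ^ 2)) := by
    rw [hrange]; exact hla
  obtain ⟨z', hz'⟩ : b ∈ LinearMap.range (mulLin (e ^ 2) (f ^ 2)) := by
    rw [hrange]; exact hlb
  have a0 : a 0 = e ^ 2 * z 0 := by rw [← hz]; rfl
  have a1 : a 1 = e ^ 2 * z 1 + f ^ 2 * z 0 := by rw [← hz]; rfl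
  have a2 : a 2 = e ^ 2 * z 2 + f ^ 2 * z 1 := by rw [← hz]; rfl
  have a3 : a 3 = f ^ 2 * z 2 := by rw [← hz]; rfl
  have b0 : b 0 = e ^ 2 * z' 0 := by rw [← hz']; rfl
  have b1 : b 1 = e ^ 2 * z' 1 + f ^ 2 * z' 0 := by rw [← hz']; rfl
  have b2 : b 2 = e ^ 2 * z' 2 + f ^ 2 * z' 1 := by rw [← hz']; rfl
  have b3 : b 3 = f ^ 2 * z' 2 := by rw [← hz']; rfl
  obtain ⟨hz'0, hz0⟩ := sylv_inj hs z' z (by rw [a0, b0]; ring) (by rw [a0, a1, b0, b1]; ring)
    (by rw [a0, a1, a2, b0, b1, b2]; ring) (by rw [a1, a2, a3, b1, b2, b3]; ring)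
    (by rw [a2, a3, b2, b3]; ring) (by rw [a3, b3]; ring)
  -- so `a = 0`
  have ha : a = 0 := by rw [← hz, hz0, map_zero]
  have h5 := (sylv_inj hs (fun _ => 1) 0 (by simp [ha]) (by simp [ha]) (by simp [ha])
    (by simp [ha]) (by simp [ha]) (by simp [ha])).1
  have h6 := congrFun h5 0
  simp at h6

lemma cubic_coeff_ne_zero (hs : (sylvMat a b).det ≠ 0)
    (hind : ∀ x y : K, (∀ j, x * R₃ j + y * R₄ j = 0) → x = 0 ∧ y = 0)
    (h3a : dot4 R₃ a = 0) (h3b : dot4 R₃ b = 0) (h4a : dot4 R₄ a = 0) (h4b : dot4 R₄ b = 0)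
    {z : Fin 3 → K} (hr : dot4 R₄ (mulLin 1 0 z) = 0) (hp : dot4 R₃ (mulLin 1 0 z) = 0)
    (hsz : dot4 R₄ (mulLin 0 1 z) = 0) (hq : dot4 R₃ (mulLin 0 1 z) = 0) : z = 0 := by
  let N : (Fin 4 → K) →ₗ[K] K × K := (dot4 R₃).prod (dot4 R₄)
  have hab : LinearIndependent K ![a, b] := by
    rw [LinearIndependent.pair_iff]
    intro x y hxy
    have h0 := congrFun hxy 0
    have h1 := congrFun hxy 1
    have h2 := congrFun hxy 2
    have h3 := congrFun hxy 3
    simp at h0 h1 h2 h3
    obtain ⟨hx, hy⟩ := sylv_inj hs ![x, 0, 0] ![-y, 0, 0] (by simp; linear_combination h0)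
      (by simp; linear_combination h1) (by simp; linear_combination h2)
      (by simp; linear_combination h3) (by simp) (by simp)
    have hx0 := congrFun hx 0
    have hy0 := congrFun hy 0
    simp at hx0 hy0
    exact ⟨hx0, hy0⟩
  have hsurj : LinearMap.range N = ⊤ := by
    by_contra hne
    obtain ⟨φ, hφ, hle⟩ := Submodule.exists_le_ker_of_lt_top _ (lt_top_iff_ne_top.2 hne)
    apply hφ
    have h1 : ∀ x : Fin 4 → K, φ (1, 0) * dot4 R₃ x + φ (0, 1) * dot4 R₄ x = 0 := by
      intro x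
      have h2 : φ (N x) = 0 := hle ⟨x, rfl⟩
      have h3 : N x = dot4 R₃ x • ((1 : K), (0 : K)) + dot4 R₄ x • ((0 : K), (1 : K)) := by
        simp [N]
      rw [h3, map_add, map_smul, map_smul, smul_eq_mul, smul_eq_mul] at h2
      linear_combination h2
    have h4 := hind (φ (1, 0)) (φ (0, 1)) (fun j => by
      have := h1 (Pi.single j 1)
      fin_cases j <;> simpa [dot4_apply] using this)
    ext
    · simp [h4.1]
    · simp [h4.2]
  have hker : Submodule.span K (Set.range ![a, b]) = LinearMap.ker N := by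
    apply Submodule.eq_of_le_of_finrank_eq
    · rw [Submodule.span_le]
      rintro _ ⟨i, rfl⟩
      fin_cases i
      · exact Prod.ext h3a h4a
      · exact Prod.ext h3b h4b
    · rw [finrank_span_eq_card hab]
      have h2 := N.finrank_range_add_finrank_ker
      rw [hsurj, finrank_top, Module.finrank_prod, Module.finrank_self,
        Module.finrank_fin_fun] at h2
      simp
      omega
  have hm1 : mulLin 1 0 z ∈ LinearMap.ker N := Prod.ext hp hr
  have hm2 : mulLin 0 1 z ∈ LinearMap.ker N := Prod.ext hq hsz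
  rw [← hker, Matrix.range_cons, Matrix.range_cons, Matrix.range_empty, Set.union_empty,
    Set.singleton_union, Submodule.mem_span_pair] at hm1 hm2
  obtain ⟨α, β, h1⟩ := hm1
  obtain ⟨γ, δ, h2⟩ := hm2
  have g0 := congrFun h1 0
  have g1 := congrFun h1 1
  have g2 := congrFun h1 2
  have g3 := congrFun h1 3
  have k0 := congrFun h2 0
  have k1 := congrFun h2 1
  have k2 := congrFun h2 2
  have k3 := congrFun h2 3
  simp [mulLin] at g0 g1 g2 g3 k0 k1 k2 k3
  obtain ⟨hx, hy⟩ := sylv_inj hs ![γ, -α, 0] ![-δ, β, 0] (by simp; linear_combination k0)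
    (by simp; linear_combination k1 - g0) (by simp; linear_combination k2 - g1)
    (by simp; linear_combination k3 - g2) (by simp; linear_combination -g3) (by simp)
  have x0 := congrFun hx 1
  have y0 := congrFun hy 1
  simp at x0 y0
  ext i
  fin_cases i
  · simp; rw [← g0, x0, y0]; ring
  · simp; rw [← g1, x0, y0]; ring
  · simp; rw [← g2, x0, y0]; ring

end

end Pool.Agent.Helper26
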