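import Mathlib
import Pool.Agent.Helper26.LocalNbhd
import Pool.Agent.Helper26.ResidueSolv
import Pool.Agent.Helper26.Sylv

set_option autoImplicit false
set_option linter.unusedSectionVars false

/-!
# Solvability at good places
-/

namespace Pool.Agent.Helper26

section

variable {R S : Type*} [CommRing R] [CommRing S]

lemma map_Q1 (f : R →+* S) (a : Fin 4 → R) (g : Fin 3 → Fin 3 → R) (x : Fin 4 → R)
    (y : Fin 3 → R) : f (Q1 a g x y) = Q1 (fun j => f (a j)) (fun i j => f (g i j))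
      (fun j => f (x j)) (fun j => f (y j)) := by
  simp [Q1, phi, lin1, quad, map_sum]

lemma map_Q2 (f : R →+* S) (a : Fin 4 → R) (g : Fin 3 → Fin 3 → R) (x : Fin 4 → R)
    (y : Fin 3 → R) : f (Q2 a g x y) = Q2 (fun j => f (a j)) (fun i j => f (g i j))
      (fun j => f (x j)) (fun j => f (y j)) := by
  simp [Q2, phi, lin2, quad, map_sum]

end

section

variable {k : Type*} [Field k] [CharP k 2]

lemma charP_residue (V : ValuationSubring k) : CharP (IsLocalRing.ResidueField V) 2 := by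
  have h1 : (2 : V) = 0 := Subtype.ext (CharTwo.two_eq_zero (R := k))
  have h2 : (2 : IsLocalRing.ResidueField V) = 0 := by
    have := congrArg (IsLocalRing.residue V) h1
    rwa [map_ofNat, map_zero] at this
  exact CharTwo.of_one_ne_zero_of_two_eq_zero one_ne_zero h2

lemma appSol_good {V : ValuationSubring k} (hV : V ≠ ⊤) (hr1 : IsRankOne V)
    [Finite (IsLocalRing.ResidueField V)] (a b : Fin 4 → V) (g₁ g₂ : Fin 3 → Fin 3 → V)
    (y : Fin 3 → V) (i₀ : Fin 3) (hi₀ : IsUnit (y i₀))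
    (hnb : ∀ e f : IsLocalRing.ResidueField V,
      (∀ j, e * IsLocalRing.residue V (a j) + f * IsLocalRing.residue V (b j) =
        (e * mulLin 1 0 (fun i => IsLocalRing.residue V (y i)) j +
          f * mulLin 0 1 (fun i => IsLocalRing.residue V (y i)) j) ^ 2) → e = 0 ∧ f = 0) :
    AppSol V (fun j => (a j : k)) (fun j => (b j : k)) (fun i j => (g₁ i j : k))
      (fun i j => (g₂ i j : k)) (fun i => (y i : k)) := by
  have hchar := charP_residue V
  let κ := IsLocalRing.ResidueField V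
  let res := IsLocalRing.residue V
  obtain ⟨xb, hxb⟩ := pairMap_surjective (fun j => res (a j)) (fun j => res (b j))
    (fun j => mulLin 1 0 (fun i => res (y i)) j) (fun j => mulLin 0 1 (fun i => res (y i)) j) hnb
    (quad (fun i j => res (g₁ i j)) (fun i => res (y i)),
      quad (fun i j => res (g₂ i j)) (fun i => res (y i)))
  have hx1 := congrArg Prod.fst hxb
  have hx2 := congrArg Prod.snd hxb
  choose x hx using fun j => IsLocalRing.residue_surjective (xb j)
  have e1 : res (Q1 a g₁ x y) = 0 := by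
    rw [map_Q1, Q1]
    simp only [pairMap, AddMonoidHom.coe_mk, ZeroHom.coe_mk, Fin.sum_univ_four, mulLin,
      LinearMap.coe_mk, AddHom.coe_mk, Matrix.cons_val_zero, Matrix.cons_val_one,
      Matrix.cons_val] at hx1
    rw [← hx1]
    simp only [phi, lin1, res, hx]
    linear_combination CharTwo.add_self_eq_zero ((IsLocalRing.residue V) (a 0) * xb 0 ^ 2 +
      (IsLocalRing.residue V) (a 1) * xb 1 ^ 2 + (IsLocalRing.residue V) (a 2) * xb 2 ^ 2 +
      (IsLocalRing.residue V) (a 3) * xb 3 ^ 2 + xb 0 * (IsLocalRing.residue V) (y 0) +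
      xb 1 * (IsLocalRing.residue V) (y 1) + xb 2 * (IsLocalRing.residue V) (y 2))
  have e2 : res (Q2 b g₂ x y) = 0 := by
    rw [map_Q2, Q2]
    simp only [pairMap, AddMonoidHom.coe_mk, ZeroHom.coe_mk, Fin.sum_univ_four, mulLin,
      LinearMap.coe_mk, AddHom.coe_mk, Matrix.cons_val_zero, Matrix.cons_val_one,
      Matrix.cons_val] at hx2
    rw [← hx2]
    simp only [phi, lin2, res, hx]
    linear_combination CharTwo.add_self_eq_zero ((IsLocalRing.residue V) (b 0) * xb 0 ^ 2 +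
      (IsLocalRing.residue V) (b 1) * xb 1 ^ 2 + (IsLocalRing.residue V) (b 2) * xb 2 ^ 2 +
      (IsLocalRing.residue V) (b 3) * xb 3 ^ 2 + xb 1 * (IsLocalRing.residue V) (y 0) +
      xb 2 * (IsLocalRing.residue V) (y 1) + xb 3 * (IsLocalRing.residue V) (y 2))
  have m1 : ((Q1 a g₁ x y : V) : k) ∈ V.nonunits := by
    rw [ValuationSubring.mem_nonunits_iff_exists_mem_maximalIdeal]
    exact ⟨(Q1 a g₁ x y).2, (IsLocalRing.residue_eq_zero_iff _).1 e1⟩
  have m2 : ((Q2 b g₂ x y : V) : k) ∈ V.nonunits := by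
    rw [ValuationSubring.mem_nonunits_iff_exists_mem_maximalIdeal]
    exact ⟨(Q2 b g₂ x y).2, (IsLocalRing.residue_eq_zero_iff _).1 e2⟩
  -- choose `r`
  obtain ⟨r, hr0, hr, hr1', hr2'⟩ : ∃ r : k, r ≠ 0 ∧ r ∈ V.nonunits ∧
      ((Q1 a g₁ x y : V) : k) / r ∈ V ∧ ((Q2 b g₂ x y : V) : k) / r ∈ V := by
    by_cases h1 : ((Q1 a g₁ x y : V) : k) = 0
    · by_cases h2 : ((Q2 b g₂ x y : V) : k) = 0
      · obtain ⟨π, hπ0, hπ⟩ := exists_nonunit hV
        exact ⟨π, hπ0, hπ, by rw [h1, zero_div]; exact V.zero_mem,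
          by rw [h2, zero_div]; exact V.zero_mem⟩
      · exact ⟨_, h2, m2, by rw [h1, zero_div]; exact V.zero_mem,
          by rw [div_self h2]; exact V.one_mem⟩
    · rcases V.mem_or_inv_mem (((Q2 b g₂ x y : V) : k) / ((Q1 a g₁ x y : V) : k)) with h | h
      · exact ⟨_, h1, m1, by rw [div_self h1]; exact V.one_mem, h⟩
      · rw [inv_div] at h
        by_cases h2 : ((Q2 b g₂ x y : V) : k) = 0
        · exact ⟨_, h1, m1, by rw [div_self h1]; exact V.one_mem,
            by rw [h2, zero_div]; exact V.zero_mem⟩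
        · exact ⟨_, h2, m2, h, by rw [div_self h2]; exact V.one_mem⟩
  obtain ⟨u, hu⟩ := hi₀
  have hy0 : ((y i₀ : V) : k) ≠ 0 := by
    rw [← hu]
    intro h0
    exact u.ne_zero (Subtype.ext h0)
  have hyinv : ((y i₀ : V) : k)⁻¹ ∈ V := by
    have h3 : ((y i₀ : V) : k) * ((u⁻¹ : Vˣ) : V) = 1 := by
      rw [← hu]
      have : (u : V) * ((u⁻¹ : Vˣ) : V) = 1 := u.mul_inv
      exact congrArg Subtype.val this
    rw [inv_eq_of_mul_eq_one_right h3]
    exact ((u⁻¹ : Vˣ) : V).2
  have q1 : ((Q1 a g₁ x y : V) : k) = Q1 (fun j => (a j : k)) (fun i j => (g₁ i j : k))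
      (fun j => (x j : k)) (fun j => (y j : k)) := map_Q1 V.subtype a g₁ x y
  have q2 : ((Q2 b g₂ x y : V) : k) = Q2 (fun j => (b j : k)) (fun i j => (g₂ i j : k))
      (fun j => (x j : k)) (fun j => (y j : k)) := map_Q2 V.subtype b g₂ x y
  refine hensel hr1 _ _ _ _ _ i₀ hy0 ?_ 1 r one_ne_zero hr0 ?_ ?_ ?_ (fun j => (x j : k)) ?_ ?_
  · intro j
    rw [div_eq_mul_inv]
    exact V.mul_mem _ _ (y j).2 hyinv
  · intro j
    rw [div_one]; exact (a j).2
  · intro j
    rw [div_one]; exact (b j).2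
  · rw [one_mul, div_eq_mul_inv, ← inv_pow]
    exact nonunits_mul hr (pow_mem hyinv 2)
  · rw [← q1]; exact hr1'
  · rw [← q2]; exact hr2'

end

end Pool.Agent.Helper26
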