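import Mathlib
import Pool.Agent.Helper26.GoodPlace

set_option autoImplicit false
set_option linter.unusedSectionVars false

/-!
# The locus of bad `y` at a good place
-/

namespace Pool.Agent.Helper26

open Polynomial

section

variable {R : Type*} [CommRing R]

/-- The last coordinate function. -/
def zf2 (a b : Fin 4 → R) (θ : R) : R := a 3 * θ + b 3
/-- The middle coordinate function. -/
def zf1 (a b : Fin 4 → R) (θ : R) : R := a 2 * θ + b 2 + θ ^ 2 * zf2 a b θ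
/-- The first coordinate function. -/
def zf0 (a b : Fin 4 → R) (θ : R) : R := a 1 * θ + b 1 + θ ^ 2 * zf1 a b θ
/-- The discriminant-like septic. -/
def df (a b : Fin 4 → R) (θ : R) : R := a 0 * θ + b 0 + θ ^ 2 * zf0 a b θ

/-- Polynomial version of `zf2`. -/
noncomputable def zp2 (a b : Fin 4 → R) : R[X] := C (a 3) * X + C (b 3)
/-- Polynomial version of `zf1`. -/
noncomputable def zp1 (a b : Fin 4 → R) : R[X] := C (a 2) * X + C (b 2) + X ^ 2 * zp2 a b
/-- Polynomial version of `zf0`. -/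
noncomputable def zp0 (a b : Fin 4 → R) : R[X] := C (a 1) * X + C (b 1) + X ^ 2 * zp1 a b
/-- Polynomial version of `df`. -/
noncomputable def dp (a b : Fin 4 → R) : R[X] := C (a 0) * X + C (b 0) + X ^ 2 * zp0 a b

@[simp] lemma eval_zp2 (a b : Fin 4 → R) (θ : R) : (zp2 a b).eval θ = zf2 a b θ := by
  simp [zp2, zf2]
@[simp] lemma eval_zp1 (a b : Fin 4 → R) (θ : R) : (zp1 a b).eval θ = zf1 a b θ := by
  simp [zp1, zf1]
@[simp] lemma eval_zp0 (a b : Fin 4 → R) (θ : R) : (zp0 a b).eval θ = zf0 a b θ := by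
  simp [zp0, zf0]
@[simp] lemma eval_dp (a b : Fin 4 → R) (θ : R) : (dp a b).eval θ = df a b θ := by
  simp [dp, df]

end

section

variable {κ : Type*} [Field κ] [CharP κ 2]

lemma bad_solve {a b : Fin 4 → κ} {y : Fin 3 → κ} (ha3 : a 3 ≠ 0) {e f : κ}
    (h : ∀ j, e * a j + f * b j = (e * mulLin 1 0 y j + f * mulLin 0 1 y j) ^ 2)
    (hne : ¬ (e = 0 ∧ f = 0)) :
    f ≠ 0 ∧ df a b (e / f) = 0 ∧ zf0 a b (e / f) = f * y 0 ^ 2 ∧
      zf1 a b (e / f) = f * y 1 ^ 2 ∧ zf2 a b (e / f) = f * y 2 ^ 2 := by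
  have h0 := h 0
  have h1 := h 1
  have h2 := h 2
  have h3 := h 3
  simp only [mulLin, LinearMap.coe_mk, AddHom.coe_mk, Matrix.cons_val_zero, Matrix.cons_val_one,
    Matrix.cons_val, zero_mul, one_mul, add_zero, zero_add, mul_zero] at h0 h1 h2 h3
  have hf : f ≠ 0 := by
    rintro rfl
    apply hne
    refine ⟨?_, rfl⟩
    simpa [ha3] using h3
  have z2 : zf2 a b (e / f) = f * y 2 ^ 2 := by
    rw [zf2]
    field_simp
    linear_combination h3
  have z1 : zf1 a b (e / f) = f * y 1 ^ 2 := by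
    rw [zf1, z2]
    field_simp
    rw [CharTwo.add_sq] at h2
    linear_combination h2 + CharTwo.add_self_eq_zero (e ^ 2 * y 2 ^ 2)
  have z0 : zf0 a b (e / f) = f * y 0 ^ 2 := by
    rw [zf0, z1]
    field_simp
    rw [CharTwo.add_sq] at h1
    linear_combination h1 + CharTwo.add_self_eq_zero (e ^ 2 * y 1 ^ 2)
  refine ⟨hf, ?_, z0, z1, z2⟩
  rw [df, z0]
  field_simp
  linear_combination h0 + CharTwo.add_self_eq_zero (e ^ 2 * y 0 ^ 2)

end

section

variable {k : Type*} [Field k] [CharP k 2]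

omit [CharP k 2] in
lemma nonunits_add {V : ValuationSubring k} {x y : k} (hx : x ∈ V.nonunits)
    (hy : y ∈ V.nonunits) : x + y ∈ V.nonunits := by
  rw [ValuationSubring.mem_nonunits_iff] at *
  exact Valuation.map_add_lt _ hx hy

omit [CharP k 2] in
lemma one_notMem_nonunits (V : ValuationSubring k) : (1 : k) ∉ V.nonunits := by
  rw [ValuationSubring.mem_nonunits_iff, map_one]
  exact lt_irrefl _

omit [CharP k 2] in
lemma mem_nonunits_of_residue {V : ValuationSubring k} {x : V}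
    (h : IsLocalRing.residue V x = 0) : (x : k) ∈ V.nonunits := by
  rw [ValuationSubring.mem_nonunits_iff_exists_mem_maximalIdeal]
  exact ⟨x.2, (IsLocalRing.residue_eq_zero_iff _).1 h⟩

omit [CharP k 2] in
lemma residue_of_mem_nonunits {V : ValuationSubring k} {x : V} (h : (x : k) ∈ V.nonunits) :
    IsLocalRing.residue V x = 0 := by
  rw [ValuationSubring.mem_nonunits_iff_exists_mem_maximalIdeal] at h
  obtain ⟨h1, h2⟩ := h
  exact (IsLocalRing.residue_eq_zero_iff _).2 h2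

/-- All coefficients are in `V`. -/
def CoeffIn (V : ValuationSubring k) (p : k[X]) : Prop := ∀ n, p.coeff n ∈ V

lemma CoeffIn.eval_mem {V : ValuationSubring k} {p : k[X]} (hp : CoeffIn V p) {θ : k}
    (hθ : θ ∈ V) : p.eval θ ∈ V := by
  rw [eval_eq_sum_range]
  exact sum_mem fun i _ => V.mul_mem _ _ (hp i) (pow_mem hθ i)

/-- At a good place a bad primitive `y` gives a common approximate zero. -/
lemma exists_bad_lift {V : ValuationSubring k} (hV : V ≠ ⊤) (hr1 : IsRankOne V)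
    [Finite (IsLocalRing.ResidueField V)] {a b : Fin 4 → k} {g₁ g₂ : Fin 3 → Fin 3 → k}
    (ha : ∀ j, a j ∈ V) (hb : ∀ j, b j ∈ V) (hg₁ : ∀ i j, g₁ i j ∈ V) (hg₂ : ∀ i j, g₂ i j ∈ V)
    (ha3 : a 3 ∉ V.nonunits) {y : Fin 3 → k} (hy : ∀ i, y i ∈ V) {i₀ : Fin 3}
    (hi₀ : y i₀ ∉ V.nonunits) (hbad : ¬ AppSol V a b g₁ g₂ y) :
    ∃ θ f : k, θ ∈ V ∧ f ∈ V ∧ df a b θ ∈ V.nonunits ∧ zf0 a b θ - f * y 0 ^ 2 ∈ V.nonunits ∧
      zf1 a b θ - f * y 1 ^ 2 ∈ V.nonunits ∧ zf2 a b θ - f * y 2 ^ 2 ∈ V.nonunits := by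
  have hchar := charP_residue V
  by_contra hcon
  apply hbad
  let a' : Fin 4 → V := fun j => ⟨a j, ha j⟩
  let b' : Fin 4 → V := fun j => ⟨b j, hb j⟩
  let g₁' : Fin 3 → Fin 3 → V := fun i j => ⟨g₁ i j, hg₁ i j⟩
  let g₂' : Fin 3 → Fin 3 → V := fun i j => ⟨g₂ i j, hg₂ i j⟩
  let y' : Fin 3 → V := fun i => ⟨y i, hy i⟩
  have hunit : ∀ z : V, (z : k) ∉ V.nonunits → IsLocalRing.residue V z ≠ 0 := fun z hz h0 =>
    hz (mem_nonunits_of_residue h0)
  have hui : IsUnit (y' i₀) := by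
    by_contra h
    apply hi₀
    rw [ValuationSubring.mem_nonunits_iff_exists_mem_maximalIdeal]
    exact ⟨hy i₀, (IsLocalRing.mem_maximalIdeal _).2 h⟩
  refine appSol_good hV hr1 a' b' g₁' g₂' y' i₀ hui ?_
  intro e f hef
  by_contra hne
  obtain ⟨hf, hd, h0, h1, h2⟩ := bad_solve (hunit (a' 3) ha3) hef hne
  obtain ⟨θ, hθ⟩ := IsLocalRing.residue_surjective (e / f)
  obtain ⟨f', hf'⟩ := IsLocalRing.residue_surjective f
  apply hcon
  refine ⟨θ, f', θ.2, f'.2, ?_, ?_, ?_, ?_⟩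
  · refine mem_nonunits_of_residue (x := df a' b' θ) ?_
    rw [← hd, ← hθ]
    simp [df, zf0, zf1, zf2]
  · refine mem_nonunits_of_residue (x := zf0 a' b' θ - f' * y' 0 ^ 2) ?_
    rw [map_sub, map_mul, map_pow, hf', ← h0, sub_eq_zero, ← hθ]
    simp [zf0, zf1, zf2]
  · refine mem_nonunits_of_residue (x := zf1 a' b' θ - f' * y' 1 ^ 2) ?_
    rw [map_sub, map_mul, map_pow, hf', ← h1, sub_eq_zero, ← hθ]
    simp [zf1, zf2]
  · refine mem_nonunits_of_residue (x := zf2 a' b' θ - f' * y' 2 ^ 2) ?_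
    rw [map_sub, map_mul, map_pow, hf', ← h2, sub_eq_zero, ← hθ]
    simp [zf2]

end

end Pool.Agent.Helper26
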