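import Mathlib
import Pool.Agent.Helper26.BadLocus

set_option autoImplicit false
set_option linter.unusedSectionVars false

/-!
# Weak approximation for rank one valuation rings
-/

namespace Pool.Agent.Helper26

open Filter

section

variable {k : Type*} [Field k]

lemma IsRankOne.eventually {V : ValuationSubring k} (hV : IsRankOne V) {θ : k}
    (hθ : θ ∈ V.nonunits) {d : k} (hd : d ≠ 0) : ∀ᶠ n in atTop, θ ^ n / d ∈ V := by
  obtain ⟨N, hN⟩ := hV θ hθ d hd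
  refine eventually_atTop.2 ⟨N, fun n hn => ?_⟩
  obtain ⟨m, rfl⟩ := Nat.exists_eq_add_of_le hn
  have : θ ^ (N + m) / d = θ ^ N / d * θ ^ m := by rw [pow_add]; ring
  rw [this]
  exact V.mul_mem _ _ hN (pow_mem (nonunits_mem hθ) m)

lemma pow_nonunits {V : ValuationSubring k} {x : k} (hx : x ∈ V.nonunits) {n : ℕ} (hn : 1 ≤ n) :
    x ^ n ∈ V.nonunits := by
  obtain ⟨m, rfl⟩ := Nat.exists_eq_add_of_le hn
  rw [pow_add, pow_one]
  exact nonunits_mul hx (pow_mem (nonunits_mem hx) m)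

lemma IsRankOne.eventually_mul {V : ValuationSubring k} (hV : IsRankOne V) (hne : V ≠ ⊤) {θ : k}
    (hθ : θ ∈ V.nonunits) (w : k) : ∀ᶠ n in atTop, θ ^ n * w ∈ V.nonunits := by
  obtain ⟨π, hπ0, hπ⟩ := exists_nonunit hne
  by_cases hw : w = 0
  · refine Eventually.of_forall fun n => ?_
    rw [hw, mul_zero, ValuationSubring.mem_nonunits_iff, map_zero]
    exact zero_lt_one
  · refine (hV.eventually hθ (div_ne_zero hπ0 hw)).mono fun n hn => ?_
    have : θ ^ n * w = π * (θ ^ n / (π / w)) := by field_simp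
    rw [this]
    exact nonunits_mul hπ hn

lemma not_le_of_ne {V W : ValuationSubring k} (hV : IsRankOne V) (hW : W ≠ ⊤) (hne : V ≠ W) :
    ∃ x ∈ V, x ∉ W := by
  by_contra hcon
  push Not at hcon
  obtain ⟨x, hxW, hxV⟩ : ∃ x ∈ W, x ∉ V := by
    by_contra hcon'
    push Not at hcon'
    exact hne (le_antisymm hcon hcon')
  apply hW
  rw [eq_top_iff]
  intro d _
  by_cases hd : d = 0
  · rw [hd]; exact W.zero_mem
  obtain ⟨n, hn⟩ := hV _ (notMem_iff_inv_nonunits hxV) d⁻¹ (inv_ne_zero hd)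
  have h0 : x ≠ 0 := by rintro rfl; exact hxV V.zero_mem
  have : d = x ^ n * (x⁻¹ ^ n / d⁻¹) := by
    rw [inv_pow]
    field_simp
  rw [this]
  exact W.mul_mem _ _ (pow_mem hxW n) (hcon _ hn)

lemma exists_sep_pair {V W : ValuationSubring k} (hV : IsRankOne V) (hW : IsRankOne W)
    (hVt : V ≠ ⊤) (hWt : W ≠ ⊤) (hne : V ≠ W) :
    ∃ z : k, z ≠ 0 ∧ z⁻¹ ∈ V.nonunits ∧ z ∈ W.nonunits := by
  obtain ⟨a, ha, ha'⟩ := not_le_of_ne hV hWt hne
  obtain ⟨b, hb, hb'⟩ := not_le_of_ne hW hVt hne.symm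
  have ha0 : a ≠ 0 := by rintro rfl; exact ha' W.zero_mem
  have hb0 : b ≠ 0 := by rintro rfl; exact hb' V.zero_mem
  refine ⟨b / a, div_ne_zero hb0 ha0, ?_, ?_⟩
  · rw [inv_div, div_eq_mul_inv]
    exact nonunits_mul' ha (notMem_iff_inv_nonunits hb')
  · rw [div_eq_mul_inv]
    exact nonunits_mul' hb (notMem_iff_inv_nonunits ha')

lemma exists_sep {V : ValuationSubring k} (hV : IsRankOne V) (hVt : V ≠ ⊤)
    (S : Finset (ValuationSubring k)) :
    (∀ W ∈ S, IsRankOne W ∧ W ≠ ⊤ ∧ V ≠ W) →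
    ∃ z : k, z ≠ 0 ∧ z⁻¹ ∈ V.nonunits ∧ ∀ W ∈ S, z ∈ W.nonunits := by
  classical
  induction S using Finset.induction_on with
  | empty =>
    intro _
    obtain ⟨π, hπ0, hπ⟩ := exists_nonunit hVt
    exact ⟨π⁻¹, inv_ne_zero hπ0, by rwa [inv_inv], by simp⟩
  | insert U S hU ih =>
    intro hS
    obtain ⟨z, hz0, hzV, hzS⟩ := ih fun W hW => hS W (Finset.mem_insert_of_mem hW)
    obtain ⟨hU1, hUt, hUne⟩ := hS U (Finset.mem_insert_self _ _)
    obtain ⟨w, hw0, hwV, hwU⟩ := exists_sep_pair hV hU1 hVt hUt hUne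
    by_cases h1 : z ∈ U
    · -- use `z ^ n * w`
      have hev : ∀ᶠ n in atTop, ∀ W ∈ S, z ^ n * w ∈ W.nonunits := by
        rw [Filter.eventually_all_finset]
        intro W hW
        obtain ⟨hW1, hWt, -⟩ := hS W (Finset.mem_insert_of_mem hW)
        exact hW1.eventually_mul hWt (hzS W hW) w
      obtain ⟨n, hn⟩ := hev.exists
      refine ⟨z ^ n * w, mul_ne_zero (pow_ne_zero _ hz0) hw0, ?_, ?_⟩
      · rw [mul_inv, ← inv_pow]
        exact nonunits_mul' (pow_mem (nonunits_mem hzV) n) hwV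
      · intro W hW
        rcases Finset.mem_insert.1 hW with rfl | hW
        · exact nonunits_mul' (pow_mem h1 n) hwU
        · exact hn W hW
    · -- use `w / (1 + z⁻¹ ^ n)`
      have hzU := notMem_iff_inv_nonunits h1
      have hev : ∀ᶠ n in atTop, ∀ W ∈ S, z ^ n * w ∈ W.nonunits := by
        rw [Filter.eventually_all_finset]
        intro W hW
        obtain ⟨hW1, hWt, -⟩ := hS W (Finset.mem_insert_of_mem hW)
        exact hW1.eventually_mul hWt (hzS W hW) w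
      obtain ⟨n, hn, hn1⟩ := (hev.and (eventually_ge_atTop 1)).exists
      have hu := one_add_unit (pow_nonunits hzV hn1)
      refine ⟨w * (1 + z⁻¹ ^ n)⁻¹, mul_ne_zero hw0 (inv_ne_zero hu.1), ?_, ?_⟩
      · rw [mul_inv, inv_inv]
        exact nonunits_mul hwV (V.add_mem _ _ V.one_mem (pow_mem (nonunits_mem hzV) n))
      · intro W hW
        rcases Finset.mem_insert.1 hW with rfl | hW
        · exact nonunits_mul hwU (one_add_unit (pow_nonunits hzU hn1)).2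
        · have hu' := one_add_unit (pow_nonunits (hzS W hW) hn1)
          have : w * (1 + z⁻¹ ^ n)⁻¹ = z ^ n * w * (1 + z ^ n)⁻¹ := by
            have h3 : 1 + z⁻¹ ^ n = (1 + z ^ n) / z ^ n := by
              rw [inv_pow]; field_simp; ring
            have hzn : z ^ n ≠ 0 := pow_ne_zero _ hz0
            rw [h3, inv_div]
            ring
          rw [this]
          exact nonunits_mul (hn W hW) hu'.2

/-- Weak approximation. -/
theorem weak_approx (S : Finset (ValuationSubring k)) (hS : ∀ V ∈ S, IsRankOne V ∧ V ≠ ⊤)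
    (x ρ : ValuationSubring k → k) (hρ : ∀ V ∈ S, ρ V ≠ 0) :
    ∃ z : k, ∀ V ∈ S, (z - x V) / ρ V ∈ V := by
  classical
  have hsep : ∀ V ∈ S, ∃ z : k, z ≠ 0 ∧ z⁻¹ ∈ V.nonunits ∧ ∀ W ∈ S, V ≠ W → z ∈ W.nonunits := by
    intro V hV
    obtain ⟨z, h0, h1, h2⟩ := exists_sep (hS V hV).1 (hS V hV).2 (S.erase V) (fun W hW =>
      ⟨(hS W (Finset.mem_of_mem_erase hW)).1, (hS W (Finset.mem_of_mem_erase hW)).2,
        (Finset.ne_of_mem_erase hW).symm⟩)
    exact ⟨z, h0, h1, fun W hW hne => h2 W (Finset.mem_erase.2 ⟨hne.symm, hW⟩)⟩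
  choose! z hz0 hz1 hz2 using hsep
  -- `t V n = 1 / (1 + z⁻¹ ^ n)`
  have hev : ∀ᶠ n in atTop, ∀ V ∈ S, ∀ W ∈ S, x V * (z V)⁻¹ ^ n / ρ V ∈ V ∧
      (V ≠ W → x V * z V ^ n / ρ W ∈ W) := by
    rw [Filter.eventually_all_finset]
    intro V hV
    rw [Filter.eventually_all_finset]
    intro W hW
    have aux : ∀ (U : ValuationSubring k), IsRankOne U → U ≠ ⊤ → ∀ θ ∈ U.nonunits, ∀ r : k,
        r ≠ 0 → ∀ᶠ n in atTop, x V * θ ^ n / r ∈ U := by
      intro U hU hUt θ hθ r hr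
      refine (hU.eventually_mul hUt hθ (x V / r)).mono fun n hn => ?_
      have : x V * θ ^ n / r = θ ^ n * (x V / r) := by ring
      rw [this]
      exact nonunits_mem hn
    refine (aux V (hS V hV).1 (hS V hV).2 _ (hz1 V hV) (ρ V) (hρ V hV)).and ?_
    by_cases hne : V = W
    · exact Eventually.of_forall fun n h => absurd hne h
    · exact (aux W (hS W hW).1 (hS W hW).2 _ (hz2 V hV W hW hne) (ρ W) (hρ W hW)).mono
        fun n hn _ => hn
  obtain ⟨n, hn, hn1⟩ := (hev.and (eventually_ge_atTop 1)).exists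
  refine ⟨∑ V ∈ S, x V * (1 + (z V)⁻¹ ^ n)⁻¹, fun V hV => ?_⟩
  rw [← Finset.add_sum_erase _ _ hV]
  have hu := one_add_unit (pow_nonunits (hz1 V hV) hn1)
  have h3 : (x V * (1 + (z V)⁻¹ ^ n)⁻¹ + ∑ W ∈ S.erase V, x W * (1 + (z W)⁻¹ ^ n)⁻¹ - x V) / ρ V =
      - (x V * (z V)⁻¹ ^ n / ρ V) * (1 + (z V)⁻¹ ^ n)⁻¹ +
      ∑ W ∈ S.erase V, x W * z W ^ n / ρ V * (1 + z W ^ n)⁻¹ := by
    have h4 : ∑ W ∈ S.erase V, x W * z W ^ n / ρ V * (1 + z W ^ n)⁻¹ =
        (∑ W ∈ S.erase V, x W * (1 + (z W)⁻¹ ^ n)⁻¹) / ρ V := by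
      rw [Finset.sum_div]
      refine Finset.sum_congr rfl fun W hW => ?_
      have hzn : z W ^ n ≠ 0 := pow_ne_zero _ (hz0 W (Finset.mem_of_mem_erase hW))
      have h5 : 1 + (z W)⁻¹ ^ n = (1 + z W ^ n) / z W ^ n := by
        rw [inv_pow]; field_simp; ring
      rw [h5, inv_div]
      ring
    rw [h4]
    have h6 := hu.1
    generalize (z V)⁻¹ ^ n = E at h6 ⊢
    generalize ∑ W ∈ S.erase V, x W * (1 + (z W)⁻¹ ^ n)⁻¹ = T
    have h7 : (1 + E)⁻¹ - 1 = -(E * (1 + E)⁻¹) := by field_simp; ring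
    linear_combination x V / ρ V * h7
  rw [h3]
  refine V.add_mem _ _ (V.mul_mem _ _ (V.neg_mem _ (hn V hV V hV).1) hu.2) (sum_mem fun W hW => ?_)
  have hWS := Finset.mem_of_mem_erase hW
  have hne := Finset.ne_of_mem_erase hW
  exact V.mul_mem _ _ ((hn W hWS V hV).2 hne) (one_add_unit (pow_nonunits (hz2 W hWS V hV hne)
    hn1)).2

end

end Pool.Agent.Helper26
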