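import Mathlib
import Pool.Agent.Helper26.WeakApprox

set_option autoImplicit false
set_option linter.unusedSectionVars false

/-!
# Coprimality statements for the septic and the coordinate functions
-/

namespace Pool.Agent.Helper26

open Polynomial

section

variable {R : Type*} [CommRing R]

/-- The coordinate functions. -/
def zf (a b : Fin 4 → R) (θ : R) : Fin 3 → R := ![zf0 a b θ, zf1 a b θ, zf2 a b θ]

/-- The coordinate polynomials. -/
noncomputable def zp (a b : Fin 4 → R) : Fin 3 → R[X] := ![zp0 a b, zp1 a b, zp2 a b]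

lemma eval_zp (a b : Fin 4 → R) (θ : R) (i : Fin 3) : (zp a b i).eval θ = zf a b θ i := by
  fin_cases i
  · exact eval_zp0 a b θ
  · exact eval_zp1 a b θ
  · exact eval_zp2 a b θ

end

section

variable {k : Type*} [Field k] [CharP k 2]

lemma coprime_X_sub_C {p : k[X]} {θ : k} (h : p.eval θ ≠ 0) : IsCoprime p (X - C θ) := by
  refine ((irreducible_X_sub_C θ).coprime_iff_not_dvd.2 ?_).symm
  rw [dvd_iff_isRoot]
  exact h

/-- One of the first two coordinates can be chosen freely. -/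
lemma exists_index {a b : Fin 4 → k} (ha3 : a 3 ≠ 0) (hs : (sylvMat a b).det ≠ 0) :
    ∃ i j : Fin 3, i ≠ j ∧ i ≠ 2 ∧ j ≠ 2 ∧ ∃ u₀ u₁ u₂ : k[X],
      u₀ * dp a b + u₁ * zp a b j + u₂ * zp a b 2 = 1 := by
  set θ := b 3 / a 3 with hθ
  have hz2 : zp a b 2 = C (a 3) * (X - C θ) := by
    have h1 : b 3 = a 3 * θ := by rw [hθ]; field_simp
    change C (a 3) * X + C (b 3) = _
    rw [mul_sub, ← C_mul, ← h1, CharTwo.sub_eq_add]
  have key : ∀ p : k[X], p.eval θ ≠ 0 → ∃ u v : k[X], u * p + v * zp a b 2 = 1 := by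
    intro p hp
    obtain ⟨u, v, huv⟩ := coprime_X_sub_C hp
    refine ⟨u, v * C (a 3)⁻¹, ?_⟩
    have h2 : C (a 3)⁻¹ * C (a 3) = (1 : k[X]) := by
      rw [← C_mul, inv_mul_cancel₀ ha3, C_1]
    rw [hz2]
    linear_combination huv + v * (X - C θ) * h2
  by_cases h1 : (dp a b).eval θ ≠ 0
  · obtain ⟨u, v, huv⟩ := key _ h1
    exact ⟨0, 1, by decide, by decide, by decide, u, 0, v, by rw [← huv]; ring⟩
  by_cases h2 : (zp a b 1).eval θ ≠ 0
  · obtain ⟨u, v, huv⟩ := key _ h2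
    exact ⟨0, 1, by decide, by decide, by decide, 0, u, v, by rw [← huv]; ring⟩
  by_cases h3 : (zp a b 0).eval θ ≠ 0
  · obtain ⟨u, v, huv⟩ := key _ h3
    exact ⟨1, 0, by decide, by decide, by decide, 0, u, v, by rw [← huv]; ring⟩
  exfalso
  push Not at h1 h2 h3
  rw [eval_dp] at h1
  rw [eval_zp] at h2 h3
  change zf1 a b θ = 0 at h2
  change zf0 a b θ = 0 at h3
  have h4 : zf2 a b θ = 0 := by
    have : (zp a b 2).eval θ = 0 := by rw [hz2]; simp
    rw [eval_zp] at this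
    exact this
  have e3 : a 3 * θ + b 3 = 0 := h4
  have e2 : a 2 * θ + b 2 = 0 := by rw [zf1, h4] at h2; simpa using h2
  have e1 : a 1 * θ + b 1 = 0 := by rw [zf0, h2] at h3; simpa using h3
  have e0 : a 0 * θ + b 0 = 0 := by rw [df, h3] at h1; simpa using h1
  have f3 : b 3 = a 3 * θ := (CharTwo.add_eq_zero.1 e3).symm
  have f2 : b 2 = a 2 * θ := (CharTwo.add_eq_zero.1 e2).symm
  have f1 : b 1 = a 1 * θ := (CharTwo.add_eq_zero.1 e1).symm
  have f0 : b 0 = a 0 * θ := (CharTwo.add_eq_zero.1 e0).symm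
  have h5 := (sylv_inj hs ![θ, 0, 0] ![1, 0, 0] (by simp [f0]; ring) (by simp [f1]; ring)
    (by simp [f2]; ring) (by simp [f3]; ring) (by simp) (by simp)).2
  have h6 := congrFun h5 0
  simp at h6

lemma dp_ne_zero {a b : Fin 4 → k} (ha3 : a 3 ≠ 0) : dp a b ≠ 0 := by
  intro h0
  have h1 := congrArg (fun p : k[X] => p.coeff 7) h0
  simp [dp, zp0, zp1, zp2, coeff_C, coeff_X_pow_mul'] at h1
  exact ha3 h1

/-- Only finitely many choices of the last coordinate are excluded. -/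
lemma finite_not_coprime {a b : Fin 4 → k} (ha3 : a 3 ≠ 0) {j : Fin 3} {u₀ u₁ u₂ : k[X]}
    (hu : u₀ * dp a b + u₁ * zp a b j + u₂ * zp a b 2 = 1) {yj : k} (hyj : yj ≠ 0) :
    {y₂ : k | ¬ IsCoprime (dp a b) (C (y₂ ^ 2) * zp a b j + C (yj ^ 2) * zp a b 2)}.Finite := by
  classical
  let L := AlgebraicClosure k
  have hcharL : CharP L 2 := charP_of_injective_algebraMap (algebraMap k L).injective 2
  have hroot : ∀ y₂ ∈ {y₂ : k | ¬ IsCoprime (dp a b) (C (y₂ ^ 2) * zp a b j +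
      C (yj ^ 2) * zp a b 2)}, ∃ θ : L, aeval θ (dp a b) = 0 ∧ aeval θ (zp a b j) ≠ 0 ∧
        algebraMap k L y₂ ^ 2 * aeval θ (zp a b j) =
          algebraMap k L yj ^ 2 * aeval θ (zp a b 2) := by
    intro y₂ hy₂
    rw [Set.mem_ofPred_eq, Polynomial.isCoprime_iff_aeval_ne_zero_of_isAlgClosed k L] at hy₂
    push Not at hy₂
    obtain ⟨θ, h1, h2⟩ := hy₂
    rw [map_add, map_mul, map_mul, aeval_C, aeval_C, map_pow, map_pow] at h2
    have h3 : algebraMap k L y₂ ^ 2 * aeval θ (zp a b j) =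
          algebraMap k L yj ^ 2 * aeval θ (zp a b 2) := CharTwo.add_eq_zero.1 h2
    refine ⟨θ, h1, ?_, h3⟩
    intro h0
    rw [h0, mul_zero] at h3
    have h4 : aeval θ (zp a b 2) = 0 := by
      rcases mul_eq_zero.1 h3.symm with h | h
      · exfalso
        exact hyj ((map_eq_zero (algebraMap k L)).1 (pow_eq_zero_iff (two_ne_zero) |>.1 h))
      · exact h
    have h5 := congrArg (aeval θ) hu
    rw [map_add, map_add, map_mul, map_mul, map_mul, h1, h0, h4, map_one] at h5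
    simp at h5
  choose! θ hθ1 hθ2 hθ3 using hroot
  refine Set.Finite.of_injOn (f := θ) (t := (dp a b).rootSet L) ?_ ?_ (rootSet_finite _ _)
  · intro y hy
    rw [mem_rootSet]
    exact ⟨dp_ne_zero ha3, hθ1 y hy⟩
  · intro y hy y' hy' he
    have h1 := hθ3 y hy
    have h2 := hθ3 y' hy'
    rw [← he] at h2
    have h3 : algebraMap k L y ^ 2 = algebraMap k L y' ^ 2 := by
      apply mul_right_cancel₀ (hθ2 y hy)
      rw [h1, h2]
    have h4 : algebraMap k L (y + y') ^ 2 = 0 := by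
      rw [map_add, CharTwo.add_sq, h3, CharTwo.add_self_eq_zero]
    have h5 : y + y' = 0 := (map_eq_zero (algebraMap k L)).1 ((pow_eq_zero_iff two_ne_zero).1 h4)
    exact CharTwo.add_eq_zero.1 h5

end

end Pool.Agent.Helper26
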