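import Mathlib
import Pool.Agent.Helper26.Coprime

set_option autoImplicit false
set_option linter.unusedSectionVars false

/-!
# The choice of `y`
-/

namespace Pool.Agent.Helper26

open Polynomial

section

variable {k : Type*} [Field k]

/-- Elements with prescribed absolute values. -/
lemma exists_exact (S : Finset (ValuationSubring k)) (hS : ∀ V ∈ S, IsRankOne V ∧ V ≠ ⊤)
    (hne : S.Nonempty) (w : ValuationSubring k → k) (hw : ∀ V ∈ S, w V ≠ 0) :
    ∃ z : k, z ≠ 0 ∧ ∀ V ∈ S, z / w V ∈ V ∧ w V / z ∈ V := by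
  have h1 : ∀ V ∈ S, ∃ π : k, π ≠ 0 ∧ π ∈ V.nonunits := fun V hV => exists_nonunit (hS V hV).2
  choose! π hπ0 hπ using h1
  obtain ⟨z, hz⟩ := weak_approx S hS w (fun V => w V * π V)
    (fun V hV => mul_ne_zero (hw V hV) (hπ0 V hV))
  have h2 : ∀ V ∈ S, ∃ m ∈ V.nonunits, z = w V * (1 + m) := by
    intro V hV
    refine ⟨π V * ((z - w V) / (w V * π V)), nonunits_mul (hπ V hV) (hz V hV), ?_⟩
    have h3 := hw V hV
    have h4 := hπ0 V hV
    field_simp
    ring
  have hz0 : z ≠ 0 := by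
    obtain ⟨V, hV⟩ := hne
    obtain ⟨m, hm, hzm⟩ := h2 V hV
    rw [hzm]
    exact mul_ne_zero (hw V hV) (one_add_unit hm).1
  refine ⟨z, hz0, fun V hV => ?_⟩
  obtain ⟨m, hm, hzm⟩ := h2 V hV
  have h3 := hw V hV
  have h4 := one_add_unit hm
  constructor
  · have : z / w V = 1 + m := by rw [hzm]; field_simp
    rw [this]
    exact V.add_mem _ _ V.one_mem (nonunits_mem hm)
  · have : w V / z = (1 + m)⁻¹ := by
      rw [hzm]
      have h5 := h4.1
      field_simp
    rw [this]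
    exact h4.2

lemma infinite_near (S : Finset (ValuationSubring k)) (hS : ∀ V ∈ S, IsRankOne V ∧ V ≠ ⊤)
    (hne : S.Nonempty) (x ρ : ValuationSubring k → k) (hρ : ∀ V ∈ S, ρ V ≠ 0) :
    {z : k | ∀ V ∈ S, (z - x V) / ρ V ∈ V}.Infinite := by
  obtain ⟨z₀, hz₀⟩ := weak_approx S hS x ρ hρ
  obtain ⟨D, hD0, hD⟩ := exists_exact S hS hne ρ hρ
  have h1 : ∀ V ∈ S, ∃ π : k, π ≠ 0 ∧ π ∈ V.nonunits := fun V hV => exists_nonunit (hS V hV).2
  choose! π hπ0 hπ using h1
  obtain ⟨f, hf0, hf⟩ := exists_exact S hS hne π hπ0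
  have hfn : ∀ V ∈ S, f ∈ V.nonunits := by
    intro V hV
    have : f = π V * (f / π V) := by
      have := hπ0 V hV
      field_simp
    rw [this]
    exact nonunits_mul (hπ V hV) (hf V hV).1
  refine Set.infinite_of_injective_forall_mem (f := fun n : ℕ => z₀ + D * f ^ n) ?_ ?_
  · have key : ∀ n m : ℕ, n < m → z₀ + D * f ^ n ≠ z₀ + D * f ^ m := by
      intro n m hnm h
      have h2 : f ^ n = f ^ m := mul_left_cancel₀ hD0 (add_left_cancel h)
      obtain ⟨l, rfl⟩ := Nat.exists_eq_add_of_lt hnm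
      have h3 : (1 : k) = f ^ (l + 1) := by
        apply mul_left_cancel₀ (pow_ne_zero n hf0)
        rw [mul_one, ← pow_add, ← add_assoc]
        exact h2
      obtain ⟨V, hV⟩ := hne
      apply one_notMem_nonunits V
      rw [h3]
      exact pow_nonunits (hfn V hV) (by omega)
    intro n m h
    rcases lt_trichotomy n m with h1 | h1 | h1
    · exact absurd h (key n m h1)
    · exact h1
    · exact absurd h.symm (key m n h1)
  · intro n V hV
    have h2 : (z₀ + D * f ^ n - x V) / ρ V = (z₀ - x V) / ρ V + D / ρ V * f ^ n := by ring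
    rw [h2]
    exact V.add_mem _ _ (hz₀ V hV) (V.mul_mem _ _ (hD V hV).1
      (pow_mem (nonunits_mem (hfn V hV)) n))

end

section

variable {k : Type*} [Field k] [CharP k 2]

lemma finite_not_coeffIn (hfin : ∀ x : k, {V : ValuationSubring k | x ∉ V}.Finite) (p : k[X]) :
    {V : ValuationSubring k | ¬ CoeffIn V p}.Finite := by
  have h1 : {V : ValuationSubring k | ¬ CoeffIn V p} ⊆
      ⋃ n ∈ p.support, {V : ValuationSubring k | p.coeff n ∉ V} := by
    intro V hV
    rw [Set.mem_ofPred_eq, CoeffIn] at hV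
    push Not at hV
    obtain ⟨n, hn⟩ := hV
    rw [Set.mem_iUnion₂]
    refine ⟨n, ?_, hn⟩
    rw [mem_support_iff]
    intro h0
    rw [h0] at hn
    exact hn V.zero_mem
  refine Set.Finite.subset ?_ h1
  exact Set.Finite.biUnion (Finset.finite_toSet _) fun n _ => hfin _

lemma fin3_cover : ∀ i j l : Fin 3, i ≠ j → i ≠ 2 → j ≠ 2 → (l = i ∨ l = j ∨ l = 2) := by
  decide

/-- The choice of `y`: close to given targets at the places of `S`, and solvable elsewhere. -/
theorem choose_y (hfin : ∀ x : k, {V : ValuationSubring k | x ∉ V}.Finite)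
    (hr1 : ∀ V : ValuationSubring k, V ≠ ⊤ → IsRankOne V)
    (hres : ∀ V : ValuationSubring k, V ≠ ⊤ → Finite (IsLocalRing.ResidueField V))
    {a b : Fin 4 → k} (ha3 : a 3 ≠ 0) (hs : (sylvMat a b).det ≠ 0)
    (g₁ g₂ : Fin 3 → Fin 3 → k) :
    ∃ B : Set (ValuationSubring k), B.Finite ∧ ∀ S : Finset (ValuationSubring k),
      (∀ V ∈ B, V ≠ ⊤ → V ∈ S) → (∀ V ∈ S, V ≠ ⊤) → S.Nonempty → ∀ (y₀ : ValuationSubring k → Fin 3 → k)
      (ρ : ValuationSubring k → k), (∀ V ∈ S, ρ V ≠ 0) →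
      ∃ y : Fin 3 → k, (∃ i, y i ≠ 0) ∧ (∀ V ∈ S, ∀ i, (y i - y₀ V i) / ρ V ∈ V) ∧
        ∀ V : ValuationSubring k, V ∉ S → V ≠ ⊤ → AppSol V a b g₁ g₂ y := by
  classical
  obtain ⟨i, j, hij, hi2, hj2, u₀, u₁, u₂, hu⟩ := exists_index ha3 hs
  refine ⟨(⋃ j, {V | a j ∉ V}) ∪ (⋃ j, {V | b j ∉ V}) ∪ (⋃ ij : Fin 3 × Fin 3, {V | g₁ ij.1 ij.2 ∉ V}) ∪
    (⋃ ij : Fin 3 × Fin 3, {V | g₂ ij.1 ij.2 ∉ V}) ∪ {V | (a 3)⁻¹ ∉ V} ∪ {V | ¬ CoeffIn V u₀} ∪
    {V | ¬ CoeffIn V u₁} ∪ {V | ¬ CoeffIn V u₂}, ?_, ?_⟩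
  · refine ((((((Set.Finite.union ?_ ?_).union ?_).union ?_).union (hfin _)).union
      (finite_not_coeffIn hfin _)).union (finite_not_coeffIn hfin _)).union
      (finite_not_coeffIn hfin _)
    · exact Set.finite_iUnion fun j => hfin _
    · exact Set.finite_iUnion fun j => hfin _
    · exact Set.finite_iUnion fun j => hfin _
    · exact Set.finite_iUnion fun j => hfin _
  intro S hBS hSt hSne y₀ ρ hρ
  have hSr : ∀ V ∈ S, IsRankOne V ∧ V ≠ ⊤ := fun V hV => ⟨hr1 V (hSt V hV), hSt V hV⟩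
  -- good places
  have hgood : ∀ V : ValuationSubring k, V ∉ S → V ≠ ⊤ → (∀ j, a j ∈ V) ∧ (∀ j, b j ∈ V) ∧
      (∀ i j, g₁ i j ∈ V) ∧ (∀ i j, g₂ i j ∈ V) ∧ (a 3)⁻¹ ∈ V ∧ CoeffIn V u₀ ∧ CoeffIn V u₁ ∧
      CoeffIn V u₂ := by
    intro V hV hVt
    have hVB : V ∉ (_ : Set (ValuationSubring k)) := fun h => hV (hBS V h hVt)
    simp only [Set.mem_union, Set.mem_iUnion, Set.mem_ofPred_eq, not_or, not_exists,
      not_not] at hVB
    obtain ⟨⟨⟨⟨⟨⟨⟨h1, h2⟩, h3⟩, h4⟩, h5⟩, h6⟩, h7⟩, h8⟩ := hVB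
    exact ⟨h1, h2, fun i j => h3 (i, j), fun i j => h4 (i, j), h5, h6, h7, h8⟩
  -- choose `y j`
  obtain ⟨yj, hyj, hyj0⟩ : ∃ z ∈ {z : k | ∀ V ∈ S, (z - y₀ V j) / ρ V ∈ V}, z ∉ ({0} : Set k) :=
    ((infinite_near S hSr hSne (fun V => y₀ V j) ρ hρ).sdiff (Set.finite_singleton 0)).nonempty
  have hyj0' : yj ≠ 0 := hyj0
  -- choose `y 2`
  obtain ⟨y2, hy2, hy2c⟩ : ∃ z ∈ {z : k | ∀ V ∈ S, (z - y₀ V 2) / ρ V ∈ V},
      z ∉ {y₂ : k | ¬ IsCoprime (dp a b) (C (y₂ ^ 2) * zp a b j + C (yj ^ 2) * zp a b 2)} :=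
    ((infinite_near S hSr hSne (fun V => y₀ V 2) ρ hρ).sdiff
      (finite_not_coprime ha3 hu hyj0')).nonempty
  rw [Set.mem_ofPred_eq, not_not] at hy2c
  obtain ⟨v₀, v₁, hv⟩ := hy2c
  -- the additional places
  have hS2 : ({V | ¬ CoeffIn V v₀} ∪ {V | ¬ CoeffIn V v₁} ∪ {V | yj ∉ V} ∪
      {V | y2 ∉ V} : Set (ValuationSubring k)).Finite :=
    (((finite_not_coeffIn hfin _).union (finite_not_coeffIn hfin _)).union (hfin _)).union (hfin _)
  set T := S ∪ (hS2.toFinset.filter fun V => V ≠ ⊤) with hT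
  have hTr : ∀ V ∈ T, IsRankOne V ∧ V ≠ ⊤ := by
    intro V hV
    rcases Finset.mem_union.1 hV with h | h
    · exact hSr V h
    · have := (Finset.mem_filter.1 h).2
      exact ⟨hr1 V this, this⟩
  -- choose `y i`
  have hbig : ∀ V : ValuationSubring k, ∃ w : k, w ≠ 0 ∧ yj / w ∈ V ∧ y2 / w ∈ V := by
    intro V
    obtain ⟨w, hw0, -, hw⟩ := exists_big V ![yj, y2]
    exact ⟨w, hw0, hw 0, hw 1⟩
  choose w hw0 hwj hw2 using hbig
  have h1 : ∀ V : ValuationSubring k, V ≠ ⊤ → ∃ π : k, π ≠ 0 ∧ π ∈ V.nonunits :=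
    fun V hV => exists_nonunit hV
  choose! π hπ0 hπ using h1
  obtain ⟨yi, hyi⟩ := weak_approx T hTr
    (fun V => if V ∈ S then y₀ V i else w V / π V) (fun V => if V ∈ S then ρ V else w V) (by
      intro V _
      by_cases h : V ∈ S
      · simp only [h, if_true]; exact hρ V h
      · simp only [h, if_false]; exact hw0 V)
  -- the vector
  set y : Fin 3 → k := fun l => if l = i then yi else if l = j then yj else y2 with hy
  have hyi' : y i = yi := by simp [hy]
  have hyj' : y j = yj := by simp [hy, hij.symm]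
  have hy2' : y 2 = y2 := by simp [hy, hi2.symm, hj2.symm]
  have hcover : ∀ l : Fin 3, l = i ∨ l = j ∨ l = 2 := fun l => fin3_cover i j l hij hi2 hj2
  refine ⟨y, ⟨j, by rw [hyj']; exact hyj0'⟩, ?_, ?_⟩
  · intro V hV l
    rcases hcover l with rfl | rfl | rfl
    · rw [hyi']
      have := hyi V (Finset.mem_union_left _ hV)
      simpa only [hV, if_true] using this
    · rw [hyj']; exact hyj V hV
    · rw [hy2']; exact hy2 V hV
  · intro V hVS hVt
    obtain ⟨ga, gb, gg₁, gg₂, ga3, gu₀, gu₁, gu₂⟩ := hgood V hVS hVt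
    have := hres V hVt
    obtain ⟨i₀, hi₀, hmax⟩ := exists_max3 V y j (by rw [hyj']; exact hyj0')
    apply AppSol.of_smul (c := (y i₀)⁻¹) (inv_ne_zero hi₀)
    by_contra hbad
    have ha3n : a 3 ∉ V.nonunits := by
      intro h
      have := nonunits_mul h ga3
      rw [mul_inv_cancel₀ ha3] at this
      exact one_notMem_nonunits V this
    have hyV : ∀ l, (y i₀)⁻¹ * y l ∈ V := fun l => by
      rw [mul_comm, ← div_eq_mul_inv]; exact hmax l
    obtain ⟨θ, f, hθ, hf, hd, h0, h1, h2⟩ := exists_bad_lift hVt (hr1 V hVt) ga gb gg₁ gg₂ ha3n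
      hyV (i₀ := i₀) (by rw [inv_mul_cancel₀ hi₀]; exact one_notMem_nonunits V) hbad
    have hz : ∀ l, zf a b θ l - f * ((y i₀)⁻¹ * y l) ^ 2 ∈ V.nonunits := by
      intro l
      fin_cases l
      · exact h0
      · exact h1
      · exact h2
    -- the first identity
    have star : ¬ ((y i₀)⁻¹ * y j ∈ V.nonunits ∧ (y i₀)⁻¹ * y 2 ∈ V.nonunits) := by
      rintro ⟨hj, h2'⟩
      have hzj : zf a b θ j ∈ V.nonunits := by
        have e : zf a b θ j = (zf a b θ j - f * ((y i₀)⁻¹ * y j) ^ 2) +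
          (y i₀)⁻¹ * y j * (f * ((y i₀)⁻¹ * y j)) := by ring
        rw [e]
        exact nonunits_add (hz j) (nonunits_mul hj (V.mul_mem _ _ hf (hyV j)))
      have hz2 : zf a b θ 2 ∈ V.nonunits := by
        have e : zf a b θ 2 = (zf a b θ 2 - f * ((y i₀)⁻¹ * y 2) ^ 2) +
          (y i₀)⁻¹ * y 2 * (f * ((y i₀)⁻¹ * y 2)) := by ring
        rw [e]
        exact nonunits_add (hz 2) (nonunits_mul h2' (V.mul_mem _ _ hf (hyV 2)))
      have e := congrArg (Polynomial.eval θ) hu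
      rw [eval_add, eval_add, eval_mul, eval_mul, eval_mul, eval_dp, eval_zp, eval_zp,
        eval_one] at e
      apply one_notMem_nonunits V
      rw [← e]
      exact nonunits_add (nonunits_add (nonunits_mul' (gu₀.eval_mem hθ) hd)
        (nonunits_mul' (gu₁.eval_mem hθ) hzj)) (nonunits_mul' (gu₂.eval_mem hθ) hz2)
    by_cases hV2 : V ∈ hS2.toFinset
    · -- the places where `y i` is large
      have hVT : V ∈ T := Finset.mem_union_right _ (Finset.mem_filter.2 ⟨hV2, hVt⟩)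
      have h3 := hyi V hVT
      simp only [hVS, if_false] at h3
      have hπ0' := hπ0 V hVt
      have hπ' := hπ V hVt
      have hw0' := hw0 V
      -- `yi = w / π * (1 + m)`
      have h4 : π V * ((yi - w V / π V) / w V) ∈ V.nonunits := nonunits_mul hπ' h3
      have h5 := one_add_unit h4
      set m := π V * ((yi - w V / π V) / w V) with hm
      have h6 : yi = w V / π V * (1 + m) := by
        rw [hm]; field_simp; ring
      have hyi0 : yi ≠ 0 := by
        rw [h6]; exact mul_ne_zero (div_ne_zero hw0' hπ0') h5.1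
      have h7 : ∀ z, z / w V ∈ V → z / yi ∈ V.nonunits := by
        intro z hz
        have : z / yi = π V * (z / w V * (1 + m)⁻¹) := by
          rw [h6]
          generalize 1 + m = U at h5
          have := h5.1
          field_simp
        rw [this]
        exact nonunits_mul hπ' (V.mul_mem _ _ hz h5.2)
      -- hence `y i₀` has the absolute value of `yi`
      have h8 : yi / y i₀ ∈ V := by
        have := hmax i
        rwa [hyi'] at this
      apply star
      constructor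
      · have e : (y i₀)⁻¹ * y j = yj / yi * (yi / y i₀) := by
          rw [hyj']; field_simp
        rw [e]
        exact nonunits_mul (h7 _ (hwj V)) h8
      · have e : (y i₀)⁻¹ * y 2 = y2 / yi * (yi / y i₀) := by
          rw [hy2']; field_simp
        rw [e]
        exact nonunits_mul (h7 _ (hw2 V)) h8
    · rw [Set.Finite.mem_toFinset] at hV2
      simp only [Set.mem_union, Set.mem_ofPred_eq, not_or, not_not] at hV2
      obtain ⟨⟨⟨gv₀, gv₁⟩, gyj⟩, gy2⟩ := hV2
      by_cases hc : y i₀ ∈ V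
      · -- the second identity
        have hw' : (C (y2 ^ 2) * zp a b j + C (yj ^ 2) * zp a b 2).eval θ ∈ V.nonunits := by
          rw [eval_add, eval_mul, eval_mul, eval_C, eval_C, eval_zp, eval_zp]
          have e : y2 ^ 2 * zf a b θ j + yj ^ 2 * zf a b θ 2 =
              (zf a b θ j - f * ((y i₀)⁻¹ * y j) ^ 2) * y2 ^ 2 +
              (zf a b θ 2 - f * ((y i₀)⁻¹ * y 2) ^ 2) * yj ^ 2 := by
            rw [hyj', hy2']
            have := CharTwo.add_self_eq_zero (f * ((y i₀)⁻¹ * yj) ^ 2 * y2 ^ 2)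
            linear_combination this
          rw [e]
          exact nonunits_add (nonunits_mul (hz j) (pow_mem gy2 2))
            (nonunits_mul (hz 2) (pow_mem gyj 2))
        have e := congrArg (Polynomial.eval θ) hv
        rw [eval_add, eval_mul, eval_mul, eval_dp, eval_one] at e
        apply one_notMem_nonunits V
        rw [← e]
        exact nonunits_add (nonunits_mul' (gv₀.eval_mem hθ) hd)
          (nonunits_mul' (gv₁.eval_mem hθ) hw')
      · have hinv := notMem_iff_inv_nonunits hc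
        apply star
        rw [hyj', hy2']
        exact ⟨nonunits_mul hinv gyj, nonunits_mul hinv gy2⟩

end

end Pool.Agent.Helper26
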