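import Mathlib
import Pool.Agent.Helper26.ChooseY

set_option autoImplicit false
set_option linter.unusedSectionVars false

/-!
# An anisotropic cubic defines an inert place
-/

namespace Pool.Agent.Helper26

section

variable {k K : Type*} [Field k] [Field K] [Algebra k K]

lemma nonunits_iff (V : ValuationSubring k) (x : k) : x ∈ V.nonunits ↔ x = 0 ∨ x⁻¹ ∉ V := by
  constructor
  · intro h
    by_cases h0 : x = 0
    · exact Or.inl h0
    · right
      intro h1
      have := nonunits_mul h h1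
      rw [mul_inv_cancel₀ h0] at this
      exact one_notMem_nonunits V this
  · rintro (rfl | h)
    · rw [ValuationSubring.mem_nonunits_iff, map_zero]; exact zero_lt_one
    · have := notMem_iff_inv_nonunits h
      rwa [inv_inv] at this

lemma comap_mem {Q : ValuationSubring k} {W : ValuationSubring K}
    (hW : W.comap (algebraMap k K) = Q) {x : k} : algebraMap k K x ∈ W ↔ x ∈ Q := by
  rw [← hW]; rfl

lemma comap_nonunits {Q : ValuationSubring k} {W : ValuationSubring K}
    (hW : W.comap (algebraMap k K) = Q) {x : k} :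
    algebraMap k K x ∈ W.nonunits ↔ x ∈ Q.nonunits := by
  rw [nonunits_iff, nonunits_iff, map_eq_zero, ← map_inv₀, comap_mem hW]

lemma nonunits_sub {V : ValuationSubring k} {x y : k} (hx : x ∈ V.nonunits)
    (hy : y ∈ V.nonunits) : x - y ∈ V.nonunits := by
  rw [ValuationSubring.mem_nonunits_iff] at *
  exact Valuation.map_sub_lt _ hx hy

/-- Units mod the maximal ideal at a place above an inert place. -/
lemma cubic_unit {Q : ValuationSubring k} {W : ValuationSubring K}
    (hW : W.comap (algebraMap k K) = Q) {r p s q : k} (hr : r ∈ Q) (hp : p ∈ Q) (hs : s ∈ Q)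
    (hq : q ∈ Q)
    (haniso : ∀ e f : k, e ∈ Q → f ∈ Q → (e ∉ Q.nonunits ∨ f ∉ Q.nonunits) →
      r * e ^ 3 + p * e ^ 2 * f + s * e * f ^ 2 + q * f ^ 3 ∉ Q.nonunits)
    {ρ : K} (hρ : algebraMap k K r * ρ ^ 3 + algebraMap k K p * ρ ^ 2 + algebraMap k K s * ρ +
      algebraMap k K q = 0) :
    ρ ∈ W ∧ ∀ x₀ x₁ x₂ : k, x₀ ∈ Q → x₁ ∈ Q → x₂ ∈ Q →
      (x₀ ∉ Q.nonunits ∨ x₁ ∉ Q.nonunits ∨ x₂ ∉ Q.nonunits) →
      algebraMap k K x₀ + algebraMap k K x₁ * ρ + algebraMap k K x₂ * ρ ^ 2 ∉ W.nonunits := by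
  have hrn : r ∉ Q.nonunits := by
    have := haniso 1 0 Q.one_mem Q.zero_mem (Or.inl (one_notMem_nonunits Q))
    simpa using this
  have hr0 : r ≠ 0 := by
    rintro rfl
    exact hrn ((nonunits_iff Q 0).2 (Or.inl rfl))
  have hrinv : r⁻¹ ∈ Q := by
    by_contra h
    exact hrn ((nonunits_iff Q r).2 (Or.inr h))
  have hmem : ∀ x ∈ Q, algebraMap k K x ∈ W := fun x hx => (comap_mem hW).2 hx
  have hρW : ρ ∈ W := by
    by_contra h
    have h1 := notMem_iff_inv_nonunits h
    have hρ0 : ρ ≠ 0 := by rintro rfl; exact h W.zero_mem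
    apply hrn
    rw [← comap_nonunits hW]
    have h2 : algebraMap k K r = ρ⁻¹ * -(algebraMap k K p + algebraMap k K s * ρ⁻¹ +
        algebraMap k K q * ρ⁻¹ ^ 2) := by
      field_simp
      linear_combination hρ
    rw [h2]
    exact nonunits_mul h1 (W.neg_mem _ (W.add_mem _ _ (W.add_mem _ _ (hmem p hp)
      (W.mul_mem _ _ (hmem s hs) (nonunits_mem h1)))
      (W.mul_mem _ _ (hmem q hq) (pow_mem (nonunits_mem h1) 2))))
  refine ⟨hρW, ?_⟩
  -- degree one
  have deg1 : ∀ x₀ x₁ : k, x₀ ∈ Q → x₁ ∈ Q → (x₀ ∉ Q.nonunits ∨ x₁ ∉ Q.nonunits) →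
      algebraMap k K x₀ + algebraMap k K x₁ * ρ ∉ W.nonunits := by
    intro x₀ x₁ h0 h1 hne hmem'
    by_cases hx1 : x₁ ∈ Q.nonunits
    · have hx0 : x₀ ∉ Q.nonunits := by
        rcases hne with h | h
        · exact h
        · exact absurd hx1 h
      apply hx0
      rw [← comap_nonunits hW]
      have : algebraMap k K x₀ = (algebraMap k K x₀ + algebraMap k K x₁ * ρ) -
        algebraMap k K x₁ * ρ := by ring
      rw [this]
      exact nonunits_sub hmem' (nonunits_mul ((comap_nonunits hW).2 hx1) hρW)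
    · have hx10 : x₁ ≠ 0 := by
        rintro rfl
        exact hx1 ((nonunits_iff Q 0).2 (Or.inl rfl))
      have hx1inv : x₁⁻¹ ∈ Q := by
        by_contra h
        exact hx1 ((nonunits_iff Q x₁).2 (Or.inr h))
      -- `ρ ≡ e`
      set e := -(x₀ * x₁⁻¹) with he
      have heQ : e ∈ Q := Q.neg_mem _ (Q.mul_mem _ _ h0 hx1inv)
      have hdiff : ρ - algebraMap k K e ∈ W.nonunits := by
        have : ρ - algebraMap k K e = (algebraMap k K x₀ + algebraMap k K x₁ * ρ) *
            algebraMap k K x₁⁻¹ := by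
          rw [he, map_neg, map_mul, map_inv₀]
          have : algebraMap k K x₁ ≠ 0 := by rwa [Ne, map_eq_zero]
          field_simp
          ring
        rw [this]
        exact nonunits_mul hmem' (hmem _ hx1inv)
      apply haniso e 1 heQ Q.one_mem (Or.inr (one_notMem_nonunits Q))
      rw [← comap_nonunits hW]
      have : algebraMap k K (r * e ^ 3 + p * e ^ 2 * 1 + s * e * 1 ^ 2 + q * 1 ^ 3) =
          (ρ - algebraMap k K e) * -(algebraMap k K r * (ρ ^ 2 + ρ * algebraMap k K e +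
            algebraMap k K e ^ 2) + algebraMap k K p * (ρ + algebraMap k K e) +
            algebraMap k K s) := by
        simp only [map_add, map_mul, map_pow, map_one]
        linear_combination hρ
      rw [this]
      exact nonunits_mul hdiff (W.neg_mem _ (W.add_mem _ _ (W.add_mem _ _
        (W.mul_mem _ _ (hmem r hr) (W.add_mem _ _ (W.add_mem _ _ (pow_mem hρW 2)
          (W.mul_mem _ _ hρW (hmem e heQ))) (pow_mem (hmem e heQ) 2)))
        (W.mul_mem _ _ (hmem p hp) (W.add_mem _ _ hρW (hmem e heQ)))) (hmem s hs)))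
  intro x₀ x₁ x₂ h0 h1 h2 hne hmem'
  by_cases hx2 : x₂ ∈ Q.nonunits
  · apply deg1 x₀ x₁ h0 h1
    · rcases hne with h | h | h
      · exact Or.inl h
      · exact Or.inr h
      · exact absurd hx2 h
    · have : algebraMap k K x₀ + algebraMap k K x₁ * ρ = (algebraMap k K x₀ +
        algebraMap k K x₁ * ρ + algebraMap k K x₂ * ρ ^ 2) - algebraMap k K x₂ * ρ ^ 2 := by ring
      rw [this]
      exact nonunits_sub hmem' (nonunits_mul ((comap_nonunits hW).2 hx2) (pow_mem hρW 2))
  · have hx20 : x₂ ≠ 0 := by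
      rintro rfl
      exact hx2 ((nonunits_iff Q 0).2 (Or.inl rfl))
    have hx2inv : x₂⁻¹ ∈ Q := by
      by_contra h
      exact hx2 ((nonunits_iff Q x₂).2 (Or.inr h))
    -- normalise
    set a := x₀ * x₂⁻¹ with ha
    set b := x₁ * x₂⁻¹ with hb
    have haQ : a ∈ Q := Q.mul_mem _ _ h0 hx2inv
    have hbQ : b ∈ Q := Q.mul_mem _ _ h1 hx2inv
    have hh : algebraMap k K a + algebraMap k K b * ρ + ρ ^ 2 ∈ W.nonunits := by
      have : algebraMap k K a + algebraMap k K b * ρ + ρ ^ 2 = (algebraMap k K x₀ +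
          algebraMap k K x₁ * ρ + algebraMap k K x₂ * ρ ^ 2) * algebraMap k K x₂⁻¹ := by
        rw [ha, hb, map_mul, map_mul, map_inv₀]
        have : algebraMap k K x₂ ≠ 0 := by rwa [Ne, map_eq_zero]
        field_simp
      rw [this]
      exact nonunits_mul hmem' (hmem _ hx2inv)
    -- division with remainder
    set l := p - r * b with hl
    set g₁ := s - r * a - l * b with hg₁
    set g₀ := q - l * a with hg₀
    have hlQ : l ∈ Q := Q.sub_mem hp (Q.mul_mem _ _ hr hbQ)
    have hg₁Q : g₁ ∈ Q := Q.sub_mem (Q.sub_mem hs (Q.mul_mem _ _ hr haQ)) (Q.mul_mem _ _ hlQ hbQ)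
    have hg₀Q : g₀ ∈ Q := Q.sub_mem hq (Q.mul_mem _ _ hlQ haQ)
    have hg : algebraMap k K g₀ + algebraMap k K g₁ * ρ ∈ W.nonunits := by
      have : algebraMap k K g₀ + algebraMap k K g₁ * ρ =
          (algebraMap k K a + algebraMap k K b * ρ + ρ ^ 2) *
            -(algebraMap k K r * ρ + algebraMap k K l) := by
        rw [hg₀, hg₁, hl]
        simp only [map_sub, map_mul]
        linear_combination hρ
      rw [this]
      exact nonunits_mul hh (W.neg_mem _ (W.add_mem _ _ (W.mul_mem _ _ (hmem r hr) hρW)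
        (hmem l hlQ)))
    have hg' : g₀ ∈ Q.nonunits ∧ g₁ ∈ Q.nonunits := by
      by_contra hcon
      rw [not_and_or] at hcon
      exact deg1 g₀ g₁ hg₀Q hg₁Q hcon hg
    -- the root of the linear factor
    set e := -(l * r⁻¹) with he
    have heQ : e ∈ Q := Q.neg_mem _ (Q.mul_mem _ _ hlQ hrinv)
    apply haniso e 1 heQ Q.one_mem (Or.inr (one_notMem_nonunits Q))
    have hle : r * e + l = 0 := by rw [he]; field_simp; ring
    have : r * e ^ 3 + p * e ^ 2 * 1 + s * e * 1 ^ 2 + q * 1 ^ 3 = g₀ + g₁ * e := by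
      have h3 : r * e ^ 3 + p * e ^ 2 * 1 + s * e * 1 ^ 2 + q * 1 ^ 3 =
          (e ^ 2 + b * e + a) * (r * e + l) + g₁ * e + g₀ := by
        rw [hg₀, hg₁, hl]; ring
      rw [h3, hle]; ring
    rw [this]
    exact nonunits_add hg'.1 (nonunits_mul hg'.2 heQ)

end

end Pool.Agent.Helper26
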