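import Mathlib
import Pool.Agent.Helper26.CubicPlace

set_option autoImplicit false
set_option linter.unusedSectionVars false

/-!
# Descent of valuations to a subfield
-/

namespace Pool.Agent.Helper26

section

variable {k K : Type*} [Field k] [Field K] [Algebra k K] [Algebra.IsAlgebraic k K]

/-- Every element becomes integral after multiplication by a nonzero element of `k`. -/
lemma exists_mul_mem (W : ValuationSubring K) (u : K) :
    ∃ c : k, c ≠ 0 ∧ algebraMap k K c * u ∈ W := by
  set V := W.comap (algebraMap k K) with hV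
  let _ : Algebra V K := ((algebraMap k K).comp V.subtype).toAlgebra
  have _ : IsScalarTower V k K := IsScalarTower.of_algebraMap_eq fun x => rfl
  have h1 : IsAlgebraic k u := Algebra.IsAlgebraic.isAlgebraic u
  have h2 : IsAlgebraic V u := (IsFractionRing.isAlgebraic_iff V k K).2 h1
  obtain ⟨c, hc0, hc⟩ := h2.exists_integral_multiple
  have hc0' : (c : k) ≠ 0 := fun h => hc0 (Subtype.ext h)
  refine ⟨c, hc0', ?_⟩
  have h3 : IsIntegral W (algebraMap k K c * u) := by
    let f : V →+* W := ((algebraMap k K).comp V.subtype).codRestrict W.toSubring fun x => x.2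
    obtain ⟨p, hp, hp0⟩ := hc
    refine ⟨p.map f, hp.map f, ?_⟩
    rw [Polynomial.eval₂_map]
    exact hp0
  obtain ⟨y, hy⟩ := IsIntegrallyClosed.isIntegral_iff.1 h3
  rw [← hy]
  exact y.2

lemma comap_ne_top (W : ValuationSubring K) (hW : W ≠ ⊤) : W.comap (algebraMap k K) ≠ ⊤ := by
  intro h
  apply hW
  rw [eq_top_iff]
  intro u _
  obtain ⟨c, hc0, hc⟩ := exists_mul_mem (k := k) W u
  have h1 : algebraMap k K c⁻¹ ∈ W := by
    have : c⁻¹ ∈ W.comap (algebraMap k K) := by rw [h]; trivial
    exact this
  have h2 : u = algebraMap k K c⁻¹ * (algebraMap k K c * u) := by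
    rw [map_inv₀]
    have : algebraMap k K c ≠ 0 := by rwa [Ne, map_eq_zero]
    field_simp
  rw [h2]
  exact W.mul_mem _ _ h1 hc

end

end Pool.Agent.Helper26
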