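import Mathlib
import Pool.Agent.Helper26.CFTMain
import Pool.Agent.Helper26.ValDescent

set_option autoImplicit false
set_option linter.unusedSectionVars false

/-!
# The places of a global function field which are integral at `X`
-/

namespace Pool.Agent.Helper26

open Polynomial IsDedekindDomain WithZero

section

variable {R K : Type*} [CommRing R] [IsDedekindDomain R] [Field K] [Algebra R K]
  [IsFractionRing R K]

/-- The valuation ring of a prime of a Dedekind domain. -/
noncomputable abbrev placeOf (K : Type*) [Field K] [Algebra R K] [IsFractionRing R K]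
    (w : HeightOneSpectrum R) : ValuationSubring K := (w.valuation K).valuationSubring

lemma mem_placeOf (w : HeightOneSpectrum R) (x : K) : x ∈ placeOf K w ↔ w.valuation K x ≤ 1 :=
  Iff.rfl

lemma mem_nonunits_placeOf (w : HeightOneSpectrum R) (x : K) :
    x ∈ (placeOf K w).nonunits ↔ w.valuation K x < 1 := by
  rw [nonunits_iff, mem_placeOf, map_inv₀]
  constructor
  · rintro (rfl | h)
    · rw [map_zero]; exact zero_lt_one
    · rw [not_le] at h
      by_contra hcon
      rw [not_lt] at hcon
      exact absurd h (not_lt.2 (inv_le_one_of_one_le₀ hcon))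
  · intro h
    by_cases h0 : x = 0
    · exact Or.inl h0
    · right
      rw [not_le]
      exact (one_lt_inv₀ (by rw [zero_lt_iff, Valuation.ne_zero_iff]; exact h0)).2 h

lemma isRankOne_placeOf (w : HeightOneSpectrum R) : IsRankOne (placeOf K w) := by
  intro θ hθ d hd
  rw [mem_nonunits_placeOf] at hθ
  by_cases hθ0 : θ = 0
  · refine ⟨1, ?_⟩
    rw [hθ0, pow_one, zero_div]
    exact (placeOf K w).zero_mem
  have hv0 : w.valuation K θ ≠ 0 := (Valuation.ne_zero_iff _).2 hθ0
  have hd0 : w.valuation K d ≠ 0 := (Valuation.ne_zero_iff _).2 hd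
  have h1 : log (w.valuation K θ) ≤ -1 := by
    have : log (w.valuation K θ) < 0 := by
      rw [log_lt_iff_lt_exp hv0, exp_zero]; exact hθ
    omega
  refine ⟨(-log (w.valuation K d)).toNat, ?_⟩
  rw [mem_placeOf, map_div₀, map_pow, ← exp_zero, ← log_le_iff_le_exp
    (div_ne_zero (pow_ne_zero _ hv0) hd0), log_div (pow_ne_zero _ hv0) hd0, log_pow, nsmul_eq_mul]
  have h2 := Int.self_le_toNat (-log (w.valuation K d))
  nlinarith

lemma placeOf_ne_top (w : HeightOneSpectrum R) : placeOf K w ≠ ⊤ := by
  intro htop
  obtain ⟨x, hx⟩ := w.valuation_exists_uniformizer K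
  have hx0 : x ≠ 0 := by
    rintro rfl
    rw [map_zero] at hx
    exact exp_ne_zero hx.symm
  have h1 : x⁻¹ ∈ placeOf K w := by rw [htop]; trivial
  rw [mem_placeOf, map_inv₀, hx, ← exp_neg, ← exp_zero, exp_le_exp] at h1
  norm_num at h1

/-- A valuation ring containing the Dedekind domain is the one of a prime. -/
lemma exists_placeOf_eq {W : ValuationSubring K} (hW : W ≠ ⊤)
    (hR : ∀ x : R, algebraMap R K x ∈ W) : ∃ w : HeightOneSpectrum R, placeOf K w = W := by
  let p : Ideal R :=
    { carrier := {x | algebraMap R K x ∈ W.nonunits}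
      zero_mem' := by
        change algebraMap R K 0 ∈ W.nonunits
        rw [map_zero]
        exact (nonunits_iff W 0).2 (Or.inl rfl)
      add_mem' := by
        intro x y hx hy
        change algebraMap R K (x + y) ∈ W.nonunits
        rw [map_add]
        exact nonunits_add hx hy
      smul_mem' := by
        intro x y hy
        change algebraMap R K (x * y) ∈ W.nonunits
        rw [map_mul]
        exact nonunits_mul' (hR x) hy }
  have hp1 : (1 : R) ∉ p := by
    intro h
    have h1 : algebraMap R K 1 ∈ W.nonunits := h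
    rw [map_one] at h1
    exact one_notMem_nonunits W h1
  have hpp : p.IsPrime := by
    refine ⟨fun h => hp1 (by rw [h]; trivial), ?_⟩
    intro x y hxy
    by_contra hcon
    rw [not_or] at hcon
    obtain ⟨hx, hy⟩ := hcon
    have hx' : algebraMap R K x ∉ W.nonunits := hx
    have hy' : algebraMap R K y ∉ W.nonunits := hy
    have hxy' : algebraMap R K (x * y) ∈ W.nonunits := hxy
    rw [nonunits_iff] at hx' hy'
    push Not at hx' hy'
    apply hx
    change algebraMap R K x ∈ W.nonunits
    have : algebraMap R K x = algebraMap R K (x * y) * (algebraMap R K y)⁻¹ := by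
      rw [map_mul, mul_assoc, mul_inv_cancel₀ hy'.1, mul_one]
    rw [this]
    exact nonunits_mul hxy' hy'.2
  have hp0 : p ≠ ⊥ := by
    intro h0
    apply hW
    rw [eq_top_iff]
    intro x _
    obtain ⟨n, d, hd, rfl⟩ := IsFractionRing.div_surjective (A := R) x
    have hd0 : d ≠ 0 := nonZeroDivisors.ne_zero hd
    have hdp : d ∉ p := by
      rw [h0, Ideal.mem_bot]; exact hd0
    have hd' : algebraMap R K d ∉ W.nonunits := hdp
    rw [nonunits_iff] at hd'
    push Not at hd'
    rw [div_eq_mul_inv]
    exact W.mul_mem _ _ (hR n) hd'.2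
  let w : HeightOneSpectrum R := ⟨p, hpp, hp0⟩
  refine ⟨w, ?_⟩
  have hle : ∀ x ∈ placeOf K w, x ∈ W := by
    intro x hx
    obtain ⟨n, d, hnd⟩ := w.exists_primeCompl_mul_eq_of_integer x hx
    have hd' : algebraMap R K d ∉ W.nonunits := d.2
    rw [nonunits_iff] at hd'
    push Not at hd'
    have : x = algebraMap R K n * (algebraMap R K d)⁻¹ := by
      rw [← hnd, mul_assoc, mul_inv_cancel₀ hd'.1, mul_one]
    rw [this]
    exact W.mul_mem _ _ (hR n) hd'.2
  by_contra hne
  obtain ⟨x, hx, hx'⟩ := not_le_of_ne (isRankOne_placeOf w) hW hne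
  exact hx' (hle x hx)

lemma finite_residue_placeOf [Ring.HasFiniteQuotients R] (w : HeightOneSpectrum R) :
    Finite (IsLocalRing.ResidueField (placeOf K w)) ∧
      Nat.card (IsLocalRing.ResidueField (placeOf K w)) = Nat.card (R ⧸ w.asIdeal) := by
  have hR : ∀ x : R, algebraMap R K x ∈ placeOf K w := fun x => HeightOneSpectrum.valuation_le_one w x
  let f : R →+* placeOf K w := (algebraMap R K).codRestrict (placeOf K w).toSubring hR
  let g : R →+* IsLocalRing.ResidueField (placeOf K w) := (IsLocalRing.residue _).comp f
  have hker : RingHom.ker g = w.asIdeal := by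
    ext x
    rw [RingHom.mem_ker]
    have h1 : g x = 0 ↔ algebraMap R K x ∈ (placeOf K w).nonunits := by
      constructor
      · intro h
        exact mem_nonunits_of_residue (x := f x) h
      · intro h
        exact residue_of_mem_nonunits (x := f x) h
    rw [h1, mem_nonunits_placeOf, HeightOneSpectrum.valuation_lt_one_iff_mem]
  have hsurj : Function.Surjective g := by
    intro y
    obtain ⟨x, rfl⟩ := IsLocalRing.residue_surjective y
    obtain ⟨n, d, hnd⟩ := w.exists_primeCompl_mul_eq_of_integer (x : K) x.2
    have hdmem : (d : R) ∉ w.asIdeal := d.2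
    have hmax := w.isMaximal
    obtain ⟨e, i, hi, hei⟩ := hmax.exists_inv hdmem
    refine ⟨n * e, ?_⟩
    have h1 : x * f d = f n := Subtype.ext hnd
    have h2 : g e * g d = 1 := by
      rw [← map_mul]
      have h3 : g i = 0 := by
        have : i ∈ RingHom.ker g := by rw [hker]; exact hi
        exact this
      have h4 := congrArg g hei
      rw [map_add, h3, add_zero, map_one] at h4
      exact h4
    have h5 : IsLocalRing.residue _ x * g d = g n := by
      have := congrArg (IsLocalRing.residue (placeOf K w)) h1
      rw [map_mul] at this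
      exact this
    rw [map_mul, ← h5, mul_assoc, mul_comm (g d), h2, mul_one]
  have hfq : Finite (R ⧸ w.asIdeal) := Ring.HasFiniteQuotients.finiteQuotient w.ne_bot
  have e : (R ⧸ w.asIdeal) ≃+* IsLocalRing.ResidueField (placeOf K w) :=
    (Ideal.quotEquivOfEq hker.symm).trans (RingHom.quotientKerEquivOfSurjective hsurj)
  exact ⟨Finite.of_equiv _ e.toEquiv, (Nat.card_congr e.toEquiv).symm⟩

end

section

lemma hasFiniteQuotients_poly (F : Type*) [Field F] [Finite F] :
    Ring.HasFiniteQuotients F[X] where
  finiteQuotient := by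
    intro I hI
    obtain ⟨g, hg⟩ := (IsPrincipalIdealRing.principal I).principal
    have hg0 : g ≠ 0 := by
      rintro rfl
      apply hI
      rw [hg]
      exact Submodule.span_zero_singleton _
    have h1 : I = Ideal.span {g} := hg
    rw [h1]
    have := finite_natDegree_le (F := F) g.natDegree
    refine Finite.of_surjective (fun p : {p : F[X] // p.natDegree ≤ g.natDegree} =>
      Ideal.Quotient.mk (Ideal.span {g}) p.1) ?_
    intro y
    obtain ⟨p, rfl⟩ := Ideal.Quotient.mk_surjective y
    refine ⟨⟨p % g, ?_⟩, ?_⟩
    · by_cases hg1 : g.natDegree = 0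
      · have : p % g = 0 := by
          rw [eq_C_of_natDegree_eq_zero hg1] at hg0 ⊢
          exact EuclideanDomain.mod_eq_zero.2 (IsUnit.dvd (isUnit_C.2 (isUnit_iff_ne_zero.2 (by
            intro h; rw [h, C_0] at hg0; exact hg0 rfl))))
        rw [this]
        simp
      · exact (natDegree_mod_lt p hg1).le
    · rw [Ideal.Quotient.eq, Ideal.mem_span_singleton]
      refine ⟨-(p / g), ?_⟩
      have := EuclideanDomain.div_add_mod p g
      linear_combination this

end

end Pool.Agent.Helper26
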