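import Mathlib
import Pool.Agent.Helper26.CFTMain

set_option autoImplicit false
set_option linter.unusedSectionVars false

/-!
# The local-global principle in terms of valuation rings
-/

namespace Pool.Agent.Helper26

open Polynomial IsDedekindDomain

section

universe v

variable {K : Type v} [Field K] [CharP K 2]

/-- An element of all valuation rings lies in a finite subfield. -/
lemma exists_finite_of_mem_all (u : K) (h : ∀ V : ValuationSubring K, u ∈ V) :
    ∃ (L : Type v) (_ : Field L) (_ : Finite L) (_ : CharP L 2) (f : L →+* K) (x : L),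
      f x = u := by
  have h1 : u ∈ (integralClosure (Subring.closure (∅ : Set K)) K).toSubring := by
    rw [← iInf_valuationSubring_superset, Subring.mem_iInf]
    intro V
    exact h V.1
  have h2 : IsIntegral (Subring.closure (∅ : Set K)) u := h1
  have h3 : Algebra.IsIntegral ℤ (Subring.closure (∅ : Set K)) := by
    constructor
    intro x
    have hx : (x : K) ∈ (⊥ : Subring K) := (Subring.closure_empty (R := K)).le x.2
    obtain ⟨n, hn⟩ := Subring.mem_bot.1 hx
    have : x = algebraMap ℤ _ n := by
      apply Subtype.ext
      rw [← hn]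
      simp
    rw [this]
    exact isIntegral_algebraMap
  have h4 : IsIntegral ℤ u := isIntegral_trans u h2
  let _ : Algebra (ZMod 2) K := ZMod.algebra K 2
  have h5 : IsIntegral (ZMod 2) u := h4.tower_top
  have hfd : FiniteDimensional (ZMod 2) (IntermediateField.adjoin (ZMod 2) {u}) :=
    IntermediateField.adjoin.finiteDimensional h5
  have hfin : Finite (IntermediateField.adjoin (ZMod 2) {u}) :=
    Module.finite_of_finite (ZMod 2)
  have hchar : CharP (IntermediateField.adjoin (ZMod 2) {u}) 2 :=
    charP_of_injective_algebraMap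
      (algebraMap (ZMod 2) (IntermediateField.adjoin (ZMod 2) {u})).injective 2
  exact ⟨IntermediateField.adjoin (ZMod 2) {u}, inferInstance, hfin, hchar,
    algebraMap (IntermediateField.adjoin (ZMod 2) {u}) K,
    ⟨u, IntermediateField.mem_adjoin_simple_self (ZMod 2) u⟩, rfl⟩

/-- An element of all valuation rings is a square. -/
lemma isSquare_of_mem_all (u : K) (h : ∀ V : ValuationSubring K, u ∈ V) : ∃ s : K, u = s ^ 2 := by
  obtain ⟨L, _, _, _, f, x, rfl⟩ := exists_finite_of_mem_all u h
  obtain ⟨s, hs⟩ := exists_sq x
  exact ⟨f s, by rw [← map_pow, hs]⟩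

end

section

lemma finite_mem_valuationSubring {E : Type*} [Field E] [Finite E] {L : Type*} [Field L]
    (f : E →+* L) (V : ValuationSubring L) (c : E) : f c ∈ V := by
  by_cases hc : c = 0
  · rw [hc, map_zero]; exact V.zero_mem
  · have := Fintype.ofFinite E
    have h1 : c ^ (Fintype.card E - 1) = 1 := FiniteField.pow_card_sub_one_eq_one c hc
    have hpos : 0 < Fintype.card E - 1 := by
      have := Fintype.one_lt_card (α := E)
      omega
    have h2 : IsIntegral V (f c) := by
      refine IsIntegral.of_pow hpos ?_
      rw [← map_pow, h1, map_one]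
      exact isIntegral_one
    obtain ⟨x, hx⟩ := IsIntegrallyClosed.isIntegral_iff.1 h2
    rw [← hx]
    exact x.2

/-- The inverse of an element of all valuation rings. -/
lemma inv_mem_all {K : Type*} [Field K] [CharP K 2] (u : K)
    (h : ∀ V : ValuationSubring K, u ∈ V) (V : ValuationSubring K) : u⁻¹ ∈ V := by
  obtain ⟨L, _, _, _, f, x, rfl⟩ := exists_finite_of_mem_all u h
  rw [← map_inv₀]
  exact finite_mem_valuationSubring f V _

/-- Constants are in all valuation rings. -/
lemma mem_of_isAlgebraic {F K : Type*} [Field F] [Finite F] [Field K] [Algebra F K] {u : K}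
    (h : IsAlgebraic F u) (V : ValuationSubring K) : u ∈ V := by
  have hfd : FiniteDimensional F (IntermediateField.adjoin F {u}) :=
    IntermediateField.adjoin.finiteDimensional h.isIntegral
  have hfin : Finite (IntermediateField.adjoin F {u}) := Module.finite_of_finite F
  exact finite_mem_valuationSubring (algebraMap (IntermediateField.adjoin F {u}) K) V
    ⟨u, IntermediateField.mem_adjoin_simple_self F u⟩

end

section

variable {F K : Type*} [Field F] [Field K] [Algebra (RatFunc F) K]
  [FiniteDimensional (RatFunc F) K]
  [Algebra.IsSeparable (RatFunc F) K] [Finite F] [CharP F 2] [CharP K 2]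

/-- The local-global principle for places which are integral at `X`. -/
theorem local_global_places (h : IsTwoBasis (algebraMap (RatFunc F) K RatFunc.X))
    (hunit : ∀ u : K, u ≠ 0 → (∀ V : ValuationSubring K, algebraMap (RatFunc F) K RatFunc.X ∈ V →
      u ∈ V ∧ u⁻¹ ∈ V) → ∃ s : K, u = s ^ 2)
    (a : K) (hloc : ∀ V : ValuationSubring K, V ≠ ⊤ → algebraMap (RatFunc F) K RatFunc.X ∈ V →
      ∃ P : K, a + P + h.cart P ∈ V) :
    ∃ P : K, a = P + h.cart P := by
  let _ : Algebra F[X] K := ((algebraMap (RatFunc F) K).comp (algebraMap F[X] (RatFunc F))).toAlgebra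
  have _ : IsScalarTower F[X] (RatFunc F) K := IsScalarTower.of_algebraMap_eq fun x => rfl
  have _ : FunctionField F K := ‹FiniteDimensional (RatFunc F) K›
  have hX : algebraMap (RatFunc F) K RatFunc.X = algebraMap F[X] K X := by
    rw [← RatFunc.algebraMap_X, ← IsScalarTower.algebraMap_apply F[X] (RatFunc F) K]
  have hpoly : ∀ V : ValuationSubring K, algebraMap (RatFunc F) K RatFunc.X ∈ V →
      ∀ p : F[X], algebraMap F[X] K p ∈ V := by
    intro V hV p
    induction p using Polynomial.induction_on' with
    | add p q hp hq => rw [map_add]; exact V.add_mem _ _ hp hq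
    | monomial n c =>
      rw [← C_mul_X_pow_eq_monomial, map_mul, map_pow, ← hX]
      refine V.mul_mem _ _ ?_ (pow_mem hV n)
      exact finite_mem_valuationSubring ((algebraMap F[X] K).comp C) V c
  have hint : ∀ V : ValuationSubring K, algebraMap (RatFunc F) K RatFunc.X ∈ V →
      ∀ x : K, IsIntegral F[X] x → x ∈ V := by
    intro V hV x hx
    have h1 : ∀ p : F[X], algebraMap F[X] K p ∈ V.toSubring := hpoly V hV
    let f : F[X] →+* V.toSubring := (algebraMap F[X] K).codRestrict V.toSubring h1
    have h2 : IsIntegral V x := by
      obtain ⟨p, hp, hp0⟩ := hx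
      refine ⟨p.map f, hp.map f, ?_⟩
      rw [eval₂_map]
      exact hp0
    obtain ⟨y, hy⟩ := IsIntegrallyClosed.isIntegral_iff.1 h2
    rw [← hy]
    exact y.2
  refine local_global (F := F) (K := K) ?_ a ?_
  · intro u hu hval
    apply hunit u hu
    intro V hV
    constructor
    · obtain ⟨x, hx⟩ := HeightOneSpectrum.mem_integers_of_valuation_le_one K u
        (fun w => (hval w).le)
      rw [← hx]
      exact hint V hV _ x.2
    · obtain ⟨x, hx⟩ := HeightOneSpectrum.mem_integers_of_valuation_le_one K u⁻¹
        (fun w => by rw [map_inv₀, hval w, inv_one])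
      rw [← hx]
      exact hint V hV _ x.2
  · intro w
    have hne : (w.valuation K).valuationSubring ≠ ⊤ := by
      intro htop
      obtain ⟨x, hx⟩ := w.valuation_exists_uniformizer K
      have hx0 : x ≠ 0 := by
        rintro rfl
        rw [map_zero] at hx
        exact WithZero.exp_ne_zero hx.symm
      have h1 : x⁻¹ ∈ (w.valuation K).valuationSubring := by rw [htop]; trivial
      rw [Valuation.mem_valuationSubring_iff, map_inv₀, hx, ← WithZero.exp_neg,
        ← WithZero.exp_zero, WithZero.exp_le_exp] at h1
      norm_num at h1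
    have hX' : algebraMap (RatFunc F) K RatFunc.X ∈ (w.valuation K).valuationSubring := by
      rw [hX, Valuation.mem_valuationSubring_iff,
        IsScalarTower.algebraMap_apply F[X] (OK F K) K]
      exact HeightOneSpectrum.valuation_le_one w _
    obtain ⟨P, hP⟩ := hloc _ hne hX'
    exact ⟨P, hP⟩

end

end Pool.Agent.Helper26
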