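import Mathlib
import Pool.Agent.Helper26.Places

set_option autoImplicit false
set_option linter.unusedSectionVars false

/-!
# The local-global principle away from one inert place
-/

universe u v

namespace Pool.Agent.Helper26

open Polynomial IsDedekindDomain

/-- `P` is the only pole of the image of `X` under a finite separable embedding of
`RatFunc F`, with `F` a finite field of characteristic two. -/
def HasPole {k : Type u} [Field k] (P : ValuationSubring k) : Prop :=
  ∃ (F : Type v) (_ : Field F) (_ : Finite F) (_ : CharP F 2) (φ : RatFunc F →+* k),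
    (letI := φ.toAlgebra; FiniteDimensional (RatFunc F) k ∧ Algebra.IsSeparable (RatFunc F) k) ∧
    φ RatFunc.X ∉ P ∧ ∀ V : ValuationSubring k, V ≠ ⊤ → V ≠ P → φ RatFunc.X ∈ V

/-- The local-global principle for `a = P + cart P` over an extension `K / k`, away from the
places above an inert place of `k`. -/
theorem local_global_ext {k K : Type u} [Field k] [Field K] [Algebra k K]
    [FiniteDimensional k K] [Algebra.IsSeparable k K] [CharP k 2] [CharP K 2]
    (Q : ValuationSubring k) (hQ : HasPole.{u, v} Q)
    (hinert : ∀ u : K, u ≠ 0 → ∃ c : k, c ≠ 0 ∧ ∀ W : ValuationSubring K,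
      W.comap (algebraMap k K) = Q →
        u * algebraMap k K c ∈ W ∧ (u * algebraMap k K c)⁻¹ ∈ W)
    {t : k} (htK : IsTwoBasis (algebraMap k K t)) (a : K)
    (hloc : ∀ W : ValuationSubring K, W ≠ ⊤ → W.comap (algebraMap k K) ≠ Q →
      W.comap (algebraMap k K) ≠ ⊤ →
      ∀ d : K, d ≠ 0 → ∃ P : K, (a + P + htK.cart P) / d ∈ W)
    (htop : ∀ W : ValuationSubring K, W ≠ ⊤ → W.comap (algebraMap k K) ≠ ⊤) :
    ∃ P : K, a = P + htK.cart P := by
  obtain ⟨F, _, _, _, φ, hφ, hφ1, hφ2⟩ := hQ
  let _ : Algebra (RatFunc F) k := φ.toAlgebra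
  have _ : FiniteDimensional (RatFunc F) k := hφ.1
  have _ : Algebra.IsSeparable (RatFunc F) k := hφ.2
  let _ : Algebra (RatFunc F) K := ((algebraMap k K).comp φ).toAlgebra
  have _ : IsScalarTower (RatFunc F) k K := IsScalarTower.of_algebraMap_eq fun x => rfl
  have _ : FiniteDimensional (RatFunc F) K := FiniteDimensional.trans (RatFunc F) k K
  have _ : Algebra.IsSeparable (RatFunc F) K := Algebra.IsSeparable.trans (RatFunc F) k K
  have hτ : algebraMap (RatFunc F) K RatFunc.X = algebraMap k K (φ RatFunc.X) := rfl
  have hb : IsTwoBasis (algebraMap (RatFunc F) K RatFunc.X) := isTwoBasis_X.extend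
  set κ := hb.cart (algebraMap k K t) with hκ
  have hκ0 : κ ≠ 0 := by
    intro h0
    apply htK.not_sq (hb.sqp (algebraMap k K t))
    exact (hb.eq_sq_of_cart h0).symm
  have hchange : ∀ g, hb.cart g = κ * htK.cart g := fun g => hb.cart_change htK g
  have key : ∃ P : K, κ ^ 2 * a = P + hb.cart P := by
    refine local_global_places hb ?_ (κ ^ 2 * a) ?_
    · -- units
      intro u hu hu'
      obtain ⟨c, hc0, hc⟩ := hinert u hu
      have hcK : algebraMap k K c ≠ 0 := by
        rw [Ne, map_eq_zero]; exact hc0
      have hW : ∀ W : ValuationSubring K, algebraMap k K (φ RatFunc.X) ∉ W →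
          W.comap (algebraMap k K) = Q := by
        intro W hW
        by_contra hne
        have h1 : W.comap (algebraMap k K) ≠ ⊤ := by
          intro h
          apply hW
          have : φ RatFunc.X ∈ W.comap (algebraMap k K) := by rw [h]; trivial
          exact this
        exact hW (hφ2 _ h1 hne)
      by_cases hcQ : c ∈ Q
      · -- `u⁻¹` is everywhere integral
        obtain ⟨s, hs⟩ := isSquare_of_mem_all u⁻¹ (fun W => by
          by_cases hXW : algebraMap k K (φ RatFunc.X) ∈ W
          · exact (hu' W hXW).2
          · have hcomap := hW W hXW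
            have h1 : algebraMap k K c ∈ W := by
              have : c ∈ W.comap (algebraMap k K) := by rw [hcomap]; exact hcQ
              exact this
            have h2 : u⁻¹ = algebraMap k K c * (u * algebraMap k K c)⁻¹ := by
              field_simp
            rw [h2]
            exact W.mul_mem _ _ h1 (hc W hcomap).2)
        exact ⟨s⁻¹, by rw [inv_pow, ← hs, inv_inv]⟩
      · apply isSquare_of_mem_all u
        intro W
        by_cases hXW : algebraMap k K (φ RatFunc.X) ∈ W
        · exact (hu' W hXW).1
        · have hcomap := hW W hXW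
          have hcinv : c⁻¹ ∈ Q := (Q.mem_or_inv_mem c).resolve_left hcQ
          have h1 : (algebraMap k K c)⁻¹ ∈ W := by
            have : c⁻¹ ∈ W.comap (algebraMap k K) := by rw [hcomap]; exact hcinv
            rw [← map_inv₀]
            exact this
          have h2 : u = (u * algebraMap k K c) * (algebraMap k K c)⁻¹ := by
            field_simp
          rw [h2]
          exact W.mul_mem _ _ (hc W hcomap).1 h1
    · -- local solvability
      intro W hW hXW
      have h1 : W.comap (algebraMap k K) ≠ Q := by
        intro h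
        apply hφ1
        rw [← h]
        exact hXW
      obtain ⟨P, hP⟩ := hloc W hW h1 (htop W hW) (κ⁻¹ ^ 2) (pow_ne_zero _ (inv_ne_zero hκ0))
      refine ⟨κ ^ 2 * P, ?_⟩
      rw [hb.cart_sq_mul, hchange]
      have h2 : κ ^ 2 * a + κ ^ 2 * P + κ * (κ * htK.cart P) =
          (a + P + htK.cart P) / κ⁻¹ ^ 2 := by
        field_simp
      rw [h2]
      exact hP
  obtain ⟨P, hP⟩ := key
  refine ⟨κ⁻¹ ^ 2 * P, ?_⟩
  rw [htK.cart_sq_mul]
  rw [hchange] at hP
  field_simp
  linear_combination hP

end Pool.Agent.Helper26
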