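import Mathlib
import Pool.Agent.Helper26.Chart
import Pool.Agent.Helper26.PlacesExt

set_option autoImplicit false
set_option linter.unusedSectionVars false

/-!
# Elements with a prescribed unique pole
-/

universe u v

namespace Pool.Agent.Helper26

open Polynomial IsDedekindDomain WithZero

section

variable {F K : Type*} [Field F] [Finite F] [CharP F 2] [Field K] [CharP K 2]
  [Algebra (RatFunc F) K] [FiniteDimensional (RatFunc F) K]

/-- A finite extension of `RatFunc F` in which `X` is not a square is separable. -/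
lemma sep_of_nonsquare (hsq : ∀ s : K, s ^ 2 ≠ algebraMap (RatFunc F) K RatFunc.X) :
    Algebra.IsSeparable (RatFunc F) K := by
  have hq : ExpChar (RatFunc F) 2 := ExpChar.prime Nat.prime_two
  rw [← separableClosure.eq_top_iff, eq_top_iff]
  set S := separableClosure (RatFunc F) K with hS
  have hcharS : CharP S 2 := charP_of_injective_algebraMap (algebraMap (RatFunc F) S).injective 2
  have hqS : ExpChar S 2 := ExpChar.prime Nat.prime_two
  have hbasis : IsTwoBasis (algebraMap (RatFunc F) S RatFunc.X) := isTwoBasis_X.extend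
  have hroot : ∀ y : K, y ^ 2 ∈ S → y ∈ S := by
    intro y hy
    obtain ⟨a, v, hav⟩ := hbasis.span ⟨y ^ 2, hy⟩
    have h1 : y ^ 2 = (a : K) ^ 2 + algebraMap (RatFunc F) K RatFunc.X * (v : K) ^ 2 :=
      congrArg Subtype.val hav
    by_cases hv : (v : K) = 0
    · rw [hv, zero_pow two_ne_zero, mul_zero, add_zero] at h1
      have h2 : (y + a) ^ 2 = 0 := by
        rw [CharTwo.add_sq, h1, CharTwo.add_self_eq_zero]
      have h3 : y + a = 0 := (pow_eq_zero_iff two_ne_zero).1 h2
      rw [CharTwo.add_eq_zero.1 h3]
      exact a.2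
    · exfalso
      apply hsq ((y + a) / v)
      rw [div_pow, div_eq_iff (pow_ne_zero _ hv), CharTwo.add_sq, h1]
      linear_combination CharTwo.add_self_eq_zero ((a : K) ^ 2)
  have hroot' : ∀ n : ℕ, ∀ y : K, y ^ 2 ^ n ∈ S → y ∈ S := by
    intro n
    induction n with
    | zero => intro y hy; simpa using hy
    | succ n ih =>
      intro y hy
      apply ih
      apply hroot
      rwa [← pow_mul, ← pow_succ]
  intro x _
  obtain ⟨n, ⟨z, hz⟩⟩ := IsPurelyInseparable.pow_mem S 2 x
  apply hroot' n
  rw [← hz]
  exact z.2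

end

section

variable {F K : Type*} [Field F] [Finite F] [CharP F 2] [Field K] [CharP K 2]
  [Algebra F K] [Algebra (RatFunc F) K] [IsScalarTower F (RatFunc F) K] [FunctionField F K]

/-- A transcendental element which is not a square generates a subfield over which the field
is finite and separable. -/
lemma exists_embedding (τ : K) (hτ : Transcendental F τ) (hsq : ∀ s : K, s ^ 2 ≠ τ) :
    ∃ φ : RatFunc F →+* K, (letI := φ.toAlgebra
      FiniteDimensional (RatFunc F) K ∧ Algebra.IsSeparable (RatFunc F) K) ∧
      φ RatFunc.X = τ := by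
  have hfin := FunctionField.finiteDimensional_of_adjoin_transcendental (F := F) (K := K) hτ
  set e := RatFunc.algEquivOfTranscendental τ hτ with he
  let φ : RatFunc F →+* K := (algebraMap (IntermediateField.adjoin F {τ}) K).comp
    (e : RatFunc F →+* IntermediateField.adjoin F {τ})
  have hX : φ RatFunc.X = τ := by
    change algebraMap (IntermediateField.adjoin F {τ}) K (e RatFunc.X) = τ
    exact RatFunc.algEquivOfTranscendental_X τ hτ
  refine ⟨φ, ?_, hX⟩
  have hfin' : @Module.Finite (RatFunc F) K _ _ φ.toAlgebra.toModule :=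
    @Module.Finite.of_equiv_equiv (IntermediateField.adjoin F {τ}) K (RatFunc F) K _ _ _ _ _
      φ.toAlgebra e.symm.toRingEquiv (RingEquiv.refl K) (by
        ext x
        change algebraMap (IntermediateField.adjoin F {τ}) K (e (e.symm x)) = _
        rw [AlgEquiv.apply_symm_apply]
        rfl) hfin
  refine ⟨hfin', ?_⟩
  refine @sep_of_nonsquare F K _ _ _ _ _ φ.toAlgebra hfin' ?_
  intro s hs
  apply hsq s
  rw [hs]
  exact hX

end

section

variable {F : Type v} {K : Type u} [Field F] [Finite F] [CharP F 2] [Field K] [CharP K 2]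
  [Algebra F[X] K] [Algebra (RatFunc F) K]
  [IsScalarTower F[X] (RatFunc F) K] [FunctionField F K] [Algebra.IsSeparable (RatFunc F) K]

lemma mem_of_integral_X {V : ValuationSubring K}
    (hV : algebraMap (RatFunc F) K RatFunc.X ∈ V) (x : OK F K) : algebraMap (OK F K) K x ∈ V := by
  have hX : algebraMap (RatFunc F) K RatFunc.X = algebraMap F[X] K X := by
    rw [← RatFunc.algebraMap_X, ← IsScalarTower.algebraMap_apply F[X] (RatFunc F) K]
  have hpoly : ∀ p : F[X], algebraMap F[X] K p ∈ V := by
    intro p
    induction p using Polynomial.induction_on' with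
    | add p q hp hq => rw [map_add]; exact V.add_mem _ _ hp hq
    | monomial n c =>
      rw [← C_mul_X_pow_eq_monomial, map_mul, map_pow, ← hX]
      refine V.mul_mem _ _ ?_ (pow_mem hV n)
      exact finite_mem_valuationSubring ((algebraMap F[X] K).comp C) V c
  let f : F[X] →+* V.toSubring := (algebraMap F[X] K).codRestrict V.toSubring hpoly
  have h2 : IsIntegral V (algebraMap (OK F K) K x) := by
    obtain ⟨p, hp, hp0⟩ := x.2
    refine ⟨p.map f, hp.map f, ?_⟩
    rw [eval₂_map]
    exact hp0
  obtain ⟨y, hy⟩ := IsIntegrallyClosed.isIntegral_iff.1 h2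
  rw [← hy]
  exact y.2

lemma exists_nonsquare_pole (P : ValuationSubring K) (w : HeightOneSpectrum (OK F K))
    (hP : placeOf K w = P) (n : ℕ) : ∀ τ : K, w.valuation K τ = exp (n : ℤ) → 0 < n →
    (∀ V : ValuationSubring K, V ≠ ⊤ → V ≠ P → τ ∈ V) →
    ∃ σ : K, (∀ s : K, s ^ 2 ≠ σ) ∧ σ ∉ P ∧ ∀ V : ValuationSubring K, V ≠ ⊤ → V ≠ P → σ ∈ V := by
  induction n using Nat.strong_induction_on with
  | _ n ih =>
    intro τ hτ hn hall
    by_cases hsq : ∃ s : K, s ^ 2 = τ
    · obtain ⟨s, hs⟩ := hsq
      have hs0 : w.valuation K s ≠ 0 := by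
        intro h0
        rw [← hs, map_pow, h0, zero_pow two_ne_zero] at hτ
        exact exp_ne_zero hτ.symm
      rw [← hs, map_pow, ← exp_log hs0, ← exp_nsmul, exp_inj, nsmul_eq_mul] at hτ
      have hl : 0 < log (w.valuation K s) := by
        push_cast at hτ
        omega
      obtain ⟨m, hm⟩ := Int.eq_ofNat_of_zero_le hl.le
      refine ih m ?_ s ?_ ?_ ?_
      · rw [hm] at hτ
        push_cast at hτ
        omega
      · rw [← exp_log hs0, hm]
      · omega
      · intro V hV hVP
        apply mem_of_sq_mem
        rw [hs]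
        exact hall V hV hVP
    · push Not at hsq
      refine ⟨τ, hsq, ?_, hall⟩
      rw [← hP, mem_placeOf, hτ, ← exp_zero, exp_le_exp]
      omega

end

end Pool.Agent.Helper26
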