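import Mathlib
import Pool.Agent.Helper26.Chart
import Pool.Agent.Helper26.PoleTau
import Pool.Agent.Helper26.LocalNbhd
import Pool.Agent.Helper26.WeakApprox

set_option autoImplicit false
set_option linter.unusedSectionVars false

/-!
# The places of a global function field
-/

universe u v

namespace Pool.Agent.Helper26

open Polynomial IsDedekindDomain WithZero

section

variable {k : Type u} [Field k] [CharP k 2]

lemma CartBdd.change {t t' : k} (ht : IsTwoBasis t) (ht' : IsTwoBasis t')
    {V : ValuationSubring k} (h : CartBdd ht' V) : CartBdd ht V := by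
  obtain ⟨s, hs0, hs⟩ := h
  have hc0 : ht.cart t' ≠ 0 := by
    intro h0
    apply ht'.not_sq (ht.sqp t')
    exact (ht.eq_sq_of_cart h0).symm
  refine ⟨ht.cart t' * s, mul_ne_zero hc0 hs0, fun g hg => ?_⟩
  rw [ht.cart_change ht']
  have : ht.cart t' * ht'.cart g / (ht.cart t' * s) = ht'.cart g / s := by field_simp
  rw [this]
  exact hs g hg

end

/-- Finite separable embeddings of a rational function field. -/
def GoodEmb {F : Type v} {k : Type u} [Field F] [Field k] (φ : RatFunc F →+* k) : Prop :=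
  (letI := φ.toAlgebra; FiniteDimensional (RatFunc F) k ∧ Algebra.IsSeparable (RatFunc F) k)

section

variable {F : Type v} {K : Type u} [Field F] [Finite F] [CharP F 2] [Field K] [CharP K 2]
  [Algebra F[X] K] [Algebra (RatFunc F) K]
  [IsScalarTower F[X] (RatFunc F) K] [FunctionField F K] [Algebra.IsSeparable (RatFunc F) K]

lemma hasFiniteQuotients_OK : Ring.HasFiniteQuotients (OK F K) := by
  have := hasFiniteQuotients_poly F
  exact Ring.HasFiniteQuotients.of_module_finite (R := F[X]) (OK F K)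

lemma cartBdd_placeOf (w : HeightOneSpectrum (OK F K)) :
    CartBdd (isTwoBasis_K F K) (placeOf K w) := by
  obtain ⟨b, hb0, hb⟩ := exists_conductor (F := F) (K := K)
  have hbK : algebraMap (OK F K) K b ≠ 0 := by
    intro h0
    exact hb0 ((IsFractionRing.injective (OK F K) K) (by rw [h0, map_zero]))
  refine ⟨(algebraMap (OK F K) K b)⁻¹, inv_ne_zero hbK, fun g hg => ?_⟩
  obtain ⟨s, hs, hsg⟩ := local_cart_mem w (mem_placeOf w g |>.1 hg)
  obtain ⟨x, hx⟩ := hb _ hsg
  have hsK : algebraMap (OK F K) K s ≠ 0 := by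
    intro h0
    apply hs
    have : s = 0 := (IsFractionRing.injective (OK F K) K) (by rw [h0, map_zero])
    rw [this]
    exact w.asIdeal.zero_mem
  have hs1 : (algebraMap (OK F K) K s)⁻¹ ∈ placeOf K w := by
    rw [mem_placeOf, map_inv₀, (HeightOneSpectrum.valuation_eq_one_iff_notMem _).2 hs, inv_one]
  have hR : ∀ x : OK F K, algebraMap (OK F K) K x ∈ placeOf K w :=
    fun x => HeightOneSpectrum.valuation_le_one w x
  have h1 : (isTwoBasis_K F K).cart g / (algebraMap (OK F K) K b)⁻¹ =
      (algebraMap (OK F K) K s)⁻¹ * algebraMap (OK F K) K x - algebraMap (OK F K) K b * g := by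
    rw [hx]
    field_simp
    ring
  rw [h1]
  exact sub_mem ((placeOf K w).mul_mem _ _ hs1 (hR x))
    ((placeOf K w).mul_mem _ _ (hR b) hg)

lemma finite_placeOf (x : K) : {w : HeightOneSpectrum (OK F K) | x ∉ placeOf K w}.Finite := by
  have := HeightOneSpectrum.Support.finite (OK F K) x
  exact this.subset fun w hw => by
    rw [Set.mem_ofPred_eq, mem_placeOf, not_le] at hw
    exact hw

end

section

variable {F : Type v} {k : Type u} [Field F] [Finite F] [CharP F 2] [Field k] [CharP k 2]

/-- The properties of the places which are integral at `X`. -/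
lemma GoodEmb.facts {φ : RatFunc F →+* k} (hφ : GoodEmb φ) {V : ValuationSubring k} (hV : V ≠ ⊤)
    (hX : φ RatFunc.X ∈ V) : IsRankOne V ∧ Finite (IsLocalRing.ResidueField V) ∧
      ∀ {t : k} (ht : IsTwoBasis t), CartBdd ht V := by
  let _ : Algebra (RatFunc F) k := φ.toAlgebra
  let _ : Algebra F[X] k := (φ.comp (algebraMap F[X] (RatFunc F))).toAlgebra
  have _ : IsScalarTower F[X] (RatFunc F) k := IsScalarTower.of_algebraMap_eq fun x => rfl
  have _ : FunctionField F k := hφ.1
  have _ : Algebra.IsSeparable (RatFunc F) k := hφ.2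
  obtain ⟨w, rfl⟩ := exists_placeOf_eq (R := OK F k) hV (mem_of_integral_X (F := F) hX)
  have := hasFiniteQuotients_OK (F := F) (K := k)
  exact ⟨isRankOne_placeOf w, (finite_residue_placeOf w).1,
    fun ht => (cartBdd_placeOf w).change ht _⟩

lemma GoodEmb.finite {φ : RatFunc F →+* k} (hφ : GoodEmb φ) (x : k) :
    {V : ValuationSubring k | φ RatFunc.X ∈ V ∧ x ∉ V}.Finite := by
  let _ : Algebra (RatFunc F) k := φ.toAlgebra
  let _ : Algebra F[X] k := (φ.comp (algebraMap F[X] (RatFunc F))).toAlgebra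
  have _ : IsScalarTower F[X] (RatFunc F) k := IsScalarTower.of_algebraMap_eq fun x => rfl
  have _ : FunctionField F k := hφ.1
  have _ : Algebra.IsSeparable (RatFunc F) k := hφ.2
  refine ((finite_placeOf (F := F) x).image (placeOf k)).subset ?_
  rintro V ⟨hX, hx⟩
  have hV : V ≠ ⊤ := by rintro rfl; exact hx trivial
  obtain ⟨w, rfl⟩ := exists_placeOf_eq (R := OK F k) hV (mem_of_integral_X (F := F) hX)
  exact ⟨w, hx, rfl⟩

lemma GoodEmb.finite_card {φ : RatFunc F →+* k} (hφ : GoodEmb φ) (n : ℕ) :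
    {V : ValuationSubring k | V ≠ ⊤ ∧ φ RatFunc.X ∈ V ∧
      Nat.card (IsLocalRing.ResidueField V) ≤ n}.Finite := by
  let _ : Algebra (RatFunc F) k := φ.toAlgebra
  let _ : Algebra F[X] k := (φ.comp (algebraMap F[X] (RatFunc F))).toAlgebra
  have _ : IsScalarTower F[X] (RatFunc F) k := IsScalarTower.of_algebraMap_eq fun x => rfl
  have _ : FunctionField F k := hφ.1
  have _ : Algebra.IsSeparable (RatFunc F) k := hφ.2
  have := hasFiniteQuotients_OK (F := F) (K := k)
  refine ((Ring.HasFiniteQuotients.finite_cardQuot_heightOneSpectrum_le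
    (R := OK F k) n).image (placeOf k)).subset ?_
  rintro V ⟨hV, hX, hn⟩
  obtain ⟨w, rfl⟩ := exists_placeOf_eq (R := OK F k) hV (mem_of_integral_X (F := F) hX)
  refine ⟨w, ?_, rfl⟩
  rw [(finite_residue_placeOf w).2] at hn
  rw [Set.mem_ofPred_eq, Submodule.cardQuot_apply]
  exact hn

/-- Another embedding. -/
lemma GoodEmb.change {φ : RatFunc F →+* k} (hφ : GoodEmb φ) (τ : k) (hsq : ∀ s : k, s ^ 2 ≠ τ)
    (hτ : ∃ V : ValuationSubring k, τ ∉ V) : ∃ ψ : RatFunc F →+* k, GoodEmb ψ ∧
      ψ RatFunc.X = τ := by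
  let _ : Algebra (RatFunc F) k := φ.toAlgebra
  let _ : Algebra F k := (φ.comp (algebraMap F (RatFunc F))).toAlgebra
  have _ : IsScalarTower F (RatFunc F) k := IsScalarTower.of_algebraMap_eq fun x => rfl
  have _ : FunctionField F k := hφ.1
  obtain ⟨V, hV⟩ := hτ
  obtain ⟨ψ, h1, h2⟩ := exists_embedding (F := F) τ
    (fun halg => hV (mem_of_isAlgebraic halg V)) hsq
  exact ⟨ψ, h1, h2⟩

end

end Pool.Agent.Helper26
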