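import Mathlib
import Pool.Agent.Helper26.Chart2

set_option autoImplicit false
set_option linter.unusedSectionVars false

/-!
# The places of a global function field, II
-/

universe u v

namespace Pool.Agent.Helper26

open Polynomial IsDedekindDomain WithZero

section

variable {F : Type v} {k : Type u} [Field F] [Finite F] [CharP F 2] [Field k] [CharP k 2]

lemma GoodEmb.isTwoBasis {φ : RatFunc F →+* k} (hφ : GoodEmb φ) : IsTwoBasis (φ RatFunc.X) := by
  let _ : Algebra (RatFunc F) k := φ.toAlgebra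
  let _ : Algebra F[X] k := (φ.comp (algebraMap F[X] (RatFunc F))).toAlgebra
  have _ : IsScalarTower F[X] (RatFunc F) k := IsScalarTower.of_algebraMap_eq fun x => rfl
  have _ : FunctionField F k := hφ.1
  have _ : Algebra.IsSeparable (RatFunc F) k := hφ.2
  exact isTwoBasis_K F k

lemma GoodEmb.exists_notMem {φ : RatFunc F →+* k} (hφ : GoodEmb φ) :
    ∃ V : ValuationSubring k, φ RatFunc.X ∉ V := by
  by_contra hcon
  push Not at hcon
  obtain ⟨s, hs⟩ := isSquare_of_mem_all _ hcon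
  exact hφ.isTwoBasis.not_sq s hs.symm

lemma GoodEmb.exists_notMem_inv {φ : RatFunc F →+* k} (hφ : GoodEmb φ) :
    ∃ V : ValuationSubring k, (φ RatFunc.X)⁻¹ ∉ V := by
  by_contra hcon
  push Not at hcon
  obtain ⟨V, hV⟩ := hφ.exists_notMem
  apply hV
  have := inv_mem_all _ hcon V
  rwa [inv_inv] at this

lemma GoodEmb.exists_inv {φ : RatFunc F →+* k} (hφ : GoodEmb φ) :
    ∃ ψ : RatFunc F →+* k, GoodEmb ψ ∧ ψ RatFunc.X = (φ RatFunc.X)⁻¹ := by
  refine hφ.change _ ?_ hφ.exists_notMem_inv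
  intro s hs
  apply hφ.isTwoBasis.not_sq s⁻¹
  rw [inv_pow, hs, inv_inv]

lemma GoodEmb.exists_chart {φ : RatFunc F →+* k} (hφ : GoodEmb φ) (V : ValuationSubring k) :
    ∃ ψ : RatFunc F →+* k, GoodEmb ψ ∧ ψ RatFunc.X ∈ V := by
  by_cases h : φ RatFunc.X ∈ V
  · exact ⟨φ, hφ, h⟩
  · obtain ⟨ψ, h1, h2⟩ := hφ.exists_inv
    exact ⟨ψ, h1, by rw [h2]; exact (V.mem_or_inv_mem _).resolve_left h⟩

lemma GoodEmb.rankOne {φ : RatFunc F →+* k} (hφ : GoodEmb φ) {V : ValuationSubring k}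
    (hV : V ≠ ⊤) : IsRankOne V := by
  obtain ⟨ψ, h1, h2⟩ := hφ.exists_chart V
  exact (h1.facts hV h2).1

lemma GoodEmb.finite_residue {φ : RatFunc F →+* k} (hφ : GoodEmb φ) {V : ValuationSubring k}
    (hV : V ≠ ⊤) : Finite (IsLocalRing.ResidueField V) := by
  obtain ⟨ψ, h1, h2⟩ := hφ.exists_chart V
  exact (h1.facts hV h2).2.1

lemma GoodEmb.cartBdd {φ : RatFunc F →+* k} (hφ : GoodEmb φ) {V : ValuationSubring k}
    (hV : V ≠ ⊤) {t : k} (ht : IsTwoBasis t) : CartBdd ht V := by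
  obtain ⟨ψ, h1, h2⟩ := hφ.exists_chart V
  exact (h1.facts hV h2).2.2 ht

lemma GoodEmb.hfin {φ : RatFunc F →+* k} (hφ : GoodEmb φ) (x : k) :
    {V : ValuationSubring k | x ∉ V}.Finite := by
  obtain ⟨ψ, h1, h2⟩ := hφ.exists_inv
  refine ((hφ.finite x).union (h1.finite x)).subset ?_
  intro V hx
  by_cases h : φ RatFunc.X ∈ V
  · exact Or.inl ⟨h, hx⟩
  · exact Or.inr ⟨by rw [h2]; exact (V.mem_or_inv_mem _).resolve_left h, hx⟩

lemma GoodEmb.infinite_places {φ : RatFunc F →+* k} (hφ : GoodEmb φ) :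
    {V : ValuationSubring k | V ≠ ⊤}.Infinite := by
  intro hS
  have hex : ∀ V : ValuationSubring k, V ≠ ⊤ → ∃ π : k, π ≠ 0 ∧ π ∈ V.nonunits :=
    fun V hV => exists_nonunit hV
  choose! π hπ0 hπ using hex
  obtain ⟨z, hz⟩ := weak_approx hS.toFinset
    (fun V hV => ⟨hφ.rankOne ((Set.Finite.mem_toFinset _).1 hV), (Set.Finite.mem_toFinset _).1 hV⟩)
    π (fun V => π V ^ 2) (fun V hV => pow_ne_zero 2 (hπ0 V ((Set.Finite.mem_toFinset _).1 hV)))
  have hz' : ∀ V : ValuationSubring k, V ≠ ⊤ → z ≠ 0 ∧ z ∈ V.nonunits := by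
    intro V hV
    have h1 := hz V ((Set.Finite.mem_toFinset _).2 hV)
    have hp0 := hπ0 V hV
    set c := (z - π V) / π V ^ 2 with hc
    have h2 : z = π V * (1 + π V * c) := by
      rw [hc]; field_simp; ring
    obtain ⟨h3, h4⟩ := one_add_unit (nonunits_mul (hπ V hV) h1)
    refine ⟨?_, ?_⟩
    · rw [h2]; exact mul_ne_zero hp0 h3
    · rw [h2]
      exact nonunits_mul (hπ V hV) (V.add_mem _ _ V.one_mem
        (V.mul_mem _ _ (nonunits_mem (hπ V hV)) h1))
  have hall : ∀ V : ValuationSubring k, z ∈ V := by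
    intro V
    by_cases hV : V = ⊤
    · rw [hV]; trivial
    · exact nonunits_mem (hz' V hV).2
  obtain ⟨V, hV⟩ := hφ.exists_notMem
  have hVt : V ≠ ⊤ := by rintro rfl; exact hV trivial
  have h1 := (hz' V hVt).2
  rw [nonunits_iff] at h1
  rcases h1 with h1 | h1
  · exact (hz' V hVt).1 h1
  · exact h1 (inv_mem_all z hall V)

lemma GoodEmb.infinite_card {φ : RatFunc F →+* k} (hφ : GoodEmb φ) (n : ℕ) :
    {V : ValuationSubring k | V ≠ ⊤ ∧ φ RatFunc.X ∈ V ∧
      n ≤ Nat.card (IsLocalRing.ResidueField V)}.Infinite := by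
  intro h
  apply hφ.infinite_places
  refine ((h.union (hφ.finite_card n)).union (hφ.hfin (φ RatFunc.X))).subset ?_
  intro V hV
  by_cases hX : φ RatFunc.X ∈ V
  · left
    rcases le_total n (Nat.card (IsLocalRing.ResidueField V)) with h1 | h1
    · exact Or.inl ⟨hV, hX, h1⟩
    · exact Or.inr ⟨hV, hX, h1⟩
  · exact Or.inr hX

end

end Pool.Agent.Helper26
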