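import Mathlib
import Pool.Agent.Helper26.GlobalFacts
import Pool.Agent.Helper26.GoodPlace
import Pool.Agent.Helper26.Dlog

set_option autoImplicit false
set_option linter.unusedSectionVars false

/-!
# The local group `K / (1 + cart) K` has exactly two elements
-/

universe u v

namespace Pool.Agent.Helper26

section

variable {K : Type*} [Field K]

/-- Uniformizers. -/
def IsUnif (V : ValuationSubring K) (π : K) : Prop :=
  π ≠ 0 ∧ π ∈ V.nonunits ∧ ∀ x ∈ V.nonunits, x / π ∈ V

lemma IsUnif.inv_notMem {V : ValuationSubring K} {π : K} (hu : IsUnif V π) : π⁻¹ ∉ V := by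
  intro h
  have h1 := nonunits_mul hu.2.1 h
  rw [mul_inv_cancel₀ hu.1] at h1
  exact one_notMem_nonunits V h1

/-- A non-unit is not a unit. -/
lemma not_inv_mem {V : ValuationSubring K} {x : K} (hx : x ∈ V.nonunits) (hx0 : x ≠ 0) :
    x⁻¹ ∉ V := by
  intro h
  have h1 := nonunits_mul hx h
  rw [mul_inv_cancel₀ hx0] at h1
  exact one_notMem_nonunits V h1

lemma mem_nonunits_or {V : ValuationSubring K} {x : K} (hx : x ∈ V) :
    x ∈ V.nonunits ∨ (x ≠ 0 ∧ x⁻¹ ∈ V) := by
  by_cases h : x ∈ V.nonunits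
  · exact Or.inl h
  · right
    rw [nonunits_iff] at h
    push Not at h
    exact h

lemma nonunits_of_sq {V : ValuationSubring K} {x : K} (hx : x ^ 2 ∈ V.nonunits) :
    x ∈ V.nonunits := by
  rcases mem_nonunits_or (mem_of_sq_mem (nonunits_mem hx)) with h | h
  · exact h
  · exfalso
    apply not_inv_mem hx (pow_ne_zero _ h.1)
    rw [← inv_pow]
    exact pow_mem h.2 2

lemma IsUnif.not_sq {V : ValuationSubring K} {π : K} (hu : IsUnif V π) (s : K) : s ^ 2 ≠ π := by
  intro hs
  have h1 : s ∈ V.nonunits := nonunits_of_sq (by rw [hs]; exact hu.2.1)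
  have h2 := hu.2.2 s h1
  have hs0 : s ≠ 0 := by
    rintro rfl
    exact hu.1 (by rw [← hs]; ring)
  apply not_inv_mem h1 hs0
  have : s⁻¹ = s / π := by rw [← hs]; field_simp
  rw [this]
  exact h2

end

section

variable {K : Type*} [Field K] [CharP K 2]

lemma unif_sq_ne {V : ValuationSubring K} {π : K} (hu : IsUnif V π) {w ν : K}
    (hν : ν ∈ V.nonunits) : w ^ 2 ≠ π * (1 + ν) := by
  intro h
  obtain ⟨h0, h1⟩ := one_add_unit hν
  have h2 : w ∈ V.nonunits := nonunits_of_sq (by
    rw [h]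
    exact nonunits_mul hu.2.1 (V.add_mem _ _ V.one_mem (nonunits_mem hν)))
  have h3 := hu.2.2 w h2
  have h4 : (w / π) ^ 2 * π * (1 + ν)⁻¹ = 1 := by
    have hπ := hu.1
    rw [div_pow, h]
    field_simp
  have h5 : (w / π) ^ 2 * π * (1 + ν)⁻¹ ∈ V.nonunits :=
    nonunits_mul (nonunits_mul' (pow_mem h3 2) hu.2.1) h1
  rw [h4] at h5
  exact one_notMem_nonunits V h5

/-- The Cartier operator of a uniformizer preserves the valuation ring. -/
lemma unif_cart_mem {V : ValuationSubring K} {π : K} (hu : IsUnif V π) (h : IsTwoBasis π)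
    {g : K} (hg : g ∈ V) : h.cart g ∈ V ∧ h.sqp g ∈ V := by
  have hπ := hu.1
  have h1 := h.eq g
  have h2 : h.cart g ∈ V := by
    by_contra hv
    have hv0 : h.cart g ≠ 0 := by
      intro h0; apply hv; rw [h0]; exact V.zero_mem
    have h3 := notMem_iff_inv_nonunits hv
    have h4 := hu.2.2 _ h3
    have h5 : (h.sqp g / h.cart g) ^ 2 =
        π * (1 + g * ((h.cart g)⁻¹ * ((h.cart g)⁻¹ / π))) := by
      have h6 : (h.sqp g) ^ 2 = g + π * h.cart g ^ 2 := by
        have h7 : π * h.cart g ^ 2 + π * h.cart g ^ 2 = 0 := CharTwo.add_self_eq_zero _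
        linear_combination -h1 - h7
      rw [div_pow, h6]
      field_simp
      ring
    exact unif_sq_ne hu (nonunits_mul' hg (nonunits_mul h3 h4)) h5
  refine ⟨h2, mem_of_sq_mem ?_⟩
  have h6 : (h.sqp g) ^ 2 = g - π * h.cart g ^ 2 := by linear_combination -h1
  rw [h6]
  exact sub_mem hg (V.mul_mem _ _ (nonunits_mem hu.2.1) (pow_mem h2 2))

/-- Local triviality. -/
def LT {t : K} (ht : IsTwoBasis t) (V : ValuationSubring K) (b : K) : Prop :=
  ∀ d : K, d ≠ 0 → ∃ P : K, (b + P + ht.cart P) / d ∈ V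

lemma LT.add {t : K} {ht : IsTwoBasis t} {V : ValuationSubring K} {b c : K} (hb : LT ht V b)
    (hc : LT ht V c) : LT ht V (b + c) := by
  intro d hd
  obtain ⟨P, hP⟩ := hb d hd
  obtain ⟨Q, hQ⟩ := hc d hd
  refine ⟨P + Q, ?_⟩
  have : (b + c + (P + Q) + ht.cart (P + Q)) / d =
      (b + P + ht.cart P) / d + (c + Q + ht.cart Q) / d := by
    rw [ht.cart_add]; ring
  rw [this]
  exact V.add_mem _ _ hP hQ

lemma LT.triv {t : K} (ht : IsTwoBasis t) (V : ValuationSubring K) (P : K) :
    LT ht V (P + ht.cart P) := by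
  intro d _
  refine ⟨P, ?_⟩
  have h1 : ∀ x : K, x + x = 0 := fun x => CharTwo.add_self_eq_zero x
  have : (P + ht.cart P + P + ht.cart P) = 0 := by linear_combination h1 P + h1 (ht.cart P)
  rw [this, zero_div]
  exact V.zero_mem

lemma LT.congr {t : K} {ht : IsTwoBasis t} {V : ValuationSubring K} {b c : K}
    (h : LT ht V (b + c)) : LT ht V b ↔ LT ht V c := by
  have h1 : ∀ x : K, x + x = 0 := fun x => CharTwo.add_self_eq_zero x
  constructor
  · intro hb
    have := hb.add h
    rwa [← add_assoc, h1, zero_add] at this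
  · intro hc
    have := h.add hc
    rwa [add_assoc, h1, add_zero] at this

lemma LT.zero {t : K} (ht : IsTwoBasis t) (V : ValuationSubring K) : LT ht V 0 := by
  have := LT.triv ht V 0
  rwa [ht.cart_zero, add_zero] at this

lemma LT.change {t π : K} (ht : IsTwoBasis t) (h : IsTwoBasis π) {V : ValuationSubring K} {b : K} :
    LT ht V b ↔ LT h V (h.cart t ^ 2 * b) := by
  set κ := h.cart t with hκ
  have hκ0 : κ ≠ 0 := by
    intro h0
    exact ht.not_sq _ (h.eq_sq_of_cart h0).symm
  have hch : ∀ g, h.cart g = κ * ht.cart g := fun g => h.cart_change ht g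
  have key : ∀ P : K, κ ^ 2 * b + κ ^ 2 * P + h.cart (κ ^ 2 * P) =
      κ ^ 2 * (b + P + ht.cart P) := by
    intro P
    rw [h.cart_sq_mul, hch]
    ring
  constructor
  · intro hb d hd
    obtain ⟨P, hP⟩ := hb (d / κ ^ 2) (div_ne_zero hd (pow_ne_zero _ hκ0))
    refine ⟨κ ^ 2 * P, ?_⟩
    rw [key]
    have : κ ^ 2 * (b + P + ht.cart P) / d = (b + P + ht.cart P) / (d / κ ^ 2) := by
      field_simp
    rw [this]
    exact hP
  · intro hb d hd
    obtain ⟨P, hP⟩ := hb (κ ^ 2 * d) (mul_ne_zero (pow_ne_zero _ hκ0) hd)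
    refine ⟨P / κ ^ 2, ?_⟩
    have h1 : κ ^ 2 * (P / κ ^ 2) = P := by field_simp
    have h2 := key (P / κ ^ 2)
    rw [h1] at h2
    rw [h2] at hP
    have : (b + P / κ ^ 2 + ht.cart (P / κ ^ 2)) / d =
        κ ^ 2 * (b + P / κ ^ 2 + ht.cart (P / κ ^ 2)) / (κ ^ 2 * d) := by
      field_simp
    rw [this]
    exact hP

/-- Integral elements are locally trivial for a uniformizer. -/
lemma LT.of_mem_unif {V : ValuationSubring K} (hr : IsRankOne V) {π : K} (hu : IsUnif V π)
    (h : IsTwoBasis π) {b : K} (hb : b ∈ V) : LT h V b := by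
  have h2 : ∀ x : K, x + x = 0 := fun x => CharTwo.add_self_eq_zero x
  have hπV := nonunits_mem hu.2.1
  have key : ∀ n : ℕ, ∃ P : K, ∃ c ∈ V, b + P + h.cart P = π ^ (n + 1) * c ∧ P ∈ V ∧
      ∃ Q ∈ V, P = π * (Q + b) ^ 2 ∧ P + Q = π ^ (n + 1) * c := by
    intro n
    induction n with
    | zero =>
      refine ⟨π * b ^ 2, b ^ 2, pow_mem hb 2, ?_, V.mul_mem _ _ hπV (pow_mem hb 2), 0, V.zero_mem,
        by ring, by ring⟩
      rw [h.cart_theta_mul_sq]
      linear_combination h2 b
    | succ n ih =>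
      obtain ⟨P, c, hc, hP, hPV, Q, hQ, hPQ, hPQ'⟩ := ih
      refine ⟨π * (P + b) ^ 2, π ^ (n + 1) * c ^ 2, V.mul_mem _ _ (pow_mem hπV _) (pow_mem hc 2),
        ?_, V.mul_mem _ _ hπV (pow_mem (V.add_mem _ _ hPV hb) 2), P, hPV, rfl, ?_⟩
      · rw [h.cart_theta_mul_sq]
        have h3 : π * (P + b) ^ 2 + P = π * (P + Q) ^ 2 := by
          nth_rewrite 2 [hPQ]
          simp only [CharTwo.add_sq]
          linear_combination h2 (π * b ^ 2)
        have h4 : b + π * (P + b) ^ 2 + (P + b) = π * (P + Q) ^ 2 := by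
          linear_combination h3 + h2 b
        rw [h4, hPQ']
        ring
      · have h3 : π * (P + b) ^ 2 + P = π * (P + Q) ^ 2 := by
          nth_rewrite 2 [hPQ]
          simp only [CharTwo.add_sq]
          linear_combination h2 (π * b ^ 2)
        rw [h3, hPQ']
        ring
  intro d hd
  obtain ⟨N, hN⟩ := hr π hu.2.1 d hd
  obtain ⟨P, c, hc, hP, -⟩ := key N
  refine ⟨P, ?_⟩
  rw [hP]
  have : π ^ (N + 1) * c / d = π ^ N / d * (π * c) := by rw [pow_succ]; ring
  rw [this]
  exact V.mul_mem _ _ hN (V.mul_mem _ _ hπV hc)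

/-- Reduction of the pole order. -/
lemma LT.reduce {V : ValuationSubring K} {π : K} (hu : IsUnif V π)
    (h : IsTwoBasis π) (n : ℕ) : ∀ b : K, b * π ^ n ∈ V →
      ∃ P : K, (b + P + h.cart P) * π ∈ V := by
  have h2 : ∀ x : K, x + x = 0 := fun x => CharTwo.add_self_eq_zero x
  have hπV := nonunits_mem hu.2.1
  induction n using Nat.strong_induction_on with
  | _ n ih =>
    intro b hb
    by_cases hn : n ≤ 1
    · refine ⟨0, ?_⟩
      rw [h.cart_zero, add_zero, add_zero]
      obtain rfl | rfl : n = 0 ∨ n = 1 := by omega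
      · rw [pow_zero, mul_one] at hb
        exact V.mul_mem _ _ hb hπV
      · rwa [pow_one] at hb
    · push Not at hn
      obtain ⟨m, hm1, hm2⟩ : ∃ m, m < n ∧ n ≤ 2 * m := ⟨(n + 1) / 2, by omega, by omega⟩
      obtain ⟨l, hl⟩ := Nat.exists_eq_add_of_le hm2
      have h3 : h.cart b * π ^ m ∈ V := by
        have h4 : h.cart b * π ^ m = h.cart ((π ^ m) ^ 2 * b) := by rw [h.cart_sq_mul]; ring
        rw [h4]
        apply (unif_cart_mem hu h _).1
        have h5 : (π ^ m) ^ 2 * b = b * π ^ n * π ^ l := by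
          rw [← pow_mul, mul_comm m 2, hl, pow_add]; ring
        rw [h5]
        exact V.mul_mem _ _ hb (pow_mem hπV l)
      obtain ⟨P, hP⟩ := ih m hm1 _ h3
      refine ⟨b + P, ?_⟩
      have h6 : b + (b + P) + h.cart (b + P) = h.cart b + P + h.cart P := by
        rw [h.cart_add]
        linear_combination h2 b
      rw [h6]
      exact hP

/-- The polar part is trivial when its residue is of the form `s² + s`. -/
lemma LT.of_residue {V : ValuationSubring K} (hr : IsRankOne V) {π : K} (hu : IsUnif V π)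
    (h : IsTwoBasis π) {β s : K} (hs : s ∈ V) (hβ : β + s ^ 2 + s ∈ V.nonunits) :
    LT h V (β / π) := by
  have h1 : LT h V (β / π + (s ^ 2 / π + h.cart (s ^ 2 / π))) := by
    apply LT.of_mem_unif hr hu h
    have h2 : h.cart (s ^ 2 / π) = s / π := by
      have h3 : s ^ 2 / π = (s / π) ^ 2 * π := by
        have := hu.1
        field_simp
      rw [h3, h.cart_sq_mul, h.cart_theta, mul_one]
    rw [h2]
    have h4 : β / π + (s ^ 2 / π + s / π) = (β + s ^ 2 + s) / π := by ring
    rw [h4]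
    exact hu.2.2 _ hβ
  exact (LT.congr h1).2 (LT.triv h V _)

/-- The converse. -/
lemma LT.residue {V : ValuationSubring K} (hr : IsRankOne V) {π : K} (hu : IsUnif V π)
    (h : IsTwoBasis π) {γ : K} (hγ : γ ∈ V) (hL : LT h V (γ / π)) :
    ∃ s ∈ V, γ + s ^ 2 + s ∈ V.nonunits := by
  have h2 : ∀ x : K, x + x = 0 := fun x => CharTwo.add_self_eq_zero x
  have hπ := hu.1
  have hπV := nonunits_mem hu.2.1
  obtain ⟨P, hP⟩ := hL 1 one_ne_zero
  rw [div_one] at hP
  -- descent of the pole order of `P`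
  have hdesc : ∀ n : ℕ, P * π ^ n ∈ V → P * π ∈ V := by
    intro n
    induction n with
    | zero => intro h0; rw [pow_zero, mul_one] at h0; exact V.mul_mem _ _ h0 hπV
    | succ n ih =>
      intro hn
      by_cases hn1 : n = 0
      · rw [hn1, zero_add, pow_one] at hn; exact hn
      · apply ih
        obtain ⟨m, hm1, hm2⟩ : ∃ m, m ≤ n ∧ n + 1 ≤ 2 * m := ⟨(n + 2) / 2, by omega, by omega⟩
        obtain ⟨l, hl⟩ := Nat.exists_eq_add_of_le hm2
        obtain ⟨l', hl'⟩ := Nat.exists_eq_add_of_le hm1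
        have h3 : h.cart P * π ^ m ∈ V := by
          have h4 : h.cart P * π ^ m = h.cart ((π ^ m) ^ 2 * P) := by rw [h.cart_sq_mul]; ring
          rw [h4]
          apply (unif_cart_mem hu h _).1
          have h5 : (π ^ m) ^ 2 * P = P * π ^ (n + 1) * π ^ l := by
            rw [← pow_mul, mul_comm m 2, hl, pow_add]; ring
          rw [h5]
          exact V.mul_mem _ _ hn (pow_mem hπV l)
        have h6 : P * π ^ n = (γ / π + P + h.cart P) * π ^ n + γ * π ^ (n - 1) +
            h.cart P * π ^ m * π ^ l' := by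
          obtain ⟨j, rfl⟩ := Nat.exists_eq_succ_of_ne_zero hn1
          have h7 : γ / π * π ^ (j.succ) = γ * π ^ j := by
            rw [Nat.succ_eq_add_one, pow_succ]; field_simp
          have h8 : h.cart P * π ^ m * π ^ l' = h.cart P * π ^ (j.succ) := by
            rw [hl', pow_add]; ring
          rw [h8, add_mul, add_mul, h7]
          simp only [Nat.succ_eq_add_one, Nat.add_sub_cancel]
          linear_combination -h2 (γ * π ^ j) - h2 (h.cart P * π ^ (j + 1))
        rw [h6]
        exact V.add_mem _ _ (V.add_mem _ _ (V.mul_mem _ _ hP (pow_mem hπV n))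
          (V.mul_mem _ _ hγ (pow_mem hπV _))) (V.mul_mem _ _ h3 (pow_mem hπV _))
  have hPπ : P * π ∈ V := by
    by_cases hP0 : P = 0
    · rw [hP0, zero_mul]; exact V.zero_mem
    obtain ⟨N, hN⟩ := hr π hu.2.1 P⁻¹ (inv_ne_zero hP0)
    apply hdesc N
    rwa [div_inv_eq_mul, mul_comm] at hN
  set p := P * π with hp
  have hcart : h.cart P = h.sqp p / π := by
    have h3 : P = (1 / π) ^ 2 * (π * p) := by rw [hp]; field_simp
    rw [h3, h.cart_sq_mul, h.cart_theta_mul]
    ring
  obtain ⟨hr', hs'⟩ := unif_cart_mem hu h hPπ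
  refine ⟨h.sqp p, hs', ?_⟩
  have h5 := h.eq p
  have h6 : γ + h.sqp p ^ 2 + h.sqp p = (γ / π + P + h.cart P) * π + π * h.cart p ^ 2 := by
    rw [hcart]
    have h7 : (γ / π + P + h.sqp p / π) * π = γ + p + h.sqp p := by
      rw [hp]; field_simp
    rw [h7]
    linear_combination -h5 - h2 (π * h.cart p ^ 2)
  rw [h6]
  exact nonunits_add (nonunits_mul' hP hu.2.1) (nonunits_mul hu.2.1 (pow_mem hr' 2))

end

/-- In a finite field of characteristic two the image of `s² + s` has index two. -/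
lemma finite_AS (κ : Type*) [Field κ] [Finite κ] [CharP κ 2] :
    (∀ x y : κ, (∀ s, x ≠ s ^ 2 + s) → (∀ s, y ≠ s ^ 2 + s) → ∃ s, x + y = s ^ 2 + s) ∧
    ∃ x : κ, ∀ s, x ≠ s ^ 2 + s := by
  let f : κ →+ κ :=
    { toFun := fun s => s ^ 2 + s
      map_zero' := by ring
      map_add' := by
        intro x y
        rw [CharTwo.add_sq]; ring }
  have hker : Nat.card f.ker = 2 := by
    have h1 : (f.ker : Set κ) = {0, 1} := by
      ext x
      simp only [SetLike.mem_coe, AddMonoidHom.mem_ker, Set.mem_insert_iff,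
        Set.mem_singleton_iff]
      change x ^ 2 + x = 0 ↔ _
      constructor
      · intro h
        have h2 : x * (x + 1) = 0 := by linear_combination h
        rcases mul_eq_zero.1 h2 with h3 | h3
        · exact Or.inl h3
        · right
          exact CharTwo.add_eq_zero.1 h3
      · rintro (rfl | rfl)
        · ring
        · rw [one_pow]; exact CharTwo.add_self_eq_zero 1
    have h2 : Nat.card f.ker = Nat.card ({0, 1} : Set κ) := by
      rw [← h1]; rfl
    rw [h2, Nat.card_coe_set_eq, Set.ncard_pair zero_ne_one]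
  have hidx : f.range.index = 2 := by
    have h1 : Nat.card f.range * f.range.index = Nat.card κ := AddSubgroup.card_mul_index _
    have h2 : Nat.card f.ker * f.ker.index = Nat.card κ := AddSubgroup.card_mul_index _
    have h3 : f.ker.index = Nat.card f.range := AddSubgroup.index_ker f
    rw [h3, hker] at h2
    have h4 : Nat.card f.range ≠ 0 := Nat.card_ne_zero.2 ⟨⟨0⟩, inferInstance⟩
    have h5 : Nat.card f.range * f.range.index = Nat.card f.range * 2 := by
      rw [h1, ← h2]; ring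
    exact Nat.eq_of_mul_eq_mul_left (Nat.pos_of_ne_zero h4) h5
  constructor
  · intro x y hx hy
    have hx' : x ∉ f.range := by
      rintro ⟨s, hs⟩
      exact hx s hs.symm
    have hy' : y ∉ f.range := by
      rintro ⟨s, hs⟩
      exact hy s hs.symm
    have h1 := (AddSubgroup.add_mem_iff_of_index_two hidx (a := x) (b := y)).2 (by tauto)
    obtain ⟨s, hs⟩ := h1
    exact ⟨s, hs.symm⟩
  · by_contra hcon
    push Not at hcon
    have : f.range = ⊤ := by
      rw [eq_top_iff]
      intro x _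
      obtain ⟨s, hs⟩ := hcon x
      exact ⟨s, hs.symm⟩
    rw [this, AddSubgroup.index_top] at hidx
    omega

section

variable {K : Type*} [Field K] [CharP K 2]

lemma LT.two_unif {V : ValuationSubring K} (hr : IsRankOne V)
    [Finite (IsLocalRing.ResidueField V)] {π : K} (hu : IsUnif V π)
    (h : IsTwoBasis π) {b c : K} (hb : ¬ LT h V b) (hc : ¬ LT h V c) : LT h V (b + c) := by
  have hchar := charP_residue V
  have hπ := hu.1
  have hred : ∀ b : K, ∃ β ∈ V, ∃ P, b + P + h.cart P = β / π := by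
    intro b
    obtain ⟨N, hN⟩ : ∃ N : ℕ, b * π ^ N ∈ V := by
      by_cases hb0 : b = 0
      · exact ⟨0, by rw [hb0, zero_mul]; exact V.zero_mem⟩
      · obtain ⟨N, hN⟩ := hr π hu.2.1 b⁻¹ (inv_ne_zero hb0)
        exact ⟨N, by rwa [div_inv_eq_mul, mul_comm] at hN⟩
    obtain ⟨P, hP⟩ := LT.reduce hu h N b hN
    exact ⟨_, hP, P, by field_simp⟩
  obtain ⟨β, hβ, P, hP⟩ := hred b
  obtain ⟨γ, hγ, Q, hQ⟩ := hred c
  have hb' : ¬ LT h V (β / π) := by
    rw [← hP, add_assoc]
    intro hcon
    exact hb ((LT.congr hcon).2 (LT.triv h V P))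
  have hc' : ¬ LT h V (γ / π) := by
    rw [← hQ, add_assoc]
    intro hcon
    exact hc ((LT.congr hcon).2 (LT.triv h V Q))
  let res := IsLocalRing.residue V
  have hns : ∀ (β : K) (hβ : β ∈ V), ¬ LT h V (β / π) →
      ∀ s : IsLocalRing.ResidueField V, res ⟨β, hβ⟩ ≠ s ^ 2 + s := by
    intro β hβ hL s hs
    obtain ⟨s', rfl⟩ := IsLocalRing.residue_surjective s
    apply hL
    apply LT.of_residue hr hu h s'.2
    have h3 : res (⟨β, hβ⟩ + s' ^ 2 + s') = 0 := by
      rw [map_add, map_add, map_pow, hs]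
      have h4 : ∀ x : IsLocalRing.ResidueField V, x + x = 0 :=
        fun x => CharTwo.add_self_eq_zero x
      linear_combination h4 ((res s') ^ 2) + h4 (res s')
    exact mem_nonunits_of_residue h3
  obtain ⟨s, hs⟩ := (finite_AS (IsLocalRing.ResidueField V)).1 _ _ (hns β hβ hb') (hns γ hγ hc')
  obtain ⟨s', rfl⟩ := IsLocalRing.residue_surjective s
  have h5 : LT h V ((β + γ) / π) := by
    apply LT.of_residue hr hu h s'.2
    have h3 : res (⟨β, hβ⟩ + ⟨γ, hγ⟩ + s' ^ 2 + s') = 0 := by
      rw [map_add, map_add, map_add, map_pow, hs]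
      have h4 : ∀ x : IsLocalRing.ResidueField V, x + x = 0 :=
        fun x => CharTwo.add_self_eq_zero x
      linear_combination h4 ((res s') ^ 2) + h4 (res s')
    exact mem_nonunits_of_residue h3
  have h6 : (β + γ) / π = (b + c) + ((P + Q) + h.cart (P + Q)) := by
    rw [add_div, ← hP, ← hQ, h.cart_add]; ring
  rw [h6] at h5
  exact (LT.congr h5).2 (LT.triv h V _)

lemma LT.exists_not_unif {V : ValuationSubring K} (hr : IsRankOne V)
    [Finite (IsLocalRing.ResidueField V)] {π : K} (hu : IsUnif V π)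
    (h : IsTwoBasis π) : ∃ b : K, ¬ LT h V b := by
  have hchar := charP_residue V
  obtain ⟨x, hx⟩ := (finite_AS (IsLocalRing.ResidueField V)).2
  obtain ⟨γ, rfl⟩ := IsLocalRing.residue_surjective x
  refine ⟨γ / π, fun hL => ?_⟩
  obtain ⟨s, hs, hs'⟩ := LT.residue hr hu h γ.2 hL
  apply hx (IsLocalRing.residue V ⟨s, hs⟩)
  have h1 := residue_of_mem_nonunits (x := γ + ⟨s, hs⟩ ^ 2 + ⟨s, hs⟩) hs'
  rw [map_add, map_add, map_pow] at h1
  have h4 : ∀ x : IsLocalRing.ResidueField V, x + x = 0 := fun x => CharTwo.add_self_eq_zero x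
  linear_combination h1 - h4 (IsLocalRing.residue V ⟨s, hs⟩ ^ 2) -
    h4 (IsLocalRing.residue V ⟨s, hs⟩)

end

end Pool.Agent.Helper26
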