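import Mathlib
import Pool.Agent.Helper26.GlobalFacts

set_option autoImplicit false
set_option linter.unusedSectionVars false

/-!
# Every place is the unique pole of an element
-/

universe u v

namespace Pool.Agent.Helper26

open Polynomial IsDedekindDomain WithZero

section

variable {F : Type v} {K : Type u} [Field F] [Finite F] [Field K]
  [Algebra F[X] K] [Algebra (RatFunc F) K] [IsScalarTower F[X] (RatFunc F) K]

lemma poly_infty {V : ValuationSubring K} (hV : algebraMap (RatFunc F) K RatFunc.X ∉ V)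
    (p : F[X]) (n : ℕ) (hn : p.natDegree ≤ n) :
    algebraMap F[X] K p / (algebraMap (RatFunc F) K RatFunc.X) ^ n ∈ V := by
  have hX : algebraMap (RatFunc F) K RatFunc.X = algebraMap F[X] K X := by
    rw [← RatFunc.algebraMap_X, ← IsScalarTower.algebraMap_apply F[X] (RatFunc F) K]
  set τ := algebraMap (RatFunc F) K RatFunc.X with hτ
  have hinv : τ⁻¹ ∈ V := nonunits_mem (notMem_iff_inv_nonunits hV)
  have hτ0 : τ ≠ 0 := by rintro h; exact hV (by rw [h]; exact V.zero_mem)
  rw [p.as_sum_range' (n + 1) (by omega), map_sum, Finset.sum_div]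
  refine sum_mem fun i hi => ?_
  rw [Finset.mem_range] at hi
  rw [← C_mul_X_pow_eq_monomial, map_mul, map_pow, ← hX]
  obtain ⟨m, hm⟩ := Nat.exists_eq_add_of_le (Nat.lt_succ_iff.1 hi)
  have h1 : algebraMap F[X] K (C (p.coeff i)) * τ ^ i / τ ^ n =
      algebraMap F[X] K (C (p.coeff i)) * τ⁻¹ ^ m := by
    rw [hm, pow_add, inv_pow]; field_simp
  rw [h1]
  exact V.mul_mem _ _ (finite_mem_valuationSubring ((algebraMap F[X] K).comp C) V _)
    (pow_mem hinv m)

lemma poly_infty_unit {V : ValuationSubring K} (hV : algebraMap (RatFunc F) K RatFunc.X ∉ V)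
    (p : F[X]) (hp : p ≠ 0) :
    (algebraMap F[X] K p / (algebraMap (RatFunc F) K RatFunc.X) ^ p.natDegree)⁻¹ ∈ V := by
  have hX : algebraMap (RatFunc F) K RatFunc.X = algebraMap F[X] K X := by
    rw [← RatFunc.algebraMap_X, ← IsScalarTower.algebraMap_apply F[X] (RatFunc F) K]
  set τ := algebraMap (RatFunc F) K RatFunc.X with hτ
  have hinv : τ⁻¹ ∈ V.nonunits := notMem_iff_inv_nonunits hV
  have hτ0 : τ ≠ 0 := by rintro h; exact hV (by rw [h]; exact V.zero_mem)
  set f : F →+* K := (algebraMap F[X] K).comp C with hf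
  have hl : p.leadingCoeff ≠ 0 := leadingCoeff_ne_zero.2 hp
  have hl' : f p.leadingCoeff ≠ 0 := by rw [Ne, map_eq_zero]; exact hl
  have h1 : algebraMap F[X] K p / τ ^ p.natDegree =
      f p.leadingCoeff * (1 + algebraMap F[X] K p.eraseLead / τ ^ p.natDegree *
        (f p.leadingCoeff)⁻¹) := by
    nth_rewrite 1 [← eraseLead_add_C_mul_X_pow p]
    rw [map_add, map_mul, map_pow, ← hX]
    change _ = _
    have : algebraMap F[X] K (C p.leadingCoeff) = f p.leadingCoeff := rfl
    rw [this]
    field_simp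
    ring
  have h2 : algebraMap F[X] K p.eraseLead / τ ^ p.natDegree ∈ V.nonunits := by
    rcases Nat.eq_zero_or_pos p.natDegree with h0 | h0
    · have : p.eraseLead = 0 := by
        rw [eq_C_of_natDegree_eq_zero h0, eraseLead_C]
      rw [this, map_zero, zero_div]
      exact (nonunits_iff V 0).2 (Or.inl rfl)
    · obtain ⟨m, hm⟩ := Nat.exists_eq_add_of_lt h0
      have hm' : p.natDegree = m + 1 := by omega
      have h3 : algebraMap F[X] K p.eraseLead / τ ^ p.natDegree =
          algebraMap F[X] K p.eraseLead / τ ^ m * τ⁻¹ := by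
        rw [hm', pow_succ]; field_simp
      rw [h3]
      refine nonunits_mul' (poly_infty hV _ _ ?_) hinv
      have := eraseLead_natDegree_le p
      omega
  rw [h1, mul_inv, ← map_inv₀]
  refine V.mul_mem _ _ (finite_mem_valuationSubring f V _) (one_add_unit ?_).2
  refine nonunits_mul h2 ?_
  exact finite_mem_valuationSubring f V _

lemma proper_mem {V : ValuationSubring K} (hV : algebraMap (RatFunc F) K RatFunc.X ∉ V)
    (n d : F[X]) (hd : d ≠ 0) (h : n.natDegree ≤ d.natDegree) :
    algebraMap F[X] K n / algebraMap F[X] K d ∈ V := by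
  have hτ0 : algebraMap (RatFunc F) K RatFunc.X ≠ 0 := by
    rintro h; exact hV (by rw [h]; exact V.zero_mem)
  have h1 := V.mul_mem _ _ (poly_infty hV n d.natDegree h) (poly_infty_unit hV d hd)
  have h2 : algebraMap F[X] K n / algebraMap (RatFunc F) K RatFunc.X ^ d.natDegree *
      (algebraMap F[X] K d / algebraMap (RatFunc F) K RatFunc.X ^ d.natDegree)⁻¹ =
      algebraMap F[X] K n / algebraMap F[X] K d := by
    rw [inv_div]; field_simp
  rwa [h2] at h1

/-- Polynomial part of a rational function. -/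
lemma ratFunc_decomp (f : RatFunc F) (M : ℕ) : ∃ (A B : F[X]) (r : RatFunc F),
    B.natDegree ≤ M ∧ RatFunc.X ^ M * f = RatFunc.X ^ M * algebraMap F[X] (RatFunc F) A +
      algebraMap F[X] (RatFunc F) B + r ∧
      ∀ V : ValuationSubring K, algebraMap (RatFunc F) K RatFunc.X ∉ V →
        algebraMap (RatFunc F) K r ∈ V := by
  obtain ⟨n, d, hd, rfl⟩ := IsFractionRing.div_surjective (A := F[X]) f
  have hd0 : d ≠ 0 := nonZeroDivisors.ne_zero hd
  have hdR : algebraMap F[X] (RatFunc F) d ≠ 0 := by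
    intro h
    exact hd0 (IsFractionRing.injective F[X] (RatFunc F) (by rw [h, map_zero]))
  set N := X ^ M * n with hN
  set q := N / d with hq
  refine ⟨q / X ^ M, q % X ^ M, algebraMap F[X] (RatFunc F) (N % d) /
    algebraMap F[X] (RatFunc F) d, ?_, ?_, ?_⟩
  · have h1 : (q % X ^ M).degree < (M : WithBot ℕ) := by
      have := EuclideanDomain.mod_lt q (pow_ne_zero M (X_ne_zero (R := F)))
      have h2 : (q % X ^ M).degree < (X ^ M : F[X]).degree := this
      rwa [degree_X_pow] at h2
    exact natDegree_le_of_degree_le h1.le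
  · have h1 := congrArg (algebraMap F[X] (RatFunc F)) (EuclideanDomain.div_add_mod N d)
    have h2 := congrArg (algebraMap F[X] (RatFunc F)) (EuclideanDomain.div_add_mod q (X ^ M))
    rw [map_add, map_mul, map_pow, RatFunc.algebraMap_X] at h2
    rw [map_add, map_mul, hN, map_mul, map_pow, RatFunc.algebraMap_X, ← hN, ← hq] at h1
    rw [h2]
    field_simp
    linear_combination -h1
  · intro V hV
    rw [map_div₀, ← IsScalarTower.algebraMap_apply, ← IsScalarTower.algebraMap_apply]
    apply proper_mem hV _ _ hd0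
    have h3 : (N % d).degree < d.degree := EuclideanDomain.mod_lt N hd0
    exact (natDegree_le_natDegree h3.le)

end

section

variable {F : Type v} {K : Type u} [Field F] [Finite F] [CharP F 2] [Field K] [CharP K 2]
  [Algebra F[X] K] [Algebra (RatFunc F) K]
  [IsScalarTower F[X] (RatFunc F) K] [FunctionField F K] [Algebra.IsSeparable (RatFunc F) K]

/-- A generator of a power of a prime. -/
lemma exists_generator (w : HeightOneSpectrum (OK F K)) : ∃ g : OK F K, g ≠ 0 ∧ g ∈ w.asIdeal ∧
    ∀ w' : HeightOneSpectrum (OK F K), w' ≠ w → g ∉ w'.asIdeal := by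
  classical
  have := Fintype.ofFinite F
  set h := Fintype.card (ClassGroup (OK F K)) with hh
  have hw0 : w.asIdeal ∈ nonZeroDivisors (Ideal (OK F K)) := mem_nonZeroDivisors_of_ne_zero w.ne_bot
  have h1 : ClassGroup.mk0 (⟨w.asIdeal, hw0⟩ ^ h) = 1 := by
    rw [map_pow, hh, pow_card_eq_one]
  rw [ClassGroup.mk0_eq_one_iff] at h1
  obtain ⟨g, hg⟩ := h1
  have hg' : w.asIdeal ^ h = Ideal.span {g} := hg
  have hg0 : g ≠ 0 := by
    rintro rfl
    rw [Ideal.span_singleton_eq_bot.2 rfl] at hg'
    exact pow_ne_zero _ w.ne_bot hg'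
  have hh0 : h ≠ 0 := Fintype.card_ne_zero
  refine ⟨g, hg0, ?_, ?_⟩
  · have h2 : g ∈ Ideal.span {g} := Ideal.mem_span_singleton_self g
    rw [← hg'] at h2
    exact Ideal.pow_le_self hh0 h2
  · intro w' hne hmem
    have h2 : w.asIdeal ^ h ≤ w'.asIdeal := by
      rw [hg', Ideal.span_singleton_le_iff_mem]; exact hmem
    have h3 : w.asIdeal ≤ w'.asIdeal := (w'.isPrime.pow_le_iff hh0).1 h2
    have h4 : w.asIdeal = w'.asIdeal := w.isMaximal.eq_of_le w'.isPrime.ne_top h3
    exact hne (HeightOneSpectrum.ext h4.symm)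

lemma exists_unique_pole (hr1 : ∀ V : ValuationSubring K, V ≠ ⊤ → IsRankOne V)
    (hfin : {V : ValuationSubring K | algebraMap (RatFunc F) K RatFunc.X ∉ V}.Finite)
    (w : HeightOneSpectrum (OK F K)) :
    ∃ τ : K, τ ∉ placeOf K w ∧ ∀ V : ValuationSubring K, V ≠ ⊤ → V ≠ placeOf K w → τ ∈ V := by
  classical
  obtain ⟨g, hg0, hgw, hgw'⟩ := exists_generator w
  set T := algebraMap (RatFunc F) K RatFunc.X with hT
  have hfd : FiniteDimensional (RatFunc F) K := ‹FunctionField F K›
  obtain ⟨s, b, hb⟩ := FiniteDimensional.exists_is_basis_integral F[X] (RatFunc F) K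
  -- bound for the poles at infinity
  obtain ⟨M, hM⟩ : ∃ M : ℕ, ∀ V : ValuationSubring K, T ∉ V → ∀ j, b j / T ^ M ∈ V := by
    have h1 : ∀ V : ValuationSubring K, T ∉ V → ∀ j, ∃ n : ℕ, T⁻¹ ^ n / (b j)⁻¹ ∈ V := by
      intro V hV j
      have hVt : V ≠ ⊤ := by rintro rfl; exact hV trivial
      exact hr1 V hVt _ (notMem_iff_inv_nonunits hV) _ (inv_ne_zero (b.ne_zero j))
    choose! n hn using h1
    refine ⟨∑ V ∈ hfin.toFinset, ∑ j, n V j, fun V hV j => ?_⟩
    have h2 : n V j ≤ ∑ V ∈ hfin.toFinset, ∑ j, n V j := by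
      refine le_trans (Finset.single_le_sum (f := n V) (fun _ _ => Nat.zero_le _)
        (Finset.mem_univ j)) ?_
      exact Finset.single_le_sum (f := fun V => ∑ j, n V j) (fun _ _ => Nat.zero_le _)
        ((Set.Finite.mem_toFinset _).2 hV)
    obtain ⟨m, hm⟩ := Nat.exists_eq_add_of_le h2
    have h3 : b j / T ^ (∑ V ∈ hfin.toFinset, ∑ j, n V j) =
        T⁻¹ ^ (n V j) / (b j)⁻¹ * T⁻¹ ^ m := by
      rw [hm, pow_add, inv_pow, inv_pow]; field_simp
    rw [h3]
    exact V.mul_mem _ _ (hn V hV j) (pow_mem (nonunits_mem (notMem_iff_inv_nonunits hV)) m)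
  set σ := (algebraMap (OK F K) K g)⁻¹ with hσ
  have hdec : ∀ (m : ℕ) (j : s), ∃ (A B : F[X]) (r : RatFunc F),
      B.natDegree ≤ M ∧ RatFunc.X ^ M * (b.repr (σ ^ m) j) =
      RatFunc.X ^ M * algebraMap F[X] (RatFunc F) A +
      algebraMap F[X] (RatFunc F) B + r ∧
      ∀ V : ValuationSubring K, algebraMap (RatFunc F) K RatFunc.X ∉ V →
        algebraMap (RatFunc F) K r ∈ V := fun m j => ratFunc_decomp _ M
  choose A B r hB hAB hr using hdec
  have := finite_natDegree_le (F := F) M
  obtain ⟨m, l, hml, heq⟩ := Finite.exists_ne_map_eq_of_infinite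
    (fun m : ℕ => fun j : s => (⟨B m j, hB m j⟩ : {p : F[X] // p.natDegree ≤ M}))
  have hBeq : ∀ j, B m j = B l j := fun j => congrArg Subtype.val (congrFun heq j)
  have hbOK : ∀ j, ∃ y : OK F K, algebraMap (OK F K) K y = b j := fun j => ⟨⟨b j, hb j⟩, rfl⟩
  choose y hy using hbOK
  set a : OK F K := ∑ j, (A m j - A l j) • y j with ha
  have haK : algebraMap (OK F K) K a =
      ∑ j, algebraMap F[X] K (A m j - A l j) * b j := by
    rw [ha, map_sum]
    refine Finset.sum_congr rfl fun j _ => ?_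
    rw [Algebra.smul_def, map_mul, hy, ← IsScalarTower.algebraMap_apply F[X] (OK F K) K]
  have hR : ∀ x : OK F K, algebraMap (OK F K) K x ∈ placeOf K w :=
    fun x => HeightOneSpectrum.valuation_le_one w x
  refine ⟨σ ^ m - σ ^ l - algebraMap (OK F K) K a, ?_, ?_⟩
  · intro hcon
    have h1 : σ ^ m - σ ^ l ∈ placeOf K w := by
      have := add_mem hcon (hR a)
      rwa [sub_add_cancel] at this
    have hσ1 : 1 < w.valuation K σ := by
      rw [hσ, map_inv₀]
      refine (one_lt_inv₀ ?_).2 ((HeightOneSpectrum.valuation_lt_one_iff_mem _ _).2 hgw)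
      rw [zero_lt_iff, Valuation.ne_zero_iff]
      intro h0
      exact hg0 ((IsFractionRing.injective (OK F K) K) (by rw [h0, map_zero]))
    have key : ∀ m l : ℕ, l < m → σ ^ m - σ ^ l ∈ placeOf K w → False := by
      intro m l hlt h
      have h2 : w.valuation K (σ ^ m) ≤ max (w.valuation K (σ ^ m - σ ^ l))
          (w.valuation K (σ ^ l)) := by
        have := Valuation.map_add (w.valuation K) (σ ^ m - σ ^ l) (σ ^ l)
        rwa [sub_add_cancel] at this
      have h3 : w.valuation K (σ ^ m) ≤ w.valuation K (σ ^ l) := by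
        refine h2.trans (max_le ?_ le_rfl)
        refine (h : w.valuation K (σ ^ m - σ ^ l) ≤ 1).trans ?_
        rw [map_pow]
        exact one_le_pow₀ hσ1.le
      rw [map_pow, map_pow] at h3
      exact absurd (pow_lt_pow_right₀ hσ1 hlt) (not_lt.2 h3)
    rcases lt_or_gt_of_ne hml with h | h
    · apply key l m h
      have := neg_mem h1
      rwa [neg_sub] at this
    · exact key m l h h1
  · intro V hV hVw
    by_cases hXV : T ∈ V
    · obtain ⟨w', hw'⟩ := exists_placeOf_eq hV (mem_of_integral_X hXV)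
      have hne : w' ≠ w := by
        rintro rfl
        exact hVw hw'.symm
      have hσV : σ ∈ V := by
        rw [← hw', mem_placeOf, hσ, map_inv₀,
          (HeightOneSpectrum.valuation_eq_one_iff_notMem _).2 (hgw' w' hne), inv_one]
      exact sub_mem (sub_mem (pow_mem hσV m) (pow_mem hσV l)) (mem_of_integral_X hXV a)
    · have hT0 : T ≠ 0 := by rintro h; exact hXV (by rw [h]; exact V.zero_mem)
      have h1 : σ ^ m - σ ^ l - algebraMap (OK F K) K a =
          ∑ j, algebraMap (RatFunc F) K (r m j - r l j) * (b j / T ^ M) := by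
        have h2 : σ ^ m - σ ^ l =
            ∑ j, algebraMap (RatFunc F) K (b.repr (σ ^ m) j - b.repr (σ ^ l) j) * b j := by
          conv_lhs => rw [← b.sum_repr (σ ^ m), ← b.sum_repr (σ ^ l)]
          rw [← Finset.sum_sub_distrib]
          refine Finset.sum_congr rfl fun j _ => ?_
          rw [Algebra.smul_def, Algebra.smul_def, map_sub]
          ring
        rw [h2, haK, ← Finset.sum_sub_distrib]
        refine Finset.sum_congr rfl fun j _ => ?_
        have e1 := congrArg (algebraMap (RatFunc F) K) (hAB m j)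
        have e2 := congrArg (algebraMap (RatFunc F) K) (hAB l j)
        simp only [map_add, map_mul, map_pow, ← hT] at e1 e2
        rw [← IsScalarTower.algebraMap_apply F[X] (RatFunc F) K,
          ← IsScalarTower.algebraMap_apply F[X] (RatFunc F) K] at e1 e2
        rw [hBeq j] at e1
        rw [map_sub, map_sub, map_sub]
        field_simp
        linear_combination (b j) * (e1 - e2)
      rw [h1]
      refine sum_mem fun j _ => V.mul_mem _ _ ?_ (hM V hXV j)
      rw [map_sub]
      exact sub_mem (hr m j V hXV) (hr l j V hXV)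

end

section

variable {F : Type v} {k : Type u} [Field F] [Finite F] [CharP F 2] [Field k] [CharP k 2]

/-- Every place integral at `X` is the unique pole of a separating element. -/
lemma GoodEmb.hasPole {φ : RatFunc F →+* k} (hφ : GoodEmb φ) {P : ValuationSubring k}
    (hP : P ≠ ⊤) (hX : φ RatFunc.X ∈ P) : HasPole.{u, v} P := by
  let _ : Algebra (RatFunc F) k := φ.toAlgebra
  let _ : Algebra F[X] k := (φ.comp (algebraMap F[X] (RatFunc F))).toAlgebra
  have _ : IsScalarTower F[X] (RatFunc F) k := IsScalarTower.of_algebraMap_eq fun x => rfl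
  have _ : FunctionField F k := hφ.1
  have _ : Algebra.IsSeparable (RatFunc F) k := hφ.2
  obtain ⟨w, hw⟩ := exists_placeOf_eq (R := OK F k) hP (mem_of_integral_X (F := F) hX)
  obtain ⟨τ, hτP, hτ⟩ := exists_unique_pole (F := F) (fun V hV => hφ.rankOne hV)
    (hφ.hfin _) w
  rw [hw] at hτP hτ
  have hτ0 : w.valuation k τ ≠ 0 := by
    rw [Valuation.ne_zero_iff]
    rintro rfl
    exact hτP P.zero_mem
  have hlog : 0 < log (w.valuation k τ) := by
    rw [← hw, mem_placeOf, not_le] at hτP
    rwa [lt_log_iff_exp_lt hτ0, exp_zero]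
  obtain ⟨n, hn⟩ := Int.eq_ofNat_of_zero_le hlog.le
  obtain ⟨σ, hσsq, hσP, hσall⟩ := exists_nonsquare_pole P w hw n τ
    (by rw [← exp_log hτ0, hn]) (by omega) hτ
  obtain ⟨ψ, hψ, hψX⟩ := hφ.change σ hσsq ⟨P, hσP⟩
  exact ⟨F, inferInstance, inferInstance, inferInstance, ψ, hψ, by rw [hψX]; exact hσP,
    fun V hV hVw => by rw [hψX]; exact hσall V hV hVw⟩

end

end Pool.Agent.Helper26
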