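import Mathlib
import Pool.Agent.Helper26.LocT
import Pool.Agent.Helper26.PoleGen

set_option autoImplicit false
set_option linter.unusedSectionVars false

/-!
# The global theory: local-global principle, strong approximation and reciprocity
-/

universe u v

namespace Pool.Agent.Helper26

open Polynomial IsDedekindDomain WithZero

section

variable {F : Type v} {k : Type u} [Field F] [Finite F] [CharP F 2] [Field k] [CharP k 2]

lemma GoodEmb.exists_unif {φ : RatFunc F →+* k} (hφ : GoodEmb φ) {V : ValuationSubring k}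
    (hV : V ≠ ⊤) : ∃ π : k, IsUnif V π := by
  obtain ⟨ψ, hψ, hX⟩ := hφ.exists_chart V
  let _ : Algebra (RatFunc F) k := ψ.toAlgebra
  let _ : Algebra F[X] k := (ψ.comp (algebraMap F[X] (RatFunc F))).toAlgebra
  have _ : IsScalarTower F[X] (RatFunc F) k := IsScalarTower.of_algebraMap_eq fun x => rfl
  have _ : FunctionField F k := hψ.1
  have _ : Algebra.IsSeparable (RatFunc F) k := hψ.2
  obtain ⟨w, rfl⟩ := exists_placeOf_eq (R := OK F k) hV (mem_of_integral_X (F := F) hX)
  obtain ⟨π, hπ⟩ := w.valuation_exists_uniformizer k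
  have hπ0 : π ≠ 0 := by
    rintro rfl
    rw [map_zero] at hπ
    exact exp_ne_zero hπ.symm
  refine ⟨π, hπ0, ?_, ?_⟩
  · rw [mem_nonunits_placeOf, hπ, ← exp_zero, exp_lt_exp]
    norm_num
  · intro x hx
    rw [mem_nonunits_placeOf] at hx
    rw [mem_placeOf, map_div₀, hπ]
    by_cases hx0 : x = 0
    · rw [hx0, map_zero, zero_div]; exact zero_le_one
    have h0 : w.valuation k x ≠ 0 := (Valuation.ne_zero_iff _).2 hx0
    rw [← exp_log h0] at hx ⊢
    rw [← exp_zero, exp_lt_exp] at hx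
    rw [← exp_sub, ← exp_zero, exp_le_exp]
    omega

lemma GoodEmb.LT_add {φ : RatFunc F →+* k} (hφ : GoodEmb φ) {V : ValuationSubring k}
    (hV : V ≠ ⊤) {t : k} {ht : IsTwoBasis t} {b c : k} (hb : ¬ LT ht V b) (hc : ¬ LT ht V c) :
    LT ht V (b + c) := by
  obtain ⟨π, hu⟩ := hφ.exists_unif hV
  have h := ht.of_not_sq hu.not_sq
  have := hφ.finite_residue hV
  rw [LT.change ht h] at hb hc ⊢
  rw [mul_add]
  exact LT.two_unif (hφ.rankOne hV) hu h hb hc

lemma GoodEmb.exists_not_LT {φ : RatFunc F →+* k} (hφ : GoodEmb φ) {V : ValuationSubring k}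
    (hV : V ≠ ⊤) {t : k} (ht : IsTwoBasis t) : ∃ b : k, ¬ LT ht V b := by
  obtain ⟨π, hu⟩ := hφ.exists_unif hV
  have h := ht.of_not_sq hu.not_sq
  have := hφ.finite_residue hV
  obtain ⟨b, hb⟩ := LT.exists_not_unif (hφ.rankOne hV) hu h
  have hκ0 : h.cart t ≠ 0 := by
    intro h0
    exact ht.not_sq _ (h.eq_sq_of_cart h0).symm
  refine ⟨b / h.cart t ^ 2, ?_⟩
  rw [LT.change ht h]
  have : h.cart t ^ 2 * (b / h.cart t ^ 2) = b := by field_simp
  rwa [this]

lemma GoodEmb.LT_of_mem {φ : RatFunc F →+* k} (hφ : GoodEmb φ) {V : ValuationSubring k}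
    (hV : V ≠ ⊤) {t : k} (ht : IsTwoBasis t) (htV : t ∈ V) {b : k} (hb : b ∈ V) :
    LT ht V b := by
  obtain ⟨π, hu⟩ := hφ.exists_unif hV
  have h := ht.of_not_sq hu.not_sq
  rw [LT.change ht h]
  exact LT.of_mem_unif (hφ.rankOne hV) hu h
    (V.mul_mem _ _ (pow_mem (unif_cart_mem hu h htV).1 2) hb)

lemma GoodEmb.LT_small {φ : RatFunc F →+* k} (hφ : GoodEmb φ) {V : ValuationSubring k}
    (hV : V ≠ ⊤) {t : k} (ht : IsTwoBasis t) :
    ∃ d : k, d ≠ 0 ∧ ∀ b : k, b / d ∈ V → LT ht V b := by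
  obtain ⟨π, hu⟩ := hφ.exists_unif hV
  have h := ht.of_not_sq hu.not_sq
  have hκ0 : h.cart t ≠ 0 := by
    intro h0
    exact ht.not_sq _ (h.eq_sq_of_cart h0).symm
  refine ⟨(h.cart t ^ 2)⁻¹, inv_ne_zero (pow_ne_zero _ hκ0), fun b hb => ?_⟩
  rw [LT.change ht h]
  rw [div_inv_eq_mul, mul_comm] at hb
  exact LT.of_mem_unif (hφ.rankOne hV) hu h hb

/-- The local-global principle with one place omitted. -/
theorem GoodEmb.local_global {φ : RatFunc F →+* k} (hφ : GoodEmb φ) {P : ValuationSubring k}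
    (hP : P ≠ ⊤) {t : k} (ht : IsTwoBasis t) (b : k)
    (hb : ∀ V : ValuationSubring k, V ≠ ⊤ → V ≠ P → LT ht V b) :
    ∃ Q : k, b = Q + ht.cart Q := by
  obtain ⟨φ', hφ', hX'⟩ := hφ.exists_chart P
  obtain ⟨F', _, _, _, ψ, hψ, hψP, hψV⟩ := hφ'.hasPole hP hX'
  let _ : Algebra (RatFunc F') k := ψ.toAlgebra
  have _ : FiniteDimensional (RatFunc F') k := hψ.1
  have _ : Algebra.IsSeparable (RatFunc F') k := hψ.2
  have hX2 : IsTwoBasis (ψ RatFunc.X) := GoodEmb.isTwoBasis hψ
  set κ := hX2.cart t with hκ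
  have hκ0 : κ ≠ 0 := by
    intro h0
    exact ht.not_sq _ (hX2.eq_sq_of_cart h0).symm
  have hch : ∀ g, hX2.cart g = κ * ht.cart g := fun g => hX2.cart_change ht g
  have key : ∃ Q : k, κ ^ 2 * b = Q + hX2.cart Q := by
    refine local_global_places (F := F') (K := k) hX2 ?_ (κ ^ 2 * b) ?_
    · intro w hw hw'
      have h1 : ∀ V : ValuationSubring k, V ≠ P → w ∈ V ∧ w⁻¹ ∈ V := by
        intro V hV
        by_cases hVt : V = ⊤
        · rw [hVt]; exact ⟨trivial, trivial⟩
        · exact hw' V (hψV V hVt hV)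
      rcases P.mem_or_inv_mem w with h2 | h2
      · apply isSquare_of_mem_all
        intro V
        by_cases hV : V = P
        · rw [hV]; exact h2
        · exact (h1 V hV).1
      · obtain ⟨s, hs⟩ := isSquare_of_mem_all w⁻¹ (by
          intro V
          by_cases hV : V = P
          · rw [hV]; exact h2
          · exact (h1 V hV).2)
        exact ⟨s⁻¹, by rw [inv_pow, ← hs, inv_inv]⟩
    · intro V hV hXV
      have hVP : V ≠ P := by
        rintro rfl
        exact hψP hXV
      have h1 := (LT.change ht hX2).1 (hb V hV hVP)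
      obtain ⟨Q, hQ⟩ := h1 1 one_ne_zero
      rw [div_one] at hQ
      exact ⟨Q, hQ⟩
  obtain ⟨Q, hQ⟩ := key
  refine ⟨Q / κ ^ 2, ?_⟩
  have h1 : Q = κ ^ 2 * (Q / κ ^ 2) := by field_simp
  have h2 : hX2.cart Q = κ ^ 2 * ht.cart (Q / κ ^ 2) := by
    nth_rewrite 1 [h1]
    rw [hX2.cart_sq_mul, hch]
    ring
  rw [h2] at hQ
  have h3 : κ ^ 2 ≠ 0 := pow_ne_zero _ hκ0
  apply mul_left_cancel₀ h3
  rw [hQ, mul_add, ← h1]

/-- Strong approximation with one place omitted. -/
theorem GoodEmb.strong_approx {φ : RatFunc F →+* k} (hφ : GoodEmb φ) {P : ValuationSubring k}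
    (hP : P ≠ ⊤) (S : Finset (ValuationSubring k)) (hS : ∀ V ∈ S, V ≠ ⊤ ∧ V ≠ P)
    (x d : ValuationSubring k → k) (hd : ∀ V ∈ S, d V ≠ 0) :
    ∃ z : k, (∀ V ∈ S, (z - x V) / d V ∈ V) ∧
      ∀ V : ValuationSubring k, V ≠ ⊤ → V ≠ P → V ∉ S → z ∈ V := by
  classical
  obtain ⟨φ', hφ', hX'⟩ := hφ.exists_chart P
  obtain ⟨F', _, _, _, ψ, hψ, hψP, hψV⟩ := hφ'.hasPole hP hX'
  let _ : Algebra (RatFunc F') k := ψ.toAlgebra
  let _ : Algebra F'[X] k := (ψ.comp (algebraMap F'[X] (RatFunc F'))).toAlgebra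
  have _ : IsScalarTower F'[X] (RatFunc F') k := IsScalarTower.of_algebraMap_eq fun x => rfl
  have _ : FunctionField F' k := hψ.1
  have _ : Algebra.IsSeparable (RatFunc F') k := hψ.2
  have hpl : ∀ V : ValuationSubring k, V ≠ ⊤ → V ≠ P →
      ∃ w : HeightOneSpectrum (OK F' k), placeOf k w = V := by
    intro V hV hVP
    exact exists_placeOf_eq (R := OK F' k) hV (mem_of_integral_X (F := F') (hψV V hV hVP))
  have hOK : ∀ V : ValuationSubring k, V ≠ ⊤ → V ≠ P → ∀ r : OK F' k,
      algebraMap (OK F' k) k r ∈ V := by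
    intro V hV hVP r
    exact mem_of_integral_X (F := F') (hψV V hV hVP) r
  -- a common denominator
  have hc : ∀ V ∈ S, ∃ c : OK F' k, c ≠ 0 ∧ algebraMap (OK F' k) k c / d V ∈ V := by
    intro V hV
    obtain ⟨p, q, hq, hpq⟩ := IsFractionRing.div_surjective (A := OK F' k) (d V)
    have hq0 : algebraMap (OK F' k) k q ≠ 0 := by
      intro h
      exact nonZeroDivisors.ne_zero hq ((IsFractionRing.injective (OK F' k) k) (by rw [h, map_zero]))
    have hp0 : algebraMap (OK F' k) k p ≠ 0 := by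
      intro h
      apply hd V hV
      rw [← hpq, h, zero_div]
    refine ⟨p, fun h => hp0 (by rw [h, map_zero]), ?_⟩
    rw [← hpq]
    have : algebraMap (OK F' k) k p / (algebraMap (OK F' k) k p / algebraMap (OK F' k) k q) =
        algebraMap (OK F' k) k q := by field_simp
    rw [this]
    exact hOK V (hS V hV).1 (hS V hV).2 q
  choose! c hc0 hc using hc
  set D : k := algebraMap (OK F' k) k (∏ V ∈ S, c V) with hD
  have hD0 : D ≠ 0 := by
    rw [hD, map_prod]
    refine Finset.prod_ne_zero_iff.2 fun V hV h => hc0 V hV ?_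
    exact (IsFractionRing.injective (OK F' k) k) (by rw [h, map_zero])
  have hDd : ∀ V ∈ S, D / d V ∈ V := by
    intro V hV
    rw [hD, map_prod, ← Finset.mul_prod_erase _ _ hV]
    have : algebraMap (OK F' k) k (c V) *
        (∏ W ∈ S.erase V, algebraMap (OK F' k) k (c W)) / d V =
        algebraMap (OK F' k) k (c V) / d V * ∏ W ∈ S.erase V, algebraMap (OK F' k) k (c W) := by
      ring
    rw [this]
    exact V.mul_mem _ _ (hc V hV) (prod_mem fun W _ => hOK V (hS V hV).1 (hS V hV).2 _)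
  have hy : ∀ V ∈ S, ∃ y : k, y - x V / D ∈ V ∧
      ∀ W : ValuationSubring k, W ≠ ⊤ → W ≠ P → W ≠ V → y ∈ W := by
    intro V hV
    obtain ⟨w, hw⟩ := hpl V (hS V hV).1 (hS V hV).2
    obtain ⟨y, hy1, hy2⟩ := exists_local_approx w (x V / D)
    refine ⟨y, ?_, ?_⟩
    · have h1 : y - x V / D ∈ placeOf k w := (mem_placeOf w _).2 hy1
      rwa [hw] at h1
    · intro W hW hWP hWV
      obtain ⟨w', rfl⟩ := hpl W hW hWP
      rw [mem_placeOf]
      apply hy2
      rintro rfl
      exact hWV hw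
  choose! y hy1 hy2 using hy
  refine ⟨D * ∑ V ∈ S, y V, ?_, ?_⟩
  · intro V hV
    rw [← Finset.add_sum_erase _ _ hV]
    have h1 : (D * (y V + ∑ W ∈ S.erase V, y W) - x V) / d V =
        D / d V * ((y V - x V / D) + ∑ W ∈ S.erase V, y W) := by
      field_simp
      ring
    rw [h1]
    refine V.mul_mem _ _ (hDd V hV) (V.add_mem _ _ (hy1 V hV) (sum_mem fun W hW => ?_))
    exact hy2 W (Finset.mem_of_mem_erase hW) V (hS V hV).1 (hS V hV).2
      (Finset.ne_of_mem_erase hW).symm
  · intro V hV hVP hVS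
    refine V.mul_mem _ _ (hOK V hV hVP _) (sum_mem fun W hW => ?_)
    exact hy2 W hW V hV hVP (fun h => hVS (h ▸ hW))

/-- The places where `b` is not locally trivial. -/
def badSet {t : k} (ht : IsTwoBasis t) (b : k) : Set (ValuationSubring k) :=
  {V | V ≠ ⊤ ∧ ¬ LT ht V b}

lemma GoodEmb.badSet_finite {φ : RatFunc F →+* k} (hφ : GoodEmb φ) {t : k} (ht : IsTwoBasis t)
    (b : k) : (badSet ht b).Finite := by
  refine ((hφ.hfin t).union (hφ.hfin b)).subset ?_
  rintro V ⟨hV, hL⟩
  by_contra hcon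
  simp only [Set.mem_union, not_or, Set.mem_ofPred_eq, not_not] at hcon
  exact hL (hφ.LT_of_mem hV ht hcon.1 hcon.2)

/-- There is an element which is non-trivial exactly at two given places. -/
lemma GoodEmb.exists_two {φ : RatFunc F →+* k} (hφ : GoodEmb φ) {t : k} (ht : IsTwoBasis t)
    {V₁ V₂ : ValuationSubring k} (h₁ : V₁ ≠ ⊤) (h₂ : V₂ ≠ ⊤) (hne : V₁ ≠ V₂) :
    ∃ c : k, badSet ht c = {V₁, V₂} := by
  classical
  obtain ⟨c₁, hc₁⟩ := hφ.exists_not_LT h₁ ht
  have hsm : ∀ V : ValuationSubring k, ∃ d : k, d ≠ 0 ∧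
      (V ≠ ⊤ → ∀ b : k, b / d ∈ V → LT ht V b) := by
    intro V
    by_cases hV : V = ⊤
    · exact ⟨1, one_ne_zero, fun h => absurd hV h⟩
    · obtain ⟨d, hd, hd'⟩ := hφ.LT_small hV ht
      exact ⟨d, hd, fun _ => hd'⟩
  choose d hd hd' using hsm
  let S : Finset (ValuationSubring k) :=
    insert V₁ ((hφ.hfin t).toFinset.filter fun V => V ≠ ⊤ ∧ V ≠ V₂)
  have hS : ∀ V ∈ S, V ≠ ⊤ ∧ V ≠ V₂ := by
    intro V hV
    rcases Finset.mem_insert.1 hV with rfl | hV
    · exact ⟨h₁, hne⟩
    · exact (Finset.mem_filter.1 hV).2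
  obtain ⟨z, hz1, hz2⟩ := hφ.strong_approx h₂ S hS (fun V => if V = V₁ then c₁ else 0) d
    (fun V _ => hd V)
  have hL : ∀ V : ValuationSubring k, V ≠ ⊤ → V ≠ V₁ → V ≠ V₂ → LT ht V z := by
    intro V hV hV1 hV2
    by_cases hVS : V ∈ S
    · have h3 := hz1 V hVS
      simp only [if_neg hV1, sub_zero] at h3
      exact hd' V hV z h3
    · have htV : t ∈ V := by
        by_contra hcon
        apply hVS
        exact Finset.mem_insert_of_mem (Finset.mem_filter.2
          ⟨(Set.Finite.mem_toFinset _).2 hcon, hV, hV2⟩)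
      exact hφ.LT_of_mem hV ht htV (hz2 V hV hV2 hVS)
  have hL1 : ¬ LT ht V₁ z := by
    have h3 := hz1 V₁ (Finset.mem_insert_self _ _)
    simp only [if_true] at h3
    have h4 : LT ht V₁ (z + c₁) := by
      have h5 := hd' V₁ h₁ _ h3
      rwa [CharTwo.sub_eq_add] at h5
    intro hcon
    exact hc₁ ((LT.congr h4).1 hcon)
  have hL2 : ¬ LT ht V₂ z := by
    intro hcon
    obtain ⟨Q, hQ⟩ := hφ.local_global h₁ ht z (by
      intro V hV hV1
      by_cases hV2 : V = V₂
      · rw [hV2]; exact hcon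
      · exact hL V hV hV1 hV2)
    apply hL1
    rw [hQ]
    exact LT.triv ht V₁ Q
  refine ⟨z, ?_⟩
  ext V
  constructor
  · rintro ⟨hV, hVL⟩
    by_contra hcon
    rw [Set.mem_insert_iff, Set.mem_singleton_iff, not_or] at hcon
    exact hVL (hL V hV hcon.1 hcon.2)
  · rintro (rfl | hV)
    · exact ⟨h₁, hL1⟩
    · rw [Set.mem_singleton_iff] at hV
      subst hV
      exact ⟨h₂, hL2⟩

/-- The reciprocity law. -/
theorem GoodEmb.reciprocity {φ : RatFunc F →+* k} (hφ : GoodEmb φ) {t : k} (ht : IsTwoBasis t)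
    (b : k) : Even (badSet ht b).ncard := by
  obtain ⟨n, hn⟩ : ∃ n, (badSet ht b).ncard = n := ⟨_, rfl⟩
  rw [hn]
  induction n using Nat.strong_induction_on generalizing b with
  | _ n ih =>
    have hfin := hφ.badSet_finite ht b
    by_cases hn1 : n ≤ 1
    · by_cases hn0 : n = 0
      · rw [hn0]; exact Even.zero
      · exfalso
        have : n = 1 := by omega
        subst this
        obtain ⟨P, hP⟩ := Set.ncard_eq_one.1 hn
        have hPm : P ∈ badSet ht b := by rw [hP]; rfl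
        obtain ⟨Q, hQ⟩ := hφ.local_global hPm.1 ht b (by
          intro V hV hVP
          by_contra hcon
          have : V ∈ badSet ht b := ⟨hV, hcon⟩
          rw [hP] at this
          exact hVP this)
        apply hPm.2
        rw [hQ]
        exact LT.triv ht P Q
    · push Not at hn1
      obtain ⟨V₁, hV₁, V₂, hV₂, hne⟩ := (Set.one_lt_ncard hfin).1 (by rw [hn]; exact hn1)
      obtain ⟨c, hc⟩ := hφ.exists_two ht hV₁.1 hV₂.1 hne
      have hdiff : badSet ht (b + c) = badSet ht b \ {V₁, V₂} := by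
        ext V
        constructor
        · rintro ⟨hV, hVL⟩
          by_cases hVc : V ∈ badSet ht c
          · exfalso
            have hVb : V ∈ badSet ht b := by
              rw [hc] at hVc
              rcases hVc with rfl | hVc
              · exact hV₁
              · rw [Set.mem_singleton_iff] at hVc
                rw [hVc]; exact hV₂
            exact hVL (hφ.LT_add hV hVb.2 hVc.2)
          · refine ⟨⟨hV, fun hL => hVL ?_⟩, by rwa [← hc]⟩
            have : LT ht V c := by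
              by_contra hcon
              exact hVc ⟨hV, hcon⟩
            exact hL.add this
        · rintro ⟨⟨hV, hVL⟩, hVc⟩
          refine ⟨hV, fun hL => hVL ?_⟩
          have : LT ht V c := by
            by_contra hcon
            apply hVc
            rw [← hc]
            exact ⟨hV, hcon⟩
          exact (LT.congr hL).2 this
      have hsub : ({V₁, V₂} : Set (ValuationSubring k)) ⊆ badSet ht b := by
        rintro V (rfl | hV)
        · exact hV₁
        · rw [Set.mem_singleton_iff] at hV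
          rw [hV]; exact hV₂
      have hcard : (badSet ht (b + c)).ncard = n - 2 := by
        rw [hdiff, Set.ncard_diff hsub, hn, Set.ncard_pair hne]
      have h1 := ih (n - 2) (by omega) (b + c) hcard
      obtain ⟨m, hm⟩ := h1
      exact ⟨m + 1, by omega⟩

end

end Pool.Agent.Helper26
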