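import Mathlib
import Pool.Agent.Helper26.Recip

set_option autoImplicit false
set_option linter.unusedSectionVars false

/-!
# Local norms from Artin-Schreier quadratic extensions
-/

universe u v

namespace Pool.Agent.Helper26

section

variable {K : Type*} [Field K] [CharP K 2]

/-- `e` is a norm at `V`, up to arbitrarily small errors. -/
def NW (V : ValuationSubring K) (a e : K) : Prop :=
  ∀ d : K, d ≠ 0 → ∃ X Y : K, (e + nf a X Y) / d ∈ V

lemma NW.zero (V : ValuationSubring K) (a : K) : NW V a 0 := by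
  intro d _
  refine ⟨0, 0, ?_⟩
  have : (0 + nf a 0 0 : K) = 0 := by rw [nf]; ring
  rw [this, zero_div]
  exact V.zero_mem

lemma NW.of_norm (V : ValuationSubring K) {a e X Y : K} (h : e = nf a X Y) : NW V a e := by
  intro d _
  refine ⟨X, Y, ?_⟩
  rw [h, CharTwo.add_self_eq_zero, zero_div]
  exact V.zero_mem

lemma NW.of_sq (V : ValuationSubring K) (a s : K) : NW V a (s ^ 2) :=
  NW.of_norm V (X := s) (Y := 0) (by rw [nf]; ring)

/-- Hensel's lemma for `ρ² + ρ + w`. -/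
lemma AS_hensel {V : ValuationSubring K} (hr : IsRankOne V) {w : K} (hw : w ∈ V.nonunits)
    (d : K) (hd : d ≠ 0) : ∃ ρ ∈ V.nonunits, (ρ ^ 2 + ρ + w) / d ∈ V := by
  have h2 : ∀ x : K, x + x = 0 := fun x => CharTwo.add_self_eq_zero x
  have hwV := nonunits_mem hw
  have key : ∀ n : ℕ, ∃ ρ ∈ V.nonunits, ∃ c ∈ V, ρ ^ 2 + ρ + w = w ^ (n + 1) * c := by
    intro n
    induction n with
    | zero =>
      refine ⟨0, ?_, 1, V.one_mem, by ring⟩
      rw [ValuationSubring.mem_nonunits_iff, map_zero]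
      exact zero_lt_one
    | succ n ih =>
      obtain ⟨ρ, hρ, c, hc, h⟩ := ih
      refine ⟨ρ ^ 2 + w, ?_, w ^ n * c ^ 2, V.mul_mem _ _ (pow_mem hwV n) (pow_mem hc 2), ?_⟩
      · rw [pow_two]
        exact nonunits_add (nonunits_mul hρ (nonunits_mem hρ)) hw
      · have h3 : (ρ ^ 2 + w) ^ 2 + (ρ ^ 2 + w) + w = (ρ ^ 2 + ρ + w) ^ 2 := by
          simp only [CharTwo.add_sq]
          linear_combination h2 w
        rw [h3, h]
        ring
  by_cases hw0 : w = 0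
  · refine ⟨0, ?_, ?_⟩
    · rw [ValuationSubring.mem_nonunits_iff, map_zero]
      exact zero_lt_one
    · rw [hw0]
      have : ((0 : K) ^ 2 + 0 + 0) / d = 0 := by ring
      rw [this]
      exact V.zero_mem
  obtain ⟨N, hN⟩ := hr w hw d hd
  obtain ⟨ρ, hρ, c, hc, h⟩ := key N
  refine ⟨ρ, hρ, ?_⟩
  rw [h]
  have : w ^ (N + 1) * c / d = w ^ N / d * (w * c) := by rw [pow_succ]; ring
  rw [this]
  exact V.mul_mem _ _ hN (V.mul_mem _ _ hwV hc)

/-- If the extension is split at `V` then everything is a norm at `V`. -/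
lemma NW.of_split {V : ValuationSubring K} (hr : IsRankOne V) {a R : K}
    (hR : R ^ 2 + R + a ∈ V.nonunits) (e : K) : NW V a e := by
  have h2 : ∀ x : K, x + x = 0 := fun x => CharTwo.add_self_eq_zero x
  intro d hd
  by_cases he : 1 + e = 0
  · have he1 : e = 1 := (CharTwo.add_eq_zero.1 he).symm
    refine ⟨1, 0, ?_⟩
    have : e + nf a 1 0 = 0 := by rw [nf, he1]; linear_combination h2 (1 : K)
    rw [this, zero_div]
    exact V.zero_mem
  obtain ⟨ρ, -, hρ⟩ := AS_hensel hr hR (d / (1 + e) ^ 2) (div_ne_zero hd (pow_ne_zero _ he))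
  refine ⟨e + (R + ρ) * (1 + e), 1 + e, ?_⟩
  have h3 : (e + nf a (e + (R + ρ) * (1 + e)) (1 + e)) =
      (ρ ^ 2 + ρ + (R ^ 2 + R + a)) * (1 + e) ^ 2 := by
    rw [nf]
    simp only [CharTwo.add_sq, mul_pow]
    linear_combination h2 e + h2 (e ^ 2) + h2 (e * R) + h2 (e * ρ)
  rw [h3]
  have h4 : (ρ ^ 2 + ρ + (R ^ 2 + R + a)) * (1 + e) ^ 2 / d =
      (ρ ^ 2 + ρ + (R ^ 2 + R + a)) / (d / (1 + e) ^ 2) := by
    field_simp
  rw [h4]
  exact hρ

end

section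

variable {F : Type v} {k : Type u} [Field F] [Finite F] [CharP F 2] [Field k] [CharP k 2]

lemma exists_small {V : ValuationSubring k} (hV : V ≠ ⊤) {ι : Type*} [Finite ι] (c : ι → k) :
    ∃ r : k, r ≠ 0 ∧ r ∈ V.nonunits ∧ ∀ i, r * c i ∈ V.nonunits := by
  obtain ⟨π, hπ0, hπ⟩ := exists_nonunit hV
  obtain ⟨w, hw0, hw, hc⟩ := exists_big V c
  refine ⟨π / w, div_ne_zero hπ0 hw0, ?_, fun i => ?_⟩
  · rw [div_eq_mul_inv]; exact nonunits_mul hπ hw
  · have : π / w * c i = π * (c i / w) := by ring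
    rw [this]
    exact nonunits_mul hπ (hc i)

/-- Smallness of the symbol of an element close to `1`. -/
lemma GoodEmb.sym_small {φ : RatFunc F →+* k} (hφ : GoodEmb φ) {V : ValuationSubring k}
    (hV : V ≠ ⊤) {t : k} (ht : IsTwoBasis t) (a d : k) (hd : d ≠ 0) :
    ∃ r : k, r ≠ 0 ∧ r ∈ V.nonunits ∧ ∀ ξ : k, ξ / r ∈ V → ht.sym a (1 + ξ) / d ∈ V := by
  obtain ⟨s, hs0, hs⟩ := hφ.cartBdd hV ht
  obtain ⟨D, hD0, hD1, hD⟩ := exists_big V (fun _ : Unit => a)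
  have hD := hD ()
  obtain ⟨r, hr0, hr, hrc⟩ := exists_small hV (fun _ : Unit => D * s ^ 2 / d)
  have hrc := hrc ()
  refine ⟨r ^ 2, pow_ne_zero _ hr0, ?_, ?_⟩
  · rw [pow_two]; exact nonunits_mul hr (nonunits_mem hr)
  intro ξ hξ
  have hξn : ξ ∈ V.nonunits := by
    have : ξ = r * (r * (ξ / r ^ 2)) := by field_simp
    rw [this]
    exact nonunits_mul hr (V.mul_mem _ _ (nonunits_mem hr) hξ)
  obtain ⟨h1, h2⟩ := one_add_unit hξn
  have h3 : ht.sym a (1 + ξ) = ht.cart ξ * ht.cart (a / (1 + ξ)) := by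
    rw [IsTwoBasis.sym, IsTwoBasis.dl, ht.cart_add, ht.cart_one, zero_add]
    have : a * (ht.cart ξ ^ 2 / (1 + ξ)) = ht.cart ξ ^ 2 * (a / (1 + ξ)) := by ring
    rw [this, ht.cart_sq_mul]
  have h4 : ht.cart ξ = r * ht.cart (ξ / r ^ 2) := by
    have : ξ = r ^ 2 * (ξ / r ^ 2) := by field_simp
    nth_rewrite 1 [this]
    rw [ht.cart_sq_mul]
  have h5 : ht.cart (a / (1 + ξ)) = D * ht.cart (a / D ^ 2 * (1 + ξ)⁻¹) := by
    have : a / (1 + ξ) = D ^ 2 * (a / D ^ 2 * (1 + ξ)⁻¹) := by field_simp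
    nth_rewrite 1 [this]
    rw [ht.cart_sq_mul]
  have h6 : a / D ^ 2 * (1 + ξ)⁻¹ ∈ V := by
    have : a / D ^ 2 * (1 + ξ)⁻¹ = a / D * D⁻¹ * (1 + ξ)⁻¹ := by field_simp
    rw [this]
    exact V.mul_mem _ _ (V.mul_mem _ _ hD hD1) h2
  have h7 : ht.sym a (1 + ξ) / d = (r * (D * s ^ 2 / d)) * (ht.cart (ξ / r ^ 2) / s) *
      (ht.cart (a / D ^ 2 * (1 + ξ)⁻¹) / s) := by
    rw [h3, h4, h5]
    field_simp
  rw [h7]
  exact V.mul_mem _ _ (V.mul_mem _ _ (nonunits_mem hrc) (hs _ hξ)) (hs _ h6)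

/-- A norm at `V` has locally trivial symbol, and conversely. -/
theorem GoodEmb.NW_iff {φ : RatFunc F →+* k} (hφ : GoodEmb φ) {V : ValuationSubring k}
    (hV : V ≠ ⊤) {t : k} (ht : IsTwoBasis t) (a : k) {e : k} (he0 : e ≠ 0) :
    NW V a e ↔ LT ht V (ht.sym a e) := by
  have h2 : ∀ x : k, x + x = 0 := fun x => CharTwo.add_self_eq_zero x
  constructor
  · intro h d hd
    obtain ⟨r, hr0, hr, hrd⟩ := hφ.sym_small hV ht a d hd
    obtain ⟨X, Y, hXY⟩ := h (e * r) (mul_ne_zero he0 hr0)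
    set ξ := (e + nf a X Y) / e with hξ
    have hξr : ξ / r ∈ V := by
      rw [hξ, div_div]; exact hXY
    have hξn : ξ ∈ V.nonunits := by
      have : ξ = r * (ξ / r) := by field_simp
      rw [this]
      exact nonunits_mul hr hξr
    obtain ⟨h1, -⟩ := one_add_unit hξn
    have h3 : nf a X Y = e * (1 + ξ) := by
      rw [hξ]
      field_simp
      linear_combination -h2 e
    have h4 : nf a X Y ≠ 0 := by rw [h3]; exact mul_ne_zero he0 h1
    obtain ⟨P, hP⟩ := ht.sym_of_norm h4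
    rw [h3, ht.sym_mul a he0 h1] at hP
    refine ⟨P, ?_⟩
    have h5 : ht.sym a e + P + ht.cart P = ht.sym a (1 + ξ) := by
      linear_combination hP - h2 (ht.sym a (1 + ξ)) + h2 P + h2 (ht.cart P)
    rw [h5]
    exact hrd ξ hξr
  · intro h
    by_cases hsq : ∃ s : k, s ^ 2 = e
    · obtain ⟨s, rfl⟩ := hsq
      exact NW.of_sq V a s
    push Not at hsq
    have he := ht.of_not_sq hsq
    have hc : ht.cart e ≠ 0 := by
      intro h0
      exact hsq _ (ht.eq_sq_of_cart h0).symm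
    intro d hd
    set g := e / ht.cart e ^ 2 with hg
    obtain ⟨δ, hδ0, hδ, hδc⟩ := exists_small hV ![g, g * e / d]
    have hδ1 : δ * g ∈ V.nonunits := hδc 0
    have hδ2 : δ * (g * e / d) ∈ V.nonunits := hδc 1
    obtain ⟨P, hP⟩ := h δ hδ0
    set η := ht.sym a e + P + ht.cart P with hη
    have h3 : ht.sym a e = P + ht.cart P + η := by
      rw [hη]; linear_combination -h2 P - h2 (ht.cart P)
    obtain ⟨R, Z, hRZ⟩ := ht.sym_key he h3
    rw [← hg] at hRZ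
    set η' := η * g with hη'
    have hη'n : η' ∈ V.nonunits := by
      have : η' = (δ * g) * (η / δ) := by rw [hη']; field_simp
      rw [this]
      exact nonunits_mul hδ1 hP
    set w := R ^ 2 + R + a with hw
    have hwe : w = e * Z ^ 2 + η' := by
      rw [hw, hRZ]
      linear_combination h2 (R ^ 2) + h2 R
    by_cases hwn : w ∈ V.nonunits
    · exact NW.of_split (hφ.rankOne hV) hwn e d hd
    · rw [nonunits_iff] at hwn
      push Not at hwn
      obtain ⟨hw0, hwV⟩ := hwn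
      obtain ⟨h5, h6⟩ := one_add_unit (nonunits_mul hη'n hwV)
      have h7 : e * Z ^ 2 = w * (1 + η' * w⁻¹) := by
        have h70 : w * (1 + η' * w⁻¹) = w + η' := by field_simp
        rw [h70]
        linear_combination -hwe - h2 η'
      have hZ : Z ≠ 0 := by
        rintro rfl
        apply mul_ne_zero hw0 h5
        rw [← h7]; ring
      refine ⟨R / Z, 1 / Z, ?_⟩
      have h8 : e + nf a (R / Z) (1 / Z) = η' / Z ^ 2 := by
        rw [nf]
        field_simp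
        linear_combination hwe + h2 (e * Z ^ 2)
      have h9 : η' / Z ^ 2 / d = (δ * (g * e / d)) * (η / δ) * (w⁻¹ * (1 + η' * w⁻¹)⁻¹) := by
        have h10 : (Z ^ 2)⁻¹ = e * (w⁻¹ * (1 + η' * w⁻¹)⁻¹) := by
          rw [← mul_inv, ← h7]
          field_simp
        rw [div_eq_mul_inv η', h10, hη']
        field_simp
      rw [h8, h9]
      exact V.mul_mem _ _ (V.mul_mem _ _ (nonunits_mem hδ2) hP) (V.mul_mem _ _ hwV h6)

/-- Products of norms at `V`. -/
lemma GoodEmb.NW_mul {φ : RatFunc F →+* k} (hφ : GoodEmb φ) {V : ValuationSubring k}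
    (hV : V ≠ ⊤) {a x y : k} (hx0 : x ≠ 0) (hy0 : y ≠ 0) (hx : NW V a x) (hy : NW V a y) :
    NW V a (x * y) := by
  have ht := hφ.isTwoBasis
  rw [hφ.NW_iff hV ht a (mul_ne_zero hx0 hy0), ht.sym_mul a hx0 hy0]
  rw [hφ.NW_iff hV ht a hx0] at hx
  rw [hφ.NW_iff hV ht a hy0] at hy
  exact hx.add hy

lemma GoodEmb.NW_mul_iff {φ : RatFunc F →+* k} (hφ : GoodEmb φ) {V : ValuationSubring k}
    (hV : V ≠ ⊤) {a x y : k} (hx0 : x ≠ 0) (hy0 : y ≠ 0) (hxy : NW V a (x * y)) :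
    NW V a x ↔ NW V a y := by
  have ht := hφ.isTwoBasis
  rw [hφ.NW_iff hV ht a (mul_ne_zero hx0 hy0), ht.sym_mul a hx0 hy0] at hxy
  rw [hφ.NW_iff hV ht a hx0, hφ.NW_iff hV ht a hy0]
  exact LT.congr hxy

lemma GoodEmb.NW_mul_of_not {φ : RatFunc F →+* k} (hφ : GoodEmb φ) {V : ValuationSubring k}
    (hV : V ≠ ⊤) {a x y : k} (hx0 : x ≠ 0) (hy0 : y ≠ 0) (hx : ¬ NW V a x) (hy : ¬ NW V a y) :
    NW V a (x * y) := by
  have ht := hφ.isTwoBasis
  rw [hφ.NW_iff hV ht a (mul_ne_zero hx0 hy0), ht.sym_mul a hx0 hy0]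
  rw [hφ.NW_iff hV ht a hx0] at hx
  rw [hφ.NW_iff hV ht a hy0] at hy
  exact hφ.LT_add hV hx hy

/-- The Hasse norm theorem. -/
theorem GoodEmb.hasse_norm {φ : RatFunc F →+* k} (hφ : GoodEmb φ) {a e : k} (he0 : e ≠ 0)
    (h : ∀ V : ValuationSubring k, V ≠ ⊤ → NW V a e) : ∃ X Y : k, e = nf a X Y := by
  have ht := hφ.isTwoBasis
  obtain ⟨V, hV⟩ := hφ.exists_notMem
  have hVt : V ≠ ⊤ := by rintro rfl; exact hV trivial
  obtain ⟨Q, hQ⟩ := hφ.local_global hVt ht (ht.sym a e)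
    (fun W hW _ => (hφ.NW_iff hW ht a he0).1 (h W hW))
  exact ht.norm_of_sym he0 hQ

/-- The product formula for norm symbols. -/
theorem GoodEmb.norm_parity {φ : RatFunc F →+* k} (hφ : GoodEmb φ) {a e : k} (he0 : e ≠ 0) :
    {V : ValuationSubring k | V ≠ ⊤ ∧ ¬ NW V a e}.Finite ∧
    Even {V : ValuationSubring k | V ≠ ⊤ ∧ ¬ NW V a e}.ncard := by
  have ht := hφ.isTwoBasis
  have h1 : {V : ValuationSubring k | V ≠ ⊤ ∧ ¬ NW V a e} = badSet ht (ht.sym a e) := by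
    ext V
    constructor
    · rintro ⟨hV, h⟩
      exact ⟨hV, fun hL => h ((hφ.NW_iff hV ht a he0).2 hL)⟩
    · rintro ⟨hV, h⟩
      exact ⟨hV, fun hL => h ((hφ.NW_iff hV ht a he0).1 hL)⟩
  rw [h1]
  exact ⟨hφ.badSet_finite ht _, hφ.reciprocity ht _⟩

/-- Elements close to a given nonzero element have the same norm symbol. -/
lemma GoodEmb.NW_close {φ : RatFunc F →+* k} (hφ : GoodEmb φ) {V : ValuationSubring k}
    (hV : V ≠ ⊤) (a : k) :
    ∃ r : k, r ≠ 0 ∧ r ∈ V.nonunits ∧ ∀ ξ : k, ξ / r ∈ V → 1 + ξ ≠ 0 ∧ NW V a (1 + ξ) := by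
  have ht := hφ.isTwoBasis
  obtain ⟨d, hd0, hd⟩ := hφ.LT_small hV ht
  obtain ⟨r, hr0, hr, hrd⟩ := hφ.sym_small hV ht a d hd0
  refine ⟨r, hr0, hr, fun ξ hξ => ?_⟩
  have hξn : ξ ∈ V.nonunits := by
    have : ξ = r * (ξ / r) := by field_simp
    rw [this]
    exact nonunits_mul hr hξ
  obtain ⟨h1, -⟩ := one_add_unit hξn
  exact ⟨h1, (hφ.NW_iff hV ht a h1).2 (hd _ (hrd ξ hξ))⟩

end

end Pool.Agent.Helper26
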