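import Mathlib
import Pool.Agent.Helper26.NormLoc

set_option autoImplicit false
set_option linter.unusedSectionVars false

/-!
# Places in a finite separable extension, traces and norms
-/

universe u v

namespace Pool.Agent.Helper26

section

variable {k K : Type*} [Field k] [Field K] [CharP k 2] [CharP K 2]

lemma IsTwoBasis.map_cart {t : k} (f : k →+* K) (ht : IsTwoBasis t) (hf : IsTwoBasis (f t))
    (x : k) : hf.cart (f x) = f (ht.cart x) := by
  apply hf.cart_eq (u := f (ht.sqp x))
  nth_rewrite 1 [ht.eq x]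
  rw [map_add, map_mul, map_pow, map_pow]

lemma IsTwoBasis.map_dl {t : k} (f : k →+* K) (ht : IsTwoBasis t) (hf : IsTwoBasis (f t))
    (x : k) : hf.dl (f x) = f (ht.dl x) := by
  rw [dl, dl, ht.map_cart f hf, map_div₀, map_pow]

lemma IsTwoBasis.dl_prod {t : k} (ht : IsTwoBasis t) {ι : Type*} (s : Finset ι) (f : ι → k)
    (hf : ∀ i ∈ s, f i ≠ 0) : ht.dl (∏ i ∈ s, f i) = ∑ i ∈ s, ht.dl (f i) := by
  classical
  induction s using Finset.induction_on with
  | empty => simp
  | insert a s ha ih =>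
    rw [Finset.prod_insert ha, Finset.sum_insert ha, ht.dl_mul (hf a (Finset.mem_insert_self _ _))
      (Finset.prod_ne_zero_iff.2 fun i hi => hf i (Finset.mem_insert_of_mem hi)),
      ih fun i hi => hf i (Finset.mem_insert_of_mem hi)]

variable [Algebra k K] [FiniteDimensional k K] [Algebra.IsSeparable k K]

/-- The logarithmic derivative of the norm is the trace of the logarithmic derivative. -/
lemma IsTwoBasis.dl_norm {t : k} (ht : IsTwoBasis t) (htK : IsTwoBasis (algebraMap k K t))
    {e : K} (he : e ≠ 0) : ht.dl (Algebra.norm k e) = Algebra.trace k K (htK.dl e) := by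
  let E := AlgebraicClosure k
  let S := separableClosure k E
  have hcharS : CharP S 2 := charP_of_injective_algebraMap (algebraMap k S).injective 2
  have htS : IsTwoBasis (algebraMap k S t) := ht.extend
  have hmem : ∀ (σ : K →ₐ[k] E) (x : K), σ x ∈ S := by
    intro σ x
    rw [mem_separableClosure_iff]
    rw [IsSeparable, minpoly.algHom_eq σ σ.injective]
    exact Algebra.IsSeparable.isSeparable k x
  let σ' : (K →ₐ[k] E) → K →+* S := fun σ =>
    (σ : K →+* E).codRestrict S.toSubring fun x => hmem σ x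
  have hσ' : ∀ (σ : K →ₐ[k] E) (x : K), ((σ' σ x : S) : E) = σ x := fun σ x => rfl
  have hσt : ∀ σ : K →ₐ[k] E, σ' σ (algebraMap k K t) = algebraMap k S t := by
    intro σ
    apply Subtype.ext
    rw [hσ', AlgHom.commutes]
    rfl
  have hσdl : ∀ (σ : K →ₐ[k] E) (x : K), htS.dl (σ' σ x) = σ' σ (htK.dl x) := by
    intro σ x
    have h1 : IsTwoBasis (σ' σ (algebraMap k K t)) := by rw [hσt]; exact htS
    have h2 := htK.map_dl (σ' σ) h1 x
    rw [← h2, IsTwoBasis.dl, IsTwoBasis.dl]
    congr 2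
    apply htS.cart_eq (u := h1.sqp (σ' σ x))
    rw [← hσt σ]
    exact h1.eq _
  apply (algebraMap k S).injective
  have h3 : algebraMap k S (Algebra.norm k e) = ∏ σ : K →ₐ[k] E, σ' σ e := by
    apply Subtype.ext
    have h4 := Algebra.norm_eq_prod_embeddings k E e
    have h5 : ((∏ σ : K →ₐ[k] E, σ' σ e : S) : E) = ∏ σ : K →ₐ[k] E, σ e := by
      push_cast
      rfl
    rw [h5]
    exact h4
  have h4 : algebraMap k S (Algebra.trace k K (htK.dl e)) = ∑ σ : K →ₐ[k] E, σ' σ (htK.dl e) := by
    apply Subtype.ext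
    have h4 := trace_eq_sum_embeddings E (K := k) (x := htK.dl e)
    have h5 : ((∑ σ : K →ₐ[k] E, σ' σ (htK.dl e) : S) : E) = ∑ σ : K →ₐ[k] E, σ (htK.dl e) := by
      push_cast
      rfl
    rw [h5]
    exact h4
  rw [← ht.map_dl (algebraMap k S) htS, h3, h4, htS.dl_prod]
  · exact Finset.sum_congr rfl fun σ _ => hσdl σ e
  · intro σ _ h0
    apply he
    exact (σ' σ).injective (by rw [h0, map_zero])

lemma IsTwoBasis.sym_norm {t : k} (ht : IsTwoBasis t) (htK : IsTwoBasis (algebraMap k K t))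
    (a : k) {e : K} (he : e ≠ 0) :
    ht.sym a (Algebra.norm k e) = Algebra.trace k K (htK.sym (algebraMap k K a) e) := by
  rw [sym, sym, ht.dl_norm htK he, ht.trace_cart htK, ← Algebra.smul_def, LinearMap.map_smul,
    smul_eq_mul]

end

section

variable {F : Type v} {k K : Type u} [Field F] [Finite F] [CharP F 2] [Field k] [CharP k 2]
  [Field K] [CharP K 2] [Algebra k K] [FiniteDimensional k K] [Algebra.IsSeparable k K]

lemma GoodEmb.ext {φ : RatFunc F →+* k} (hφ : GoodEmb φ) :
    GoodEmb ((algebraMap k K).comp φ) := by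
  let _ : Algebra (RatFunc F) k := φ.toAlgebra
  have _ : FiniteDimensional (RatFunc F) k := hφ.1
  have _ : Algebra.IsSeparable (RatFunc F) k := hφ.2
  let _ : Algebra (RatFunc F) K := ((algebraMap k K).comp φ).toAlgebra
  have _ : IsScalarTower (RatFunc F) k K := IsScalarTower.of_algebraMap_eq fun x => rfl
  exact ⟨FiniteDimensional.trans (RatFunc F) k K, Algebra.IsSeparable.trans (RatFunc F) k K⟩

variable (K) in
/-- The places of `K` above `V`. -/
def above (V : ValuationSubring k) : Set (ValuationSubring K) :=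
  {W | W.comap (algebraMap k K) = V}

lemma mem_above_mem {V : ValuationSubring k} {W : ValuationSubring K} (hW : W ∈ above K V)
    {x : k} : algebraMap k K x ∈ W ↔ x ∈ V := by
  have h1 : W.comap (algebraMap k K) = V := hW
  rw [← h1]
  rfl

lemma mem_above_nonunits {V : ValuationSubring k} {W : ValuationSubring K} (hW : W ∈ above K V)
    {x : k} : algebraMap k K x ∈ W.nonunits ↔ x ∈ V.nonunits := by
  rw [nonunits_iff, nonunits_iff, ← map_inv₀, mem_above_mem hW, map_eq_zero]

lemma above_ne_top {V : ValuationSubring k} (hV : V ≠ ⊤) {W : ValuationSubring K}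
    (hW : W ∈ above K V) : W ≠ ⊤ := by
  rintro rfl
  apply hV
  rw [eq_top_iff]
  intro x _
  exact (mem_above_mem hW).1 trivial

lemma GoodEmb.above_finite {φ : RatFunc F →+* k} (hφ : GoodEmb φ) {V : ValuationSubring k}
    (hV : V ≠ ⊤) : (above K V).Finite := by
  obtain ⟨π, hπ0, hπ⟩ := exists_nonunit hV
  refine ((hφ.ext (K := K)).hfin (algebraMap k K π⁻¹)).subset ?_
  intro W hW hcon
  rw [mem_above_mem hW] at hcon
  exact not_inv_mem hπ hπ0 hcon

/-- The trace of an element which is integral above `V` is integral at `V`. -/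
lemma trace_mem {V : ValuationSubring k} (hr : IsRankOne V) (hV : V ≠ ⊤) {z : K}
    (hz : ∀ W ∈ above K V, z ∈ W) : Algebra.trace k K z ∈ V := by
  let A : Subring K := V.toSubring.map (algebraMap k K)
  have h1 : z ∈ (integralClosure (Subring.closure (A : Set K)) K).toSubring := by
    rw [← iInf_valuationSubring_superset, Subring.mem_iInf]
    rintro ⟨W, hW⟩
    have hW' : (A : Set K) ⊆ W := hW
    change z ∈ W
    by_cases hWt : W = ⊤
    · rw [hWt]; trivial
    apply hz
    have h2 : W.comap (algebraMap k K) ≠ ⊤ := comap_ne_top W hWt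
    have h3 : ∀ x ∈ V, x ∈ W.comap (algebraMap k K) := by
      intro x hx
      exact hW' ⟨x, hx, rfl⟩
    by_contra hne
    obtain ⟨x, hx, hx'⟩ := not_le_of_ne hr h2 (fun h => hne h.symm)
    exact hx' (h3 x hx)
  have h2 : IsIntegral (Subring.closure (A : Set K)) z := h1
  rw [Subring.closure_eq] at h2
  let _ : Algebra V K := ((algebraMap k K).comp V.subtype).toAlgebra
  have _ : IsScalarTower V k K := IsScalarTower.of_algebraMap_eq fun x => rfl
  have h3 : IsIntegral V z := by
    obtain ⟨p, hp, hp0⟩ := h2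
    have hsurj : ∀ a : A, ∃ x : V, algebraMap k K x = a := by
      rintro ⟨a, x, hx, rfl⟩
      exact ⟨⟨x, hx⟩, rfl⟩
    let f : V →+* A := ((algebraMap k K).comp V.subtype).codRestrict A fun x => ⟨x, x.2, rfl⟩
    have hf : Function.Surjective f := by
      intro a
      obtain ⟨x, hx⟩ := hsurj a
      exact ⟨x, Subtype.ext hx⟩
    have hmon := Polynomial.lifts_and_degree_eq_and_monic (f := f) (p := p)
      ((Polynomial.lifts_iff_coeff_lifts p).2 fun n => hf _) hp
    obtain ⟨q, hq, -, hqm⟩ := hmon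
    refine ⟨q, hqm, ?_⟩
    rw [← hq, Polynomial.eval₂_map] at hp0
    exact hp0
  have h4 : IsIntegral V (Algebra.trace k K z) := Algebra.isIntegral_trace h3
  obtain ⟨y, hy⟩ := IsIntegrallyClosed.isIntegral_iff.1 h4
  rw [← hy]
  exact y.2

lemma trace_div_mem {V : ValuationSubring k} (hr : IsRankOne V) (hV : V ≠ ⊤) {z : K} {d : k}
    (hz : ∀ W ∈ above K V, z / algebraMap k K d ∈ W) : Algebra.trace k K z / d ∈ V := by
  have h1 := trace_mem hr hV hz
  have h2 : z / algebraMap k K d = d⁻¹ • z := by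
    rw [Algebra.smul_def, map_inv₀]; ring
  rw [h2, LinearMap.map_smul, smul_eq_mul] at h1
  rwa [div_eq_mul_inv, mul_comm]

/-- Simultaneous local triviality. -/
lemma GoodEmb.LT_simul {φ : RatFunc F →+* K} (hφ : GoodEmb φ) {t : K} (ht : IsTwoBasis t)
    (S : Finset (ValuationSubring K)) (hS : ∀ W ∈ S, W ≠ ⊤) (b : K)
    (hb : ∀ W ∈ S, LT ht W b) (d : K) (hd : d ≠ 0) :
    ∃ P : K, ∀ W ∈ S, (b + P + ht.cart P) / d ∈ W := by
  have h2 : ∀ x : K, x + x = 0 := fun x => CharTwo.add_self_eq_zero x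
  choose! Q hQ using fun W hW => hb W hW d hd
  -- precision
  have hprec : ∀ W ∈ S, ∃ ρ : K, ρ ≠ 0 ∧ ∀ x : K, x / ρ ∈ W → (x + ht.cart x) / d ∈ W := by
    intro W hW
    obtain ⟨s, hs0, hs⟩ := hφ.cartBdd (hS W hW) ht
    obtain ⟨r, hr0, hr, hrc⟩ := exists_small (hS W hW) ![d⁻¹, s / d]
    refine ⟨r ^ 2, pow_ne_zero _ hr0, fun x hx => ?_⟩
    have e1 : ht.cart x = r * ht.cart (x / r ^ 2) := by
      have : x = r ^ 2 * (x / r ^ 2) := by field_simp
      nth_rewrite 1 [this]
      rw [ht.cart_sq_mul]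
    have e2 : (x + ht.cart x) / d = r * d⁻¹ * (r * (x / r ^ 2)) +
        r * (s / d) * (ht.cart (x / r ^ 2) / s) := by
      rw [e1]; field_simp
    rw [e2]
    have h3 : r * d⁻¹ ∈ W.nonunits := hrc 0
    have h4 : r * (s / d) ∈ W.nonunits := hrc 1
    exact W.add_mem _ _ (W.mul_mem _ _ (nonunits_mem h3) (W.mul_mem _ _ (nonunits_mem hr) hx))
      (W.mul_mem _ _ (nonunits_mem h4) (hs _ hx))
  choose! ρ hρ0 hρ using hprec
  obtain ⟨P, hP⟩ := weak_approx S (fun W hW => ⟨hφ.rankOne (hS W hW), hS W hW⟩) Q ρ hρ0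
  refine ⟨P, fun W hW => ?_⟩
  have e1 : (b + P + ht.cart P) / d = (b + Q W + ht.cart (Q W)) / d +
      ((P - Q W) + ht.cart (P - Q W)) / d := by
    have : ht.cart P = ht.cart (P - Q W) + ht.cart (Q W) := by
      rw [← ht.cart_add, sub_add_cancel]
    rw [this, ← add_div]
    congr 1
    linear_combination h2 (ht.cart (Q W)) - h2 (ht.cart (Q W))
  rw [e1]
  exact W.add_mem _ _ (hQ W hW) (hρ W hW _ (hP W hW))

/-- The trace of a locally trivial element is locally trivial. -/
lemma GoodEmb.LT_trace {φ : RatFunc F →+* k} (hφ : GoodEmb φ) {V : ValuationSubring k}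
    (hV : V ≠ ⊤) {t : k} (ht : IsTwoBasis t) (htK : IsTwoBasis (algebraMap k K t)) {b : K}
    (hb : ∀ W ∈ above K V, LT htK W b) : LT ht V (Algebra.trace k K b) := by
  intro d hd
  have hfin := hφ.above_finite (K := K) hV
  have hdK : algebraMap k K d ≠ 0 := by rwa [Ne, map_eq_zero]
  obtain ⟨P, hP⟩ := (hφ.ext (K := K)).LT_simul htK hfin.toFinset
    (fun W hW => above_ne_top hV (hfin.mem_toFinset.1 hW)) b
    (fun W hW => hb W (hfin.mem_toFinset.1 hW)) (algebraMap k K d) hdK
  refine ⟨Algebra.trace k K P, ?_⟩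
  have h1 := trace_div_mem (hφ.rankOne hV) hV (z := b + P + htK.cart P) (d := d)
    (fun W hW => hP W (hfin.mem_toFinset.2 hW))
  rwa [map_add, map_add, ht.trace_cart htK] at h1

/-- An element of given trace which is small above `V` except at one place. -/
lemma GoodEmb.exists_trace_eq {φ : RatFunc F →+* k} (hφ : GoodEmb φ) {V : ValuationSubring k}
    (hV : V ≠ ⊤) {W₀ : ValuationSubring K} (hW₀ : W₀ ∈ above K V) (c : k)
    (δ : ValuationSubring K → K) (hδ : ∀ W ∈ above K V, δ W ≠ 0) :
    ∃ x : K, Algebra.trace k K x = c ∧ ∀ W ∈ above K V, W ≠ W₀ → x / δ W ∈ W := by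
  classical
  have hfin := hφ.above_finite (K := K) hV
  have hφK := hφ.ext (K := K)
  let b := Module.finBasis k K
  let b' := b.traceDual
  obtain ⟨π, hπ0, hπ⟩ := exists_nonunit hV
  -- the constant `D`
  obtain ⟨D, hD0, hD⟩ : ∃ D : k, D ≠ 0 ∧ ∀ j, algebraMap k K D * b' j ∈ W₀.nonunits := by
    choose c hc0 hc using fun j => exists_mul_mem (k := k) W₀ (b' j)
    have hcm : ∀ j, ∃ c' : k, c' ≠ 0 ∧ c' ∈ V ∧ algebraMap k K c' * b' j ∈ W₀ := by
      intro j
      by_cases h : c j ∈ V
      · exact ⟨c j, hc0 j, h, hc j⟩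
      · refine ⟨1, one_ne_zero, V.one_mem, ?_⟩
        have h1 : (c j)⁻¹ ∈ V := nonunits_mem (notMem_iff_inv_nonunits h)
        have h2 : algebraMap k K 1 * b' j = algebraMap k K (c j)⁻¹ * (algebraMap k K (c j) * b' j) := by
          rw [← mul_assoc, ← map_mul, inv_mul_cancel₀ (hc0 j)]
        rw [h2]
        exact W₀.mul_mem _ _ ((mem_above_mem hW₀).2 h1) (hc j)
    choose c' hc'0 hc'V hc' using hcm
    refine ⟨π * ∏ j, c' j, mul_ne_zero hπ0 (Finset.prod_ne_zero_iff.2 fun j _ => hc'0 j), ?_⟩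
    intro j
    rw [← Finset.mul_prod_erase _ _ (Finset.mem_univ j), map_mul, map_mul]
    have h3 : algebraMap k K π * (algebraMap k K (c' j) * algebraMap k K
        (∏ i ∈ Finset.univ.erase j, c' i)) * b' j = algebraMap k K π *
        (algebraMap k K (∏ i ∈ Finset.univ.erase j, c' i) * (algebraMap k K (c' j) * b' j)) := by
      ring
    rw [h3]
    exact nonunits_mul ((mem_above_nonunits hW₀).2 hπ) (W₀.mul_mem _ _
      ((mem_above_mem hW₀).2 (prod_mem fun i _ => hc'V i)) (hc' j))
  -- the approximate idempotent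
  have hex : ∀ W ∈ above K V, ∃ ρ : K, ρ ≠ 0 ∧ ∀ ε : K, ε / ρ ∈ W → ∀ j,
      ε * b j * algebraMap k K (c / D) / δ W ∈ W := by
    intro W hW
    obtain ⟨r, hr0, hr, hrc⟩ := exists_small (above_ne_top hV hW)
      (fun j => b j * algebraMap k K (c / D) / δ W)
    refine ⟨r, hr0, fun ε hε j => ?_⟩
    have : ε * b j * algebraMap k K (c / D) / δ W =
        (ε / r) * (r * (b j * algebraMap k K (c / D) / δ W)) := by field_simp
    rw [this]
    exact W.mul_mem _ _ hε (nonunits_mem (hrc j))
  choose! ρ hρ0 hρ using hex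
  obtain ⟨ε, hε⟩ := weak_approx hfin.toFinset
    (fun W hW => ⟨hφK.rankOne (above_ne_top hV (hfin.mem_toFinset.1 hW)),
      above_ne_top hV (hfin.mem_toFinset.1 hW)⟩)
    (fun W => if W = W₀ then 1 else 0) (fun W => if W = W₀ then algebraMap k K π else ρ W) (by
      intro W hW
      by_cases h : W = W₀
      · simp only [if_pos h, ne_eq, map_eq_zero]; exact hπ0
      · simp only [if_neg h]; exact hρ0 W (hfin.mem_toFinset.1 hW))
  have hε0 : ε ∉ W₀.nonunits := by
    intro hn
    have h1 := hε W₀ (hfin.mem_toFinset.2 hW₀)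
    simp only [if_true] at h1
    have h2 : (1 : K) = ε - algebraMap k K π * ((ε - 1) / algebraMap k K π) := by
      have : algebraMap k K π ≠ 0 := by rwa [Ne, map_eq_zero]
      field_simp
      ring
    apply one_notMem_nonunits W₀
    rw [h2, CharTwo.sub_eq_add]
    exact nonunits_add hn (nonunits_mul ((mem_above_nonunits hW₀).2 hπ) h1)
  have hεW : ∀ W ∈ above K V, W ≠ W₀ → ε / ρ W ∈ W := by
    intro W hW hne
    have h1 := hε W (hfin.mem_toFinset.2 hW)
    simp only [if_neg hne, sub_zero] at h1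
    exact h1
  obtain ⟨j, hj⟩ : ∃ j, Algebra.trace k K (ε * b j) / D ∉ V := by
    by_contra hcon
    push Not at hcon
    apply hε0
    have h1 : ε = ∑ j, Algebra.trace k K (ε * b j) • b' j := by
      have h2 := b'.sum_repr ε
      nth_rewrite 1 [← h2]
      refine Finset.sum_congr rfl fun j _ => ?_
      congr 1
      rw [Module.Basis.traceDual_repr_apply, Algebra.traceForm_apply]
    have h3 : ∀ s : Finset (Fin (Module.finrank k K)), (∑ j ∈ s,
        Algebra.trace k K (ε * b j) • b' j) ∈ W₀.nonunits := by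
      intro s
      induction s using Finset.induction_on with
      | empty =>
        rw [Finset.sum_empty, ValuationSubring.mem_nonunits_iff, map_zero]
        exact zero_lt_one
      | insert a s ha ih =>
        rw [Finset.sum_insert ha]
        refine nonunits_add ?_ ih
        have h4 : Algebra.trace k K (ε * b a) • b' a =
            algebraMap k K (Algebra.trace k K (ε * b a) / D) * (algebraMap k K D * b' a) := by
          rw [← mul_assoc, ← map_mul, div_mul_cancel₀ _ hD0, Algebra.smul_def]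
        rw [h4]
        exact nonunits_mul' ((mem_above_mem hW₀).2 (hcon a)) (hD a)
    rw [h1]
    exact h3 _
  set s := Algebra.trace k K (ε * b j) with hs
  have hs0 : s ≠ 0 := by
    intro h0
    apply hj
    rw [h0, zero_div]
    exact V.zero_mem
  have hDs : D / s ∈ V := by
    have := nonunits_mem (notMem_iff_inv_nonunits hj)
    rwa [inv_div] at this
  refine ⟨(c / s) • (ε * b j), ?_, ?_⟩
  · rw [LinearMap.map_smul, ← hs, smul_eq_mul]
    field_simp
  · intro W hW hne
    have h1 : (c / s) • (ε * b j) / δ W = algebraMap k K (D / s) *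
        (ε * b j * algebraMap k K (c / D) / δ W) := by
      have h2 : algebraMap k K (c / s) = algebraMap k K (D / s) * algebraMap k K (c / D) := by
        rw [← map_mul]
        congr 1
        field_simp
      rw [Algebra.smul_def, h2]
      ring
    rw [h1]
    exact W.mul_mem _ _ ((mem_above_mem hW).2 hDs) (hρ W hW ε (hεW W hW hne) j)

/-- Injectivity of the local trace at one place. -/
lemma GoodEmb.LT_of_trace {φ : RatFunc F →+* k} (hφ : GoodEmb φ) {V : ValuationSubring k}
    (hV : V ≠ ⊤) {t : k} (ht : IsTwoBasis t) (htK : IsTwoBasis (algebraMap k K t))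
    {W₀ : ValuationSubring K} (hW₀ : W₀ ∈ above K V) {b : K}
    (hb : ∀ W ∈ above K V, W ≠ W₀ → LT htK W b) (hT : LT ht V (Algebra.trace k K b)) :
    LT htK W₀ b := by
  have hφK := hφ.ext (K := K)
  by_contra hcon
  obtain ⟨c, hc⟩ := hφ.exists_not_LT hV ht
  have hsm : ∀ W ∈ above K V, ∃ d : K, d ≠ 0 ∧ ∀ x : K, x / d ∈ W → LT htK W x :=
    fun W hW => hφK.LT_small (above_ne_top hV hW) htK
  choose! d hd0 hd using hsm
  obtain ⟨x, hx, hxW⟩ := hφ.exists_trace_eq hV hW₀ c d hd0
  have hxL : ∀ W ∈ above K V, W ≠ W₀ → LT htK W x := fun W hW hne => hd W hW x (hxW W hW hne)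
  have hx0 : ¬ LT htK W₀ x := by
    intro h0
    apply hc
    rw [← hx]
    refine hφ.LT_trace hV ht htK fun W hW => ?_
    by_cases hne : W = W₀
    · rw [hne]; exact h0
    · exact hxL W hW hne
  have hsum : LT ht V (Algebra.trace k K (b + x)) := by
    refine hφ.LT_trace hV ht htK fun W hW => ?_
    by_cases hne : W = W₀
    · rw [hne]
      exact hφK.LT_add (above_ne_top hV hW₀) hcon hx0
    · exact (hb W hW hne).add (hxL W hW hne)
  rw [map_add, hx] at hsum
  exact hc ((LT.congr hsum).1 hT)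

end

end Pool.Agent.Helper26
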