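import Mathlib
import Pool.Agent.Helper26.ExtPlaces
import Pool.Agent.Helper26.ChAlg

set_option autoImplicit false
set_option linter.unusedSectionVars false

/-!
# The fields attached to a polynomial and small linear functionals
-/

universe u v

namespace Pool.Agent.Helper26

open Polynomial Finset

/-- The family of fields attached to the factors of `P`. -/
structure IsFam {k : Type u} [Field k] (P : k[X]) {ι : Type*} [Fintype ι] (K : ι → Type u)
    [∀ i, Field (K i)] [∀ i, Algebra k (K i)] (θ : ∀ i, K i) : Prop where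
  dvd : ∀ D : k[X], (∀ i, aeval (θ i) D = 0) → P ∣ D
  crt : ∀ z : ∀ i, K i, ∃ D : k[X], D.natDegree < 4 ∧ ∀ i, aeval (θ i) D = z i
  root : ∀ i, aeval (θ i) P = 0

section

variable {F : Type v} {k K : Type u} [Field F] [Finite F] [CharP F 2] [Field k] [CharP k 2]
  [Field K] [CharP K 2] [Algebra k K] [FiniteDimensional k K] [Algebra.IsSeparable k K]

/-- Simultaneous norms up to a small error. -/
lemma GoodEmb.NW_simul {φ : RatFunc F →+* K} (hφ : GoodEmb φ)
    (S : Finset (ValuationSubring K)) (hS : ∀ W ∈ S, W ≠ ⊤) (a e : K)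
    (he : ∀ W ∈ S, NW W a e) (d : K) (hd : d ≠ 0) :
    ∃ X Y : K, ∀ W ∈ S, (e + nf a X Y) / d ∈ W := by
  choose! Q R hQ using fun W hW => he W hW d hd
  have hprec : ∀ W ∈ S, ∃ ρ : K, ρ ≠ 0 ∧ ρ ∈ W ∧ ρ * d⁻¹ ∈ W ∧ ρ * (a / d) ∈ W ∧
      ρ * (Q W / d) ∈ W ∧ ρ * (R W / d) ∈ W := by
    intro W hW
    obtain ⟨r, hr0, hr, hrc⟩ := exists_small (hS W hW) ![d⁻¹, a / d, Q W / d, R W / d]
    exact ⟨r, hr0, nonunits_mem hr, nonunits_mem (hrc 0), nonunits_mem (hrc 1),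
      nonunits_mem (hrc 2), nonunits_mem (hrc 3)⟩
  choose! ρ hρ0 hρ1 hρ2 hρ3 hρ4 hρ5 using hprec
  obtain ⟨X, hX⟩ := weak_approx S (fun W hW => ⟨hφ.rankOne (hS W hW), hS W hW⟩) Q ρ hρ0
  obtain ⟨Y, hY⟩ := weak_approx S (fun W hW => ⟨hφ.rankOne (hS W hW), hS W hW⟩) R ρ hρ0
  refine ⟨X, Y, fun W hW => ?_⟩
  have e1 : (e + nf a X Y) / d = (e + nf a (Q W) (R W)) / d +
      (((X - Q W) / ρ W) ^ 2 * (ρ W * (ρ W * d⁻¹)) +
      ((X - Q W) / ρ W) * ((Y - R W) / ρ W) * (ρ W * (ρ W * d⁻¹)) +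
      ((Y - R W) / ρ W) ^ 2 * (ρ W * (ρ W * (a / d))) +
      ((X - Q W) / ρ W) * (ρ W * (R W / d)) +
      ((Y - R W) / ρ W) * (ρ W * (Q W / d))) := by
    have h0 := hρ0 W hW
    have h2 : (2 : K) = 0 := CharTwo.two_eq_zero
    rw [nf, nf]
    field_simp
    linear_combination (a * Y * R W - a * R W ^ 2 + X * Q W - Q W ^ 2) * h2
  rw [e1]
  have hx := hX W hW
  have hy := hY W hW
  refine W.add_mem _ _ (hQ W hW) (W.add_mem _ _ (W.add_mem _ _ (W.add_mem _ _ (W.add_mem _ _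
    ?_ ?_) ?_) ?_) ?_)
  · exact W.mul_mem _ _ (pow_mem hx 2) (W.mul_mem _ _ (hρ1 W hW) (hρ2 W hW))
  · exact W.mul_mem _ _ (W.mul_mem _ _ hx hy) (W.mul_mem _ _ (hρ1 W hW) (hρ2 W hW))
  · exact W.mul_mem _ _ (pow_mem hy 2) (W.mul_mem _ _ (hρ1 W hW) (hρ3 W hW))
  · exact W.mul_mem _ _ hx (hρ5 W hW)
  · exact W.mul_mem _ _ hy (hρ4 W hW)

/-- A common denominator in `k`. -/
lemma exists_mul_mem_above {V : ValuationSubring k} (hV : V ≠ ⊤) (hfin : (above K V).Finite)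
    {J : Type*} [Finite J] (w : J → K) :
    ∃ c : k, c ≠ 0 ∧ ∀ W ∈ above K V, ∀ j, algebraMap k K c * w j ∈ W := by
  have : Finite (above K V) := hfin
  choose c hc0 hc using fun p : above K V × J => exists_mul_mem (k := k) p.1.1 (w p.2)
  obtain ⟨x, hx0, hx, hxc⟩ := exists_big V fun p => (c p)⁻¹
  refine ⟨x⁻¹, inv_ne_zero hx0, fun W hW j => ?_⟩
  have h1 := hxc (⟨W, hW⟩, j)
  have h2 := hc (⟨W, hW⟩, j)
  have h3 : algebraMap k K x⁻¹ * w j =
      algebraMap k K ((c (⟨W, hW⟩, j))⁻¹ / x) * (algebraMap k K (c (⟨W, hW⟩, j)) * w j) := by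
    rw [← mul_assoc, ← map_mul]
    congr 2
    have := hc0 (⟨W, hW⟩, j)
    field_simp
  rw [h3]
  exact W.mul_mem _ _ ((mem_above_mem hW).2 h1) h2

lemma coord_small {V : ValuationSubring k} (hr : IsRankOne V) (hV : V ≠ ⊤)
    (hfin : (above K V).Finite) {J : Type*} [Fintype J] (b : Module.Basis J k K) (d : k)
    (hd : d ≠ 0) :
    ∃ δ : k, δ ≠ 0 ∧ ∀ z : K, (∀ W ∈ above K V, z / algebraMap k K δ ∈ W) →
      ∀ j, b.repr z j / d ∈ V := by
  classical
  let b' := b.traceDual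
  have hb' : ∀ z j, b.repr z j = Algebra.trace k K (z * b' j) := by
    intro z j
    have h1 : b'.traceDual = b := Module.Basis.traceDual_traceDual b
    have h2 := Module.Basis.traceDual_repr_apply b' z j
    rw [h1] at h2
    rw [h2, Algebra.traceForm_apply]
  obtain ⟨c, hc0, hc⟩ := exists_mul_mem_above (K := K) hV hfin
    (fun j => b' j / algebraMap k K d)
  refine ⟨c, hc0, fun z hz j => ?_⟩
  rw [hb']
  apply trace_div_mem hr hV
  intro W hW
  have h1 : algebraMap k K c ≠ 0 := by rwa [Ne, map_eq_zero]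
  have h2 : z * b' j / algebraMap k K d =
      z / algebraMap k K c * (algebraMap k K c * (b' j / algebraMap k K d)) := by
    field_simp
  rw [h2]
  exact W.mul_mem _ _ (hz W hW) (hc W hW j)

end

section

variable {F : Type v} {k : Type u} [Field F] [Finite F] [CharP F 2] [Field k] [CharP k 2]
  {ι : Type*} [Fintype ι] {K : ι → Type u} [∀ i, Field (K i)] [∀ i, CharP (K i) 2]
  [∀ i, Algebra k (K i)] [∀ i, FiniteDimensional k (K i)] [∀ i, Algebra.IsSeparable k (K i)]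

/-- Linear functionals are small on small families. -/
lemma functional_small {V : ValuationSubring k} (hr : IsRankOne V) (hV : V ≠ ⊤)
    (hfin : ∀ i, (above (K i) V).Finite) {J : Type*} [Finite J] (ℓ : J → (∀ i, K i) →ₗ[k] k)
    (d : k) (hd : d ≠ 0) :
    ∃ δ : k, δ ≠ 0 ∧ ∀ ξ : ∀ i, K i,
      (∀ i, ∀ W ∈ above (K i) V, ξ i / algebraMap k (K i) δ ∈ W) → ∀ j, ℓ j ξ / d ∈ V := by
  classical
  have := Fintype.ofFinite J
  let b := fun i => Module.finBasis k (K i)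
  -- the coefficients
  let co : J → (Σ i, Fin (Module.finrank k (K i))) → k :=
    fun j p => ℓ j (Pi.single p.1 (b p.1 p.2))
  obtain ⟨w, hw0, hw, hwc⟩ := exists_big V (fun q : J × (Σ i, Fin (Module.finrank k (K i))) =>
    co q.1 q.2)
  have hd' : d / w ≠ 0 := div_ne_zero hd hw0
  choose δ hδ0 hδ using fun i => coord_small (K := K i) hr hV (hfin i) (b i) (d / w) hd'
  obtain ⟨x, hx0, hx, hxc⟩ := exists_big V fun i => (δ i)⁻¹
  refine ⟨x⁻¹, inv_ne_zero hx0, fun ξ hξ j => ?_⟩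
  have h1 : ∀ i j, (b i).repr (ξ i) j / (d / w) ∈ V := by
    intro i
    apply hδ i
    intro W hW
    have h2 : ξ i / algebraMap k (K i) (δ i) =
        ξ i / algebraMap k (K i) x⁻¹ * algebraMap k (K i) ((δ i)⁻¹ / x) := by
      have h3 : algebraMap k (K i) x ≠ 0 := by rwa [Ne, map_eq_zero]
      have h4 : algebraMap k (K i) (δ i) ≠ 0 := by rw [Ne, map_eq_zero]; exact hδ0 i
      rw [map_div₀, map_inv₀, map_inv₀]
      field_simp
    rw [h2]
    exact W.mul_mem _ _ (hξ i W hW) ((mem_above_mem hW).2 (hxc i))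
  have h2 : ξ = ∑ i, Pi.single i (ξ i) := by
    ext i
    rw [Finset.sum_apply, Finset.sum_eq_single i]
    · rw [Pi.single_eq_same]
    · intro i' _ hne
      rw [Pi.single_eq_of_ne hne.symm]
    · intro h; exact absurd (Finset.mem_univ i) h
  have h3 : ℓ j ξ = ∑ i, ∑ m, (b i).repr (ξ i) m * co j ⟨i, m⟩ := by
    nth_rewrite 1 [h2]
    rw [map_sum]
    refine Finset.sum_congr rfl fun i _ => ?_
    have h4 := (b i).sum_repr (ξ i)
    nth_rewrite 1 [← h4]
    have h5 : (Pi.single i (∑ m, (b i).repr (ξ i) m • (b i) m) : ∀ i, K i) =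
        ∑ m, (b i).repr (ξ i) m • Pi.single i ((b i) m) := by
      have h6 := map_sum (LinearMap.single k K i) (fun m => (b i).repr (ξ i) m • (b i) m)
        Finset.univ
      simp only [LinearMap.coe_single, LinearMap.map_smul] at h6
      exact h6
    rw [h5, map_sum]
    refine Finset.sum_congr rfl fun m _ => ?_
    rw [LinearMap.map_smul, smul_eq_mul]
  rw [h3, Finset.sum_div]
  refine sum_mem fun i _ => ?_
  rw [Finset.sum_div]
  refine sum_mem fun m _ => ?_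
  have h4 : (b i).repr (ξ i) m * co j ⟨i, m⟩ / d =
      (b i).repr (ξ i) m / (d / w) * (co j ⟨i, m⟩ / w) := by
    field_simp
  rw [h4]
  exact V.mul_mem _ _ (h1 i m) (hwc (j, ⟨i, m⟩))

/-- The functional `ξ ↦ τ(D Ξ)`. -/
lemma IsFam.exists_functional {P : k[X]} (hP : P.Monic) {θ : ∀ i, K i} (hF : IsFam P K θ)
    (D : k[X]) : ∃ ℓ : (∀ i, K i) →ₗ[k] k, ∀ Ξ : k[X],
      ℓ (fun i => aeval (θ i) Ξ) = tau P (D * Ξ) := by
  choose R hR4 hR using hF.crt
  have hR' : ∀ (z : ∀ i, K i) (Ξ : k[X]), (∀ i, aeval (θ i) Ξ = z i) →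
      tau P (D * R z) = tau P (D * Ξ) := by
    intro z Ξ h
    apply tau_eq_of_dvd hP
    rw [← mul_sub]
    refine Dvd.dvd.mul_left (hF.dvd _ fun i => ?_) _
    rw [map_sub, hR, h, sub_self]
  refine ⟨{ toFun := fun z => tau P (D * R z), map_add' := ?_, map_smul' := ?_ }, ?_⟩
  · intro x y
    rw [hR' (x + y) (R x + R y) (fun i => by rw [map_add, hR, hR, Pi.add_apply]), mul_add,
      tau_add]
  · intro c x
    rw [hR' (c • x) (C c * R x) (fun i => by
      rw [map_mul, hR, aeval_C, Pi.smul_apply, Algebra.smul_def]), RingHom.id_apply,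
      smul_eq_mul, ← tau_C_mul]
    congr 1
    ring
  · intro Ξ
    exact hR' _ _ fun i => rfl

/-- Small families give small values of `τ`. -/
lemma IsFam.tau_small {P : k[X]} (hP : P.Monic) {θ : ∀ i, K i} (hF : IsFam P K θ)
    {V : ValuationSubring k} (hr : IsRankOne V) (hV : V ≠ ⊤)
    (hfin : ∀ i, (above (K i) V).Finite) {J : Type*} [Finite J] (D : J → k[X])
    (d : k) (hd : d ≠ 0) :
    ∃ δ : k, δ ≠ 0 ∧ ∀ Ξ : k[X],
      (∀ i, ∀ W ∈ above (K i) V, aeval (θ i) Ξ / algebraMap k (K i) δ ∈ W) →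
      ∀ j, tau P (D j * Ξ) / d ∈ V := by
  choose ℓ hℓ using fun j => hF.exists_functional hP (D j)
  obtain ⟨δ, hδ0, hδ⟩ := functional_small hr hV hfin ℓ d hd
  refine ⟨δ, hδ0, fun Ξ hΞ j => ?_⟩
  rw [← hℓ]
  exact hδ _ hΞ j

end

end Pool.Agent.Helper26
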