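import Mathlib
import Pool.Agent.Helper26.QF

set_option autoImplicit false
set_option linter.unusedSectionVars false

/-!
# The kernel of a pencil of alternating matrices of size seven
-/

namespace Pool.Agent.Helper26

open Matrix Finset Polynomial

section

variable {k : Type*} [Field k] [CharP k 2]

/-- A pencil of matrices as a matrix of polynomials. -/
noncomputable def pencil {m : ℕ} (A B : Matrix (Fin m) (Fin m) k) : Matrix (Fin m) (Fin m) k[X] :=
  (X : k[X]) • A.map C + B.map C

lemma adjugate_pencil {m : ℕ} (A B : Matrix (Fin (m + 1)) (Fin (m + 1)) k) (i j : Fin (m + 1)) :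
    ((pencil A B).adjugate i j).natDegree ≤ m ∧
      ((pencil A B).adjugate i j).coeff m = A.adjugate i j := by
  have hneg : ∀ n : ℕ, ((-1 : k[X])) ^ n = 1 := by
    intro n
    rw [CharTwo.neg_eq, one_pow]
  have hneg' : ∀ n : ℕ, ((-1 : k)) ^ n = 1 := by
    intro n
    rw [CharTwo.neg_eq, one_pow]
  have h1 : (pencil A B).submatrix j.succAbove i.succAbove =
      (X : k[X]) • (A.submatrix j.succAbove i.succAbove).map C +
        (B.submatrix j.succAbove i.succAbove).map C := by
    ext a b
    simp [pencil]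
  rw [Matrix.adjugate_fin_succ_eq_det_submatrix, Matrix.adjugate_fin_succ_eq_det_submatrix, h1,
    hneg, hneg', one_mul, one_mul]
  constructor
  · have := natDegree_det_X_add_C_le (A.submatrix j.succAbove i.succAbove)
      (B.submatrix j.succAbove i.succAbove)
    rwa [Fintype.card_fin] at this
  · have := coeff_det_X_add_C_card (A.submatrix j.succAbove i.succAbove)
      (B.submatrix j.succAbove i.succAbove)
    rwa [Fintype.card_fin] at this

/-- The vector of polynomials with given coefficient vectors. -/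
noncomputable def polyVec {m : ℕ} (q : Fin 4 → Fin m → k) : Fin m → k[X] := fun i =>
  C (q 0 i) + C (q 1 i) * X + C (q 2 i) * X ^ 2 + C (q 3 i) * X ^ 3

lemma map_mulVec_C {m : ℕ} (A : Matrix (Fin m) (Fin m) k) (v : Fin m → k) :
    (A.map C).mulVec (fun i => C (v i)) = fun i => C (A.mulVec v i) := by
  ext1 i
  simp [Matrix.mulVec, dotProduct]

lemma pencil_mulVec_polyVec {m : ℕ} (A B : Matrix (Fin m) (Fin m) k) (q : Fin 4 → Fin m → k) :
    (pencil A B).mulVec (polyVec q) = fun i => C (B.mulVec (q 0) i) +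
      C (A.mulVec (q 0) i + B.mulVec (q 1) i) * X + C (A.mulVec (q 1) i + B.mulVec (q 2) i) * X ^ 2 +
      C (A.mulVec (q 2) i + B.mulVec (q 3) i) * X ^ 3 + C (A.mulVec (q 3) i) * X ^ 4 := by
  have h1 : polyVec q = (fun i => C (q 0 i)) + (X : k[X]) • (fun i => C (q 1 i)) +
      (X ^ 2 : k[X]) • (fun i => C (q 2 i)) + (X ^ 3 : k[X]) • (fun i => C (q 3 i)) := by
    ext1 i
    simp only [polyVec, Pi.add_apply, Pi.smul_apply, smul_eq_mul]
    ring
  rw [h1, pencil, Matrix.add_mulVec, Matrix.smul_mulVec]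
  simp only [Matrix.mulVec_add, Matrix.mulVec_smul, map_mulVec_C]
  ext1 i
  simp only [Pi.add_apply, Pi.smul_apply, smul_eq_mul, map_add]
  ring

lemma coeff_quartic (a b c d e : k) :
    (C a + C b * X + C c * X ^ 2 + C d * X ^ 3 + C e * X ^ 4 : k[X]).coeff 0 = a ∧
    (C a + C b * X + C c * X ^ 2 + C d * X ^ 3 + C e * X ^ 4 : k[X]).coeff 1 = b ∧
    (C a + C b * X + C c * X ^ 2 + C d * X ^ 3 + C e * X ^ 4 : k[X]).coeff 2 = c ∧
    (C a + C b * X + C c * X ^ 2 + C d * X ^ 3 + C e * X ^ 4 : k[X]).coeff 3 = d ∧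
    (C a + C b * X + C c * X ^ 2 + C d * X ^ 3 + C e * X ^ 4 : k[X]).coeff 4 = e := by
  refine ⟨?_, ?_, ?_, ?_, ?_⟩ <;> simp [coeff_X, coeff_C]

lemma pencil_mulVec_polyVec_eq_zero {m : ℕ} (A B : Matrix (Fin m) (Fin m) k)
    (q : Fin 4 → Fin m → k) :
    (pencil A B).mulVec (polyVec q) = 0 ↔ B.mulVec (q 0) = 0 ∧
      A.mulVec (q 0) = B.mulVec (q 1) ∧ A.mulVec (q 1) = B.mulVec (q 2) ∧
      A.mulVec (q 2) = B.mulVec (q 3) ∧ A.mulVec (q 3) = 0 := by
  rw [pencil_mulVec_polyVec]
  constructor
  · intro h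
    have h1 : ∀ i, _ := fun i => congrFun h i
    refine ⟨?_, ?_, ?_, ?_, ?_⟩
    · ext i
      have h2 := congrArg (fun p => p.coeff 0) (h1 i)
      simpa [(coeff_quartic _ _ _ _ _).1] using h2
    · ext i
      have h2 := congrArg (fun p => p.coeff 1) (h1 i)
      simp only [(coeff_quartic _ _ _ _ _).2.1, Pi.zero_apply, coeff_zero] at h2
      exact CharTwo.add_eq_zero.1 h2
    · ext i
      have h2 := congrArg (fun p => p.coeff 2) (h1 i)
      simp only [(coeff_quartic _ _ _ _ _).2.2.1, Pi.zero_apply, coeff_zero] at h2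
      exact CharTwo.add_eq_zero.1 h2
    · ext i
      have h2 := congrArg (fun p => p.coeff 3) (h1 i)
      simp only [(coeff_quartic _ _ _ _ _).2.2.2.1, Pi.zero_apply, coeff_zero] at h2
      exact CharTwo.add_eq_zero.1 h2
    · ext i
      have h2 := congrArg (fun p => p.coeff 4) (h1 i)
      simp only [(coeff_quartic _ _ _ _ _).2.2.2.2, Pi.zero_apply, coeff_zero] at h2
      exact h2
  · rintro ⟨h0, h1, h2, h3, h4⟩
    ext1 i
    rw [h0, h1, h2, h3, h4]
    simp [CharTwo.add_self_eq_zero]

/-- The structure of the pencil. -/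
theorem exists_kernel {m : ℕ} (hm : m = 6) (A B : Matrix (Fin (m + 1)) (Fin (m + 1)) k) (hAs : ∀ i j, A i j = A j i)
    (hBs : ∀ i j, B i j = B j i) (hAd : ∀ i, A i i = 0) (hBd : ∀ i, B i i = 0)
    (hadj : ∀ a b : AlgebraicClosure k, (a ≠ 0 ∨ b ≠ 0) →
      (a • A.map (algebraMap k (AlgebraicClosure k)) +
        b • B.map (algebraMap k (AlgebraicClosure k))).adjugate ≠ 0) :
    ∃ p : Fin 4 → Fin (m + 1) → k, (B.mulVec (p 0) = 0 ∧
      A.mulVec (p 0) = B.mulVec (p 1) ∧ A.mulVec (p 1) = B.mulVec (p 2) ∧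
      A.mulVec (p 2) = B.mulVec (p 3) ∧ A.mulVec (p 3) = 0) ∧
      (∀ a₀ a₁ a₂ : k, a₀ • A.mulVec (p 0) + a₁ • A.mulVec (p 1) + a₂ • A.mulVec (p 2) = 0 →
        a₀ = 0 ∧ a₁ = 0 ∧ a₂ = 0) ∧ p 3 ≠ 0 ∧
      ∀ r : AlgebraicClosure k, ∃ i, algebraMap k (AlgebraicClosure k) (p 0 i) +
        algebraMap k (AlgebraicClosure k) (p 1 i) * r +
        algebraMap k (AlgebraicClosure k) (p 2 i) * r ^ 2 +
        algebraMap k (AlgebraicClosure k) (p 3 i) * r ^ 3 ≠ 0 := by
  obtain ⟨M, hM⟩ : ∃ M, M = pencil A B := ⟨_, rfl⟩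
  have hMapp : ∀ i j, M i j = X * C (A i j) + C (B i j) := by
    intro i j; simp [hM, pencil]
  have hMs : ∀ i j, M i j = M j i := by
    intro i j; rw [hMapp, hMapp, hAs, hBs]
  have hMd : ∀ i, M i i = 0 := by
    intro i; rw [hMapp, hAd, hBd]; simp
  have hdet : M.det = 0 := det_alt_odd (by rw [Fintype.card_fin, hm]; decide) M hMs hMd
  -- a nonzero minor
  obtain ⟨i₀, j₀, hij⟩ : ∃ i₀ j₀, A.adjugate i₀ j₀ ≠ 0 := by
    by_contra hcon
    push Not at hcon
    apply hadj 1 0 (Or.inl one_ne_zero)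
    have h1 : A.adjugate = 0 := by ext i j; exact hcon i j
    rw [one_smul, zero_smul, add_zero]
    have h2 := RingHom.map_adjugate (algebraMap k (AlgebraicClosure k)) A
    rw [h1, map_zero] at h2
    exact h2.symm
  have hMij : M.adjugate i₀ j₀ ≠ 0 := by
    intro h0
    apply hij
    rw [← (adjugate_pencil A B i₀ j₀).2, ← hM, h0, coeff_zero]
  -- kernel vectors vanishing at `i₀`
  have hker0 : ∀ u : Fin (m + 1) → k[X], M.mulVec u = 0 → u i₀ = 0 → u = 0 := by
    intro u hu hu0
    have hd : (M.submatrix j₀.succAbove i₀.succAbove).det ≠ 0 := by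
      intro h0
      apply hMij
      rw [Matrix.adjugate_fin_succ_eq_det_submatrix, h0, mul_zero]
    have h1 : (M.submatrix j₀.succAbove i₀.succAbove).mulVec (fun i => u (i₀.succAbove i)) = 0 := by
      ext1 a
      have h2 := congrFun hu (j₀.succAbove a)
      rw [Matrix.mulVec, dotProduct, Fin.sum_univ_succAbove _ i₀, hu0, mul_zero, zero_add] at h2
      exact h2
    have h3 := Matrix.eq_zero_of_mulVec_eq_zero hd h1
    ext1 i
    rcases Fin.eq_self_or_eq_succAbove i₀ i with h | ⟨i', h⟩
    · rw [h]; exact hu0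
    · rw [h]; exact congrFun h3 i'
  -- the primitive kernel vector
  set v : Fin (m + 1) → k[X] := fun i => M.adjugate i j₀ with hv
  have hMv : M.mulVec v = 0 := by
    ext1 i
    have h1 := congrFun (congrFun (Matrix.mul_adjugate M) i) j₀
    rw [hdet, zero_smul] at h1
    exact h1
  obtain ⟨d, hd⟩ := (IsPrincipalIdealRing.principal (Ideal.span (Set.range v))).principal
  have hd' : Ideal.span (Set.range v) = Ideal.span {d} := hd
  have hvd : ∀ i, ∃ p : k[X], v i = d * p := by
    intro i
    have h1 : v i ∈ Ideal.span {d} := by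
      rw [← hd']; exact Ideal.subset_span ⟨i, rfl⟩
    exact Ideal.mem_span_singleton.1 h1
  choose p hp using hvd
  have hd0 : d ≠ 0 := by
    rintro rfl
    apply hMij
    have := hp i₀
    rwa [zero_mul] at this
  obtain ⟨c, hc⟩ : ∃ c : Fin (m + 1) → k[X], ∑ i, c i * p i = 1 := by
    have h1 : d ∈ Ideal.span (Set.range v) := by
      rw [hd']; exact Ideal.mem_span_singleton_self d
    obtain ⟨c, hc⟩ := Ideal.mem_span_range_iff_exists_fun.1 h1
    refine ⟨c, ?_⟩
    apply mul_left_cancel₀ hd0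
    calc d * ∑ i, c i * p i = ∑ i, c i * v i := by
          rw [Finset.mul_sum]
          refine Finset.sum_congr rfl fun i _ => ?_
          rw [hp i]
          ring
      _ = d * 1 := by rw [mul_one]; exact hc
  have hvp : v = d • p := by ext1 i; rw [hp i]; rfl
  have hMp : M.mulVec p = 0 := by
    rw [hvp, Matrix.mulVec_smul] at hMv
    exact (smul_eq_zero.1 hMv).resolve_left hd0
  have hp0 : p ≠ 0 := by
    intro h0
    rw [h0] at hc
    simp at hc
  have hpi : p i₀ ≠ 0 := fun h => hp0 (hker0 p hMp h)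
  -- all kernel vectors
  have hker : ∀ w : Fin (m + 1) → k[X], M.mulVec w = 0 → ∃ e : k[X], w = e • p := by
    intro w hw
    have h1 : w i₀ • p - p i₀ • w = 0 := by
      apply hker0
      · rw [Matrix.mulVec_sub, Matrix.mulVec_smul, Matrix.mulVec_smul, hMp, hw, smul_zero,
          smul_zero, sub_zero]
      · simp only [Pi.sub_apply, Pi.smul_apply, smul_eq_mul]
        ring
    have h2 : ∀ i, w i₀ * p i = p i₀ * w i := by
      intro i
      have := congrFun h1 i
      simp only [Pi.sub_apply, Pi.smul_apply, smul_eq_mul, Pi.zero_apply] at this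
      exact sub_eq_zero.1 this
    have h3 : ∀ i j, w i * p j = w j * p i := by
      intro i j
      apply mul_left_cancel₀ hpi
      linear_combination (-p j) * h2 i + (p i) * h2 j
    refine ⟨∑ j, c j * w j, ?_⟩
    ext1 i
    rw [Pi.smul_apply, smul_eq_mul, Finset.sum_mul]
    calc w i = (∑ j, c j * p j) * w i := by rw [hc, one_mul]
      _ = ∑ j, c j * w j * p i := by
        rw [Finset.sum_mul]
        refine Finset.sum_congr rfl fun j _ => ?_
        linear_combination c j * h3 i j
  -- the adjugate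
  have hcol : ∀ j, ∃ e : k[X], (fun i => M.adjugate i j) = e • p := by
    intro j
    apply hker
    ext1 i
    have h1 := congrFun (congrFun (Matrix.mul_adjugate M) i) j
    rw [hdet, zero_smul] at h1
    exact h1
  choose e he using hcol
  have he' : ∀ i j, M.adjugate i j = e j * p i := fun i j => congrFun (he j) i
  have hMT : Mᵀ = M := Matrix.ext fun i j => hMs j i
  have hadjs : ∀ i j, M.adjugate i j = M.adjugate j i := by
    intro i j
    have h1 := Matrix.adjugate_transpose M
    rw [hMT] at h1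
    have h2 := congrArg (fun N => N j i) h1
    simpa only [Matrix.transpose_apply] using h2
  set f := ∑ i, c i * e i with hf
  have hadjf : ∀ i j, M.adjugate i j = f * (p i * p j) := by
    intro i j
    have h1 : e j = f * p j := by
      calc e j = (∑ i, c i * p i) * e j := by rw [hc, one_mul]
        _ = f * p j := by
          rw [hf, Finset.sum_mul, Finset.sum_mul]
          refine Finset.sum_congr rfl fun i _ => ?_
          have := hadjs i j
          rw [he', he'] at this
          linear_combination c i * this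
    rw [he', h1]
    ring
  have hf0 : f ≠ 0 := by
    rintro h0
    apply hMij
    rw [hadjf, h0, zero_mul]
  have hfdeg : f.degree = 0 := by
    by_contra hdeg
    obtain ⟨r, hr⟩ := IsAlgClosed.exists_aeval_eq_zero (AlgebraicClosure k) f hdeg
    apply hadj r 1 (Or.inr one_ne_zero)
    have h1 := RingHom.map_adjugate (aeval (R := k) r : k[X] →ₐ[k] AlgebraicClosure k).toRingHom M
    have h2 : ((aeval (R := k) r : k[X] →ₐ[k] AlgebraicClosure k).toRingHom).mapMatrix M =
        r • A.map (algebraMap k (AlgebraicClosure k)) +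
        (1 : AlgebraicClosure k) • B.map (algebraMap k (AlgebraicClosure k)) := by
      ext i j
      rw [RingHom.mapMatrix_apply, Matrix.map_apply, hMapp]
      change aeval r (X * C (A i j) + C (B i j)) = _
      rw [map_add, map_mul, aeval_X, aeval_C, aeval_C, one_smul, Matrix.add_apply,
        Matrix.smul_apply, Matrix.map_apply, Matrix.map_apply, smul_eq_mul]
    rw [h2] at h1
    rw [← h1]
    ext i j
    rw [RingHom.mapMatrix_apply, Matrix.map_apply, hadjf]
    have h3 : (aeval (R := k) r : k[X] →ₐ[k] AlgebraicClosure k).toRingHom f = 0 := hr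
    rw [map_mul, h3, zero_mul]
    rfl
  obtain ⟨f₀, hf₀⟩ : ∃ f₀ : k, f = C f₀ := ⟨f.coeff 0, eq_C_of_degree_eq_zero hfdeg⟩
  have hf₀0 : f₀ ≠ 0 := by
    rintro rfl
    apply hf0
    rw [hf₀, C_0]
  have hnd : ∀ i, (p i).natDegree ≤ 3 := by
    intro i
    by_cases hpi0 : p i = 0
    · rw [hpi0]; simp
    have h1 := (adjugate_pencil A B i i).1
    rw [← hM, hadjf, hf₀, natDegree_C_mul hf₀0, natDegree_mul hpi0 hpi0] at h1
    omega
  set q : Fin 4 → Fin (m + 1) → k := fun j i => (p i).coeff j with hq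
  have hpq : p = polyVec q := by
    ext1 i
    rw [(p i).as_sum_range' 4 (by have := hnd i; omega)]
    simp only [Finset.sum_range_succ, Finset.sum_range_zero, zero_add, polyVec, hq,
      ← C_mul_X_pow_eq_monomial, pow_zero, mul_one, pow_one]
    simp
  have hrel := (pencil_mulVec_polyVec_eq_zero A B q).1 (by rw [← hpq, ← hM]; exact hMp)
  have htop : f₀ * (q 3 i₀ * q 3 j₀) ≠ 0 := by
    have h1 := (adjugate_pencil A B i₀ j₀).2
    rw [← hM, hadjf, hf₀, coeff_C_mul] at h1
    have h2 : (p i₀ * p j₀).coeff m = q 3 i₀ * q 3 j₀ := by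
      have := coeff_mul_add_eq_of_natDegree_le (df := 3) (dg := 3) (hnd i₀) (hnd j₀)
      have h6 : m = 3 + 3 := by omega
      rw [h6]
      exact this
    rw [h2] at h1
    rw [h1]
    exact hij
  have hq3 : q 3 i₀ ≠ 0 := by
    intro h0
    rw [h0] at htop
    simp at htop
  have hq30 : q 3 ≠ 0 := fun h => hq3 (congrFun h i₀)
  have hnd0 : (p i₀).natDegree = 3 := le_antisymm (hnd i₀) (le_natDegree_of_ne_zero hq3)
  have hq0 : q 0 ≠ 0 := by
    intro h0
    have h1 := congrArg (eval 0) hc
    rw [eval_one, eval_finset_sum] at h1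
    have h2 : ∀ i, eval 0 (c i * p i) = 0 := by
      intro i
      rw [eval_mul, ← coeff_zero_eq_eval_zero (p i)]
      have : (p i).coeff 0 = 0 := congrFun h0 i
      rw [this, mul_zero]
    simp only [h2, Finset.sum_const_zero] at h1
    exact zero_ne_one h1
  refine ⟨q, hrel, ?_, hq30, ?_⟩
  · obtain ⟨r0, r1, r2, r3, r4⟩ := hrel
    intro a₀ a₁ a₂ h
    set q' : Fin 4 → Fin (m + 1) → k := ![a₂ • q 0, a₂ • q 1 + a₁ • q 0,
      a₂ • q 2 + a₁ • q 1 + a₀ • q 0, 0] with hq'
    have hk : M.mulVec (polyVec q') = 0 := by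
      rw [hM, pencil_mulVec_polyVec_eq_zero]
      refine ⟨?_, ?_, ?_, ?_, ?_⟩
      · change B.mulVec (a₂ • q 0) = 0
        rw [Matrix.mulVec_smul, r0, smul_zero]
      · change A.mulVec (a₂ • q 0) = B.mulVec (a₂ • q 1 + a₁ • q 0)
        rw [Matrix.mulVec_smul, Matrix.mulVec_add, Matrix.mulVec_smul, Matrix.mulVec_smul, r0, r1,
          smul_zero, add_zero]
      · change A.mulVec (a₂ • q 1 + a₁ • q 0) = B.mulVec (a₂ • q 2 + a₁ • q 1 + a₀ • q 0)
        rw [Matrix.mulVec_add, Matrix.mulVec_add, Matrix.mulVec_add, Matrix.mulVec_smul,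
          Matrix.mulVec_smul, Matrix.mulVec_smul, Matrix.mulVec_smul, Matrix.mulVec_smul, r0, r1,
          r2, smul_zero, add_zero]
      · change A.mulVec (a₂ • q 2 + a₁ • q 1 + a₀ • q 0) = B.mulVec 0
        rw [Matrix.mulVec_add, Matrix.mulVec_add, Matrix.mulVec_smul, Matrix.mulVec_smul,
          Matrix.mulVec_smul, Matrix.mulVec_zero, ← h]
        abel
      · change A.mulVec 0 = 0
        rw [Matrix.mulVec_zero]
    obtain ⟨g, hg⟩ := hker _ hk
    have hg0 : g = 0 := by
      by_contra hne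
      have h1 := congrFun hg i₀
      have h2 : (polyVec q' i₀).natDegree ≤ 2 := by
        simp only [polyVec, hq', Matrix.cons_val, Pi.zero_apply, C_0, zero_mul, add_zero]
        compute_degree
      rw [h1, Pi.smul_apply, smul_eq_mul, natDegree_mul hne hpi, hnd0] at h2
      omega
    rw [hg0, zero_smul] at hg
    have hz : ∀ i, q' 0 i = 0 ∧ q' 1 i = 0 ∧ q' 2 i = 0 := by
      intro i
      have h1 := congrFun hg i
      have h2 : polyVec q' i = C (q' 0 i) + C (q' 1 i) * X + C (q' 2 i) * X ^ 2 +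
        C (q' 3 i) * X ^ 3 + C 0 * X ^ 4 := by
        simp [polyVec]
      rw [h2] at h1
      refine ⟨?_, ?_, ?_⟩
      · have h3 := congrArg (fun p => p.coeff 0) h1
        simpa only [(coeff_quartic _ _ _ _ _).1, Pi.zero_apply, coeff_zero] using h3
      · have h3 := congrArg (fun p => p.coeff 1) h1
        simpa only [(coeff_quartic _ _ _ _ _).2.1, Pi.zero_apply, coeff_zero] using h3
      · have h3 := congrArg (fun p => p.coeff 2) h1
        simpa only [(coeff_quartic _ _ _ _ _).2.2.1, Pi.zero_apply, coeff_zero] using h3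
    obtain ⟨l, hl⟩ := Function.ne_iff.1 hq0
    have hl' : q 0 l ≠ 0 := hl
    obtain ⟨z0, z1, z2⟩ := hz l
    simp only [hq', Matrix.cons_val_zero, Matrix.cons_val_one, Matrix.cons_val, Pi.add_apply,
      Pi.smul_apply, smul_eq_mul] at z0 z1 z2
    have ha2 : a₂ = 0 := by
      rcases mul_eq_zero.1 z0 with h | h
      · exact h
      · exact absurd h hl'
    rw [ha2, zero_mul, zero_add] at z1
    have ha1 : a₁ = 0 := by
      rcases mul_eq_zero.1 z1 with h | h
      · exact h
      · exact absurd h hl'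
    rw [ha2, ha1, zero_mul, zero_mul, zero_add, zero_add] at z2
    have ha0 : a₀ = 0 := by
      rcases mul_eq_zero.1 z2 with h | h
      · exact h
      · exact absurd h hl'
    exact ⟨ha0, ha1, ha2⟩
  · intro r
    by_contra hcon
    push Not at hcon
    have h1 := congrArg (aeval (R := k) r) hc
    rw [map_one, map_sum] at h1
    have h2 : ∀ i, aeval r (c i * p i) = 0 := by
      intro i
      rw [map_mul]
      have h3 : aeval r (p i) = 0 := by
        rw [hpq]
        simp only [polyVec, map_add, map_mul, aeval_C, map_pow, aeval_X]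
        exact hcon i
      rw [h3, mul_zero]
    simp only [h2, Finset.sum_const_zero] at h1
    exact zero_ne_one h1

end

end Pool.Agent.Helper26
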