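import Mathlib
import Pool.Agent.Helper26.Kron
import Pool.Agent.Helper26.Forms
import Pool.Agent.Helper26.Sylv

set_option autoImplicit false
set_option linter.unusedSectionVars false

/-!
# Reduction of a smooth pair of quadratic forms in seven variables to the normal form
-/

namespace Pool.Agent.Helper26

open Matrix Finset

section

variable {n : Type*} [Fintype n] {R : Type*} [CommRing R]

lemma dot_smul_right (x : n → R) (M : Matrix n n R) (c : R) (y : n → R) :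
    x ⬝ᵥ M.mulVec (c • y) = c * (x ⬝ᵥ M.mulVec y) := by
  rw [Matrix.mulVec_smul, dotProduct_smul, smul_eq_mul]

lemma dot_smul_left (x : n → R) (M : Matrix n n R) (c : R) (y : n → R) :
    (c • x) ⬝ᵥ M.mulVec y = c * (x ⬝ᵥ M.mulVec y) := by
  rw [smul_dotProduct, smul_eq_mul]

lemma dot_add_right (x : n → R) (M : Matrix n n R) (y z : n → R) :
    x ⬝ᵥ M.mulVec (y + z) = x ⬝ᵥ M.mulVec y + x ⬝ᵥ M.mulVec z := by
  rw [Matrix.mulVec_add, dotProduct_add]

lemma dot_add_left (x y : n → R) (M : Matrix n n R) (z : n → R) :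
    (x + y) ⬝ᵥ M.mulVec z = x ⬝ᵥ M.mulVec z + y ⬝ᵥ M.mulVec z := by
  rw [add_dotProduct]

/-- The combination of the vectors of a frame. -/
def frameVec (p : Fin 4 → n → R) (y : Fin 3 → n → R) (x : Fin 4 → R) (c : Fin 3 → R) : n → R :=
  (x 0 • p 0 + x 1 • p 1 + x 2 • p 2 + x 3 • p 3) + (c 0 • y 0 + c 1 • y 1 + c 2 • y 2)

lemma qf_three (g : n → n → R) (y : Fin 3 → n → R) (c : Fin 3 → R) :
    qf g (c 0 • y 0 + c 1 • y 1 + c 2 • y 2) =
      ∑ i, ∑ j, (∑ l, ∑ l', g l l' * y i l * y j l') * c i * c j := by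
  have h1 : ∀ i j : Fin 3, (∑ l, ∑ l', g l l' * y i l * y j l') * c i * c j =
      ∑ l, ∑ l', g l l' * (c i * y i l) * (c j * y j l') := by
    intro i j
    rw [mul_assoc, Finset.sum_mul]
    refine Finset.sum_congr rfl fun l _ => ?_
    rw [Finset.sum_mul]
    refine Finset.sum_congr rfl fun l' _ => ?_
    ring
  simp only [h1, Fin.sum_univ_three, qf, Pi.add_apply, Pi.smul_apply, smul_eq_mul,
    ← Finset.sum_add_distrib]
  refine Finset.sum_congr rfl fun l _ => Finset.sum_congr rfl fun l' _ => ?_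
  ring

lemma qf_isotropic (g : n → n → R) (p : Fin 4 → n → R)
    (hiso : ∀ i j, p i ⬝ᵥ (pm g).mulVec (p j) = 0) (x : Fin 4 → R) :
    qf g (x 0 • p 0 + x 1 • p 1 + x 2 • p 2 + x 3 • p 3) =
      qf g (p 0) * x 0 ^ 2 + qf g (p 1) * x 1 ^ 2 + qf g (p 2) * x 2 ^ 2 +
        qf g (p 3) * x 3 ^ 2 := by
  simp only [qf_add, qf_smul, dot_add_left, dot_smul_left, dot_smul_right, hiso]
  ring

end

section

variable {k L : Type*} [Field k] [Field L]

/-- The Gram-type coefficients of the form on the complement. -/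
def gramY {n : Type*} [Fintype n] (g : n → n → k) (y : Fin 3 → n → k) : Fin 3 → Fin 3 → k :=
  fun i j => ∑ l, ∑ l', g l l' * y i l * y j l'

lemma qf_frame₁ {n : Type*} [Fintype n] (g : n → n → k) (p : Fin 4 → n → k) (y : Fin 3 → n → k)
    (hiso : ∀ i j, p i ⬝ᵥ (pm g).mulVec (p j) = 0)
    (hy : ∀ i j, y i ⬝ᵥ (pm g).mulVec (p j) = if j = i.castSucc then 1 else 0)
    (x : Fin 4 → k) (c : Fin 3 → k) :
    qf g (frameVec p y x c) = Q1 (fun j => qf g (p j)) (gramY g y) x c := by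
  rw [frameVec, qf_add, qf_isotropic g p hiso, qf_three, Q1, phi, lin1, quad]
  have h1 : (x 0 • p 0 + x 1 • p 1 + x 2 • p 2 + x 3 • p 3) ⬝ᵥ
      (pm g).mulVec (c 0 • y 0 + c 1 • y 1 + c 2 • y 2) = x 0 * c 0 + x 1 * c 1 + x 2 * c 2 := by
    rw [dot_symm (pm_symm g)]
    simp only [dot_add_left, dot_add_right, dot_smul_left, dot_smul_right, hy]
    simp [Fin.ext_iff]
  rw [h1]
  simp only [gramY]
  ring

lemma qf_frame₂ {n : Type*} [Fintype n] (g : n → n → k) (p : Fin 4 → n → k) (y : Fin 3 → n → k)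
    (hiso : ∀ i j, p i ⬝ᵥ (pm g).mulVec (p j) = 0)
    (hy : ∀ i j, y i ⬝ᵥ (pm g).mulVec (p j) = if j = i.succ then 1 else 0)
    (x : Fin 4 → k) (c : Fin 3 → k) :
    qf g (frameVec p y x c) = Q2 (fun j => qf g (p j)) (gramY g y) x c := by
  rw [frameVec, qf_add, qf_isotropic g p hiso, qf_three, Q2, phi, lin2, quad]
  have h1 : (x 0 • p 0 + x 1 • p 1 + x 2 • p 2 + x 3 • p 3) ⬝ᵥ
      (pm g).mulVec (c 0 • y 0 + c 1 • y 1 + c 2 • y 2) = x 1 * c 0 + x 2 * c 1 + x 3 * c 2 := by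
    rw [dot_symm (pm_symm g)]
    simp only [dot_add_left, dot_add_right, dot_smul_left, dot_smul_right, hy]
    simp [Fin.ext_iff]
  rw [h1]
  simp only [gramY]
  ring

/-- Isotropy of the span of the coefficients of the kernel vector. -/
lemma isotropy [CharP k 2] {n : Type*} [Fintype n] {A B : Matrix n n k} (hA : ∀ i j, A i j = A j i)
    (hB : ∀ i j, B i j = B j i) (p : Fin 4 → n → k) (r0 : B.mulVec (p 0) = 0)
    (r1 : A.mulVec (p 0) = B.mulVec (p 1)) (r2 : A.mulVec (p 1) = B.mulVec (p 2))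
    (r3 : A.mulVec (p 2) = B.mulVec (p 3)) (r4 : A.mulVec (p 3) = 0) :
    (∀ i j, p i ⬝ᵥ A.mulVec (p j) = 0) ∧ ∀ i j, p i ⬝ᵥ B.mulVec (p j) = 0 := by
  have a3 : ∀ i, p i ⬝ᵥ A.mulVec (p 3) = 0 := fun i => by rw [r4, dotProduct_zero]
  have a3' : ∀ i, p 3 ⬝ᵥ A.mulVec (p i) = 0 := fun i => by rw [dot_symm hA, a3]
  have b0 : ∀ i, p i ⬝ᵥ B.mulVec (p 0) = 0 := fun i => by rw [r0, dotProduct_zero]
  have b0' : ∀ i, p 0 ⬝ᵥ B.mulVec (p i) = 0 := fun i => by rw [dot_symm hB, b0]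
  have a2 : ∀ i, p i ⬝ᵥ A.mulVec (p 2) = 0 := by
    intro i
    fin_cases i
    · change p 0 ⬝ᵥ A.mulVec (p 2) = 0
      rw [r3]; exact b0' 3
    · change p 1 ⬝ᵥ A.mulVec (p 2) = 0
      rw [r3, dot_symm hB, ← r1]; exact a3' 0
    · change p 2 ⬝ᵥ A.mulVec (p 2) = 0
      rw [r3, dot_symm hB, ← r2]; exact a3' 1
    · exact a3' 2
  have a2' : ∀ i, p 2 ⬝ᵥ A.mulVec (p i) = 0 := fun i => by rw [dot_symm hA, a2]
  have a1 : ∀ i, p i ⬝ᵥ A.mulVec (p 1) = 0 := by
    intro i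
    fin_cases i
    · change p 0 ⬝ᵥ A.mulVec (p 1) = 0
      rw [r2]; exact b0' 2
    · change p 1 ⬝ᵥ A.mulVec (p 1) = 0
      rw [r2, dot_symm hB, ← r1]; exact a2' 0
    · exact a2' 1
    · exact a3' 1
  have a1' : ∀ i, p 1 ⬝ᵥ A.mulVec (p i) = 0 := fun i => by rw [dot_symm hA, a1]
  have a0 : ∀ i, p i ⬝ᵥ A.mulVec (p 0) = 0 := by
    intro i
    fin_cases i
    · change p 0 ⬝ᵥ A.mulVec (p 0) = 0
      rw [r1]; exact b0' 1
    · exact a1' 0
    · exact a2' 0
    · exact a3' 0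
  refine ⟨?_, ?_⟩
  · intro i j
    fin_cases j
    · exact a0 i
    · exact a1 i
    · exact a2 i
    · exact a3 i
  · intro i j
    fin_cases j
    · exact b0 i
    · change p i ⬝ᵥ B.mulVec (p 1) = 0
      rw [← r1]; exact a0 i
    · change p i ⬝ᵥ B.mulVec (p 2) = 0
      rw [← r2]; exact a1 i
    · change p i ⬝ᵥ B.mulVec (p 3) = 0
      rw [← r3]; exact a2 i

/-- Vectors dual to three linearly independent vectors. -/
lemma exists_dual {n : Type*} [Fintype n] [DecidableEq n] (w : Fin 3 → n → k)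
    (hw : ∀ a₀ a₁ a₂ : k, a₀ • w 0 + a₁ • w 1 + a₂ • w 2 = 0 → a₀ = 0 ∧ a₁ = 0 ∧ a₂ = 0) :
    ∃ y : Fin 3 → n → k, ∀ i j, y i ⬝ᵥ w j = if j = i then 1 else 0 := by
  have hli : LinearIndependent k w := by
    rw [Fintype.linearIndependent_iff]
    intro g hg i
    rw [Fin.sum_univ_three] at hg
    obtain ⟨h0, h1, h2⟩ := hw _ _ _ hg
    fin_cases i
    · exact h0
    · exact h1
    · exact h2
  have hsurj : Function.Surjective (fun v : n → k => fun j => v ⬝ᵥ w j) := by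
    have hrank : (Matrix.of w).rank = 3 := by
      have := LinearIndependent.rank_matrix (M := Matrix.of w) hli
      rwa [Fintype.card_fin] at this
    have htop : LinearMap.range (Matrix.of w).mulVecLin = ⊤ := by
      apply Submodule.eq_top_of_finrank_eq
      rw [Module.finrank_fintype_fun_eq_card, Fintype.card_fin]
      exact hrank
    intro b
    obtain ⟨v, hv⟩ := LinearMap.range_eq_top.1 htop b
    refine ⟨v, ?_⟩
    ext j
    have := congrFun hv j
    rw [← this]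
    simp only [Matrix.mulVecLin_apply, Matrix.mulVec, Matrix.of_apply]
    exact dotProduct_comm _ _
  choose y hy using fun i : Fin 3 => hsurj (fun j => if j = i then 1 else 0)
  exact ⟨y, fun i j => congrFun (hy i) j⟩

end

end Pool.Agent.Helper26
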