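import Mathlib
import Pool.Agent.Helper26.NormalForm

set_option autoImplicit false
set_option linter.unusedSectionVars false

/-!
# Frames adapted to a smooth pair of quadratic forms in seven variables
-/

namespace Pool.Agent.Helper26

open Matrix Finset Polynomial

section

variable {n : Type*} [Fintype n] {R S : Type*} [CommRing R] [CommRing S]

lemma mulVec_map (f : R →+* S) (M : Matrix n n R) (x : n → R) :
    (M.map f).mulVec (fun i => f (x i)) = fun i => f (M.mulVec x i) := by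
  ext1 i
  exact (RingHom.map_mulVec f M x i).symm

lemma dot_map (f : R →+* S) (M : Matrix n n R) (x y : n → R) :
    (fun i => f (x i)) ⬝ᵥ (M.map f).mulVec (fun i => f (y i)) = f (x ⬝ᵥ M.mulVec y) := by
  rw [mulVec_map, RingHom.map_dotProduct]
  rfl

end

section

variable {k : Type*} [Field k] [CharP k 2]

/-- The relations of the coefficients of the kernel vector. -/
def KerRel {n : Type*} [Fintype n] {R : Type*} [CommRing R] (A B : Matrix n n R)
    (p : Fin 4 → n → R) : Prop :=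
  B.mulVec (p 0) = 0 ∧ A.mulVec (p 0) = B.mulVec (p 1) ∧ A.mulVec (p 1) = B.mulVec (p 2) ∧
    A.mulVec (p 2) = B.mulVec (p 3) ∧ A.mulVec (p 3) = 0

lemma KerRel.map {n : Type*} [Fintype n] {R S : Type*} [CommRing R] [CommRing S] (f : R →+* S)
    {A B : Matrix n n R} {p : Fin 4 → n → R} (h : KerRel A B p) :
    KerRel (A.map f) (B.map f) (fun j i => f (p j i)) := by
  obtain ⟨r0, r1, r2, r3, r4⟩ := h
  refine ⟨?_, ?_, ?_, ?_, ?_⟩
  · change (B.map f).mulVec (fun i => f (p 0 i)) = 0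
    rw [mulVec_map, r0]; ext1 i; simp
  · change (A.map f).mulVec (fun i => f (p 0 i)) = (B.map f).mulVec (fun i => f (p 1 i))
    rw [mulVec_map, mulVec_map, r1]
  · change (A.map f).mulVec (fun i => f (p 1 i)) = (B.map f).mulVec (fun i => f (p 2 i))
    rw [mulVec_map, mulVec_map, r2]
  · change (A.map f).mulVec (fun i => f (p 2 i)) = (B.map f).mulVec (fun i => f (p 3 i))
    rw [mulVec_map, mulVec_map, r3]
  · change (A.map f).mulVec (fun i => f (p 3 i)) = 0
    rw [mulVec_map, r4]; ext1 i; simp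

/-- The value of the kernel vector. -/
def kerAt {n : Type*} {R : Type*} [CommRing R] (p : Fin 4 → n → R) (r : R) : n → R :=
  (1 : R) • p 0 + r • p 1 + r ^ 2 • p 2 + r ^ 3 • p 3

lemma KerRel.kerAt {n : Type*} [Fintype n] {R : Type*} [CommRing R] [CharP R 2]
    {A B : Matrix n n R} {p : Fin 4 → n → R} (h : KerRel A B p) (r : R) :
    (r • A + (1 : R) • B).mulVec (kerAt p r) = 0 := by
  obtain ⟨r0, r1, r2, r3, r4⟩ := h
  rw [Helper26.kerAt]
  simp only [Matrix.add_mulVec, Matrix.smul_mulVec, Matrix.mulVec_add, Matrix.mulVec_smul, r0, r4,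
    r1, r2, r3]
  ext1 i
  simp only [Pi.add_apply, Pi.smul_apply, smul_eq_mul, Pi.zero_apply]
  generalize B.mulVec (p 1) i = x1
  generalize B.mulVec (p 2) i = x2
  generalize B.mulVec (p 3) i = x3
  linear_combination r * CharTwo.add_self_eq_zero x1 + r ^ 2 * CharTwo.add_self_eq_zero x2 +
    r ^ 3 * CharTwo.add_self_eq_zero x3

lemma qf_kerAt {n : Type*} [Fintype n] {R : Type*} [CommRing R] (g : n → n → R)
    (p : Fin 4 → n → R) (hiso : ∀ i j, p i ⬝ᵥ (pm g).mulVec (p j) = 0) (r : R) :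
    qf g (kerAt p r) = qf g (p 0) + qf g (p 1) * r ^ 2 + qf g (p 2) * (r ^ 2) ^ 2 +
      qf g (p 3) * (r ^ 2) ^ 3 := by
  have h1 := qf_isotropic g p hiso ![1, r, r ^ 2, r ^ 3]
  simp only [Matrix.cons_val_zero, Matrix.cons_val_one, Matrix.cons_val] at h1
  rw [kerAt, h1]
  ring

/-- The data attached to a smooth pair. -/
theorem exists_kerData {m : ℕ} (hm : m = 6) (g₁ g₂ : Fin (m + 1) → Fin (m + 1) → k)
    (hs : JacInd (fun i j => algebraMap k (AlgebraicClosure k) (g₁ i j))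
      (fun i j => algebraMap k (AlgebraicClosure k) (g₂ i j))) :
    ∃ p : Fin 4 → Fin (m + 1) → k, KerRel (pm g₁) (pm g₂) p ∧
      (∀ a₀ a₁ a₂ : k, a₀ • (pm g₁).mulVec (p 0) + a₁ • (pm g₁).mulVec (p 1) +
        a₂ • (pm g₁).mulVec (p 2) = 0 → a₀ = 0 ∧ a₁ = 0 ∧ a₂ = 0) ∧ p 3 ≠ 0 ∧
      (∀ r : AlgebraicClosure k, kerAt (fun j i => algebraMap k (AlgebraicClosure k) (p j i)) r ≠ 0) ∧
      (sylvMat (fun j => qf g₁ (p j)) (fun j => qf g₂ (p j))).det ≠ 0 := by
  have hc : CharP (AlgebraicClosure k) 2 :=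
    charP_of_injective_algebraMap (algebraMap k (AlgebraicClosure k)).injective 2
  set φ := algebraMap k (AlgebraicClosure k) with hφ
  have hodd : Odd (m + 1) := by rw [hm]; decide
  have hadj : ∀ a b : AlgebraicClosure k, (a ≠ 0 ∨ b ≠ 0) →
      (a • (pm g₁).map φ + b • (pm g₂).map φ).adjugate ≠ 0 := by
    intro a b hab
    apply adjugate_ne_zero_of_ker_line _ hodd
    · intro i j
      simp only [Matrix.add_apply, Matrix.smul_apply, Matrix.map_apply, pm_symm g₁ i j,
        pm_symm g₂ i j]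
    · intro i
      simp only [Matrix.add_apply, Matrix.smul_apply, Matrix.map_apply, pm_diag, map_zero,
        smul_zero, add_zero]
    · intro x u hx hu hx0
      rw [pm_map, pm_map] at hx hu
      exact ker_line (by rw [Fintype.card_fin]; exact hodd) hs hab x u hx hu hx0
  obtain ⟨p, hrel, hind, hp3, hne⟩ := exists_kernel hm (pm g₁) (pm g₂) (pm_symm g₁) (pm_symm g₂)
    (pm_diag g₁) (pm_diag g₂) hadj
  have hrel' : KerRel (pm g₁) (pm g₂) p := hrel
  have hne' : ∀ r : AlgebraicClosure k, kerAt (fun j i => φ (p j i)) r ≠ 0 := by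
    intro r h0
    obtain ⟨i, hi⟩ := hne r
    apply hi
    have := congrFun h0 i
    simp only [kerAt, Pi.add_apply, Pi.smul_apply, smul_eq_mul, Pi.zero_apply] at this
    linear_combination this
  have hisok := isotropy (pm_symm g₁) (pm_symm g₂) p hrel.1 hrel.2.1 hrel.2.2.1 hrel.2.2.2.1
    hrel.2.2.2.2
  have hiso1 : ∀ i j, (fun l => φ (p i l)) ⬝ᵥ
      (pm (fun a b => φ (g₁ a b))).mulVec (fun l => φ (p j l)) = 0 := by
    intro i j
    rw [← pm_map, dot_map, hisok.1, map_zero]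
  have hiso2 : ∀ i j, (fun l => φ (p i l)) ⬝ᵥ
      (pm (fun a b => φ (g₂ a b))).mulVec (fun l => φ (p j l)) = 0 := by
    intro i j
    rw [← pm_map, dot_map, hisok.2, map_zero]
  have hrelφ := hrel'.map φ
  rw [pm_map, pm_map] at hrelφ
  refine ⟨p, hrel', hind, hp3, hne', ?_⟩
  set a : Fin 4 → k := fun j => qf g₁ (p j) with ha
  set b : Fin 4 → k := fun j => qf g₂ (p j) with hb
  set pa : k[X] := C (a 0) + C (a 1) * X + C (a 2) * X ^ 2 + C (a 3) * X ^ 3 with hpa
  set pb : k[X] := C (b 0) + C (b 1) * X + C (b 2) * X ^ 2 + C (b 3) * X ^ 3 with hpb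
  have hcop : IsCoprime pa pb := by
    rw [Polynomial.isCoprime_iff_aeval_ne_zero_of_isAlgClosed k (AlgebraicClosure k)]
    intro r
    by_contra hcon
    push Not at hcon
    obtain ⟨h1, h2⟩ := hcon
    obtain ⟨s, hs'⟩ := IsAlgClosed.exists_pow_nat_eq r (n := 2) two_pos
    have e1 : qf (fun i j => φ (g₁ i j)) (kerAt (fun j i => φ (p j i)) s) = 0 := by
      rw [qf_kerAt _ _ hiso1, hs']
      simp only [← qf_map]
      simp only [hpa, map_add, map_mul, map_pow, aeval_C, aeval_X] at h1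
      exact h1
    have e2 : qf (fun i j => φ (g₂ i j)) (kerAt (fun j i => φ (p j i)) s) = 0 := by
      rw [qf_kerAt _ _ hiso2, hs']
      simp only [← qf_map]
      simp only [hpb, map_add, map_mul, map_pow, aeval_C, aeval_X] at h2
      exact h2
    have := hs _ (hne' s) e1 e2 s 1 (hrelφ.kerAt s)
    exact one_ne_zero this.2
  have hinf : a 3 ≠ 0 ∨ b 3 ≠ 0 := by
    by_contra hcon
    push Not at hcon
    obtain ⟨h1, h2⟩ := hcon
    have hp3' : (fun i => φ (p 3 i)) ≠ 0 := by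
      intro h0
      apply hp3
      ext i
      have := congrFun h0 i
      simpa using this
    have e1 : qf (fun i j => φ (g₁ i j)) (fun i => φ (p 3 i)) = 0 := by
      rw [← qf_map]
      change φ (a 3) = 0
      rw [h1, map_zero]
    have e2 : qf (fun i j => φ (g₂ i j)) (fun i => φ (p 3 i)) = 0 := by
      rw [← qf_map]
      change φ (b 3) = 0
      rw [h2, map_zero]
    have := hs _ hp3' e1 e2 1 0 (by
      rw [one_smul, zero_smul, add_zero]
      exact hrelφ.2.2.2.2)
    exact one_ne_zero this.1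
  intro hdet
  obtain ⟨v, hv0, hv⟩ := Matrix.exists_vecMul_eq_zero_iff.2 hdet
  have g0 := congrFun hv 0
  have g1 := congrFun hv 1
  have g2 := congrFun hv 2
  have g3 := congrFun hv 3
  have g4 := congrFun hv 4
  have g5 := congrFun hv 5
  simp [sylvMat, Matrix.vecMul, dotProduct, Fin.sum_univ_succ] at g0 g1 g2 g3 g4 g5
  set u : k[X] := C (v 0) + C (v 1) * X + C (v 2) * X ^ 2 with hu
  set w : k[X] := C (v 3) + C (v 4) * X + C (v 5) * X ^ 2 with hw
  have hsum : u * pa + w * pb = 0 := by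
    have h1 : u * pa + w * pb = C (v 0 * a 0 + v 3 * b 0) +
        C (v 0 * a 1 + (v 1 * a 0 + (v 3 * b 1 + v 4 * b 0))) * X +
        C (v 0 * a 2 + (v 1 * a 1 + (v 2 * a 0 + (v 3 * b 2 + (v 4 * b 1 + v 5 * b 0))))) * X ^ 2 +
        C (v 0 * a 3 + (v 1 * a 2 + (v 2 * a 1 + (v 3 * b 3 + (v 4 * b 2 + v 5 * b 1))))) * X ^ 3 +
        C (v 1 * a 3 + (v 2 * a 2 + (v 4 * b 3 + v 5 * b 2))) * X ^ 4 +
        C (v 2 * a 3 + v 5 * b 3) * X ^ 5 := by
      simp only [hu, hw, hpa, hpb, map_add, map_mul]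
      ring
    rw [h1, g0, g1, g2, g3, g4, g5]
    simp
  have hdeg : ∀ c₀ c₁ c₂ : k, (C c₀ + C c₁ * X + C c₂ * X ^ 2 : k[X]).natDegree ≤ 2 := by
    intro c₀ c₁ c₂
    compute_degree
  have hdeg3 : ∀ c₀ c₁ c₂ c₃ : k, c₃ ≠ 0 →
      (C c₀ + C c₁ * X + C c₂ * X ^ 2 + C c₃ * X ^ 3 : k[X]).natDegree = 3 := by
    intro c₀ c₁ c₂ c₃ h
    have : (C c₀ + C c₁ * X + C c₂ * X ^ 2 + C c₃ * X ^ 3 : k[X]) =
        C c₃ * X ^ 3 + C c₂ * X ^ 2 + C c₁ * X + C c₀ := by ring
    rw [this]
    exact natDegree_cubic h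
  have huw : u = 0 ∧ w = 0 := by
    rcases hinf with h | h
    · have h1 : pa ∣ w * pb := ⟨-u, by linear_combination hsum⟩
      have h2 : pa ∣ w := hcop.dvd_of_dvd_mul_right h1
      have hw0 : w = 0 := by
        by_contra hne
        have h3 := natDegree_le_of_dvd h2 hne
        have h4 := hdeg (v 3) (v 4) (v 5)
        rw [← hw] at h4
        rw [hpa, hdeg3 _ _ _ _ h] at h3
        omega
      rw [hw0, zero_mul, add_zero] at hsum
      refine ⟨?_, hw0⟩
      rcases mul_eq_zero.1 hsum with h3 | h3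
      · exact h3
      · exfalso
        have h4 := hdeg3 (a 0) (a 1) (a 2) (a 3) h
        rw [← hpa, h3, natDegree_zero] at h4
        omega
    · have h1 : pb ∣ u * pa := ⟨-w, by linear_combination hsum⟩
      have h2 : pb ∣ u := hcop.symm.dvd_of_dvd_mul_right h1
      have hu0 : u = 0 := by
        by_contra hne
        have h3 := natDegree_le_of_dvd h2 hne
        have h4 := hdeg (v 0) (v 1) (v 2)
        rw [← hu] at h4
        rw [hpb, hdeg3 _ _ _ _ h] at h3
        omega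
      rw [hu0, zero_mul, zero_add] at hsum
      refine ⟨hu0, ?_⟩
      rcases mul_eq_zero.1 hsum with h3 | h3
      · exact h3
      · exfalso
        have h4 := hdeg3 (b 0) (b 1) (b 2) (b 3) h
        rw [← hpb, h3, natDegree_zero] at h4
        omega
  have hcoef : ∀ c₀ c₁ c₂ : k, (C c₀ + C c₁ * X + C c₂ * X ^ 2 : k[X]) = 0 →
      c₀ = 0 ∧ c₁ = 0 ∧ c₂ = 0 := by
    intro c₀ c₁ c₂ h
    have h1 : (C c₀ + C c₁ * X + C c₂ * X ^ 2 : k[X]) =
        C c₀ + C c₁ * X + C c₂ * X ^ 2 + C 0 * X ^ 3 + C 0 * X ^ 4 := by simp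
    rw [h1] at h
    have e0 := congrArg (fun p => p.coeff 0) h
    have e1 := congrArg (fun p => p.coeff 1) h
    have e2 := congrArg (fun p => p.coeff 2) h
    simp only [(coeff_quartic _ _ _ _ _).1, coeff_zero] at e0
    simp only [(coeff_quartic _ _ _ _ _).2.1, coeff_zero] at e1
    simp only [(coeff_quartic _ _ _ _ _).2.2.1, coeff_zero] at e2
    exact ⟨e0, e1, e2⟩
  obtain ⟨v0, v1, v2⟩ := hcoef _ _ _ huw.1
  obtain ⟨v3, v4, v5⟩ := hcoef _ _ _ huw.2
  apply hv0
  ext i
  fin_cases i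
  · exact v0
  · exact v1
  · exact v2
  · exact v3
  · exact v4
  · exact v5

end

end Pool.Agent.Helper26
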