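import Mathlib
import Pool.Agent.Helper26.Frame

set_option autoImplicit false
set_option linter.unusedSectionVars false

/-!
# Frames adapted to a smooth pair of quadratic forms in seven variables, II
-/

namespace Pool.Agent.Helper26

open Matrix Finset Polynomial

section

variable {k : Type*} [Field k] [CharP k 2]

lemma exists_good_member [Infinite k] {m : ℕ} (hm : m = 6)
    (g₁ g₂ : Fin (m + 1) → Fin (m + 1) → k)
    (hs : JacInd (fun i j => algebraMap k (AlgebraicClosure k) (g₁ i j))
      (fun i j => algebraMap k (AlgebraicClosure k) (g₂ i j))) :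
    ∃ r : k, ∀ x : Fin (m + 1) → k, x ≠ 0 → (r • pm g₁ + (1 : k) • pm g₂).mulVec x = 0 →
      r * qf g₁ x + qf g₂ x ≠ 0 := by
  have hc : CharP (AlgebraicClosure k) 2 :=
    charP_of_injective_algebraMap (algebraMap k (AlgebraicClosure k)).injective 2
  obtain ⟨p, hrel, -, -, hne, hdet⟩ := exists_kerData hm g₁ g₂ hs
  set φ := algebraMap k (AlgebraicClosure k) with hφ
  set a : Fin 4 → k := fun j => qf g₁ (p j) with ha
  set b : Fin 4 → k := fun j => qf g₂ (p j) with hb
  set D : k[X] := C (b 0) + C (a 0) * X + C (b 1) * X ^ 2 + C (a 1) * X ^ 3 + C (b 2) * X ^ 4 +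
    C (a 2) * X ^ 5 + C (b 3) * X ^ 6 + C (a 3) * X ^ 7 with hD
  have hD0 : D ≠ 0 := by
    intro h0
    have hco : ∀ n : ℕ, D.coeff n = 0 := fun n => by rw [h0, coeff_zero]
    have e0 := hco 0
    have e1 := hco 1
    have e2 := hco 2
    have e3 := hco 3
    have e4 := hco 4
    have e5 := hco 5
    have e6 := hco 6
    have e7 := hco 7
    simp only [hD, coeff_add, coeff_C_mul, coeff_X_pow, coeff_X, coeff_C] at e0 e1 e2 e3 e4 e5 e6 e7
    norm_num at e0 e1 e2 e3 e4 e5 e6 e7
    apply hdet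
    have ha0 : a = 0 := by
      ext i; fin_cases i
      · exact e1
      · exact e3
      · exact e5
      · exact e7
    have hb0 : b = 0 := by
      ext i; fin_cases i
      · exact e0
      · exact e2
      · exact e4
      · exact e6
    rw [ha0, hb0]
    apply Matrix.det_eq_zero_of_row_eq_zero 0
    intro j
    fin_cases j <;> simp [sylvMat]
  obtain ⟨r, hr⟩ : ∃ r : k, D.eval r ≠ 0 := by
    by_contra hcon
    push Not at hcon
    exact hD0 (Polynomial.funext fun r => by rw [hcon r, eval_zero])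
  refine ⟨r, ?_⟩
  intro x hx0 hx hq
  have hiso := isotropy (pm_symm g₁) (pm_symm g₂) p hrel.1 hrel.2.1 hrel.2.2.1 hrel.2.2.2.1
    hrel.2.2.2.2
  have hval : r * qf g₁ (kerAt p r) + qf g₂ (kerAt p r) = D.eval r := by
    rw [qf_kerAt _ _ hiso.1, qf_kerAt _ _ hiso.2, hD]
    simp only [eval_add, eval_mul, eval_C, eval_pow, eval_X]
    ring
  have hkerAt : (fun i => φ (kerAt p r i)) = kerAt (fun j i => φ (p j i)) (φ r) := by
    ext1 i
    simp only [kerAt, Pi.add_apply, Pi.smul_apply, smul_eq_mul, map_add, map_mul, map_pow, map_one]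
  have hmapk : ∀ v : Fin (m + 1) → k, (r • pm g₁ + (1 : k) • pm g₂).mulVec v = 0 →
      (φ r • pm (fun i j => φ (g₁ i j)) + (1 : AlgebraicClosure k) •
        pm (fun i j => φ (g₂ i j))).mulVec (fun i => φ (v i)) = 0 := by
    intro v hv
    have h1 : φ r • pm (fun i j => φ (g₁ i j)) + (1 : AlgebraicClosure k) •
        pm (fun i j => φ (g₂ i j)) = (r • pm g₁ + (1 : k) • pm g₂).map φ := by
      rw [← pm_map, ← pm_map]
      ext i j
      simp
    rw [h1, mulVec_map, hv]
    ext1 i
    simp
  have hk := hmapk _ (hrel.kerAt r)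
  have hkx := hmapk _ hx
  have hK0 : (fun i => φ (kerAt p r i)) ≠ 0 := by
    rw [hkerAt]; exact hne (φ r)
  obtain ⟨c, hc'⟩ := ker_line (by rw [Fintype.card_fin, hm]; decide) hs
    (Or.inr (one_ne_zero : (1 : AlgebraicClosure k) ≠ 0)) _ _ hk hkx hK0
  have hc0 : c ≠ 0 := by
    rintro rfl
    apply hx0
    ext i
    have := congrFun hc' i
    simpa using this
  have h1 := congrArg φ hq
  rw [map_add, map_mul, map_zero, qf_map, qf_map, hc', qf_smul, qf_smul, ← qf_map, ← qf_map] at h1
  have h2 : c ^ 2 * φ (D.eval r) = 0 := by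
    rw [← hval, map_add, map_mul]
    linear_combination h1
  rcases mul_eq_zero.1 h2 with h | h
  · exact hc0 (pow_eq_zero_iff two_ne_zero |>.1 h)
  · exact hr ((map_eq_zero φ).1 h)

/-- The change of the basis of the pencil. -/
lemma JacInd.change {n : Type*} [Fintype n] {R : Type*} [CommRing R] {g₁ g₂ : n → n → R}
    (hs : JacInd g₁ g₂) (r : R) : JacInd (fun i j => r * g₁ i j + g₂ i j) g₁ := by
  have hq : ∀ x : n → R, qf (fun i j => r * g₁ i j + g₂ i j) x = r * qf g₁ x + qf g₂ x := by
    intro x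
    simp only [qf, Finset.mul_sum, ← Finset.sum_add_distrib]
    refine Finset.sum_congr rfl fun i _ => Finset.sum_congr rfl fun j _ => ?_
    ring
  have hpm : pm (fun i j => r * g₁ i j + g₂ i j) = r • pm g₁ + pm g₂ := by
    ext i j
    simp only [pm, Matrix.of_apply, Matrix.add_apply, Matrix.smul_apply, smul_eq_mul]
    ring
  intro x hx h1 h2 a b hab
  rw [hq, h2, mul_zero, zero_add] at h1
  rw [hpm] at hab
  obtain ⟨e1, e2⟩ := hs x hx h2 h1 (a * r + b) a (by
    rw [← hab]
    congr 1
    rw [smul_add, smul_smul, add_smul]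
    abel)
  refine ⟨e2, ?_⟩
  rw [e2, zero_mul, zero_add] at e1
  exact e1

lemma qf_change {n : Type*} [Fintype n] {R : Type*} [CommRing R] (g₁ g₂ : n → n → R) (r : R)
    (x : n → R) : qf (fun i j => r * g₁ i j + g₂ i j) x = r * qf g₁ x + qf g₂ x := by
  simp only [qf, Finset.mul_sum, ← Finset.sum_add_distrib]
  refine Finset.sum_congr rfl fun i _ => Finset.sum_congr rfl fun j _ => ?_
  ring

lemma pm_change {n : Type*} [Fintype n] {R : Type*} [CommRing R] (g₁ g₂ : n → n → R) (r : R) :
    pm (fun i j => r * g₁ i j + g₂ i j) = r • pm g₁ + (1 : R) • pm g₂ := by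
  ext i j
  simp only [pm, Matrix.of_apply, Matrix.add_apply, Matrix.smul_apply, smul_eq_mul]
  ring

/-- A frame adapted to a pair of forms. -/
structure IsFrame {n : Type*} [Fintype n] {R : Type*} [CommRing R] (h₁ h₂ : n → n → R)
    (p : Fin 4 → n → R) (y : Fin 3 → n → R) : Prop where
  iso₁ : ∀ i j, p i ⬝ᵥ (pm h₁).mulVec (p j) = 0
  iso₂ : ∀ i j, p i ⬝ᵥ (pm h₂).mulVec (p j) = 0
  dual₁ : ∀ i j, y i ⬝ᵥ (pm h₁).mulVec (p j) = if j = i.castSucc then 1 else 0
  dual₂ : ∀ i j, y i ⬝ᵥ (pm h₂).mulVec (p j) = if j = i.succ then 1 else 0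

lemma IsFrame.map {n : Type*} [Fintype n] {R S : Type*} [CommRing R] [CommRing S] (f : R →+* S)
    {h₁ h₂ : n → n → R} {p : Fin 4 → n → R} {y : Fin 3 → n → R} (h : IsFrame h₁ h₂ p y) :
    IsFrame (fun i j => f (h₁ i j)) (fun i j => f (h₂ i j)) (fun i j => f (p i j))
      (fun i j => f (y i j)) := by
  refine ⟨?_, ?_, ?_, ?_⟩
  · intro i j
    rw [← pm_map, dot_map, h.iso₁, map_zero]
  · intro i j
    rw [← pm_map, dot_map, h.iso₂, map_zero]
  · intro i j
    rw [← pm_map, dot_map, h.dual₁]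
    split_ifs <;> simp
  · intro i j
    rw [← pm_map, dot_map, h.dual₂]
    split_ifs <;> simp

theorem exists_frame [Infinite k] {m : ℕ} (hm : m = 6)
    (g₁ g₂ : Fin (m + 1) → Fin (m + 1) → k)
    (hs : JacInd (fun i j => algebraMap k (AlgebraicClosure k) (g₁ i j))
      (fun i j => algebraMap k (AlgebraicClosure k) (g₂ i j))) :
    ∃ (r : k) (p : Fin 4 → Fin (m + 1) → k) (y : Fin 3 → Fin (m + 1) → k),
      IsFrame (fun i j => r * g₁ i j + g₂ i j) g₁ p y ∧
      qf (fun i j => r * g₁ i j + g₂ i j) (p 3) ≠ 0 ∧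
      (sylvMat (fun j => qf (fun i j => r * g₁ i j + g₂ i j) (p j))
        (fun j => qf g₁ (p j))).det ≠ 0 ∧
      ∀ (x : Fin 4 → k) (c : Fin 3 → k), frameVec p y x c = 0 → x = 0 ∧ c = 0 := by
  obtain ⟨r, hr⟩ := exists_good_member hm g₁ g₂ hs
  have hs' : JacInd (fun i j => algebraMap k (AlgebraicClosure k) (r * g₁ i j + g₂ i j))
      (fun i j => algebraMap k (AlgebraicClosure k) (g₁ i j)) := by
    have := hs.change (algebraMap k (AlgebraicClosure k) r)
    simpa only [map_add, map_mul] using this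
  obtain ⟨p, hrel, hind, hp3, -, hdet⟩ := exists_kerData hm (fun i j => r * g₁ i j + g₂ i j) g₁ hs'
  have hiso := isotropy (pm_symm _) (pm_symm g₁) p hrel.1 hrel.2.1 hrel.2.2.1 hrel.2.2.2.1
    hrel.2.2.2.2
  obtain ⟨y, hy⟩ := exists_dual (fun j : Fin 3 =>
    (pm fun i j => r * g₁ i j + g₂ i j).mulVec (p j.castSucc)) hind
  obtain ⟨r0, r1, r2, r3, r4⟩ := hrel
  have hframe : IsFrame (fun i j => r * g₁ i j + g₂ i j) g₁ p y := by
    refine ⟨hiso.1, hiso.2, ?_, ?_⟩
    · intro i j
      refine Fin.lastCases ?_ (fun j => ?_) j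
      · change y i ⬝ᵥ (pm fun i j => r * g₁ i j + g₂ i j).mulVec (p 3) = _
        rw [r4, dotProduct_zero, if_neg]
        intro h
        have := congrArg Fin.val h
        simp only [Fin.val_last, Fin.val_castSucc] at this
        omega
      · rw [hy i j]
        simp only [Fin.castSucc_inj]
    · intro i j
      refine Fin.cases ?_ (fun j => ?_) j
      · rw [r0, dotProduct_zero, if_neg]
        exact (Fin.succ_ne_zero i).symm
      · have h1 : (pm g₁).mulVec (p j.succ) =
            (pm fun i j => r * g₁ i j + g₂ i j).mulVec (p j.castSucc) := by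
          fin_cases j
          · exact r1.symm
          · exact r2.symm
          · exact r3.symm
        rw [h1, hy i j]
        simp only [Fin.succ_inj]
  refine ⟨r, p, y, hframe, ?_, hdet, ?_⟩
  · rw [qf_change]
    apply hr _ hp3
    rw [← pm_change]
    exact r4
  · intro x c h0
    -- pairing with the dual vectors
    have hpair : ∀ j, (frameVec p y x c) ⬝ᵥ (pm fun i j => r * g₁ i j + g₂ i j).mulVec (p j) = 0 :=
      fun j => by rw [h0, zero_dotProduct]
    have hc : c = 0 := by
      have e0 := hpair 0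
      have e1 := hpair 1
      have e2 := hpair 2
      simp only [frameVec, dot_add_left, dot_smul_left, hframe.iso₁, hframe.dual₁] at e0 e1 e2
      simp [Fin.ext_iff] at e0 e1 e2
      ext i
      fin_cases i
      · exact e0
      · exact e1
      · exact e2
    rw [hc] at h0
    have hx : x 0 • p 0 + x 1 • p 1 + x 2 • p 2 + x 3 • p 3 = 0 := by
      rw [← h0, frameVec]
      simp
    have h1 := congrArg (fun v => (pm fun i j => r * g₁ i j + g₂ i j).mulVec v) hx
    simp only [Matrix.mulVec_add, Matrix.mulVec_smul, r4, smul_zero, add_zero,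
      Matrix.mulVec_zero] at h1
    obtain ⟨x0, x1, x2⟩ := hind _ _ _ h1
    rw [x0, x1, x2, zero_smul, zero_smul, zero_smul, zero_add, zero_add, zero_add] at hx
    have x3 : x 3 = 0 := (smul_eq_zero.1 hx).resolve_right hp3
    refine ⟨?_, hc⟩
    ext i
    fin_cases i
    · exact x0
    · exact x1
    · exact x2
    · exact x3

end

end Pool.Agent.Helper26
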