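import Mathlib
import Pool.Agent.Helper26.Frame2
import Pool.Agent.Helper26.PairDefs
import Pool.Agent.Helper26.LocalNbhd
import Pool.Agent.Helper26.BadLocus

set_option autoImplicit false
set_option linter.unusedSectionVars false

/-!
# Points over the completions
-/

universe u

namespace Pool.Agent.Helper26

open Matrix Finset

section

variable {k : Type u} [Field k]

lemma v_toCompletion (V : ValuationSubring k) (a : k) :
    Valued.v (toCompletion V a) = V.valuation a :=
  Valued.valuedCompletion_apply (K := WithVal V.valuation) ((WithVal.equiv V.valuation).symm a)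

lemma v_toCompletion_le_one (V : ValuationSubring k) (a : k) :
    Valued.v (toCompletion V a) ≤ 1 ↔ a ∈ V := by
  rw [v_toCompletion, ValuationSubring.valuation_le_one_iff]

lemma denseRange_toCompletion (V : ValuationSubring k) : DenseRange (toCompletion V) := by
  have h1 : DenseRange (UniformSpace.Completion.coe' (α := WithVal V.valuation)) :=
    UniformSpace.Completion.denseRange_coe
  have h2 : Function.Surjective (WithVal.equiv V.valuation).symm :=
    (WithVal.equiv V.valuation).symm.surjective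
  intro x
  have h3 : Set.range (toCompletion V) =
      Set.range (UniformSpace.Completion.coe' (α := WithVal V.valuation)) := by
    ext y
    constructor
    · rintro ⟨a, rfl⟩
      exact ⟨_, rfl⟩
    · rintro ⟨b, rfl⟩
      obtain ⟨a, rfl⟩ := h2 b
      exact ⟨a, rfl⟩
  rw [h3]
  exact h1 x

end

section

variable {k : Type u} [Field k] {L : Type*} [Field L]

lemma Q1_smul (a : Fin 4 → L) (g : Fin 3 → Fin 3 → L) (s : L) (x : Fin 4 → L) (y : Fin 3 → L) :
    Q1 a g (fun i => s * x i) (fun i => s * y i) = s ^ 2 * Q1 a g x y := by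
  simp only [Q1, phi, lin1, quad_expand]
  ring

lemma Q2_smul (a : Fin 4 → L) (g : Fin 3 → Fin 3 → L) (s : L) (x : Fin 4 → L) (y : Fin 3 → L) :
    Q2 a g (fun i => s * x i) (fun i => s * y i) = s ^ 2 * Q2 a g x y := by
  simp only [Q2, phi, lin2, quad_expand]
  ring

lemma map_Q1_hom (f : k →+* L) (a : Fin 4 → k) (g : Fin 3 → Fin 3 → k) (x : Fin 4 → k)
    (y : Fin 3 → k) : f (Q1 a g x y) =
      Q1 (fun i => f (a i)) (fun i j => f (g i j)) (fun i => f (x i)) (fun i => f (y i)) := by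
  simp only [Q1, phi, lin1, quad, map_add, map_mul, map_pow, map_sum]

lemma map_Q2_hom (f : k →+* L) (a : Fin 4 → k) (g : Fin 3 → Fin 3 → k) (x : Fin 4 → k)
    (y : Fin 3 → k) : f (Q2 a g x y) =
      Q2 (fun i => f (a i)) (fun i j => f (g i j)) (fun i => f (x i)) (fun i => f (y i)) := by
  simp only [Q2, phi, lin2, quad, map_add, map_mul, map_pow, map_sum]

/-- A point over the completion gives approximate solutions. -/
lemma locApp_of_point' {Γ₀ : Type*} [LinearOrderedCommGroupWithZero Γ₀] [Valued L Γ₀]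
    {V : ValuationSubring k} (hV : V ≠ ⊤) (f : k →+* L)
    (hfV : ∀ a : k, Valued.v (f a) ≤ 1 ↔ a ∈ V) (hfd' : DenseRange f) (a b : Fin 4 → k)
    (g₁ g₂ : Fin 3 → Fin 3 → k) (x : Fin 4 → L)
    (y : Fin 3 → L) (hxy : (∃ i, x i ≠ 0) ∨ ∃ i, y i ≠ 0)
    (h1 : Q1 (fun i => f (a i)) (fun i j => f (g₁ i j)) x y = 0)
    (h2 : Q2 (fun i => f (b i)) (fun i j => f (g₂ i j)) x y = 0) :
    LocApp V a b g₁ g₂ := by
  intro d hd
  obtain ⟨π, hπ0, hπ⟩ := exists_nonunit hV
  have hfd : f d ≠ 0 := by rw [Ne, map_eq_zero]; exact hd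
  have hfπ : f π ≠ 0 := by rw [Ne, map_eq_zero]; exact hπ0
  -- normalisation
  set w : Fin 4 ⊕ Fin 3 → L := Sum.elim x y with hw
  obtain ⟨s₀, hs₀⟩ := Finite.exists_max (fun s => Valued.v (w s))
  have hws : w s₀ ≠ 0 := by
    intro h0
    have hall : ∀ s, w s = 0 := by
      intro s
      have h3 := hs₀ s
      rw [h0, map_zero, le_zero_iff, map_eq_zero] at h3
      exact h3
    rcases hxy with ⟨i, hi⟩ | ⟨i, hi⟩
    · exact hi (hall (Sum.inl i))
    · exact hi (hall (Sum.inr i))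
  set x' : Fin 4 → L := fun i => (w s₀)⁻¹ * x i with hx'
  set y' : Fin 3 → L := fun i => (w s₀)⁻¹ * y i with hy'
  have hbound : ∀ s, Valued.v ((w s₀)⁻¹ * w s) ≤ 1 := by
    intro s
    rw [map_mul, map_inv₀]
    have h3 : 0 < Valued.v (w s₀) := by
      rw [zero_lt_iff, Ne, map_eq_zero]; exact hws
    rw [inv_mul_le_one₀ h3]
    exact hs₀ s
  have e1 : Q1 (fun i => f (a i)) (fun i j => f (g₁ i j)) x' y' = 0 := by
    rw [hx', hy', Q1_smul, h1, mul_zero]
  have e2 : Q2 (fun i => f (b i)) (fun i j => f (g₂ i j)) x' y' = 0 := by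
    rw [hx', hy', Q2_smul, h2, mul_zero]
  -- the open set
  set O : Set L := ((Valued.v (R := L) (Γ₀ := Γ₀)).integer : Set L) with hO
  have hOopen : IsOpen O := Valued.isOpen_integer L
  have hmem : ∀ z : L, z ∈ O ↔ Valued.v z ≤ 1 := fun z => Iff.rfl
  set F₁ : (Fin 4 → L) × (Fin 3 → L) → L := fun z =>
    Q1 (fun i => f (a i)) (fun i j => f (g₁ i j)) z.1 z.2 / f d with hF₁
  set F₂ : (Fin 4 → L) × (Fin 3 → L) → L := fun z =>
    Q2 (fun i => f (b i)) (fun i j => f (g₂ i j)) z.1 z.2 / f d with hF₂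
  set F₃ : (Fin 4 → L) × (Fin 3 → L) → L := fun z =>
    (Sum.elim z.1 z.2 s₀ - 1) / f π with hF₃
  have hF₁c : Continuous F₁ := by
    simp only [hF₁, Q1, phi, lin1, quad]
    fun_prop
  have hF₂c : Continuous F₂ := by
    simp only [hF₂, Q2, phi, lin2, quad]
    fun_prop
  have hF₃c : Continuous F₃ := by
    simp only [hF₃]
    rcases s₀ with i | i
    · simp only [Sum.elim_inl]
      fun_prop
    · simp only [Sum.elim_inr]
      fun_prop
  set U : Set ((Fin 4 → L) × (Fin 3 → L)) := F₁ ⁻¹' O ∩ F₂ ⁻¹' O ∩ F₃ ⁻¹' O ∩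
    (⋂ i, (fun z => z.1 i) ⁻¹' O) ∩ (⋂ i, (fun z => z.2 i) ⁻¹' O) with hU
  have hUopen : IsOpen U := by
    refine (((hOopen.preimage hF₁c).inter (hOopen.preimage hF₂c)).inter
      (hOopen.preimage hF₃c)).inter ?_ |>.inter ?_
    · exact isOpen_iInter_of_finite fun i => hOopen.preimage (by fun_prop)
    · exact isOpen_iInter_of_finite fun i => hOopen.preimage (by fun_prop)
  have hUne : U.Nonempty := by
    refine ⟨(x', y'), ⟨⟨⟨⟨?_, ?_⟩, ?_⟩, ?_⟩, ?_⟩⟩
    · change Valued.v (F₁ (x', y')) ≤ 1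
      simp only [hF₁, e1, zero_div, map_zero]
      exact zero_le_one
    · change Valued.v (F₂ (x', y')) ≤ 1
      simp only [hF₂, e2, zero_div, map_zero]
      exact zero_le_one
    · change Valued.v (F₃ (x', y')) ≤ 1
      have h3 : Sum.elim x' y' s₀ = 1 := by
        have h4 : Sum.elim x' y' s₀ = (w s₀)⁻¹ * w s₀ := by
          rcases s₀ with i | i <;> rfl
        rw [h4, inv_mul_cancel₀ hws]
      simp only [hF₃, h3, sub_self, zero_div, map_zero]
      exact zero_le_one
    · rw [Set.mem_iInter]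
      intro i
      exact hbound (Sum.inl i)
    · rw [Set.mem_iInter]
      intro i
      exact hbound (Sum.inr i)
  have hdense : DenseRange (Prod.map (Pi.map fun _ : Fin 4 => (f : k → L))
      (Pi.map fun _ : Fin 3 => (f : k → L))) :=
    DenseRange.prodMap (DenseRange.piMap fun _ => hfd')
      (DenseRange.piMap fun _ => hfd')
  obtain ⟨⟨x₀, y₀⟩, hxy₀⟩ := hdense.exists_mem_open hUopen hUne
  obtain ⟨⟨⟨⟨m1, m2⟩, m3⟩, m4⟩, m5⟩ := hxy₀
  rw [Set.mem_iInter] at m4 m5
  have hx₀ : ∀ i, x₀ i ∈ V := fun i => (hfV _).1 (m4 i)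
  have hy₀ : ∀ i, y₀ i ∈ V := fun i => (hfV _).1 (m5 i)
  refine ⟨x₀, y₀, hx₀, hy₀, ?_, ?_, ?_⟩
  · have m3' : ∀ c : k, Sum.elim x₀ y₀ s₀ = c → c ∉ V.nonunits := by
      intro c hc
      have h3 : Valued.v (f ((c - 1) / π)) ≤ 1 := by
        have h4 : F₃ (Prod.map (Pi.map fun _ : Fin 4 => (f : k → L))
            (Pi.map fun _ : Fin 3 => (f : k → L)) (x₀, y₀)) = f ((c - 1) / π) := by
          rw [← hc]
          simp only [hF₃, map_div₀, map_sub, map_one]
          rcases s₀ with i | i <;> rfl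
        rw [← h4]
        exact m3
      rw [hfV] at h3
      have h5 : c = 1 + π * ((c - 1) / π) := by field_simp; ring
      obtain ⟨h6, h7⟩ := one_add_unit (nonunits_mul hπ h3)
      rw [← h5] at h6 h7
      intro h8
      have h9 := nonunits_mul h8 h7
      rw [mul_inv_cancel₀ h6] at h9
      exact one_notMem_nonunits V h9
    rcases s₀ with i | i
    · exact Or.inl ⟨i, m3' _ rfl⟩
    · exact Or.inr ⟨i, m3' _ rfl⟩
  · rw [← hfV]
    have h4 : F₁ (Prod.map (Pi.map fun _ : Fin 4 => (f : k → L))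
        (Pi.map fun _ : Fin 3 => (f : k → L)) (x₀, y₀)) = f (Q1 a g₁ x₀ y₀ / d) := by
      rw [map_div₀, map_Q1_hom]
      rfl
    rw [← h4]
    exact m1
  · rw [← hfV]
    have h4 : F₂ (Prod.map (Pi.map fun _ : Fin 4 => (f : k → L))
        (Pi.map fun _ : Fin 3 => (f : k → L)) (x₀, y₀)) = f (Q2 b g₂ x₀ y₀ / d) := by
      rw [map_div₀, map_Q2_hom]
      rfl
    rw [← h4]
    exact m2

lemma locApp_of_point {V : ValuationSubring k} (hV : V ≠ ⊤) (a b : Fin 4 → k)
    (g₁ g₂ : Fin 3 → Fin 3 → k) (x : Fin 4 → V.valuation.Completion)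
    (y : Fin 3 → V.valuation.Completion) (hxy : (∃ i, x i ≠ 0) ∨ ∃ i, y i ≠ 0)
    (h1 : Q1 (fun i => toCompletion V (a i)) (fun i j => toCompletion V (g₁ i j)) x y = 0)
    (h2 : Q2 (fun i => toCompletion V (b i)) (fun i j => toCompletion V (g₂ i j)) x y = 0) :
    LocApp V a b g₁ g₂ :=
  locApp_of_point' hV (toCompletion V) (v_toCompletion_le_one V) (denseRange_toCompletion V)
    a b g₁ g₂ x y hxy h1 h2

lemma vecMul_frame {R : Type*} [CommRing R] {m : ℕ} (e : Fin 4 ⊕ Fin 3 ≃ Fin (m + 1))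
    (p : Fin 4 → Fin (m + 1) → R) (y : Fin 3 → Fin (m + 1) → R) (u : Fin (m + 1) → R) :
    Matrix.vecMul u (Matrix.of fun i => Sum.elim p y (e.symm i)) =
      frameVec p y (fun i => u (e (Sum.inl i))) (fun i => u (e (Sum.inr i))) := by
  ext1 j
  simp only [Matrix.vecMul, dotProduct, Matrix.of_apply]
  rw [← Equiv.sum_comp e, Fintype.sum_sum_type]
  simp only [Equiv.symm_apply_apply, Sum.elim_inl, Sum.elim_inr, frameVec, Pi.add_apply,
    Pi.smul_apply, smul_eq_mul, Fin.sum_univ_four, Fin.sum_univ_three]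

/-- A frame spans over every extension. -/
lemma frame_surj {m : ℕ} (hm : m = 6) {p : Fin 4 → Fin (m + 1) → k} {y : Fin 3 → Fin (m + 1) → k}
    (hinj : ∀ (x : Fin 4 → k) (c : Fin 3 → k), frameVec p y x c = 0 → x = 0 ∧ c = 0)
    (f : k →+* L) (z : Fin (m + 1) → L) :
    ∃ (x : Fin 4 → L) (c : Fin 3 → L),
      frameVec (fun i j => f (p i j)) (fun i j => f (y i j)) x c = z := by
  classical
  have e : Fin 4 ⊕ Fin 3 ≃ Fin (m + 1) := finSumFinEquiv.trans (finCongr (by omega))
  set P : Matrix (Fin (m + 1)) (Fin (m + 1)) k :=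
    Matrix.of fun i => Sum.elim p y (e.symm i) with hP
  have hdet : P.det ≠ 0 := by
    intro h0
    obtain ⟨v, hv0, hv⟩ := Matrix.exists_vecMul_eq_zero_iff.2 h0
    rw [hP, vecMul_frame] at hv
    obtain ⟨h1, h2⟩ := hinj _ _ hv
    apply hv0
    ext i
    obtain ⟨s, rfl⟩ := e.surjective i
    rcases s with i | i
    · exact congrFun h1 i
    · exact congrFun h2 i
  set P' : Matrix (Fin (m + 1)) (Fin (m + 1)) L :=
    Matrix.of fun i => Sum.elim (fun i j => f (p i j)) (fun i j => f (y i j)) (e.symm i) with hP'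
  have hPP' : P' = f.mapMatrix P := by
    ext i j
    rw [hP', hP, RingHom.mapMatrix_apply, Matrix.map_apply, Matrix.of_apply, Matrix.of_apply]
    rcases e.symm i with i | i <;> rfl
  have hdet' : IsUnit P'.det := by
    rw [hPP', ← RingHom.map_det, isUnit_iff_ne_zero, Ne, map_eq_zero]
    exact hdet
  refine ⟨fun i => (Matrix.vecMul z P'⁻¹) (e (Sum.inl i)),
    fun i => (Matrix.vecMul z P'⁻¹) (e (Sum.inr i)), ?_⟩
  rw [← vecMul_frame, ← hP', Matrix.vecMul_vecMul, Matrix.nonsing_inv_mul _ hdet',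
    Matrix.vecMul_one]

end

end Pool.Agent.Helper26
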