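import Mathlib

set_option autoImplicit false
set_option linter.unusedSectionVars false

/-!
# The cubic extension defined by a cubic without roots in characteristic two
-/

universe u

namespace Pool.Agent.Helper26

open Polynomial

theorem exists_cubic_ext {k : Type u} [Field k] [CharP k 2] {r p s q : k} (hr0 : r ≠ 0)
    (hnoroot : ∀ x : k, r * x ^ 3 + p * x ^ 2 + s * x + q ≠ 0) :
    ∃ (K : Type u) (_ : Field K) (_ : Algebra k K) (_ : FiniteDimensional k K)
      (_ : Algebra.IsSeparable k K) (_ : CharP K 2) (ρ : K),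
      (algebraMap k K r * ρ ^ 3 + algebraMap k K p * ρ ^ 2 + algebraMap k K s * ρ +
        algebraMap k K q = 0) ∧
      (∀ u : K, ∃ x₀ x₁ x₂ : k, u = algebraMap k K x₀ + algebraMap k K x₁ * ρ +
        algebraMap k K x₂ * ρ ^ 2) ∧
      (∀ x₀ x₁ x₂ : k, algebraMap k K x₀ + algebraMap k K x₁ * ρ +
        algebraMap k K x₂ * ρ ^ 2 = 0 → x₀ = 0 ∧ x₁ = 0 ∧ x₂ = 0) := by
  set c : k[X] := C r * X ^ 3 + C p * X ^ 2 + C s * X + C q with hc
  have hdeg : c.natDegree = 3 := natDegree_cubic hr0
  have hirr : Irreducible c := by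
    apply irreducible_of_degree_le_three_of_not_isRoot
    · rw [hdeg]; decide
    · intro x hx
      rw [IsRoot.def] at hx
      apply hnoroot x
      simpa [hc] using hx
  have hc0 : c ≠ 0 := hirr.ne_zero
  have hfact : Fact (Irreducible c) := ⟨hirr⟩
  have hchar : CharP (AdjoinRoot c) 2 :=
    charP_of_injective_algebraMap (algebraMap k (AdjoinRoot c)).injective 2
  have hfd : FiniteDimensional k (AdjoinRoot c) := (AdjoinRoot.powerBasis hc0).finite
  set ρ := AdjoinRoot.root c with hρ
  have hroot : aeval ρ c = 0 := by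
    rw [AdjoinRoot.aeval_eq, AdjoinRoot.mk_self]
  have hsepc : c.Separable := by
    rw [separable_iff_derivative_ne_zero hirr]
    intro h0
    have h1 : (derivative c).coeff 2 = 0 := by rw [h0]; simp
    rw [coeff_derivative] at h1
    have hc3 : c.coeff (2 + 1) = r := by simp [hc]
    have h3 : (((2 : ℕ) : k) + 1) = 1 := by
      have : ((2 : ℕ) : k) = 0 := CharP.cast_eq_zero k 2
      rw [this, zero_add]
    rw [hc3, h3, mul_one] at h1
    exact hr0 h1
  have hsep : Algebra.IsSeparable k (AdjoinRoot c) := by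
    rw [← separableClosure.eq_top_iff, eq_top_iff]
    intro x _
    have h1 : ρ ∈ separableClosure k (AdjoinRoot c) := by
      rw [mem_separableClosure_iff]
      exact hsepc.of_dvd (minpoly.dvd k ρ hroot)
    obtain ⟨g, rfl⟩ := AdjoinRoot.mk_surjective x
    rw [← AdjoinRoot.aeval_eq, aeval_eq_sum_range]
    exact sum_mem fun i _ => (separableClosure k (AdjoinRoot c)).smul_mem (pow_mem h1 i)
  refine ⟨AdjoinRoot c, inferInstance, inferInstance, hfd, hsep, hchar, ρ, ?_, ?_, ?_⟩
  · simpa [hc] using hroot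
  · intro u
    obtain ⟨g, rfl⟩ := AdjoinRoot.mk_surjective u
    have h1 : (g % c).natDegree < 3 := by
      have := natDegree_mod_lt g (q := c) (by rw [hdeg]; norm_num)
      rwa [hdeg] at this
    have h2 : AdjoinRoot.mk c g = aeval ρ (g % c) := by
      rw [AdjoinRoot.aeval_eq, AdjoinRoot.mk_eq_mk]
      exact ⟨g / c, by
        have := EuclideanDomain.div_add_mod g c
        linear_combination -this⟩
    refine ⟨(g % c).coeff 0, (g % c).coeff 1, (g % c).coeff 2, ?_⟩
    rw [h2, aeval_eq_sum_range' h1]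
    simp only [Finset.sum_range_succ, Finset.sum_range_zero, zero_add, pow_zero, pow_one,
      Algebra.smul_def, mul_one]
  · intro x₀ x₁ x₂ h
    set g : k[X] := C x₂ * X ^ 2 + C x₁ * X + C x₀ with hg
    have h1 : AdjoinRoot.mk c g = 0 := by
      rw [← AdjoinRoot.aeval_eq, hg]
      simp only [map_add, map_mul, map_pow, aeval_C, aeval_X]
      rw [← h]; ring
    rw [AdjoinRoot.mk_eq_zero] at h1
    have h2 : g = 0 := by
      apply eq_zero_of_dvd_of_natDegree_lt h1
      rw [hdeg]
      exact lt_of_le_of_lt natDegree_quadratic_le (by norm_num)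
    have e0 := congrArg (fun g : k[X] => g.coeff 0) h2
    have e1 := congrArg (fun g : k[X] => g.coeff 1) h2
    have e2 := congrArg (fun g : k[X] => g.coeff 2) h2
    simp [hg, coeff_X, coeff_C] at e0 e1 e2
    exact ⟨e0, e1, e2⟩

end Pool.Agent.Helper26
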