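import Mathlib
import Pool.Agent.Helper26.Sylv

set_option autoImplicit false
set_option linter.unusedSectionVars false

/-!
# Existence of an anisotropic member
-/

namespace Pool.Agent.Helper26

open Finset Polynomial

section

variable {K : Type*} [Field K]

lemma cubicAt_expand (R₃ R₄ : Fin 4 → K) (e f : K) (z : Fin 3 → K) :
    cubicAt R₃ R₄ e f z = dot4 R₄ (mulLin 1 0 z) * e ^ 3 + dot4 R₃ (mulLin 1 0 z) * e ^ 2 * f +
      dot4 R₄ (mulLin 0 1 z) * e * f ^ 2 + dot4 R₃ (mulLin 0 1 z) * f ^ 3 := by
  simp only [cubicAt, LinearMap.comp_apply, dot4_apply, mulLin, LinearMap.coe_mk, AddHom.coe_mk,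
    Matrix.cons_val_zero, Matrix.cons_val_one, Matrix.cons_val]
  ring

/-- The net of cubics attached to two coprime binary cubics has an anisotropic member. -/
lemma exists_inert [Fintype K] (hcard : 3 ≤ Fintype.card K) {a b R₃ R₄ : Fin 4 → K}
    (hs : (sylvMat a b).det ≠ 0)
    (hind : ∀ x y : K, (∀ j, x * R₃ j + y * R₄ j = 0) → x = 0 ∧ y = 0)
    (h3a : dot4 R₃ a = 0) (h3b : dot4 R₃ b = 0) (h4a : dot4 R₄ a = 0) (h4b : dot4 R₄ b = 0) :
    ∃ z : Fin 3 → K, z ≠ 0 ∧ ∀ e f : K, (e ≠ 0 ∨ f ≠ 0) → cubicAt R₃ R₄ e f z ≠ 0 := by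
  classical
  let L : Option K → ((Fin 3 → K) →ₗ[K] K) := fun i =>
    match i with
    | none => cubicAt R₃ R₄ 1 0
    | some x => cubicAt R₃ R₄ x 1
  have hL : ∀ i, L i ≠ 0 := by
    intro i
    cases i with
    | none => exact cubicAt_ne_zero hs hind h3a h3b h4a h4b (Or.inl one_ne_zero)
    | some x => exact cubicAt_ne_zero hs hind h3a h3b h4a h4b (Or.inr one_ne_zero)
  have h3 : ∀ z : Fin 3 → K, z ≠ 0 → (univ.filter fun i => L i z = 0).card ≤ 3 := by
    intro z hz
    set r := dot4 R₄ (mulLin 1 0 z) with hr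
    set p := dot4 R₃ (mulLin 1 0 z) with hp
    set s := dot4 R₄ (mulLin 0 1 z) with hs'
    set q := dot4 R₃ (mulLin 0 1 z) with hq
    let P : K[X] := C r * X ^ 3 + C p * X ^ 2 + C s * X + C q
    have hP0 : P ≠ 0 := by
      intro h0
      apply hz
      have c3 := congrArg (fun P : K[X] => P.coeff 3) h0
      have c2 := congrArg (fun P : K[X] => P.coeff 2) h0
      have c1 := congrArg (fun P : K[X] => P.coeff 1) h0
      have c0 := congrArg (fun P : K[X] => P.coeff 0) h0
      simp [P, coeff_X, coeff_C] at c3 c2 c1 c0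
      exact cubic_coeff_ne_zero hs hind h3a h3b h4a h4b c3 c2 c1 c0
    have hroot : ∀ x : K, L (some x) z = 0 → x ∈ P.roots.toFinset := by
      intro x hx
      rw [Multiset.mem_toFinset, mem_roots hP0, IsRoot.def]
      have h1 : L (some x) z = r * x ^ 3 + p * x ^ 2 + s * x + q := by
        change cubicAt R₃ R₄ x 1 z = _
        rw [cubicAt_expand]
        ring
      rw [h1] at hx
      simpa [P] using hx
    have hcardroots : P.roots.toFinset.card ≤ P.natDegree :=
      (Multiset.toFinset_card_le _).trans (card_roots' P)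
    by_cases hr0 : r = 0
    · have hdeg : P.natDegree ≤ 2 := by
        have : P = C p * X ^ 2 + C s * X + C q := by simp [P, hr0]
        rw [this]
        exact natDegree_quadratic_le
      have hsub : (univ.filter fun i => L i z = 0) ⊆ Finset.insertNone P.roots.toFinset := by
        intro i hi
        rw [Finset.mem_filter] at hi
        cases i with
        | none => simp
        | some x => exact Finset.some_mem_insertNone.2 (hroot x hi.2)
      refine (Finset.card_le_card hsub).trans ?_
      rw [Finset.card_insertNone]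
      omega
    · have hdeg : P.natDegree ≤ 3 := natDegree_cubic_le
      have hsub : (univ.filter fun i => L i z = 0) ⊆
          P.roots.toFinset.map Function.Embedding.some := by
        intro i hi
        rw [Finset.mem_filter] at hi
        cases i with
        | none =>
          exfalso
          apply hr0
          have h1 : L none z = r := by
            change cubicAt R₃ R₄ 1 0 z = _
            rw [cubicAt_expand]
            ring
          rw [← h1]
          exact hi.2
        | some x => exact Finset.mem_map.2 ⟨x, hroot x hi.2, rfl⟩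
      refine (Finset.card_le_card hsub).trans ?_
      rw [Finset.card_map]
      omega
  obtain ⟨z, hz, hz'⟩ := exists_no_zero hcard L hL h3
  refine ⟨z, hz, fun e f hef h0 => ?_⟩
  by_cases hf : f = 0
  · have he : e ≠ 0 := by
      rcases hef with h | h
      · exact h
      · exact absurd hf h
    apply hz' none
    change cubicAt R₃ R₄ 1 0 z = 0
    rw [cubicAt_expand] at h0 ⊢
    rw [hf] at h0
    have h1 : dot4 R₄ (mulLin 1 0 z) * e ^ 3 = 0 := by linear_combination h0
    rcases mul_eq_zero.1 h1 with h2 | h2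
    · rw [h2]; ring
    · exact absurd h2 (pow_ne_zero _ he)
  · apply hz' (some (e / f))
    change cubicAt R₃ R₄ (e / f) 1 z = 0
    rw [cubicAt_expand] at h0 ⊢
    generalize dot4 R₄ (mulLin 1 0 z) = r at h0 ⊢
    generalize dot4 R₃ (mulLin 1 0 z) = p at h0 ⊢
    generalize dot4 R₄ (mulLin 0 1 z) = s at h0 ⊢
    generalize dot4 R₃ (mulLin 0 1 z) = q at h0 ⊢
    have h1 : r * (e / f) ^ 3 + p * (e / f) ^ 2 * 1 + s * (e / f) * 1 ^ 2 + q * 1 ^ 3 =
        (r * e ^ 3 + p * e ^ 2 * f + s * e * f ^ 2 + q * f ^ 3) / f ^ 3 := by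
      field_simp
    rw [h1, h0, zero_div]

end

end Pool.Agent.Helper26
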