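import Mathlib
import Pool.Agent.Helper26.ValDescent
import Pool.Agent.Helper26.Inert

set_option autoImplicit false
set_option linter.unusedSectionVars false

/-!
# Existence of an inert target at a good place
-/

namespace Pool.Agent.Helper26

open Matrix

section

variable {R : Type*} [CommRing R]

/-- The first quadratic-residue vector. -/
def vecR3 (N : Matrix (Fin 4) (Fin 4) R) (t : R) : Fin 4 → R := fun j => N j 1 ^ 2 + t * N j 0 ^ 2

/-- The second quadratic-residue vector. -/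
def vecR4 (N : Matrix (Fin 4) (Fin 4) R) (t : R) : Fin 4 → R := fun j => N j 3 ^ 2 + t * N j 2 ^ 2

lemma map_vecR3 {S : Type*} [CommRing S] (f : R →+* S) (N : Matrix (Fin 4) (Fin 4) R) (t : R)
    (j : Fin 4) : f (vecR3 N t j) = vecR3 (N.map f) (f t) j := by
  simp [vecR3]

lemma map_vecR4 {S : Type*} [CommRing S] (f : R →+* S) (N : Matrix (Fin 4) (Fin 4) R) (t : R)
    (j : Fin 4) : f (vecR4 N t j) = vecR4 (N.map f) (f t) j := by
  simp [vecR4]

end

section

variable {k : Type*} [Field k] [CharP k 2] {t : k}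

lemma dot_vecR (ht : IsTwoBasis t) {a b : Fin 4 → k} (hdet : (matPhi ht a b).det ≠ 0) :
    dot4 (vecR3 (matPhi ht a b)⁻¹ t) a = 0 ∧ dot4 (vecR3 (matPhi ht a b)⁻¹ t) b = 0 ∧
    dot4 (vecR4 (matPhi ht a b)⁻¹ t) a = 0 ∧ dot4 (vecR4 (matPhi ht a b)⁻¹ t) b = 0 := by
  set M := matPhi ht a b with hM
  set N := M⁻¹ with hN
  have hMN : M * N = 1 := Matrix.mul_nonsing_inv _ (isUnit_iff_ne_zero.2 hdet)
  have ha : ∀ j, a j = M 0 j ^ 2 + t * M 1 j ^ 2 := fun j => ht.eq (a j)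
  have hb : ∀ j, b j = M 2 j ^ 2 + t * M 3 j ^ 2 := fun j => ht.eq (b j)
  have e : ∀ i l, M i 0 * N 0 l + M i 1 * N 1 l + M i 2 * N 2 l + M i 3 * N 3 l =
      (1 : Matrix (Fin 4) (Fin 4) k) i l := by
    intro i l
    rw [← hMN, Matrix.mul_apply, Fin.sum_univ_four]
  have key : ∀ i i' l l' : Fin 4,
      (N 0 l ^ 2 + t * N 0 l' ^ 2) * (M i 0 ^ 2 + t * M i' 0 ^ 2) +
      (N 1 l ^ 2 + t * N 1 l' ^ 2) * (M i 1 ^ 2 + t * M i' 1 ^ 2) +
      (N 2 l ^ 2 + t * N 2 l' ^ 2) * (M i 2 ^ 2 + t * M i' 2 ^ 2) +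
      (N 3 l ^ 2 + t * N 3 l' ^ 2) * (M i 3 ^ 2 + t * M i' 3 ^ 2) =
      (1 : Matrix (Fin 4) (Fin 4) k) i l ^ 2 + t * (1 : Matrix (Fin 4) (Fin 4) k) i' l ^ 2 +
      t * (1 : Matrix (Fin 4) (Fin 4) k) i l' ^ 2 +
      t ^ 2 * (1 : Matrix (Fin 4) (Fin 4) k) i' l' ^ 2 := by
    intro i i' l l'
    rw [← e i l, ← e i' l, ← e i l', ← e i' l']
    simp only [CharTwo.add_sq]
    ring
  have h2 : t + t = 0 := CharTwo.add_self_eq_zero t
  refine ⟨?_, ?_, ?_, ?_⟩
  · rw [dot4_apply, ha 0, ha 1, ha 2, ha 3]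
    simp only [vecR3]
    rw [key 0 1 1 0]
    simp [h2]
  · rw [dot4_apply, hb 0, hb 1, hb 2, hb 3]
    simp only [vecR3]
    rw [key 2 3 1 0]
    simp
  · rw [dot4_apply, ha 0, ha 1, ha 2, ha 3]
    simp only [vecR4]
    rw [key 0 1 3 2]
    simp
  · rw [dot4_apply, hb 0, hb 1, hb 2, hb 3]
    simp only [vecR4]
    rw [key 2 3 3 2]
    simp [h2]

/-- Independence of the two vectors over a perfect field. -/
lemma vecR_independent {κ : Type*} [Field κ] [Finite κ] [CharP κ 2]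
    {N M : Matrix (Fin 4) (Fin 4) κ} (hMN : M * N = 1) (t x y : κ)
    (h : ∀ j, x * vecR3 N t j + y * vecR4 N t j = 0) : x = 0 ∧ y = 0 := by
  obtain ⟨s, hs⟩ := exists_sq t
  obtain ⟨x', hx'⟩ := exists_sq x
  obtain ⟨y', hy'⟩ := exists_sq y
  have h1 : ∀ j, x' * s * N j 0 + x' * N j 1 + y' * s * N j 2 + y' * N j 3 = 0 := by
    intro j
    have h2 := h j
    have h3 : (x' * s * N j 0 + x' * N j 1 + y' * s * N j 2 + y' * N j 3) ^ 2 = 0 := by
      simp only [CharTwo.add_sq]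
      rw [← h2]
      simp only [vecR3, vecR4]
      rw [← hs, ← hx', ← hy']
      ring
    exact (pow_eq_zero_iff two_ne_zero).1 h3
  have h4 : N.mulVec ![x' * s, x', y' * s, y'] = 0 := by
    ext j
    simp only [Matrix.mulVec, dotProduct, Fin.sum_univ_four, Matrix.cons_val_zero,
      Matrix.cons_val_one, Matrix.cons_val, Pi.zero_apply]
    linear_combination h1 j
  have h5 : ![x' * s, x', y' * s, y'] = 0 := by
    have := congrArg M.mulVec h4
    rwa [Matrix.mulVec_mulVec, hMN, Matrix.one_mulVec, Matrix.mulVec_zero] at this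
  have h6 := congrFun h5 1
  have h7 := congrFun h5 3
  simp at h6 h7
  constructor
  · rw [← hx', h6]; ring
  · rw [← hy', h7]; ring

lemma map_sylvMat {R S : Type*} [CommRing R] [CommRing S] (f : R →+* S) (a b : Fin 4 → R) :
    f (sylvMat a b).det = (sylvMat (fun j => f (a j)) (fun j => f (b j))).det := by
  rw [RingHom.map_det]
  congr 1
  ext i j
  fin_cases i <;> fin_cases j <;> simp [sylvMat]

lemma map_cubicAt {k κ : Type*} [Field k] [Field κ] {V : ValuationSubring k} (f : V →+* κ)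
    (R₃ R₄ : Fin 4 → V) (e g : V) (z : Fin 3 → V) :
    ∃ v : V, (v : k) = cubicAt (fun j => (R₃ j : k)) (fun j => (R₄ j : k)) (e : k) (g : k)
      (fun i => (z i : k)) ∧ f v = cubicAt (fun j => f (R₃ j)) (fun j => f (R₄ j)) (f e) (f g)
      (fun i => f (z i)) := by
  refine ⟨(R₄ 0 * z 0 + R₄ 1 * z 1 + R₄ 2 * z 2) * e ^ 3 +
    (R₃ 0 * z 0 + R₃ 1 * z 1 + R₃ 2 * z 2) * e ^ 2 * g +
    (R₄ 1 * z 0 + R₄ 2 * z 1 + R₄ 3 * z 2) * e * g ^ 2 +
    (R₃ 1 * z 0 + R₃ 2 * z 1 + R₃ 3 * z 2) * g ^ 3, ?_, ?_⟩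
  · rw [cubicAt_expand]
    simp only [dot4_apply, mulLin, LinearMap.coe_mk, AddHom.coe_mk, Matrix.cons_val_zero,
      Matrix.cons_val_one, Matrix.cons_val]
    push_cast
    ring
  · rw [cubicAt_expand]
    simp only [dot4_apply, mulLin, LinearMap.coe_mk, AddHom.coe_mk, Matrix.cons_val_zero,
      Matrix.cons_val_one, Matrix.cons_val, map_add, map_mul, map_pow]
    ring

/-- Existence of an inert target. -/
lemma exists_inert_target (ht : IsTwoBasis t) {P : ValuationSubring k}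
    [Finite (IsLocalRing.ResidueField P)] (hcard : 3 ≤ Nat.card (IsLocalRing.ResidueField P))
    {a b : Fin 4 → k} (ha : ∀ j, a j ∈ P) (hb : ∀ j, b j ∈ P)
    (hM : ∀ i j, matPhi ht a b i j ∈ P) (hdet : (matPhi ht a b).det ≠ 0)
    (hdet' : (matPhi ht a b).det⁻¹ ∈ P) (htP : t ∈ P) (hs : (sylvMat a b).det ≠ 0)
    (hs' : (sylvMat a b).det⁻¹ ∈ P) :
    (∀ i j, (matPhi ht a b)⁻¹ i j ∈ P) ∧
    ∃ y₀ : Fin 3 → k, (∀ i, y₀ i ∈ P) ∧ ∀ y : Fin 3 → k, (∀ i, y i - y₀ i ∈ P.nonunits) →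
      ∀ e f : k, e ∈ P → f ∈ P → (e ∉ P.nonunits ∨ f ∉ P.nonunits) →
        cubicAt (vecR3 (matPhi ht a b)⁻¹ t) (vecR4 (matPhi ht a b)⁻¹ t) e f
          (fun i => y i ^ 2) ∉ P.nonunits := by
  have hchar := charP_residue P
  have := Fintype.ofFinite (IsLocalRing.ResidueField P)
  let res := IsLocalRing.residue P
  let a' : Fin 4 → P := fun j => ⟨a j, ha j⟩
  let b' : Fin 4 → P := fun j => ⟨b j, hb j⟩
  let M' : Matrix (Fin 4) (Fin 4) P := Matrix.of fun i j => ⟨matPhi ht a b i j, hM i j⟩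
  have hM' : M'.map P.subtype = matPhi ht a b := by ext i j; rfl
  have hdetM' : ((M'.det : P) : k) = (matPhi ht a b).det := by
    have := RingHom.map_det P.subtype M'
    rw [RingHom.mapMatrix_apply, hM'] at this
    exact this
  have hunit : IsUnit M'.det := by
    refine IsUnit.of_mul_eq_one ⟨_, hdet'⟩ (Subtype.ext ?_)
    change ((M'.det : P) : k) * (matPhi ht a b).det⁻¹ = 1
    rw [hdetM', mul_inv_cancel₀ hdet]
  have hMN' : M' * M'⁻¹ = 1 := Matrix.mul_nonsing_inv _ hunit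
  have hN' : (M'⁻¹).map P.subtype = (matPhi ht a b)⁻¹ := by
    symm
    apply Matrix.inv_eq_right_inv
    rw [← hM', ← Matrix.map_mul, hMN']
    simp
  have hNij : ∀ i j, (((M'⁻¹) i j : P) : k) = (matPhi ht a b)⁻¹ i j := fun i j => by
    rw [← hN']; rfl
  refine ⟨fun i j => by rw [← hNij]; exact ((M'⁻¹) i j).2, ?_⟩
  let t' : P := ⟨t, htP⟩
  -- the vectors over `P`
  let R3' : Fin 4 → P := vecR3 (M'⁻¹) t'
  let R4' : Fin 4 → P := vecR4 (M'⁻¹) t'
  have hR3' : (fun j => ((R3' j : P) : k)) = vecR3 (matPhi ht a b)⁻¹ t := by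
    ext j
    change P.subtype (vecR3 (M'⁻¹) t' j) = _
    rw [map_vecR3, hN']; rfl
  have hR4' : (fun j => ((R4' j : P) : k)) = vecR4 (matPhi ht a b)⁻¹ t := by
    ext j
    change P.subtype (vecR4 (M'⁻¹) t' j) = _
    rw [map_vecR4, hN']; rfl
  have hR3b : (fun j => res (R3' j)) = vecR3 ((M'⁻¹).map res) (res t') := by
    ext j; exact map_vecR3 res _ _ j
  have hR4b : (fun j => res (R4' j)) = vecR4 ((M'⁻¹).map res) (res t') := by
    ext j; exact map_vecR4 res _ _ j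
  obtain ⟨d1, d2, d3, d4⟩ := dot_vecR ht hdet
  have hdot : ∀ (R' c' : Fin 4 → P), dot4 (fun j => ((R' j : P) : k)) (fun j => (c' j : k)) = 0 →
      dot4 (fun j => res (R' j)) (fun j => res (c' j)) = 0 := by
    intro R' c' h
    rw [dot4_apply] at h ⊢
    have h1 : R' 0 * c' 0 + R' 1 * c' 1 + R' 2 * c' 2 + R' 3 * c' 3 = 0 :=
      Subtype.ext (by push_cast; exact h)
    have := congrArg res h1
    simpa only [map_add, map_mul, map_zero] using this
  have hMNb : (M'.map res) * ((M'⁻¹).map res) = 1 := by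
    rw [← Matrix.map_mul, hMN']
    simp
  have hsb : (sylvMat (fun j => res (a' j)) (fun j => res (b' j))).det ≠ 0 := by
    rw [← map_sylvMat]
    have h1 : (((sylvMat a' b').det : P) : k) = (sylvMat a b).det := map_sylvMat P.subtype a' b'
    have h2 : IsUnit (sylvMat a' b').det := by
      refine IsUnit.of_mul_eq_one ⟨_, hs'⟩ (Subtype.ext ?_)
      change (((sylvMat a' b').det : P) : k) * (sylvMat a b).det⁻¹ = 1
      rw [h1, mul_inv_cancel₀ hs]
    exact (h2.map res).ne_zero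
  obtain ⟨zb, -, hzb⟩ := exists_inert (K := IsLocalRing.ResidueField P)
    (by rwa [← Nat.card_eq_fintype_card]) (R₃ := fun j => res (R3' j))
    (R₄ := fun j => res (R4' j)) hsb
    (fun x y h => by
      refine vecR_independent hMNb (res t') x y fun j => ?_
      rw [← congrFun hR3b j, ← congrFun hR4b j]
      exact h j)
    (hdot R3' a' (by rw [hR3']; exact d1)) (hdot R3' b' (by rw [hR3']; exact d2))
    (hdot R4' a' (by rw [hR4']; exact d3)) (hdot R4' b' (by rw [hR4']; exact d4))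
  choose yb hyb using fun i => exists_sq (zb i)
  choose y₀ hy₀ using fun i => IsLocalRing.residue_surjective (yb i)
  refine ⟨fun i => (y₀ i : k), fun i => (y₀ i).2, ?_⟩
  intro y hy e f he hf hef
  have hyP : ∀ i, y i ∈ P := fun i => by
    have : y i = (y i - y₀ i) + y₀ i := by ring
    rw [this]
    exact P.add_mem _ _ (nonunits_mem (hy i)) (y₀ i).2
  let y' : Fin 3 → P := fun i => ⟨y i, hyP i⟩
  have hres : ∀ i, res (y' i) = yb i := by
    intro i
    have h1 : res (y' i - y₀ i) = 0 := residue_of_mem_nonunits (hy i)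
    rw [map_sub, sub_eq_zero] at h1
    rw [h1]
    exact hy₀ i
  obtain ⟨v, hv1, hv2⟩ := map_cubicAt res R3' R4' ⟨e, he⟩ ⟨f, hf⟩ (fun i => y' i ^ 2)
  intro hnon
  have h3 : (v : k) ∈ P.nonunits := by
    rw [hv1, hR3', hR4']
    exact hnon
  have h4 := residue_of_mem_nonunits h3
  change res v = 0 at h4
  rw [hv2] at h4
  refine hzb (res ⟨e, he⟩) (res ⟨f, hf⟩) ?_ ?_
  · rcases hef with h | h
    · left
      intro h0
      exact h (mem_nonunits_of_residue h0)
    · right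
      intro h0
      exact h (mem_nonunits_of_residue h0)
  · have h5 : (fun i => res (y' i ^ 2)) = zb := by
      ext i
      rw [map_pow, hres, hyb]
    rw [h5] at h4
    exact h4

end

end Pool.Agent.Helper26
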