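import Mathlib
import Pool.Agent.Helper26.PlacesExt
import Pool.Agent.Helper26.InertPlace
import Pool.Agent.Helper26.CubicExt

set_option autoImplicit false
set_option linter.unusedSectionVars false

/-!
# The Hasse principle for the pair of forms in normal form
-/

universe u v

namespace Pool.Agent.Helper26

open Matrix

section

variable {k : Type u} [Field k] [CharP k 2] {t : k}

lemma exists_phi_eq (ht : IsTwoBasis t) {a b : Fin 4 → k} (hdet : (matPhi ht a b).det ≠ 0)
    (γ₁ γ₂ : k) : ∃ x : Fin 4 → k, phi a x = γ₁ ∧ phi b x = γ₂ := by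
  set M := matPhi ht a b with hM
  refine ⟨M⁻¹.mulVec ![ht.sqp γ₁, ht.cart γ₁, ht.sqp γ₂, ht.cart γ₂], ?_⟩
  set x := M⁻¹.mulVec ![ht.sqp γ₁, ht.cart γ₁, ht.sqp γ₂, ht.cart γ₂] with hx
  have h1 : M.mulVec x = ![ht.sqp γ₁, ht.cart γ₁, ht.sqp γ₂, ht.cart γ₂] := by
    rw [hx, Matrix.mulVec_mulVec, Matrix.mul_nonsing_inv _ (isUnit_iff_ne_zero.2 hdet),
      Matrix.one_mulVec]
  rw [hM, mulVec_matPhi] at h1
  have h2 := congrFun h1 0
  have h3 := congrFun h1 1
  have h4 := congrFun h1 2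
  have h5 := congrFun h1 3
  simp only [Matrix.cons_val_zero, Matrix.cons_val_one, Matrix.cons_val] at h2 h3 h4 h5
  constructor
  · rw [ht.eq (phi a x), h2, h3, ← ht.eq γ₁]
  · rw [ht.eq (phi b x), h4, h5, ← ht.eq γ₂]

lemma exists_zero_of_det (ht : IsTwoBasis t) {a b : Fin 4 → k} (hdet : (matPhi ht a b).det = 0) :
    ∃ x : Fin 4 → k, x ≠ 0 ∧ phi a x = 0 ∧ phi b x = 0 := by
  obtain ⟨x, hx0, hx⟩ := Matrix.exists_mulVec_eq_zero_iff.2 hdet
  refine ⟨x, hx0, ?_⟩
  rw [mulVec_matPhi] at hx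
  have h2 := congrFun hx 0
  have h3 := congrFun hx 1
  have h4 := congrFun hx 2
  have h5 := congrFun hx 3
  simp only [Matrix.cons_val_zero, Matrix.cons_val_one, Matrix.cons_val, Pi.zero_apply] at h2 h3 h4 h5
  constructor
  · rw [ht.eq (phi a x), h2, h3]; ring
  · rw [ht.eq (phi b x), h4, h5]; ring

/-- The Cartier identity over the cubic extension. -/
lemma cart_identity (ht : IsTwoBasis t) {a b : Fin 4 → k} (hdet : (matPhi ht a b).det ≠ 0)
    {K : Type u} [Field K] [Algebra k K] [CharP K 2] (htK : IsTwoBasis (algebraMap k K t))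
    (y : Fin 3 → k) {E F : K}
    (hE : E = algebraMap k K (dot4 (vecR3 (matPhi ht a b)⁻¹ t) (mulLin 1 0 fun i => y i ^ 2)) * E ^ 2 +
      algebraMap k K (dot4 (vecR3 (matPhi ht a b)⁻¹ t) (mulLin 0 1 fun i => y i ^ 2)) * F ^ 2)
    (hF : F = algebraMap k K (dot4 (vecR4 (matPhi ht a b)⁻¹ t) (mulLin 1 0 fun i => y i ^ 2)) * E ^ 2 +
      algebraMap k K (dot4 (vecR4 (matPhi ht a b)⁻¹ t) (mulLin 0 1 fun i => y i ^ 2)) * F ^ 2)
    (x : Fin 4 → k) :
    htK.cart (E * algebraMap k K (phi a x) + F * algebraMap k K (phi b x)) =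
      E * algebraMap k K (lin1 x y) + F * algebraMap k K (lin2 x y) := by
  set M := matPhi ht a b with hM
  set N := M⁻¹ with hN
  -- the values of the linear forms on the columns of `N`
  have col : ∀ (l l' : Fin 4) (e f : K), 
      (e * algebraMap k K (lin1 (fun j => N j l) y) + f * algebraMap k K (lin2 (fun j => N j l) y)) ^ 2 +
      algebraMap k K t * (e * algebraMap k K (lin1 (fun j => N j l') y) +
        f * algebraMap k K (lin2 (fun j => N j l') y)) ^ 2 =
      algebraMap k K (dot4 (fun j => N j l ^ 2 + t * N j l' ^ 2) (mulLin 1 0 fun i => y i ^ 2)) * e ^ 2 +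
      algebraMap k K (dot4 (fun j => N j l ^ 2 + t * N j l' ^ 2) (mulLin 0 1 fun i => y i ^ 2)) *
        f ^ 2 := by
    intro l l' e f
    simp only [lin1, lin2, dot4_apply, mulLin, LinearMap.coe_mk, AddHom.coe_mk,
      Matrix.cons_val_zero, Matrix.cons_val_one, Matrix.cons_val, map_add, map_mul, map_pow,
      CharTwo.add_sq, mul_pow, zero_mul, one_mul, add_zero, zero_add, mul_zero]
    ring
  have hcE := htK.cart_eq (hE.trans (col 1 0 E F).symm)
  have hsE := htK.sqp_eq (hE.trans (col 1 0 E F).symm)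
  have hcF := htK.cart_eq (hF.trans (col 3 2 E F).symm)
  have hsF := htK.sqp_eq (hF.trans (col 3 2 E F).symm)
  -- expansion
  have hphi : ∀ (c : Fin 4 → k) (g : K), htK.cart (g * algebraMap k K (phi c x)) =
      algebraMap k K (ht.sqp (phi c x)) * htK.cart g +
        algebraMap k K (ht.cart (phi c x)) * htK.sqp g := by
    intro c g
    have h1 : g * algebraMap k K (phi c x) = algebraMap k K (ht.sqp (phi c x)) ^ 2 * g +
        algebraMap k K (ht.cart (phi c x)) ^ 2 * (algebraMap k K t * g) := by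
      nth_rewrite 1 [ht.eq (phi c x)]
      simp only [map_add, map_mul, map_pow]
      ring
    rw [h1, htK.cart_add, htK.cart_sq_mul, htK.cart_sq_mul, htK.cart_theta_mul]
  rw [htK.cart_add, hphi, hphi, hcE, hsE, hcF, hsF]
  have hx : x = N.mulVec ![ht.sqp (phi a x), ht.cart (phi a x), ht.sqp (phi b x),
      ht.cart (phi b x)] := by
    rw [← mulVec_matPhi ht a b x, Matrix.mulVec_mulVec,
      Matrix.nonsing_inv_mul _ (isUnit_iff_ne_zero.2 hdet), Matrix.one_mulVec]
  have hxj : ∀ j, x j = N j 0 * ht.sqp (phi a x) + N j 1 * ht.cart (phi a x) +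
      N j 2 * ht.sqp (phi b x) + N j 3 * ht.cart (phi b x) := by
    intro j
    have h1 := congrFun hx j
    simp only [Matrix.mulVec, dotProduct, Fin.sum_univ_four, Matrix.cons_val_zero,
      Matrix.cons_val_one, Matrix.cons_val] at h1
    exact h1
  generalize ht.sqp (phi a x) = s₁ at hxj ⊢
  generalize ht.cart (phi a x) = c₁ at hxj ⊢
  generalize ht.sqp (phi b x) = s₂ at hxj ⊢
  generalize ht.cart (phi b x) = c₂ at hxj ⊢
  simp only [lin1, lin2]
  rw [hxj 0, hxj 1, hxj 2, hxj 3]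
  simp only [map_add, map_mul]
  ring

end

/-- The Hasse principle for the pair of forms in normal form, over a field with the usual
properties of a global field of characteristic two. -/
theorem hp_core {k : Type u} [Field k] [CharP k 2]
    (hfin : ∀ x : k, {V : ValuationSubring k | x ∉ V}.Finite)
    (hr1 : ∀ V : ValuationSubring k, V ≠ ⊤ → IsRankOne V)
    (hres : ∀ V : ValuationSubring k, V ≠ ⊤ → Finite (IsLocalRing.ResidueField V))
    {t : k} (ht : IsTwoBasis t) (hcart : ∀ V : ValuationSubring k, V ≠ ⊤ → CartBdd ht V)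
    (hpole : {V : ValuationSubring k | V ≠ ⊤ ∧ HasPole.{u, v} V ∧
      3 ≤ Nat.card (IsLocalRing.ResidueField V)}.Infinite)
    {a b : Fin 4 → k} {g₁ g₂ : Fin 3 → Fin 3 → k} (ha3 : a 3 ≠ 0) (hs : (sylvMat a b).det ≠ 0)
    (hloc : ∀ V : ValuationSubring k, V ≠ ⊤ → LocApp V a b g₁ g₂) :
    ∃ (x : Fin 4 → k) (y : Fin 3 → k), ((∃ i, x i ≠ 0) ∨ ∃ i, y i ≠ 0) ∧
      Q1 a g₁ x y = 0 ∧ Q2 b g₂ x y = 0 := by
  classical
  by_cases hdet : (matPhi ht a b).det = 0
  · obtain ⟨x, hx0, h1, h2⟩ := exists_zero_of_det ht hdet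
    refine ⟨x, 0, Or.inl ?_, ?_, ?_⟩
    · by_contra hcon
      push Not at hcon
      exact hx0 (funext hcon)
    · rw [Q1, h1]; simp [lin1, quad]
    · rw [Q2, h2]; simp [lin2, quad]
  -- the bad places
  obtain ⟨B, hBfin, hB⟩ := choose_y hfin hr1 hres ha3 hs g₁ g₂
  have hB' : (B ∪ (⋃ j, {V | a j ∉ V}) ∪ (⋃ j, {V | b j ∉ V}) ∪
      (⋃ ij : Fin 4 × Fin 4, {V | matPhi ht a b ij.1 ij.2 ∉ V}) ∪
      {V | (matPhi ht a b).det⁻¹ ∉ V} ∪ {V | t ∉ V} ∪
      {V : ValuationSubring k | (sylvMat a b).det⁻¹ ∉ V}).Finite := by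
    refine (((((hBfin.union ?_).union ?_).union ?_).union (hfin _)).union (hfin _)).union (hfin _)
    · exact Set.finite_iUnion fun j => hfin _
    · exact Set.finite_iUnion fun j => hfin _
    · exact Set.finite_iUnion fun j => hfin _
  obtain ⟨P, ⟨hPt, hPpole, hPcard⟩, hPB⟩ := (hpole.sdiff hB').nonempty
  simp only [Set.mem_union, Set.mem_iUnion, Set.mem_ofPred_eq, not_or, not_exists,
    not_not] at hPB
  obtain ⟨⟨⟨⟨⟨⟨hP0, hPa⟩, hPb⟩, hPM⟩, hPdet⟩, hPt'⟩, hPs⟩ := hPB
  have hPfin := hres P hPt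
  obtain ⟨hNP, y₀P, hy₀P, hinertP⟩ := exists_inert_target ht hPcard hPa hPb
    (fun i j => hPM (i, j)) hdet hPdet hPt' hs hPs
  obtain ⟨π, hπ0, hπ⟩ := exists_nonunit hPt
  -- targets
  have hnb : ∀ V : ValuationSubring k, V ≠ ⊤ → ∃ (y₀ : Fin 3 → k) (ρ : k), ρ ≠ 0 ∧
      ∀ y : Fin 3 → k, (∀ i, (y i - y₀ i) / ρ ∈ V) → AppSol V a b g₁ g₂ y := fun V hV =>
    exists_nbhd ht hV (hr1 V hV) (hcart V hV) hdet g₁ g₂ (hloc V hV)
  choose! y₀ ρ hρ0 hnb using hnb
  set S : Finset (ValuationSubring k) := (insert P hBfin.toFinset).filter fun V => V ≠ ⊤ with hS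
  have hPS : P ∈ S := Finset.mem_filter.2 ⟨Finset.mem_insert_self _ _, hPt⟩
  obtain ⟨y, hy0, hyS, hyelse⟩ := hB S (fun V hVB hVt => Finset.mem_filter.2
      ⟨Finset.mem_insert_of_mem ((Set.Finite.mem_toFinset _).2 hVB), hVt⟩)
    (fun V hV => (Finset.mem_filter.1 hV).2) ⟨P, hPS⟩
    (fun V => if V = P then y₀P else y₀ V) (fun V => if V = P then π else ρ V) (by
      intro V hV
      by_cases h : V = P
      · simp only [h, if_true]; exact hπ0
      · simp only [h, if_false]; exact hρ0 V (Finset.mem_filter.1 hV).2)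
  -- solvability away from `P`
  have happ : ∀ V : ValuationSubring k, V ≠ ⊤ → V ≠ P → AppSol V a b g₁ g₂ y := by
    intro V hVt hVP
    by_cases hVS : V ∈ S
    · apply hnb V hVt
      intro i
      have := hyS V hVS i
      simpa only [hVP, if_false] using this
    · exact hyelse V hVS hVt
  -- the situation at `P`
  have hyP : ∀ i, y i - y₀P i ∈ P.nonunits := by
    intro i
    have h1 := hyS P hPS i
    simp only [if_true] at h1
    have h2 : y i - y₀P i = π * ((y i - y₀P i) / π) := by field_simp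
    rw [h2]
    exact nonunits_mul hπ h1
  have hyPm : ∀ i, y i ∈ P := fun i => by
    have : y i = (y i - y₀P i) + y₀P i := by ring
    rw [this]
    exact P.add_mem _ _ (nonunits_mem (hyP i)) (hy₀P i)
  have haniso := hinertP y hyP
  set N := (matPhi ht a b)⁻¹ with hN
  set z : Fin 3 → k := fun i => y i ^ 2 with hz
  set r := dot4 (vecR4 N t) (mulLin 1 0 z) with hr
  set p := dot4 (vecR3 N t) (mulLin 1 0 z) with hp
  set s := dot4 (vecR4 N t) (mulLin 0 1 z) with hs'
  set q := dot4 (vecR3 N t) (mulLin 0 1 z) with hq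
  have hzP : ∀ i, z i ∈ P := fun i => pow_mem (hyPm i) 2
  have hR3P : ∀ j, vecR3 N t j ∈ P := fun j =>
    P.add_mem _ _ (pow_mem (hNP _ _) 2) (P.mul_mem _ _ hPt' (pow_mem (hNP _ _) 2))
  have hR4P : ∀ j, vecR4 N t j ∈ P := fun j =>
    P.add_mem _ _ (pow_mem (hNP _ _) 2) (P.mul_mem _ _ hPt' (pow_mem (hNP _ _) 2))
  have hdotP : ∀ R : Fin 4 → k, (∀ j, R j ∈ P) → ∀ e f : k, e ∈ P → f ∈ P →
      dot4 R (mulLin e f z) ∈ P := by
    intro R hR e f he hf
    simp only [dot4_apply, mulLin, LinearMap.coe_mk, AddHom.coe_mk, Matrix.cons_val_zero,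
      Matrix.cons_val_one, Matrix.cons_val]
    exact P.add_mem _ _ (P.add_mem _ _ (P.add_mem _ _
      (P.mul_mem _ _ (hR _) (P.mul_mem _ _ he (hzP _)))
      (P.mul_mem _ _ (hR _) (P.add_mem _ _ (P.mul_mem _ _ he (hzP _)) (P.mul_mem _ _ hf (hzP _)))))
      (P.mul_mem _ _ (hR _) (P.add_mem _ _ (P.mul_mem _ _ he (hzP _)) (P.mul_mem _ _ hf (hzP _)))))
      (P.mul_mem _ _ (hR _) (P.mul_mem _ _ hf (hzP _)))
  have hrP : r ∈ P := hdotP _ hR4P _ _ P.one_mem P.zero_mem
  have hpP : p ∈ P := hdotP _ hR3P _ _ P.one_mem P.zero_mem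
  have hsP : s ∈ P := hdotP _ hR4P _ _ P.zero_mem P.one_mem
  have hqP : q ∈ P := hdotP _ hR3P _ _ P.zero_mem P.one_mem
  have haniso' : ∀ e f : k, e ∈ P → f ∈ P → (e ∉ P.nonunits ∨ f ∉ P.nonunits) →
      r * e ^ 3 + p * e ^ 2 * f + s * e * f ^ 2 + q * f ^ 3 ∉ P.nonunits := by
    intro e f he hf hef
    have := haniso e f he hf hef
    rwa [cubicAt_expand] at this
  have hzero : (0 : k) ∈ P.nonunits := (nonunits_iff P 0).2 (Or.inl rfl)
  have hr0 : r ≠ 0 := by
    intro h0
    have := haniso' 1 0 P.one_mem P.zero_mem (Or.inl (one_notMem_nonunits P))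
    rw [h0] at this
    apply this
    have h1 : (0 : k) * 1 ^ 3 + p * 1 ^ 2 * 0 + s * 1 * 0 ^ 2 + q * 0 ^ 3 = 0 := by ring
    rw [h1]
    exact hzero
  have hnoroot : ∀ x : k, r * x ^ 3 + p * x ^ 2 + s * x + q ≠ 0 := by
    intro x hx
    by_cases hxP : x ∈ P
    · apply haniso' x 1 hxP P.one_mem (Or.inr (one_notMem_nonunits P))
      have h1 : r * x ^ 3 + p * x ^ 2 * 1 + s * x * 1 ^ 2 + q * 1 ^ 3 = 0 := by
        linear_combination hx
      rw [h1]
      exact hzero
    · have hxi := notMem_iff_inv_nonunits hxP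
      have hx0 : x ≠ 0 := by rintro rfl; exact hxP P.zero_mem
      apply haniso' 1 x⁻¹ P.one_mem (nonunits_mem hxi) (Or.inl (one_notMem_nonunits P))
      have h1 : r * 1 ^ 3 + p * 1 ^ 2 * x⁻¹ + s * 1 * x⁻¹ ^ 2 + q * x⁻¹ ^ 3 = 0 := by
        field_simp
        linear_combination hx
      rw [h1]
      exact hzero
  -- the cubic extension
  obtain ⟨K, _, _, _, _, _, ρK, hroot, hspan, hindep⟩ := exists_cubic_ext hr0 hnoroot
  have htK : IsTwoBasis (algebraMap k K t) := ht.extend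
  set D : K := algebraMap k K r * ρK ^ 2 + algebraMap k K s with hD
  have hD0 : D ≠ 0 := by
    intro h0
    have := (hindep s 0 r (by rw [map_zero]; linear_combination h0)).2.2
    exact hr0 this
  set F : K := D⁻¹ with hF
  set E : K := ρK * D⁻¹ with hE
  have hF0 : F ≠ 0 := inv_ne_zero hD0
  have hFD : F * D = 1 := inv_mul_cancel₀ hD0
  have hED : E * D = ρK := by rw [hE]; field_simp
  have hE2 : E = algebraMap k K p * E ^ 2 + algebraMap k K q * F ^ 2 := by
    have h1 : ρK * D = algebraMap k K p * ρK ^ 2 + algebraMap k K q := by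
      rw [hD]
      linear_combination hroot - CharTwo.add_self_eq_zero (algebraMap k K p * ρK ^ 2) -
        CharTwo.add_self_eq_zero (algebraMap k K q)
    rw [hE, hF]
    field_simp
    linear_combination h1
  have hF2 : F = algebraMap k K r * E ^ 2 + algebraMap k K s * F ^ 2 := by
    rw [hE, hF]
    field_simp
    linear_combination hD
  have hcartEF : ∀ x : Fin 4 → k,
      htK.cart (E * algebraMap k K (phi a x) + F * algebraMap k K (phi b x)) =
        E * algebraMap k K (lin1 x y) + F * algebraMap k K (lin2 x y) :=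
    cart_identity ht hdet htK y hE2 hF2
  have hcartk : ∀ c : k, htK.cart (algebraMap k K c) = algebraMap k K (ht.cart c) := by
    intro c
    apply htK.cart_eq (u := algebraMap k K (ht.sqp c))
    nth_rewrite 1 [ht.eq c]
    simp only [map_add, map_mul, map_pow]
  -- coordinates with respect to `1, E, F`
  have hspan' : ∀ u : K, ∃ c₀ γ₁ γ₂ : k, u = algebraMap k K c₀ + E * algebraMap k K γ₁ +
      F * algebraMap k K γ₂ := by
    intro u
    obtain ⟨x₀, x₁, x₂, hx⟩ := hspan (u * D)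
    refine ⟨x₂ / r, x₁, x₀ - s * (x₂ / r), ?_⟩
    apply mul_right_cancel₀ hD0
    rw [hx, add_mul, add_mul, mul_right_comm E, mul_right_comm F, hED, hFD, hD]
    have h1 : algebraMap k K x₂ = algebraMap k K (x₂ / r) * algebraMap k K r := by
      rw [← map_mul, div_mul_cancel₀ _ hr0]
    simp only [map_sub, map_mul]
    linear_combination ρK ^ 2 * h1
  have hindep' : ∀ c₀ γ₁ γ₂ : k, algebraMap k K c₀ + E * algebraMap k K γ₁ +
      F * algebraMap k K γ₂ = 0 → γ₁ = 0 ∧ γ₂ = 0 := by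
    intro c₀ γ₁ γ₂ h
    have h1 := congrArg (· * D) h
    simp only [zero_mul] at h1
    rw [add_mul, add_mul, mul_right_comm E, mul_right_comm F, hED, hFD, hD] at h1
    obtain ⟨e0, e1, e2⟩ := hindep (γ₂ + c₀ * s) γ₁ (c₀ * r) (by
      simp only [map_add, map_mul]
      linear_combination h1)
    have hc0 : c₀ = 0 := by
      rcases mul_eq_zero.1 e2 with h | h
      · exact h
      · exact absurd h hr0
    refine ⟨e1, ?_⟩
    rw [hc0] at e0
    simpa using e0
  -- the local-global principle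
  obtain ⟨R, hR⟩ : ∃ R : K, E * algebraMap k K (quad g₁ y) + F * algebraMap k K (quad g₂ y) =
      R + htK.cart R := by
    refine local_global_ext P hPpole ?_ htK _ ?_ (fun W hW => comap_ne_top W hW)
    · -- inertness
      intro u hu
      obtain ⟨x₀, x₁, x₂, hx⟩ := hspan u
      obtain ⟨i, hi0, himax⟩ : ∃ i : Fin 3, ![x₀, x₁, x₂] i ≠ 0 ∧
          ∀ l, ![x₀, x₁, x₂] l / ![x₀, x₁, x₂] i ∈ P := by
        by_cases h0 : ∃ j, ![x₀, x₁, x₂] j ≠ 0
        · obtain ⟨j, hj⟩ := h0
          exact exists_max3 P _ j hj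
        · exfalso
          push Not at h0
          have e0 : x₀ = 0 := h0 0
          have e1 : x₁ = 0 := h0 1
          have e2 : x₂ = 0 := h0 2
          apply hu
          rw [hx, e0, e1, e2]
          simp
      set m := ![x₀, x₁, x₂] i with hm
      refine ⟨m⁻¹, inv_ne_zero hi0, fun W hW => ?_⟩
      obtain ⟨hρW, hunits⟩ := cubic_unit hW hrP hpP hsP hqP haniso' hroot
      have h0 : x₀ / m ∈ P := himax 0
      have h1 : x₁ / m ∈ P := himax 1
      have h2 : x₂ / m ∈ P := himax 2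
      have huc : u * algebraMap k K m⁻¹ = algebraMap k K (x₀ / m) + algebraMap k K (x₁ / m) * ρK +
          algebraMap k K (x₂ / m) * ρK ^ 2 := by
        rw [hx]
        simp only [div_eq_mul_inv, map_mul]
        ring
      have hne : x₀ / m ∉ P.nonunits ∨ x₁ / m ∉ P.nonunits ∨ x₂ / m ∉ P.nonunits := by
        have hone : m / m ∉ P.nonunits := by
          rw [div_self hi0]; exact one_notMem_nonunits P
        fin_cases i
        · exact Or.inl hone
        · exact Or.inr (Or.inl hone)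
        · exact Or.inr (Or.inr hone)
      have h3 := hunits _ _ _ h0 h1 h2 hne
      rw [← huc] at h3
      constructor
      · rw [huc]
        exact W.add_mem _ _ (W.add_mem _ _ ((comap_mem hW).2 h0)
          (W.mul_mem _ _ ((comap_mem hW).2 h1) hρW))
          (W.mul_mem _ _ ((comap_mem hW).2 h2) (pow_mem hρW 2))
      · by_contra h4
        exact h3 ((nonunits_iff W _).2 (Or.inr h4))
    · -- local solvability
      intro W hWt hWP hWk d hd
      set V := W.comap (algebraMap k K) with hV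
      obtain ⟨c₁, hc₁0, hc₁⟩ := exists_mul_mem (k := k) W (E / d)
      obtain ⟨c₂, hc₂0, hc₂⟩ := exists_mul_mem (k := k) W (F / d)
      obtain ⟨w, hw0, -, hw⟩ := exists_big V ![c₁⁻¹, c₂⁻¹]
      have hw1 : c₁⁻¹ / w ∈ V := hw 0
      have hw2 : c₂⁻¹ / w ∈ V := hw 1
      obtain ⟨x, hx1, hx2⟩ := happ V hWk hWP w⁻¹ (inv_ne_zero hw0)
      refine ⟨E * algebraMap k K (phi a x) + F * algebraMap k K (phi b x), ?_⟩
      rw [hcartEF]
      have h1 : (E * algebraMap k K (quad g₁ y) + F * algebraMap k K (quad g₂ y) +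
          (E * algebraMap k K (phi a x) + F * algebraMap k K (phi b x)) +
          (E * algebraMap k K (lin1 x y) + F * algebraMap k K (lin2 x y))) / d =
          algebraMap k K (Q1 a g₁ x y / w⁻¹) * (algebraMap k K c₁ * (E / d)) *
            algebraMap k K (c₁⁻¹ / w) +
          algebraMap k K (Q2 b g₂ x y / w⁻¹) * (algebraMap k K c₂ * (F / d)) *
            algebraMap k K (c₂⁻¹ / w) := by
        have e1 : algebraMap k K (Q1 a g₁ x y / w⁻¹) * (algebraMap k K c₁ * (E / d)) *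
            algebraMap k K (c₁⁻¹ / w) = algebraMap k K (Q1 a g₁ x y) * (E / d) := by
          have : Q1 a g₁ x y / w⁻¹ * c₁ * (c₁⁻¹ / w) = Q1 a g₁ x y := by field_simp
          nth_rewrite 2 [← this]
          simp only [map_mul]
          ring
        have e2 : algebraMap k K (Q2 b g₂ x y / w⁻¹) * (algebraMap k K c₂ * (F / d)) *
            algebraMap k K (c₂⁻¹ / w) = algebraMap k K (Q2 b g₂ x y) * (F / d) := by
          have : Q2 b g₂ x y / w⁻¹ * c₂ * (c₂⁻¹ / w) = Q2 b g₂ x y := by field_simp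
          nth_rewrite 2 [← this]
          simp only [map_mul]
          ring
        rw [e1, e2]
        simp only [Q1, Q2, map_add]
        ring
      rw [h1]
      exact W.add_mem _ _ (W.mul_mem _ _ (W.mul_mem _ _ ((comap_mem rfl).2 hx1) hc₁)
        ((comap_mem rfl).2 hw1)) (W.mul_mem _ _ (W.mul_mem _ _ ((comap_mem rfl).2 hx2) hc₂)
        ((comap_mem rfl).2 hw2))
  -- conclusion
  obtain ⟨c₀, γ₁, γ₂, hRc⟩ := hspan' R
  obtain ⟨x, hx1, hx2⟩ := exists_phi_eq ht hdet γ₁ γ₂
  have h1 : htK.cart R = algebraMap k K (ht.cart c₀) + (E * algebraMap k K (lin1 x y) +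
      F * algebraMap k K (lin2 x y)) := by
    rw [hRc, add_assoc, htK.cart_add, hcartk, ← hx1, ← hx2, hcartEF]
  obtain ⟨e1, e2⟩ := hindep' (c₀ + ht.cart c₀) (γ₁ + lin1 x y + quad g₁ y)
    (γ₂ + lin2 x y + quad g₂ y) (by
      rw [h1, hRc] at hR
      simp only [map_add]
      linear_combination -hR + CharTwo.add_self_eq_zero (E * algebraMap k K (quad g₁ y)) +
        CharTwo.add_self_eq_zero (F * algebraMap k K (quad g₂ y)))
  refine ⟨x, y, Or.inr hy0, ?_, ?_⟩
  · rw [Q1, hx1]; exact e1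
  · rw [Q2, hx2]; exact e2

end Pool.Agent.Helper26
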