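import Mathlib
import Pool.Agent.Helper26.PoleGen

set_option autoImplicit false
set_option linter.unusedSectionVars false

/-!
# Existence of a separating element
-/

universe u v

namespace Pool.Agent.Helper26

open Polynomial

/-- A finite extension of `RatFunc F` has a separating element. -/
lemma exists_goodEmb (F : Type v) (k : Type u) [Field F] [Finite F] [CharP F 2] [Field k]
    [Algebra (RatFunc F) k] [FiniteDimensional (RatFunc F) k] :
    ∃ φ : RatFunc F →+* k, GoodEmb φ := by
  have hchark : CharP k 2 := charP_of_injective_algebraMap (algebraMap (RatFunc F) k).injective 2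
  have hq : ExpChar (RatFunc F) 2 := ExpChar.prime Nat.prime_two
  let _ : Algebra F k := ((algebraMap (RatFunc F) k).comp (algebraMap F (RatFunc F))).toAlgebra
  have _ : IsScalarTower F (RatFunc F) k := IsScalarTower.of_algebraMap_eq fun x => rfl
  have _ : FunctionField F k := ‹FiniteDimensional (RatFunc F) k›
  set S := separableClosure (RatFunc F) k with hS
  have hcharS : CharP S 2 := charP_of_injective_algebraMap (algebraMap (RatFunc F) S).injective 2
  have hqS : ExpChar S 2 := ExpChar.prime Nat.prime_two
  have hbasis : IsTwoBasis (algebraMap (RatFunc F) S RatFunc.X) := isTwoBasis_X.extend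
  have hfd : FiniteDimensional S k := FiniteDimensional.right (RatFunc F) S k
  set N := IsPurelyInseparable.exponent S k with hN
  set T := algebraMap (RatFunc F) k RatFunc.X with hT
  have hno : ∀ s : k, s ^ 2 ^ (N + 1) ≠ T := by
    intro s hs
    obtain ⟨r, hr⟩ := IsPurelyInseparable.exponent_def' S 2 s
    apply hbasis.not_sq r
    apply (algebraMap S k).injective
    rw [map_pow, hr, ← pow_mul, ← pow_succ, ← IsScalarTower.algebraMap_apply]
    exact hs
  -- a maximal root
  obtain ⟨n, hn, hmax⟩ : ∃ n : ℕ, (∃ s : k, s ^ 2 ^ n = T) ∧ ¬ ∃ s : k, s ^ 2 ^ (n + 1) = T := by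
    by_contra hcon
    push Not at hcon
    have h1 : ∀ n : ℕ, ∃ s : k, s ^ 2 ^ n = T := by
      intro n
      induction n with
      | zero => exact ⟨T, by rw [pow_zero, pow_one]⟩
      | succ n ih => exact hcon n ih
    obtain ⟨s, hs⟩ := h1 (N + 1)
    exact hno s hs
  obtain ⟨τ, hτ⟩ := hn
  have htr : Transcendental F τ := by
    intro halg
    have h1 : IsAlgebraic F T := by rw [← hτ]; exact halg.pow _
    have h2 : IsAlgebraic F (RatFunc.X : RatFunc F) :=
      (isAlgebraic_algebraMap_iff (algebraMap (RatFunc F) k).injective).1 h1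
    exact RatFunc.transcendental_X h2
  have hsq : ∀ s : k, s ^ 2 ≠ τ := by
    intro s hs
    apply hmax
    exact ⟨s, by rw [pow_succ', pow_mul, hs, hτ]⟩
  obtain ⟨φ, hφ, -⟩ := exists_embedding (F := F) τ htr hsq
  exact ⟨φ, hφ⟩

end Pool.Agent.Helper26
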