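import Mathlib
import Pool.Agent.Helper26.MainHP
import Pool.Agent.Helper26.SepElt
import Pool.Agent.Helper26.LocPoint

set_option autoImplicit false
set_option linter.unusedSectionVars false

/-!
# The Hasse principle for smooth pairs of quadratic forms in seven variables
-/

universe u v

namespace Pool.Agent.Helper26

open Matrix Finset

/-- The normal form theorem over a global function field of characteristic two. -/
theorem hp_normal {F : Type v} {k : Type u} [Field F] [Finite F] [CharP F 2] [Field k] [CharP k 2]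
    {φ : RatFunc F →+* k} (hφ : GoodEmb φ)
    {a b : Fin 4 → k} {g₁ g₂ : Fin 3 → Fin 3 → k} (ha3 : a 3 ≠ 0) (hs : (sylvMat a b).det ≠ 0)
    (hloc : ∀ V : ValuationSubring k, V ≠ ⊤ → LocApp V a b g₁ g₂) :
    ∃ (x : Fin 4 → k) (y : Fin 3 → k), ((∃ i, x i ≠ 0) ∨ ∃ i, y i ≠ 0) ∧
      Q1 a g₁ x y = 0 ∧ Q2 b g₂ x y = 0 := by
  refine hp_core.{u, v} (fun x => hφ.hfin x) (fun V hV => hφ.rankOne hV)
    (fun V hV => hφ.finite_residue hV) hφ.isTwoBasis (fun V hV => hφ.cartBdd hV hφ.isTwoBasis)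
    ?_ ha3 hs hloc
  refine (hφ.infinite_card 3).mono ?_
  rintro V ⟨hV, hX, hc⟩
  exact ⟨hV, hφ.hasPole hV hX, hc⟩

theorem hp_seven {F : Type v} {k : Type u} [Field F] [Finite F] [CharP F 2] [Field k] [CharP k 2]
    {φ : RatFunc F →+* k} (hφ : GoodEmb φ) [Infinite k] {m : ℕ} (hm : m = 6)
    (g₁ g₂ : Fin (m + 1) → Fin (m + 1) → k)
    (hs : JacInd (fun i j => algebraMap k (AlgebraicClosure k) (g₁ i j))
      (fun i j => algebraMap k (AlgebraicClosure k) (g₂ i j)))
    (hloc : ∀ V : ValuationSubring k, V ≠ ⊤ → ∃ z : Fin (m + 1) → V.valuation.Completion, z ≠ 0 ∧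
      qf (fun i j => toCompletion V (g₁ i j)) z = 0 ∧
      qf (fun i j => toCompletion V (g₂ i j)) z = 0) :
    ∃ z : Fin (m + 1) → k, z ≠ 0 ∧ qf g₁ z = 0 ∧ qf g₂ z = 0 := by
  obtain ⟨r, p, y, hfr, h3, hdet, hinj⟩ := exists_frame hm g₁ g₂ hs
  have hq1 := qf_frame₁ _ p y hfr.iso₁ hfr.dual₁
  have hq2 := qf_frame₂ _ p y hfr.iso₂ hfr.dual₂
  obtain ⟨x, c, hxc, e1, e2⟩ := hp_normal hφ
    (a := fun j => qf (fun i j => r * g₁ i j + g₂ i j) (p j)) (b := fun j => qf g₁ (p j))
    (g₁ := gramY (fun i j => r * g₁ i j + g₂ i j) y) (g₂ := gramY g₁ y) h3 hdet (by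
      intro V hV
      obtain ⟨z, hz0, hz1, hz2⟩ := hloc V hV
      set f := toCompletion V with hf
      obtain ⟨x, c, hxc⟩ := frame_surj hm hinj f z
      have hfrL := hfr.map f
      have hq1L := qf_frame₁ _ _ _ hfrL.iso₁ hfrL.dual₁ x c
      have hq2L := qf_frame₂ _ _ _ hfrL.iso₂ hfrL.dual₂ x c
      rw [hxc] at hq1L hq2L
      refine locApp_of_point hV _ _ _ _ x c ?_ ?_ ?_
      · by_contra hcon
        push Not at hcon
        apply hz0
        rw [← hxc, frameVec]
        simp [hcon.1, hcon.2]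
      · have h4 : qf (fun i j => f (r * g₁ i j + g₂ i j)) z = 0 := by
          have h5 := qf_change (fun i j => f (g₁ i j)) (fun i j => f (g₂ i j)) (f r) z
          simp only [map_add, map_mul]
          rw [h5, hz1, hz2]
          ring
        rw [h4] at hq1L
        rw [hq1L]
        simp only [qf_map]
        congr 1
        ext i j
        simp only [gramY, map_sum, map_mul]
        rfl
      · rw [hz1] at hq2L
        rw [hq2L]
        simp only [qf_map]
        congr 1
        ext i j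
        simp only [gramY, map_sum, map_mul]
        rfl)
  refine ⟨frameVec p y x c, ?_, ?_, ?_⟩
  · intro h0
    obtain ⟨h4, h5⟩ := hinj x c h0
    rcases hxc with ⟨i, hi⟩ | ⟨i, hi⟩
    · exact hi (congrFun h4 i)
    · exact hi (congrFun h5 i)
  · rw [hq2, e2]
  · have h4 := hq1 x c
    rw [e1, qf_change, hq2, e2, mul_zero, zero_add] at h4
    exact h4

end Pool.Agent.Helper26
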