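import Mathlib
import Pool.Agent.Helper26.LocPoint
import Pool.Agent.Helper26.HP7

set_option autoImplicit false
set_option linter.unusedSectionVars false

/-!
# Approximate local solvability of pairs of quadratic forms
-/

universe u v

namespace Pool.Agent.Helper26

open Matrix Finset

section

variable {k : Type u} [Field k]

/-- There are primitive vectors which are approximate common zeros to every precision. -/
def LocQ {n : Type*} [Fintype n] (V : ValuationSubring k) (g₁ g₂ : n → n → k) : Prop :=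
  ∀ d : k, d ≠ 0 → ∃ z : n → k, (∀ i, z i ∈ V) ∧ (∃ i, z i ∉ V.nonunits) ∧
    qf g₁ z / d ∈ V ∧ qf g₂ z / d ∈ V

lemma exists_max_coord (V : ValuationSubring k) {n : Type*} [Finite n] (u : n → k) (hu : u ≠ 0) :
    ∃ i₀, u i₀ ≠ 0 ∧ ∀ i, u i / u i₀ ∈ V := by
  obtain ⟨j, hj⟩ := Function.ne_iff.1 hu
  have : Nonempty n := ⟨j⟩
  obtain ⟨i₀, hi₀⟩ := Finite.exists_max (fun i => V.valuation (u i))
  have hne : u i₀ ≠ 0 := by
    intro h0
    have h1 := hi₀ j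
    rw [h0, map_zero, le_zero_iff, map_eq_zero] at h1
    exact hj h1
  have hpos : 0 < V.valuation (u i₀) := by
    rw [zero_lt_iff, Ne, map_eq_zero]; exact hne
  refine ⟨i₀, hne, fun i => ?_⟩
  rw [← ValuationSubring.valuation_le_one_iff, map_div₀]
  exact div_le_one_of_le₀ (hi₀ i) hpos.le

lemma qf_div {n : Type*} [Fintype n] (g : n → n → k) (z : n → k) (c : k) :
    qf g (fun i => z i / c) = qf g z / c ^ 2 := by
  have h1 : (fun i => z i / c) = c⁻¹ • z := by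
    ext i
    simp [div_eq_mul_inv, mul_comm]
  rw [h1, qf_smul, inv_pow]
  field_simp

/-- Non primitive approximate zeros suffice. -/
lemma LocQ.of_weak {n : Type*} [Fintype n] {V : ValuationSubring k} {g₁ g₂ : n → n → k}
    (c : k) (h : ∀ d : k, d ≠ 0 → ∃ z : n → k, (∃ i, c / z i ∈ V ∧ z i ≠ 0) ∧
      qf g₁ z / d ∈ V ∧ qf g₂ z / d ∈ V) (hc : c ≠ 0) : LocQ V g₁ g₂ := by
  intro d hd
  obtain ⟨z, ⟨i, hi, hi0⟩, h1, h2⟩ := h (d * c ^ 2) (mul_ne_zero hd (pow_ne_zero _ hc))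
  obtain ⟨i₀, hi₀, hmax⟩ := exists_max_coord V z (fun h0 => hi0 (congrFun h0 i))
  have hc' : c / z i₀ ∈ V := by
    have : c / z i₀ = c / z i * (z i / z i₀) := by field_simp
    rw [this]
    exact V.mul_mem _ _ hi (hmax i)
  refine ⟨fun i => z i / z i₀, hmax, ⟨i₀, ?_⟩, ?_, ?_⟩
  · simp only [div_self hi₀]
    exact one_notMem_nonunits V
  · rw [qf_div]
    have : qf g₁ z / z i₀ ^ 2 / d = qf g₁ z / (d * c ^ 2) * (c / z i₀) ^ 2 := by field_simp
    rw [this]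
    exact V.mul_mem _ _ h1 (pow_mem hc' 2)
  · rw [qf_div]
    have : qf g₂ z / z i₀ ^ 2 / d = qf g₂ z / (d * c ^ 2) * (c / z i₀) ^ 2 := by field_simp
    rw [this]
    exact V.mul_mem _ _ h2 (pow_mem hc' 2)

/-- Change of the basis of the pencil. -/
lemma LocQ.change {n : Type*} [Fintype n] {V : ValuationSubring k} {g₁ g₂ : n → n → k}
    (h : LocQ V g₁ g₂) (r : k) : LocQ V (fun i j => r * g₁ i j + g₂ i j) g₁ := by
  intro d hd
  obtain ⟨w, hw0, hw, hwr⟩ := exists_big V ![r, 1]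
  obtain ⟨z, hz, hzu, h1, h2⟩ := h (d / w) (div_ne_zero hd hw0)
  refine ⟨z, hz, hzu, ?_, ?_⟩
  · rw [qf_change]
    have e : (r * qf g₁ z + qf g₂ z) / d = r / w * (qf g₁ z / (d / w)) +
        w⁻¹ * (qf g₂ z / (d / w)) := by field_simp
    rw [e]
    exact V.add_mem _ _ (V.mul_mem _ _ (hwr 0) h1) (V.mul_mem _ _ hw h2)
  · have e : qf g₁ z / d = w⁻¹ * (qf g₁ z / (d / w)) := by field_simp
    rw [e]
    exact V.mul_mem _ _ hw h1

/-- Approximate zeros in a frame. -/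
lemma LocQ.locApp {m : ℕ} (hm : m = 6) {V : ValuationSubring k}
    {h₁ h₂ : Fin (m + 1) → Fin (m + 1) → k}
    {p : Fin 4 → Fin (m + 1) → k} {y : Fin 3 → Fin (m + 1) → k} (hfr : IsFrame h₁ h₂ p y)
    (hinj : ∀ (x : Fin 4 → k) (c : Fin 3 → k), frameVec p y x c = 0 → x = 0 ∧ c = 0)
    (h : LocQ V h₁ h₂) :
    LocApp V (fun j => qf h₁ (p j)) (fun j => qf h₂ (p j)) (gramY h₁ y) (gramY h₂ y) := by
  intro d hd
  obtain ⟨s, hs0, hs, hsp⟩ := exists_big V
    (Sum.elim (fun q : Fin 4 × Fin (m + 1) => p q.1 q.2) (fun q : Fin 3 × Fin (m + 1) => y q.1 q.2))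
  obtain ⟨z, hz, ⟨i₁, hi₁⟩, h1, h2⟩ := h (d / s ^ 2) (div_ne_zero hd (pow_ne_zero _ hs0))
  obtain ⟨x, c, hxc⟩ := frame_surj hm hinj (RingHom.id k) z
  simp only [RingHom.id_apply] at hxc
  set u : Fin 4 ⊕ Fin 3 → k := Sum.elim x c with hu
  have hz0 : z ≠ 0 := by
    rintro rfl
    apply hi₁
    exact (nonunits_iff V 0).2 (Or.inl rfl)
  have hu0 : u ≠ 0 := by
    intro h0
    apply hz0
    rw [← hxc, frameVec]
    have hx : x = 0 := by ext i; exact congrFun h0 (Sum.inl i)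
    have hc : c = 0 := by ext i; exact congrFun h0 (Sum.inr i)
    rw [hx, hc]
    simp
  obtain ⟨i₀, hi₀, hmax⟩ := exists_max_coord V u hu0
  set μ := u i₀ with hμ
  have hxμ : ∀ i, x i / μ ∈ V := fun i => hmax (Sum.inl i)
  have hcμ : ∀ i, c i / μ ∈ V := fun i => hmax (Sum.inr i)
  have hps : ∀ i j, p i j / s ∈ V := fun i j => hsp (Sum.inl (i, j))
  have hys : ∀ i j, y i j / s ∈ V := fun i j => hsp (Sum.inr (i, j))
  -- `μ * s` is not small
  have hμs : (μ * s)⁻¹ ∈ V := by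
    have e1 : z i₁ * (μ * s)⁻¹ ∈ V := by
      rw [← hxc]
      have : frameVec p y x c i₁ * (μ * s)⁻¹ =
          (x 0 / μ * (p 0 i₁ / s) + x 1 / μ * (p 1 i₁ / s) + x 2 / μ * (p 2 i₁ / s) +
            x 3 / μ * (p 3 i₁ / s)) +
          (c 0 / μ * (y 0 i₁ / s) + c 1 / μ * (y 1 i₁ / s) + c 2 / μ * (y 2 i₁ / s)) := by
        simp only [frameVec, Pi.add_apply, Pi.smul_apply, smul_eq_mul]
        field_simp
      rw [this]
      exact V.add_mem _ _ (V.add_mem _ _ (V.add_mem _ _ (V.add_mem _ _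
        (V.mul_mem _ _ (hxμ 0) (hps 0 i₁)) (V.mul_mem _ _ (hxμ 1) (hps 1 i₁)))
        (V.mul_mem _ _ (hxμ 2) (hps 2 i₁))) (V.mul_mem _ _ (hxμ 3) (hps 3 i₁)))
        (V.add_mem _ _ (V.add_mem _ _
        (V.mul_mem _ _ (hcμ 0) (hys 0 i₁)) (V.mul_mem _ _ (hcμ 1) (hys 1 i₁)))
        (V.mul_mem _ _ (hcμ 2) (hys 2 i₁)))
    rw [nonunits_iff] at hi₁
    push Not at hi₁
    have e2 : (μ * s)⁻¹ = z i₁ * (μ * s)⁻¹ * (z i₁)⁻¹ := by
      have := hi₁.1
      field_simp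
    rw [e2]
    exact V.mul_mem _ _ e1 hi₁.2
  have hq1 := qf_frame₁ _ p y hfr.iso₁ hfr.dual₁ x c
  have hq2 := qf_frame₂ _ p y hfr.iso₂ hfr.dual₂ x c
  rw [hxc] at hq1 hq2
  refine ⟨fun i => μ⁻¹ * x i, fun i => μ⁻¹ * c i, ?_, ?_, ?_, ?_, ?_⟩
  · intro i
    simp only [inv_mul_eq_div]; exact hxμ i
  · intro i
    simp only [inv_mul_eq_div]; exact hcμ i
  · rcases i₀ with i | i
    · left
      refine ⟨i, ?_⟩
      have : μ⁻¹ * x i = 1 := inv_mul_cancel₀ hi₀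
      simp only [this]
      exact one_notMem_nonunits V
    · right
      refine ⟨i, ?_⟩
      have : μ⁻¹ * c i = 1 := inv_mul_cancel₀ hi₀
      simp only [this]
      exact one_notMem_nonunits V
  · rw [Q1_smul, ← hq1]
    have : μ⁻¹ ^ 2 * qf h₁ z / d = qf h₁ z / (d / s ^ 2) * ((μ * s)⁻¹) ^ 2 := by
      field_simp
    rw [this]
    exact V.mul_mem _ _ h1 (pow_mem hμs 2)
  · rw [Q2_smul, ← hq2]
    have : μ⁻¹ ^ 2 * qf h₂ z / d = qf h₂ z / (d / s ^ 2) * ((μ * s)⁻¹) ^ 2 := by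
      field_simp
    rw [this]
    exact V.mul_mem _ _ h2 (pow_mem hμs 2)

end

/-- The Hasse principle in seven variables, with approximate local solvability. -/
theorem hp_seven_app {F : Type v} {k : Type u} [Field F] [Finite F] [CharP F 2] [Field k]
    [CharP k 2] {φ : RatFunc F →+* k} (hφ : GoodEmb φ) [Infinite k] {m : ℕ} (hm : m = 6)
    (g₁ g₂ : Fin (m + 1) → Fin (m + 1) → k)
    (hs : JacInd (fun i j => algebraMap k (AlgebraicClosure k) (g₁ i j))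
      (fun i j => algebraMap k (AlgebraicClosure k) (g₂ i j)))
    (hloc : ∀ V : ValuationSubring k, V ≠ ⊤ → LocQ V g₁ g₂) :
    ∃ z : Fin (m + 1) → k, z ≠ 0 ∧ qf g₁ z = 0 ∧ qf g₂ z = 0 := by
  obtain ⟨r, p, y, hfr, h3, hdet, hinj⟩ := exists_frame hm g₁ g₂ hs
  have hq1 := qf_frame₁ _ p y hfr.iso₁ hfr.dual₁
  have hq2 := qf_frame₂ _ p y hfr.iso₂ hfr.dual₂
  obtain ⟨x, c, hxc, e1, e2⟩ := hp_normal hφ
    (a := fun j => qf (fun i j => r * g₁ i j + g₂ i j) (p j)) (b := fun j => qf g₁ (p j))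
    (g₁ := gramY (fun i j => r * g₁ i j + g₂ i j) y) (g₂ := gramY g₁ y) h3 hdet
    (fun V hV => ((hloc V hV).change r).locApp hm hfr hinj)
  refine ⟨frameVec p y x c, ?_, ?_, ?_⟩
  · intro h0
    obtain ⟨h4, h5⟩ := hinj x c h0
    rcases hxc with ⟨i, hi⟩ | ⟨i, hi⟩
    · exact hi (congrFun h4 i)
    · exact hi (congrFun h5 i)
  · rw [hq2, e2]
  · have h4 := hq1 x c
    rw [e1, qf_change, hq2, e2, mul_zero, zero_add] at h4
    exact h4

end Pool.Agent.Helper26
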