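import Mathlib
import Pool.Agent.Helper26.LocQ

set_option autoImplicit false
set_option linter.unusedSectionVars false

/-!
# A Hensel lemma for pairs of quadratic forms at a smooth point
-/

universe u

namespace Pool.Agent.Helper26

open Matrix Finset

section

variable {k : Type u} [Field k]

/-- A quadratic polynomial in two variables. -/
def quadPol (r b₁ b₂ q₁ q₂ c s₁ s₂ : k) : k :=
  r + b₁ * s₁ + b₂ * s₂ + q₁ * s₁ ^ 2 + q₂ * s₂ ^ 2 + c * s₁ * s₂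

lemma hensel_two {V : ValuationSubring k} (hV : IsRankOne V) (r b₁ b₂ q₁ q₂ c : Fin 2 → k)
    (hb₁ : ∀ i, b₁ i ∈ V) (hb₂ : ∀ i, b₂ i ∈ V) (hq₁ : ∀ i, q₁ i ∈ V) (hq₂ : ∀ i, q₂ i ∈ V)
    (hc : ∀ i, c i ∈ V) (D θ : k) (hD : D = b₁ 0 * b₂ 1 - b₂ 0 * b₁ 1) (hD0 : D ≠ 0)
    (hθ0 : θ ≠ 0) (hθ : θ ∈ V.nonunits) (hr : ∀ i, r i / (D ^ 2 * θ) ∈ V) (d : k) (hd : d ≠ 0) :
    ∃ s₁ s₂ : k, s₁ / (D * θ) ∈ V ∧ s₂ / (D * θ) ∈ V ∧
      ∀ i, quadPol (r i) (b₁ i) (b₂ i) (q₁ i) (q₂ i) (c i) s₁ s₂ / d ∈ V := by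
  have key : ∀ N : ℕ, ∃ t₁ t₂ : k, t₁ ∈ V ∧ t₂ ∈ V ∧ ∃ ρ : Fin 2 → k, (∀ i, ρ i ∈ V) ∧
      ∀ i, quadPol (r i) (b₁ i) (b₂ i) (q₁ i) (q₂ i) (c i) (D * θ * t₁) (D * θ * t₂) =
        D ^ 2 * θ ^ (N + 1) * ρ i := by
    intro N
    induction N with
    | zero =>
      refine ⟨0, 0, V.zero_mem, V.zero_mem, fun i => r i / (D ^ 2 * θ), hr, fun i => ?_⟩
      simp only [quadPol]
      field_simp
      ring
    | succ N ih =>
      obtain ⟨t₁, t₂, ht₁, ht₂, ρ, hρ, hN⟩ := ih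
      set e₁ := -(ρ 0 * b₂ 1 - ρ 1 * b₂ 0) with he₁
      set e₂ := -(b₁ 0 * ρ 1 - b₁ 1 * ρ 0) with he₂
      have he₁V : e₁ ∈ V := neg_mem (sub_mem (V.mul_mem _ _ (hρ 0) (hb₂ 1))
        (V.mul_mem _ _ (hρ 1) (hb₂ 0)))
      have he₂V : e₂ ∈ V := neg_mem (sub_mem (V.mul_mem _ _ (hb₁ 0) (hρ 1))
        (V.mul_mem _ _ (hb₁ 1) (hρ 0)))
      have hθV : θ ∈ V := nonunits_mem hθ
      refine ⟨t₁ + θ ^ N * e₁, t₂ + θ ^ N * e₂,
        V.add_mem _ _ ht₁ (V.mul_mem _ _ (pow_mem hθV N) he₁V),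
        V.add_mem _ _ ht₂ (V.mul_mem _ _ (pow_mem hθV N) he₂V),
        fun i => q₁ i * (2 * t₁ * e₁ + θ ^ N * e₁ ^ 2) + q₂ i * (2 * t₂ * e₂ + θ ^ N * e₂ ^ 2) +
          c i * (t₁ * e₂ + t₂ * e₁ + θ ^ N * e₁ * e₂), ?_, ?_⟩
      · intro i
        have h2 : (2 : k) ∈ V := by
          have : (2 : k) = 1 + 1 := by norm_num
          rw [this]
          exact V.add_mem _ _ V.one_mem V.one_mem
        have hN' := pow_mem hθV N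
        exact V.add_mem _ _ (V.add_mem _ _
          (V.mul_mem _ _ (hq₁ i) (V.add_mem _ _ (V.mul_mem _ _ (V.mul_mem _ _ h2 ht₁) he₁V)
            (V.mul_mem _ _ hN' (pow_mem he₁V 2))))
          (V.mul_mem _ _ (hq₂ i) (V.add_mem _ _ (V.mul_mem _ _ (V.mul_mem _ _ h2 ht₂) he₂V)
            (V.mul_mem _ _ hN' (pow_mem he₂V 2)))))
          (V.mul_mem _ _ (hc i) (V.add_mem _ _ (V.add_mem _ _ (V.mul_mem _ _ ht₁ he₂V)
            (V.mul_mem _ _ ht₂ he₁V)) (V.mul_mem _ _ (V.mul_mem _ _ hN' he₁V) he₂V)))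
      · have hlin : ∀ i, b₁ i * e₁ + b₂ i * e₂ = -(D * ρ i) := by
          intro i
          rw [he₁, he₂, hD]
          fin_cases i
          · simp; ring
          · simp; ring
        intro i
        have h3 := hN i
        simp only [quadPol] at h3 ⊢
        linear_combination h3 + D * θ ^ (N + 1) * hlin i
  obtain ⟨N, hN⟩ := hV θ hθ (d / (D ^ 2 * θ)) (div_ne_zero hd
    (mul_ne_zero (pow_ne_zero _ hD0) hθ0))
  obtain ⟨t₁, t₂, ht₁, ht₂, ρ, hρ, h⟩ := key N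
  refine ⟨D * θ * t₁, D * θ * t₂, ?_, ?_, ?_⟩
  · have : D * θ * t₁ / (D * θ) = t₁ := by field_simp
    rw [this]; exact ht₁
  · have : D * θ * t₂ / (D * θ) = t₂ := by field_simp
    rw [this]; exact ht₂
  · intro i
    rw [h i]
    have : D ^ 2 * θ ^ (N + 1) * ρ i / d = θ ^ N / (d / (D ^ 2 * θ)) * ρ i := by
      field_simp
      ring
    rw [this]
    exact V.mul_mem _ _ hN (hρ i)

/-- The polar form. -/
def polar' {n : Type*} [Fintype n] (g : n → n → k) (x y : n → k) : k :=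
  x ⬝ᵥ (pm g).mulVec y

lemma qf_line {n : Type*} [Fintype n] (g : n → n → k) (z u₁ u₂ : n → k) (s₁ s₂ : k) :
    qf g (z + (s₁ • u₁ + s₂ • u₂)) = quadPol (qf g z) (polar' g z u₁) (polar' g z u₂)
      (qf g u₁) (qf g u₂) (polar' g u₁ u₂) s₁ s₂ := by
  simp only [quadPol, polar', qf_add, qf_smul, dot_add_right, dot_smul_left, dot_smul_right]
  ring

lemma qf_mem {n : Type*} [Fintype n] {V : ValuationSubring k} {g : n → n → k}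
    (hg : ∀ i j, g i j ∈ V) {x : n → k} (hx : ∀ i, x i ∈ V) : qf g x ∈ V :=
  sum_mem fun i _ => sum_mem fun j _ => V.mul_mem _ _ (V.mul_mem _ _ (hg i j) (hx i)) (hx j)

lemma polar'_mem {n : Type*} [Fintype n] {V : ValuationSubring k} {g : n → n → k}
    (hg : ∀ i j, g i j ∈ V) {x y : n → k} (hx : ∀ i, x i ∈ V) (hy : ∀ i, y i ∈ V) :
    polar' g x y ∈ V :=
  sum_mem fun i _ => V.mul_mem _ _ (hx i) (sum_mem fun j _ => V.mul_mem _ _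
    (V.add_mem _ _ (hg i j) (hg j i)) (hy j))

/-- Hensel's lemma at an approximate smooth point. -/
lemma hensel_qf {n : Type*} [Fintype n] {V : ValuationSubring k} (hV : IsRankOne V)
    {g₁ g₂ : n → n → k} (hg₁ : ∀ i j, g₁ i j ∈ V) (hg₂ : ∀ i j, g₂ i j ∈ V)
    (z u₁ u₂ : n → k) (hz : ∀ i, z i ∈ V) (hu₁ : ∀ i, u₁ i ∈ V) (hu₂ : ∀ i, u₂ i ∈ V)
    (D θ : k) (hD : D = polar' g₁ z u₁ * polar' g₂ z u₂ - polar' g₁ z u₂ * polar' g₂ z u₁)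
    (hD0 : D ≠ 0) (hθ0 : θ ≠ 0) (hθ : θ ∈ V.nonunits) (h1 : qf g₁ z / (D ^ 2 * θ) ∈ V)
    (h2 : qf g₂ z / (D ^ 2 * θ) ∈ V) (d : k) (hd : d ≠ 0) :
    ∃ s₁ s₂ : k, s₁ ∈ V.nonunits ∧ s₂ ∈ V.nonunits ∧
      qf g₁ (z + (s₁ • u₁ + s₂ • u₂)) / d ∈ V ∧ qf g₂ (z + (s₁ • u₁ + s₂ • u₂)) / d ∈ V := by
  obtain ⟨s₁, s₂, e1, e2, h⟩ := hensel_two hV ![qf g₁ z, qf g₂ z]
    ![polar' g₁ z u₁, polar' g₂ z u₁] ![polar' g₁ z u₂, polar' g₂ z u₂]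
    ![qf g₁ u₁, qf g₂ u₁] ![qf g₁ u₂, qf g₂ u₂] ![polar' g₁ u₁ u₂, polar' g₂ u₁ u₂]
    (by intro i; fin_cases i; exacts [polar'_mem hg₁ hz hu₁, polar'_mem hg₂ hz hu₁])
    (by intro i; fin_cases i; exacts [polar'_mem hg₁ hz hu₂, polar'_mem hg₂ hz hu₂])
    (by intro i; fin_cases i; exacts [qf_mem hg₁ hu₁, qf_mem hg₂ hu₁])
    (by intro i; fin_cases i; exacts [qf_mem hg₁ hu₂, qf_mem hg₂ hu₂])
    (by intro i; fin_cases i; exacts [polar'_mem hg₁ hu₁ hu₂, polar'_mem hg₂ hu₁ hu₂])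
    D θ (by simpa using hD) hD0 hθ0 hθ (by intro i; fin_cases i; exacts [h1, h2]) d hd
  have hDV : D ∈ V := by
    rw [hD]
    exact sub_mem (V.mul_mem _ _ (polar'_mem hg₁ hz hu₁) (polar'_mem hg₂ hz hu₂))
      (V.mul_mem _ _ (polar'_mem hg₁ hz hu₂) (polar'_mem hg₂ hz hu₁))
  have hsm : ∀ s : k, s / (D * θ) ∈ V → s ∈ V.nonunits := by
    intro s hs
    have : s = θ * (D * (s / (D * θ))) := by field_simp
    rw [this]
    exact nonunits_mul hθ (V.mul_mem _ _ hDV hs)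
  refine ⟨s₁, s₂, hsm _ e1, hsm _ e2, ?_, ?_⟩
  · rw [qf_line]; exact h 0
  · rw [qf_line]; exact h 1

end

end Pool.Agent.Helper26
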