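import Mathlib
import Pool.Agent.Helper26.HenselGen

set_option autoImplicit false
set_option linter.unusedSectionVars false

/-!
# Local solvability on hyperplane sections near a smooth point
-/

universe u

namespace Pool.Agent.Helper26

open Matrix Finset

section

variable {k : Type u} [Field k]

/-- Approximate solvability on the hyperplane with equation `l` in the last four coordinates. -/
def LocH (V : ValuationSubring k) (g₁ g₂ : (Fin 4 ⊕ Fin 4) → (Fin 4 ⊕ Fin 4) → k)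
    (l : Fin 4 → k) : Prop :=
  ∀ d : k, d ≠ 0 → ∃ z : Fin 4 ⊕ Fin 4 → k, (∀ i, z i ∈ V) ∧ (∃ i, z i ∉ V.nonunits) ∧
    (∑ i, l i * z (Sum.inr i) = 0) ∧ qf g₁ z / d ∈ V ∧ qf g₂ z / d ∈ V

lemma qf_scale {n : Type*} [Fintype n] (g : n → n → k) (w : k) (z : n → k) :
    qf (fun i j => g i j / w) z = qf g z / w := by
  simp only [qf, Finset.sum_div]
  refine Finset.sum_congr rfl fun i _ => Finset.sum_congr rfl fun j _ => ?_
  ring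

lemma LocH.of_scale {V : ValuationSubring k} {g₁ g₂ : (Fin 4 ⊕ Fin 4) → (Fin 4 ⊕ Fin 4) → k}
    {l : Fin 4 → k} {w : k} (hw : w ≠ 0)
    (h : LocH V (fun i j => g₁ i j / w) (fun i j => g₂ i j / w) l) : LocH V g₁ g₂ l := by
  intro d hd
  obtain ⟨z, h1, h2, h3, h4, h5⟩ := h (d / w) (div_ne_zero hd hw)
  refine ⟨z, h1, h2, h3, ?_, ?_⟩
  · rw [qf_scale] at h4
    have : qf g₁ z / d = qf g₁ z / w / (d / w) := by field_simp
    rwa [this]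
  · rw [qf_scale] at h5
    have : qf g₂ z / d = qf g₂ z / w / (d / w) := by field_simp
    rwa [this]

/-- Congruence modulo `ρ`. -/
def Cg (V : ValuationSubring k) (ρ a b : k) : Prop := (a - b) / ρ ∈ V

lemma Cg.refl (V : ValuationSubring k) (ρ a : k) : Cg V ρ a a := by
  rw [Cg, sub_self, zero_div]; exact V.zero_mem

lemma Cg.add {V : ValuationSubring k} {ρ a b c d : k} (h1 : Cg V ρ a b) (h2 : Cg V ρ c d) :
    Cg V ρ (a + c) (b + d) := by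
  have : (a + c - (b + d)) / ρ = (a - b) / ρ + (c - d) / ρ := by ring
  rw [Cg, this]
  exact V.add_mem _ _ h1 h2

lemma Cg.sub {V : ValuationSubring k} {ρ a b c d : k} (h1 : Cg V ρ a b) (h2 : Cg V ρ c d) :
    Cg V ρ (a - c) (b - d) := by
  have : (a - c - (b - d)) / ρ = (a - b) / ρ - (c - d) / ρ := by ring
  rw [Cg, this]
  exact V.sub_mem h1 h2

lemma Cg.mul {V : ValuationSubring k} {ρ a b c d : k} (h1 : Cg V ρ a b) (h2 : Cg V ρ c d)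
    (hb : b ∈ V) (hc : c ∈ V) : Cg V ρ (a * c) (b * d) := by
  have : (a * c - b * d) / ρ = (a - b) / ρ * c + b * ((c - d) / ρ) := by ring
  rw [Cg, this]
  exact V.add_mem _ _ (V.mul_mem _ _ h1 hc) (V.mul_mem _ _ hb h2)

lemma Cg.sum {V : ValuationSubring k} {ρ : k} {ι : Type*} (s : Finset ι) {f g : ι → k}
    (h : ∀ i ∈ s, Cg V ρ (f i) (g i)) : Cg V ρ (∑ i ∈ s, f i) (∑ i ∈ s, g i) := by
  rw [Cg, ← Finset.sum_sub_distrib, Finset.sum_div]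
  exact sum_mem h

lemma Cg.qf {V : ValuationSubring k} {ρ : k} {n : Type*} [Fintype n] {g : n → n → k}
    (hg : ∀ i j, g i j ∈ V) {x y : n → k} (hx : ∀ i, x i ∈ V) (hy : ∀ i, y i ∈ V)
    (h : ∀ i, Cg V ρ (x i) (y i)) : Cg V ρ (qf g x) (qf g y) :=
  Cg.sum _ fun i _ => Cg.sum _ fun j _ =>
    ((Cg.refl V ρ (g i j)).mul (h i) (hg i j) (hx i)).mul (h j) (V.mul_mem _ _ (hg i j) (hy i))
      (hx j)

lemma Cg.polar' {V : ValuationSubring k} {ρ : k} {n : Type*} [Fintype n] {g : n → n → k}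
    (hg : ∀ i j, g i j ∈ V) {x y x' y' : n → k} (hx : ∀ i, x i ∈ V) (hy : ∀ i, y i ∈ V)
    (hx' : ∀ i, x' i ∈ V) (hy' : ∀ i, y' i ∈ V)
    (h : ∀ i, Cg V ρ (x i) (x' i)) (h' : ∀ i, Cg V ρ (y i) (y' i)) :
    Cg V ρ (polar' g x y) (polar' g x' y') := by
  have hpm : ∀ i j, pm g i j ∈ V := fun i j => V.add_mem _ _ (hg i j) (hg j i)
  refine Cg.sum _ fun i _ => (h i).mul (Cg.sum _ fun j _ => ?_) (hx' i) ?_
  · exact (Cg.refl V ρ _).mul (h' j) (hpm i j) (hy j)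
  · exact sum_mem fun j _ => V.mul_mem _ _ (hpm i j) (hy j)

end

section

variable {R : Type*} [CommRing R]

/-- The value of the linear form `l` in the last four coordinates. -/
def lval (l : Fin 4 → R) (z : Fin 4 ⊕ Fin 4 → R) : R := ∑ i, l i * z (Sum.inr i)

/-- Projection to the hyperplane `l = 0`. -/
def proj (i₀ : Fin 4) (l : Fin 4 → R) (z : Fin 4 ⊕ Fin 4 → R) : Fin 4 ⊕ Fin 4 → R :=
  fun i => l i₀ * z i - lval l z * (if i = Sum.inr i₀ then 1 else 0)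

lemma lval_proj (i₀ : Fin 4) (l : Fin 4 → R) (z : Fin 4 ⊕ Fin 4 → R) :
    lval l (proj i₀ l z) = 0 := by
  have h1 : lval l (proj i₀ l z) = l i₀ * lval l z - lval l z *
      ∑ i, l i * (if i = i₀ then 1 else 0) := by
    simp only [lval, proj, Finset.mul_sum, ← Finset.sum_sub_distrib, Sum.inr.injEq]
    refine Finset.sum_congr rfl fun i _ => ?_
    ring
  rw [h1]
  simp only [mul_ite, mul_one, mul_zero, Finset.sum_ite_eq', Finset.mem_univ, if_true]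
  ring

lemma proj_of_lval {i₀ : Fin 4} {l : Fin 4 → R} {z : Fin 4 ⊕ Fin 4 → R} (h : lval l z = 0)
    (h1 : l i₀ = 1) : proj i₀ l z = z := by
  ext i
  simp [proj, h, h1]

lemma lval_add (l : Fin 4 → R) (z w : Fin 4 ⊕ Fin 4 → R) :
    lval l (z + w) = lval l z + lval l w := by
  simp only [lval, ← Finset.sum_add_distrib, Pi.add_apply, mul_add]

lemma lval_smul (l : Fin 4 → R) (c : R) (z : Fin 4 ⊕ Fin 4 → R) :
    lval l (c • z) = c * lval l z := by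
  simp only [lval, Finset.mul_sum, Pi.smul_apply, smul_eq_mul]
  refine Finset.sum_congr rfl fun i _ => ?_
  ring

lemma lval_map {S : Type*} [CommRing S] (f : R →+* S) (l : Fin 4 → R) (z : Fin 4 ⊕ Fin 4 → R) :
    f (lval l z) = lval (fun i => f (l i)) (fun i => f (z i)) := by
  simp [lval, map_sum]

lemma proj_map {S : Type*} [CommRing S] (f : R →+* S) (i₀ : Fin 4) (l : Fin 4 → R)
    (z : Fin 4 ⊕ Fin 4 → R) (i : Fin 4 ⊕ Fin 4) :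
    f (proj i₀ l z i) = proj i₀ (fun i => f (l i)) (fun i => f (z i)) i := by
  simp only [proj, map_sub, map_mul, lval_map]
  split_ifs <;> simp

end

section

variable {k : Type u} [Field k]

lemma lval_mem {V : ValuationSubring k} {l : Fin 4 → k} {z : Fin 4 ⊕ Fin 4 → k}
    (hl : ∀ i, l i ∈ V) (hz : ∀ i, z i ∈ V) : lval l z ∈ V :=
  sum_mem fun i _ => V.mul_mem _ _ (hl i) (hz _)

lemma ite_mem' (V : ValuationSubring k) (p : Prop) [Decidable p] : (if p then (1 : k) else 0) ∈ V := by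
  split_ifs
  · exact V.one_mem
  · exact V.zero_mem

lemma proj_mem {V : ValuationSubring k} {l : Fin 4 → k} {z : Fin 4 ⊕ Fin 4 → k} {i₀ : Fin 4}
    (hl : ∀ i, l i ∈ V) (hz : ∀ i, z i ∈ V) (i : Fin 4 ⊕ Fin 4) : proj i₀ l z i ∈ V :=
  sub_mem (V.mul_mem _ _ (hl _) (hz _)) (V.mul_mem _ _ (lval_mem hl hz) (ite_mem' V _))

lemma Cg.proj {V : ValuationSubring k} {ρ : k} {l l' : Fin 4 → k} {z : Fin 4 ⊕ Fin 4 → k}
    {i₀ : Fin 4} (hl : ∀ i, l i ∈ V) (hl' : ∀ i, l' i ∈ V) (hz : ∀ i, z i ∈ V)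
    (h : ∀ i, Cg V ρ (l i) (l' i)) (i : Fin 4 ⊕ Fin 4) :
    Cg V ρ (proj i₀ l z i) (proj i₀ l' z i) := by
  refine ((h i₀).mul (Cg.refl V ρ _) (hl' _) (hz _)).sub (Cg.mul ?_ (Cg.refl V ρ _)
    (lval_mem hl' hz) (ite_mem' V _))
  exact Cg.sum _ fun j _ => (h j).mul (Cg.refl V ρ _) (hl' _) (hz _)

/-- The Jacobian-type minor. -/
def minorD {n : Type*} [Fintype n] {R : Type*} [CommRing R] (g₁ g₂ : n → n → R)
    (z u₁ u₂ : n → R) : R :=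
  (z ⬝ᵥ (pm g₁).mulVec u₁) * (z ⬝ᵥ (pm g₂).mulVec u₂) -
    (z ⬝ᵥ (pm g₁).mulVec u₂) * (z ⬝ᵥ (pm g₂).mulVec u₁)

/-- Conditions at a point of `k` which guarantee solvability in a ball. -/
lemma ball_of_data {V : ValuationSubring k} (hr : IsRankOne V)
    {g₁ g₂ : (Fin 4 ⊕ Fin 4) → (Fin 4 ⊕ Fin 4) → k} (hg₁ : ∀ i j, g₁ i j ∈ V)
    (hg₂ : ∀ i j, g₂ i j ∈ V) (i₀ : Fin 4) (l : Fin 4 → k) (z u₁ u₂ : Fin 4 ⊕ Fin 4 → k)
    (hl : ∀ i, l i ∈ V) (hz : ∀ i, z i ∈ V) (hu₁ : ∀ i, u₁ i ∈ V) (hu₂ : ∀ i, u₂ i ∈ V)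
    (j₀ : Fin 4 ⊕ Fin 4) (hj₀ : proj i₀ l z j₀ ∉ V.nonunits) (d₀ θ : k) (hd₀ : d₀ ≠ 0)
    (hθ0 : θ ≠ 0) (hd₀V : d₀ ∈ V) (hθ : θ ∈ V.nonunits)
    (h1 : qf g₁ (proj i₀ l z) / (d₀ ^ 2 * θ) ∈ V) (h2 : qf g₂ (proj i₀ l z) / (d₀ ^ 2 * θ) ∈ V)
    (hD : minorD g₁ g₂ (proj i₀ l z) (proj i₀ l u₁) (proj i₀ l u₂) ≠ 0)
    (hdD : d₀ / minorD g₁ g₂ (proj i₀ l z) (proj i₀ l u₁) (proj i₀ l u₂) ∈ V)
    (l' : Fin 4 → k) (hl' : ∀ i, (l' i - l i) / (d₀ ^ 2 * θ) ∈ V) : LocH V g₁ g₂ l' := by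
  set ρ := d₀ ^ 2 * θ with hρ
  have hρ0 : ρ ≠ 0 := mul_ne_zero (pow_ne_zero _ hd₀) hθ0
  have hρn : ρ ∈ V.nonunits := nonunits_mul' (pow_mem hd₀V 2) hθ
  have hl'V : ∀ i, l' i ∈ V := by
    intro i
    have : l' i = l i + ρ * ((l' i - l i) / ρ) := by field_simp; ring
    rw [this]
    exact V.add_mem _ _ (hl i) (V.mul_mem _ _ (nonunits_mem hρn) (hl' i))
  have hcg : ∀ w : Fin 4 ⊕ Fin 4 → k, (∀ i, w i ∈ V) → ∀ i, Cg V ρ (proj i₀ l' w i) (proj i₀ l w i) :=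
    fun w hw i => Cg.proj hl'V hl hw (fun i => hl' i) i
  set Z := proj i₀ l z with hZ
  set U₁ := proj i₀ l u₁ with hU₁
  set U₂ := proj i₀ l u₂ with hU₂
  set Z' := proj i₀ l' z with hZ'
  set U₁' := proj i₀ l' u₁ with hU₁'
  set U₂' := proj i₀ l' u₂ with hU₂'
  have mZ : ∀ i, Z i ∈ V := proj_mem hl hz
  have mU₁ : ∀ i, U₁ i ∈ V := proj_mem hl hu₁
  have mU₂ : ∀ i, U₂ i ∈ V := proj_mem hl hu₂
  have mZ' : ∀ i, Z' i ∈ V := proj_mem hl'V hz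
  have mU₁' : ∀ i, U₁' i ∈ V := proj_mem hl'V hu₁
  have mU₂' : ∀ i, U₂' i ∈ V := proj_mem hl'V hu₂
  have cp : ∀ (g : (Fin 4 ⊕ Fin 4) → (Fin 4 ⊕ Fin 4) → k), (∀ i j, g i j ∈ V) →
      Cg V ρ (polar' g Z' U₁') (polar' g Z U₁) ∧ Cg V ρ (polar' g Z' U₂') (polar' g Z U₂) :=
    fun g hg => ⟨Cg.polar' hg mZ' mU₁' mZ mU₁ (hcg z hz) (hcg u₁ hu₁),
      Cg.polar' hg mZ' mU₂' mZ mU₂ (hcg z hz) (hcg u₂ hu₂)⟩
  have hDcg : Cg V ρ (minorD g₁ g₂ Z' U₁' U₂') (minorD g₁ g₂ Z U₁ U₂) :=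
    ((cp g₁ hg₁).1.mul (cp g₂ hg₂).2 (polar'_mem hg₁ mZ mU₁) (polar'_mem hg₂ mZ' mU₂')).sub
      ((cp g₁ hg₁).2.mul (cp g₂ hg₂).1 (polar'_mem hg₁ mZ mU₂) (polar'_mem hg₂ mZ' mU₁'))
  set D := minorD g₁ g₂ Z U₁ U₂ with hDdef
  set D' := minorD g₁ g₂ Z' U₁' U₂' with hD'def
  have hD'eq : D' = D * (1 + θ * (d₀ * (d₀ / D) * ((D' - D) / ρ))) := by
    have h5 := hD
    have : D' = D + ρ * ((D' - D) / ρ) := by field_simp; ring
    nth_rewrite 1 [this]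
    rw [hρ]
    field_simp
  obtain ⟨hu0, huV⟩ := one_add_unit (nonunits_mul hθ (V.mul_mem _ _ (V.mul_mem _ _ hd₀V hdD) hDcg))
  have hD'0 : D' ≠ 0 := by
    rw [hD'eq]; exact mul_ne_zero hD hu0
  have hdD' : d₀ / D' ∈ V := by
    rw [hD'eq, div_mul_eq_div_div, div_eq_mul_inv (d₀ / D)]
    exact V.mul_mem _ _ hdD huV
  have hq : ∀ g : (Fin 4 ⊕ Fin 4) → (Fin 4 ⊕ Fin 4) → k, (∀ i j, g i j ∈ V) →
      qf g Z / ρ ∈ V → qf g Z' / (D' ^ 2 * θ) ∈ V := by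
    intro g hg h
    have h3 : Cg V ρ (qf g Z') (qf g Z) := Cg.qf hg mZ' mZ (hcg z hz)
    have h4 : qf g Z' / (D' ^ 2 * θ) = ((qf g Z' - qf g Z) / ρ + qf g Z / ρ) * (d₀ / D') ^ 2 := by
      rw [← add_div, sub_add_cancel, hρ]
      field_simp
    rw [h4]
    exact V.mul_mem _ _ (V.add_mem _ _ h3 h) (pow_mem hdD' 2)
  intro d hd
  obtain ⟨s₁, s₂, hs₁, hs₂, e1, e2⟩ := hensel_qf hr hg₁ hg₂ Z' U₁' U₂' mZ' mU₁' mU₂' D' θ rfl hD'0
    hθ0 hθ (hq g₁ hg₁ h1) (hq g₂ hg₂ h2) d hd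
  refine ⟨Z' + (s₁ • U₁' + s₂ • U₂'), ?_, ⟨j₀, ?_⟩, ?_, e1, e2⟩
  · intro i
    exact V.add_mem _ _ (mZ' i) (V.add_mem _ _ (V.mul_mem _ _ (nonunits_mem hs₁) (mU₁' i))
      (V.mul_mem _ _ (nonunits_mem hs₂) (mU₂' i)))
  · intro hn
    apply hj₀
    have h5 : Z j₀ = (Z' + (s₁ • U₁' + s₂ • U₂')) j₀ + (-(ρ * ((Z' j₀ - Z j₀) / ρ)) +
        -(s₁ * U₁' j₀ + s₂ * U₂' j₀)) := by
      simp only [Pi.add_apply, Pi.smul_apply, smul_eq_mul]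
      field_simp
      ring
    have hneg : ∀ x ∈ V.nonunits, -x ∈ V.nonunits := by
      intro x hx
      have := nonunits_mul hx (V.neg_mem _ V.one_mem)
      rwa [mul_neg, mul_one] at this
    rw [h5]
    exact nonunits_add hn (nonunits_add (hneg _ (nonunits_mul hρn (hcg z hz j₀)))
      (hneg _ (nonunits_add (nonunits_mul hs₁ (mU₁' j₀)) (nonunits_mul hs₂ (mU₂' j₀)))))
  · change lval l' _ = 0
    rw [lval_add, lval_add, lval_smul, lval_smul, hZ', hU₁', hU₂', lval_proj, lval_proj, lval_proj]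
    ring

end

end Pool.Agent.Helper26
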