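import Mathlib
import Pool.Agent.Helper26.LocBall

set_option autoImplicit false
set_option linter.unusedSectionVars false

/-!
# Smooth points over the completion and hyperplane sections
-/

universe u

namespace Pool.Agent.Helper26

open Matrix Finset

section

variable {L : Type*} [Field L]

/-- A hyperplane through a smooth point, transversal there. -/
lemma exists_transversal {b₁ b₂ : Fin 4 ⊕ Fin 4 → L} (c : Fin 4 → L)
    (hb : ∀ s t : L, s • b₁ + t • b₂ = 0 → s = 0 ∧ t = 0) :
    ∃ l : Fin 4 → L, ∑ i, l i * c i = 0 ∧ ∀ s t r : L,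
      s • b₁ + t • b₂ + r • (Sum.elim (0 : Fin 4 → L) l) = 0 → s = 0 ∧ t = 0 ∧ r = 0 := by
  by_contra hcon
  push Not at hcon
  -- the space of `l` orthogonal to `c`
  let ψ : (Fin 4 → L) →ₗ[L] L :=
    { toFun := fun l => ∑ i, l i * c i
      map_add' := by intro x y; simp [add_mul, Finset.sum_add_distrib]
      map_smul' := by intro r x; simp [Finset.mul_sum, mul_assoc] }
  let ι : (Fin 4 → L) →ₗ[L] (Fin 4 ⊕ Fin 4 → L) :=
    { toFun := fun l => Sum.elim 0 l
      map_add' := by
        intro x y; ext i; rcases i with i | i <;> simp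
      map_smul' := by
        intro r x; ext i; rcases i with i | i <;> simp }
  have hι : Function.Injective ι := by
    intro x y hxy
    ext i
    exact congrFun hxy (Sum.inr i)
  have hsub : Submodule.map ι (LinearMap.ker ψ) ≤ Submodule.span L (Set.range ![b₁, b₂]) := by
    rintro _ ⟨l, hl, rfl⟩
    obtain ⟨s, t, r, h0, hne⟩ := hcon l hl
    have hr : r ≠ 0 := by
      rintro rfl
      rw [zero_smul, add_zero] at h0
      obtain ⟨h1, h2⟩ := hb s t h0
      exact hne h1 h2 rfl
    rw [Submodule.mem_span_range_iff_exists_fun]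
    refine ⟨![-(r⁻¹ * s), -(r⁻¹ * t)], ?_⟩
    rw [Fin.sum_univ_two]
    change -(r⁻¹ * s) • b₁ + -(r⁻¹ * t) • b₂ = (Sum.elim 0 l : Fin 4 ⊕ Fin 4 → L)
    have h3 : (Sum.elim (0 : Fin 4 → L) l) = r⁻¹ • (r • (Sum.elim (0 : Fin 4 → L) l)) := by
      rw [smul_smul, inv_mul_cancel₀ hr, one_smul]
    have h4 : r • (Sum.elim (0 : Fin 4 → L) l) = -(s • b₁ + t • b₂) :=
      eq_neg_of_add_eq_zero_right h0
    rw [h3, h4, smul_neg, smul_add, smul_smul, smul_smul, neg_smul, neg_smul, neg_add]
  have h1 : Module.finrank L (Submodule.map ι (LinearMap.ker ψ)) =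
      Module.finrank L (LinearMap.ker ψ) := (Submodule.equivMapOfInjective ι hι _).finrank_eq.symm
  have h2 : Module.finrank L (Submodule.span L (Set.range ![b₁, b₂])) ≤ 2 := by
    have := finrank_range_le_card (R := L) (b := ![b₁, b₂])
    rwa [Fintype.card_fin] at this
  have h3 := ψ.finrank_range_add_finrank_ker
  rw [Module.finrank_fin_fun] at h3
  have h4 : Module.finrank L (LinearMap.range ψ) ≤ 1 := by
    have := Submodule.finrank_le (LinearMap.range ψ)
    rwa [Module.finrank_self] at this
  have h5 := Submodule.finrank_mono hsub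
  omega

end

end Pool.Agent.Helper26
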