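import Mathlib
import Pool.Agent.Helper26.LocBall2

set_option autoImplicit false
set_option linter.unusedSectionVars false

/-!
# Smooth points over the completion and hyperplane sections, II
-/

universe u

namespace Pool.Agent.Helper26

open Matrix Finset Topology

section

variable {k : Type u} [Field k] {L : Type*} [Field L]
  {Γ₀ : Type*} [LinearOrderedCommGroupWithZero Γ₀] [Valued L Γ₀]

lemma exists_maxL {ι : Type*} [Finite ι] (c : ι → L) (hc : c ≠ 0) :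
    ∃ i₀, c i₀ ≠ 0 ∧ ∀ i, Valued.v ((c i₀)⁻¹ * c i) ≤ 1 := by
  obtain ⟨j, hj⟩ := Function.ne_iff.1 hc
  have : Nonempty ι := ⟨j⟩
  obtain ⟨i₀, hi₀⟩ := Finite.exists_max (fun i => Valued.v (c i))
  have hne : c i₀ ≠ 0 := by
    intro h0
    have h1 := hi₀ j
    rw [h0, map_zero, le_zero_iff, map_eq_zero] at h1
    exact hj h1
  refine ⟨i₀, hne, fun i => ?_⟩
  rw [map_mul, map_inv₀]
  have h3 : 0 < Valued.v (c i₀) := by
    rw [zero_lt_iff, Ne, map_eq_zero]; exact hne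
  rw [inv_mul_le_one₀ h3]
  exact hi₀ i

lemma exists_smallL {ι : Type*} [Finite ι] (c : ι → L) :
    ∃ s : L, s ≠ 0 ∧ Valued.v s ≤ 1 ∧ ∀ i, Valued.v (s * c i) ≤ 1 := by
  obtain ⟨i₀, h0, h1⟩ := exists_maxL (fun i : Option ι => i.elim (1 : L) c) (by
    intro h
    have := congrFun h none
    simp at this)
  refine ⟨_, inv_ne_zero h0, ?_, fun i => h1 (some i)⟩
  have := h1 none
  simpa using this

lemma nonunits_iff_lt {V : ValuationSubring k} (f : k →+* L)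
    (hfV : ∀ a : k, Valued.v (f a) ≤ 1 ↔ a ∈ V) (a : k) :
    a ∈ V.nonunits ↔ Valued.v (f a) < 1 := by
  rw [nonunits_iff]
  by_cases h0 : a = 0
  · simp [h0]
  · have h1 : f a ≠ 0 := by rwa [Ne, map_eq_zero]
    have h2 := hfV a⁻¹
    rw [map_inv₀, map_inv₀] at h2
    have hpos : 0 < Valued.v (f a) := by
      rw [zero_lt_iff, Ne, map_eq_zero]; exact h1
    rw [← h2, inv_le_one₀ hpos, not_le]
    simp [h0]

end

section

variable {k : Type u} [Field k] {L : Type*} [Field L]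
  {Γ₀ : Type*} [LinearOrderedCommGroupWithZero Γ₀] [Valued L Γ₀]

lemma minorD_smul {n : Type*} [Fintype n] (g₁ g₂ : n → n → L) (z u₁ u₂ : n → L) (s : L) :
    minorD g₁ g₂ z (s • u₁) (s • u₂) = s ^ 2 * minorD g₁ g₂ z u₁ u₂ := by
  simp only [minorD, dot_smul_right]
  ring

lemma minorD_map {n : Type*} [Fintype n] {R S : Type*} [CommRing R] [CommRing S] (f : R →+* S)
    (g₁ g₂ : n → n → R) (z u₁ u₂ : n → R) :
    f (minorD g₁ g₂ z u₁ u₂) = minorD (fun i j => f (g₁ i j)) (fun i j => f (g₂ i j))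
      (fun i => f (z i)) (fun i => f (u₁ i)) (fun i => f (u₂ i)) := by
  simp only [minorD, map_sub, map_mul, ← pm_map, dot_map]

/-- The space of data. -/
abbrev DataSp (L : Type*) := (Fin 4 ⊕ Fin 4 → L) × (Fin 4 ⊕ Fin 4 → L) × (Fin 4 ⊕ Fin 4 → L) ×
  (Fin 4 → L)

lemma exists_data {V : ValuationSubring k} (f : k →+* L)
    (hfV : ∀ a : k, Valued.v (f a) ≤ 1 ↔ a ∈ V) (hfd : DenseRange f)
    {g₁ g₂ : (Fin 4 ⊕ Fin 4) → (Fin 4 ⊕ Fin 4) → k}
    (z u₁ u₂ : Fin 4 ⊕ Fin 4 → L) (l : Fin 4 → L) (hz : ∀ i, Valued.v (z i) ≤ 1)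
    (hu₁ : ∀ i, Valued.v (u₁ i) ≤ 1) (hu₂ : ∀ i, Valued.v (u₂ i) ≤ 1)
    (hl : ∀ i, Valued.v (l i) ≤ 1) (i₀ : Fin 4) (j₀ : Fin 4 ⊕ Fin 4)
    (hj₀ : Valued.v (proj i₀ l z j₀) = 1)
    (h1 : qf (fun i j => f (g₁ i j)) (proj i₀ l z) = 0)
    (h2 : qf (fun i j => f (g₂ i j)) (proj i₀ l z) = 0)
    (hD : minorD (fun i j => f (g₁ i j)) (fun i j => f (g₂ i j)) (proj i₀ l z) (proj i₀ l u₁)
      (proj i₀ l u₂) ≠ 0) (θ : k) (hθ0 : θ ≠ 0) (d₀ : k)
    (hd₀ : Valued.v (f d₀) = Valued.v (minorD (fun i j => f (g₁ i j)) (fun i j => f (g₂ i j))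
      (proj i₀ l z) (proj i₀ l u₁) (proj i₀ l u₂))) :
    ∃ (z' u₁' u₂' : Fin 4 ⊕ Fin 4 → k) (l' : Fin 4 → k), (∀ i, z' i ∈ V) ∧ (∀ i, u₁' i ∈ V) ∧
      (∀ i, u₂' i ∈ V) ∧ (∀ i, l' i ∈ V) ∧ proj i₀ l' z' j₀ ∉ V.nonunits ∧
      qf g₁ (proj i₀ l' z') / (d₀ ^ 2 * θ) ∈ V ∧ qf g₂ (proj i₀ l' z') / (d₀ ^ 2 * θ) ∈ V ∧
      minorD g₁ g₂ (proj i₀ l' z') (proj i₀ l' u₁') (proj i₀ l' u₂') ≠ 0 ∧
      d₀ / minorD g₁ g₂ (proj i₀ l' z') (proj i₀ l' u₁') (proj i₀ l' u₂') ∈ V := by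
  have hd₀0 : d₀ ≠ 0 := by
    rintro rfl
    rw [map_zero, map_zero, eq_comm, map_eq_zero] at hd₀
    exact hD hd₀
  set O : Set L := ((Valued.v (R := L) (Γ₀ := Γ₀)).integer : Set L) with hO
  have hOopen : IsOpen O := Valued.isOpen_integer L
  let P : DataSp L := (z, u₁, u₂, l)
  -- the functions
  let pz : DataSp L → (Fin 4 ⊕ Fin 4 → L) := fun e => proj i₀ e.2.2.2 e.1
  let pu₁ : DataSp L → (Fin 4 ⊕ Fin 4 → L) := fun e => proj i₀ e.2.2.2 e.2.1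
  let pu₂ : DataSp L → (Fin 4 ⊕ Fin 4 → L) := fun e => proj i₀ e.2.2.2 e.2.2.1
  have hpz : Continuous pz := by
    refine continuous_pi fun i => ?_
    simp only [pz, proj, lval]
    fun_prop
  have hpu₁ : Continuous pu₁ := by
    refine continuous_pi fun i => ?_
    simp only [pu₁, proj, lval]
    fun_prop
  have hpu₂ : Continuous pu₂ := by
    refine continuous_pi fun i => ?_
    simp only [pu₂, proj, lval]
    fun_prop
  have hqf : ∀ g : (Fin 4 ⊕ Fin 4) → (Fin 4 ⊕ Fin 4) → L, Continuous (qf g) := by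
    intro g
    unfold qf
    fun_prop
  have hpol : ∀ (g : (Fin 4 ⊕ Fin 4) → (Fin 4 ⊕ Fin 4) → L) (p q : DataSp L → (Fin 4 ⊕ Fin 4 → L)),
      Continuous p → Continuous q → Continuous fun e => p e ⬝ᵥ (pm g).mulVec (q e) := by
    intro g p q hp hq
    exact hp.dotProduct (Continuous.matrix_mulVec continuous_const hq)
  have hmin : Continuous fun e : DataSp L => minorD (fun i j => f (g₁ i j)) (fun i j => f (g₂ i j))
      (pz e) (pu₁ e) (pu₂ e) := by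
    unfold minorD
    exact ((hpol _ _ _ hpz hpu₁).mul (hpol _ _ _ hpz hpu₂)).sub
      ((hpol _ _ _ hpz hpu₂).mul (hpol _ _ _ hpz hpu₁))
  have ev1 : ∀ᶠ e : DataSp L in 𝓝 P, ∀ i, e.1 i ∈ O := by
    rw [Filter.eventually_all]
    intro i
    exact (hOopen.preimage (by fun_prop : Continuous fun e : DataSp L => e.1 i)).mem_nhds (hz i)
  have ev2 : ∀ᶠ e : DataSp L in 𝓝 P, ∀ i, e.2.1 i ∈ O := by
    rw [Filter.eventually_all]
    intro i
    exact (hOopen.preimage (by fun_prop : Continuous fun e : DataSp L => e.2.1 i)).mem_nhds (hu₁ i)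
  have ev3 : ∀ᶠ e : DataSp L in 𝓝 P, ∀ i, e.2.2.1 i ∈ O := by
    rw [Filter.eventually_all]
    intro i
    exact (hOopen.preimage (by fun_prop : Continuous fun e : DataSp L => e.2.2.1 i)).mem_nhds (hu₂ i)
  have ev4 : ∀ᶠ e : DataSp L in 𝓝 P, ∀ i, e.2.2.2 i ∈ O := by
    rw [Filter.eventually_all]
    intro i
    exact (hOopen.preimage (by fun_prop : Continuous fun e : DataSp L => e.2.2.2 i)).mem_nhds (hl i)
  have ev5 : ∀ᶠ e : DataSp L in 𝓝 P, Valued.v (pz e j₀) = Valued.v (pz P j₀) :=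
    ((continuous_apply j₀).comp hpz).continuousAt.eventually
      (Valued.locally_const (by change Valued.v (proj i₀ l z j₀) ≠ 0; rw [hj₀]; exact one_ne_zero))
  have ev6 : ∀ᶠ e : DataSp L in 𝓝 P, qf (fun i j => f (g₁ i j)) (pz e) / f (d₀ ^ 2 * θ) ∈ O := by
    refine (hOopen.preimage (((hqf _).comp hpz).div_const _)).mem_nhds ?_
    change Valued.v (qf (fun i j => f (g₁ i j)) (proj i₀ l z) / f (d₀ ^ 2 * θ)) ≤ 1
    rw [h1, zero_div, map_zero]
    exact zero_le_one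
  have ev7 : ∀ᶠ e : DataSp L in 𝓝 P, qf (fun i j => f (g₂ i j)) (pz e) / f (d₀ ^ 2 * θ) ∈ O := by
    refine (hOopen.preimage (((hqf _).comp hpz).div_const _)).mem_nhds ?_
    change Valued.v (qf (fun i j => f (g₂ i j)) (proj i₀ l z) / f (d₀ ^ 2 * θ)) ≤ 1
    rw [h2, zero_div, map_zero]
    exact zero_le_one
  have ev8 : ∀ᶠ e : DataSp L in 𝓝 P, Valued.v (minorD (fun i j => f (g₁ i j)) (fun i j => f (g₂ i j))
      (pz e) (pu₁ e) (pu₂ e)) = Valued.v (minorD (fun i j => f (g₁ i j)) (fun i j => f (g₂ i j))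
      (pz P) (pu₁ P) (pu₂ P)) :=
    hmin.continuousAt.eventually (Valued.locally_const (by
      rw [Ne, map_eq_zero]; exact hD))
  have hev := ev1.and (ev2.and (ev3.and (ev4.and (ev5.and (ev6.and (ev7.and ev8))))))
  let F : (Fin 4 ⊕ Fin 4 → k) × (Fin 4 ⊕ Fin 4 → k) × (Fin 4 ⊕ Fin 4 → k) × (Fin 4 → k) → DataSp L :=
    Prod.map (Pi.map fun _ => f) (Prod.map (Pi.map fun _ => f) (Prod.map (Pi.map fun _ => f)
      (Pi.map fun _ => f)))
  have hdense : DenseRange F :=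
    DenseRange.prodMap (DenseRange.piMap fun _ => hfd) (DenseRange.prodMap
      (DenseRange.piMap fun _ => hfd) (DenseRange.prodMap (DenseRange.piMap fun _ => hfd)
        (DenseRange.piMap fun _ => hfd)))
  obtain ⟨_, ⟨k1, k2, k3, k4, k5, k6, k7, k8⟩, ⟨⟨z', u₁', u₂', l'⟩, rfl⟩⟩ :=
    mem_closure_iff_nhds.1 (hdense P) _ hev
  have epz : pz (F (z', u₁', u₂', l')) = fun i => f (proj i₀ l' z' i) := by
    ext1 i; rw [proj_map]; rfl
  have epu₁ : pu₁ (F (z', u₁', u₂', l')) = fun i => f (proj i₀ l' u₁' i) := by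
    ext1 i; rw [proj_map]; rfl
  have epu₂ : pu₂ (F (z', u₁', u₂', l')) = fun i => f (proj i₀ l' u₂' i) := by
    ext1 i; rw [proj_map]; rfl
  rw [epz] at k5 k6 k7 k8
  rw [epu₁, epu₂, ← minorD_map] at k8
  rw [← qf_map, ← map_div₀] at k6 k7
  have hDv : Valued.v (f (minorD g₁ g₂ (proj i₀ l' z') (proj i₀ l' u₁') (proj i₀ l' u₂'))) =
      Valued.v (f d₀) := by
    rw [k8, hd₀]
  have hfd0 : Valued.v (f d₀) ≠ 0 := by
    rw [Ne, map_eq_zero, map_eq_zero]; exact hd₀0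
  refine ⟨z', u₁', u₂', l', fun i => (hfV _).1 (k1 i), fun i => (hfV _).1 (k2 i),
    fun i => (hfV _).1 (k3 i), fun i => (hfV _).1 (k4 i), ?_, (hfV _).1 k6, (hfV _).1 k7, ?_, ?_⟩
  · rw [nonunits_iff_lt f hfV]
    have : Valued.v (f (proj i₀ l' z' j₀)) = 1 := by
      rw [← hj₀]; exact k5
    rw [this]
    exact lt_irrefl _
  · intro h0
    rw [h0, map_zero, map_zero] at hDv
    exact hfd0 hDv.symm
  · rw [← hfV, map_div₀, map_div₀, hDv, div_self hfd0]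

end

end Pool.Agent.Helper26
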