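import Mathlib
import Pool.Agent.Helper26.LocBall3

set_option autoImplicit false
set_option linter.unusedSectionVars false

/-!
# Smooth points over the completion and hyperplane sections, III
-/

universe u

namespace Pool.Agent.Helper26

open Matrix Finset Topology

section

variable {k : Type u} [Field k] {L : Type*} [Field L]
  {Γ₀ : Type*} [LinearOrderedCommGroupWithZero Γ₀] [Valued L Γ₀]

lemma exists_ball_aux {V : ValuationSubring k} (hV : V ≠ ⊤) (hr : IsRankOne V) (f : k →+* L)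
    (hfV : ∀ a : k, Valued.v (f a) ≤ 1 ↔ a ∈ V) (hfd : DenseRange f)
    {g₁ g₂ : (Fin 4 ⊕ Fin 4) → (Fin 4 ⊕ Fin 4) → k} (hg₁ : ∀ i j, g₁ i j ∈ V)
    (hg₂ : ∀ i j, g₂ i j ∈ V) (z : Fin 4 ⊕ Fin 4 → L) (hz : z ≠ 0)
    (h1 : qf (fun i j => f (g₁ i j)) z = 0) (h2 : qf (fun i j => f (g₂ i j)) z = 0)
    (hsm : ∀ a b : L, (a • pm (fun i j => f (g₁ i j)) + b • pm (fun i j => f (g₂ i j))).mulVec z
      = 0 → a = 0 ∧ b = 0) :
    ∃ (l₀ : Fin 4 → k) (ρ : k), ρ ≠ 0 ∧ ∀ l : Fin 4 → k, (∀ i, (l i - l₀ i) / ρ ∈ V) →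
      LocH V g₁ g₂ l := by
  obtain ⟨j₀, hj₀, hmax⟩ := exists_maxL z hz
  set Z := (z j₀)⁻¹ • z with hZ
  have hZj : Z j₀ = 1 := by
    simp only [hZ, Pi.smul_apply, smul_eq_mul]
    exact inv_mul_cancel₀ hj₀
  have hZint : ∀ i, Valued.v (Z i) ≤ 1 := hmax
  have hZ1 : qf (fun i j => f (g₁ i j)) Z = 0 := by rw [hZ, qf_smul, h1, mul_zero]
  have hZ2 : qf (fun i j => f (g₂ i j)) Z = 0 := by rw [hZ, qf_smul, h2, mul_zero]
  set G₁ := pm (fun i j => f (g₁ i j)) with hG₁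
  set G₂ := pm (fun i j => f (g₂ i j)) with hG₂
  have hb : ∀ s t : L, s • G₁.mulVec Z + t • G₂.mulVec Z = 0 → s = 0 ∧ t = 0 := by
    intro s t hst
    apply hsm
    rw [hZ, Matrix.mulVec_smul, Matrix.mulVec_smul] at hst
    have h3 : (z j₀)⁻¹ • (s • G₁ + t • G₂).mulVec z = 0 := by
      rw [← hst, Matrix.add_mulVec, Matrix.smul_mulVec, Matrix.smul_mulVec, smul_add,
        smul_comm s, smul_comm t]
    exact (smul_eq_zero.1 h3).resolve_left (inv_ne_zero hj₀)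
  obtain ⟨l, hlc, hl⟩ := exists_transversal (fun i => Z (Sum.inr i)) hb
  have hl0 : l ≠ 0 := by
    rintro rfl
    have h3 := (hl 0 0 1 (by
      have : (Sum.elim 0 0 : Fin 4 ⊕ Fin 4 → L) = 0 := by
        ext i; rcases i with i | i <;> rfl
      rw [this]; simp)).2.2
    exact one_ne_zero h3
  obtain ⟨i₀, hi₀, hlmax⟩ := exists_maxL l hl0
  set l' : Fin 4 → L := (l i₀)⁻¹ • l with hl'
  have hl'i : l' i₀ = 1 := by
    simp only [hl', Pi.smul_apply, smul_eq_mul]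
    exact inv_mul_cancel₀ hi₀
  have hl'c : lval l' Z = 0 := by
    have : lval l' Z = (l i₀)⁻¹ * ∑ i, l i * Z (Sum.inr i) := by
      simp only [lval, hl', Pi.smul_apply, smul_eq_mul, Finset.mul_sum, mul_assoc]
    rw [this, hlc, mul_zero]
  have hl'ind : ∀ s t r : L,
      s • G₁.mulVec Z + t • G₂.mulVec Z + r • (Sum.elim (0 : Fin 4 → L) l') = 0 →
      s = 0 ∧ t = 0 ∧ r = 0 := by
    intro s t r h
    have h3 : (Sum.elim (0 : Fin 4 → L) l') = (l i₀)⁻¹ • (Sum.elim (0 : Fin 4 → L) l) := by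
      ext i; rcases i with i | i <;> simp [hl']
    rw [h3, smul_smul] at h
    obtain ⟨e1, e2, e3⟩ := hl _ _ _ h
    refine ⟨e1, e2, ?_⟩
    exact (mul_eq_zero.1 e3).resolve_right (inv_ne_zero hi₀)
  obtain ⟨y, hy⟩ := exists_dual ![G₁.mulVec Z, G₂.mulVec Z, Sum.elim (0 : Fin 4 → L) l'] hl'ind
  have y00 : y 0 ⬝ᵥ G₁.mulVec Z = 1 := hy 0 0
  have y01 : y 0 ⬝ᵥ G₂.mulVec Z = 0 := hy 0 1
  have y02 : y 0 ⬝ᵥ Sum.elim (0 : Fin 4 → L) l' = 0 := hy 0 2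
  have y10 : y 1 ⬝ᵥ G₁.mulVec Z = 0 := hy 1 0
  have y11 : y 1 ⬝ᵥ G₂.mulVec Z = 1 := hy 1 1
  have y12 : y 1 ⬝ᵥ Sum.elim (0 : Fin 4 → L) l' = 0 := hy 1 2
  have hlv : ∀ w : Fin 4 ⊕ Fin 4 → L, w ⬝ᵥ Sum.elim (0 : Fin 4 → L) l' = lval l' w := by
    intro w
    simp only [dotProduct, Fintype.sum_sum_type, Sum.elim_inl, Sum.elim_inr, Pi.zero_apply,
      mul_zero, Finset.sum_const_zero, zero_add, lval]
    refine Finset.sum_congr rfl fun i _ => mul_comm _ _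
  rw [hlv] at y02 y12
  obtain ⟨s, hs0, -, hs⟩ := exists_smallL (fun q : Fin 2 × (Fin 4 ⊕ Fin 4) => y q.1.castSucc q.2)
  have p0 : proj i₀ l' Z = Z := proj_of_lval hl'c hl'i
  have p1 : proj i₀ l' (s • y 0) = s • y 0 :=
    proj_of_lval (by rw [lval_smul, y02, mul_zero]) hl'i
  have p2 : proj i₀ l' (s • y 1) = s • y 1 :=
    proj_of_lval (by rw [lval_smul, y12, mul_zero]) hl'i
  have hminor : minorD (fun i j => f (g₁ i j)) (fun i j => f (g₂ i j)) (proj i₀ l' Z)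
      (proj i₀ l' (s • y 0)) (proj i₀ l' (s • y 1)) = s ^ 2 := by
    rw [p0, p1, p2, minorD_smul, minorD, dot_symm (pm_symm _), y00, dot_symm (pm_symm _), y11,
      dot_symm (pm_symm _) Z (y 1), y10]
    ring
  have hD0 : s ^ 2 ≠ 0 := pow_ne_zero _ hs0
  obtain ⟨_, hd₀, ⟨d₀, rfl⟩⟩ := mem_closure_iff_nhds.1 (hfd (s ^ 2)) _
    (Valued.locally_const (x := s ^ 2) (by rw [Ne, map_eq_zero]; exact hD0))
  have hd₀' : Valued.v (f d₀) = Valued.v (s ^ 2) := hd₀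
  obtain ⟨θ, hθ0, hθ⟩ := exists_nonunit hV
  obtain ⟨z', u₁', u₂', l'', m1, m2, m3, m4, m5, m6, m7, m8, m9⟩ := exists_data f hfV hfd
    (g₁ := g₁) (g₂ := g₂) Z (s • y 0) (s • y 1) l' hZint (fun i => hs (0, i))
    (fun i => hs (1, i)) hlmax i₀ j₀ (by rw [p0, hZj, map_one]) (by rw [p0, hZ1])
    (by rw [p0, hZ2]) (by rw [hminor]; exact hD0) θ hθ0 d₀ (by rw [hminor]; exact hd₀')
  have hd₀0 : d₀ ≠ 0 := by
    rintro rfl
    rw [map_zero, map_zero, eq_comm, map_eq_zero] at hd₀'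
    exact hD0 hd₀'
  have hDV : minorD g₁ g₂ (proj i₀ l'' z') (proj i₀ l'' u₁') (proj i₀ l'' u₂') ∈ V :=
    sub_mem (V.mul_mem _ _ (polar'_mem hg₁ (proj_mem m4 m1) (proj_mem m4 m2))
      (polar'_mem hg₂ (proj_mem m4 m1) (proj_mem m4 m3)))
      (V.mul_mem _ _ (polar'_mem hg₁ (proj_mem m4 m1) (proj_mem m4 m3))
      (polar'_mem hg₂ (proj_mem m4 m1) (proj_mem m4 m2)))
  have hd₀V : d₀ ∈ V := by
    have : d₀ = d₀ / minorD g₁ g₂ (proj i₀ l'' z') (proj i₀ l'' u₁') (proj i₀ l'' u₂') *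
        minorD g₁ g₂ (proj i₀ l'' z') (proj i₀ l'' u₁') (proj i₀ l'' u₂') := by
      field_simp
    rw [this]
    exact V.mul_mem _ _ m9 hDV
  refine ⟨l'', d₀ ^ 2 * θ, mul_ne_zero (pow_ne_zero _ hd₀0) hθ0, fun l hl => ?_⟩
  exact ball_of_data hr hg₁ hg₂ i₀ l'' z' u₁' u₂' m4 m1 m2 m3 j₀ m5 d₀ θ hd₀0 hθ0 hd₀V hθ m6 m7
    m8 m9 l hl

/-- Around a smooth point over the completion there is a ball of hyperplanes with local points. -/
theorem exists_ball {V : ValuationSubring k} (hV : V ≠ ⊤) (hr : IsRankOne V) (f : k →+* L)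
    (hfV : ∀ a : k, Valued.v (f a) ≤ 1 ↔ a ∈ V) (hfd : DenseRange f)
    (g₁ g₂ : (Fin 4 ⊕ Fin 4) → (Fin 4 ⊕ Fin 4) → k) (z : Fin 4 ⊕ Fin 4 → L) (hz : z ≠ 0)
    (h1 : qf (fun i j => f (g₁ i j)) z = 0) (h2 : qf (fun i j => f (g₂ i j)) z = 0)
    (hsm : ∀ a b : L, (a • pm (fun i j => f (g₁ i j)) + b • pm (fun i j => f (g₂ i j))).mulVec z
      = 0 → a = 0 ∧ b = 0) :
    ∃ (l₀ : Fin 4 → k) (ρ : k), ρ ≠ 0 ∧ ∀ l : Fin 4 → k, (∀ i, (l i - l₀ i) / ρ ∈ V) →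
      LocH V g₁ g₂ l := by
  obtain ⟨w, hw0, -, hw⟩ := exists_big V
    (Sum.elim (fun q : (Fin 4 ⊕ Fin 4) × (Fin 4 ⊕ Fin 4) => g₁ q.1 q.2)
      (fun q : (Fin 4 ⊕ Fin 4) × (Fin 4 ⊕ Fin 4) => g₂ q.1 q.2))
  have hfw : f w ≠ 0 := by rwa [Ne, map_eq_zero]
  have hpm : ∀ g : (Fin 4 ⊕ Fin 4) → (Fin 4 ⊕ Fin 4) → k, pm (fun i j => f (g i j / w)) =
      (f w)⁻¹ • pm (fun i j => f (g i j)) := by
    intro g
    ext i j
    simp only [pm, Matrix.of_apply, Matrix.smul_apply, smul_eq_mul, map_div₀]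
    ring
  have hqf : ∀ g : (Fin 4 ⊕ Fin 4) → (Fin 4 ⊕ Fin 4) → k, qf (fun i j => f (g i j)) z = 0 →
      qf (fun i j => f (g i j / w)) z = 0 := by
    intro g hg
    simp only [map_div₀]
    rw [qf_scale, hg, zero_div]
  obtain ⟨l₀, ρ, hρ, h⟩ := exists_ball_aux (g₁ := fun i j => g₁ i j / w)
    (g₂ := fun i j => g₂ i j / w) hV hr f hfV hfd (fun i j => hw (Sum.inl (i, j)))
    (fun i j => hw (Sum.inr (i, j))) z hz (hqf _ h1) (hqf _ h2) (by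
      intro a b hab
      rw [hpm, hpm] at hab
      have h3 := hsm (a * (f w)⁻¹) (b * (f w)⁻¹) (by
        rw [← hab, smul_smul, smul_smul])
      refine ⟨(mul_eq_zero.1 h3.1).resolve_right (inv_ne_zero hfw),
        (mul_eq_zero.1 h3.2).resolve_right (inv_ne_zero hfw)⟩)
  exact ⟨l₀, ρ, hρ, fun l hl => (h l hl).of_scale hw0⟩

end

end Pool.Agent.Helper26
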