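import Mathlib
import Pool.Agent.Helper26.LocBall4
import Pool.Agent.Helper26.Coprime

set_option autoImplicit false
set_option linter.unusedSectionVars false

/-!
# Hyperplane sections at good places
-/

universe u

namespace Pool.Agent.Helper26

open Matrix Finset Polynomial

section

variable {k : Type u} [Field k] [CharP k 2]

/-- Non primitive approximate zeros suffice. -/
lemma LocH.of_weak {V : ValuationSubring k} {g₁ g₂ : (Fin 4 ⊕ Fin 4) → (Fin 4 ⊕ Fin 4) → k}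
    {l : Fin 4 → k} (h : ∀ d : k, d ≠ 0 → ∃ z : Fin 4 ⊕ Fin 4 → k, (∃ i, (z i)⁻¹ ∈ V ∧ z i ≠ 0) ∧
      (∑ i, l i * z (Sum.inr i) = 0) ∧ qf g₁ z / d ∈ V ∧ qf g₂ z / d ∈ V) : LocH V g₁ g₂ l := by
  intro d hd
  obtain ⟨z, ⟨i, hi, hi0⟩, hl, h1, h2⟩ := h d hd
  obtain ⟨i₀, hi₀, hmax⟩ := exists_max_coord V z (fun h0 => hi0 (congrFun h0 i))
  have hc' : (z i₀)⁻¹ ∈ V := by
    have : (z i₀)⁻¹ = (z i)⁻¹ * (z i / z i₀) := by field_simp
    rw [this]
    exact V.mul_mem _ _ hi (hmax i)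
  refine ⟨fun i => z i / z i₀, hmax, ⟨i₀, ?_⟩, ?_, ?_, ?_⟩
  · simp only [div_self hi₀]
    exact one_notMem_nonunits V
  · have : ∑ i, l i * (z (Sum.inr i) / z i₀) = (∑ i, l i * z (Sum.inr i)) / z i₀ := by
      rw [Finset.sum_div]
      refine Finset.sum_congr rfl fun i _ => ?_
      ring
    rw [this, hl, zero_div]
  · rw [qf_div]
    have : qf g₁ z / z i₀ ^ 2 / d = qf g₁ z / d * ((z i₀)⁻¹) ^ 2 := by field_simp
    rw [this]
    exact V.mul_mem _ _ h1 (pow_mem hc' 2)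
  · rw [qf_div]
    have : qf g₂ z / z i₀ ^ 2 / d = qf g₂ z / d * ((z i₀)⁻¹) ^ 2 := by field_simp
    rw [this]
    exact V.mul_mem _ _ h2 (pow_mem hc' 2)

lemma natDegree_dp {R : Type*} [CommRing R] (a b : Fin 4 → R) : (dp a b).natDegree ≤ 7 := by
  simp only [dp, zp0, zp1, zp2]
  compute_degree

/-- At a good place a bad primitive `y` gives a root of the septic over the residue field. -/
lemma exists_bad_residue {V : ValuationSubring k} (hV : V ≠ ⊤) (hr1 : IsRankOne V)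
    [Finite (IsLocalRing.ResidueField V)] (a b : Fin 4 → V) (g₁ g₂ : Fin 3 → Fin 3 → V)
    (ha3 : IsLocalRing.residue V (a 3) ≠ 0) (y : Fin 3 → V) (i₀ : Fin 3) (hi₀ : IsUnit (y i₀))
    (hbad : ¬ AppSol V (fun j => (a j : k)) (fun j => (b j : k)) (fun i j => (g₁ i j : k))
      (fun i j => (g₂ i j : k)) (fun i => (y i : k))) :
    ∃ θ f : IsLocalRing.ResidueField V, f ≠ 0 ∧
      df (fun j => IsLocalRing.residue V (a j)) (fun j => IsLocalRing.residue V (b j)) θ = 0 ∧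
      ∀ i, zf (fun j => IsLocalRing.residue V (a j)) (fun j => IsLocalRing.residue V (b j)) θ i =
        f * IsLocalRing.residue V (y i) ^ 2 := by
  have hchar := charP_residue V
  by_contra hcon
  apply hbad
  refine appSol_good hV hr1 a b g₁ g₂ y i₀ hi₀ ?_
  intro e f hef
  by_contra hne
  obtain ⟨hf, hd, h0, h1, h2⟩ := bad_solve ha3 hef hne
  apply hcon
  refine ⟨e / f, f, hf, hd, ?_⟩
  intro i
  fin_cases i
  · exact h0
  · exact h1
  · exact h2

/-- At a good place with a large residue field every hyperplane contains a good `y`. -/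
lemma exists_good_y {V : ValuationSubring k} (hV : V ≠ ⊤) (hr1 : IsRankOne V)
    [Finite (IsLocalRing.ResidueField V)] (hcard : 8 ≤ Nat.card (IsLocalRing.ResidueField V))
    (a b : Fin 4 → V) (g₁ g₂ : Fin 3 → Fin 3 → V) (ha3 : IsLocalRing.residue V (a 3) ≠ 0)
    (m : Fin 3 → V) (i₀ : Fin 3) (hi₀ : m i₀ = 1) :
    ∃ y : Fin 3 → V, (∃ j, IsUnit (y j)) ∧ ∑ i, m i * y i = 0 ∧
      AppSol V (fun j => (a j : k)) (fun j => (b j : k)) (fun i j => (g₁ i j : k))
      (fun i j => (g₂ i j : k)) (fun i => (y i : k)) := by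
  classical
  have hchar := charP_residue V
  by_contra hcon
  push Not at hcon
  set κ := IsLocalRing.ResidueField V with hκ
  set A : Fin 4 → κ := fun j => IsLocalRing.residue V (a j) with hA
  set B : Fin 4 → κ := fun j => IsLocalRing.residue V (b j) with hB
  have key : ∀ τ : κ, ∃ θ f : κ, f ≠ 0 ∧ df A B θ = 0 ∧ zf A B θ (i₀.succAbove 0) = f ∧
      zf A B θ (i₀.succAbove 1) = f * τ ^ 2 := by
    intro τ
    obtain ⟨t, ht⟩ := IsLocalRing.residue_surjective τ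
    set y : Fin 3 → V := i₀.insertNth (-(m (i₀.succAbove 0) + m (i₀.succAbove 1) * t))
      (![1, t] : Fin 2 → V) with hy
    have hy0 : y i₀ = -(m (i₀.succAbove 0) + m (i₀.succAbove 1) * t) := by
      rw [hy, Fin.insertNth_apply_same]
    have hy1 : y (i₀.succAbove 0) = 1 := by
      rw [hy, Fin.insertNth_apply_succAbove]; rfl
    have hy2 : y (i₀.succAbove 1) = t := by
      rw [hy, Fin.insertNth_apply_succAbove]; rfl
    have hu : IsUnit (y (i₀.succAbove 0)) := by rw [hy1]; exact isUnit_one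
    have hsum : ∑ i, m i * y i = 0 := by
      rw [Fin.sum_univ_succAbove _ i₀, Fin.sum_univ_two, hy0, hy1, hy2, hi₀]
      ring
    obtain ⟨θ, f, hf, hd, hz⟩ := exists_bad_residue hV hr1 a b g₁ g₂ ha3 y _ hu
      (hcon y ⟨_, hu⟩ hsum)
    refine ⟨θ, f, hf, hd, ?_, ?_⟩
    · rw [hz, hy1, map_one]; ring
    · rw [hz, hy2, ht]
  choose θ f hf hd hz1 hz2 using key
  have hinj : Function.Injective θ := by
    intro τ τ' h
    have h1 : f τ = f τ' := by rw [← hz1, ← hz1, h]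
    have h2 : f τ * τ ^ 2 = f τ * τ' ^ 2 := by
      rw [← hz2, h, hz2, h1]
    have h3 : τ ^ 2 = τ' ^ 2 := mul_left_cancel₀ (hf τ) h2
    have h4 : (τ + τ') ^ 2 = 0 := by
      rw [CharTwo.add_sq, h3, CharTwo.add_self_eq_zero]
    have h5 := (pow_eq_zero_iff two_ne_zero).1 h4
    exact CharTwo.add_eq_zero.1 h5
  have := Fintype.ofFinite κ
  have h1 : (Finset.univ.image θ) ⊆ (dp A B).roots.toFinset := by
    intro x hx
    obtain ⟨τ, -, rfl⟩ := Finset.mem_image.1 hx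
    rw [Multiset.mem_toFinset, mem_roots (dp_ne_zero ha3), IsRoot, eval_dp]
    exact hd τ
  have h2 := Finset.card_le_card h1
  rw [Finset.card_image_of_injective _ hinj, Finset.card_univ, ← Nat.card_eq_fintype_card] at h2
  have h3 := Multiset.toFinset_card_le (dp A B).roots
  have h4 := card_roots' (dp A B)
  have h5 := natDegree_dp A B
  omega

/-- Normalisation of three numbers. -/
lemma exists_normalised (V : ValuationSubring k) (l : Fin 3 → k) :
    ∃ (i₀ : Fin 3) (m : Fin 3 → V) (s : k), m i₀ = 1 ∧ ∀ i, l i = s * m i := by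
  by_cases h : l = 0
  · refine ⟨0, fun i => if i = 0 then 1 else 0, 0, by simp, ?_⟩
    intro i
    rw [h]
    simp
  · obtain ⟨i₀, hi₀, hmax⟩ := exists_max_coord V l h
    refine ⟨i₀, fun i => ⟨l i / l i₀, hmax i⟩, l i₀, ?_, ?_⟩
    · apply Subtype.ext
      change l i₀ / l i₀ = 1
      exact div_self hi₀
    · intro i
      change l i = l i₀ * (l i / l i₀)
      field_simp

/-- Every hyperplane is locally soluble at a good place. -/
lemma locH_good {V : ValuationSubring k} (hV : V ≠ ⊤) (hr1 : IsRankOne V)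
    [Finite (IsLocalRing.ResidueField V)] (hcard : 8 ≤ Nat.card (IsLocalRing.ResidueField V))
    {a b : Fin 4 → k} {h₁ h₂ : Fin 3 → Fin 3 → k} (ha : ∀ j, a j ∈ V) (hb : ∀ j, b j ∈ V)
    (hh₁ : ∀ i j, h₁ i j ∈ V) (hh₂ : ∀ i j, h₂ i j ∈ V) (ha3 : a 3 ∉ V.nonunits)
    {g₁ g₂ : (Fin 4 ⊕ Fin 4) → (Fin 4 ⊕ Fin 4) → k}
    (hg₁ : ∀ (x : Fin 4 → k) (c : Fin 3 → k), qf g₁ (Sum.elim x ![c 0, c 1, c 2, 0]) = Q1 a h₁ x c)
    (hg₂ : ∀ (x : Fin 4 → k) (c : Fin 3 → k), qf g₂ (Sum.elim x ![c 0, c 1, c 2, 0]) = Q2 b h₂ x c)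
    (l : Fin 4 → k) : LocH V g₁ g₂ l := by
  obtain ⟨i₀, m, s, hm, hs⟩ := exists_normalised V (fun i => l i.castSucc)
  obtain ⟨y, ⟨j, hj⟩, hsum, happ⟩ := exists_good_y hV hr1 hcard (fun j => ⟨a j, ha j⟩)
    (fun j => ⟨b j, hb j⟩) (fun i j => ⟨h₁ i j, hh₁ i j⟩) (fun i j => ⟨h₂ i j, hh₂ i j⟩)
    (fun h0 => ha3 (mem_nonunits_of_residue h0)) m i₀ hm
  apply LocH.of_weak
  intro d hd
  obtain ⟨x, h1, h2⟩ := happ d hd
  have hyj0 : ((y j : V) : k) ≠ 0 := by
    intro h0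
    have : y j = 0 := Subtype.ext h0
    rw [this] at hj
    exact not_isUnit_zero hj
  have hyjinv : ((y j : V) : k)⁻¹ ∈ V := by
    obtain ⟨u, hu⟩ := hj
    have h3 : ((y j : V) : k) * ((u⁻¹ : Vˣ) : V) = 1 := by
      rw [← hu]
      have : (u : V) * ((u⁻¹ : Vˣ) : V) = 1 := u.mul_inv
      exact congrArg Subtype.val this
    rw [inv_eq_of_mul_eq_one_right h3]
    exact ((u⁻¹ : Vˣ) : V).2
  refine ⟨Sum.elim x ![(y 0 : k), y 1, y 2, 0], ⟨Sum.inr j.castSucc, ?_, ?_⟩, ?_, ?_, ?_⟩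
  · have : (Sum.elim x ![(y 0 : k), y 1, y 2, 0]) (Sum.inr j.castSucc) = (y j : k) := by
      fin_cases j <;> rfl
    rw [this]; exact hyjinv
  · have : (Sum.elim x ![(y 0 : k), y 1, y 2, 0]) (Sum.inr j.castSucc) = (y j : k) := by
      fin_cases j <;> rfl
    rw [this]; exact hyj0
  · rw [Fin.sum_univ_castSucc, Fin.sum_univ_three]
    have e0 : l (Fin.castSucc 0) = s * m 0 := hs 0
    have e1 : l (Fin.castSucc 1) = s * m 1 := hs 1
    have e2 : l (Fin.castSucc 2) = s * m 2 := hs 2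
    rw [e0, e1, e2]
    have h3 := congrArg (fun v : V => (v : k)) hsum
    simp only [Fin.sum_univ_three] at h3
    have h4 : (m 0 : k) * y 0 + m 1 * y 1 + m 2 * y 2 = 0 := h3
    simp
    linear_combination s * h4
  · rw [hg₁ x (fun i => (y i : k))]; exact h1
  · rw [hg₂ x (fun i => (y i : k))]; exact h2

end

end Pool.Agent.Helper26
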