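import Mathlib
import Pool.Agent.Helper26.LocGood

set_option autoImplicit false
set_option linter.unusedSectionVars false

/-!
# Restriction of quadratic forms to subspaces
-/

universe u

namespace Pool.Agent.Helper26

open Matrix Finset

section

variable {n ι : Type*} [Fintype n] [Fintype ι] {R S : Type*} [CommRing R] [CommRing S]

/-- The linear combination. -/
def comb (T : ι → n → R) (w : ι → R) : n → R := fun l => ∑ i, w i * T i l

/-- The pulled back form. -/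
def pull (G : n → n → R) (T : ι → n → R) : ι → ι → R :=
  fun i j => ∑ l, ∑ l', G l l' * T i l * T j l'

lemma qf_pull (G : n → n → R) (T : ι → n → R) (w : ι → R) :
    qf (pull G T) w = qf G (comb T w) := by
  have h1 : qf (pull G T) w = ∑ i, ∑ j, ∑ l, ∑ l', G l l' * (w i * T i l) * (w j * T j l') := by
    simp only [qf, pull, Finset.sum_mul]
    refine Finset.sum_congr rfl fun i _ => Finset.sum_congr rfl fun j _ =>
      Finset.sum_congr rfl fun l _ => Finset.sum_congr rfl fun l' _ => ?_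
    ring
  have h2 : qf G (comb T w) = ∑ l, ∑ l', ∑ i, ∑ j, G l l' * (w i * T i l) * (w j * T j l') := by
    simp only [qf, comb]
    refine Finset.sum_congr rfl fun l _ => Finset.sum_congr rfl fun l' _ => ?_
    rw [mul_assoc, Finset.sum_mul_sum, Finset.mul_sum]
    refine Finset.sum_congr rfl fun i _ => ?_
    rw [Finset.mul_sum]
    refine Finset.sum_congr rfl fun j _ => ?_
    ring
  rw [h1, h2]
  calc ∑ i, ∑ j, ∑ l, ∑ l', G l l' * (w i * T i l) * (w j * T j l')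
      = ∑ i, ∑ l, ∑ j, ∑ l', G l l' * (w i * T i l) * (w j * T j l') :=
        Finset.sum_congr rfl fun i _ => Finset.sum_comm
    _ = ∑ l, ∑ i, ∑ j, ∑ l', G l l' * (w i * T i l) * (w j * T j l') := Finset.sum_comm
    _ = ∑ l, ∑ i, ∑ l', ∑ j, G l l' * (w i * T i l) * (w j * T j l') :=
        Finset.sum_congr rfl fun l _ => Finset.sum_congr rfl fun i _ => Finset.sum_comm
    _ = ∑ l, ∑ l', ∑ i, ∑ j, G l l' * (w i * T i l) * (w j * T j l') :=
        Finset.sum_congr rfl fun l _ => Finset.sum_comm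

lemma pm_pull (G : n → n → R) (T : ι → n → R) (i j : ι) :
    pm (pull G T) i j = T i ⬝ᵥ (pm G).mulVec (T j) := by
  have h2 : ∑ l, ∑ l', G l l' * T j l * T i l' = ∑ l, ∑ l', G l' l * T j l' * T i l :=
    Finset.sum_comm
  simp only [pm, Matrix.of_apply, pull, dotProduct, Matrix.mulVec, Finset.mul_sum]
  rw [h2, ← Finset.sum_add_distrib]
  refine Finset.sum_congr rfl fun l _ => ?_
  rw [← Finset.sum_add_distrib]
  refine Finset.sum_congr rfl fun l' _ => ?_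
  ring

lemma mulVec_comb (M : Matrix n n R) (T : ι → n → R) (w : ι → R) :
    M.mulVec (comb T w) = fun l => ∑ j, w j * M.mulVec (T j) l := by
  ext1 l
  simp only [Matrix.mulVec, dotProduct, comb, Finset.mul_sum]
  rw [Finset.sum_comm]
  refine Finset.sum_congr rfl fun j _ => Finset.sum_congr rfl fun l' _ => ?_
  ring

lemma mulVec_pull (G : n → n → R) (T : ι → n → R) (w : ι → R) (i : ι) :
    (pm (pull G T)).mulVec w i = T i ⬝ᵥ (pm G).mulVec (comb T w) := by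
  rw [mulVec_comb]
  simp only [Matrix.mulVec, dotProduct, pm_pull, Finset.mul_sum, Finset.sum_mul]
  rw [Finset.sum_comm]
  refine Finset.sum_congr rfl fun l _ => Finset.sum_congr rfl fun j _ => ?_
  refine Finset.sum_congr rfl fun l' _ => ?_
  ring

lemma pull_map (f : R →+* S) (G : n → n → R) (T : ι → n → R) (i j : ι) :
    f (pull G T i j) = pull (fun i j => f (G i j)) (fun i j => f (T i j)) i j := by
  simp only [pull, map_sum, map_mul]

end

section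

variable {R S : Type*} [CommRing R] [CommRing S]

/-- A three by three determinant. -/
def d3 (u v w : Fin 3 → R) : R :=
  u 0 * (v 1 * w 2 - v 2 * w 1) - u 1 * (v 0 * w 2 - v 2 * w 0) + u 2 * (v 0 * w 1 - v 1 * w 0)

/-- The coefficients of the vector of minors of a pencil of four by three matrices. -/
def pc (n₁ n₂ : Fin 4 → Fin 3 → R) (i j : Fin 4) : R :=
  ![d3 (n₂ (j.succAbove 0)) (n₂ (j.succAbove 1)) (n₂ (j.succAbove 2)),
    d3 (n₁ (j.succAbove 0)) (n₂ (j.succAbove 1)) (n₂ (j.succAbove 2)) +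
    d3 (n₂ (j.succAbove 0)) (n₁ (j.succAbove 1)) (n₂ (j.succAbove 2)) +
    d3 (n₂ (j.succAbove 0)) (n₂ (j.succAbove 1)) (n₁ (j.succAbove 2)),
    d3 (n₂ (j.succAbove 0)) (n₁ (j.succAbove 1)) (n₁ (j.succAbove 2)) +
    d3 (n₁ (j.succAbove 0)) (n₂ (j.succAbove 1)) (n₁ (j.succAbove 2)) +
    d3 (n₁ (j.succAbove 0)) (n₁ (j.succAbove 1)) (n₂ (j.succAbove 2)),
    d3 (n₁ (j.succAbove 0)) (n₁ (j.succAbove 1)) (n₁ (j.succAbove 2))] i

/-- The vector of minors. -/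
def pv (n₁ n₂ : Fin 4 → Fin 3 → R) (s t : R) (j : Fin 4) : R :=
  d3 (fun i => s * n₁ (j.succAbove 0) i + t * n₂ (j.succAbove 0) i)
    (fun i => s * n₁ (j.succAbove 1) i + t * n₂ (j.succAbove 1) i)
    (fun i => s * n₁ (j.succAbove 2) i + t * n₂ (j.succAbove 2) i)

lemma pv_eq (n₁ n₂ : Fin 4 → Fin 3 → R) (s t : R) (j : Fin 4) :
    pv n₁ n₂ s t j = pc n₁ n₂ 0 j * t ^ 3 + pc n₁ n₂ 1 j * (s * t ^ 2) +
      pc n₁ n₂ 2 j * (s ^ 2 * t) + pc n₁ n₂ 3 j * s ^ 3 := by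
  simp only [pv, pc, d3, Matrix.cons_val_zero, Matrix.cons_val_one, Matrix.cons_val]
  ring

lemma d3_map (f : R →+* S) (u v w : Fin 3 → R) :
    f (d3 u v w) = d3 (fun i => f (u i)) (fun i => f (v i)) (fun i => f (w i)) := by
  simp only [d3, map_add, map_sub, map_mul]

lemma pc_map (f : R →+* S) (n₁ n₂ : Fin 4 → Fin 3 → R) (i j : Fin 4) :
    f (pc n₁ n₂ i j) = pc (fun i j => f (n₁ i j)) (fun i j => f (n₂ i j)) i j := by
  fin_cases i <;> simp [pc, d3_map]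

/-- The coefficient vector of the binary cubic. -/
def cub (a : Fin 4 → R) (n₁ n₂ : Fin 4 → Fin 3 → R) (i : Fin 4) : R :=
  ∑ j, a j * pc n₁ n₂ i j ^ 2

lemma cub_map (f : R →+* S) (a : Fin 4 → R) (n₁ n₂ : Fin 4 → Fin 3 → R) (i : Fin 4) :
    f (cub a n₁ n₂ i) = cub (fun i => f (a i)) (fun i j => f (n₁ i j)) (fun i j => f (n₂ i j)) i := by
  simp only [cub, map_sum, map_mul, map_pow, pc_map]

lemma sylvMat_map (f : R →+* S) (a b : Fin 4 → R) :
    f (sylvMat a b).det = (sylvMat (fun i => f (a i)) (fun i => f (b i))).det := by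
  rw [RingHom.map_det]
  congr 1
  ext i j
  fin_cases i <;> fin_cases j <;> simp [sylvMat]

/-- The resultant. -/
def rs (a b : Fin 4 → R) (n₁ n₂ : Fin 4 → Fin 3 → R) : R :=
  (sylvMat (cub a n₁ n₂) (cub b n₁ n₂)).det

lemma rs_map (f : R →+* S) (a b : Fin 4 → R) (n₁ n₂ : Fin 4 → Fin 3 → R) :
    f (rs a b n₁ n₂) = rs (fun i => f (a i)) (fun i => f (b i)) (fun i j => f (n₁ i j))
      (fun i j => f (n₂ i j)) := by
  simp only [rs, sylvMat_map, cub_map]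

end

section

variable {K : Type*} [Field K] [CharP K 2]

lemma cub_eval (a : Fin 4 → K) (n₁ n₂ : Fin 4 → Fin 3 → K) (s t : K) :
    cub a n₁ n₂ 0 * (t ^ 2) ^ 3 + cub a n₁ n₂ 1 * (s ^ 2 * (t ^ 2) ^ 2) +
      cub a n₁ n₂ 2 * ((s ^ 2) ^ 2 * t ^ 2) + cub a n₁ n₂ 3 * (s ^ 2) ^ 3 =
      ∑ j, a j * pv n₁ n₂ s t j ^ 2 := by
  have h1 : ∀ j, a j * pv n₁ n₂ s t j ^ 2 = a j * (pc n₁ n₂ 0 j ^ 2) * (t ^ 2) ^ 3 +
      a j * (pc n₁ n₂ 1 j ^ 2) * (s ^ 2 * (t ^ 2) ^ 2) +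
      a j * (pc n₁ n₂ 2 j ^ 2) * ((s ^ 2) ^ 2 * t ^ 2) + a j * (pc n₁ n₂ 3 j ^ 2) * (s ^ 2) ^ 3 := by
    intro j
    rw [pv_eq, CharTwo.add_sq, CharTwo.add_sq, CharTwo.add_sq]
    ring
  simp only [h1, Finset.sum_add_distrib, ← Finset.sum_mul]
  rfl

/-- A common zero of two binary cubics kills the resultant. -/
lemma sylvMat_det_eq_zero {a b : Fin 4 → K} {s t : K} (hst : s ≠ 0 ∨ t ≠ 0)
    (ha : a 0 * t ^ 3 + a 1 * (s * t ^ 2) + a 2 * (s ^ 2 * t) + a 3 * s ^ 3 = 0)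
    (hb : b 0 * t ^ 3 + b 1 * (s * t ^ 2) + b 2 * (s ^ 2 * t) + b 3 * s ^ 3 = 0) :
    (sylvMat a b).det = 0 := by
  rw [← Matrix.exists_mulVec_eq_zero_iff]
  refine ⟨![t ^ 5, s * t ^ 4, s ^ 2 * t ^ 3, s ^ 3 * t ^ 2, s ^ 4 * t, s ^ 5], ?_, ?_⟩
  · intro h
    rcases hst with h1 | h1
    · have := congrFun h 5
      simp at this
      exact h1 this
    · have := congrFun h 0
      simp at this
      exact h1 this
  · ext i
    fin_cases i <;> simp [sylvMat, Matrix.mulVec, dotProduct, Fin.sum_univ_succ]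
    · linear_combination t ^ 2 * ha
    · linear_combination s * t * ha
    · linear_combination s ^ 2 * ha
    · linear_combination t ^ 2 * hb
    · linear_combination s * t * hb
    · linear_combination s ^ 2 * hb

lemma exists_pv_ne_zero {a b : Fin 4 → K} {n₁ n₂ : Fin 4 → Fin 3 → K} (hR : rs a b n₁ n₂ ≠ 0)
    {s t : K} (hst : s ≠ 0 ∨ t ≠ 0) : ¬ (∑ j, a j * pv n₁ n₂ s t j ^ 2 = 0 ∧
      ∑ j, b j * pv n₁ n₂ s t j ^ 2 = 0) := by
  rintro ⟨h1, h2⟩
  apply hR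
  rw [← cub_eval] at h1 h2
  refine sylvMat_det_eq_zero (s := s ^ 2) (t := t ^ 2) ?_ h1 h2
  rcases hst with h | h
  · exact Or.inl (pow_ne_zero _ h)
  · exact Or.inr (pow_ne_zero _ h)

lemma pv_row (n₁ n₂ : Fin 4 → Fin 3 → K) (s t : K) (i : Fin 3) :
    ∑ j, pv n₁ n₂ s t j * (s * n₁ j i + t * n₂ j i) = 0 := by
  have e00 : (0 : Fin 4).succAbove 0 = 1 := rfl
  have e01 : (0 : Fin 4).succAbove 1 = 2 := rfl
  have e02 : (0 : Fin 4).succAbove 2 = 3 := rfl
  have e10 : (1 : Fin 4).succAbove 0 = 0 := rfl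
  have e11 : (1 : Fin 4).succAbove 1 = 2 := rfl
  have e12 : (1 : Fin 4).succAbove 2 = 3 := rfl
  have e20 : (2 : Fin 4).succAbove 0 = 0 := rfl
  have e21 : (2 : Fin 4).succAbove 1 = 1 := rfl
  have e22 : (2 : Fin 4).succAbove 2 = 3 := rfl
  have e30 : (3 : Fin 4).succAbove 0 = 0 := rfl
  have e31 : (3 : Fin 4).succAbove 1 = 1 := rfl
  have e32 : (3 : Fin 4).succAbove 2 = 2 := rfl
  simp only [Fin.sum_univ_four, pv, e00, e01, e02, e10, e11, e12, e20, e21, e22, e30, e31, e32, d3]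
  generalize hM : (fun (j : Fin 4) (i : Fin 3) => s * n₁ j i + t * n₂ j i) = M
  have hM' : ∀ j i, s * n₁ j i + t * n₂ j i = M j i := fun j i => by rw [← hM]
  simp only [hM']
  fin_cases i
  · simp only [Fin.zero_eta]
    linear_combination M 1 0 * CharTwo.add_self_eq_zero
        (M 0 0 * (M 2 1 * M 3 2 - M 2 2 * M 3 1) - M 0 1 * (M 2 0 * M 3 2 - M 2 2 * M 3 0) +
          M 0 2 * (M 2 0 * M 3 1 - M 2 1 * M 3 0)) +
      M 3 0 * CharTwo.add_self_eq_zero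
        (M 0 0 * (M 1 1 * M 2 2 - M 1 2 * M 2 1) - M 0 1 * (M 1 0 * M 2 2 - M 1 2 * M 2 0) +
          M 0 2 * (M 1 0 * M 2 1 - M 1 1 * M 2 0))
  · simp only [Fin.mk_one]
    linear_combination M 1 1 * CharTwo.add_self_eq_zero
        (M 0 0 * (M 2 1 * M 3 2 - M 2 2 * M 3 1) - M 0 1 * (M 2 0 * M 3 2 - M 2 2 * M 3 0) +
          M 0 2 * (M 2 0 * M 3 1 - M 2 1 * M 3 0)) +
      M 3 1 * CharTwo.add_self_eq_zero
        (M 0 0 * (M 1 1 * M 2 2 - M 1 2 * M 2 1) - M 0 1 * (M 1 0 * M 2 2 - M 1 2 * M 2 0) +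
          M 0 2 * (M 1 0 * M 2 1 - M 1 1 * M 2 0))
  · simp only [Fin.reduceFinMk]
    linear_combination M 1 2 * CharTwo.add_self_eq_zero
        (M 0 0 * (M 2 1 * M 3 2 - M 2 2 * M 3 1) - M 0 1 * (M 2 0 * M 3 2 - M 2 2 * M 3 0) +
          M 0 2 * (M 2 0 * M 3 1 - M 2 1 * M 3 0)) +
      M 3 2 * CharTwo.add_self_eq_zero
        (M 0 0 * (M 1 1 * M 2 2 - M 1 2 * M 2 1) - M 0 1 * (M 1 0 * M 2 2 - M 1 2 * M 2 0) +
          M 0 2 * (M 1 0 * M 2 1 - M 1 1 * M 2 0))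

/-- The three rows different from `b`. -/
lemma pv_eq_det (n₁ n₂ : Fin 4 → Fin 3 → K) (s t : K) (b : Fin 4) :
    pv n₁ n₂ s t b = (Matrix.of fun (j i : Fin 3) =>
      s * n₁ (b.succAbove j) i + t * n₂ (b.succAbove j) i).det := by
  rw [Matrix.det_fin_three]
  simp only [pv, d3, Matrix.of_apply]
  ring

lemma eq_zero_of_pv_ne_zero {n₁ n₂ : Fin 4 → Fin 3 → K} {s t : K} {b : Fin 4}
    (hb : pv n₁ n₂ s t b ≠ 0) {c : Fin 3 → K}
    (hc : ∀ j, ∑ i, (s * n₁ j i + t * n₂ j i) * c i = 0) : c = 0 := by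
  rw [pv_eq_det] at hb
  apply Matrix.eq_zero_of_mulVec_eq_zero hb
  ext1 j
  exact hc (b.succAbove j)

lemma prop_of_pv_ne_zero {n₁ n₂ : Fin 4 → Fin 3 → K} {s t : K} {b : Fin 4}
    (hb : pv n₁ n₂ s t b ≠ 0) {x : Fin 4 → K}
    (hx : ∀ i, ∑ j, x j * (s * n₁ j i + t * n₂ j i) = 0) (j : Fin 4) :
    pv n₁ n₂ s t b * x j = x b * pv n₁ n₂ s t j := by
  set y : Fin 4 → K := fun j => pv n₁ n₂ s t b * x j - x b * pv n₁ n₂ s t j with hy
  have hyb : y b = 0 := by simp only [hy]; ring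
  have hyk : ∀ i, ∑ j, y j * (s * n₁ j i + t * n₂ j i) = 0 := by
    intro i
    have h1 : ∑ j, y j * (s * n₁ j i + t * n₂ j i) =
        pv n₁ n₂ s t b * ∑ j, x j * (s * n₁ j i + t * n₂ j i) -
        x b * ∑ j, pv n₁ n₂ s t j * (s * n₁ j i + t * n₂ j i) := by
      rw [Finset.mul_sum, Finset.mul_sum, ← Finset.sum_sub_distrib]
      refine Finset.sum_congr rfl fun j _ => ?_
      simp only [hy]
      ring
    rw [h1, hx, pv_row, mul_zero, mul_zero, sub_zero]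
  have hdet := hb
  rw [pv_eq_det] at hdet
  have h2 : (fun j : Fin 3 => y (b.succAbove j)) = 0 := by
    apply Matrix.eq_zero_of_vecMul_eq_zero hdet
    ext1 i
    have h3 := hyk i
    rw [Fin.sum_univ_succAbove _ b, hyb, zero_mul, zero_add] at h3
    exact h3
  have h4 : y j = 0 := by
    rcases Fin.eq_self_or_eq_succAbove b j with h | ⟨j', h⟩
    · rw [h]; exact hyb
    · rw [h]; exact congrFun h2 j'
  exact sub_eq_zero.1 h4

end

end Pool.Agent.Helper26
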