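import Mathlib
import Pool.Agent.Helper26.Pull

set_option autoImplicit false
set_option linter.unusedSectionVars false

/-!
# The Jacobian condition on hyperplane sections
-/

universe u

namespace Pool.Agent.Helper26

open Matrix Finset

section

variable {R S : Type*} [CommRing R] [CommRing S]

/-- The parametrisation of the hyperplane. -/
def emb (m : Fin 3 → R) (w : Fin 7 → R) : Fin 4 ⊕ Fin 4 → R :=
  Sum.elim ![w 0, w 1, w 2, w 3] ![w 4, w 5, w 6, m 0 * w 4 + m 1 * w 5 + m 2 * w 6]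

/-- The basis of the hyperplane. -/
def tb (m : Fin 3 → R) : Fin 7 → (Fin 4 ⊕ Fin 4) → R := fun i => emb m (Pi.single i 1)

lemma comb_tb (m : Fin 3 → R) (w : Fin 7 → R) : comb (tb m) w = emb m w := by
  ext1 i
  rcases i with i | i
  · fin_cases i <;> simp [comb, tb, emb, Fin.sum_univ_succ, Pi.single_apply]
  · fin_cases i <;> simp [comb, tb, emb, Fin.sum_univ_succ, Pi.single_apply] <;> ring

lemma tb_map (f : R →+* S) (m : Fin 3 → R) (i : Fin 7) (j : Fin 4 ⊕ Fin 4) :
    f (tb m i j) = tb (fun i => f (m i)) i j := by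
  rcases j with j | j
  · fin_cases j <;> simp [tb, emb, Pi.single_apply, apply_ite f]
  · fin_cases j <;> simp [tb, emb, Pi.single_apply, apply_ite f]

/-- The pairing between the isotropic space and the complement. -/
def nr (G : (Fin 4 ⊕ Fin 4) → (Fin 4 ⊕ Fin 4) → R) (m : Fin 3 → R) (j : Fin 4) (i : Fin 3) : R :=
  pm G (Sum.inl j) (Sum.inr i.castSucc) + m i * pm G (Sum.inl j) (Sum.inr 3)

lemma nr_map (f : R →+* S) (G : (Fin 4 ⊕ Fin 4) → (Fin 4 ⊕ Fin 4) → R) (m : Fin 3 → R)
    (j : Fin 4) (i : Fin 3) :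
    f (nr G m j i) = nr (fun i j => f (G i j)) (fun i => f (m i)) j i := by
  simp [nr, pm]

end

section

variable {K : Type*} [Field K] [CharP K 2]

lemma jacInd_section {G₁ G₂ : (Fin 4 ⊕ Fin 4) → (Fin 4 ⊕ Fin 4) → K} {a b : Fin 4 → K}
    (iso₁ : ∀ i j, pm G₁ (Sum.inl i) (Sum.inl j) = 0)
    (iso₂ : ∀ i j, pm G₂ (Sum.inl i) (Sum.inl j) = 0)
    (hqa : ∀ x : Fin 4 → K, qf G₁ (Sum.elim x 0) = ∑ j, a j * x j ^ 2)
    (hqb : ∀ x : Fin 4 → K, qf G₂ (Sum.elim x 0) = ∑ j, b j * x j ^ 2) (m : Fin 3 → K)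
    (hR : rs a b (nr G₁ m) (nr G₂ m) ≠ 0) :
    JacInd (pull G₁ (tb m)) (pull G₂ (tb m)) := by
  intro w hw h1 h2 s t hst
  rw [qf_pull, comb_tb] at h1 h2
  by_contra hne
  have hne' : s ≠ 0 ∨ t ≠ 0 := by
    by_contra hcon
    push Not at hcon
    exact hne hcon
  set M := s • pm G₁ + t • pm G₂ with hM
  have hMs : ∀ i j, M i j = M j i := by
    intro i j
    simp only [hM, Matrix.add_apply, Matrix.smul_apply, pm_symm G₁ i j, pm_symm G₂ i j]
  have hMl : ∀ i j, M (Sum.inl i) (Sum.inl j) = 0 := by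
    intro i j
    simp only [hM, Matrix.add_apply, Matrix.smul_apply, iso₁, iso₂, smul_zero, add_zero]
  have hMn : ∀ (j : Fin 4) (i : Fin 3), M (Sum.inl j) (Sum.inr i.castSucc) +
      m i * M (Sum.inl j) (Sum.inr 3) = s * nr G₁ m j i + t * nr G₂ m j i := by
    intro j i
    simp only [hM, Matrix.add_apply, Matrix.smul_apply, nr, smul_eq_mul]
    ring
  have hz : ∀ i, tb m i ⬝ᵥ M.mulVec (emb m w) = 0 := by
    intro i
    have h3 := congrFun hst i
    simp only [Matrix.add_mulVec, Matrix.smul_mulVec, Pi.add_apply, Pi.smul_apply, Pi.zero_apply,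
      mulVec_pull, comb_tb] at h3
    simp only [hM, Matrix.add_mulVec, Matrix.smul_mulVec, dotProduct_add, dotProduct_smul]
    exact h3
  obtain ⟨b₀, hb₀⟩ : ∃ b₀, pv (nr G₁ m) (nr G₂ m) s t b₀ ≠ 0 := by
    by_contra hcon
    push Not at hcon
    apply exists_pv_ne_zero hR hne'
    simp [hcon]
  set c : Fin 3 → K := ![w 4, w 5, w 6] with hc
  have hpair : ∀ j : Fin 4, (M.mulVec (emb m w)) (Sum.inl j) =
      ∑ i, (s * nr G₁ m j i + t * nr G₂ m j i) * c i := by
    intro j
    rw [Matrix.mulVec, dotProduct, Fintype.sum_sum_type]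
    simp only [hMl, zero_mul, Finset.sum_const_zero, zero_add]
    simp only [← hMn, Fin.sum_univ_four, Fin.sum_univ_three, emb, Sum.elim_inr, hc,
      Matrix.cons_val_zero, Matrix.cons_val_one, Matrix.cons_val]
    have e0 : (Fin.castSucc 0 : Fin 4) = 0 := rfl
    have e1 : (Fin.castSucc 1 : Fin 4) = 1 := rfl
    have e2 : (Fin.castSucc 2 : Fin 4) = 2 := rfl
    rw [e0, e1, e2]
    ring
  have htl : ∀ j : Fin 4, tb m (Fin.castLE (by norm_num) j) = Pi.single (Sum.inl j) 1 := by
    intro j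
    ext1 i
    rcases i with i | i
    · fin_cases j <;> fin_cases i <;> simp [tb, emb, Pi.single_apply]
    · fin_cases j <;> fin_cases i <;> simp [tb, emb, Pi.single_apply]
  have hc0 : c = 0 := by
    apply eq_zero_of_pv_ne_zero hb₀
    intro j
    have h3 := hz (Fin.castLE (by norm_num) j)
    rw [htl, single_dotProduct, one_mul, hpair] at h3
    exact h3
  have w4 : w 4 = 0 := by have := congrFun hc0 0; simpa [hc] using this
  have w5 : w 5 = 0 := by have := congrFun hc0 1; simpa [hc] using this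
  have w6 : w 6 = 0 := by have := congrFun hc0 2; simpa [hc] using this
  set x : Fin 4 → K := ![w 0, w 1, w 2, w 3] with hx
  have hemb : emb m w = Sum.elim x 0 := by
    ext1 i
    rcases i with i | i
    · rfl
    · fin_cases i <;> simp [emb, w4, w5, w6]
  have hpair' : ∀ i : Fin 4, (M.mulVec (emb m w)) (Sum.inr i) =
      ∑ j, x j * M (Sum.inl j) (Sum.inr i) := by
    intro i
    rw [hemb, Matrix.mulVec, dotProduct, Fintype.sum_sum_type]
    simp only [Sum.elim_inl, Sum.elim_inr, Pi.zero_apply, mul_zero, Finset.sum_const_zero, add_zero]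
    refine Finset.sum_congr rfl fun j _ => ?_
    rw [hMs, mul_comm]
  have htr : ∀ i : Fin 3, tb m (Fin.natAdd 4 i) = Pi.single (Sum.inr i.castSucc) 1 +
      m i • Pi.single (Sum.inr 3) 1 := by
    intro i
    ext1 j
    rcases j with j | j
    · fin_cases i <;> fin_cases j <;> simp [tb, emb, Pi.single_apply]
    · fin_cases i <;> fin_cases j <;> simp [tb, emb, Pi.single_apply]
  have hprop : ∀ j, pv (nr G₁ m) (nr G₂ m) s t b₀ * x j = x b₀ * pv (nr G₁ m) (nr G₂ m) s t j := by
    apply prop_of_pv_ne_zero hb₀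
    intro i
    have h3 := hz (Fin.natAdd 4 i)
    rw [htr, add_dotProduct, smul_dotProduct, single_dotProduct, single_dotProduct, one_mul,
      one_mul, hpair', hpair', smul_eq_mul, Finset.mul_sum, ← Finset.sum_add_distrib] at h3
    rw [← h3]
    refine Finset.sum_congr rfl fun j _ => ?_
    rw [← hMn]
    ring
  have hxb : x b₀ ≠ 0 := by
    intro h0
    apply hw
    have hx0 : ∀ j, x j = 0 := by
      intro j
      have h3 := hprop j
      rw [h0, zero_mul] at h3
      exact (mul_eq_zero.1 h3).resolve_left hb₀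
    ext i
    fin_cases i
    · exact hx0 0
    · exact hx0 1
    · exact hx0 2
    · exact hx0 3
    · exact w4
    · exact w5
    · exact w6
  have hfin : ∀ a : Fin 4 → K, ∑ j, a j * x j ^ 2 = 0 →
      ∑ j, a j * pv (nr G₁ m) (nr G₂ m) s t j ^ 2 = 0 := by
    intro a ha
    have h3 : x b₀ ^ 2 * ∑ j, a j * pv (nr G₁ m) (nr G₂ m) s t j ^ 2 =
        pv (nr G₁ m) (nr G₂ m) s t b₀ ^ 2 * ∑ j, a j * x j ^ 2 := by
      rw [Finset.mul_sum, Finset.mul_sum]
      refine Finset.sum_congr rfl fun j _ => ?_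
      have h4 := hprop j
      linear_combination -a j * (pv (nr G₁ m) (nr G₂ m) s t b₀ * x j +
        x b₀ * pv (nr G₁ m) (nr G₂ m) s t j) * h4
    rw [ha, mul_zero] at h3
    exact (mul_eq_zero.1 h3).resolve_left (pow_ne_zero _ hxb)
  rw [hemb] at h1 h2
  rw [hqa] at h1
  rw [hqb] at h2
  exact exists_pv_ne_zero hR hne' ⟨hfin a h1, hfin b h2⟩

end

end Pool.Agent.Helper26
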