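import Mathlib
import Pool.Agent.Helper26.Sec7

set_option autoImplicit false
set_option linter.unusedSectionVars false

/-!
# The Hasse principle in eight variables, normal form
-/

universe u v

namespace Pool.Agent.Helper26

open Matrix Finset

section

variable {k : Type u} [Field k] [CharP k 2]

lemma emb_ne_zero {m : Fin 3 → k} {w : Fin 7 → k} (hw : w ≠ 0) : emb m w ≠ 0 := by
  intro h
  apply hw
  ext i
  fin_cases i
  · exact congrFun h (Sum.inl 0)
  · exact congrFun h (Sum.inl 1)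
  · exact congrFun h (Sum.inl 2)
  · exact congrFun h (Sum.inl 3)
  · exact congrFun h (Sum.inr 0)
  · exact congrFun h (Sum.inr 1)
  · exact congrFun h (Sum.inr 2)

/-- Local solubility on the hyperplane in terms of the parametrisation. -/
lemma locQ_of_locH {V : ValuationSubring k} {G₁ G₂ : (Fin 4 ⊕ Fin 4) → (Fin 4 ⊕ Fin 4) → k}
    {l : Fin 4 → k} (hl : l 3 ≠ 0) (h : LocH V G₁ G₂ l) :
    LocQ V (pull G₁ (tb fun i => l i.castSucc / l 3)) (pull G₂ (tb fun i => l i.castSucc / l 3)) := by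
  set m : Fin 3 → k := fun i => l i.castSucc / l 3 with hm
  obtain ⟨s, hs0, hs, hsm⟩ := exists_big V m
  refine LocQ.of_weak s⁻¹ ?_ (inv_ne_zero hs0)
  intro d hd
  obtain ⟨z, hz, ⟨j, hj⟩, hlz, h1, h2⟩ := h d hd
  have hz3 : z (Sum.inr 3) = m 0 * z (Sum.inr 0) + m 1 * z (Sum.inr 1) + m 2 * z (Sum.inr 2) := by
    rw [Fin.sum_univ_four] at hlz
    simp only [hm]
    have e0 : (Fin.castSucc 0 : Fin 4) = 0 := rfl
    have e1 : (Fin.castSucc 1 : Fin 4) = 1 := rfl
    have e2 : (Fin.castSucc 2 : Fin 4) = 2 := rfl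
    rw [e0, e1, e2]
    field_simp
    have h3 := CharTwo.add_self_eq_zero (l 3 * z (Sum.inr 3))
    linear_combination h3 - hlz
  set w : Fin 7 → k := ![z (Sum.inl 0), z (Sum.inl 1), z (Sum.inl 2), z (Sum.inl 3),
    z (Sum.inr 0), z (Sum.inr 1), z (Sum.inr 2)] with hw
  have hemb : emb m w = z := by
    ext1 i
    rcases i with i | i
    · fin_cases i <;> rfl
    · fin_cases i
      · rfl
      · rfl
      · rfl
      · exact hz3.symm
  refine ⟨w, ?_, ?_, ?_⟩
  · have unit : ∀ x : k, x ∉ V.nonunits → x ≠ 0 ∧ x⁻¹ ∈ V := by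
      intro x hx
      rw [nonunits_iff] at hx
      push Not at hx
      exact hx
    have good : ∀ x : k, x ∉ V.nonunits → s⁻¹ / x ∈ V ∧ x ≠ 0 := by
      intro x hx
      obtain ⟨h3, h4⟩ := unit x hx
      exact ⟨by rw [div_eq_mul_inv]; exact V.mul_mem _ _ hs h4, h3⟩
    have big : ∀ i : Fin 3, m i * z (Sum.inr i.castSucc) ∉ V.nonunits →
        s⁻¹ / z (Sum.inr i.castSucc) ∈ V ∧ z (Sum.inr i.castSucc) ≠ 0 := by
      intro i hi
      obtain ⟨h3, h4⟩ := unit _ hi
      have h5 : z (Sum.inr i.castSucc) ≠ 0 := right_ne_zero_of_mul h3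
      have h6 : m i ≠ 0 := left_ne_zero_of_mul h3
      refine ⟨?_, h5⟩
      have : s⁻¹ / z (Sum.inr i.castSucc) = m i / s * (m i * z (Sum.inr i.castSucc))⁻¹ := by
        field_simp
      rw [this]
      exact V.mul_mem _ _ (hsm i) h4
    rcases j with j | j
    · fin_cases j
      · exact ⟨0, good _ hj⟩
      · exact ⟨1, good _ hj⟩
      · exact ⟨2, good _ hj⟩
      · exact ⟨3, good _ hj⟩
    · fin_cases j
      · exact ⟨4, good _ hj⟩
      · exact ⟨5, good _ hj⟩
      · exact ⟨6, good _ hj⟩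
      · by_cases c0 : m 0 * z (Sum.inr 0) ∈ V.nonunits
        · by_cases c1 : m 1 * z (Sum.inr 1) ∈ V.nonunits
          · by_cases c2 : m 2 * z (Sum.inr 2) ∈ V.nonunits
            · exfalso
              apply hj
              change z (Sum.inr 3) ∈ V.nonunits
              rw [hz3]
              exact nonunits_add (nonunits_add c0 c1) c2
            · exact ⟨6, big 2 c2⟩
          · exact ⟨5, big 1 c1⟩
        · exact ⟨4, big 0 c0⟩
  · rw [qf_pull, comb_tb, hemb]
    exact h1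
  · rw [qf_pull, comb_tb, hemb]
    exact h2

/-- The coefficients of the minors in the standard position. -/
lemma pc_std (i j : Fin 4) :
    pc (fun (j : Fin 4) (i : Fin 3) => if j = i.castSucc then (1 : k) else 0)
      (fun (j : Fin 4) (i : Fin 3) => if j = i.succ then (1 : k) else 0) i j =
      if i = j then 1 else 0 := by
  fin_cases i <;> fin_cases j <;> simp [pc, d3, Fin.succAbove, Fin.ext_iff, CharTwo.neg_eq]

lemma rs_std (a b : Fin 4 → k) :
    rs a b (fun (j : Fin 4) (i : Fin 3) => if j = i.castSucc then (1 : k) else 0)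
      (fun (j : Fin 4) (i : Fin 3) => if j = i.succ then (1 : k) else 0) = (sylvMat a b).det := by
  have h1 : ∀ a : Fin 4 → k, cub a (fun (j : Fin 4) (i : Fin 3) => if j = i.castSucc then (1 : k)
      else 0) (fun (j : Fin 4) (i : Fin 3) => if j = i.succ then (1 : k) else 0) = a := by
    intro a
    ext1 i
    simp only [cub, pc_std]
    simp
  rw [rs, h1, h1]

/-- The resultant does not vanish when the hyperplane is close to the standard one. -/
lemma rs_ne_zero_of_close {V : ValuationSubring k} {a b : Fin 4 → k}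
    {G₁ G₂ : (Fin 4 ⊕ Fin 4) → (Fin 4 ⊕ Fin 4) → k} (ha : ∀ j, a j ∈ V) (hb : ∀ j, b j ∈ V)
    (hG₁ : ∀ i j, G₁ i j ∈ V) (hG₂ : ∀ i j, G₂ i j ∈ V)
    (h0 : rs a b (nr G₁ 0) (nr G₂ 0) ∉ V.nonunits) {m : Fin 3 → k} (hm : ∀ i, m i ∈ V.nonunits) :
    rs a b (nr G₁ m) (nr G₂ m) ≠ 0 := by
  set f := IsLocalRing.residue V with hf
  let a' : Fin 4 → V := fun j => ⟨a j, ha j⟩
  let b' : Fin 4 → V := fun j => ⟨b j, hb j⟩
  let G₁' : (Fin 4 ⊕ Fin 4) → (Fin 4 ⊕ Fin 4) → V := fun i j => ⟨G₁ i j, hG₁ i j⟩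
  let G₂' : (Fin 4 ⊕ Fin 4) → (Fin 4 ⊕ Fin 4) → V := fun i j => ⟨G₂ i j, hG₂ i j⟩
  let m' : Fin 3 → V := fun i => ⟨m i, nonunits_mem (hm i)⟩
  have key : ∀ M : Fin 3 → V, ((rs a' b' (nr G₁' M) (nr G₂' M) : V) : k) =
      rs a b (nr G₁ fun i => (M i : k)) (nr G₂ fun i => (M i : k)) := by
    intro M
    have h1 := rs_map V.subtype a' b' (nr G₁' M) (nr G₂' M)
    simp only [nr_map] at h1
    exact h1
  have hres : f (rs a' b' (nr G₁' m') (nr G₂' m')) = f (rs a' b' (nr G₁' 0) (nr G₂' 0)) := by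
    rw [rs_map, rs_map]
    simp only [nr_map]
    have h2 : (fun i => f (m' i)) = fun i => f ((0 : Fin 3 → V) i) := by
      ext i
      rw [Pi.zero_apply, map_zero]
      exact residue_of_mem_nonunits (hm i)
    rw [h2]
  intro h3
  apply h0
  have h4 : rs a' b' (nr G₁' m') (nr G₂' m') = 0 := by
    apply Subtype.ext
    rw [key]
    exact h3
  rw [h4, map_zero] at hres
  have h5 := mem_nonunits_of_residue hres.symm
  rw [key] at h5
  exact h5

end

end Pool.Agent.Helper26
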