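import Mathlib
import Pool.Agent.Helper26.HP8

set_option autoImplicit false
set_option linter.unusedSectionVars false

/-!
# The Hasse principle in eight variables, normal form, II
-/

universe u v

namespace Pool.Agent.Helper26

open Matrix Finset

/-- The Hasse principle for a pair of forms in eight variables with a smooth hyperplane section
in normal form. -/
theorem hp_eight_normal {F : Type v} {k : Type u} [Field F] [Finite F] [CharP F 2] [Field k]
    [CharP k 2] {φ : RatFunc F →+* k} (hφ : GoodEmb φ) [Infinite k]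
    {G₁ G₂ : (Fin 4 ⊕ Fin 4) → (Fin 4 ⊕ Fin 4) → k} {a b : Fin 4 → k}
    {h₁ h₂ : Fin 3 → Fin 3 → k}
    (iso₁ : ∀ i j, pm G₁ (Sum.inl i) (Sum.inl j) = 0)
    (iso₂ : ∀ i j, pm G₂ (Sum.inl i) (Sum.inl j) = 0)
    (hn₁ : ∀ (j : Fin 4) (i : Fin 3), pm G₁ (Sum.inl j) (Sum.inr i.castSucc) =
      if j = i.castSucc then 1 else 0)
    (hn₂ : ∀ (j : Fin 4) (i : Fin 3), pm G₂ (Sum.inl j) (Sum.inr i.castSucc) =
      if j = i.succ then 1 else 0)
    (hg₁ : ∀ (x : Fin 4 → k) (c : Fin 3 → k), qf G₁ (Sum.elim x ![c 0, c 1, c 2, 0]) = Q1 a h₁ x c)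
    (hg₂ : ∀ (x : Fin 4 → k) (c : Fin 3 → k), qf G₂ (Sum.elim x ![c 0, c 1, c 2, 0]) = Q2 b h₂ x c)
    (ha3 : a 3 ≠ 0) (hs : (sylvMat a b).det ≠ 0)
    (hloc : ∀ V : ValuationSubring k, V ≠ ⊤ → ∃ (l₀ : Fin 4 → k) (ρ : k), ρ ≠ 0 ∧
      ∀ l : Fin 4 → k, (∀ i, (l i - l₀ i) / ρ ∈ V) → LocH V G₁ G₂ l) :
    ∃ z : Fin 4 ⊕ Fin 4 → k, z ≠ 0 ∧ qf G₁ z = 0 ∧ qf G₂ z = 0 := by
  classical
  -- the bad places
  set R₀ := rs a b (nr G₁ 0) (nr G₂ 0) with hR₀
  have hR₀0 : R₀ ≠ 0 := by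
    have e1 : nr G₁ 0 = fun (j : Fin 4) (i : Fin 3) => if j = i.castSucc then (1 : k) else 0 := by
      ext j i
      rw [nr, hn₁, Pi.zero_apply, zero_mul, add_zero]
    have e2 : nr G₂ 0 = fun (j : Fin 4) (i : Fin 3) => if j = i.succ then (1 : k) else 0 := by
      ext j i
      rw [nr, hn₂, Pi.zero_apply, zero_mul, add_zero]
    rw [hR₀, e1, e2, rs_std]
    exact hs
  have hSfin : ({V | V ≠ ⊤ ∧ φ RatFunc.X ∈ V ∧ Nat.card (IsLocalRing.ResidueField V) ≤ 7} ∪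
      {V | φ RatFunc.X ∉ V} ∪
      (⋃ j, {V | a j ∉ V}) ∪ (⋃ j, {V | b j ∉ V}) ∪ (⋃ q : Fin 3 × Fin 3, {V | h₁ q.1 q.2 ∉ V}) ∪
      (⋃ q : Fin 3 × Fin 3, {V | h₂ q.1 q.2 ∉ V}) ∪ {V | (a 3)⁻¹ ∉ V} :
      Set (ValuationSubring k)).Finite := by
    refine ((((((hφ.finite_card 7).union (hφ.hfin _)).union ?_).union ?_).union ?_).union
      ?_).union (hφ.hfin _)
    · exact Set.finite_iUnion fun j => hφ.hfin _
    · exact Set.finite_iUnion fun j => hφ.hfin _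
    · exact Set.finite_iUnion fun j => hφ.hfin _
    · exact Set.finite_iUnion fun j => hφ.hfin _
  set S : Finset (ValuationSubring k) := hSfin.toFinset.filter fun V => V ≠ ⊤ with hS
  have hgood : ∀ V : ValuationSubring k, V ≠ ⊤ → V ∉ S → 8 ≤ Nat.card (IsLocalRing.ResidueField V) ∧
      (∀ j, a j ∈ V) ∧ (∀ j, b j ∈ V) ∧ (∀ i j, h₁ i j ∈ V) ∧ (∀ i j, h₂ i j ∈ V) ∧
      (a 3)⁻¹ ∈ V := by
    intro V hVt hVS
    have h1 : V ∉ hSfin.toFinset := fun h => hVS (Finset.mem_filter.2 ⟨h, hVt⟩)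
    rw [Set.Finite.mem_toFinset] at h1
    simp only [Set.mem_union, Set.mem_iUnion, Set.mem_ofPred_eq, not_or, not_exists,
      not_not] at h1
    obtain ⟨⟨⟨⟨⟨⟨h1, h2⟩, h3⟩, h4⟩, h5⟩, h6⟩, h7⟩ := h1
    refine ⟨?_, h3, h4, fun i j => h5 (i, j), fun i j => h6 (i, j), h7⟩
    by_contra hcon
    exact h1 ⟨hVt, h2, by omega⟩
  -- the auxiliary place
  obtain ⟨V₀, hV₀⟩ : ∃ V₀ : ValuationSubring k, V₀ ≠ ⊤ ∧ V₀ ∉ S ∧
      (∀ q : (Fin 4 ⊕ Fin 4) × (Fin 4 ⊕ Fin 4), G₁ q.1 q.2 ∈ V₀) ∧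
      (∀ q : (Fin 4 ⊕ Fin 4) × (Fin 4 ⊕ Fin 4), G₂ q.1 q.2 ∈ V₀) ∧ R₀⁻¹ ∈ V₀ := by
    have hfin : ({V | V ∈ S} ∪ (⋃ q : (Fin 4 ⊕ Fin 4) × (Fin 4 ⊕ Fin 4), {V | G₁ q.1 q.2 ∉ V}) ∪
      (⋃ q : (Fin 4 ⊕ Fin 4) × (Fin 4 ⊕ Fin 4), {V | G₂ q.1 q.2 ∉ V}) ∪ {V | R₀⁻¹ ∉ V} :
      Set (ValuationSubring k)).Finite := by
      refine (((Finset.finite_toSet S).union ?_).union ?_).union (hφ.hfin _)
      · exact Set.finite_iUnion fun j => hφ.hfin _
      · exact Set.finite_iUnion fun j => hφ.hfin _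
    obtain ⟨V₀, hV₀t, hV₀⟩ := (hφ.infinite_places.sdiff hfin).nonempty
    simp only [Set.mem_union, Set.mem_iUnion, Set.mem_ofPred_eq, not_or, not_exists,
      not_not] at hV₀
    obtain ⟨⟨⟨h1, h2⟩, h3⟩, h4⟩ := hV₀
    exact ⟨V₀, hV₀t, h1, h2, h3, h4⟩
  obtain ⟨hV₀t, hV₀S, hV₀1, hV₀2, hV₀R⟩ := hV₀
  obtain ⟨π₀, hπ₀0, hπ₀⟩ := exists_nonunit hV₀t
  choose! L P hP0 hP using hloc
  -- weak approximation
  set T := insert V₀ S with hT
  have hTr : ∀ V ∈ T, IsRankOne V ∧ V ≠ ⊤ := by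
    intro V hV
    rcases Finset.mem_insert.1 hV with rfl | h
    · exact ⟨hφ.rankOne hV₀t, hV₀t⟩
    · have := (Finset.mem_filter.1 h).2
      exact ⟨hφ.rankOne this, this⟩
  have hwa : ∀ i : Fin 4, ∃ l : k, (∀ V ∈ S, (l - L V i) / P V ∈ V) ∧
      (l - (if i = 3 then 1 else 0)) / π₀ ∈ V₀ := by
    intro i
    obtain ⟨l, hl⟩ := weak_approx T hTr (fun V => if V ∈ S then L V i else (if i = 3 then 1 else 0))
      (fun V => if V ∈ S then P V else π₀) (by
        intro V _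
        by_cases h : V ∈ S
        · simp only [h, if_true]
          exact hP0 V (Finset.mem_filter.1 h).2
        · simp only [h, if_false]; exact hπ₀0)
    refine ⟨l, ?_, ?_⟩
    · intro V hV
      have := hl V (Finset.mem_insert_of_mem hV)
      simpa only [hV, if_true] using this
    · have := hl V₀ (Finset.mem_insert_self _ _)
      simpa only [hV₀S, if_false] using this
  choose l hlS hl0 using hwa
  have hnear : ∀ i : Fin 4, i ≠ 3 → l i ∈ V₀.nonunits := by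
    intro i hi
    have h1 := hl0 i
    rw [if_neg hi, sub_zero] at h1
    have : l i = π₀ * (l i / π₀) := by field_simp
    rw [this]
    exact nonunits_mul hπ₀ h1
  have hl3 : l 3 ≠ 0 ∧ (l 3)⁻¹ ∈ V₀ := by
    have h1 := hl0 3
    rw [if_pos rfl] at h1
    have : l 3 = 1 + π₀ * ((l 3 - 1) / π₀) := by field_simp; ring
    rw [this]
    exact one_add_unit (nonunits_mul hπ₀ h1)
  set m : Fin 3 → k := fun i => l i.castSucc / l 3 with hm
  have hmn : ∀ i, m i ∈ V₀.nonunits := by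
    intro i
    have h1 : i.castSucc ≠ (3 : Fin 4) := by
      intro h
      have := congrArg Fin.val h
      simp only [Fin.val_castSucc] at this
      change (i : ℕ) = 3 at this
      omega
    simp only [hm, div_eq_mul_inv]
    exact nonunits_mul (hnear _ h1) hl3.2
  obtain ⟨-, ga, gb, -, -, -⟩ := hgood V₀ hV₀t hV₀S
  have hRm : rs a b (nr G₁ m) (nr G₂ m) ≠ 0 := by
    refine rs_ne_zero_of_close (V := V₀) ga gb (fun i j => hV₀1 (i, j)) (fun i j => hV₀2 (i, j))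
      ?_ hmn
    intro h
    have := nonunits_mul h hV₀R
    rw [← hR₀, mul_inv_cancel₀ hR₀0] at this
    exact one_notMem_nonunits V₀ this
  -- the Jacobian condition
  have hc : CharP (AlgebraicClosure k) 2 :=
    charP_of_injective_algebraMap (algebraMap k (AlgebraicClosure k)).injective 2
  set f := algebraMap k (AlgebraicClosure k) with hf
  have hG : ∀ (G : (Fin 4 ⊕ Fin 4) → (Fin 4 ⊕ Fin 4) → k) (a : Fin 4 → k),
      (∀ i j, pm G (Sum.inl i) (Sum.inl j) = 0) →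
      (∀ x : Fin 4 → k, qf G (Sum.elim x 0) = ∑ j, a j * x j ^ 2) →
      (∀ i j, pm (fun i j => f (G i j)) (Sum.inl i) (Sum.inl j) = 0) ∧
      ∀ x : Fin 4 → AlgebraicClosure k, qf (fun i j => f (G i j)) (Sum.elim x 0) =
        ∑ j, f (a j) * x j ^ 2 := by
    intro G a hiso hqa
    have hiso' : ∀ i j, pm (fun i j => f (G i j)) (Sum.inl i) (Sum.inl j) = 0 := by
      intro i j
      rw [← pm_map, Matrix.map_apply, hiso, map_zero]
    refine ⟨hiso', ?_⟩
    have hdiag : ∀ j, G (Sum.inl j) (Sum.inl j) = a j := by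
      intro j
      have h1 := hqa (Pi.single j 1)
      have h2 : (Sum.elim (Pi.single j (1 : k)) (0 : Fin 4 → k)) = Pi.single (Sum.inl j) 1 := by
        ext1 i
        rcases i with i | i
        · simp [Pi.single_apply]
        · simp
      rw [h2] at h1
      simpa [qf, Pi.single_apply] using h1
    intro x
    have h3 : Sum.elim x (0 : Fin 4 → AlgebraicClosure k) =
        x 0 • Pi.single (Sum.inl 0) 1 + x 1 • Pi.single (Sum.inl 1) 1 +
        x 2 • Pi.single (Sum.inl 2) 1 + x 3 • Pi.single (Sum.inl 3) 1 := by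
      ext1 i
      rcases i with i | i
      · fin_cases i <;> simp [Pi.single_apply]
      · simp
    rw [h3]
    have h4 := qf_isotropic (fun i j => f (G i j))
      (fun j : Fin 4 => (Pi.single (Sum.inl j) 1 : Fin 4 ⊕ Fin 4 → AlgebraicClosure k)) (by
        intro i j
        rw [single_dotProduct, one_mul, Matrix.mulVec_single_one]
        exact hiso' i j) x
    rw [h4, Fin.sum_univ_four]
    have h5 : ∀ j : Fin 4, qf (fun i j => f (G i j))
        (Pi.single (Sum.inl j) 1 : Fin 4 ⊕ Fin 4 → AlgebraicClosure k) = f (a j) := by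
      intro j
      rw [← hdiag j]
      simp [qf, Pi.single_apply]
    rw [h5, h5, h5, h5]
  have hx0 : ∀ x : Fin 4 → k, (Sum.elim x (0 : Fin 4 → k)) =
      Sum.elim x ![(0 : Fin 3 → k) 0, (0 : Fin 3 → k) 1, (0 : Fin 3 → k) 2, 0] := by
    intro x
    ext1 i
    rcases i with i | i
    · rfl
    · fin_cases i <;> rfl
  have hqa : ∀ x : Fin 4 → k, qf G₁ (Sum.elim x 0) = ∑ j, a j * x j ^ 2 := by
    intro x
    rw [hx0, hg₁]
    simp [Q1, phi, lin1, quad, Fin.sum_univ_four]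
  have hqb : ∀ x : Fin 4 → k, qf G₂ (Sum.elim x 0) = ∑ j, b j * x j ^ 2 := by
    intro x
    rw [hx0, hg₂]
    simp [Q2, phi, lin2, quad, Fin.sum_univ_four]
  have hjac : JacInd (fun i j => f (pull G₁ (tb m) i j)) (fun i j => f (pull G₂ (tb m) i j)) := by
    have h1 := jacInd_section (hG G₁ a iso₁ hqa).1 (hG G₂ b iso₂ hqb).1 (hG G₁ a iso₁ hqa).2
      (hG G₂ b iso₂ hqb).2 (fun i => f (m i)) (by
        have h2 := rs_map f a b (nr G₁ m) (nr G₂ m)
        simp only [nr_map] at h2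
        rw [← h2]
        rw [Ne, map_eq_zero]
        exact hRm)
    simp only [pull_map, tb_map]
    exact h1
  obtain ⟨w, hw0, hw1, hw2⟩ := hp_seven_app hφ (m := 6) rfl (pull G₁ (tb m)) (pull G₂ (tb m)) hjac
    (by
      intro V hV
      apply locQ_of_locH hl3.1
      by_cases hVS : V ∈ S
      · exact hP V hV l fun i => hlS i V hVS
      · obtain ⟨hcard, ga, gb, gh₁, gh₂, ga3⟩ := hgood V hV hVS
        have := hφ.finite_residue hV
        refine locH_good hV (hφ.rankOne hV) hcard ga gb gh₁ gh₂ ?_ hg₁ hg₂ l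
        intro h
        have := nonunits_mul h ga3
        rw [mul_inv_cancel₀ ha3] at this
        exact one_notMem_nonunits V this)
  rw [qf_pull, comb_tb] at hw1 hw2
  exact ⟨emb m w, emb_ne_zero hw0, hw1, hw2⟩

end Pool.Agent.Helper26
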