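import Mathlib
import Pool.Agent.Helper26.HP8b

set_option autoImplicit false
set_option linter.unusedSectionVars false

/-!
# The Hasse principle in eight variables, given a good hyperplane
-/

universe u v

namespace Pool.Agent.Helper26

open Matrix Finset

section

variable {k : Type*} [Field k] {L : Type*} [Field L] {n ι : Type*} [Fintype n] [Fintype ι]

lemma vecMul_comb {R : Type*} [CommRing R] (e : ι ≃ n) (T : ι → n → R) (u : n → R) :
    Matrix.vecMul u (Matrix.of fun i => T (e.symm i)) = comb T (fun i => u (e i)) := by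
  ext1 j
  simp only [Matrix.vecMul, dotProduct, Matrix.of_apply, comb]
  rw [← Equiv.sum_comp e]
  simp

lemma comb_surj (e : ι ≃ n) (T : ι → n → k) (hinj : ∀ w, comb T w = 0 → w = 0) (f : k →+* L)
    (z : n → L) : ∃ w : ι → L, comb (fun i j => f (T i j)) w = z := by
  classical
  set P : Matrix n n k := Matrix.of fun i => T (e.symm i) with hP
  have hdet : P.det ≠ 0 := by
    intro h0
    obtain ⟨v, hv0, hv⟩ := Matrix.exists_vecMul_eq_zero_iff.2 h0
    rw [hP, vecMul_comb] at hv
    have h1 := hinj _ hv
    apply hv0
    ext i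
    obtain ⟨s, rfl⟩ := e.surjective i
    exact congrFun h1 s
  set P' : Matrix n n L := Matrix.of fun i => (fun i j => f (T i j)) (e.symm i) with hP'
  have hPP' : P' = f.mapMatrix P := by
    ext i j
    rfl
  have hdet' : IsUnit P'.det := by
    rw [hPP', ← RingHom.map_det, isUnit_iff_ne_zero, Ne, map_eq_zero]
    exact hdet
  refine ⟨fun i => (Matrix.vecMul z P'⁻¹) (e i), ?_⟩
  rw [← vecMul_comb, ← hP', Matrix.vecMul_vecMul, Matrix.nonsing_inv_mul _ hdet', Matrix.vecMul_one]

lemma comb_map {R S : Type*} [CommRing R] [CommRing S] (f : R →+* S) (T : ι → n → R) (w : ι → R) :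
    (fun j => f (comb T w j)) = comb (fun i j => f (T i j)) (fun i => f (w i)) := by
  ext1 j
  simp [comb, map_sum]

/-- The linear map attached to a family of vectors. -/
def combL (T : ι → n → k) : (ι → k) →ₗ[k] (n → k) where
  toFun := comb T
  map_add' := by
    intro x y
    ext j
    simp [comb, add_mul, Finset.sum_add_distrib]
  map_smul' := by
    intro c x
    ext j
    simp [comb, Finset.mul_sum, mul_assoc]

/-- A vector orthogonal to a basis vanishes. -/
lemma eq_zero_of_dot_comb (e : ι ≃ n) (T : ι → n → k) (hinj : ∀ w, comb T w = 0 → w = 0)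
    (v : n → k) (hv : ∀ i, T i ⬝ᵥ v = 0) : v = 0 := by
  classical
  ext j
  obtain ⟨w, hw⟩ := comb_surj e T hinj (RingHom.id k) (Pi.single j 1)
  simp only [RingHom.id_apply] at hw
  have h1 : comb T w ⬝ᵥ v = v j := by
    have : (comb T w) = Pi.single j 1 := hw
    rw [this, single_dotProduct, one_mul]
  rw [Pi.zero_apply, ← h1]
  have h2 : comb T w ⬝ᵥ v = ∑ i, w i * (T i ⬝ᵥ v) := by
    simp only [comb, dotProduct, Finset.sum_mul, Finset.mul_sum]
    rw [Finset.sum_comm]
    refine Finset.sum_congr rfl fun i _ => Finset.sum_congr rfl fun j _ => ?_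
    ring
  rw [h2]
  simp [hv]

end

section

variable {k : Type*} [Field k] [CharP k 2]

/-- Smooth zeros. -/
def IsSmoothZero {n : Type*} [Fintype n] {R : Type*} [CommRing R] (g₁ g₂ : n → n → R)
    (z : n → R) : Prop :=
  z ≠ 0 ∧ qf g₁ z = 0 ∧ qf g₂ z = 0 ∧
    ∀ a b : R, (a • pm g₁ + b • pm g₂).mulVec z = 0 → a = 0 ∧ b = 0

end

theorem hp_eight {F : Type v} {k : Type u} [Field F] [Finite F] [CharP F 2] [Field k]
    [CharP k 2] {φ : RatFunc F →+* k} (hφ : GoodEmb φ) [Infinite k]
    (G₁ G₂ : Fin 8 → Fin 8 → k) (T : Fin 7 → Fin 8 → k) (hT : ∀ w, comb T w = 0 → w = 0)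
    (hjac : JacInd (fun i j => algebraMap k (AlgebraicClosure k) (pull G₁ T i j))
      (fun i j => algebraMap k (AlgebraicClosure k) (pull G₂ T i j)))
    (hloc : ∀ V : ValuationSubring k, V ≠ ⊤ → ∃ z : Fin 8 → V.valuation.Completion,
      IsSmoothZero (fun i j => toCompletion V (G₁ i j)) (fun i j => toCompletion V (G₂ i j)) z) :
    ∃ z : Fin 8 → k, z ≠ 0 ∧ qf G₁ z = 0 ∧ qf G₂ z = 0 := by
  classical
  obtain ⟨r, p, y, hfr, h3, hdet, hinj⟩ := exists_frame (m := 6) rfl (pull G₁ T) (pull G₂ T) hjac
  -- the new pair
  set H₁ : Fin 8 → Fin 8 → k := fun i j => r * G₁ i j + G₂ i j with hH₁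
  have hpull : (fun i j => r * pull G₁ T i j + pull G₂ T i j) = pull H₁ T := by
    ext i j
    simp only [pull, hH₁, Finset.mul_sum, ← Finset.sum_add_distrib]
    refine Finset.sum_congr rfl fun l _ => Finset.sum_congr rfl fun l' _ => ?_
    ring
  rw [hpull] at hfr h3 hdet
  -- a vector outside the hyperplane
  obtain ⟨Y, hY⟩ : ∃ Y : Fin 8 → k, Y ∉ LinearMap.range (combL T) := by
    by_contra hcon
    push Not at hcon
    have h1 : LinearMap.range (combL T) = ⊤ := by
      rw [eq_top_iff]
      intro x _
      exact hcon x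
    have h2 := (combL T).finrank_range_add_finrank_ker
    rw [h1, finrank_top, Module.finrank_fin_fun, Module.finrank_fin_fun] at h2
    omega
  set TT : Fin 4 ⊕ Fin 4 → Fin 8 → k := Sum.elim (fun j => comb T (p j))
    ![comb T (y 0), comb T (y 1), comb T (y 2), Y] with hTT
  have hTTr : ∀ i : Fin 3, TT (Sum.inr i.castSucc) = comb T (y i) := by
    intro i
    fin_cases i <;> rfl
  have hcombTT : ∀ w : Fin 4 ⊕ Fin 4 → k, comb TT w =
      comb T (frameVec p y (fun j => w (Sum.inl j)) (fun i => w (Sum.inr i.castSucc))) +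
      w (Sum.inr 3) • Y := by
    intro w
    have e1 : comb T (frameVec p y (fun j => w (Sum.inl j)) (fun i => w (Sum.inr i.castSucc))) =
        (w (Sum.inl 0) • comb T (p 0) + w (Sum.inl 1) • comb T (p 1) +
        w (Sum.inl 2) • comb T (p 2) + w (Sum.inl 3) • comb T (p 3)) +
        (w (Sum.inr 0) • comb T (y 0) + w (Sum.inr 1) • comb T (y 1) +
        w (Sum.inr 2) • comb T (y 2)) := by
      change combL T _ = _
      rw [frameVec]
      simp only [map_add, map_smul]
      rfl
    rw [e1]
    ext1 l
    simp only [comb, Fintype.sum_sum_type, Fin.sum_univ_four, hTT, Sum.elim_inl, Sum.elim_inr,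
      Pi.add_apply, Pi.smul_apply, smul_eq_mul, Matrix.cons_val_zero, Matrix.cons_val_one,
      Matrix.cons_val]
    ring
  have hTTinj : ∀ w, comb TT w = 0 → w = 0 := by
    intro w hw
    rw [hcombTT] at hw
    have h1 : w (Sum.inr 3) = 0 := by
      by_contra hne
      apply hY
      have h2 : Y = -((w (Sum.inr 3))⁻¹ • comb T (frameVec p y (fun j => w (Sum.inl j))
          (fun i => w (Sum.inr i.castSucc)))) := by
        have h3 := eq_neg_of_add_eq_zero_right hw
        rw [← smul_neg, ← h3, smul_smul, inv_mul_cancel₀ hne, one_smul]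
      rw [h2]
      exact neg_mem (Submodule.smul_mem _ _ ⟨_, rfl⟩)
    rw [h1, zero_smul, add_zero] at hw
    obtain ⟨h2, h3⟩ := hinj _ _ (hT _ hw)
    ext1 i
    rcases i with i | i
    · exact congrFun h2 i
    · fin_cases i
      · exact congrFun h3 0
      · exact congrFun h3 1
      · exact congrFun h3 2
      · exact h1
  have e : Fin 4 ⊕ Fin 4 ≃ Fin 8 := finSumFinEquiv
  -- the forms in the new coordinates
  have hdotT : ∀ (G : Fin 8 → Fin 8 → k) (u v : Fin 7 → k),
      comb T u ⬝ᵥ (pm G).mulVec (comb T v) = u ⬝ᵥ (pm (pull G T)).mulVec v := by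
    intro G u v
    have h1 : u ⬝ᵥ (pm (pull G T)).mulVec v = ∑ i, u i * (T i ⬝ᵥ (pm G).mulVec (comb T v)) := by
      simp only [dotProduct]
      refine Finset.sum_congr rfl fun i _ => ?_
      rw [mulVec_pull]
      rfl
    rw [h1]
    simp only [dotProduct, comb, Finset.sum_mul, Finset.mul_sum]
    rw [Finset.sum_comm]
    refine Finset.sum_congr rfl fun i _ => Finset.sum_congr rfl fun j _ => ?_
    ring
  have hq : ∀ (G : Fin 8 → Fin 8 → k) (x : Fin 4 → k) (c : Fin 3 → k),
      qf (pull G TT) (Sum.elim x ![c 0, c 1, c 2, 0]) = qf (pull G T) (frameVec p y x c) := by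
    intro G x c
    rw [qf_pull, qf_pull, hcombTT]
    congr 1
    have h1 : (fun i : Fin 3 => (Sum.elim x ![c 0, c 1, c 2, 0] : Fin 4 ⊕ Fin 4 → k)
        (Sum.inr i.castSucc)) = c := by
      ext i; fin_cases i <;> rfl
    rw [h1]
    have h2 : (Sum.elim x ![c 0, c 1, c 2, 0] : Fin 4 ⊕ Fin 4 → k) (Sum.inr 3) = 0 := rfl
    rw [h2, zero_smul, add_zero]
    rfl
  obtain ⟨z, hz0, hz1, hz2⟩ := hp_eight_normal hφ (G₁ := pull H₁ TT) (G₂ := pull G₁ TT)
    (a := fun j => qf (pull H₁ T) (p j)) (b := fun j => qf (pull G₁ T) (p j))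
    (h₁ := gramY (pull H₁ T) y) (h₂ := gramY (pull G₁ T) y)
    (by
      intro i j
      rw [pm_pull]
      change comb T (p i) ⬝ᵥ (pm H₁).mulVec (comb T (p j)) = 0
      rw [hdotT, hfr.iso₁])
    (by
      intro i j
      rw [pm_pull]
      change comb T (p i) ⬝ᵥ (pm G₁).mulVec (comb T (p j)) = 0
      rw [hdotT, hfr.iso₂])
    (by
      intro j i
      rw [pm_pull, hTTr]
      change comb T (p j) ⬝ᵥ (pm H₁).mulVec (comb T (y i)) = _
      rw [hdotT, dot_symm (pm_symm _), hfr.dual₁])
    (by
      intro j i
      rw [pm_pull, hTTr]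
      change comb T (p j) ⬝ᵥ (pm G₁).mulVec (comb T (y i)) = _
      rw [hdotT, dot_symm (pm_symm _), hfr.dual₂])
    (by
      intro x c
      rw [hq, qf_frame₁ _ p y hfr.iso₁ hfr.dual₁])
    (by
      intro x c
      rw [hq, qf_frame₂ _ p y hfr.iso₂ hfr.dual₂])
    h3 hdet
    (by
      intro V hV
      obtain ⟨z, hz0, hz1, hz2, hsm⟩ := hloc V hV
      set f := toCompletion V with hf
      obtain ⟨w, hw⟩ := comb_surj e TT hTTinj f z
      have hTTf : ∀ w, comb (fun i j => f (TT i j)) w = 0 → w = 0 := by
        -- the transported matrix is invertible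
        intro w hw
        obtain ⟨B, hB⟩ : ∃ B : Fin 4 ⊕ Fin 4 → Fin 8 → k, ∀ i j,
            ∑ l, TT i l * B j l = if i = j then 1 else 0 := by
          have h1 : ∀ j : Fin 4 ⊕ Fin 4, ∃ v : Fin 8 → k, ∀ i, ∑ l, TT i l * v l =
              if i = j then 1 else 0 := by
            have hsurj : Function.Surjective (fun v : Fin 8 → k => fun i => ∑ l, TT i l * v l) := by
              let ψ : (Fin 8 → k) →ₗ[k] (Fin 4 ⊕ Fin 4 → k) :=
                { toFun := fun v i => ∑ l, TT i l * v l
                  map_add' := by
                    intro x y; ext i; simp [mul_add, Finset.sum_add_distrib]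
                  map_smul' := by
                    intro c x; ext i; simp [Finset.mul_sum, mul_left_comm] }
              have hψ : Function.Injective ψ := by
                rw [← LinearMap.ker_eq_bot, LinearMap.ker_eq_bot']
                intro v hv
                exact eq_zero_of_dot_comb e TT hTTinj v fun i => congrFun hv i
              have := LinearMap.injective_iff_surjective_of_finrank_eq_finrank (f := ψ) (by
                rw [Module.finrank_fin_fun, Module.finrank_fintype_fun_eq_card]
                rfl)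
              exact this.1 hψ
            intro j
            obtain ⟨v, hv⟩ := hsurj fun i => if i = j then 1 else 0
            exact ⟨v, fun i => congrFun hv i⟩
          choose B hB using h1
          exact ⟨B, fun i j => hB j i⟩
        ext1 j
        have h2 : ∑ l, comb (fun i j => f (TT i j)) w l * f (B j l) = w j := by
          simp only [comb, Finset.sum_mul]
          rw [Finset.sum_comm]
          have h3 : ∀ i, ∑ l, w i * f (TT i l) * f (B j l) = w i * if i = j then 1 else 0 := by
            intro i
            have h4 := congrArg f (hB i j)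
            rw [map_sum] at h4
            simp only [map_mul] at h4
            rw [apply_ite f, map_one, map_zero] at h4
            rw [← h4, Finset.mul_sum]
            refine Finset.sum_congr rfl fun l _ => ?_
            ring
          simp only [h3]
          simp
        rw [← h2, hw]
        simp
      have hH₁z : qf (fun i j => f (H₁ i j)) z = 0 := by
        have h5 := qf_change (fun i j => f (G₁ i j)) (fun i j => f (G₂ i j)) (f r) z
        simp only [hH₁, map_add, map_mul]
        rw [h5, hz1, hz2]
        ring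
      refine exists_ball hV (hφ.rankOne hV) f (v_toCompletion_le_one V) (denseRange_toCompletion V)
        (pull H₁ TT) (pull G₁ TT) w ?_ ?_ ?_ ?_
      · rintro rfl
        apply hz0
        rw [← hw]
        ext j
        simp [comb]
      · simp only [pull_map]
        have := qf_pull (fun i j => f (H₁ i j)) (fun i j => f (TT i j)) w
        rw [hw, hH₁z] at this
        exact this
      · simp only [pull_map]
        have := qf_pull (fun i j => f (G₁ i j)) (fun i j => f (TT i j)) w
        rw [hw, hz1] at this
        exact this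
      · intro a b hab
        have h6 : (a • pm (fun i j => f (H₁ i j)) + b • pm (fun i j => f (G₁ i j))).mulVec z = 0 := by
          apply eq_zero_of_dot_comb e (fun i j => f (TT i j)) hTTf
          intro i
          have h7 := congrFun hab i
          simp only [pull_map] at h7
          have h8 := mulVec_pull (fun i j => f (H₁ i j)) (fun i j => f (TT i j)) w i
          have h9 := mulVec_pull (fun i j => f (G₁ i j)) (fun i j => f (TT i j)) w i
          rw [hw] at h8 h9
          rw [Matrix.add_mulVec, Matrix.smul_mulVec, Matrix.smul_mulVec, Pi.add_apply,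
            Pi.smul_apply, Pi.smul_apply] at h7
          rw [Matrix.add_mulVec, Matrix.smul_mulVec, Matrix.smul_mulVec, dotProduct_add,
            dotProduct_smul, dotProduct_smul, ← h8, ← h9]
          exact h7
        have h10 : pm (fun i j => f (H₁ i j)) = f r • pm (fun i j => f (G₁ i j)) +
            (1 : V.valuation.Completion) • pm (fun i j => f (G₂ i j)) := by
          rw [← pm_change]
          congr 1
          ext i j
          simp [hH₁]
        rw [h10, smul_add, smul_smul, smul_smul, mul_one] at h6
        obtain ⟨h11, h12⟩ := hsm (a * f r + b) a (by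
          rw [← h6]
          congr 1
          rw [add_smul]
          abel)
        refine ⟨h12, ?_⟩
        rw [h12, zero_mul, zero_add] at h11
        exact h11)
  rw [qf_pull] at hz1 hz2
  refine ⟨comb TT z, fun h => hz0 (hTTinj z h), hz2, ?_⟩
  rw [hH₁, qf_change, hz2, mul_zero, zero_add] at hz1
  exact hz1

end Pool.Agent.Helper26
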