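import Mathlib
import Pool.Agent.Helper26.HP8c
import Pool.Agent.Helper26.ChAlg
import Pool.Agent.Helper26.Dlog

set_option autoImplicit false
set_option linter.unusedSectionVars false

/-!
# Smooth zeros of the pair attached to a quartic algebra
-/

namespace Pool.Agent.Helper26

open Polynomial Matrix Finset

section

variable {L : Type*} [Field L] [CharP L 2]

/-- A smooth zero of the pair from a point of the norm equation. -/
lemma smooth_of_point {P : L[X]} (hP : P.Monic) (hP4 : P.natDegree = 4) (a : L)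
    {Δ Δ' : L[X]} (hΔ : P ∣ Δ * Δ' - 1) (U Y : L[X])
    (h0 : tau P (Δ' * nf (C a) U Y) = 0) (h1 : tau P (X * (Δ' * nf (C a) U Y)) = 0)
    (h2 : ¬ P ∣ Δ' * nf (C a) U Y) :
    ∃ z : Fin 8 → L, IsSmoothZero (chG P a Δ Δ' 0) (chG P a Δ Δ' 1) z := by
  have hP1 : P ≠ 1 := by rintro rfl; simp at hP4
  have hdiv : ∀ D : L[X], P ∣ D - D %ₘ P := by
    intro D
    have h3 := modByMonic_add_div D P
    exact ⟨D /ₘ P, by linear_combination -h3⟩
  set R₁ := (Δ' * U) %ₘ P with hR₁
  set R₂ := Y %ₘ P with hR₂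
  have hd₁ : P ∣ Δ' * U - R₁ := hdiv _
  have hd₂ : P ∣ Y - R₂ := hdiv _
  have hR₁d : R₁.natDegree < 4 := by
    rw [← hP4]; exact natDegree_modByMonic_lt _ hP hP1
  have hR₂d : R₂.natDegree < 4 := by
    rw [← hP4]; exact natDegree_modByMonic_lt _ hP hP1
  obtain ⟨z, hz1, hz2⟩ := exists_vec hR₁d hR₂d
  -- the quadratic map
  have hQ : P ∣ chQ a Δ Δ' R₁ R₂ - Δ' * nf (C a) U Y := by
    obtain ⟨A₁, hA₁⟩ := hd₁
    obtain ⟨A₂, hA₂⟩ := hd₂
    obtain ⟨A₃, hA₃⟩ := hΔ
    have e1 : R₁ = Δ' * U - P * A₁ := by linear_combination -hA₁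
    have e2 : R₂ = Y - P * A₂ := by linear_combination -hA₂
    have e3 : Δ * Δ' = 1 + P * A₃ := by linear_combination hA₃
    refine ⟨A₃ * Δ' * U ^ 2 + Δ * (P * A₁ ^ 2 - 2 * Δ' * U * A₁) - A₁ * Y - Δ' * U * A₂ +
      P * A₁ * A₂ + C a * Δ' * (P * A₂ ^ 2 - 2 * Y * A₂), ?_⟩
    rw [chQ, nf, e1, e2]
    linear_combination (Δ' * U ^ 2) * e3
  have hsm : ∀ r s : L, (r • pm (chG P a Δ Δ' 0) + s • pm (chG P a Δ Δ' 1)).mulVec z = 0 →
      r = 0 ∧ s = 0 := by
    intro r s hrs
    set ℓ : L[X] := C r + C s * X with hℓ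
    have hmv : ∀ i : Fin 8, tau P (ℓ * (e1 i * R₂ + e2 i * R₁)) = 0 := by
      intro i
      have h3 := congrFun hrs i
      rw [Matrix.add_mulVec, Matrix.smul_mulVec, Matrix.smul_mulVec, Pi.add_apply, Pi.smul_apply,
        Pi.smul_apply, pm_chG_mulVec, pm_chG_mulVec, smul_eq_mul, smul_eq_mul, ← tau_C_mul,
        ← tau_C_mul, ← tau_add, hz1, hz2, Pi.zero_apply] at h3
      rw [← h3, hℓ]
      congr 1
      ring
    have hPY : P ∣ ℓ * R₂ := by
      apply dvd_of_tau hP hP4
      intro i hi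
      have h3 := hmv ⟨i, by omega⟩
      simp only [e1, e2, if_pos hi, zero_mul, add_zero] at h3
      rw [← h3]
      congr 1
      ring
    have hPU : P ∣ ℓ * R₁ := by
      apply dvd_of_tau hP hP4
      intro i hi
      have h3 := hmv ⟨i + 4, by omega⟩
      simp only [e1, e2, if_neg (show ¬ i + 4 < 4 by omega), zero_mul, zero_add,
        Nat.add_sub_cancel] at h3
      rw [← h3]
      congr 1
      ring
    have hPQ : P ∣ ℓ * (Δ' * nf (C a) U Y) := by
      have h3 : P ∣ ℓ * chQ a Δ Δ' R₁ R₂ := by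
        have : ℓ * chQ a Δ Δ' R₁ R₂ = (ℓ * R₁) * (Δ * R₁ + R₂) + (ℓ * R₂) * (C a * Δ' * R₂) := by
          rw [chQ]; ring
        rw [this]
        exact dvd_add (hPU.mul_right _) (hPY.mul_right _)
      have h4 : ℓ * (Δ' * nf (C a) U Y) = ℓ * chQ a Δ Δ' R₁ R₂ -
          ℓ * (chQ a Δ Δ' R₁ R₂ - Δ' * nf (C a) U Y) := by ring
      rw [h4]
      exact dvd_sub h3 (hQ.mul_left _)
    -- the remainder is linear
    set R := (Δ' * nf (C a) U Y) %ₘ P with hR
    have hRd : R.natDegree < 4 := by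
      rw [← hP4]; exact natDegree_modByMonic_lt _ hP hP1
    have hdR : P ∣ Δ' * nf (C a) U Y - R := hdiv _
    have hR0 : R ≠ 0 := by
      intro h3
      apply h2
      rwa [h3, sub_zero] at hdR
    have c3 : R.coeff 3 = 0 := by
      rw [← tau_of_natDegree hP hP4 hRd, ← h0]
      apply tau_eq_of_dvd hP
      rw [← neg_sub, dvd_neg]
      exact hdR
    have hR2 : R.natDegree ≤ 2 := by
      rw [natDegree_le_iff_coeff_eq_zero]
      intro m hm
      rcases Nat.lt_or_ge 3 m with h4 | h4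
      · exact coeff_eq_zero_of_natDegree_lt (by omega)
      · have : m = 3 := by omega
        rw [this]; exact c3
    have c2 : R.coeff 2 = 0 := by
      have h3 : tau P (X * R) = 0 := by
        rw [← h1]
        apply tau_eq_of_dvd hP
        rw [← neg_sub, dvd_neg, ← mul_sub]
        exact hdR.mul_left _
      rw [tau_of_natDegree hP hP4 (by
        have h8 := natDegree_mul_le (p := (X : L[X])) (q := R)
        rw [natDegree_X] at h8
        omega), coeff_X_mul] at h3
      exact h3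
    have hR1 : R.natDegree ≤ 1 := by
      rw [natDegree_le_iff_coeff_eq_zero]
      intro m hm
      rcases Nat.lt_or_ge 2 m with h4 | h4
      · exact coeff_eq_zero_of_natDegree_lt (by omega)
      · have : m = 2 := by omega
        rw [this]; exact c2
    have hℓd : ℓ.natDegree ≤ 1 := by
      rw [hℓ, add_comm]
      exact natDegree_linear_le
    have h5 : P ∣ ℓ * R := by
      have h6 : ℓ * R = ℓ * (Δ' * nf (C a) U Y) - ℓ * (Δ' * nf (C a) U Y - R) := by ring
      rw [h6]
      exact dvd_sub hPQ (hdR.mul_left _)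
    have h6 : ℓ * R = 0 := by
      apply eq_zero_of_dvd_of_natDegree_lt h5
      have h8 := natDegree_mul_le (p := ℓ) (q := R)
      omega
    have h7 : ℓ = 0 := (mul_eq_zero.1 h6).resolve_right hR0
    have c0' := congrArg (fun p : L[X] => p.coeff 0) h7
    have c1' := congrArg (fun p : L[X] => p.coeff 1) h7
    simp [hℓ] at c0' c1'
    exact ⟨c0', c1'⟩
  refine ⟨z, ?_, ?_, ?_, hsm⟩
  · rintro rfl
    obtain ⟨h3, -⟩ := hsm 1 0 (by rw [Matrix.mulVec_zero])
    exact one_ne_zero h3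
  · rw [qf_chG, hz1, hz2, pow_zero, one_mul, ← h0]
    exact tau_eq_of_dvd hP hQ
  · rw [qf_chG, hz1, hz2, pow_one, ← h1]
    apply tau_eq_of_dvd hP
    rw [← mul_sub]
    exact hQ.mul_left _

end

end Pool.Agent.Helper26
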