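import Mathlib
import Pool.Agent.Helper26.LocPoint

set_option autoImplicit false
set_option linter.unusedSectionVars false

/-!
# A fixed point lemma over the completions
-/

universe u

namespace Pool.Agent.Helper26

open Finset

/-- A dense embedding of a field with a valuation ring into a valued field. -/
structure CompEmb {k : Type*} [Field k] (V : ValuationSubring k) {L : Type*} [Field L]
    {Γ₀ : Type*} [LinearOrderedCommGroupWithZero Γ₀] [Valued L Γ₀] (f : k →+* L) : Prop where
  mem : ∀ a : k, Valued.v (f a) ≤ 1 ↔ a ∈ V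
  dense : DenseRange f

lemma compEmb {k : Type u} [Field k] (V : ValuationSubring k) : CompEmb V (toCompletion V) :=
  ⟨v_toCompletion_le_one V, denseRange_toCompletion V⟩

section

variable {k : Type*} [Field k] {L : Type*} [Field L] {Γ₀ : Type*}
  [LinearOrderedCommGroupWithZero Γ₀] [Valued L Γ₀] {V : ValuationSubring k} {f : k →+* L}

lemma CompEmb.lt_one (hf : CompEmb V f) {θ : k} (hθ : θ ∈ V.nonunits) : Valued.v (f θ) < 1 := by
  rcases eq_or_ne θ 0 with h0 | h0
  · rw [h0, map_zero, map_zero]; exact zero_lt_one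
  by_contra hcon
  have h1 : Valued.v (f θ⁻¹) ≤ 1 := by
    rw [map_inv₀, map_inv₀]
    exact inv_le_one_of_one_le₀ (not_lt.1 hcon)
  rw [hf.mem, ← ValuationSubring.valuation_le_one_iff, map_inv₀] at h1
  have h2 := (ValuationSubring.mem_nonunits_iff V).1 hθ
  have h3 : 0 < V.valuation θ := by
    rw [zero_lt_iff, Ne, map_eq_zero]; exact h0
  exact absurd ((inv_le_one₀ h3).1 h1) (not_le.2 h2)

/-- Every nonzero element of the completion has the valuation of an element of `k`. -/
lemma CompEmb.val (hf : CompEmb V f) {x : L} (hx : x ≠ 0) :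
    ∃ a : k, a ≠ 0 ∧ Valued.v (f a) = Valued.v x := by
  have h1 : {y | Valued.v y = Valued.v x} ∈ nhds x :=
    Valued.locally_const ((Valuation.ne_zero_iff _).2 hx)
  obtain ⟨a, ha⟩ := hf.dense.exists_mem_open isOpen_interior
    ⟨x, mem_interior_iff_mem_nhds.2 h1⟩
  have h2 : f a ∈ {y : L | Valued.v y = Valued.v x} := interior_subset ha
  have h2' : Valued.v (f a) = Valued.v x := h2
  refine ⟨a, ?_, h2'⟩
  rintro rfl
  rw [map_zero, map_zero] at h2'
  exact hx ((Valuation.zero_iff _).1 h2'.symm)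

/-- Approximation of elements of the completion. -/
lemma CompEmb.approx (hf : CompEmb V f) (x : L) {d : k} (hd : d ≠ 0) :
    ∃ a : k, Valued.v (x - f a) ≤ Valued.v (f d) := by
  have hfd : f d ≠ 0 := by rw [Ne, map_eq_zero]; exact hd
  set g : L → L := fun y => (x - y) / f d with hg
  have hgc : Continuous g := by
    rw [hg]
    exact (continuous_const.sub continuous_id).div_const _
  set O : Set L := ((Valued.v (R := L) (Γ₀ := Γ₀)).integer : Set L) with hO
  have hOo : IsOpen (g ⁻¹' O) := (Valued.isOpen_integer L).preimage hgc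
  obtain ⟨a, ha⟩ := hf.dense.exists_mem_open hOo ⟨x, by
    change Valued.v (g x) ≤ 1
    rw [hg]
    simp⟩
  refine ⟨a, ?_⟩
  have h1 : Valued.v ((x - f a) / f d) ≤ 1 := ha
  rw [map_div₀] at h1
  have h3 : 0 < Valued.v (f d) := by
    rw [zero_lt_iff, Ne, map_eq_zero]; exact hfd
  exact (div_le_one₀ h3).1 h1

lemma CompEmb.pow (hf : CompEmb V f) (hr : IsRankOne V) {θ : k} (hθ : θ ∈ V.nonunits)
    {x : L} (hx : x ≠ 0) : ∃ n : ℕ, Valued.v (f θ) ^ n ≤ Valued.v x := by
  obtain ⟨a, ha0, ha⟩ := hf.val hx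
  obtain ⟨n, hn⟩ := hr θ hθ a ha0
  refine ⟨n, ?_⟩
  rw [← ha, ← map_pow, ← map_pow]
  rw [← hf.mem, map_div₀, map_div₀] at hn
  have h3 : 0 < Valued.v (f a) := by
    rw [zero_lt_iff, Ne, map_eq_zero, map_eq_zero]; exact ha0
  exact (div_le_one₀ h3).1 hn

lemma mul_pow_lt {Γ : Type*} [LinearOrderedCommGroupWithZero Γ] {t y : Γ} (ht : t < 1)
    (hy : 0 < y) {n : ℕ} (h : t ^ n ≤ y) : t ^ n * t < y := by
  rcases eq_or_ne t 0 with h0 | h0
  · rw [h0, mul_zero]; exact hy
  · have h5 : 0 < t ^ n := pow_pos (zero_lt_iff.2 h0) n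
    calc t ^ n * t < t ^ n * 1 := mul_lt_mul_of_pos_left ht h5
      _ = t ^ n := mul_one _
      _ ≤ _ := h

lemma CompEmb.eq_zero (hf : CompEmb V f) (hr : IsRankOne V) {θ : k} (hθ : θ ∈ V.nonunits)
    (x : L) (h : ∀ n : ℕ, Valued.v x ≤ Valued.v (f θ) ^ n) : x = 0 := by
  by_contra hx
  obtain ⟨n, hn⟩ := hf.pow hr hθ hx
  have h1 := h (n + 1)
  have h3 : 0 < Valued.v x := by
    rw [zero_lt_iff, Ne, map_eq_zero]; exact hx
  rw [pow_succ] at h1
  exact absurd h1 (not_le.2 (mul_pow_lt (hf.lt_one hθ) h3 hn))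

/-- Convergence of sequences whose increments tend to zero geometrically. -/
lemma CompEmb.lim [CompleteSpace L] (hf : CompEmb V f) (hr : IsRankOne V) {θ : k}
    (hθ : θ ∈ V.nonunits) (c : ℕ → L)
    (hc : ∀ n, Valued.v (c (n + 1) - c n) ≤ Valued.v (f θ) ^ n) :
    ∃ x : L, ∀ n, Valued.v (x - c n) ≤ Valued.v (f θ) ^ n := by
  have hθ1 : Valued.v (f θ) < 1 := hf.lt_one hθ
  have hcc : ∀ n m, n ≤ m → Valued.v (c m - c n) ≤ Valued.v (f θ) ^ n := by
    intro n m hnm
    induction m, hnm using Nat.le_induction with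
    | base => rw [sub_self, map_zero]; exact zero_le'
    | succ m hm ih =>
      have h1 : c (m + 1) - c n = (c (m + 1) - c m) + (c m - c n) := by ring
      rw [h1]
      refine (Valuation.map_add _ _ _).trans (max_le ?_ ih)
      exact (hc m).trans (pow_le_pow_right_of_le_one' hθ1.le hm)
  have hcau : CauchySeq c := by
    rw [(Valued.hasBasis_uniformity L Γ₀).cauchySeq_iff']
    intro γ _
    obtain ⟨y, hy⟩ := MonoidWithZeroHom.ValueGroup₀.restrict₀_surjective
      (MonoidWithZeroHom.ofClass (Valued.v (R := L) (Γ₀ := Γ₀))) γ.1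
    have hy' : Valued.v.restrict y = γ.1 := hy
    have hy0 : y ≠ 0 := by
      rintro rfl
      rw [map_zero] at hy'
      exact γ.ne_zero hy'.symm
    obtain ⟨n, hn⟩ := hf.pow hr hθ hy0
    refine ⟨n + 1, fun m hm => ?_⟩
    change Valued.v.restrict (c (n + 1) - c m) < γ.1
    rw [← hy', Valuation.restrict_lt_iff, Valuation.map_sub_swap]
    refine (hcc _ _ hm).trans_lt ?_
    have h3 : 0 < Valued.v y := by
      rw [zero_lt_iff, Ne, map_eq_zero]; exact hy0
    rw [pow_succ]
    exact mul_pow_lt hθ1 h3 hn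
  obtain ⟨x, hx⟩ := cauchySeq_tendsto_of_complete hcau
  refine ⟨x, fun n => ?_⟩
  have hcl : IsClosed {y : L | Valued.v y ≤ 1} := Valued.isClosed_integer L
  rcases eq_or_ne θ 0 with h0 | h0
  · -- the sequence is constant from `1` on
    rcases Nat.eq_zero_or_pos n with hn | hn
    · subst hn
      rw [pow_zero]
      have h1 : Filter.Tendsto (fun m => c m - c 0) Filter.atTop (nhds (x - c 0)) :=
        hx.sub_const _
      exact hcl.mem_of_tendsto h1 (Filter.Eventually.of_forall fun m => by
        have := hcc 0 m (Nat.zero_le _)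
        rwa [pow_zero] at this)
    · have h1 : ∀ m, n ≤ m → c m = c n := by
        intro m hm
        have h2 := hcc n m hm
        rw [h0, map_zero, map_zero, zero_pow (by omega)] at h2
        exact sub_eq_zero.1 ((Valuation.zero_iff _).1 (le_zero_iff.1 h2))
      have h2 : Filter.Tendsto c Filter.atTop (nhds (c n)) :=
        tendsto_const_nhds.congr' (Filter.eventually_atTop.2 ⟨n, fun m hm => (h1 m hm).symm⟩)
      rw [tendsto_nhds_unique hx h2, sub_self, map_zero]
      exact zero_le'
  · have hfθ : f θ ^ n ≠ 0 := by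
      apply pow_ne_zero
      rw [Ne, map_eq_zero]; exact h0
    have h1 : Filter.Tendsto (fun m => (c m - c n) / f θ ^ n) Filter.atTop
        (nhds ((x - c n) / f θ ^ n)) :=
      (hx.sub_const _).div_const _
    have h3 : 0 < Valued.v (f θ ^ n) := by
      rw [zero_lt_iff, Ne, map_eq_zero]; exact hfθ
    have h2 : Valued.v ((x - c n) / f θ ^ n) ≤ 1 :=
      hcl.mem_of_tendsto h1 (Filter.eventually_atTop.2 ⟨n, fun m hm => by
        change Valued.v ((c m - c n) / f θ ^ n) ≤ 1
        rw [map_div₀, div_le_one₀ h3, map_pow]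
        exact hcc n m hm⟩)
    rw [map_div₀, div_le_one₀ h3, map_pow] at h2
    exact h2

/-- The fixed point lemma. -/
theorem CompEmb.fix [CompleteSpace L] (hf : CompEmb V f) (hr : IsRankOne V) [CharP k 2] {θ : k}
    (hθ : θ ∈ V.nonunits) {n : Type*} [Fintype n] (r : n → L)
    (m q : n → n → L) (hrv : ∀ i, Valued.v (r i) ≤ 1)
    (hm : ∀ i l, Valued.v (m i l) ≤ Valued.v (f θ))
    (hq : ∀ i l, Valued.v (q i l) ≤ Valued.v (f θ)) :
    ∃ c : n → L, (∀ i, Valued.v (c i) ≤ 1) ∧
      ∀ i, c i = r i + ∑ l, (m i l * c l + q i l * c l ^ 2) := by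
  have hchar : CharP L 2 := charP_of_injective_ringHom f.injective 2
  have hθ1 : Valued.v (f θ) < 1 := hf.lt_one hθ
  -- the additive part
  set A : (n → L) → n → L :=
    fun c i => ∑ l, (m i l * c l + q i l * c l ^ 2) with hA
  have hAsub : ∀ c c' i, A c i - A c' i = A (fun l => c l - c' l) i := by
    intro c c' i
    simp only [hA, ← Finset.sum_sub_distrib]
    refine Finset.sum_congr rfl fun l _ => ?_
    have h2 : (2 : L) = 0 := CharTwo.two_eq_zero
    linear_combination (q i l * c l * c' l - q i l * c' l ^ 2) * h2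
  have hAv : ∀ (c : n → L) (N : ℕ),
      (∀ l, Valued.v (c l) ≤ Valued.v (f θ) ^ N) →
      ∀ i, Valued.v (A c i) ≤ Valued.v (f θ) ^ (N + 1) := by
    intro c N hc i
    have hN1 : Valued.v (f θ) ^ N ≤ 1 := pow_le_one' hθ1.le N
    refine Valuation.map_sum_le _ fun l _ => ?_
    refine (Valuation.map_add _ _ _).trans (max_le ?_ ?_)
    · rw [map_mul, pow_succ, mul_comm]
      exact mul_le_mul' (hc l) (hm i l)
    · have h1 : Valued.v (c l) ^ 2 ≤ Valued.v (f θ) ^ N := by
        rw [pow_two]
        calc Valued.v (c l) * Valued.v (c l) ≤ Valued.v (f θ) ^ N * 1 :=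
              mul_le_mul' (hc l) ((hc l).trans hN1)
          _ = _ := mul_one _
      rw [map_mul, map_pow, pow_succ (Valued.v (f θ)), mul_comm]
      exact mul_le_mul' h1 (hq i l)
  -- the sequence
  set s : ℕ → n → L :=
    fun N => Nat.rec (fun _ => 0) (fun _ c i => r i + A c i) N with hs
  have hs0 : s 0 = fun _ => 0 := rfl
  have hss : ∀ N, s (N + 1) = fun i => r i + A (s N) i := fun N => rfl
  have hinc : ∀ N i, Valued.v (s (N + 1) i - s N i) ≤ Valued.v (f θ) ^ N := by
    intro N
    induction N with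
    | zero =>
      intro i
      rw [hss, hs0]
      simp only [hA]
      simpa using hrv i
    | succ N ih =>
      intro i
      have h1 : s (N + 1 + 1) i - s (N + 1) i = A (s (N + 1)) i - A (s N) i := by
        rw [hss (N + 1)]
        nth_rewrite 2 [hss N]
        ring
      rw [h1, hAsub]
      exact hAv _ N ih i
  choose x hx using fun i => hf.lim hr hθ (fun N => s N i) (fun N => hinc N i)
  refine ⟨x, fun i => ?_, fun i => ?_⟩
  · have h1 := hx i 0
    rw [pow_zero] at h1
    change Valued.v (x i - s 0 i) ≤ 1 at h1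
    rwa [hs0, sub_zero] at h1
  · have h1 : x i - (r i + A x i) = 0 := by
      apply hf.eq_zero hr hθ
      intro N
      have h2 : x i - (r i + A x i) = (x i - s (N + 1) i) + (A (s N) i - A x i) := by
        rw [hss]; ring
      rw [h2]
      refine (Valuation.map_add _ _ _).trans (max_le ?_ ?_)
      · exact (hx i (N + 1)).trans (pow_le_pow_right_of_le_one' hθ1.le (Nat.le_succ N))
      · rw [hAsub]
        refine (hAv _ N (fun l => ?_) i).trans
          (pow_le_pow_right_of_le_one' hθ1.le (Nat.le_succ N))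
        rw [Valuation.map_sub_swap]
        exact hx l N
    exact sub_eq_zero.1 h1

end

end Pool.Agent.Helper26
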