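import Mathlib
import Pool.Agent.Helper26.ChFam
import Pool.Agent.Helper26.ChSm
import Pool.Agent.Helper26.FixPt

set_option autoImplicit false
set_option linter.unusedSectionVars false

/-!
# Local smooth zeros of the pair attached to a quartic algebra
-/

universe u v

namespace Pool.Agent.Helper26

open Polynomial Finset

section

variable {k : Type u} [Field k] [CharP k 2]

lemma nf_twist {R : Type*} [CommRing R] [CharP R 2] (a U Y s : R) :
    nf a (U + s * a * Y) (Y + s * (U + Y)) = nf a U Y * (1 + s + a * s ^ 2) := by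
  have h2 : (2 : R) = 0 := CharTwo.two_eq_zero
  rw [nf, nf]
  linear_combination (2 * a * U * Y * s + a * Y ^ 2 * s + a * Y ^ 2 * s ^ 2 +
    a * U * Y * s ^ 2) * h2

/-- The system of two equations, over the completion. -/
lemma CompEmb.solve {L : Type*} [Field L] {Γ₀ : Type*} [LinearOrderedCommGroupWithZero Γ₀]
    [Valued L Γ₀] [CompleteSpace L] {V : ValuationSubring k} {f : k →+* L} (hf : CompEmb V f)
    (hr : IsRankOne V) {θ e : k} (he : e ≠ 0) (hθ : θ ∈ V.nonunits) (hθ0 : θ ≠ 0)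
    (r : Fin 2 → k) (m q : Fin 2 → Fin 2 → k) (hrV : ∀ j, r j / e ∈ V)
    (hm : ∀ j l, (m j l + if j = l then 1 else 0) / θ ∈ V) (hq : ∀ j l, e * q j l / θ ∈ V) :
    ∃ c : Fin 2 → L, (∀ l, Valued.v (c l) ≤ 1) ∧
      ∀ j, f (r j) + ∑ l, (f e * c l) * f (m j l) + ∑ l, (f e * c l) ^ 2 * f (q j l) = 0 := by
  have hfe : f e ≠ 0 := by rwa [Ne, map_eq_zero]
  have hfθ : f θ ≠ 0 := by rwa [Ne, map_eq_zero]
  have hchar : CharP L 2 := charP_of_injective_ringHom f.injective 2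
  have hle : ∀ x : k, x / θ ∈ V → Valued.v (f x) ≤ Valued.v (f θ) := by
    intro x hx
    rw [← hf.mem, map_div₀, map_div₀] at hx
    have h3 : 0 < Valued.v (f θ) := by
      rw [zero_lt_iff, Ne, map_eq_zero]; exact hfθ
    exact (div_le_one₀ h3).1 hx
  obtain ⟨c, hc1, hc⟩ := hf.fix hr hθ (fun j => f (r j / e))
    (fun j l => f (m j l + if j = l then 1 else 0)) (fun j l => f (e * q j l))
    (fun j => (hf.mem _).2 (hrV j)) (fun j l => hle _ (hm j l)) (fun j l => hle _ (hq j l))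
  refine ⟨c, hc1, fun j => ?_⟩
  have h2 : (2 : L) = 0 := CharTwo.two_eq_zero
  have h1 := hc j
  rw [Fin.sum_univ_two] at h1 ⊢
  rw [Fin.sum_univ_two]
  fin_cases j
  · simp only [Fin.zero_eta, Fin.isValue, map_div₀, map_add, map_mul, if_true, map_one,
      Fin.zero_ne_one, if_false, map_zero, add_zero] at h1 ⊢
    have h3 : f e * c 0 = f (r 0) + f e * ((f (m 0 0) + 1) * c 0 + f e * f (q 0 0) * c 0 ^ 2 +
        (f (m 0 1) * c 1 + f e * f (q 0 1) * c 1 ^ 2)) := by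
      nth_rewrite 1 [h1]
      field_simp
    linear_combination -h3 + (f e * c 0) * h2 - (f e * c 0) * h2
  · simp only [Fin.mk_one, Fin.isValue, map_div₀, map_add, map_mul, if_true, map_one,
      one_ne_zero, if_false, map_zero, add_zero] at h1 ⊢
    have h3 : f e * c 1 = f (r 1) + f e * (f (m 1 0) * c 0 + f e * f (q 1 0) * c 0 ^ 2 +
        ((f (m 1 1) + 1) * c 1 + f e * f (q 1 1) * c 1 ^ 2)) := by
      nth_rewrite 1 [h1]
      field_simp
    linear_combination -h3 + (f e * c 1) * h2 - (f e * c 1) * h2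

/-- The polynomials `s_l`. -/
lemma exists_dualPair {P : k[X]} (hP : P.Monic) (hP4 : P.natDegree = 4) {g G' : k[X]}
    (hG : P ∣ g * G' - 1) : ∃ s : Fin 2 → k[X], ∀ j l : Fin 2,
      tau P (X ^ (j : ℕ) * g * s l) = if j = l then 1 else 0 := by
  set t₄ := tau P (X ^ 4) with ht₄
  set σ : Fin 2 → k[X] := ![X ^ 3 - C t₄ * X ^ 2, X ^ 2] with hσ
  refine ⟨fun l => G' * σ l, fun j l => ?_⟩
  have h1 : tau P (X ^ (j : ℕ) * g * (G' * σ l)) = tau P (X ^ (j : ℕ) * σ l) := by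
    apply tau_eq_of_dvd hP
    have : X ^ (j : ℕ) * g * (G' * σ l) - X ^ (j : ℕ) * σ l =
        (g * G' - 1) * (X ^ (j : ℕ) * σ l) := by ring
    rw [this]
    exact hG.mul_right _
  rw [h1]
  have e2 : tau P (X ^ 2) = 0 := by
    rw [tau_of_natDegree hP hP4 (by rw [natDegree_X_pow]; norm_num), coeff_X_pow]
    simp
  have e3 : tau P (X ^ 3) = 1 := by
    rw [tau_of_natDegree hP hP4 (by rw [natDegree_X_pow]; norm_num), coeff_X_pow]
    simp
  have f0 : tau P (X ^ 3 - C t₄ * X ^ 2) = 1 := by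
    have : (X ^ 3 - C t₄ * X ^ 2 : k[X]) = X ^ 3 + C (-t₄) * X ^ 2 := by rw [C_neg]; ring
    rw [this, tau_add, tau_C_mul, e2, e3, mul_zero, add_zero]
  have f1 : tau P (X * (X ^ 3 - C t₄ * X ^ 2)) = 0 := by
    have : (X * (X ^ 3 - C t₄ * X ^ 2) : k[X]) = X ^ 4 + C (-t₄) * X ^ 3 := by rw [C_neg]; ring
    rw [this, tau_add, tau_C_mul, e3, mul_one, ← ht₄, add_neg_cancel]
  fin_cases j <;> fin_cases l
  · simpa [hσ] using f0
  · simpa [hσ] using e2
  · simpa [hσ] using f1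
  · have : (X * X ^ 2 : k[X]) = X ^ 3 := by ring
    simpa [hσ, this] using e3

/-- Sum of squares over `Fin 2`. -/
lemma sq_sum_two {R : Type*} [CommRing R] [CharP R 2] (c s : Fin 2 → R) :
    (∑ l, c l * s l) ^ 2 = ∑ l, c l ^ 2 * s l ^ 2 := by
  rw [Fin.sum_univ_two, Fin.sum_univ_two, CharTwo.add_sq, mul_pow, mul_pow]

end

section

variable {F : Type v} {k : Type u} [Field F] [Finite F] [CharP F 2] [Field k] [CharP k 2]
  {ι : Type*} [Fintype ι] {K : ι → Type u} [∀ i, Field (K i)] [∀ i, CharP (K i) 2]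
  [∀ i, Algebra k (K i)] [∀ i, FiniteDimensional k (K i)] [∀ i, Algebra.IsSeparable k (K i)]

/-- Approximate norms of polynomials at one place. -/
lemma IsFam.exists_approx {φ : RatFunc F →+* k} (hφ : GoodEmb φ) {P : k[X]} (hP : P.Monic)
    {θ : ∀ i, K i} (hF : IsFam P K θ) {V : ValuationSubring k} (hV : V ≠ ⊤) (a : k)
    {Δ g : k[X]} (hne : ∀ i, aeval (θ i) (Δ * g) ≠ 0)
    (hNW : ∀ i, ∀ W ∈ above (K i) V, NW W (algebraMap k (K i) a) (aeval (θ i) (Δ * g)))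
    {J : Type*} [Finite J] (D : J → k[X]) (d : k) (hd : d ≠ 0) :
    ∃ U Y Ξ : k[X], (P ∣ nf (C a) U Y - Δ * g * (1 + Ξ)) ∧ ∀ j, tau P (D j * Ξ) / d ∈ V := by
  have hr := hφ.rankOne hV
  have hfin : ∀ i, (above (K i) V).Finite := fun i => hφ.above_finite (K := K i) hV
  obtain ⟨δ, hδ0, hδ⟩ := hF.tau_small hP hr hV hfin D d hd
  have hap : ∀ i, ∃ X₀ Y₀ : K i, ∀ W ∈ above (K i) V,
      (aeval (θ i) (Δ * g) + nf (algebraMap k (K i) a) X₀ Y₀) /
        (aeval (θ i) (Δ * g) * algebraMap k (K i) δ) ∈ W := by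
    intro i
    obtain ⟨X₀, Y₀, h⟩ := GoodEmb.NW_simul (hφ.ext (K := K i)) (hfin i).toFinset
      (fun W hW => above_ne_top hV ((hfin i).mem_toFinset.1 hW)) (algebraMap k (K i) a)
      (aeval (θ i) (Δ * g)) (fun W hW => hNW i W ((hfin i).mem_toFinset.1 hW))
      (aeval (θ i) (Δ * g) * algebraMap k (K i) δ)
      (mul_ne_zero (hne i) (by rwa [Ne, map_eq_zero]))
    exact ⟨X₀, Y₀, fun W hW => h W ((hfin i).mem_toFinset.2 hW)⟩
  choose X₀ Y₀ hXY using hap
  obtain ⟨U, -, hU⟩ := hF.crt X₀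
  obtain ⟨Y, -, hY⟩ := hF.crt Y₀
  obtain ⟨Ξ, -, hΞ⟩ := hF.crt fun i =>
    (aeval (θ i) (Δ * g) + nf (algebraMap k (K i) a) (X₀ i) (Y₀ i)) / aeval (θ i) (Δ * g)
  refine ⟨U, Y, Ξ, hF.dvd _ fun i => ?_, hδ Ξ fun i W hW => ?_⟩
  · have h1 : aeval (θ i) (nf (C a) U Y) = nf (algebraMap k (K i) a) (X₀ i) (Y₀ i) := by
      rw [nf, nf]
      simp only [map_add, map_mul, map_pow, hU, hY, aeval_C]
    have h2 : (2 : K i) = 0 := CharTwo.two_eq_zero
    rw [map_sub, h1, map_mul _ (Δ * g), map_add, map_one, hΞ]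
    have h3 := hne i
    field_simp
    linear_combination (-(aeval (θ i) (Δ * g))) * h2
  · rw [hΞ, div_div]
    exact hXY i W hW

end

end Pool.Agent.Helper26
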