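import Mathlib
import Pool.Agent.Helper26.FixPt
import Pool.Agent.Helper26.ChLoc
import Pool.Agent.Helper26.NormLoc

set_option autoImplicit false
set_option linter.unusedSectionVars false

/-!
# Norms in the completions
-/

universe u v

namespace Pool.Agent.Helper26

open Finset

/-- `x` is a norm from the Artin-Schreier extension given by `a`. -/
def IsNf {R : Type*} [CommRing R] (a x : R) : Prop := ∃ y z : R, x = nf a y z

section

variable {F : Type v} {k : Type u} [Field F] [Finite F] [CharP F 2] [Field k] [CharP k 2]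
  {L : Type*} [Field L] {Γ₀ : Type*} [LinearOrderedCommGroupWithZero Γ₀] [Valued L Γ₀]
  {V : ValuationSubring k} {f : k →+* L}

/-- Elements close to one are norms. -/
lemma CompEmb.close_one [CompleteSpace L] (hf : CompEmb V f) (hr : IsRankOne V) (hV : V ≠ ⊤)
    (a : k) : ∃ r : k, r ≠ 0 ∧ r ∈ V.nonunits ∧ ∀ ξ : L, Valued.v ξ ≤ Valued.v (f r) →
      1 + ξ ≠ 0 ∧ ∃ s : L, ξ = s + f a * s ^ 2 := by
  have hchar : CharP L 2 := charP_of_injective_ringHom f.injective 2
  obtain ⟨θ₀, hθ00, hθ0⟩ := exists_nonunit hV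
  obtain ⟨e, he0, he, hec⟩ := exists_small hV (fun _ : Fin 1 => a / θ₀)
  have hr0 : e * θ₀ ≠ 0 := mul_ne_zero he0 hθ00
  refine ⟨e * θ₀, hr0, nonunits_mul he (nonunits_mem hθ0), fun ξ hξ => ⟨?_, ?_⟩⟩
  · intro h0
    have h1 : ξ = -1 := by linear_combination h0
    rw [h1, Valuation.map_neg, map_one] at hξ
    exact absurd (hf.lt_one (nonunits_mul he (nonunits_mem hθ0))) (not_lt.2 hξ)
  · have hfe : f e ≠ 0 := by rwa [Ne, map_eq_zero]
    have h3 : 0 < Valued.v (f e) := by
      rw [zero_lt_iff, Ne, map_eq_zero]; exact hfe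
    have h4 : 0 < Valued.v (f θ₀) := by
      rw [zero_lt_iff, Ne, map_eq_zero, map_eq_zero]; exact hθ00
    obtain ⟨c, hc1, hc⟩ := hf.fix hr hθ0 (fun _ : Fin 1 => ξ / f e)
      (fun _ _ => 0) (fun _ _ => f (e * a)) (by
        intro _
        rw [map_div₀, div_le_one₀ h3]
        refine hξ.trans ?_
        rw [map_mul, map_mul]
        exact mul_le_of_le_one_right' (hf.lt_one hθ0).le) (by
        intro _ _
        rw [map_zero]; exact zero_le') (by
        intro _ _
        have h5 := (hf.mem _).2 (nonunits_mem (hec 0))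
        have h6 : e * (a / θ₀) = e * a / θ₀ := by ring
        rw [h6, map_div₀, map_div₀, div_le_one₀ h4] at h5
        exact h5)
    refine ⟨f e * c 0, ?_⟩
    have h5 := hc 0
    rw [Fin.sum_univ_one, zero_mul, zero_add, map_mul] at h5
    have h6 : f e * c 0 = ξ + f a * (f e * c 0) ^ 2 := by
      nth_rewrite 1 [h5]
      field_simp
    have h2 : (2 : L) = 0 := CharTwo.two_eq_zero
    linear_combination -h6 - (f a * (f e * c 0) ^ 2) * h2

/-- Multiplication by elements close to one. -/
lemma isNf_mul_one_add [CharP L 2] {a x ξ s : L} (h1 : 1 + ξ ≠ 0) (hs : ξ = s + a * s ^ 2) :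
    IsNf a (x * (1 + ξ)) ↔ IsNf a x := by
  have key : ∀ x : L, IsNf a x → IsNf a (x * (1 + ξ)) := by
    rintro x ⟨y, z, rfl⟩
    refine ⟨y + s * a * z, z + s * (y + z), ?_⟩
    rw [nf_twist, hs]
    ring
  refine ⟨fun h => ?_, key x⟩
  obtain ⟨y, z, h3⟩ := key _ h
  refine ⟨y / (1 + ξ), z / (1 + ξ), ?_⟩
  have h4 : nf a (y / (1 + ξ)) (z / (1 + ξ)) = nf a y z / (1 + ξ) ^ 2 := by
    rw [nf, nf]; field_simp
  rw [h4, ← h3]
  field_simp

/-- Norms in the completion of elements of `k`. -/
lemma CompEmb.isNf_iff [CompleteSpace L] {φ : RatFunc F →+* k} (hφ : GoodEmb φ)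
    (hf : CompEmb V f) (hV : V ≠ ⊤) {a e : k} (he : e ≠ 0) :
    IsNf (f a) (f e) ↔ NW V a e := by
  have hchar : CharP L 2 := charP_of_injective_ringHom f.injective 2
  have hr := hφ.rankOne hV
  have h2 : (2 : L) = 0 := CharTwo.two_eq_zero
  constructor
  · rintro ⟨y, z, h⟩ d hd
    have hfd : f d ≠ 0 := by rwa [Ne, map_eq_zero]
    set g : L × L → L := fun w => (f e + nf (f a) w.1 w.2) / f d with hg
    have hgc : Continuous g := by
      simp only [hg, nf]
      fun_prop
    set O : Set L := ((Valued.v (R := L) (Γ₀ := Γ₀)).integer : Set L) with hO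
    have hOo : IsOpen (g ⁻¹' O) := (Valued.isOpen_integer L).preimage hgc
    obtain ⟨w, hw⟩ := (hf.dense.prodMap hf.dense).exists_mem_open hOo ⟨(y, z), by
      change Valued.v (g (y, z)) ≤ 1
      have : g (y, z) = 0 := by
        simp only [hg]
        rw [← h]
        have : f e + f e = 0 := by linear_combination (f e) * h2
        rw [this, zero_div]
      rw [this, map_zero]
      exact zero_le'⟩
    refine ⟨w.1, w.2, (hf.mem _).1 ?_⟩
    have h3 : Valued.v (g (f w.1, f w.2)) ≤ 1 := hw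
    have h4 : f ((e + nf a w.1 w.2) / d) = g (f w.1, f w.2) := by
      simp only [hg, nf, map_div₀, map_add, map_mul, map_pow]
    rw [h4]
    exact h3
  · intro h
    obtain ⟨r, hr0, hrV, hrc⟩ := hf.close_one hr hV a
    obtain ⟨y, z, hyz⟩ := h (e * r) (mul_ne_zero he hr0)
    set ξ : k := (e + nf a y z) / e with hξ
    have h3 : Valued.v (f ξ) ≤ Valued.v (f r) := by
      have h4 : 0 < Valued.v (f r) := by
        rw [zero_lt_iff, Ne, map_eq_zero, map_eq_zero]; exact hr0
      rw [← div_le_one₀ h4, ← map_div₀, ← map_div₀, hf.mem, hξ, div_div]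
      exact hyz
    obtain ⟨h5, s, hs⟩ := hrc _ h3
    have h6 : f e * (1 + f ξ) = nf (f a) (f y) (f z) := by
      have h7 : e * (1 + ξ) = nf a y z := by
        rw [hξ]
        have h2' : (2 : k) = 0 := CharTwo.two_eq_zero
        field_simp
        linear_combination e * h2'
      have h8 := congrArg f h7
      rw [map_mul, map_add, map_one] at h8
      rw [h8]
      simp only [nf, map_add, map_mul, map_pow]
    rw [← isNf_mul_one_add h5 hs]
    exact ⟨_, _, h6⟩

/-- Approximation of a point over the completion by a point over `k`. -/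
lemma CompEmb.approx_point [CompleteSpace L] {φ : RatFunc F →+* k} (hφ : GoodEmb φ)
    (hf : CompEmb V f) (hV : V ≠ ⊤) (a : k) {n : ℕ} {J : Type*} [Finite J]
    (g : J → MvPolynomial (Fin n) k) (x : Fin n → L)
    (hx : ∀ j, MvPolynomial.eval₂ f x (g j) ≠ 0) :
    ∃ w : Fin n → k, ∀ j, MvPolynomial.eval w (g j) ≠ 0 ∧
      (NW V a (MvPolynomial.eval w (g j)) ↔ IsNf (f a) (MvPolynomial.eval₂ f x (g j))) := by
  have hchar : CharP L 2 := charP_of_injective_ringHom f.injective 2
  have hr := hφ.rankOne hV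
  obtain ⟨r, hr0, hrV, hrc⟩ := hf.close_one hr hV a
  have hfr : f r ≠ 0 := by rwa [Ne, map_eq_zero]
  set G : J → (Fin n → L) → L := fun j y => (MvPolynomial.eval₂ f y (g j) -
    MvPolynomial.eval₂ f x (g j)) / (MvPolynomial.eval₂ f x (g j) * f r) with hG
  have hGc : ∀ j, Continuous (G j) := by
    intro j
    simp only [hG, MvPolynomial.eval₂_eq_eval_map]
    exact ((MvPolynomial.continuous_eval _).sub continuous_const).div_const _
  set O : Set L := ((Valued.v (R := L) (Γ₀ := Γ₀)).integer : Set L) with hO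
  have hOo : IsOpen (⋂ j, G j ⁻¹' O) :=
    isOpen_iInter_of_finite fun j => (Valued.isOpen_integer L).preimage (hGc j)
  obtain ⟨w, hw⟩ := (DenseRange.piMap fun _ : Fin n => hf.dense).exists_mem_open hOo ⟨x, by
    rw [Set.mem_iInter]
    intro j
    change Valued.v (G j x) ≤ 1
    simp only [hG]
    rw [sub_self, zero_div, map_zero]
    exact zero_le'⟩
  rw [Set.mem_iInter] at hw
  refine ⟨w, fun j => ?_⟩
  have h1 : Valued.v (G j (fun i => f (w i))) ≤ 1 := hw j
  set c := MvPolynomial.eval₂ f x (g j) with hc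
  have hc0 : c ≠ 0 := hx j
  have h3 : MvPolynomial.eval₂ f (fun i => f (w i)) (g j) = f (MvPolynomial.eval w (g j)) := by
    rw [← MvPolynomial.eval₂_id, MvPolynomial.eval₂_comp_left]
    rfl
  set ξ : L := f r * G j (fun i => f (w i)) with hξ
  have h4 : f (MvPolynomial.eval w (g j)) = c * (1 + ξ) := by
    rw [hξ]
    simp only [hG]
    rw [h3, ← hc]
    field_simp
    ring
  have h5 : Valued.v ξ ≤ Valued.v (f r) := by
    rw [hξ, map_mul]
    exact mul_le_of_le_one_right' h1
  obtain ⟨h6, s, hs⟩ := hrc ξ h5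
  have h7 : MvPolynomial.eval w (g j) ≠ 0 := by
    intro h0
    rw [h0, map_zero] at h4
    exact mul_ne_zero hc0 h6 h4.symm
  refine ⟨h7, ?_⟩
  rw [← hf.isNf_iff hφ hV h7, h4]
  exact isNf_mul_one_add h6 hs

end

end Pool.Agent.Helper26
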