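import Mathlib
import Pool.Agent.Helper26.ChFam

set_option autoImplicit false
set_option linter.unusedSectionVars false

/-!
# The choice of the multiplier polynomial
-/

universe u v

namespace Pool.Agent.Helper26

open Polynomial Finset

section

variable {k : Type u} [Field k] [CharP k 2]
  {ι : Type*} [Fintype ι] {K : ι → Type u} [∀ i, Field (K i)] [∀ i, CharP (K i) 2]
  [∀ i, Algebra k (K i)] [∀ i, Algebra.IsSeparable k (K i)]

/-- The discriminant of a cubic polynomial as a bilinear object. -/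
def qd (G : k[X]) : k := G.coeff 0 * G.coeff 3 + G.coeff 1 * G.coeff 2

def qb (G H : k[X]) : k :=
  G.coeff 0 * H.coeff 3 + H.coeff 0 * G.coeff 3 + (G.coeff 1 * H.coeff 2 + H.coeff 1 * G.coeff 2)

lemma qd_add (G H : k[X]) : qd (G + H) = qd G + qd H + qb G H := by
  simp only [qd, qb, coeff_add]; ring

lemma qd_C_mul (c : k) (G : k[X]) : qd (C c * G) = c ^ 2 * qd G := by
  simp only [qd, coeff_C_mul]; ring

lemma qb_C_mul (c : k) (G H : k[X]) : qb G (C c * H) = c * qb G H := by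
  simp only [qb, coeff_C_mul]; ring

theorem IsFam.exists_multiplier [Infinite k] {P : k[X]} (hP4 : P.natDegree = 4)
    {θ : ∀ i, K i} (hF : IsFam P K θ) {t : k} (ht : IsTwoBasis t) (δ : ∀ i, K i)
    (hδ : ∀ i, δ i ≠ 0) :
    ∃ Δ Δ' : k[X], Δ.natDegree < 4 ∧ Δ.coeff 0 * Δ.coeff 3 + Δ.coeff 1 * Δ.coeff 2 ≠ 0 ∧
      P ∣ Δ * Δ' - 1 ∧ ∀ i, ∃ Z : K i, Z ≠ 0 ∧ aeval (θ i) Δ = δ i * Z ^ 2 := by
  classical
  choose R hR4 hR using hF.crt
  have huniq : ∀ G H : k[X], G.natDegree < 4 → H.natDegree < 4 →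
      (∀ i, aeval (θ i) G = aeval (θ i) H) → G = H := by
    intro G H hG hH h
    have h1 : P ∣ G - H := hF.dvd _ fun i => by rw [map_sub, h, sub_self]
    have h2 : (G - H).natDegree < P.natDegree := by
      rw [hP4]
      exact lt_of_le_of_lt (natDegree_sub_le _ _) (max_lt hG hH)
    exact sub_eq_zero.1 (eq_zero_of_dvd_of_natDegree_lt h1 h2)
  set G : (∀ i, K i) → k[X] := fun Z => R fun i => δ i * Z i ^ 2 with hG
  have hG4 : ∀ Z, (G Z).natDegree < 4 := fun Z => hR4 _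
  have hGv : ∀ Z i, aeval (θ i) (G Z) = δ i * Z i ^ 2 := fun Z i => hR _ i
  have hadd : ∀ Z W : ∀ i, K i, G (Z + W) = G Z + G W := by
    intro Z W
    apply huniq _ _ (hG4 _) (lt_of_le_of_lt (natDegree_add_le _ _) (max_lt (hG4 _) (hG4 _)))
    intro i
    rw [map_add, hGv, hGv, hGv, Pi.add_apply, CharTwo.add_sq, mul_add]
  have hsmul : ∀ (c : k) (Z : ∀ i, K i), G (c • Z) = C (c ^ 2) * G Z := by
    intro c Z
    apply huniq _ _ (hG4 _) (lt_of_le_of_lt (natDegree_C_mul_le _ _) (hG4 _))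
    intro i
    rw [map_mul, hGv, hGv, aeval_C, Pi.smul_apply, Algebra.smul_def, map_pow]
    ring
  have hrep : ∀ D : k[X], D.natDegree < 4 → ∃ Z W : ∀ i, K i, D = G Z + C t * G W := by
    intro D hD
    have h1 : ∀ i, ∃ u v : K i, aeval (θ i) D / δ i = u ^ 2 + algebraMap k (K i) t * v ^ 2 :=
      fun i => (ht.extend (K := K i)).span _
    choose u v h1 using h1
    refine ⟨u, v, huniq _ _ hD (lt_of_le_of_lt (natDegree_add_le _ _)
      (max_lt (hG4 _) (lt_of_le_of_lt (natDegree_C_mul_le _ _) (hG4 _)))) fun i => ?_⟩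
    have h2 := h1 i
    rw [div_eq_iff (hδ i)] at h2
    rw [map_add, map_mul, hGv, hGv, aeval_C, h2]
    ring
  obtain ⟨Z, hZ⟩ : ∃ Z, qd (G Z) ≠ 0 := by
    by_contra hcon
    push Not at hcon
    have hb : ∀ Z W, qb (G Z) (G W) = 0 := by
      intro Z W
      have h1 := hcon (Z + W)
      rwa [hadd, qd_add, hcon, hcon, add_zero, zero_add] at h1
    obtain ⟨Z₁, W₁, h1⟩ := hrep 1 (by rw [natDegree_one]; norm_num)
    obtain ⟨Z₂, W₂, h3⟩ := hrep (X ^ 3) (by rw [natDegree_X_pow]; norm_num)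
    have h4 : qb (1 : k[X]) (X ^ 3) = 1 := by
      simp [qb, coeff_one, coeff_X_pow]
    have h5 : qb (1 : k[X]) (X ^ 3) = qb (G Z₁) (G Z₂) + t * qb (G Z₁) (G W₂) +
        (t * qb (G W₁) (G Z₂) + t ^ 2 * qb (G W₁) (G W₂)) := by
      rw [h1, h3]
      simp only [qb, coeff_add, coeff_C_mul]
      ring
    rw [h5, hb, hb, hb, hb] at h4
    simp at h4
  -- making it a unit
  set p : k[X] := C (qd (G Z)) + C (qb (G Z) (G 1)) * X ^ 2 + C (qd (G 1)) * X ^ 4 with hp
  have hp0 : p ≠ 0 := by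
    intro h0
    have h1 := congrArg (fun q : k[X] => q.coeff 0) h0
    simp [hp] at h1
    exact hZ h1
  set bad : Set k := {s | p.eval s = 0} ∪ ⋃ i, {s | Z i + algebraMap k (K i) s = 0} with hbad
  have hbadfin : bad.Finite := by
    refine Set.Finite.union ?_ (Set.finite_iUnion fun i => Set.Subsingleton.finite ?_)
    · refine (p.roots.toFinset.finite_toSet).subset fun s hs => ?_
      have hs' : p.eval s = 0 := hs
      rw [Finset.mem_coe, Multiset.mem_toFinset, mem_roots hp0]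
      exact hs'
    · intro s hs s' hs'
      have h1 : Z i + algebraMap k (K i) s = 0 := hs
      have h2 : Z i + algebraMap k (K i) s' = 0 := hs'
      exact (algebraMap k (K i)).injective (add_left_cancel (h1.trans h2.symm))
  obtain ⟨s, hs⟩ := hbadfin.exists_notMem
  have hs1 : p.eval s ≠ 0 := fun h => hs (Or.inl h)
  have hs2 : ∀ i, Z i + algebraMap k (K i) s ≠ 0 := fun i h =>
    hs (Or.inr (Set.mem_iUnion.2 ⟨i, h⟩))
  set Z' : ∀ i, K i := Z + s • 1 with hZ'
  have hZi : ∀ i, Z' i = Z i + algebraMap k (K i) s := by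
    intro i
    rw [hZ', Pi.add_apply, Pi.smul_apply, Pi.one_apply, Algebra.smul_def, mul_one]
  have hZ0 : ∀ i, Z' i ≠ 0 := fun i => by rw [hZi]; exact hs2 i
  have hval : qd (G Z') = p.eval s := by
    rw [hZ', hadd, hsmul, qd_add, qd_C_mul, qb_C_mul, hp]
    simp only [eval_add, eval_mul, eval_C, eval_pow, eval_X]
    ring
  refine ⟨G Z', R fun i => (δ i * Z' i ^ 2)⁻¹, hG4 _, ?_, ?_, fun i => ⟨Z' i, hZ0 i, hGv _ i⟩⟩
  · change qd (G Z') ≠ 0
    rw [hval]; exact hs1
  · apply hF.dvd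
    intro i
    rw [map_sub, map_mul, hGv, hR, map_one,
      mul_inv_cancel₀ (mul_ne_zero (hδ i) (pow_ne_zero 2 (hZ0 i))), sub_self]

end

end Pool.Agent.Helper26
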