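import Mathlib
import Pool.Agent.Helper26.ExtPlaces

set_option autoImplicit false
set_option linter.unusedSectionVars false

/-!
# Existence of elements with prescribed local norm symbols
-/

universe u v

namespace Pool.Agent.Helper26

open Polynomial

/-- The quadratic extension defined by `X² + X + a`. -/
theorem exists_quadratic_ext {k : Type u} [Field k] [CharP k 2] {a : k}
    (hnoroot : ∀ x : k, x ^ 2 + x + a ≠ 0) :
    ∃ (K : Type u) (_ : Field K) (_ : Algebra k K) (_ : FiniteDimensional k K)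
      (_ : Algebra.IsSeparable k K) (_ : CharP K 2) (ρ : K),
      (ρ ^ 2 + ρ + algebraMap k K a = 0) ∧
      (∀ u : K, ∃ x₀ x₁ : k, u = algebraMap k K x₀ + algebraMap k K x₁ * ρ) ∧
      (∀ x₀ x₁ : k, algebraMap k K x₀ + algebraMap k K x₁ * ρ = 0 → x₀ = 0 ∧ x₁ = 0) := by
  set c : k[X] := C 1 * X ^ 2 + C 1 * X + C a with hc
  have hdeg : c.natDegree = 2 := natDegree_quadratic one_ne_zero
  have hirr : Irreducible c := by
    apply irreducible_of_degree_le_three_of_not_isRoot
    · rw [hdeg]; decide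
    · intro x hx
      rw [IsRoot.def] at hx
      apply hnoroot x
      simpa [hc] using hx
  have hc0 : c ≠ 0 := hirr.ne_zero
  have hfact : Fact (Irreducible c) := ⟨hirr⟩
  have hchar : CharP (AdjoinRoot c) 2 :=
    charP_of_injective_algebraMap (algebraMap k (AdjoinRoot c)).injective 2
  have hfd : FiniteDimensional k (AdjoinRoot c) := (AdjoinRoot.powerBasis hc0).finite
  set ρ := AdjoinRoot.root c with hρ
  have hroot : aeval ρ c = 0 := by
    rw [AdjoinRoot.aeval_eq, AdjoinRoot.mk_self]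
  have hsepc : c.Separable := by
    rw [separable_iff_derivative_ne_zero hirr]
    intro h0
    have h1 : (derivative c).coeff 0 = 0 := by rw [h0]; simp
    rw [coeff_derivative] at h1
    have hc3 : c.coeff (0 + 1) = 1 := by simp [hc, coeff_C]
    rw [hc3] at h1
    simp at h1
  have hsep : Algebra.IsSeparable k (AdjoinRoot c) := by
    rw [← separableClosure.eq_top_iff, eq_top_iff]
    intro x _
    have h1 : ρ ∈ separableClosure k (AdjoinRoot c) := by
      rw [mem_separableClosure_iff]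
      exact hsepc.of_dvd (minpoly.dvd k ρ hroot)
    obtain ⟨g, rfl⟩ := AdjoinRoot.mk_surjective x
    rw [← AdjoinRoot.aeval_eq, aeval_eq_sum_range]
    exact sum_mem fun i _ => (separableClosure k (AdjoinRoot c)).smul_mem (pow_mem h1 i)
  refine ⟨AdjoinRoot c, inferInstance, inferInstance, hfd, hsep, hchar, ρ, ?_, ?_, ?_⟩
  · simpa [hc] using hroot
  · intro u
    obtain ⟨g, rfl⟩ := AdjoinRoot.mk_surjective u
    have h1 : (g % c).natDegree < 2 := by
      have := natDegree_mod_lt g (q := c) (by rw [hdeg]; norm_num)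
      rwa [hdeg] at this
    have h2 : AdjoinRoot.mk c g = aeval ρ (g % c) := by
      rw [AdjoinRoot.aeval_eq, AdjoinRoot.mk_eq_mk]
      exact ⟨g / c, by
        have := EuclideanDomain.div_add_mod g c
        linear_combination -this⟩
    refine ⟨(g % c).coeff 0, (g % c).coeff 1, ?_⟩
    rw [h2, aeval_eq_sum_range' h1]
    simp only [Finset.sum_range_succ, Finset.sum_range_zero, zero_add, pow_zero, pow_one,
      Algebra.smul_def, mul_one]
  · intro x₀ x₁ h
    set g : k[X] := C x₁ * X + C x₀ with hg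
    have h1 : AdjoinRoot.mk c g = 0 := by
      rw [← AdjoinRoot.aeval_eq, hg]
      simp only [map_add, map_mul, aeval_C, aeval_X]
      rw [← h]; ring
    rw [AdjoinRoot.mk_eq_zero] at h1
    have h2 : g = 0 := by
      apply eq_zero_of_dvd_of_natDegree_lt h1
      rw [hdeg]
      exact lt_of_le_of_lt natDegree_linear_le (by norm_num)
    have e0 := congrArg (fun g : k[X] => g.coeff 0) h2
    have e1 := congrArg (fun g : k[X] => g.coeff 1) h2
    simp [hg, coeff_C] at e0 e1
    exact ⟨e0, e1⟩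

section

variable {K M : Type*} [Field K] [Field M] [CharP K 2] [CharP M 2]

/-- The symbol becomes trivial in the quadratic extension. -/
lemma IsTwoBasis.sym_split {t : K} (f : K →+* M) (htK : IsTwoBasis t) (htM : IsTwoBasis (f t))
    {a : K} {ρ : M} (hρ : ρ ^ 2 + ρ + f a = 0) (e : K) :
    f (htK.sym a e) = f (htK.dl e) * ρ + htM.cart (f (htK.dl e) * ρ) := by
  have h2 : ∀ x : M, x + x = 0 := fun x => CharTwo.add_self_eq_zero x
  have h1 : f (htK.dl e) * ρ = ρ ^ 2 * f (htK.dl e) + f (a * htK.dl e) := by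
    rw [map_mul]
    linear_combination (f (htK.dl e)) * hρ - h2 (ρ ^ 2 * f (htK.dl e)) -
      h2 (f a * f (htK.dl e))
  nth_rewrite 2 [h1]
  rw [htM.cart_add, htM.cart_sq_mul, htK.map_cart f htM, htK.map_cart f htM, htK.cart_dl, sym]
  linear_combination -h2 (f (htK.dl e) * ρ)

/-- Elements which become trivial in the quadratic extension are symbols. -/
lemma IsTwoBasis.sym_of_split {t : K} (f : K →+* M) (htK : IsTwoBasis t)
    (htM : IsTwoBasis (f t)) {a : K} {ρ : M} (hρ : ρ ^ 2 + ρ + f a = 0)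
    (hgen : ∀ u : M, ∃ x₀ x₁ : K, u = f x₀ + f x₁ * ρ)
    (hind : ∀ x₀ x₁ : K, f x₀ + f x₁ * ρ = 0 → x₀ = 0 ∧ x₁ = 0)
    {b : K} {Q : M} (hQ : f b = Q + htM.cart Q) :
    ∃ δ p : K, δ ≠ 0 ∧ b = p + htK.cart p + htK.sym a δ := by
  have h2 : ∀ x : M, x + x = 0 := fun x => CharTwo.add_self_eq_zero x
  have h2' : ∀ x : K, x + x = 0 := fun x => CharTwo.add_self_eq_zero x
  obtain ⟨p, q, rfl⟩ := hgen Q
  have h1 : f q * ρ = ρ ^ 2 * f q + f (a * q) := by
    rw [map_mul]
    linear_combination (f q) * hρ - h2 (ρ ^ 2 * f q) - h2 (f a * f q)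
  have h3 : htM.cart (f q * ρ) = ρ * f (htK.cart q) + f (htK.cart (a * q)) := by
    rw [h1, htM.cart_add, htM.cart_sq_mul, htK.map_cart f htM, htK.map_cart f htM]
  rw [htM.cart_add, h3, htK.map_cart f htM] at hQ
  have h4 : f (p + htK.cart p + htK.cart (a * q) + b) + f (q + htK.cart q) * ρ = 0 := by
    simp only [map_add]
    linear_combination -hQ + h2 (f b)
  obtain ⟨e1, e2⟩ := hind _ _ h4
  have hb : b = p + htK.cart p + htK.cart (a * q) := (CharTwo.add_eq_zero.1 e1).symm
  have hq : htK.cart q = q := (CharTwo.add_eq_zero.1 e2).symm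
  by_cases hq0 : q = 0
  · refine ⟨1, p, one_ne_zero, ?_⟩
    rw [hb, hq0, mul_zero, htK.cart_zero, htK.sym_one]
  · refine ⟨q⁻¹, p, inv_ne_zero hq0, ?_⟩
    rw [hb, IsTwoBasis.sym, ← htK.eq_dl_of_fixed hq hq0]

end

section

variable {F : Type v} {k K : Type u} [Field F] [Finite F] [CharP F 2] [Field k] [CharP k 2]
  [Field K] [CharP K 2] [Algebra k K] [FiniteDimensional k K] [Algebra.IsSeparable k K]

lemma LT.up {t : k} {ht : IsTwoBasis t} (htK : IsTwoBasis (algebraMap k K t))
    {V : ValuationSubring k} {W : ValuationSubring K} (hW : W ∈ above K V) {b : k}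
    (hb : LT ht V b) : LT htK W (algebraMap k K b) := by
  intro d hd
  obtain ⟨c, hc0, hc⟩ := exists_mul_mem (k := k) W d⁻¹
  obtain ⟨P, hP⟩ := hb c hc0
  refine ⟨algebraMap k K P, ?_⟩
  rw [ht.map_cart (algebraMap k K) htK, ← map_add, ← map_add]
  have hcK : algebraMap k K c ≠ 0 := by rwa [Ne, map_eq_zero]
  have h1 : algebraMap k K (b + P + ht.cart P) / d =
      algebraMap k K ((b + P + ht.cart P) / c) * (algebraMap k K c * d⁻¹) := by
    rw [map_div₀]
    field_simp
  rw [h1]
  exact W.mul_mem _ _ ((mem_above_mem hW).2 hP) hc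

/-- A locally everywhere split element is a symbol. -/
lemma GoodEmb.exists_symbol {φ : RatFunc F →+* k} (hφ : GoodEmb φ) {t : k} (ht : IsTwoBasis t)
    (a b : k) (e : ValuationSubring k → k)
    (he : ∀ V : ValuationSubring k, V ≠ ⊤ → e V ≠ 0)
    (hb : ∀ V : ValuationSubring k, V ≠ ⊤ → LT ht V (b + ht.sym a (e V))) :
    ∃ δ : k, δ ≠ 0 ∧ ∀ V : ValuationSubring k, V ≠ ⊤ → NW V a (δ * e V) := by
  by_cases hsplit : ∃ x : k, x ^ 2 + x + a = 0
  · obtain ⟨R, hR⟩ := hsplit
    refine ⟨1, one_ne_zero, fun V hV => ?_⟩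
    refine NW.of_split (hφ.rankOne hV) (R := R) ?_ _
    rw [hR, ValuationSubring.mem_nonunits_iff, map_zero]
    exact zero_lt_one
  push Not at hsplit
  obtain ⟨M, _, _, _, _, _, ρ, hρ, hgen, hind⟩ := exists_quadratic_ext hsplit
  have htM : IsTwoBasis (algebraMap k M t) := ht.extend
  have hφM := hφ.ext (K := M)
  obtain ⟨W₁, hW₁⟩ := hφM.exists_notMem
  have hW₁t : W₁ ≠ ⊤ := by rintro rfl; exact hW₁ trivial
  obtain ⟨Q, hQ⟩ := hφM.local_global hW₁t htM (algebraMap k M b) (by
    intro W hW _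
    set V := W.comap (algebraMap k M) with hVdef
    have hV : V ≠ ⊤ := comap_ne_top W hW
    have h1 := LT.up htM (W := W) (V := V) rfl (hb V hV)
    rw [map_add, ht.sym_split (algebraMap k M) htM hρ] at h1
    exact (LT.congr h1).2 (LT.triv htM W _))
  obtain ⟨δ, p, hδ0, hδ⟩ := ht.sym_of_split (algebraMap k M) htM hρ hgen hind hQ
  refine ⟨δ, hδ0, fun V hV => ?_⟩
  rw [hφ.NW_iff hV ht a (mul_ne_zero hδ0 (he V hV)), ht.sym_mul a hδ0 (he V hV)]
  have h1 := hb V hV
  rw [hδ, add_assoc] at h1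
  exact (LT.congr h1).1 (LT.triv ht V p)

/-- Existence of elements with prescribed local norm symbols. -/
theorem GoodEmb.exists_delta {φ : RatFunc F →+* k} (hφ : GoodEmb φ) (a : k)
    (S : Finset (ValuationSubring k)) (hS : ∀ V ∈ S, V ≠ ⊤) (e : ValuationSubring k → K)
    (he : ∀ V, e V ≠ 0) (heS : ∀ V, V ∉ S → e V = 1)
    (hpar : Even {V : ValuationSubring k | V ≠ ⊤ ∧ ¬ NW V a (Algebra.norm k (e V))}.ncard) :
    ∃ δ : K, δ ≠ 0 ∧ ∀ V : ValuationSubring k, V ≠ ⊤ → ∀ W ∈ above K V,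
      NW W (algebraMap k K a) (δ * e V) := by
  classical
  have ht := hφ.isTwoBasis
  set t := φ RatFunc.X with htdef
  have htK : IsTwoBasis (algebraMap k K t) := ht.extend
  have hφK := hφ.ext (K := K)
  have hN0 : ∀ V, Algebra.norm k (e V) ≠ 0 := fun V => by
    rw [Ne, Algebra.norm_eq_zero_iff]; exact he V
  -- the omitted place
  obtain ⟨V₀, hV₀, hV₀S, htV₀⟩ : ∃ V₀ : ValuationSubring k, V₀ ≠ ⊤ ∧ V₀ ∉ S ∧ t ∈ V₀ := by
    have h1 : (S : Set (ValuationSubring k)).Finite := S.finite_toSet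
    obtain ⟨V, hV, hV'⟩ := (hφ.infinite_places.diff (h1.union (hφ.hfin t))).nonempty
    simp only [Set.mem_union, not_or, Set.mem_ofPred_eq, not_not] at hV'
    exact ⟨V, hV, hV'.1, hV'.2⟩
  obtain ⟨W₀, hW₀⟩ : ∃ W₀ : ValuationSubring K, W₀ ∈ above K V₀ := by
    by_contra hcon
    push Not at hcon
    obtain ⟨b, hb⟩ := hφ.exists_not_LT hV₀ ht
    obtain ⟨x, hx⟩ := Algebra.trace_surjective k K b
    apply hb
    rw [← hx]
    exact hφ.LT_trace hV₀ ht htK fun W hW => absurd hW (hcon W)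
  have hW₀t : W₀ ≠ ⊤ := above_ne_top hV₀ hW₀
  -- the places where `b` is prescribed
  have hfinS : {W : ValuationSubring K | W ≠ W₀ ∧ ((∃ V ∈ S, W ∈ above K V) ∨
      W ∈ above K V₀ ∨ (W ≠ ⊤ ∧ algebraMap k K t ∉ W))}.Finite := by
    have h1 : (⋃ V ∈ S, above K V).Finite :=
      S.finite_toSet.biUnion fun V hV => hφ.above_finite (hS V hV)
    refine ((h1.union (hφ.above_finite (K := K) hV₀)).union (hφK.hfin (algebraMap k K t))).subset ?_
    rintro W ⟨-, ⟨V, hV, hW⟩ | hW | ⟨-, hW⟩⟩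
    · exact Or.inl (Or.inl (Set.mem_biUnion hV hW))
    · exact Or.inl (Or.inr hW)
    · exact Or.inr hW
  have hsm : ∀ W : ValuationSubring K, ∃ d : K, d ≠ 0 ∧ (W ≠ ⊤ → ∀ x : K, x / d ∈ W → LT htK W x) := by
    intro W
    by_cases hW : W = ⊤
    · exact ⟨1, one_ne_zero, fun h => absurd hW h⟩
    · obtain ⟨d, hd, hd'⟩ := hφK.LT_small hW htK
      exact ⟨d, hd, fun _ => hd'⟩
  choose d hd0 hd using hsm
  obtain ⟨b, hb1, hb2⟩ := hφK.strong_approx hW₀t hfinS.toFinset (by
    intro W hW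
    rw [Set.Finite.mem_toFinset] at hW
    refine ⟨?_, hW.1⟩
    rcases hW.2 with ⟨V, hV, hWV⟩ | hW' | ⟨hW', -⟩
    · exact above_ne_top (hS V hV) hWV
    · exact above_ne_top hV₀ hW'
    · exact hW') (fun W => htK.sym (algebraMap k K a) (e (W.comap (algebraMap k K)))) d
    (fun W _ => hd0 W)
  -- local behaviour of `b` away from `W₀`
  have hbW : ∀ W : ValuationSubring K, W ≠ ⊤ → W ≠ W₀ →
      LT htK W (b + htK.sym (algebraMap k K a) (e (W.comap (algebraMap k K)))) := by
    intro W hW hne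
    by_cases hWS : W ∈ hfinS.toFinset
    · have h1 := hd W hW _ (hb1 W hWS)
      rwa [CharTwo.sub_eq_add] at h1
    · have h1 : ¬ ((∃ V ∈ S, W ∈ above K V) ∨ W ∈ above K V₀ ∨
          (W ≠ ⊤ ∧ algebraMap k K t ∉ W)) := by
        intro hcon
        exact hWS (hfinS.mem_toFinset.2 ⟨hne, hcon⟩)
      rw [not_or, not_or] at h1
      obtain ⟨h3, -, h4⟩ := h1
      have h5 : algebraMap k K t ∈ W := by
        by_contra hcon
        exact h4 ⟨hW, hcon⟩
      have h6 : e (W.comap (algebraMap k K)) = 1 := by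
        apply heS
        intro hmem
        exact h3 ⟨_, hmem, rfl⟩
      rw [h6, htK.sym_one, add_zero]
      exact hφK.LT_of_mem hW htK h5 (hb2 W hW hne hWS)
  -- the trace of `b`
  have hbV : ∀ V : ValuationSubring k, V ≠ ⊤ → V ≠ V₀ →
      LT ht V (Algebra.trace k K b + ht.sym a (Algebra.norm k (e V))) := by
    intro V hV hne
    rw [ht.sym_norm htK a (he V), ← map_add]
    refine hφ.LT_trace hV ht htK fun W hW => ?_
    have hWne : W ≠ W₀ := by
      rintro rfl
      apply hne
      have h1 : W.comap (algebraMap k K) = V := hW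
      have h2 : W.comap (algebraMap k K) = V₀ := hW₀
      rw [← h1, h2]
    have h3 := hbW W (above_ne_top hV hW) hWne
    have h4 : W.comap (algebraMap k K) = V := hW
    rwa [h4] at h3
  have hV₀L : LT ht V₀ (Algebra.trace k K b) := by
    by_contra hcon
    have h1 : badSet ht (Algebra.trace k K b) =
        insert V₀ {V : ValuationSubring k | V ≠ ⊤ ∧ ¬ NW V a (Algebra.norm k (e V))} := by
      ext V
      constructor
      · rintro ⟨hV, hVL⟩
        by_cases hne : V = V₀
        · exact Or.inl hne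
        · right
          refine ⟨hV, fun hN => hVL ?_⟩
          rw [hφ.NW_iff hV ht a (hN0 V)] at hN
          exact (LT.congr (hbV V hV hne)).2 hN
      · rintro (rfl | ⟨hV, hN⟩)
        · exact ⟨hV₀, hcon⟩
        · refine ⟨hV, fun hL => hN ?_⟩
          have hne : V ≠ V₀ := by
            rintro rfl
            apply hN
            rw [heS V hV₀S, map_one]
            exact NW.of_norm V (X := 1) (Y := 0) (by rw [nf]; ring)
          rw [hφ.NW_iff hV ht a (hN0 V)]
          exact (LT.congr (hbV V hV hne)).1 hL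
    have h2 := hφ.reciprocity ht (Algebra.trace k K b)
    have hfin2 : {V : ValuationSubring k | V ≠ ⊤ ∧ ¬ NW V a (Algebra.norm k (e V))}.Finite := by
      refine S.finite_toSet.subset ?_
      rintro V ⟨hV, hN⟩
      by_contra hVS
      apply hN
      rw [heS V hVS, map_one]
      exact NW.of_norm V (X := 1) (Y := 0) (by rw [nf]; ring)
    rw [h1, Set.ncard_insert_of_notMem (by
      rintro ⟨-, hN⟩
      apply hN
      rw [heS V₀ hV₀S, map_one]
      exact NW.of_norm V₀ (X := 1) (Y := 0) (by rw [nf]; ring)) hfin2] at h2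
    exact (Nat.even_add_one.1 h2) hpar
  have hW₀L : LT htK W₀ b := by
    refine hφ.LT_of_trace hV₀ ht htK hW₀ (fun W hW hne => ?_) hV₀L
    have h3 := hbW W (above_ne_top hV₀ hW) hne
    have h4 : W.comap (algebraMap k K) = V₀ := hW
    rwa [h4, heS V₀ hV₀S, htK.sym_one, add_zero] at h3
  obtain ⟨δ, hδ0, hδ⟩ := hφK.exists_symbol htK (algebraMap k K a) b
    (fun W => e (W.comap (algebraMap k K))) (fun W _ => he _) (by
      intro W hW
      by_cases hne : W = W₀
      · subst hne
        have h4 : W.comap (algebraMap k K) = V₀ := hW₀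
        simp only [h4, heS V₀ hV₀S, htK.sym_one, add_zero]
        exact hW₀L
      · exact hbW W hW hne)
  refine ⟨δ, hδ0, fun V hV W hW => ?_⟩
  have h4 : W.comap (algebraMap k K) = V := hW
  have h5 := hδ W (above_ne_top hV hW)
  simp only [h4] at h5
  exact h5

end

end Pool.Agent.Helper26
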