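import Mathlib
import Pool.Agent.Helper26.ChSel
import Pool.Agent.Helper26.Delta

set_option autoImplicit false
set_option linter.unusedSectionVars false

/-!
# Parity bookkeeping
-/

universe u v

namespace Pool.Agent.Helper26

open Polynomial Finset

section

variable {F : Type v} {k : Type u} [Field F] [Finite F] [CharP F 2] [Field k] [CharP k 2]

/-- The norm symbol at `V`, with values in `ZMod 2`. -/
noncomputable def chi (V : ValuationSubring k) (a e : k) : ZMod 2 :=
  open Classical in if NW V a e then 0 else 1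

lemma chi_eq_zero {V : ValuationSubring k} {a e : k} : chi V a e = 0 ↔ NW V a e := by
  unfold chi
  split_ifs with h <;> simp [h]

lemma chi_eq_one {V : ValuationSubring k} {a e : k} : chi V a e = 1 ↔ ¬ NW V a e := by
  unfold chi
  split_ifs with h <;> simp [h]

lemma zmod_two (x : ZMod 2) : x = 0 ∨ x = 1 := by
  revert x; decide

lemma GoodEmb.chi_mul {φ : RatFunc F →+* k} (hφ : GoodEmb φ) {V : ValuationSubring k}
    (hV : V ≠ ⊤) (a : k) {x y : k} (hx0 : x ≠ 0) (hy0 : y ≠ 0) :
    chi V a (x * y) = chi V a x + chi V a y := by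
  rcases zmod_two (chi V a x) with hx | hx <;> rcases zmod_two (chi V a y) with hy | hy
  · rw [hx, hy, add_zero, chi_eq_zero]
    exact hφ.NW_mul hV hx0 hy0 (chi_eq_zero.1 hx) (chi_eq_zero.1 hy)
  · rw [hx, hy, zero_add, chi_eq_one]
    intro h
    exact chi_eq_one.1 hy ((hφ.NW_mul_iff hV hx0 hy0 h).1 (chi_eq_zero.1 hx))
  · rw [hx, hy, add_zero, chi_eq_one]
    intro h
    exact chi_eq_one.1 hx ((hφ.NW_mul_iff hV hx0 hy0 h).2 (chi_eq_zero.1 hy))
  · rw [hx, hy, show (1 : ZMod 2) + 1 = 0 from rfl, chi_eq_zero]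
    exact hφ.NW_mul_of_not hV hx0 hy0 (chi_eq_one.1 hx) (chi_eq_one.1 hy)

lemma chi_one (V : ValuationSubring k) (a : k) : chi V a 1 = 0 := by
  rw [chi_eq_zero]
  have := NW.of_sq V a 1
  rwa [one_pow] at this

lemma GoodEmb.chi_prod {φ : RatFunc F →+* k} (hφ : GoodEmb φ) {V : ValuationSubring k}
    (hV : V ≠ ⊤) (a : k) {J : Type*} (s : Finset J) (x : J → k) (hx : ∀ j ∈ s, x j ≠ 0) :
    chi V a (∏ j ∈ s, x j) = ∑ j ∈ s, chi V a (x j) := by
  classical
  induction s using Finset.induction_on with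
  | empty => simp [chi_one]
  | insert b s hb ih =>
    rw [Finset.prod_insert hb, Finset.sum_insert hb, hφ.chi_mul hV a
      (hx b (Finset.mem_insert_self _ _)) (Finset.prod_ne_zero_iff.2 fun j hj =>
        hx j (Finset.mem_insert_of_mem hj)), ih fun j hj => hx j (Finset.mem_insert_of_mem hj)]

lemma GoodEmb.chi_pow {φ : RatFunc F →+* k} (hφ : GoodEmb φ) {V : ValuationSubring k}
    (hV : V ≠ ⊤) (a : k) {x : k} (hx : x ≠ 0) (n : ℕ) :
    chi V a (x ^ n) = (n : ZMod 2) * chi V a x := by
  induction n with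
  | zero => simp [chi_one]
  | succ n ih =>
    rw [pow_succ, hφ.chi_mul hV a (pow_ne_zero _ hx) hx, ih, Nat.cast_succ]
    ring

lemma even_ncard_iff (S : Finset (ValuationSubring k)) (a : k) (e : ValuationSubring k → k) :
    Even {V : ValuationSubring k | V ∈ S ∧ ¬ NW V a (e V)}.ncard ↔
      ∑ V ∈ S, chi V a (e V) = 0 := by
  classical
  have h1 : {V : ValuationSubring k | V ∈ S ∧ ¬ NW V a (e V)} =
      ((S.filter fun V => ¬ NW V a (e V) : Finset (ValuationSubring k)) :
        Set (ValuationSubring k)) := by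
    ext V; simp
  have h2 : ∑ V ∈ S, chi V a (e V) = ((S.filter fun V => ¬ NW V a (e V)).card : ZMod 2) := by
    rw [Finset.card_eq_sum_ones, Nat.cast_sum, Finset.sum_filter]
    refine Finset.sum_congr rfl fun V _ => ?_
    unfold chi
    split_ifs <;> simp_all
  rw [h1, Set.ncard_coe_finset, h2, ZMod.natCast_eq_zero_iff_even]

/-- The product formula. -/
lemma GoodEmb.chi_sum {φ : RatFunc F →+* k} (hφ : GoodEmb φ) (a : k) {c : k} (hc : c ≠ 0)
    (S : Finset (ValuationSubring k)) (hS : ∀ V ∈ S, V ≠ ⊤)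
    (hcS : ∀ V : ValuationSubring k, V ≠ ⊤ → V ∉ S → NW V a c) :
    ∑ V ∈ S, chi V a c = 0 := by
  rw [← even_ncard_iff S a fun _ => c]
  have h1 : {V : ValuationSubring k | V ∈ S ∧ ¬ NW V a c} =
      {V : ValuationSubring k | V ≠ ⊤ ∧ ¬ NW V a c} := by
    ext V
    constructor
    · rintro ⟨h, h'⟩; exact ⟨hS V h, h'⟩
    · rintro ⟨h, h'⟩
      refine ⟨?_, h'⟩
      by_contra hV
      exact h' (hcS V h hV)
  rw [h1]
  exact (hφ.norm_parity hc).2

/-- Norms of elements which are norms at all places above `V`. -/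
lemma GoodEmb.norm_NW {φ : RatFunc F →+* k} (hφ : GoodEmb φ) {K : Type u} [Field K] [CharP K 2]
    [Algebra k K] [FiniteDimensional k K] [Algebra.IsSeparable k K] {V : ValuationSubring k}
    (hV : V ≠ ⊤) (a : k) {e : K} (he : e ≠ 0)
    (h : ∀ W ∈ above K V, NW W (algebraMap k K a) e) : NW V a (Algebra.norm k e) := by
  have ht := hφ.isTwoBasis
  have htK : IsTwoBasis (algebraMap k K (φ RatFunc.X)) := ht.extend
  rw [hφ.NW_iff hV ht a (Algebra.norm_ne_zero_iff.2 he), ht.sym_norm htK a he]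
  apply hφ.LT_trace hV ht htK
  intro W hW
  exact ((hφ.ext (K := K)).NW_iff (above_ne_top hV hW) htK (algebraMap k K a) he).1 (h W hW)

/-- The norm of an element which is a global norm is a global norm. -/
lemma GoodEmb.norm_nf {φ : RatFunc F →+* k} (hφ : GoodEmb φ) {K : Type u} [Field K] [CharP K 2]
    [Algebra k K] [FiniteDimensional k K] [Algebra.IsSeparable k K] (a : k) {e : K} (he : e ≠ 0)
    (h : ∃ X Y : K, e = nf (algebraMap k K a) X Y) {V : ValuationSubring k} (hV : V ≠ ⊤) :
    NW V a (Algebra.norm k e) := by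
  obtain ⟨X, Y, h⟩ := h
  exact hφ.norm_NW hV a he fun W _ => NW.of_norm W h

end

section

/-- The combinatorics of the four cases. -/
lemma parity_cases {ι : Type*} [Fintype ι] (n : ι → ℕ) (hn : ∀ i, 1 ≤ n i) (hsum : ∑ i, n i = 4)
    (χ : ι → ZMod 2) (htot : ∑ i, χ i = 0)
    (hT : ∀ T : Finset ι, ∑ i ∈ T, n i = 2 → ∑ i ∈ T, χ i = 0) :
    (∀ i, χ i = 0) ∨ ((∀ i, χ i = (n i : ZMod 2)) ∧ ∃ i, χ i = 1) := by
  classical
  have hev : ∀ i, Even (n i) → χ i = 0 := by
    intro i hi
    have h1 : n i + ∑ j ∈ univ.erase i, n j = 4 := by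
      rw [Finset.add_sum_erase _ _ (Finset.mem_univ i)]; exact hsum
    have h2 := hn i
    have h3 : n i = 2 ∨ n i = 4 := by
      obtain ⟨m, hm⟩ := hi
      omega
    rcases h3 with h3 | h3
    · have := hT {i} (by simpa using h3)
      simpa using this
    · have h4 : ∑ j ∈ univ.erase i, n j = 0 := by omega
      have h5 : univ.erase i = (∅ : Finset ι) := by
        by_contra hne
        obtain ⟨j, hj⟩ := Finset.nonempty_iff_ne_empty.2 hne
        have h6 := (Finset.sum_eq_zero_iff.1 h4) j hj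
        have := hn j
        omega
      have h6 : χ i + ∑ j ∈ univ.erase i, χ j = 0 := by
        rw [Finset.add_sum_erase _ _ (Finset.mem_univ i)]; exact htot
      rw [h5, Finset.sum_empty, add_zero] at h6
      exact h6
  have hodd : ∀ i j, Odd (n i) → Odd (n j) → χ i = χ j := by
    intro i j hi hj
    by_cases hij : i = j
    · rw [hij]
    have hj' : j ∈ univ.erase i := Finset.mem_erase.2 ⟨Ne.symm hij, Finset.mem_univ j⟩
    have h1 : n i + (n j + ∑ l ∈ (univ.erase i).erase j, n l) = 4 := by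
      rw [Finset.add_sum_erase _ _ hj', Finset.add_sum_erase _ _ (Finset.mem_univ i)]; exact hsum
    have hadd : χ i + χ j = 0 → χ i = χ j := by
      intro h
      rcases zmod_two (χ i) with h2 | h2 <;> rcases zmod_two (χ j) with h3 | h3 <;>
        rw [h2, h3] at h ⊢ <;> revert h <;> decide
    obtain ⟨m, hm⟩ := hi
    obtain ⟨m', hm'⟩ := hj
    by_cases h2 : n i = 1 ∧ n j = 1
    · apply hadd
      have := hT {i, j} (by rw [Finset.sum_pair hij]; omega)
      rwa [Finset.sum_pair hij] at this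
    · apply hadd
      have h4 : ∑ l ∈ (univ.erase i).erase j, n l = 0 := by omega
      have h5 : (univ.erase i).erase j = (∅ : Finset ι) := by
        by_contra hne
        obtain ⟨l, hl⟩ := Finset.nonempty_iff_ne_empty.2 hne
        have h6 := (Finset.sum_eq_zero_iff.1 h4) l hl
        have := hn l
        omega
      have h6 : χ i + (χ j + ∑ l ∈ (univ.erase i).erase j, χ l) = 0 := by
        rw [Finset.add_sum_erase _ _ hj', Finset.add_sum_erase _ _ (Finset.mem_univ i)]
        exact htot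
      rwa [h5, Finset.sum_empty, add_zero] at h6
  by_cases hall : ∀ i, χ i = 0
  · exact Or.inl hall
  · right
    push Not at hall
    obtain ⟨i₀, hi₀⟩ := hall
    have h1 : χ i₀ = 1 := (zmod_two _).resolve_left hi₀
    have hodd₀ : Odd (n i₀) := by
      rw [← Nat.not_even_iff_odd]
      intro h; exact hi₀ (hev i₀ h)
    refine ⟨fun i => ?_, i₀, h1⟩
    rcases Nat.even_or_odd (n i) with h | h
    · rw [hev i h, (ZMod.natCast_eq_zero_iff_even).2 h]
    · rw [hodd i i₀ h hodd₀, h1, (ZMod.natCast_eq_one_iff_odd).2 h]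

end

end Pool.Agent.Helper26
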