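import Mathlib
import Pool.Agent.Helper26.ChPar

set_option autoImplicit false
set_option linter.unusedSectionVars false

/-!
# From local data to multipliers
-/

universe u v

namespace Pool.Agent.Helper26

open Polynomial Finset

section

variable {k : Type u} [Field k]

/-- The element `A + B θ`. -/
def lin {K : Type*} [Field K] [Algebra k K] (θ : K) (A B : k) : K :=
  algebraMap k K A + algebraMap k K B * θ

lemma lin_smul {K : Type*} [Field K] [Algebra k K] (θ : K) (ρ A B : k) :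
    lin θ (ρ * A) (ρ * B) = algebraMap k K ρ * lin θ A B := by
  rw [lin, lin, map_mul, map_mul]; ring

lemma lin_one {K : Type*} [Field K] [Algebra k K] (θ : K) : lin θ (1 : k) 0 = 1 := by
  rw [lin, map_one, map_zero, zero_mul, add_zero]

end

section

variable {F : Type v} {k : Type u} [Field F] [Finite F] [CharP F 2] [Field k] [CharP k 2]
  {ι : Type*} [Fintype ι] {K : ι → Type u} [∀ i, Field (K i)] [∀ i, CharP (K i) 2]
  [∀ i, Algebra k (K i)] [∀ i, FiniteDimensional k (K i)] [∀ i, Algebra.IsSeparable k (K i)]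

lemma eq_of_add_zmod {x y : ZMod 2} (h : x + y = 0) : x = y := by
  revert x y; decide

/-- Correction of the local data by a local non-norm. -/
theorem GoodEmb.fix_parity {φ : RatFunc F →+* k} (hφ : GoodEmb φ) {θ : ∀ i, K i}
    (hsum : ∑ i, Module.finrank k (K i) = 4) (a : k) {c : k} (hc : c ≠ 0)
    (S : Finset (ValuationSubring k)) (hS : ∀ V ∈ S, V ≠ ⊤)
    (hcS : ∀ V : ValuationSubring k, V ≠ ⊤ → V ∉ S → NW V a c) (A B : ValuationSubring k → k)
    (hAB : ∀ V ∈ S, ∀ i, lin (θ i) (A V) (B V) ≠ 0)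
    (hN : ∀ V ∈ S, NW V a (c * ∏ i, Algebra.norm k (lin (θ i) (A V) (B V))))
    (hT : ∀ T : Finset ι, ∑ i ∈ T, Module.finrank k (K i) = 2 →
      ∑ V ∈ S, chi V a (∏ i ∈ T, Algebra.norm k (lin (θ i) (A V) (B V))) = 0) :
    ∃ A' B' : ValuationSubring k → k, (∀ V ∈ S, ∀ i, lin (θ i) (A' V) (B' V) ≠ 0) ∧
      (∀ V ∈ S, NW V a (c * ∏ i, Algebra.norm k (lin (θ i) (A' V) (B' V)))) ∧
      ∀ i, ∑ V ∈ S, chi V a (Algebra.norm k (lin (θ i) (A' V) (B' V))) = 0 := by
  classical
  have hn0 : ∀ V ∈ S, ∀ i, Algebra.norm k (lin (θ i) (A V) (B V)) ≠ 0 := fun V hV i =>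
    Algebra.norm_ne_zero_iff.2 (hAB V hV i)
  have hsumT : ∀ T : Finset ι, ∑ i ∈ T, ∑ V ∈ S, chi V a (Algebra.norm k (lin (θ i) (A V) (B V))) =
      ∑ V ∈ S, chi V a (∏ i ∈ T, Algebra.norm k (lin (θ i) (A V) (B V))) := by
    intro T
    rw [Finset.sum_comm]
    exact Finset.sum_congr rfl fun V hV => (hφ.chi_prod (hS V hV) a T _ fun i _ => hn0 V hV i).symm
  have htot : ∑ i, ∑ V ∈ S, chi V a (Algebra.norm k (lin (θ i) (A V) (B V))) = 0 := by
    rw [hsumT, ← hφ.chi_sum a hc S hS hcS]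
    refine Finset.sum_congr rfl fun V hV => ?_
    have h1 := chi_eq_zero.2 (hN V hV)
    rw [hφ.chi_mul (hS V hV) a hc (Finset.prod_ne_zero_iff.2 fun i _ => hn0 V hV i)] at h1
    exact (eq_of_add_zmod h1).symm
  rcases parity_cases (fun i => Module.finrank k (K i)) (fun i => Module.finrank_pos) hsum
    (fun i => ∑ V ∈ S, chi V a (Algebra.norm k (lin (θ i) (A V) (B V)))) htot
    (fun T hT2 => by rw [hsumT]; exact hT T hT2) with h | ⟨h, i₀, hi₀⟩
  · exact ⟨A, B, hAB, hN, h⟩
  · -- a place with a non-norm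
    obtain ⟨V₁, hV₁, h1⟩ : ∃ V ∈ S, chi V a (Algebra.norm k (lin (θ i₀) (A V) (B V))) ≠ 0 := by
      by_contra hcon
      push Not at hcon
      rw [Finset.sum_eq_zero hcon] at hi₀
      exact zero_ne_one hi₀
    set ρ := Algebra.norm k (lin (θ i₀) (A V₁) (B V₁)) with hρ
    have hρ0 : ρ ≠ 0 := hn0 V₁ hV₁ i₀
    have hρ1 : chi V₁ a ρ = 1 := (zmod_two _).resolve_left h1
    have hnorm : ∀ i, Algebra.norm k (lin (θ i) (ρ * A V₁) (ρ * B V₁)) =
        ρ ^ Module.finrank k (K i) * Algebra.norm k (lin (θ i) (A V₁) (B V₁)) := by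
      intro i
      rw [lin_smul, map_mul, Algebra.norm_algebraMap]
    refine ⟨Function.update A V₁ (ρ * A V₁), Function.update B V₁ (ρ * B V₁), ?_, ?_, ?_⟩
    · intro V hV i
      by_cases hVV : V = V₁
      · subst hVV
        rw [Function.update_self, Function.update_self, lin_smul]
        exact mul_ne_zero (by rw [Ne, map_eq_zero]; exact hρ0) (hAB V hV i)
      · rw [Function.update_of_ne hVV, Function.update_of_ne hVV]
        exact hAB V hV i
    · intro V hV
      by_cases hVV : V = V₁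
      · subst hVV
        simp only [Function.update_self, hnorm]
        rw [Finset.prod_mul_distrib, Finset.prod_pow_eq_pow_sum, hsum]
        have h3 : c * (ρ ^ 4 * ∏ i, Algebra.norm k (lin (θ i) (A V) (B V))) =
            (c * ∏ i, Algebra.norm k (lin (θ i) (A V) (B V))) * (ρ ^ 2) ^ 2 := by ring
        rw [h3]
        refine hφ.NW_mul (hS V hV) (mul_ne_zero hc (Finset.prod_ne_zero_iff.2
          fun i _ => hn0 V hV i)) (pow_ne_zero _ (pow_ne_zero _ hρ0)) (hN V hV) (NW.of_sq V a _)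
      · simp only [Function.update_of_ne hVV]
        exact hN V hV
    · intro i
      have h3 : ∀ V ∈ S, chi V a (Algebra.norm k (lin (θ i) (Function.update A V₁ (ρ * A V₁) V)
          (Function.update B V₁ (ρ * B V₁) V))) =
          chi V a (Algebra.norm k (lin (θ i) (A V) (B V))) +
          if V = V₁ then (Module.finrank k (K i) : ZMod 2) else 0 := by
        intro V hV
        by_cases hVV : V = V₁
        · subst hVV
          rw [Function.update_self, Function.update_self, hnorm, hφ.chi_mul (hS V hV) a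
            (pow_ne_zero _ hρ0) (hn0 V hV i), hφ.chi_pow (hS V hV) a hρ0, hρ1, if_pos rfl,
            mul_one, add_comm]
        · rw [Function.update_of_ne hVV, Function.update_of_ne hVV, if_neg hVV, add_zero]
      rw [Finset.sum_congr rfl h3, Finset.sum_add_distrib, Finset.sum_ite_eq' S V₁, if_pos hV₁]
      rw [h i]
      exact CharTwo.add_self_eq_zero _

/-- The multipliers. -/
theorem GoodEmb.exists_deltas {φ : RatFunc F →+* k} (hφ : GoodEmb φ) {θ : ∀ i, K i} (a : k)
    (S : Finset (ValuationSubring k)) (hS : ∀ V ∈ S, V ≠ ⊤) (A B : ValuationSubring k → k)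
    (hAB : ∀ V ∈ S, ∀ i, lin (θ i) (A V) (B V) ≠ 0)
    (hpar : ∀ i, ∑ V ∈ S, chi V a (Algebra.norm k (lin (θ i) (A V) (B V))) = 0) :
    ∃ δ : ∀ i, K i, (∀ i, δ i ≠ 0) ∧
      (∀ V : ValuationSubring k, V ≠ ⊤ → V ∉ S → ∀ i, ∀ W ∈ above (K i) V,
        NW W (algebraMap k (K i) a) (δ i)) ∧
      (∀ V ∈ S, ∀ i, ∀ W ∈ above (K i) V,
        NW W (algebraMap k (K i) a) (δ i * lin (θ i) (A V) (B V))) := by
  classical
  have key : ∀ i, ∃ δ : K i, δ ≠ 0 ∧
      (∀ V : ValuationSubring k, V ≠ ⊤ → V ∉ S → ∀ W ∈ above (K i) V,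
        NW W (algebraMap k (K i) a) δ) ∧
      (∀ V ∈ S, ∀ W ∈ above (K i) V,
        NW W (algebraMap k (K i) a) (δ * lin (θ i) (A V) (B V))) := by
    intro i
    obtain ⟨δ, hδ0, hδ⟩ := hφ.exists_delta (K := K i) a S hS
      (fun V => if V ∈ S then lin (θ i) (A V) (B V) else 1) (by
        intro V
        split_ifs with h
        · exact hAB V h i
        · exact one_ne_zero) (by
        intro V hV
        exact if_neg hV) (by
        have h1 : {V : ValuationSubring k | V ≠ ⊤ ∧ ¬ NW V a (Algebra.norm k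
            (if V ∈ S then lin (θ i) (A V) (B V) else 1))} =
            {V : ValuationSubring k | V ∈ S ∧ ¬ NW V a
              (Algebra.norm k (lin (θ i) (A V) (B V)))} := by
          ext V
          constructor
          · rintro ⟨h1, h3⟩
            by_cases hV : V ∈ S
            · rw [if_pos hV] at h3
              exact ⟨hV, h3⟩
            · exfalso
              apply h3
              rw [if_neg hV, map_one]
              have := NW.of_sq V a 1
              rwa [one_pow] at this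
          · rintro ⟨h1, h3⟩
            refine ⟨hS V h1, ?_⟩
            rw [if_pos h1]; exact h3
        rw [h1, even_ncard_iff S a fun V => Algebra.norm k (lin (θ i) (A V) (B V))]
        exact hpar i)
    refine ⟨δ, hδ0, fun V hV hVS W hW => ?_, fun V hV W hW => ?_⟩
    · have := hδ V hV W hW
      rwa [if_neg hVS, mul_one] at this
    · have := hδ V (hS V hV) W hW
      rwa [if_pos hV] at this
  choose δ h0 h1 h3 using key
  exact ⟨δ, h0, fun V hV hVS i => h1 i V hV hVS, fun V hV i => h3 i V hV⟩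

/-- The product of the norms of the multipliers. -/
theorem GoodEmb.prod_delta {φ : RatFunc F →+* k} (hφ : GoodEmb φ) {θ : ∀ i, K i} (a : k)
    {c : k} (hc : c ≠ 0) (S : Finset (ValuationSubring k)) (hS : ∀ V ∈ S, V ≠ ⊤)
    (hcS : ∀ V : ValuationSubring k, V ≠ ⊤ → V ∉ S → NW V a c) (A B : ValuationSubring k → k)
    (hAB : ∀ V ∈ S, ∀ i, lin (θ i) (A V) (B V) ≠ 0)
    (hN : ∀ V ∈ S, NW V a (c * ∏ i, Algebra.norm k (lin (θ i) (A V) (B V))))
    (δ : ∀ i, K i) (hδ0 : ∀ i, δ i ≠ 0)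
    (hδ1 : ∀ V : ValuationSubring k, V ≠ ⊤ → V ∉ S → ∀ i, ∀ W ∈ above (K i) V,
        NW W (algebraMap k (K i) a) (δ i))
    (hδ2 : ∀ V ∈ S, ∀ i, ∀ W ∈ above (K i) V,
        NW W (algebraMap k (K i) a) (δ i * lin (θ i) (A V) (B V)))
    {V : ValuationSubring k} (hV : V ≠ ⊤) :
    chi V a c + ∑ i, chi V a (Algebra.norm k (δ i)) = 0 := by
  by_cases hVS : V ∈ S
  · have h1 : ∀ i, chi V a (Algebra.norm k (δ i)) =
        chi V a (Algebra.norm k (lin (θ i) (A V) (B V))) := by
      intro i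
      have h3 := hφ.norm_NW hV a (mul_ne_zero (hδ0 i) (hAB V hVS i)) (hδ2 V hVS i)
      rw [map_mul, ← chi_eq_zero, hφ.chi_mul hV a (Algebra.norm_ne_zero_iff.2 (hδ0 i))
        (Algebra.norm_ne_zero_iff.2 (hAB V hVS i))] at h3
      exact eq_of_add_zmod h3
    have h4 := chi_eq_zero.2 (hN V hVS)
    rw [hφ.chi_mul hV a hc (Finset.prod_ne_zero_iff.2 fun i _ =>
      Algebra.norm_ne_zero_iff.2 (hAB V hVS i)), hφ.chi_prod hV a _ _ fun i _ =>
      Algebra.norm_ne_zero_iff.2 (hAB V hVS i)] at h4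
    rw [Finset.sum_congr rfl fun i _ => h1 i]
    exact h4
  · rw [chi_eq_zero.2 (hcS V hV hVS), zero_add]
    exact Finset.sum_eq_zero fun i _ =>
      chi_eq_zero.2 (hφ.norm_NW hV a (hδ0 i) (hδ1 V hV hVS i))

/-- The end of the argument. -/
theorem GoodEmb.finish {φ : RatFunc F →+* k} (hφ : GoodEmb φ) {θ : ∀ i, K i} (a : k)
    {c : k} (hc : c ≠ 0) (δ : ∀ i, K i) (hδ0 : ∀ i, δ i ≠ 0)
    (hδ : ∀ V : ValuationSubring k, V ≠ ⊤ → chi V a c + ∑ i, chi V a (Algebra.norm k (δ i)) = 0)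
    (A B : k) (h : ∀ i, lin (θ i) A B ≠ 0 → ∀ V : ValuationSubring k, V ≠ ⊤ →
      NW V a (Algebra.norm k (δ i * lin (θ i) A B))) :
    ∃ y z : k, c * ∏ i, Algebra.norm k (lin (θ i) A B) = nf a y z := by
  by_cases h0 : ∃ i, lin (θ i) A B = 0
  · obtain ⟨i, hi⟩ := h0
    refine ⟨0, 0, ?_⟩
    rw [Finset.prod_eq_zero (Finset.mem_univ i) (by rw [hi, Algebra.norm_zero]), nf]
    ring
  · push Not at h0
    have hn0 : ∀ i ∈ (Finset.univ : Finset ι), Algebra.norm k (lin (θ i) A B) ≠ 0 :=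
      fun i _ => Algebra.norm_ne_zero_iff.2 (h0 i)
    apply hφ.hasse_norm (mul_ne_zero hc (Finset.prod_ne_zero_iff.2 hn0))
    intro V hV
    rw [← chi_eq_zero, hφ.chi_mul hV a hc (Finset.prod_ne_zero_iff.2 hn0),
      hφ.chi_prod hV a _ _ hn0, ← hδ V hV]
    congr 1
    refine Finset.sum_congr rfl fun i _ => ?_
    have h3 := h i (h0 i) V hV
    rw [map_mul, ← chi_eq_zero, hφ.chi_mul hV a (Algebra.norm_ne_zero_iff.2 (hδ0 i))
        (Algebra.norm_ne_zero_iff.2 (h0 i))] at h3
    exact (eq_of_add_zmod h3).symm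

end

end Pool.Agent.Helper26
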