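import Mathlib
import Pool.Agent.Helper26.HP8c
import Pool.Agent.Helper26.ChAlg

set_option autoImplicit false
set_option linter.unusedSectionVars false

/-!
# The Hasse principle for the pair attached to a quartic algebra
-/

universe u v

namespace Pool.Agent.Helper26

open Polynomial Matrix Finset

/-- The hyperplane `z 7 = 0`. -/
def T7 {R : Type*} [CommRing R] (i : Fin 7) : Fin 8 → R := Pi.single i.castSucc 1

lemma comb_T7_castSucc {R : Type*} [CommRing R] (w : Fin 7 → R) (i : Fin 7) :
    comb T7 w i.castSucc = w i := by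
  simp only [comb, T7]
  rw [Finset.sum_eq_single i]
  · simp
  · intro j _ hj
    rw [Pi.single_eq_of_ne, mul_zero]
    intro h
    exact hj (Fin.castSucc_injective _ h).symm
  · intro h; exact absurd (Finset.mem_univ i) h

lemma comb_T7_last {R : Type*} [CommRing R] (w : Fin 7 → R) : comb T7 w 7 = 0 := by
  simp only [comb, T7]
  apply Finset.sum_eq_zero
  intro j _
  rw [Pi.single_eq_of_ne, mul_zero]
  intro h
  have := congrArg Fin.val h
  have h2 := j.2
  simp at this
  omega

lemma T7_map {R S : Type*} [CommRing R] [CommRing S] (f : R →+* S) :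
    (fun (i : Fin 7) (j : Fin 8) => f (T7 i j)) = T7 := by
  ext i j
  simp only [T7]
  by_cases h : j = i.castSucc
  · subst h; simp
  · rw [Pi.single_eq_of_ne h, Pi.single_eq_of_ne h, map_zero]

theorem ch_hp {F : Type v} {k : Type u} [Field F] [Finite F] [CharP F 2] [Field k]
    [CharP k 2] {φ : RatFunc F →+* k} (hφ : GoodEmb φ) [Infinite k]
    {P : k[X]} (hP : P.Monic) (hP4 : P.natDegree = 4) (hsep : P.Separable) (a : k)
    {Δ Δ' : k[X]} (hΔ : P ∣ Δ * Δ' - 1) (hΔ3 : Δ.natDegree < 4)
    (hΔd : Δ.coeff 0 * Δ.coeff 3 + Δ.coeff 1 * Δ.coeff 2 ≠ 0)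
    (hloc : ∀ V : ValuationSubring k, V ≠ ⊤ → ∃ z : Fin 8 → V.valuation.Completion,
      IsSmoothZero (fun i j => toCompletion V (chG P a Δ Δ' 0 i j))
        (fun i j => toCompletion V (chG P a Δ Δ' 1 i j)) z) :
    ∃ z : Fin 8 → k, z ≠ 0 ∧ tau P (chQ a Δ Δ' (Xp z) (Yp z)) = 0 ∧
      tau P (X * chQ a Δ Δ' (Xp z) (Yp z)) = 0 := by
  obtain ⟨z, hz0, hz1, hz2⟩ := hp_eight hφ (chG P a Δ Δ' 0) (chG P a Δ Δ' 1) T7 (by
    intro w hw
    ext i
    rw [← comb_T7_castSucc w i, hw]
    rfl) (by
    set f := algebraMap k (AlgebraicClosure k) with hf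
    have hchar : CharP (AlgebraicClosure k) 2 := charP_of_injective_algebraMap f.injective 2
    intro x hx h1 h2 r s hrs
    have hpl : ∀ j : ℕ, (fun i l => f (pull (chG P a Δ Δ' j) T7 i l)) =
        pull (chG (P.map f) (f a) (Δ.map f) (Δ'.map f) j) T7 := by
      intro j
      ext i l
      rw [pull_map, T7_map]
      congr 1
      ext i l
      exact chG_map f hP a Δ Δ' j i l
    rw [hpl] at h1 h2
    rw [hpl, hpl] at hrs
    rw [qf_pull, qf_chG] at h1 h2
    rw [pow_zero, one_mul] at h1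
    rw [pow_one] at h2
    refine ch_jac (P := P.map f) (hP.map f) (by rw [hP.natDegree_map, hP4])
      (hsep.map (f := f)).squarefree (f a) (Δ := Δ.map f) (Δ' := Δ'.map f) ?_ ?_ ?_
      (z := comb T7 x) ?_ (comb_T7_last x) h1 h2 ?_
    · have := Polynomial.map_dvd f hΔ
      simpa using this
    · rw [natDegree_map]; exact hΔ3
    · rw [coeff_map, coeff_map, coeff_map, coeff_map, ← map_mul, ← map_mul, ← map_add]
      intro h0
      exact hΔd (f.injective (by rw [h0, map_zero]))
    · intro h0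
      apply hx
      ext i
      rw [← comb_T7_castSucc x i, h0]
      rfl
    · intro i hi
      obtain ⟨i', rfl⟩ : ∃ i' : Fin 7, i = i'.castSucc := by
        refine ⟨⟨i, ?_⟩, rfl⟩
        have h3 := i.2
        have h4 : (i : ℕ) ≠ 7 := fun h => hi (Fin.ext h)
        omega
      have h3 := congrFun hrs i'
      rw [Matrix.add_mulVec, Matrix.smul_mulVec, Matrix.smul_mulVec, Pi.add_apply, Pi.smul_apply,
        Pi.smul_apply, mulVec_pull, mulVec_pull, Pi.zero_apply] at h3
      rw [Matrix.add_mulVec, Matrix.smul_mulVec, Matrix.smul_mulVec, Pi.add_apply, Pi.smul_apply,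
        Pi.smul_apply, ← h3]
      simp only [T7, single_dotProduct, one_mul]) hloc
  rw [qf_chG] at hz1 hz2
  rw [pow_zero, one_mul] at hz1
  rw [pow_one] at hz2
  exact ⟨z, hz0, hz1, hz2⟩

end Pool.Agent.Helper26
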