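import Mathlib
import Pool.Agent.Helper26.ChLoc

set_option autoImplicit false
set_option linter.unusedSectionVars false

/-!
# Local smooth zeros of the pair attached to a quartic algebra: conclusion
-/

universe u v

namespace Pool.Agent.Helper26

open Polynomial Finset

section

variable {F : Type v} {k : Type u} [Field F] [Finite F] [CharP F 2] [Field k] [CharP k 2]
  {ι : Type*} [Fintype ι] {K : ι → Type u} [∀ i, Field (K i)] [∀ i, CharP (K i) 2]
  [∀ i, Algebra k (K i)] [∀ i, FiniteDimensional k (K i)] [∀ i, Algebra.IsSeparable k (K i)]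

/-- The polynomials whose values have to be small. -/
noncomputable def auxD (a : k) (g : k[X]) (s : Fin 2 → k[X]) (p : Fin 5 × Fin 2 × Fin 2) : k[X] :=
  ![X ^ (p.2.1 : ℕ) * g, X ^ (p.2.1 : ℕ) * g * s p.2.2, C a * X ^ (p.2.1 : ℕ) * g * s p.2.2 ^ 2,
    g * s p.2.2 * s 0, C a * g * s p.2.2 ^ 2 * s 0] p.1

theorem CompEmb.loc_smooth {L : Type*} [Field L] {Γ₀ : Type*}
    [LinearOrderedCommGroupWithZero Γ₀] [Valued L Γ₀] [CompleteSpace L]
    {φ : RatFunc F →+* k} (hφ : GoodEmb φ) {P : k[X]} (hP : P.Monic)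
    (hP4 : P.natDegree = 4) {θ : ∀ i, K i} (hF : IsFam P K θ) {V : ValuationSubring k}
    (hV : V ≠ ⊤) {f : k →+* L} (hf : CompEmb V f) (a : k)
    {Δ Δ' : k[X]} (hΔ : P ∣ Δ * Δ' - 1) (A B : k)
    (hAB : ∀ i, algebraMap k (K i) A + algebraMap k (K i) B * θ i ≠ 0)
    (hNW : ∀ i, ∀ W ∈ above (K i) V, NW W (algebraMap k (K i) a)
      (aeval (θ i) Δ * (algebraMap k (K i) A + algebraMap k (K i) B * θ i))) :
    ∃ z : Fin 8 → L, IsSmoothZero (fun i j => f (chG P a Δ Δ' 0 i j))
      (fun i j => f (chG P a Δ Δ' 1 i j)) z := by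
  classical
  have hr := hφ.rankOne hV
  have hchar : CharP L 2 := charP_of_injective_ringHom f.injective 2
  set g : k[X] := C A + C B * X with hg
  have hgθ : ∀ i, aeval (θ i) g = algebraMap k (K i) A + algebraMap k (K i) B * θ i := by
    intro i
    rw [hg, map_add, map_mul, aeval_C, aeval_C, aeval_X]
  have hgd : g.natDegree ≤ 1 := by rw [hg, add_comm]; exact natDegree_linear_le
  -- inverse of `g`
  obtain ⟨G', -, hG'⟩ := hF.crt fun i => (aeval (θ i) g)⁻¹
  have hGP : P ∣ g * G' - 1 := by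
    apply hF.dvd
    intro i
    rw [map_sub, map_mul, hG', map_one, mul_inv_cancel₀ (by rw [hgθ]; exact hAB i), sub_self]
  obtain ⟨s, hs⟩ := exists_dualPair hP hP4 hGP
  -- sizes
  obtain ⟨θ₀, hθ00, hθ0⟩ := exists_nonunit hV
  obtain ⟨e, he0, he, hec⟩ := exists_small hV (fun p => tau P (auxD a g s p) / θ₀)
  have heV := nonunits_mem he
  have hθV := nonunits_mem hθ0
  have hd0 : e * θ₀ ≠ 0 := mul_ne_zero he0 hθ00
  have hΔθ : ∀ i, aeval (θ i) Δ ≠ 0 := by
    intro i h0
    obtain ⟨R, hR⟩ := hΔ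
    have h1 := congrArg (aeval (θ i)) hR
    rw [map_sub, map_mul, map_mul, h0, hF.root, zero_mul, zero_mul, map_one, zero_sub] at h1
    exact one_ne_zero (neg_eq_zero.1 h1)
  obtain ⟨U, Y, Ξ, hUY, hτ⟩ := hF.exists_approx hφ hP hV a (Δ := Δ) (g := g) (fun i => by
      rw [map_mul, hgθ]; exact mul_ne_zero (hΔθ i) (hAB i)) (fun i W hW => by
      rw [map_mul, hgθ]; exact hNW i W hW) (auxD a g s) (e * θ₀) hd0
  -- values
  have hE : ∀ p, tau P (auxD a g s p * (1 + Ξ)) = tau P (auxD a g s p) +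
      tau P (auxD a g s p * Ξ) := by
    intro p
    rw [mul_add, mul_one, tau_add]
  have hsm : ∀ p, tau P (auxD a g s p * Ξ) / e ∈ V.nonunits := by
    intro p
    have : tau P (auxD a g s p * Ξ) / e = θ₀ * (tau P (auxD a g s p * Ξ) / (e * θ₀)) := by
      field_simp
    rw [this]
    exact nonunits_mul hθ0 (hτ p)
  have hsm' : ∀ p, tau P (auxD a g s p * Ξ) / θ₀ ∈ V := by
    intro p
    have : tau P (auxD a g s p * Ξ) / θ₀ = e * (tau P (auxD a g s p * Ξ) / (e * θ₀)) := by
      field_simp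
    rw [this]
    exact V.mul_mem _ _ heV (hτ p)
  have hsm'' : ∀ p, tau P (auxD a g s p * Ξ) ∈ V.nonunits := by
    intro p
    have : tau P (auxD a g s p * Ξ) = e * (tau P (auxD a g s p * Ξ) / e) := by field_simp
    rw [this]
    exact nonunits_mul he (nonunits_mem (hsm p))
  have hbig : ∀ p, e * tau P (auxD a g s p * (1 + Ξ)) / θ₀ ∈ V := by
    intro p
    have : e * tau P (auxD a g s p * (1 + Ξ)) / θ₀ = e * (tau P (auxD a g s p) / θ₀) +
        e * (tau P (auxD a g s p * Ξ) / θ₀) := by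
      rw [hE]; ring
    rw [this]
    exact V.add_mem _ _ (nonunits_mem (hec p)) (V.mul_mem _ _ heV (hsm' p))
  have hbig' : ∀ p, e * tau P (auxD a g s p * (1 + Ξ)) ∈ V.nonunits := by
    intro p
    have : e * tau P (auxD a g s p * (1 + Ξ)) =
        θ₀ * (e * tau P (auxD a g s p * (1 + Ξ)) / θ₀) := by field_simp
    rw [this]
    exact nonunits_mul hθ0 (hbig p)
  have hg0 : ∀ j l : Fin 2, tau P (auxD a g s (0, j, l)) = 0 := by
    intro j l
    have h1 : (X ^ (j : ℕ) * g).natDegree ≤ 2 := by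
      have h8 := natDegree_mul_le (p := (X : k[X]) ^ (j : ℕ)) (q := g)
      rw [natDegree_X_pow] at h8
      have := j.2
      omega
    change tau P (X ^ (j : ℕ) * g) = 0
    rw [tau_of_natDegree hP hP4 (by omega)]
    exact coeff_eq_zero_of_natDegree_lt (by omega)
  have h2k : ∀ x : k, x + x = 0 := fun x => CharTwo.add_self_eq_zero x
  obtain ⟨c, hc1, hc⟩ := hf.solve hr he0 hθ0 hθ00
    (fun j => tau P (auxD a g s (0, j, 0) * (1 + Ξ)))
    (fun j l => tau P (auxD a g s (1, j, l) * (1 + Ξ)))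
    (fun j l => tau P (auxD a g s (2, j, l) * (1 + Ξ)))
    (fun j => by
      change tau P (auxD a g s (0, j, 0) * (1 + Ξ)) / e ∈ V
      rw [hE, hg0, zero_add]
      exact nonunits_mem (hsm _))
    (fun j l => by
      have h1 : tau P (auxD a g s (1, j, l)) = if j = l then 1 else 0 := hs j l
      have h3 : tau P (auxD a g s (1, j, l) * (1 + Ξ)) + (if j = l then 1 else 0) =
          tau P (auxD a g s (1, j, l) * Ξ) := by
        rw [hE, h1]
        linear_combination h2k (if j = l then 1 else 0)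
      change (tau P (auxD a g s (1, j, l) * (1 + Ξ)) + (if j = l then 1 else 0)) / θ₀ ∈ V
      rw [h3]
      exact hsm' _)
    (fun j l => hbig _)
  -- the point over `L`
  set SL : L[X] := ∑ l, C (f e * c l) * (s l).map f with hSL
  set UL : L[X] := U.map f with hUL
  set YL : L[X] := Y.map f with hYL
  set PL : L[X] := P.map f with hPL
  have hPLm : PL.Monic := hP.map f
  have hSL2 : SL ^ 2 = ∑ l, C ((f e * c l) ^ 2) * (s l ^ 2).map f := by
    rw [hSL, sq_sum_two]
    refine Finset.sum_congr rfl fun l _ => ?_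
    rw [C_pow, Polynomial.map_pow]
  set HL : L[X] := (g * (1 + Ξ)).map f * (1 + SL + C (f a) * SL ^ 2) with hHL
  have hHP : PL ∣ Δ'.map f * nf (C (f a)) (UL + SL * C (f a) * YL) (YL + SL * (UL + YL)) -
      HL := by
    rw [nf_twist]
    have h1 : P ∣ Δ' * nf (C a) U Y - g * (1 + Ξ) := by
      have : Δ' * nf (C a) U Y - g * (1 + Ξ) = Δ' * (nf (C a) U Y - Δ * g * (1 + Ξ)) +
          (Δ * Δ' - 1) * (g * (1 + Ξ)) := by ring
      rw [this]
      exact dvd_add (hUY.mul_left _) (hΔ.mul_right _)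
    have h3 := Polynomial.map_dvd f h1
    have h4 : (Δ' * nf (C a) U Y - g * (1 + Ξ)).map f =
        Δ'.map f * nf (C (f a)) UL YL - (g * (1 + Ξ)).map f := by
      rw [nf, nf]
      simp only [Polynomial.map_sub, Polynomial.map_mul, Polynomial.map_add, Polynomial.map_pow,
        map_C, hUL, hYL]
    rw [h4] at h3
    have h5 : Δ'.map f * (nf (C (f a)) UL YL * (1 + SL + C (f a) * SL ^ 2)) - HL =
        (Δ'.map f * nf (C (f a)) UL YL - (g * (1 + Ξ)).map f) *
          (1 + SL + C (f a) * SL ^ 2) := by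
      rw [hHL]; ring
    rw [h5]
    exact h3.mul_right _
  -- expansion of the values of `τ`
  have hexp : ∀ D : k[X], tau PL (D.map f * HL) = f (tau P (D * g * (1 + Ξ))) +
      ∑ l, (f e * c l) * f (tau P (D * g * s l * (1 + Ξ))) +
      ∑ l, (f e * c l) ^ 2 * f (tau P (C a * D * g * s l ^ 2 * (1 + Ξ))) := by
    intro D
    have h1 : D.map f * HL = (D * g * (1 + Ξ)).map f +
        ∑ l, C (f e * c l) * (D * g * s l * (1 + Ξ)).map f +
        ∑ l, C ((f e * c l) ^ 2) * (C a * D * g * s l ^ 2 * (1 + Ξ)).map f := by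
      rw [hHL, hSL2, hSL]
      simp only [Polynomial.map_mul, Polynomial.map_add, Polynomial.map_pow, map_C,
        Polynomial.map_one, Fin.sum_univ_two]
      ring
    rw [h1, tau_add, tau_add, tau_sum, tau_sum, ← tau_map f hP]
    congr 1
    · congr 1
      refine Finset.sum_congr rfl fun l _ => ?_
      rw [tau_C_mul, ← tau_map f hP]
    · refine Finset.sum_congr rfl fun l _ => ?_
      rw [tau_C_mul, ← tau_map f hP]
  obtain ⟨z, hz⟩ := smooth_of_point (P := PL) hPLm (by rw [hPL, hP.natDegree_map, hP4]) (f a)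
    (Δ := Δ.map f) (Δ' := Δ'.map f) (by
      have := Polynomial.map_dvd f hΔ
      simpa using this) (UL + SL * C (f a) * YL) (YL + SL * (UL + YL)) (by
      have h1 := hexp 1
      rw [Polynomial.map_one, one_mul] at h1
      rw [tau_eq_of_dvd hPLm hHP, h1]
      have h3 := hc 0
      simp only [auxD, Matrix.cons_val_zero, Matrix.cons_val_one, Matrix.cons_val, Fin.isValue,
        Fin.val_zero, pow_zero] at h3
      simpa using h3) (by
      have h1 := hexp X
      rw [Polynomial.map_X] at h1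
      have h4 : PL ∣ X * (Δ'.map f * nf (C (f a)) (UL + SL * C (f a) * YL)
          (YL + SL * (UL + YL))) - X * HL := by
        rw [← mul_sub]; exact hHP.mul_left _
      rw [tau_eq_of_dvd hPLm h4, h1]
      have h3 := hc 1
      simp only [auxD, Matrix.cons_val_zero, Matrix.cons_val_one, Matrix.cons_val, Fin.isValue,
        Fin.val_one, pow_one] at h3
      simpa using h3) (by
      intro hdv
      have h1 := hexp (s 0)
      have h4 : PL ∣ (s 0).map f * HL - 0 := by
        have : (s 0).map f * HL - 0 = (s 0).map f * (Δ'.map f * nf (C (f a))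
          (UL + SL * C (f a) * YL) (YL + SL * (UL + YL))) - (s 0).map f *
          (Δ'.map f * nf (C (f a)) (UL + SL * C (f a) * YL) (YL + SL * (UL + YL)) - HL) := by ring
        rw [this]
        exact dvd_sub (hdv.mul_left _) (hHP.mul_left _)
      rw [tau_eq_of_dvd hPLm h4, tau_zero] at h1
      have e1 : tau P (s 0 * g * (1 + Ξ)) = 1 + tau P (auxD a g s (1, 0, 0) * Ξ) := by
        have h5 : s 0 * g * (1 + Ξ) = auxD a g s (1, 0, 0) * (1 + Ξ) := by
          change _ = X ^ ((0 : Fin 2) : ℕ) * g * s 0 * (1 + Ξ)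
          rw [Fin.val_zero, pow_zero]; ring
        rw [h5, hE]
        have h6 : tau P (auxD a g s (1, 0, 0)) = if (0 : Fin 2) = 0 then 1 else 0 := hs 0 0
        rw [h6, if_pos rfl]
      have e3 : ∀ l, s 0 * g * s l * (1 + Ξ) = auxD a g s (3, 0, l) * (1 + Ξ) := by
        intro l
        change _ = g * s l * s 0 * (1 + Ξ)
        ring
      have e4 : ∀ l, C a * s 0 * g * s l ^ 2 * (1 + Ξ) = auxD a g s (4, 0, l) * (1 + Ξ) := by
        intro l
        change _ = C a * g * s l ^ 2 * s 0 * (1 + Ξ)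
        ring
      simp only [e1, e3, e4] at h1
      rw [map_add, map_one] at h1
      set ε : L := f (tau P (auxD a g s (1, 0, 0) * Ξ)) +
        (∑ l, (f e * c l) * f (tau P (auxD a g s (3, 0, l) * (1 + Ξ))) +
        ∑ l, (f e * c l) ^ 2 * f (tau P (auxD a g s (4, 0, l) * (1 + Ξ)))) with hε
      have hε1 : Valued.v ε < 1 := by
        have t1 : ∀ l p, Valued.v ((f e * c l) * f (tau P (auxD a g s p * (1 + Ξ)))) < 1 := by
          intro l p
          have h7 : (f e * c l) * f (tau P (auxD a g s p * (1 + Ξ))) =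
              c l * f (e * tau P (auxD a g s p * (1 + Ξ))) := by rw [map_mul]; ring
          rw [h7, map_mul]
          exact mul_lt_one_of_nonneg_of_lt_one_right (hc1 l) zero_le' (hf.lt_one (hbig' p))
        have t2 : ∀ l, Valued.v (f e * c l) ≤ 1 := by
          intro l
          rw [map_mul]
          exact mul_le_one' (hf.lt_one he).le (hc1 l)
        refine (Valuation.map_add _ _ _).trans_lt (max_lt (hf.lt_one (hsm'' _)) ?_)
        refine (Valuation.map_add _ _ _).trans_lt (max_lt ?_ ?_)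
        · exact Valuation.map_sum_lt _ one_ne_zero fun l _ => t1 l _
        · refine Valuation.map_sum_lt _ one_ne_zero fun l _ => ?_
          rw [pow_two, mul_assoc, map_mul]
          exact mul_lt_one_of_nonneg_of_lt_one_right (t2 l) zero_le' (t1 l _)
      have h8 : ε = -1 := by
        rw [hε]
        linear_combination -h1
      rw [h8, Valuation.map_neg, map_one] at hε1
      exact lt_irrefl _ hε1)
  refine ⟨z, ?_⟩
  have h9 : ∀ j, (fun i l => f (chG P a Δ Δ' j i l)) =
      chG PL (f a) (Δ.map f) (Δ'.map f) j := by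
    intro j
    ext i l
    exact chG_map f hP a Δ Δ' j i l
  rw [h9, h9]
  exact hz

theorem loc_smooth {φ : RatFunc F →+* k} (hφ : GoodEmb φ) {P : k[X]} (hP : P.Monic)
    (hP4 : P.natDegree = 4) {θ : ∀ i, K i} (hF : IsFam P K θ) {V : ValuationSubring k}
    (hV : V ≠ ⊤) (a : k) {Δ Δ' : k[X]} (hΔ : P ∣ Δ * Δ' - 1) (A B : k)
    (hAB : ∀ i, algebraMap k (K i) A + algebraMap k (K i) B * θ i ≠ 0)
    (hNW : ∀ i, ∀ W ∈ above (K i) V, NW W (algebraMap k (K i) a)
      (aeval (θ i) Δ * (algebraMap k (K i) A + algebraMap k (K i) B * θ i))) :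
    ∃ z : Fin 8 → V.valuation.Completion,
      IsSmoothZero (fun i j => toCompletion V (chG P a Δ Δ' 0 i j))
      (fun i j => toCompletion V (chG P a Δ Δ' 1 i j)) z :=
  CompEmb.loc_smooth hφ hP hP4 hF hV (compEmb V) a hΔ A B hAB hNW

end

end Pool.Agent.Helper26
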