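import Mathlib
import Pool.Agent.Helper26.ChCore
import Pool.Agent.Helper26.ChLoc2
import Pool.Agent.Helper26.ChHP

set_option autoImplicit false
set_option linter.unusedSectionVars false

/-!
# The main theorem on Châtelet surfaces, in terms of the factors of the quartic
-/

universe u v

namespace Pool.Agent.Helper26

open Polynomial Finset

section

variable {k : Type u} [Field k] {ι : Type*} [Fintype ι] {K : ι → Type u} [∀ i, Field (K i)]
  [∀ i, Algebra k (K i)] [∀ i, FiniteDimensional k (K i)]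

/-- Interpolation by linear polynomials. -/
lemma IsFam.exists_lin {P : k[X]} {θ : ∀ i, K i} (hF : IsFam P K θ) (T : Finset ι)
    (hT : ∑ i ∈ T, Module.finrank k (K i) = 2) (δ : ∀ i, K i) :
    ∃ A B : k, ∀ i ∈ T, lin (θ i) A B = δ i := by
  classical
  -- the linear map
  let Φ : (k × k) →ₗ[k] (∀ i : T, K i) :=
    { toFun := fun p i => lin (θ i) p.1 p.2
      map_add' := by
        intro p q
        ext i
        simp only [lin, Prod.fst_add, Prod.snd_add, map_add, Pi.add_apply]
        ring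
      map_smul' := by
        intro c p
        ext i
        simp only [lin, Prod.smul_fst, Prod.smul_snd, smul_eq_mul, map_mul, RingHom.id_apply,
          Pi.smul_apply]
        rw [Algebra.smul_def]
        ring }
  have hdim : Module.finrank k (∀ i : T, K i) = 2 := by
    rw [Module.finrank_pi_fintype, ← hT, ← Finset.sum_coe_sort T]
  have hdim2 : Module.finrank k (k × k) = 2 := by
    rw [Module.finrank_prod, Module.finrank_self]
  have hTne : T.Nonempty := by
    rw [Finset.nonempty_iff_ne_empty]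
    rintro rfl
    simp at hT
  have hinj : Function.Injective Φ := by
    rw [← LinearMap.ker_eq_bot, LinearMap.ker_eq_bot']
    rintro ⟨A, B⟩ h0
    have h1 : ∀ i ∈ T, algebraMap k (K i) A + algebraMap k (K i) B * θ i = 0 :=
      fun i hi => congrFun h0 ⟨i, hi⟩
    have hB : B = 0 := by
      by_contra hB
      have hθ : ∀ i ∈ T, θ i = algebraMap k (K i) (-A / B) := by
        intro i hi
        have hB' : algebraMap k (K i) B ≠ 0 := by rwa [Ne, map_eq_zero]
        rw [map_div₀, map_neg]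
        field_simp
        linear_combination h1 i hi
      -- then the diagonal map is surjective
      let Ψ : k →ₗ[k] (∀ i : T, K i) :=
        { toFun := fun x i => algebraMap k (K i) x
          map_add' := by intro x y; ext i; simp
          map_smul' := by intro c x; ext i; simp [Algebra.smul_def] }
      have hsurj : Function.Surjective Ψ := by
        intro z
        obtain ⟨D, -, hD⟩ := hF.crt fun i => if h : i ∈ T then z ⟨i, h⟩ else 0
        refine ⟨D.eval (-A / B), ?_⟩
        ext i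
        have h3 := hD i
        rw [dif_pos i.2, hθ i i.2, aeval_algebraMap_apply] at h3
        rw [← h3]
        rfl
      have h3 := LinearMap.finrank_le_finrank_of_surjective hsurj
      rw [hdim, Module.finrank_self] at h3
      omega
    obtain ⟨i, hi⟩ := hTne
    have h3 := h1 i hi
    rw [hB, map_zero, zero_mul, add_zero, map_eq_zero] at h3
    rw [h3, hB]
    rfl
  have hsurj : Function.Surjective Φ :=
    (LinearMap.injective_iff_surjective_of_finrank_eq_finrank (hdim2.trans hdim.symm)).1 hinj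
  obtain ⟨⟨A, B⟩, h⟩ := hsurj fun i => δ i
  exact ⟨A, B, fun i hi => congrFun h ⟨i, hi⟩⟩

end

section

variable {k : Type u} [Field k] [CharP k 2]

/-- A field containing a quadratic extension has even degree. -/
lemma even_finrank {K : Type u} [Field K] [Algebra k K] [FiniteDimensional k K] {a : k}
    (ha : ∀ x : k, x ^ 2 + x + a ≠ 0) {r : K} (hr : r ^ 2 + r + algebraMap k K a = 0) :
    Even (Module.finrank k K) := by
  set q : k[X] := C 1 * X ^ 2 + C 1 * X + C a with hq
  have hdeg : q.natDegree = 2 := natDegree_quadratic one_ne_zero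
  have hirr : Irreducible q := by
    rw [Polynomial.irreducible_iff_roots_eq_zero_of_degree_le_three (by omega) (by omega)]
    rw [Multiset.eq_zero_iff_forall_notMem]
    intro x hx
    rw [mem_roots (by intro h0; rw [h0] at hdeg; simp at hdeg)] at hx
    apply ha x
    have h1 : q.eval x = 0 := hx
    simpa [hq] using h1
  have hmon : q.Monic := by
    rw [Monic, leadingCoeff, hdeg]
    simp [hq, coeff_X, coeff_C]
  have haev : aeval r q = 0 := by
    simpa [hq] using hr
  have hmin : minpoly k r = q := (minpoly.eq_of_irreducible_of_monic hirr haev hmon).symm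
  have h1 : Module.finrank k (IntermediateField.adjoin k {r}) = 2 := by
    rw [IntermediateField.adjoin.finrank (Algebra.IsIntegral.isIntegral r), hmin, hdeg]
  have h3 := Module.finrank_mul_finrank k (IntermediateField.adjoin k {r}) K
  rw [h1] at h3
  exact ⟨_, by rw [← h3]; ring⟩

end

section

variable {F : Type v} {k : Type u} [Field F] [Finite F] [CharP F 2] [Field k] [CharP k 2]
  {ι : Type*} [Fintype ι] {K : ι → Type u} [∀ i, Field (K i)] [∀ i, CharP (K i) 2]
  [∀ i, Algebra k (K i)] [∀ i, FiniteDimensional k (K i)] [∀ i, Algebra.IsSeparable k (K i)]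

lemma zero_mem_nonunits {K : Type*} [Field K] (V : ValuationSubring K) : (0 : K) ∈ V.nonunits := by
  rw [ValuationSubring.mem_nonunits_iff, map_zero]
  exact zero_lt_one

/-- The case in which one of the fields splits the Artin-Schreier extension. -/
theorem GoodEmb.case_split {φ : RatFunc F →+* k} (hφ : GoodEmb φ) {P : k[X]} {θ : ∀ i, K i}
    (hF : IsFam P K θ) (hsum : ∑ i, Module.finrank k (K i) = 4) (a : k) {c : k} (hc : c ≠ 0)
    (δ : ∀ i, K i) (hδ0 : ∀ i, δ i ≠ 0)
    (hδ : ∀ V : ValuationSubring k, V ≠ ⊤ → chi V a c + ∑ i, chi V a (Algebra.norm k (δ i)) = 0)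
    {i₀ : ι} {r : K i₀} (hr : r ^ 2 + r + algebraMap k (K i₀) a = 0) :
    ∃ A B : k, (A ≠ 0 ∨ B ≠ 0) ∧
      ∃ y z : k, c * ∏ i, Algebra.norm k (lin (θ i) A B) = nf a y z := by
  classical
  by_cases ha : ∃ x : k, x ^ 2 + x + a = 0
  · obtain ⟨x, hx⟩ := ha
    refine ⟨1, 0, Or.inl one_ne_zero, hφ.finish a hc δ hδ0 hδ 1 0 fun i _ V hV => ?_⟩
    exact NW.of_split (hφ.rankOne hV) (R := x) (by rw [hx]; exact zero_mem_nonunits V) _
  · push Not at ha
    have hall : ∀ (x : K i₀), x ≠ 0 → ∀ V : ValuationSubring k, V ≠ ⊤ →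
        NW V a (Algebra.norm k x) := by
      intro x hx V hV
      refine hφ.norm_NW hV a hx fun W hW => ?_
      exact NW.of_split ((hφ.ext (K := K i₀)).rankOne (above_ne_top hV hW)) (R := r)
        (by rw [hr]; exact zero_mem_nonunits W) _
    have hev := even_finrank ha hr
    have hpos : ∀ i, 1 ≤ Module.finrank k (K i) := fun i => Module.finrank_pos
    have h1 : Module.finrank k (K i₀) + ∑ j ∈ univ.erase i₀, Module.finrank k (K j) = 4 := by
      rw [Finset.add_sum_erase _ (fun j => Module.finrank k (K j)) (Finset.mem_univ i₀)]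
      exact hsum
    have h3 : Module.finrank k (K i₀) = 2 ∨ Module.finrank k (K i₀) = 4 := by
      obtain ⟨m, hm⟩ := hev
      have := hpos i₀
      omega
    obtain ⟨A, B, hne, hAB⟩ : ∃ A B : k, (A ≠ 0 ∨ B ≠ 0) ∧
        ∀ i ∈ univ.erase i₀, lin (θ i) A B = δ i := by
      rcases h3 with h3 | h3
      · have h4 : ∑ j ∈ univ.erase i₀, Module.finrank k (K j) = 2 := by omega
        obtain ⟨A, B, hAB⟩ := hF.exists_lin _ h4 δ
        refine ⟨A, B, ?_, hAB⟩
        by_contra hcon
        push Not at hcon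
        obtain ⟨hA, hB⟩ := hcon
        obtain ⟨j, hj⟩ : (univ.erase i₀).Nonempty := by
          rw [Finset.nonempty_iff_ne_empty]
          intro h0
          rw [h0] at h4
          simp at h4
        apply hδ0 j
        rw [← hAB j hj, hA, hB, lin, map_zero, zero_mul, add_zero]
      · refine ⟨1, 0, Or.inl one_ne_zero, fun i hi => ?_⟩
        exfalso
        have h4 : ∑ j ∈ univ.erase i₀, Module.finrank k (K j) = 0 := by omega
        have h5 := (Finset.sum_eq_zero_iff.1 h4) i hi
        have := hpos i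
        omega
    refine ⟨A, B, hne, hφ.finish a hc δ hδ0 hδ A B fun i hi V hV => ?_⟩
    by_cases hii : i = i₀
    · subst hii
      exact hall _ (mul_ne_zero (hδ0 i) hi) V hV
    · rw [hAB i (Finset.mem_erase.2 ⟨hii, Finset.mem_univ i⟩), ← pow_two, map_pow]
      exact NW.of_sq V a _

/-- The case in which none of the fields splits the Artin-Schreier extension. -/
theorem GoodEmb.case_anisotropic {φ : RatFunc F →+* k} (hφ : GoodEmb φ) [Infinite k] {P : k[X]}
    (hP : P.Monic) (hP4 : P.natDegree = 4) (hsep : P.Separable) {θ : ∀ i, K i}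
    (hF : IsFam P K θ) (a : k) {c : k} (hc : c ≠ 0)
    (δ : ∀ i, K i) (hδ0 : ∀ i, δ i ≠ 0)
    (hδ : ∀ V : ValuationSubring k, V ≠ ⊤ → chi V a c + ∑ i, chi V a (Algebra.norm k (δ i)) = 0)
    (A₀ B₀ : ValuationSubring k → k)
    (hAB : ∀ V : ValuationSubring k, V ≠ ⊤ → ∀ i, lin (θ i) (A₀ V) (B₀ V) ≠ 0)
    (hloc : ∀ V : ValuationSubring k, V ≠ ⊤ → ∀ i, ∀ W ∈ above (K i) V,
        NW W (algebraMap k (K i) a) (δ i * lin (θ i) (A₀ V) (B₀ V)))
    (hroot : ∀ i, ∀ r : K i, r ^ 2 + r + algebraMap k (K i) a ≠ 0) :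
    ∃ A B : k, (A ≠ 0 ∨ B ≠ 0) ∧
      ∃ y z : k, c * ∏ i, Algebra.norm k (lin (θ i) A B) = nf a y z := by
  classical
  obtain ⟨Δ, Δ', hΔ4, hΔd, hΔ, hΔv⟩ := hF.exists_multiplier hP4 hφ.isTwoBasis δ hδ0
  choose Z hZ0 hZ using hΔv
  have hΔ' : ∀ i, aeval (θ i) Δ * aeval (θ i) Δ' = 1 := by
    intro i
    obtain ⟨R, hR⟩ := hΔ
    have h1 := congrArg (aeval (θ i)) hR
    rw [map_sub, map_mul, map_mul, hF.root, zero_mul, map_one] at h1
    exact sub_eq_zero.1 h1
  obtain ⟨z, hz0, hz1, hz2⟩ := ch_hp hφ hP hP4 hsep a hΔ hΔ4 hΔd (fun V hV => by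
    refine loc_smooth hφ hP hP4 hF hV a hΔ (A₀ V) (B₀ V) (hAB V hV) fun i W hW => ?_
    have h1 : aeval (θ i) Δ * (algebraMap k (K i) (A₀ V) + algebraMap k (K i) (B₀ V) * θ i) =
        (δ i * lin (θ i) (A₀ V) (B₀ V)) * Z i ^ 2 := by
      rw [hZ, lin]; ring
    rw [h1]
    exact (hφ.ext (K := K i)).NW_mul (above_ne_top hV hW)
      (mul_ne_zero (hδ0 i) (hAB V hV i)) (pow_ne_zero _ (hZ0 i)) (hloc V hV i W hW)
      (NW.of_sq W _ _))
  -- the linear polynomial
  have hP1 : P ≠ 1 := by rintro rfl; simp at hP4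
  set Q := chQ a Δ Δ' (Xp z) (Yp z) with hQ
  set R := Q %ₘ P with hR
  have hRd : R.natDegree < 4 := by
    rw [← hP4]; exact natDegree_modByMonic_lt _ hP hP1
  have hdR : P ∣ Q - R := by
    have h3 := modByMonic_add_div Q P
    exact ⟨Q /ₘ P, by rw [← hR] at h3; linear_combination -h3⟩
  have c3 : R.coeff 3 = 0 := by
    rw [← tau_of_natDegree hP hP4 hRd, ← hz1]
    apply tau_eq_of_dvd hP
    rw [← neg_sub, dvd_neg]
    exact hdR
  have hR2 : R.natDegree ≤ 2 := by
    rw [natDegree_le_iff_coeff_eq_zero]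
    intro m hm
    rcases Nat.lt_or_ge 3 m with h4 | h4
    · exact coeff_eq_zero_of_natDegree_lt (by omega)
    · have : m = 3 := by omega
      rw [this]; exact c3
  have c2 : R.coeff 2 = 0 := by
    have h3 : tau P (X * R) = 0 := by
      rw [← hz2]
      apply tau_eq_of_dvd hP
      rw [← neg_sub, dvd_neg, ← mul_sub]
      exact hdR.mul_left _
    rw [tau_of_natDegree hP hP4 (by
      have h8 := natDegree_mul_le (p := (X : k[X])) (q := R)
      rw [natDegree_X] at h8
      omega), coeff_X_mul] at h3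
    exact h3
  have hR1 : R.natDegree ≤ 1 := by
    rw [natDegree_le_iff_coeff_eq_zero]
    intro m hm
    rcases Nat.lt_or_ge 2 m with h4 | h4
    · exact coeff_eq_zero_of_natDegree_lt (by omega)
    · have : m = 2 := by omega
      rw [this]; exact c2
  have hRl : R = C (R.coeff 1) * X + C (R.coeff 0) := eq_X_add_C_of_natDegree_le_one hR1
  have hval : ∀ i, aeval (θ i) Q = lin (θ i) (R.coeff 0) (R.coeff 1) := by
    intro i
    obtain ⟨R', hR'⟩ := hdR
    have h1 := congrArg (aeval (θ i)) hR'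
    rw [map_sub, map_mul, hF.root, zero_mul] at h1
    rw [sub_eq_zero.1 h1]
    nth_rewrite 1 [hRl]
    rw [map_add, map_mul, aeval_C, aeval_C, aeval_X, lin, add_comm]
  have hnf : ∀ i, aeval (θ i) Δ * lin (θ i) (R.coeff 0) (R.coeff 1) =
      nf (algebraMap k (K i) a) (aeval (θ i) Δ * aeval (θ i) (Xp z)) (aeval (θ i) (Yp z)) := by
    intro i
    rw [← hval, hQ, chQ, nf]
    simp only [map_add, map_mul, map_pow, aeval_C]
    linear_combination (algebraMap k (K i) a * aeval (θ i) (Yp z) ^ 2) * hΔ' i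
  have hΔ0 : ∀ i, aeval (θ i) Δ ≠ 0 := fun i => left_ne_zero_of_mul_eq_one (hΔ' i)
  have hne : R.coeff 0 ≠ 0 ∨ R.coeff 1 ≠ 0 := by
    by_contra hcon
    push Not at hcon
    obtain ⟨h0, h1⟩ := hcon
    have hXY : ∀ i, aeval (θ i) (Xp z) = 0 ∧ aeval (θ i) (Yp z) = 0 := by
      intro i
      have h3 := hnf i
      rw [h0, h1, lin, map_zero, zero_mul, add_zero, mul_zero, nf] at h3
      have hY : aeval (θ i) (Yp z) = 0 := by
        by_contra hY
        apply hroot i (aeval (θ i) Δ * aeval (θ i) (Xp z) / aeval (θ i) (Yp z))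
        field_simp
        linear_combination -h3
      rw [hY] at h3
      have h4 : (aeval (θ i) Δ * aeval (θ i) (Xp z)) ^ 2 = 0 := by
        linear_combination -h3
      exact ⟨(mul_eq_zero.1 ((pow_eq_zero_iff two_ne_zero).1 h4)).resolve_left (hΔ0 i), hY⟩
    apply hz0
    apply vec_eq_zero
    · apply eq_zero_of_dvd_of_natDegree_lt (hF.dvd _ fun i => (hXY i).1)
      rw [hP4, Xp_eq]
      exact natDegree_cubic' _ _ _ _
    · apply eq_zero_of_dvd_of_natDegree_lt (hF.dvd _ fun i => (hXY i).2)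
      rw [hP4, Yp_eq]
      exact natDegree_cubic' _ _ _ _
  refine ⟨R.coeff 0, R.coeff 1, hne, hφ.finish a hc δ hδ0 hδ _ _ fun i hi V hV => ?_⟩
  have h1 := hφ.norm_nf (K := K i) a (mul_ne_zero (hΔ0 i) hi) ⟨_, _, hnf i⟩ hV
  have h3 : aeval (θ i) Δ * lin (θ i) (R.coeff 0) (R.coeff 1) =
      (δ i * lin (θ i) (R.coeff 0) (R.coeff 1)) * Z i ^ 2 := by
    rw [hZ]; ring
  rw [h3, map_mul, map_pow] at h1
  exact (hφ.NW_mul_iff hV (Algebra.norm_ne_zero_iff.2 (mul_ne_zero (hδ0 i) hi))
    (pow_ne_zero _ (Algebra.norm_ne_zero_iff.2 (hZ0 i))) h1).2 (NW.of_sq V a _)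

/-- The main theorem in terms of the factors. -/
theorem GoodEmb.chatelet_core {φ : RatFunc F →+* k} (hφ : GoodEmb φ) [Infinite k] {P : k[X]}
    (hP : P.Monic) (hP4 : P.natDegree = 4) (hsep : P.Separable) {θ : ∀ i, K i}
    (hF : IsFam P K θ) (hsum : ∑ i, Module.finrank k (K i) = 4) (a : k) {c : k} (hc : c ≠ 0)
    (S : Finset (ValuationSubring k)) (hS : ∀ V ∈ S, V ≠ ⊤)
    (hcS : ∀ V : ValuationSubring k, V ≠ ⊤ → V ∉ S → NW V a c) (A B : ValuationSubring k → k)
    (hAB : ∀ V ∈ S, ∀ i, lin (θ i) (A V) (B V) ≠ 0)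
    (hN : ∀ V ∈ S, NW V a (c * ∏ i, Algebra.norm k (lin (θ i) (A V) (B V))))
    (hT : ∀ T : Finset ι, ∑ i ∈ T, Module.finrank k (K i) = 2 →
      ∑ V ∈ S, chi V a (∏ i ∈ T, Algebra.norm k (lin (θ i) (A V) (B V))) = 0) :
    ∃ A B : k, (A ≠ 0 ∨ B ≠ 0) ∧
      ∃ y z : k, c * ∏ i, Algebra.norm k (lin (θ i) A B) = nf a y z := by
  classical
  obtain ⟨A', B', hAB', hN', hpar⟩ := hφ.fix_parity hsum a hc S hS hcS A B hAB hN hT
  obtain ⟨δ, hδ0, hδ1, hδ2⟩ := hφ.exists_deltas a S hS A' B' hAB' hpar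
  have hδ : ∀ V : ValuationSubring k, V ≠ ⊤ →
      chi V a c + ∑ i, chi V a (Algebra.norm k (δ i)) = 0 := fun V hV =>
    hφ.prod_delta a hc S hS hcS A' B' hAB' hN' δ hδ0 hδ1 hδ2 hV
  by_cases hroot : ∃ i, ∃ r : K i, r ^ 2 + r + algebraMap k (K i) a = 0
  · obtain ⟨i₀, r, hr⟩ := hroot
    exact hφ.case_split hF hsum a hc δ hδ0 hδ hr
  · push Not at hroot
    refine hφ.case_anisotropic hP hP4 hsep hF a hc δ hδ0 hδ
      (fun V => if V ∈ S then A' V else 1) (fun V => if V ∈ S then B' V else 0)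
      (fun V hV i => ?_) (fun V hV i W hW => ?_) hroot
    · by_cases h : V ∈ S
      · simp only [if_pos h]; exact hAB' V h i
      · simp only [if_neg h]; rw [lin_one]; exact one_ne_zero
    · by_cases h : V ∈ S
      · simp only [if_pos h]; exact hδ2 V h i W hW
      · simp only [if_neg h]; rw [lin_one, mul_one]; exact hδ1 V hV h i W hW

end

end Pool.Agent.Helper26
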