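import Mathlib
import Pool.Agent.Helper26.ChDefs
import Pool.Agent.Helper26.ChMain
import Pool.Agent.Helper26.ChComp
import Pool.Agent.Helper31.FamNF

set_option autoImplicit false
set_option linter.unusedSectionVars false

/-!
# Châtelet surfaces in characteristic two
-/

universe u v

namespace Pool.Agent.Helper26

open Polynomial Finset Pool.Agent.Helper31.Fam

section

variable {k : Type u} [Field k]

/-- Substitution and evaluation. -/
lemma eval₂_lsub {L : Type*} [CommRing L] (f : k →+* L) (M : Matrix (Fin 2) (Fin 2) k)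
    (q : MvPolynomial (Fin 2) k) (y : Fin 2 → L) :
    MvPolynomial.eval₂ f y (lsub M q) =
      MvPolynomial.eval₂ f ((M.map f).mulVec y) q := by
  let _ : Algebra k L := f.toAlgebra
  exact aeval_lsub M q y

lemma lsub_mul' (M : Matrix (Fin 2) (Fin 2) k) (p q : MvPolynomial (Fin 2) k) :
    lsub M (p * q) = lsub M p * lsub M q := map_mul _ _ _

/-- Substitution by the inverse matrix. -/
lemma lsub_lsub [Infinite k] {M N : Matrix (Fin 2) (Fin 2) k} (h : M * N = 1)
    (q : MvPolynomial (Fin 2) k) : lsub N (lsub M q) = q := by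
  apply MvPolynomial.funext
  intro x
  rw [eval_lsub, eval_lsub, Matrix.mulVec_mulVec, h, Matrix.one_mulVec]

lemma isNf_iff_isNormValue {L : Type*} [Field L] (a e : L) : IsNf a e ↔ IsNormValue a e := by
  constructor
  · rintro ⟨y, z, h⟩; exact ⟨y, z, h.symm⟩
  · rintro ⟨y, z, h⟩; exact ⟨y, z, h.symm⟩

end

section

variable {F : Type v} {k : Type u} [Field F] [Finite F] [CharP F 2] [Field k] [CharP k 2]

instance completeSpace_completion (V : ValuationSubring k) :
    CompleteSpace V.valuation.Completion := inferInstance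

/-- The family of fields attached to the irreducible factors. -/
lemma isFam_FK {P : k[X]} (hP : P.Monic) (hP4 : P.natDegree = 4) (hsep : P.Separable) :
    IsFam P (fun i : Ix P => FK i) (fun i => rt i) where
  dvd := fun D h => dvd_of_aeval_rt hP hsep h
  crt := fun z => by
    obtain ⟨D, hD, h⟩ := exists_of_values' hP hsep (by omega) z
    exact ⟨D, by omega, h⟩
  root := fun i => aeval_rt i

/-- The factorizations of the form in normal form. -/
lemma gT_factor {P : k[X]} (hP : P.Monic) (hP4 : P.natDegree = 4) (hsep : P.Separable) (c : k)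
    (T : Finset (Ix P)) (hT : ∑ i ∈ T, Module.finrank k (FK i) = 2) [DecidableEq (Ix P)] :
    (gT T).IsHomogeneous 2 ∧ (MvPolynomial.C c * gT Tᶜ).IsHomogeneous 2 ∧
      MvPolynomial.C c * P.homogenize 4 = gT T * (MvPolynomial.C c * gT Tᶜ) := by
  have h1 := gT_isHomogeneous' T
  rw [hT] at h1
  have h3 := gT_isHomogeneous' Tᶜ
  have h4 : ∑ i ∈ Tᶜ, Module.finrank k (FK i) = 2 := by
    have h5 := Finset.sum_add_sum_compl T (fun i : Ix P => Module.finrank k (FK i))
    rw [hT, sum_finrank hP hsep, hP4] at h5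
    omega
  rw [h4] at h3
  refine ⟨h1, ?_, ?_⟩
  · have := (MvPolynomial.isHomogeneous_C (Fin 2) c).mul h3
    rwa [zero_add] at this
  · rw [← hP4, ← gT_mul_compl hP hsep T]
    ring

/-- The theorem for a form in normal form. -/
theorem GoodEmb.chatelet_normal {φ : RatFunc F →+* k} (hφ : GoodEmb φ) [Infinite k] {P : k[X]}
    (hP : P.Monic) (hP4 : P.natDegree = 4) (hsep : P.Separable) (a : k) {c : k} (hc : c ≠ 0)
    (x : ∀ V : ValuationSubring k, Fin 2 → V.valuation.Completion)
    (hx0 : ∀ V : ValuationSubring k, V ≠ ⊤ →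
      MvPolynomial.eval₂ (toCompletion V) (x V) (MvPolynomial.C c * P.homogenize 4) ≠ 0)
    (hx : ∀ V : ValuationSubring k, V ≠ ⊤ → IsNf (toCompletion V a)
      (MvPolynomial.eval₂ (toCompletion V) (x V) (MvPolynomial.C c * P.homogenize 4)))
    (hBM : ∀ T : Finset (Ix P), ∑ i ∈ T, Module.finrank k (FK i) = 2 →
      {V : ValuationSubring k | V ≠ ⊤ ∧ ¬ IsNf (toCompletion V a)
        (MvPolynomial.eval₂ (toCompletion V) (x V) (gT T))}.Finite ∧
      Even {V : ValuationSubring k | V ≠ ⊤ ∧ ¬ IsNf (toCompletion V a)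
        (MvPolynomial.eval₂ (toCompletion V) (x V) (gT T))}.ncard) :
    ∃ A B : k, (A ≠ 0 ∨ B ≠ 0) ∧
      ∃ y z : k, MvPolynomial.eval ![A, B] (MvPolynomial.C c * P.homogenize 4) = nf a y z := by
  classical
  have hcK : ∀ i : Ix P, CharP (FK i) 2 := fun i =>
    charP_of_injective_algebraMap (algebraMap k (FK i)).injective 2
  have hsK : ∀ i : Ix P, Algebra.IsSeparable k (FK i) := fun i => isSeparable_FK hsep i
  have hval : ∀ A B : k, MvPolynomial.eval ![A, B] (MvPolynomial.C c * P.homogenize 4) =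
      c * ∏ i : Ix P, Algebra.norm k (lin (rt i) A B) := by
    intro A B
    have h1 : gT (P := P) Finset.univ = P.homogenize 4 := by
      rw [gT, sum_natDegree hP hsep, prod_facs hP hsep, hP4]
    rw [map_mul, MvPolynomial.eval_C, ← h1, eval_gT]
    rfl
  have hsum : ∑ i : Ix P, Module.finrank k (FK i) = 4 := by rw [sum_finrank hP hsep, hP4]
  -- the forms attached to the factors
  set J := {T : Finset (Ix P) // ∑ i ∈ T, Module.finrank k (FK i) = 2} with hJ
  have hfact : ∀ T : J, MvPolynomial.C c * P.homogenize 4 =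
      gT T.1 * (MvPolynomial.C c * gT (T.1)ᶜ) := fun T => (gT_factor hP hP4 hsep c T.1 T.2).2.2
  have hbm := fun T : J => hBM T.1 T.2
  -- the finite set of places
  have hc_fin := (hφ.norm_parity (a := a) hc).1
  set S : Finset (ValuationSubring k) := hc_fin.toFinset ∪
    Finset.univ.biUnion (fun T : J => (hbm T).1.toFinset) with hS
  have hSt : ∀ V ∈ S, V ≠ ⊤ := by
    intro V hV
    rw [hS, Finset.mem_union, Finset.mem_biUnion] at hV
    rcases hV with h | ⟨T, -, h⟩
    · exact (hc_fin.mem_toFinset.1 h).1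
    · exact ((hbm T).1.mem_toFinset.1 h).1
  -- approximation by points over `k`
  let g : Option J → MvPolynomial (Fin 2) k := fun j =>
    j.elim (MvPolynomial.C c * P.homogenize 4) (fun T => gT T.1)
  have hgne : ∀ V : ValuationSubring k, V ≠ ⊤ → ∀ j : Option J,
      MvPolynomial.eval₂ (toCompletion V) (x V) (g j) ≠ 0 := by
    intro V hV j
    rcases j with _ | T
    · exact hx0 V hV
    · intro h0
      apply hx0 V hV
      rw [hfact T, MvPolynomial.eval₂_mul]
      have h1 : MvPolynomial.eval₂ (toCompletion V) (x V) (gT T.1) = 0 := h0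
      rw [h1, zero_mul]
  have happ : ∀ V : ValuationSubring k, V ≠ ⊤ → ∃ w : Fin 2 → k, ∀ j : Option J,
      MvPolynomial.eval w (g j) ≠ 0 ∧ (NW V a (MvPolynomial.eval w (g j)) ↔
        IsNf (toCompletion V a) (MvPolynomial.eval₂ (toCompletion V) (x V) (g j))) := by
    intro V hV
    exact (compEmb V).approx_point hφ hV a g (x V) (hgne V hV)
  choose! w hw using happ
  have hw2 : ∀ V, w V = ![w V 0, w V 1] := by
    intro V
    ext i
    fin_cases i <;> rfl
  have hgn : ∀ V : ValuationSubring k, MvPolynomial.eval (w V) (g none) =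
      c * ∏ i : Ix P, Algebra.norm k (lin (rt i) (w V 0) (w V 1)) := by
    intro V
    rw [← hval]
    rw [← hw2]
    rfl
  have hgs : ∀ (V : ValuationSubring k) (T : J), MvPolynomial.eval (w V) (g (some T)) =
      ∏ i ∈ T.1, Algebra.norm k (lin (rt i) (w V 0) (w V 1)) := by
    intro V T
    have h1 := eval_gT T.1 (w V 0) (w V 1)
    rw [← hw2] at h1
    exact h1
  obtain ⟨A, B, hAB, y, z, h⟩ := hφ.chatelet_core hP hP4 hsep (isFam_FK hP hP4 hsep) hsum a hc
    S hSt (fun V hV hVS => by
      by_contra hcon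
      apply hVS
      rw [hS, Finset.mem_union]
      exact Or.inl (hc_fin.mem_toFinset.2 ⟨hV, hcon⟩))
    (fun V => w V 0) (fun V => w V 1) (fun V hV i hi => by
      have h1 := (hw V (hSt V hV) none).1
      rw [hgn] at h1
      apply h1
      rw [Finset.prod_eq_zero (Finset.mem_univ i) (by rw [hi, Algebra.norm_zero]), mul_zero])
    (fun V hV => by
      have h1 := (hw V (hSt V hV) none).2.2 (hx V (hSt V hV))
      rwa [hgn] at h1)
    (fun T hT => by
      have h1 := (hbm ⟨T, hT⟩).2
      have h3 : {V : ValuationSubring k | V ≠ ⊤ ∧ ¬ IsNf (toCompletion V a)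
          (MvPolynomial.eval₂ (toCompletion V) (x V) (gT T))} =
          {V : ValuationSubring k | V ∈ S ∧ ¬ NW V a
            (∏ i ∈ T, Algebra.norm k (lin (rt i) (w V 0) (w V 1)))} := by
        ext V
        constructor
        · rintro ⟨hV, h4⟩
          refine ⟨?_, fun h5 => h4 ?_⟩
          · rw [hS, Finset.mem_union, Finset.mem_biUnion]
            exact Or.inr ⟨⟨T, hT⟩, Finset.mem_univ _, (hbm ⟨T, hT⟩).1.mem_toFinset.2 ⟨hV, h4⟩⟩
          · rw [← hgs V ⟨T, hT⟩] at h5
            exact (hw V hV (some ⟨T, hT⟩)).2.1 h5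
        · rintro ⟨hV, h4⟩
          refine ⟨hSt V hV, fun h5 => h4 ?_⟩
          rw [← hgs V ⟨T, hT⟩]
          exact (hw V (hSt V hV) (some ⟨T, hT⟩)).2.2 h5
      rw [h3, even_ncard_iff S a fun V =>
        ∏ i ∈ T, Algebra.norm k (lin (rt i) (w V 0) (w V 1))] at h1
      exact h1)
  exact ⟨A, B, hAB, y, z, by rw [hval]; exact h⟩

end

end Pool.Agent.Helper26
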