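import Mathlib
import Pool.Agent.Helper26.ChComp
import Pool.Agent.Helper31.FamNF

set_option autoImplicit false
set_option linter.unusedSectionVars false

/-!
# Moving local points off the degenerate fibres
-/

universe u v

namespace Pool.Agent.Helper26

open Polynomial Finset Pool.Agent.Helper31.Fam

section

variable {L : Type*} [Field L] [CharP L 2]

lemma isNf_zero (a : L) : IsNf a 0 := ⟨0, 0, by rw [nf]; ring⟩

lemma isNf_sq (a s : L) : IsNf a (s ^ 2) := ⟨s, 0, by rw [nf]; ring⟩

lemma IsNf.mul {a x y : L} (hx : IsNf a x) (hy : IsNf a y) : IsNf a (x * y) := by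
  obtain ⟨p, q, rfl⟩ := hx
  obtain ⟨r, s, rfl⟩ := hy
  refine ⟨p * r + a * q * s, p * s + q * r + q * s, ?_⟩
  have h2 : (2 : L) = 0 := CharTwo.two_eq_zero
  simp only [nf]
  linear_combination (-2 * a * p * q * r * s - a * q ^ 2 * r * s - a * p * q * s ^ 2 -
    a * q ^ 2 * s ^ 2) * h2

lemma isNf_mul_iff {a x y : L} (hx : x ≠ 0) (hxy : IsNf a (x * y)) (h : IsNf a x) :
    IsNf a y := by
  have h1 := (h.mul hxy).mul (isNf_sq a x⁻¹)
  have h3 : x * (x * y) * x⁻¹ ^ 2 = y := by field_simp
  rwa [h3] at h1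

end

section

variable {k : Type u} [Field k] [CharP k 2]
  {L : Type*} [Field L] {Γ₀ : Type*} [LinearOrderedCommGroupWithZero Γ₀] [Valued L Γ₀]
  {V : ValuationSubring k} {f : k →+* L}

/-- Neighbourhoods of the origin contain nonzero elements. -/
lemma CompEmb.exists_mem_ne (hf : CompEmb V f) (hr : IsRankOne V) (hV : V ≠ ⊤) {O : Set L}
    (hO : IsOpen O) (h0 : (0 : L) ∈ O) : ∃ τ ∈ O, τ ≠ 0 := by
  obtain ⟨γ, hγ⟩ := Valued.mem_nhds_zero.1 (hO.mem_nhds h0)
  obtain ⟨θ, hθ0, hθ⟩ := exists_nonunit hV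
  obtain ⟨y, hy⟩ := MonoidWithZeroHom.ValueGroup₀.restrict₀_surjective
    (MonoidWithZeroHom.ofClass (Valued.v (R := L) (Γ₀ := Γ₀))) γ.1
  have hy' : Valued.v.restrict y = γ.1 := hy
  have hy0 : y ≠ 0 := by
    rintro rfl
    rw [map_zero] at hy'
    exact γ.ne_zero hy'.symm
  obtain ⟨n, hn⟩ := hf.pow hr hθ hy0
  have h3 : 0 < Valued.v y := by
    rw [zero_lt_iff, Ne, map_eq_zero]; exact hy0
  refine ⟨f θ ^ (n + 1), hγ ?_, pow_ne_zero _ (by rwa [Ne, map_eq_zero])⟩
  change Valued.v.restrict (f θ ^ (n + 1)) < γ.1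
  rw [← hy', Valuation.restrict_lt_iff, map_pow, pow_succ]
  exact mul_pow_lt (hf.lt_one hθ) h3 hn

/-- Moving a local point off the degenerate fibres. -/
lemma CompEmb.exists_move [CompleteSpace L] (hf : CompEmb V f) (hr : IsRankOne V) (hV : V ≠ ⊤)
    {P : k[X]} (hP : P.Monic) (hsep : P.Separable) (a : k) {c : k} (hc : c ≠ 0)
    (y : Fin 2 → L) (hy : y ≠ 0)
    (hN : IsNf (f a) (MvPolynomial.eval₂ f y (MvPolynomial.C c * P.homogenize P.natDegree)))
    {J : Type*} [Finite J] (g h : J → MvPolynomial (Fin 2) k)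
    (hgh : ∀ j, MvPolynomial.C c * P.homogenize P.natDegree = g j * h j) :
    ∃ y' : Fin 2 → L,
      MvPolynomial.eval₂ f y' (MvPolynomial.C c * P.homogenize P.natDegree) ≠ 0 ∧
      IsNf (f a) (MvPolynomial.eval₂ f y' (MvPolynomial.C c * P.homogenize P.natDegree)) ∧
      ∀ j, (IsNf (f a) (MvPolynomial.eval₂ f y' (g j)) ↔
        (IsNf (f a) (MvPolynomial.eval₂ f y (g j)) ∧
        IsNf (f a) (MvPolynomial.eval₂ f y (h j)))) := by
  classical
  have hchar : CharP L 2 := charP_of_injective_ringHom f.injective 2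
  by_cases h0 : MvPolynomial.eval₂ f y (MvPolynomial.C c * P.homogenize P.natDegree) = 0
  swap
  · refine ⟨y, h0, hN, fun j => ⟨fun h1 => ⟨h1, ?_⟩, fun h1 => h1.1⟩⟩
    rw [hgh j, MvPolynomial.eval₂_mul] at h0 hN
    exact isNf_mul_iff (left_ne_zero_of_mul h0) hN h1
  have hfc : f c ≠ 0 := by rwa [Ne, map_eq_zero]
  have hy2 : y = ![y 0, y 1] := by
    ext i
    fin_cases i <;> rfl
  have h00 := h0
  rw [MvPolynomial.eval₂_mul, MvPolynomial.eval₂_C] at h0
  have h0' := (mul_eq_zero.1 h0).resolve_left hfc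
  have hy1 : y 1 ≠ 0 := by
    intro h1
    rw [hy2, h1, eval_homogenize_zero f hP] at h0'
    have h3 : y 0 = 0 := by
      by_contra h4
      exact pow_ne_zero _ h4 h0'
    apply hy
    rw [hy2, h1, h3]
    ext i
    fin_cases i <;> rfl
  rw [hy2, eval_homogenize_ne f le_rfl (y 0) hy1] at h0'
  set ρ := y 0 / y 1 with hρ
  have hroot : (P.map f).eval ρ = 0 := (mul_eq_zero.1 h0').resolve_right (pow_ne_zero _ hy1)
  set d := (P.map f).derivative.eval ρ with hd
  have hd0 : d ≠ 0 := by
    intro h1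
    obtain ⟨u, v, huv⟩ := hsep.map (f := f)
    have h3 := congrArg (Polynomial.eval ρ) huv
    rw [eval_add, eval_mul, eval_mul, hroot, ← hd, h1, mul_zero, mul_zero, add_zero,
      eval_one] at h3
    exact zero_ne_one h3
  -- the two factors do not vanish simultaneously
  have hnot : ∀ j, ¬ (MvPolynomial.eval₂ f y (g j) = 0 ∧ MvPolynomial.eval₂ f y (h j) = 0) := by
    rintro j ⟨hg0, hh0⟩
    apply hd0
    -- restriction to the line through `y`
    set D : MvPolynomial (Fin 2) k → L[X] := fun q =>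
      MvPolynomial.eval₂ (C.comp f) ![C (y 1) * X, C (y 1)] q with hD
    have hDe : ∀ q, (D q).eval ρ = MvPolynomial.eval₂ f y q := by
      intro q
      have h1 := MvPolynomial.eval₂_comp_left (evalRingHom ρ) (C.comp f)
        ![C (y 1) * X, C (y 1)] q
      simp only [coe_evalRingHom] at h1
      rw [hD]
      simp only
      rw [h1]
      congr 1
      · ext x; simp
      · ext i
        fin_cases i
        · simp only [Fin.zero_eta, Fin.isValue, Function.comp_apply, Matrix.cons_val_zero,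
            eval_mul, eval_C, eval_X]
          rw [hρ]
          field_simp
        · simp
    have hDm : D (MvPolynomial.C c * P.homogenize P.natDegree) = D (g j) * D (h j) := by
      simp only [hD]
      rw [hgh j, MvPolynomial.eval₂_mul]
    have hDP : D (MvPolynomial.C c * P.homogenize P.natDegree) =
        C (f c * y 1 ^ P.natDegree) * P.map f := by
      simp only [hD]
      rw [MvPolynomial.eval₂_mul, MvPolynomial.eval₂_C, eval₂_homogenize_sum]
      rw [← Finset.sum_congr rfl (fun (j : ℕ) (hj : j ∈ Finset.range (P.natDegree + 1)) =>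
        show C (y 1 ^ P.natDegree) * (C (f (P.coeff j)) * X ^ j) =
          (C.comp f) (P.coeff j) * (![C (y 1) * X, C (y 1)] : Fin 2 → L[X]) 0 ^ j *
          (![C (y 1) * X, C (y 1)] : Fin 2 → L[X]) 1 ^ (P.natDegree - j) by
          have h3 : j + (P.natDegree - j) = P.natDegree := by
            have := Finset.mem_range.1 hj
            omega
          nth_rewrite 1 [← h3]
          simp only [RingHom.comp_apply, Matrix.cons_val_zero, Matrix.cons_val_one, C_pow,
            pow_add, mul_pow, C_mul]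
          ring)]
      rw [← Finset.mul_sum, C_mul, RingHom.comp_apply]
      have h4 : P.map f = ∑ j ∈ Finset.range (P.natDegree + 1), C (f (P.coeff j)) * X ^ j := by
        conv_lhs => rw [P.as_sum_range_C_mul_X_pow]
        rw [Polynomial.map_sum]
        simp
      rw [h4, mul_assoc]
    have h5 := congrArg (fun q : L[X] => q.derivative.eval ρ) (hDP.symm.trans hDm)
    simp only [derivative_mul, derivative_C, zero_mul, zero_add, eval_add, eval_mul, eval_C,
      hDe, hg0, hh0, mul_zero, add_zero] at h5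
    rw [← hd] at h5
    exact (mul_eq_zero.1 h5).resolve_left (mul_ne_zero hfc (pow_ne_zero _ hy1))
  -- Taylor expansion
  set T : L[X] := taylor ρ (P.map f) with hT
  have hT0 : T.coeff 0 = 0 := by rw [hT, taylor_coeff_zero, hroot]
  have hT1 : T.coeff 1 = d := by rw [hT, taylor_coeff_one]
  set T₂ : L[X] := T.divX.divX with hT₂
  have hTX : ∀ η : L, (P.map f).eval (η + ρ) = η * (d + η * T₂.eval η) := by
    intro η
    rw [← taylor_eval, ← hT]
    have e1 : T = X * (C d + X * T₂) := by
      have h3 := T.divX_mul_X_add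
      have h4 := T.divX.divX_mul_X_add
      rw [hT0, C_0, add_zero] at h3
      have h5 : T.divX.coeff 0 = d := by rw [coeff_divX]; exact hT1
      rw [h5] at h4
      rw [← h3, ← h4, hT₂]
      ring
    conv_lhs => rw [e1]
    simp
  obtain ⟨r, hr0, hrV, hrc⟩ := hf.close_one hr hV a
  have hfr : f r ≠ 0 := by rwa [Ne, map_eq_zero]
  set e : L := f c * y 1 ^ P.natDegree * d with he
  have he0 : e ≠ 0 := mul_ne_zero (mul_ne_zero hfc (pow_ne_zero _ hy1)) hd0
  set ξ : L → L := fun τ => τ ^ 2 / e * T₂.eval (τ ^ 2 / e) / d with hξ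
  have hηc : Continuous fun τ : L => τ ^ 2 / e := (continuous_pow 2).div_const _
  have hξc : Continuous fun τ => ξ τ / f r :=
    ((hηc.mul (T₂.continuous.comp hηc)).div_const _).div_const _
  -- the moving point
  set w : L → Fin 2 → L := fun τ => ![(τ ^ 2 / e + ρ) * y 1, y 1] with hw
  have hwc : Continuous w := by
    rw [hw]
    refine continuous_pi fun i => ?_
    fin_cases i
    · exact (hηc.add_const _).mul_const _
    · exact continuous_const
  have hw0 : w 0 = y := by
    rw [hw, hy2]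
    ext i
    fin_cases i
    · simp [hρ, hy1]
    · simp
  set G : J ⊕ J → L → L := fun j τ =>
    (MvPolynomial.eval₂ f (w τ) (Sum.elim g h j) - MvPolynomial.eval₂ f y (Sum.elim g h j)) /
      (MvPolynomial.eval₂ f y (Sum.elim g h j) * f r) with hG
  have hGc : ∀ j, Continuous (G j) := by
    intro j
    simp only [hG, MvPolynomial.eval₂_eq_eval_map]
    exact (((MvPolynomial.continuous_eval _).comp hwc).sub continuous_const).div_const _
  set O : Set L := ((Valued.v (R := L) (Γ₀ := Γ₀)).integer : Set L) with hO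
  obtain ⟨τ, ⟨hτ, hτG⟩, hτ0⟩ := hf.exists_mem_ne hr hV
    (((Valued.isOpen_integer L).preimage hξc).inter
      (isOpen_iInter_of_finite fun j => (Valued.isOpen_integer L).preimage (hGc j))) (by
      refine ⟨?_, ?_⟩
      · change Valued.v (ξ 0 / f r) ≤ 1
        simp [hξ]
      · rw [Set.mem_iInter]
        intro j
        change Valued.v (G j 0) ≤ 1
        simp only [hG]
        rw [hw0, sub_self, zero_div, map_zero]
        exact zero_le')
  have hfrv : 0 < Valued.v (f r) := by
    rw [zero_lt_iff, Ne, map_eq_zero]; exact hfr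
  have hτ1 : Valued.v (ξ τ) ≤ Valued.v (f r) := by
    have h3 : Valued.v (ξ τ / f r) ≤ 1 := hτ
    rw [map_div₀] at h3
    exact (div_le_one₀ hfrv).1 h3
  obtain ⟨h1, s, hs⟩ := hrc _ hτ1
  -- preservation of the symbols
  have hpres : ∀ j : J ⊕ J, MvPolynomial.eval₂ f y (Sum.elim g h j) ≠ 0 →
      (IsNf (f a) (MvPolynomial.eval₂ f (w τ) (Sum.elim g h j)) ↔
        IsNf (f a) (MvPolynomial.eval₂ f y (Sum.elim g h j))) := by
    intro j hj
    rw [Set.mem_iInter] at hτG
    have h3 : Valued.v (G j τ) ≤ 1 := hτG j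
    set q := MvPolynomial.eval₂ f y (Sum.elim g h j) with hq
    have h4 : MvPolynomial.eval₂ f (w τ) (Sum.elim g h j) = q * (1 + f r * G j τ) := by
      simp only [hG]
      rw [← hq]
      field_simp
      ring
    have h5 : Valued.v (f r * G j τ) ≤ Valued.v (f r) := by
      rw [map_mul]
      exact mul_le_of_le_one_right' h3
    obtain ⟨h6, s', hs'⟩ := hrc _ h5
    rw [h4]
    exact isNf_mul_one_add h6 hs'
  set η := τ ^ 2 / e with hη
  have hval : MvPolynomial.eval₂ f (w τ)
      (MvPolynomial.C c * P.homogenize P.natDegree) = τ ^ 2 * (1 + ξ τ) := by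
    rw [MvPolynomial.eval₂_mul, MvPolynomial.eval₂_C]
    have h3 : w τ = ![(η + ρ) * y 1, y 1] := rfl
    rw [h3, eval_homogenize_ne f le_rfl _ hy1, mul_div_cancel_right₀ _ hy1, hTX]
    have h4 : ξ τ = η * T₂.eval η / d := rfl
    rw [h4]
    have h5 : η * e = τ ^ 2 := by rw [hη]; field_simp
    have h6 : τ ^ 2 * (1 + η * eval η T₂ / d) =
        η * (f c * y 1 ^ P.natDegree) * (d + η * eval η T₂) := by
      rw [← h5, he]; field_simp
    rw [h6]; ring
  have hF0 : MvPolynomial.eval₂ f (w τ) (MvPolynomial.C c * P.homogenize P.natDegree) ≠ 0 := by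
    rw [hval]
    exact mul_ne_zero (pow_ne_zero _ hτ0) h1
  have hFN : IsNf (f a)
      (MvPolynomial.eval₂ f (w τ) (MvPolynomial.C c * P.homogenize P.natDegree)) := by
    rw [hval, isNf_mul_one_add h1 hs]
    exact isNf_sq _ _
  refine ⟨w τ, hF0, hFN, fun j => ?_⟩
  rw [hgh j, MvPolynomial.eval₂_mul] at hF0 hFN h00
  rcases mul_eq_zero.1 h00 with h3 | h3
  · -- the first factor vanishes
    have h4 : MvPolynomial.eval₂ f y (h j) ≠ 0 := fun h4 => hnot j ⟨h3, h4⟩
    have h5 := hpres (Sum.inr j) h4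
    simp only [Sum.elim_inr] at h5
    rw [h3]
    constructor
    · intro h6
      exact ⟨isNf_zero _, h5.1 (isNf_mul_iff (left_ne_zero_of_mul hF0) hFN h6)⟩
    · rintro ⟨-, h6⟩
      rw [mul_comm] at hFN
      exact isNf_mul_iff (right_ne_zero_of_mul hF0) hFN (h5.2 h6)
  · have h4 : MvPolynomial.eval₂ f y (g j) ≠ 0 := fun h4 => hnot j ⟨h4, h3⟩
    have h5 := hpres (Sum.inl j) h4
    simp only [Sum.elim_inl] at h5
    rw [h3, h5]
    exact ⟨fun h6 => ⟨h6, isNf_zero _⟩, fun h6 => h6.1⟩

end

end Pool.Agent.Helper26
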