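import Mathlib
import Pool.Agent.Helper26.QF

set_option autoImplicit false
set_option linter.unusedSectionVars false

/-!
# Homogeneous polynomials of degree two and coefficient matrices
-/

namespace Pool.Agent.Helper26

open MvPolynomial Finset

section

variable {n : Type*} [Fintype n] {R : Type*} [CommRing R]

/-- The polynomial with a given coefficient matrix. -/
noncomputable def quadPoly (g : n → n → R) : MvPolynomial n R :=
  ∑ i, ∑ j, C (g i j) * X i * X j

lemma quadPoly_add (g h : n → n → R) : quadPoly (g + h) = quadPoly g + quadPoly h := by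
  simp only [quadPoly, Pi.add_apply, map_add, add_mul, Finset.sum_add_distrib]

lemma exists_quadPoly {Q : MvPolynomial n R} (hQ : Q.IsHomogeneous 2) :
    ∃ g : n → n → R, Q = quadPoly g := by
  classical
  rw [← Q.support_sum_monomial_coeff]
  refine Finset.sum_induction _ (fun P => ∃ g : n → n → R, P = quadPoly g) ?_ ?_ ?_
  · rintro _ _ ⟨g, rfl⟩ ⟨h, rfl⟩
    exact ⟨g + h, (quadPoly_add g h).symm⟩
  · exact ⟨0, by simp [quadPoly]⟩
  · intro d hd
    have hdeg : Finsupp.toMultiset d = Finsupp.toMultiset d := rfl
    have h1 : d.degree = 2 := by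
      have := hQ (mem_support_iff.1 hd)
      rw [Finsupp.degree_eq_weight_one]
      exact this
    have h2 : Multiset.card (Finsupp.toMultiset d) = 2 := by
      rw [Finsupp.card_toMultiset]
      exact h1
    obtain ⟨i, j, hij⟩ := Multiset.card_eq_two.1 h2
    have h3 : d = Finsupp.single i 1 + Finsupp.single j 1 := by
      have h4 : Finsupp.toMultiset d =
          Finsupp.toMultiset (Finsupp.single i 1 + Finsupp.single j 1) := by
        rw [hij]
        simp
      have h5 := congrArg Multiset.toFinsupp h4
      rwa [Finsupp.toMultiset_toFinsupp, Finsupp.toMultiset_toFinsupp] at h5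
    refine ⟨fun a b => if a = i ∧ b = j then coeff d Q else 0, ?_⟩
    rw [quadPoly, Finset.sum_eq_single i, Finset.sum_eq_single j]
    · simp only [and_self, if_true]
      nth_rewrite 1 [h3]
      rw [monomial_eq, Finsupp.prod_add_index' (by simp) (by intros; rw [pow_add]),
        Finsupp.prod_single_index (by simp), Finsupp.prod_single_index (by simp), pow_one, pow_one,
        mul_assoc]
    · intro b _ hb
      rw [if_neg (fun h => hb h.2)]
      simp
    · intro h; exact absurd (Finset.mem_univ _) h
    · intro a _ ha
      refine Finset.sum_eq_zero fun b _ => ?_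
      rw [if_neg (fun h => ha h.1)]
      simp
    · intro h; exact absurd (Finset.mem_univ _) h

lemma eval₂_quadPoly {S : Type*} [CommRing S] (f : R →+* S) (g : n → n → R) (x : n → S) :
    eval₂ f x (quadPoly g) = qf (fun i j => f (g i j)) x := by
  simp only [quadPoly, eval₂_sum, eval₂_mul, eval₂_C, eval₂_X, qf]

lemma eval₂_pderiv_quadPoly {S : Type*} [CommRing S] (f : R →+* S) (g : n → n → R) (x : n → S)
    (l : n) : eval₂ f x (pderiv l (quadPoly g)) = (pm (fun i j => f (g i j))).mulVec x l := by
  classical
  simp only [quadPoly, map_sum, Derivation.leibniz, pderiv_C, smul_eq_mul, mul_zero, add_zero,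
    eval₂_sum, eval₂_add, eval₂_mul, eval₂_C, eval₂_X, pderiv_X, Pi.single_apply]
  have hite : ∀ p : Prop, ∀ _ : Decidable p, eval₂ f x (if p then (1 : MvPolynomial n R) else 0) =
      if p then 1 else 0 := by
    intro p _
    split_ifs <;> simp
  simp only [hite, Finset.sum_add_distrib, mul_ite, mul_one, mul_zero]
  have h1 : ∑ a, ∑ b, (if b = l then f (g a b) * x a else 0) = ∑ a, f (g a l) * x a := by
    refine Finset.sum_congr rfl fun a _ => ?_
    rw [Finset.sum_ite_eq' Finset.univ l]
    simp
  have h2 : ∑ a, ∑ b, (if a = l then x b * f (g a b) else 0) = ∑ b, x b * f (g l b) := by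
    rw [Finset.sum_eq_single l]
    · simp
    · intro a _ ha
      refine Finset.sum_eq_zero fun b _ => ?_
      rw [if_neg ha]
    · intro h; exact absurd (Finset.mem_univ _) h
  rw [h1, h2, ← Finset.sum_add_distrib]
  simp only [Matrix.mulVec, dotProduct, pm, Matrix.of_apply]
  refine Finset.sum_congr rfl fun a _ => ?_
  ring

end

end Pool.Agent.Helper26
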