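import Mathlib
import Pool.Agent.Helper26.HP7
import Pool.Agent.Helper26.MvQuad
import Pool.Agent.Helper26.PairDefs

set_option autoImplicit false
set_option linter.unusedSectionVars false

/-!
# The Hasse principle for smooth intersections of two quadrics in projective six-space
-/

universe u

namespace Pool.Agent.Helper26

open MvPolynomial

lemma IsSmoothPair.jacInd {n : ℕ} {k : Type u} [Field k] {g₁ g₂ : Fin n → Fin n → k}
    (h : IsSmoothPair (quadPoly g₁) (quadPoly g₂)) :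
    JacInd (fun i j => algebraMap k (AlgebraicClosure k) (g₁ i j))
      (fun i j => algebraMap k (AlgebraicClosure k) (g₂ i j)) := by
  intro x hx h1 h2 a b hab
  have e1 : aeval x (quadPoly g₁) = 0 := by
    rw [aeval_def, eval₂_quadPoly]; exact h1
  have e2 : aeval x (quadPoly g₂) = 0 := by
    rw [aeval_def, eval₂_quadPoly]; exact h2
  have h3 := h x hx e1 e2
  rw [LinearIndependent.pair_iff] at h3
  apply h3 a b
  rw [Matrix.add_mulVec, Matrix.smul_mulVec, Matrix.smul_mulVec] at hab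
  ext1 i
  have h4 := congrFun hab i
  simp only [Pi.add_apply, Pi.smul_apply] at h4 ⊢
  rw [aeval_def, aeval_def, eval₂_pderiv_quadPoly, eval₂_pderiv_quadPoly]
  exact h4

theorem hp_seven_mv {k : Type u} [Field k] [Algebra (RatFunc (ZMod 2)) k]
    [FiniteDimensional (RatFunc (ZMod 2)) k] (Q₁ Q₂ : MvPolynomial (Fin 7) k)
    (h₁ : Q₁.IsHomogeneous 2) (h₂ : Q₂.IsHomogeneous 2) (hsmooth : IsSmoothPair Q₁ Q₂)
    (hloc : ∀ V : ValuationSubring k, V ≠ ⊤ → HasNontrivialZero (toCompletion V) Q₁ Q₂) :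
    HasNontrivialZero (RingHom.id k) Q₁ Q₂ := by
  obtain ⟨g₁, rfl⟩ := exists_quadPoly h₁
  obtain ⟨g₂, rfl⟩ := exists_quadPoly h₂
  have hchar : CharP k 2 :=
    charP_of_injective_algebraMap (algebraMap (RatFunc (ZMod 2)) k).injective 2
  have hinf0 : Infinite (RatFunc (ZMod 2)) :=
    Infinite.of_injective _ (IsFractionRing.injective (Polynomial (ZMod 2)) (RatFunc (ZMod 2)))
  have hinf : Infinite k :=
    Infinite.of_injective _ (algebraMap (RatFunc (ZMod 2)) k).injective
  obtain ⟨φ, hφ⟩ := exists_goodEmb (ZMod 2) k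
  obtain ⟨z, hz0, hz1, hz2⟩ := hp_seven hφ (m := 6) rfl g₁ g₂ hsmooth.jacInd (by
    intro V hV
    obtain ⟨z, hz0, hz1, hz2⟩ := hloc V hV
    rw [eval₂_quadPoly] at hz1 hz2
    exact ⟨z, hz0, hz1, hz2⟩)
  refine ⟨z, hz0, ?_, ?_⟩
  · rw [eval₂_quadPoly]; exact hz1
  · rw [eval₂_quadPoly]; exact hz2

end Pool.Agent.Helper26
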