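import Mathlib
import Pool.Agent.Helper26.ChFinal
import Pool.Agent.Helper26.ChMove
import Pool.Agent.Helper26.HP7Mv

set_option autoImplicit false
set_option linter.unusedSectionVars false

/-!
# Châtelet surfaces in characteristic two: the theorem for binary quartic forms
-/

universe u

namespace Pool.Agent.Helper26

open Polynomial Finset Pool.Agent.Helper31.Fam

section

variable {k : Type u} [Field k] [Algebra (RatFunc (ZMod 2)) k]
    [FiniteDimensional (RatFunc (ZMod 2)) k]

lemma infinite_of_algebra (k : Type u) [Field k] [Algebra (RatFunc (ZMod 2)) k] : Infinite k := by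
  have hinf0 : Infinite (RatFunc (ZMod 2)) :=
    Infinite.of_injective _ (IsFractionRing.injective (Polynomial (ZMod 2)) (RatFunc (ZMod 2)))
  exact Infinite.of_injective _ (algebraMap (RatFunc (ZMod 2)) k).injective

lemma IsSmoothForm.normal_form {k : Type u} [Field k] [Infinite k] {f : MvPolynomial (Fin 2) k}
    (hf : f.IsHomogeneous 4) (hsm : IsSmoothForm f) :
    ∃ (M N : Matrix (Fin 2) (Fin 2) k) (c : k) (P : k[X]), M * N = 1 ∧ N * M = 1 ∧ c ≠ 0 ∧
      P.Monic ∧ P.Separable ∧ P.natDegree = 4 ∧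
      lsub M f = MvPolynomial.C c * P.homogenize 4 := by
  obtain ⟨M, c, P, hM, hc, hP, hsep, hP4, h⟩ := exists_normal_form (by norm_num) f hf (by
    intro x hx hx'
    by_contra hne
    obtain ⟨i, hi⟩ := hsm x hne hx
    exact hi (hx' i))
  have hdet : IsUnit M.det := isUnit_iff_ne_zero.2 hM
  exact ⟨M, M⁻¹, c, P, Matrix.mul_nonsing_inv M hdet, Matrix.nonsing_inv_mul M hdet, hc, hP, hsep,
    hP4, h⟩

/-- The Brauer-Manin obstruction is the only obstruction. -/
theorem chatelet_bm (a : k) (f : MvPolynomial (Fin 2) k) (hf : f.IsHomogeneous 4)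
    (hsm : IsSmoothForm f) (x : ∀ V : ValuationSubring k, Fin 2 → V.valuation.Completion)
    (hx : ∀ V : ValuationSubring k, V ≠ ⊤ → x V ≠ 0 ∧
      IsNormValue (toCompletion V a) (MvPolynomial.eval₂ (toCompletion V) (x V) f))
    (hBM : ∀ g h : MvPolynomial (Fin 2) k, g.IsHomogeneous 2 → h.IsHomogeneous 2 → f = g * h →
      {V : ValuationSubring k | V ≠ ⊤ ∧
        ¬ (IsNormValue (toCompletion V a) (MvPolynomial.eval₂ (toCompletion V) (x V) g) ∧
          IsNormValue (toCompletion V a) (MvPolynomial.eval₂ (toCompletion V) (x V) h))}.Finite ∧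
      Even {V : ValuationSubring k | V ≠ ⊤ ∧
        ¬ (IsNormValue (toCompletion V a) (MvPolynomial.eval₂ (toCompletion V) (x V) g) ∧
          IsNormValue (toCompletion V a) (MvPolynomial.eval₂ (toCompletion V) (x V) h))}.ncard) :
    ∃ x : Fin 2 → k, x ≠ 0 ∧ IsNormValue a (MvPolynomial.eval x f) := by
  classical
  have hchar : CharP k 2 :=
    charP_of_injective_algebraMap (algebraMap (RatFunc (ZMod 2)) k).injective 2
  have hinf := infinite_of_algebra k
  obtain ⟨φ, hφ⟩ := exists_goodEmb (ZMod 2) k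
  obtain ⟨M, N, c, P, hMN, hNM, hc, hP, hsep, hP4, hnf⟩ := hsm.normal_form hf
  set J := {T : Finset (Ix P) // ∑ i ∈ T, Module.finrank k (FK i) = 2} with hJ
  have hfact : ∀ T : J, MvPolynomial.C c * P.homogenize P.natDegree =
      gT T.1 * (MvPolynomial.C c * gT (T.1)ᶜ) := fun T => by
    rw [hP4]; exact (gT_factor hP hP4 hsep c T.1 T.2).2.2
  have hmove : ∀ V : ValuationSubring k, V ≠ ⊤ → ∃ x' : Fin 2 → V.valuation.Completion,
      MvPolynomial.eval₂ (toCompletion V) x' (MvPolynomial.C c * P.homogenize 4) ≠ 0 ∧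
      IsNf (toCompletion V a)
        (MvPolynomial.eval₂ (toCompletion V) x' (MvPolynomial.C c * P.homogenize 4)) ∧
      ∀ T : J, (IsNf (toCompletion V a) (MvPolynomial.eval₂ (toCompletion V) x' (gT T.1)) ↔
        (IsNormValue (toCompletion V a) (MvPolynomial.eval₂ (toCompletion V) (x V)
          (lsub N (gT T.1))) ∧
        IsNormValue (toCompletion V a) (MvPolynomial.eval₂ (toCompletion V) (x V)
          (lsub N (MvPolynomial.C c * gT (T.1)ᶜ))))) := by
    intro V hV
    obtain ⟨hx0, hx1⟩ := hx V hV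
    have hev : ∀ (w : Fin 2 → V.valuation.Completion) (q : MvPolynomial (Fin 2) k),
        MvPolynomial.eval₂ (toCompletion V) ((N.map (toCompletion V)).mulVec w) (lsub M q) =
          MvPolynomial.eval₂ (toCompletion V) w q := by
      intro w q
      rw [eval₂_lsub, Matrix.mulVec_mulVec, ← Matrix.map_mul, hMN]
      simp
    have hNx : (N.map (toCompletion V)).mulVec (x V) ≠ 0 := by
      intro h0
      apply hx0
      have h1 : (M.map (toCompletion V)).mulVec ((N.map (toCompletion V)).mulVec (x V)) =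
          x V := by
        rw [Matrix.mulVec_mulVec, ← Matrix.map_mul, hMN]
        simp
      rw [h0, Matrix.mulVec_zero] at h1
      exact h1.symm
    obtain ⟨y', hy0, hy', hyT⟩ := (compEmb V).exists_move (hφ.rankOne hV) hV hP hsep a hc
      ((N.map (toCompletion V)).mulVec (x V)) hNx (by
        rw [hP4, ← hnf, hev, isNf_iff_isNormValue]
        exact hx1) (fun T : J => gT T.1) (fun T : J => MvPolynomial.C c * gT (T.1)ᶜ) hfact
    rw [hP4] at hy0 hy'
    refine ⟨y', hy0, hy', fun T => ?_⟩
    rw [hyT T, isNf_iff_isNormValue, isNf_iff_isNormValue, eval₂_lsub, eval₂_lsub]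
  choose! x' hx'0 hx' hx'T using hmove
  obtain ⟨A, B, hAB, y, z, h⟩ := hφ.chatelet_normal hP hP4 hsep a hc x' hx'0 hx'
    (fun T hT => by
      obtain ⟨hg, hh, hgh⟩ := gT_factor hP hP4 hsep c T hT
      have h1 : f = lsub N (gT T) * lsub N (MvPolynomial.C c * gT Tᶜ) := by
        rw [← lsub_mul', ← hgh, ← hnf, lsub_lsub hMN]
      have h2 := hBM _ _ (lsub_isHomogeneous N hg) (lsub_isHomogeneous N hh) h1
      have h3 : {V : ValuationSubring k | V ≠ ⊤ ∧ ¬ IsNf (toCompletion V a)
          (MvPolynomial.eval₂ (toCompletion V) (x' V) (gT T))} =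
          {V : ValuationSubring k | V ≠ ⊤ ∧
            ¬ (IsNormValue (toCompletion V a)
              (MvPolynomial.eval₂ (toCompletion V) (x V) (lsub N (gT T))) ∧
            IsNormValue (toCompletion V a)
              (MvPolynomial.eval₂ (toCompletion V) (x V)
                (lsub N (MvPolynomial.C c * gT Tᶜ))))} := by
        ext V
        constructor
        · rintro ⟨hV, h4⟩
          exact ⟨hV, fun h5 => h4 ((hx'T V hV ⟨T, hT⟩).2 h5)⟩
        · rintro ⟨hV, h4⟩
          exact ⟨hV, fun h5 => h4 ((hx'T V hV ⟨T, hT⟩).1 h5)⟩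
      rw [h3]
      exact h2)
  refine ⟨M.mulVec ![A, B], ?_, y, z, ?_⟩
  · intro h0
    have h1 : N.mulVec (M.mulVec ![A, B]) = ![A, B] := by
      rw [Matrix.mulVec_mulVec, hNM, Matrix.one_mulVec]
    rw [h0, Matrix.mulVec_zero] at h1
    have e0 : A = 0 := (congrFun h1 0).symm
    have e1 : B = 0 := (congrFun h1 1).symm
    rcases hAB with h2 | h2
    · exact h2 e0
    · exact h2 e1
  · rw [← eval_lsub, hnf, h, nf]

end

end Pool.Agent.Helper26
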