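import Mathlib
import Pool.Agent.Helper26.ChDefs

set_option autoImplicit false
set_option linter.unusedSectionVars false

/-!
# Restriction of quartic forms to lines in characteristic two
-/

universe u v

namespace Pool.Agent.Helper26

open MvPolynomial Finset

section

lemma binary_eq_sum {A : Type*} [CommRing A] {G : MvPolynomial (Fin 2) A} {n : ℕ}
    (hG : G.IsHomogeneous n) :
    G = ∑ i ∈ range (n + 1), C (G.coeff (Finsupp.single 0 i + Finsupp.single 1 (n - i))) *
      (X 0 ^ i * X 1 ^ (n - i)) := by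
  classical
  have hmon : ∀ i, (X 0 ^ i * X 1 ^ (n - i) : MvPolynomial (Fin 2) A) =
      monomial (Finsupp.single 0 i + Finsupp.single 1 (n - i)) 1 := by
    intro i
    rw [X_pow_eq_monomial, X_pow_eq_monomial, monomial_mul, one_mul]
  have h0 : ∀ i, (Finsupp.single 0 i + Finsupp.single 1 (n - i) : Fin 2 →₀ ℕ) 0 = i := by
    intro i; simp
  have h1 : ∀ i, (Finsupp.single 0 i + Finsupp.single 1 (n - i) : Fin 2 →₀ ℕ) 1 = n - i := by
    intro i; simp
  ext m
  rw [coeff_sum]
  simp_rw [hmon, coeff_C_mul, coeff_monomial]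
  by_cases hm : m.degree = n
  · have hsum : m 0 + m 1 = n := by
      rw [← hm, Finsupp.degree_eq_sum, Fin.sum_univ_two]
    have hmeq : Finsupp.single 0 (m 0) + Finsupp.single 1 (n - m 0) = m := by
      ext j
      fin_cases j
      · exact h0 _
      · have := h1 (m 0)
        simp only [Fin.mk_one, Fin.isValue] at this ⊢
        rw [this]; omega
    rw [Finset.sum_eq_single (m 0)]
    · rw [hmeq, if_pos rfl, mul_one]
    · intro b _ hb
      rw [if_neg, mul_zero]
      intro h
      apply hb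
      rw [← h, h0]
    · intro h
      exact absurd (mem_range.2 (by omega)) h
  · rw [hG.coeff_eq_zero hm, Finset.sum_eq_zero]
    intro i hi
    rw [if_neg, mul_zero]
    intro h
    apply hm
    rw [← h, Finsupp.degree_eq_sum, Fin.sum_univ_two, h0, h1]
    have := mem_range.1 hi
    omega

variable {k : Type u} [Field k] {n : ℕ}

/-- The generic restriction of `f` to a line. -/
noncomputable def genLine (f : MvPolynomial (Fin n) k) :
    MvPolynomial (Fin 2) (MvPolynomial (Fin n ⊕ Fin n) k) :=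
  eval₂ (C.comp C) (fun i => C (X (Sum.inl i)) * X 0 + C (X (Sum.inr i)) * X 1) f

/-- The coefficient of `s ^ i * t ^ (4 - i)` in `f (s * p + t * q)`, a polynomial in `p, q`. -/
noncomputable def gc (f : MvPolynomial (Fin n) k) (i : ℕ) : MvPolynomial (Fin n ⊕ Fin n) k :=
  (genLine f).coeff (Finsupp.single 0 i + Finsupp.single 1 (4 - i))

lemma genLine_isHomogeneous {f : MvPolynomial (Fin n) k} (hf : f.IsHomogeneous 4) :
    (genLine f).IsHomogeneous 4 := by
  have := hf.eval₂ (C.comp C : k →+* MvPolynomial (Fin 2) (MvPolynomial (Fin n ⊕ Fin n) k))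
    (fun i => C (X (Sum.inl i)) * X 0 + C (X (Sum.inr i)) * X 1) (n := 1)
    (fun r => isHomogeneous_C _ _)
    (fun i => (isHomogeneous_C_mul_X _ _).add (isHomogeneous_C_mul_X _ _))
  rw [one_mul] at this
  exact this

/-- The coefficients of the restriction of `f` to the line through `p` and `q`. -/
noncomputable def lc {R : Type*} [CommRing R] (g : k →+* R) (f : MvPolynomial (Fin n) k)
    (p q : Fin n → R) (i : ℕ) : R := eval₂ g (Sum.elim p q) (gc f i)

lemma eval₂_line {R : Type*} [CommRing R] (g : k →+* R) {f : MvPolynomial (Fin n) k}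
    (hf : f.IsHomogeneous 4) (p q : Fin n → R) (s t : R) :
    eval₂ g (fun i => p i * s + q i * t) f =
      lc g f p q 4 * s ^ 4 + lc g f p q 3 * (s ^ 3 * t) + lc g f p q 2 * (s ^ 2 * t ^ 2) +
        lc g f p q 1 * (s * t ^ 3) + lc g f p q 0 * t ^ 4 := by
  have h1 : eval₂ g (fun i => p i * s + q i * t) f =
      eval₂ (eval₂Hom g (Sum.elim p q)) ![s, t] (genLine f) := by
    have : (eval₂Hom g (fun i => p i * s + q i * t)) =
        (eval₂Hom (eval₂Hom g (Sum.elim p q)) ![s, t]).comp
          (eval₂Hom (C.comp C) (fun i => C (X (Sum.inl i)) * X 0 + C (X (Sum.inr i)) * X 1)) := by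
      apply ringHom_ext
      · intro r
        simp
      · intro i
        simp
    exact RingHom.congr_fun this f
  have h2 := binary_eq_sum (genLine_isHomogeneous hf)
  rw [h1, h2]
  simp only [sum_range_succ, range_zero, sum_empty, eval₂_add, eval₂_mul, eval₂_C, eval₂_pow,
    eval₂_X, zero_add, coe_eval₂Hom]
  simp only [Matrix.cons_val_zero, Matrix.cons_val_one, pow_zero, one_mul, mul_one, pow_one,
    Nat.sub_zero, Nat.sub_self, Nat.reduceSub, Nat.reduceAdd]
  simp only [lc, gc]
  ring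

lemma lc_map {R S : Type*} [CommRing R] [CommRing S] (g : k →+* R) (h : R →+* S)
    (f : MvPolynomial (Fin n) k) (p q : Fin n → R) (i : ℕ) :
    lc (h.comp g) f (fun j => h (p j)) (fun j => h (q j)) i = h (lc g f p q i) := by
  unfold lc
  have := eval₂_comp_left h g (Sum.elim p q) (gc f i)
  rw [this]
  congr 1
  funext j
  cases j <;> rfl

lemma lc_four {R : Type*} [CommRing R] (g : k →+* R) {f : MvPolynomial (Fin n) k}
    (hf : f.IsHomogeneous 4) (p q : Fin n → R) : lc g f p q 4 = eval₂ g p f := by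
  have h := eval₂_line g hf p q 1 0
  simp only [mul_one, mul_zero, add_zero, one_pow, ne_eq, OfNat.ofNat_ne_zero,
    not_false_eq_true, zero_pow] at h
  exact h.symm

lemma lc_zero {R : Type*} [CommRing R] (g : k →+* R) {f : MvPolynomial (Fin n) k}
    (hf : f.IsHomogeneous 4) (p q : Fin n → R) : lc g f p q 0 = eval₂ g q f := by
  have h := eval₂_line g hf p q 0 1
  simp only [mul_one, mul_zero, zero_add, one_pow, ne_eq, OfNat.ofNat_ne_zero,
    not_false_eq_true, zero_pow, zero_mul] at h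
  exact h.symm

/-- Second order Taylor expansion. -/
lemma taylor2 {R : Type*} [CommRing R] {k : Type*} [CommRing k] {σ : Type*} [Fintype σ]
    (g : k →+* R) (x v : σ → R) (ε : R)
    (f : MvPolynomial σ k) : ∃ r : R, eval₂ g (fun i => x i + ε * v i) f =
      eval₂ g x f + ε * ∑ i, v i * eval₂ g x (pderiv i f) + ε ^ 2 * r := by
  classical
  induction f using MvPolynomial.induction_on with
  | C a =>
    refine ⟨0, ?_⟩
    simp
  | add p q hp hq =>
    obtain ⟨r₁, h₁⟩ := hp
    obtain ⟨r₂, h₂⟩ := hq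
    refine ⟨r₁ + r₂, ?_⟩
    rw [eval₂_add, eval₂_add, h₁, h₂]
    simp only [map_add, eval₂_add, mul_add, sum_add_distrib]
    ring
  | mul_X p j hp =>
    obtain ⟨r₁, h₁⟩ := hp
    refine ⟨r₁ * x j + (∑ i, v i * eval₂ g x (pderiv i p)) * v j + ε * r₁ * v j, ?_⟩
    rw [eval₂_mul, eval₂_mul, h₁, eval₂_X, eval₂_X]
    have h2 : ∑ i, v i * eval₂ g x (pderiv i (p * X j)) =
        (∑ i, v i * eval₂ g x (pderiv i p)) * x j + eval₂ g x p * v j := by
      have h3 : ∀ i, v i * eval₂ g x (pderiv i (p * X j)) =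
          (v i * eval₂ g x (pderiv i p)) * x j + (if i = j then eval₂ g x p * v j else 0) := by
        intro i
        rw [pderiv_mul, eval₂_add, eval₂_mul, eval₂_mul, eval₂_X, pderiv_X]
        by_cases hij : i = j
        · subst hij
          rw [if_pos rfl, Pi.single_eq_same, eval₂_one]
          ring
        · rw [if_neg hij, Pi.single_eq_of_ne (Ne.symm hij), eval₂_zero]
          ring
      rw [sum_congr rfl fun i _ => h3 i, sum_add_distrib, ← sum_mul, sum_ite_eq', if_pos (mem_univ j)]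
    rw [h2]
    ring

lemma lc_one {R : Type*} [CommRing R] (g : k →+* R) {f : MvPolynomial (Fin n) k}
    (hf : f.IsHomogeneous 4) (p q : Fin n → R) :
    lc g f p q 1 = ∑ i, p i * eval₂ g q (pderiv i f) := by
  let h : R →+* Polynomial R := Polynomial.C
  obtain ⟨r, hr⟩ := taylor2 (h.comp g) (fun i => h (q i)) (fun i => h (p i)) Polynomial.X f
  have h1 := eval₂_line (h.comp g) hf (fun i => h (p i)) (fun i => h (q i)) Polynomial.X 1
  have h2 : (fun i => h (p i) * (Polynomial.X : Polynomial R) + h (q i) * 1) =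
      fun i => h (q i) + Polynomial.X * h (p i) := by
    funext i; ring
  rw [h2, hr] at h1
  simp only [lc_map] at h1
  have h3 : ∀ φ : MvPolynomial (Fin n) k, eval₂ (h.comp g) (fun i => h (q i)) φ =
      h (eval₂ g q φ) := fun φ => (eval₂_comp_left h g q φ).symm
  simp only [h3, ← map_mul, ← map_sum] at h1
  have h4 := congrArg (fun P : Polynomial R => P.coeff 1) h1
  simp only [h, one_pow, mul_one] at h4
  have h5 : (Polynomial.X ^ 2 * r : Polynomial R).coeff 1 = 0 := by
    rw [Polynomial.coeff_X_pow_mul']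
    simp
  rw [Polynomial.coeff_add, Polynomial.coeff_add, h5, mul_comm Polynomial.X] at h4
  simp only [Polynomial.coeff_add, Polynomial.coeff_C_mul, Polynomial.coeff_X_pow,
    Polynomial.coeff_X, Polynomial.coeff_C] at h4
  simpa using h4.symm

lemma lc_three {R : Type*} [CommRing R] (g : k →+* R) {f : MvPolynomial (Fin n) k}
    (hf : f.IsHomogeneous 4) (p q : Fin n → R) :
    lc g f p q 3 = ∑ i, q i * eval₂ g p (pderiv i f) := by
  let h : R →+* Polynomial R := Polynomial.C
  obtain ⟨r, hr⟩ := taylor2 (h.comp g) (fun i => h (p i)) (fun i => h (q i)) Polynomial.X f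
  have h1 := eval₂_line (h.comp g) hf (fun i => h (p i)) (fun i => h (q i)) 1 Polynomial.X
  have h2 : (fun i => h (p i) * 1 + h (q i) * (Polynomial.X : Polynomial R)) =
      fun i => h (p i) + Polynomial.X * h (q i) := by
    funext i; ring
  rw [h2, hr] at h1
  simp only [lc_map] at h1
  have h3 : ∀ φ : MvPolynomial (Fin n) k, eval₂ (h.comp g) (fun i => h (p i)) φ =
      h (eval₂ g p φ) := fun φ => (eval₂_comp_left h g p φ).symm
  simp only [h3, ← map_mul, ← map_sum] at h1
  have h4 := congrArg (fun P : Polynomial R => P.coeff 1) h1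
  simp only [h, one_pow, mul_one, one_mul] at h4
  have h5 : (Polynomial.X ^ 2 * r : Polynomial R).coeff 1 = 0 := by
    rw [Polynomial.coeff_X_pow_mul']
    simp
  rw [Polynomial.coeff_add, Polynomial.coeff_add, h5, mul_comm Polynomial.X] at h4
  simp only [Polynomial.coeff_add, Polynomial.coeff_C_mul, Polynomial.coeff_X_pow,
    Polynomial.coeff_X, Polynomial.coeff_C] at h4
  simpa using h4.symm

/-- The binary form with coefficients `c i`. -/
noncomputable def binForm {R : Type*} [CommRing R] (c : ℕ → R) : MvPolynomial (Fin 2) R :=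
  C (c 4) * X 0 ^ 4 + C (c 3) * (X 0 ^ 3 * X 1) + C (c 2) * (X 0 ^ 2 * X 1 ^ 2) +
    C (c 1) * (X 0 * X 1 ^ 3) + C (c 0) * X 1 ^ 4

lemma binForm_isHomogeneous {R : Type*} [CommRing R] (c : ℕ → R) :
    (binForm c).IsHomogeneous 4 := by
  unfold binForm
  have h0 : ∀ m, (X 0 ^ m : MvPolynomial (Fin 2) R).IsHomogeneous m := isHomogeneous_X_pow 0
  have h1 : ∀ m, (X 1 ^ m : MvPolynomial (Fin 2) R).IsHomogeneous m := isHomogeneous_X_pow 1
  refine ((((?_ : IsHomogeneous _ 4).add ?_).add ?_).add ?_).add ?_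
  · exact (h0 4).C_mul _
  · have := (h0 3).mul (h1 1)
    rw [pow_one] at this
    exact this.C_mul _
  · exact ((h0 2).mul (h1 2)).C_mul _
  · have := (h0 1).mul (h1 3)
    rw [pow_one] at this
    exact this.C_mul _
  · exact (h1 4).C_mul _

lemma eval₂_binForm {R S : Type*} [CommRing R] [CommRing S] (g : R →+* S) (c : ℕ → R)
    (x : Fin 2 → S) : eval₂ g x (binForm c) =
      g (c 4) * x 0 ^ 4 + g (c 3) * (x 0 ^ 3 * x 1) + g (c 2) * (x 0 ^ 2 * x 1 ^ 2) +
    g (c 1) * (x 0 * x 1 ^ 3) + g (c 0) * x 1 ^ 4 := by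
  unfold binForm
  simp only [eval₂_add, eval₂_mul, eval₂_C, eval₂_pow, eval₂_X]

/-- The discriminant condition for binary quartic forms in characteristic two. -/
lemma isSmoothForm_binForm [CharP k 2] (c : ℕ → k) (h4 : c 4 ≠ 0)
    (hJ : c 4 * c 1 ^ 2 + c 3 * c 1 * c 2 + c 3 ^ 2 * c 0 ≠ 0) : IsSmoothForm (binForm c) := by
  intro x hx h0
  by_contra hcon
  push Not at hcon
  have hch : CharP (AlgebraicClosure k) 2 :=
    charP_of_injective_algebraMap (algebraMap k (AlgebraicClosure k)).injective 2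
  have h2 : (2 : AlgebraicClosure k) = 0 := CharTwo.two_eq_zero
  set g := algebraMap k (AlgebraicClosure k) with hg
  have e0 : g (c 4) * x 0 ^ 4 + g (c 3) * (x 0 ^ 3 * x 1) + g (c 2) * (x 0 ^ 2 * x 1 ^ 2) +
    g (c 1) * (x 0 * x 1 ^ 3) + g (c 0) * x 1 ^ 4 = 0 := by
    rw [← eval₂_binForm]
    exact h0
  have e1 : x 1 * (g (c 3) * x 0 ^ 2 + g (c 1) * x 1 ^ 2) = 0 := by
    have := hcon 0
    simp [binForm, pderiv_mul, pderiv_pow, pderiv_X, pderiv_C] at this
    linear_combination this - (2 * g (c 4) * x 0 ^ 3 + g (c 3) * x 0 ^ 2 * x 1 +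
      g (c 2) * x 0 * x 1 ^ 2) * h2
  have e2 : x 0 * (g (c 3) * x 0 ^ 2 + g (c 1) * x 1 ^ 2) = 0 := by
    have := hcon 1
    simp [binForm, pderiv_mul, pderiv_pow, pderiv_X, pderiv_C] at this
    linear_combination this - (g (c 2) * x 0 ^ 2 * x 1 + g (c 1) * x 0 * x 1 ^ 2 +
      2 * g (c 0) * x 1 ^ 3) * h2
  have h1 : x 1 ≠ 0 := by
    intro h1
    rw [h1] at e0
    have h3 : g (c 4) * x 0 ^ 4 = 0 := by
      linear_combination e0
    have h4' : g (c 4) ≠ 0 := by rwa [Ne, map_eq_zero]
    have h5 : x 0 = 0 := by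
      rcases mul_eq_zero.1 h3 with h6 | h6
      · exact absurd h6 h4'
      · exact pow_eq_zero_iff (by norm_num) |>.1 h6
    apply hx
    funext j
    fin_cases j
    · exact h5
    · exact h1
  have e3 : g (c 3) * x 0 ^ 2 + g (c 1) * x 1 ^ 2 = 0 := (mul_eq_zero.1 e1).resolve_left h1
  have e4 : g (c 4) * x 0 ^ 4 + g (c 2) * (x 0 ^ 2 * x 1 ^ 2) + g (c 0) * x 1 ^ 4 = 0 := by
    linear_combination e0 - x 0 * x 1 * e3
  have e5 : x 1 ^ 4 * g (c 4 * c 1 ^ 2 + c 3 * c 1 * c 2 + c 3 ^ 2 * c 0) = 0 := by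
    simp only [map_add, map_mul, map_pow]
    linear_combination (g (c 3)) ^ 2 * e4 - (g (c 4) * (g (c 3) * x 0 ^ 2 - g (c 1) * x 1 ^ 2) +
      g (c 2) * g (c 3) * x 1 ^ 2) * e3 +
      (g (c 2) * g (c 3) * g (c 1) * x 1 ^ 4) * h2
  rcases mul_eq_zero.1 e5 with h6 | h6
  · exact h1 (pow_eq_zero_iff (by norm_num) |>.1 h6)
  · rw [map_eq_zero] at h6
    exact hJ h6

end

end Pool.Agent.Helper26
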