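import Mathlib
import Pool.Agent.Helper26.GlobalFacts
import Pool.Agent.Helper26.Recip
import Pool.Agent.Helper26.ChooseY
import Pool.Agent.Helper26.WeakApprox

set_option autoImplicit false
set_option linter.unusedSectionVars false

/-!
# Specialization of algebraic points to residue fields
-/

universe u v

namespace Pool.Agent.Helper26

open Polynomial Filter

section

variable {F : Type v} {k : Type u} [Field F] [Finite F] [CharP F 2] [Field k] [CharP k 2]

/-- An element with large poles at the places of `T` which is integral elsewhere. -/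
lemma GoodEmb.exists_big {φ : RatFunc F →+* k} (hφ : GoodEmb φ)
    (T : Finset (ValuationSubring k)) (hT : ∀ V ∈ T, V ≠ ⊤) {ι : Type*} [Finite ι] (c : ι → k) :
    ∃ y : k, (∀ V : ValuationSubring k, V ≠ ⊤ → V ∉ T → y ∈ V) ∧
      ∀ V ∈ T, y ≠ 0 ∧ y⁻¹ ∈ V.nonunits ∧ ∀ i, y⁻¹ * c i ∈ V.nonunits := by
  classical
  have hpole : ∀ V : ValuationSubring k, ∃ τ : k, V ∈ T → τ ∉ V ∧
      ∀ V' : ValuationSubring k, V' ≠ ⊤ → V' ≠ V → τ ∈ V' := by
    intro V
    by_cases hVT : V ∈ T
    · obtain ⟨ψ, hψ, hX⟩ := hφ.exists_chart V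
      obtain ⟨F', _, _, _, χ, -, h1, h2⟩ := hψ.hasPole (hT V hVT) hX
      exact ⟨χ RatFunc.X, fun _ => ⟨h1, h2⟩⟩
    · exact ⟨0, fun h => absurd h hVT⟩
  choose τ hτ using hpole
  have hτ0 : ∀ V ∈ T, τ V ≠ 0 := fun V hV h => (hτ V hV).1 (h ▸ V.zero_mem)
  have hτi : ∀ V ∈ T, (τ V)⁻¹ ∈ V.nonunits := fun V hV => by
    rw [nonunits_iff, inv_inv]
    exact Or.inr (hτ V hV).1
  have hev : ∀ᶠ n in atTop, ∀ V ∈ T, ∀ i, (τ V)⁻¹ ^ n * c i ∈ V.nonunits := by
    rw [Filter.eventually_all_finset]
    intro V hV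
    rw [Filter.eventually_all]
    intro i
    exact (hφ.rankOne (hT V hV)).eventually_mul (hT V hV) (hτi V hV) (c i)
  obtain ⟨n, hn, hn1⟩ := (hev.and (eventually_ge_atTop 1)).exists
  refine ⟨∑ V ∈ T, τ V ^ n, ?_, ?_⟩
  · intro V hV hVT
    exact sum_mem fun V' hV' => pow_mem ((hτ V' hV').2 V hV (fun h => hVT (h ▸ hV'))) n
  · intro V hV
    have hr : (∑ V' ∈ T.erase V, τ V' ^ n) ∈ V :=
      sum_mem fun V' hV' => pow_mem ((hτ V' (Finset.mem_of_mem_erase hV')).2 V (hT V hV)
        (Finset.ne_of_mem_erase hV').symm) n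
    set r := ∑ V' ∈ T.erase V, τ V' ^ n with hrdef
    have hsum : ∑ V' ∈ T, τ V' ^ n = τ V ^ n + r := (Finset.add_sum_erase T _ hV).symm
    rw [hsum]
    have hτn : τ V ^ n ≠ 0 := pow_ne_zero _ (hτ0 V hV)
    set w := 1 + (τ V)⁻¹ ^ n * r with hw
    have hwn : (τ V)⁻¹ ^ n * r ∈ V.nonunits := nonunits_mul (pow_nonunits (hτi V hV) hn1) hr
    have hy : τ V ^ n + r = τ V ^ n * w := by
      rw [hw, mul_add, mul_one, ← mul_assoc, ← mul_pow, mul_inv_cancel₀ (hτ0 V hV), one_pow,
        one_mul]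
    have hw0 : w ≠ 0 := by
      intro h
      have h1 : (1 : k) = (τ V)⁻¹ ^ n * r := by
        rw [hw] at h
        have := CharTwo.add_eq_zero.1 h
        exact this
      rw [← h1] at hwn
      rw [nonunits_iff] at hwn
      rcases hwn with h2 | h2
      · exact one_ne_zero h2
      · exact h2 (by rw [inv_one]; exact V.one_mem)
    have hwi : w⁻¹ ∈ V := by
      by_contra hcon
      have h2 : w ∈ V.nonunits := (nonunits_iff V w).2 (Or.inr hcon)
      have h3 : (1 : k) ∈ V.nonunits := by
        have : (1 : k) = w + (τ V)⁻¹ ^ n * r := by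
          rw [hw, add_assoc, CharTwo.add_self_eq_zero, add_zero]
        rw [this]
        exact nonunits_add h2 hwn
      rw [nonunits_iff] at h3
      rcases h3 with h2 | h2
      · exact one_ne_zero h2
      · exact h2 (by rw [inv_one]; exact V.one_mem)
    rw [hy]
    refine ⟨mul_ne_zero hτn hw0, ?_, ?_⟩
    · rw [mul_inv, ← inv_pow]
      exact nonunits_mul (pow_nonunits (hτi V hV) hn1) hwi
    · intro i
      have : (τ V ^ n * w)⁻¹ * c i = ((τ V)⁻¹ ^ n * c i) * w⁻¹ := by
        rw [mul_inv, inv_pow]; ring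
      rw [this]
      exact nonunits_mul (hn V hV i) hwi

lemma inv_mem_of_one_add {V : ValuationSubring k} {x : k} (hx : x ∈ V.nonunits) :
    1 + x ≠ 0 ∧ (1 + x)⁻¹ ∈ V := by
  have h0 : 1 + x ∉ V.nonunits := by
    intro h
    apply one_notMem_nonunits V
    have : (1 : k) = (1 + x) + x := by
      rw [add_assoc, CharTwo.add_self_eq_zero, add_zero]
    rw [this]
    exact nonunits_add h hx
  rw [nonunits_iff] at h0
  push Not at h0
  exact h0

/-- A nonconstant polynomial has a zero modulo some place outside of a given finite set. -/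
lemma GoodEmb.exists_root_place {φ : RatFunc F →+* k} (hφ : GoodEmb φ)
    (T : Finset (ValuationSubring k)) (hT : ∀ V ∈ T, V ≠ ⊤) (h : k[X]) (hm : h.Monic)
    (hd : 0 < h.natDegree) :
    ∃ (V : ValuationSubring k) (y : k), V ≠ ⊤ ∧ V ∉ T ∧ y ∈ V ∧ h.eval y ∈ V.nonunits := by
  classical
  obtain ⟨V₀, hV₀⟩ := hφ.infinite_places.nonempty
  have hV₀ : V₀ ≠ ⊤ := hV₀
  have hT' : ∀ V ∈ insert V₀ T, V ≠ ⊤ := by
    intro V hV
    rcases Finset.mem_insert.1 hV with h1 | h1
    · rw [h1]; exact hV₀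
    · exact hT V h1
  obtain ⟨y, hy1, hy2⟩ := hφ.exists_big (insert V₀ T) hT'
    (fun i : Fin (h.natDegree) => h.coeff i)
  have key : ∀ V ∈ insert V₀ T, h.eval y ≠ 0 ∧ (h.eval y)⁻¹ ∈ V.nonunits := by
    intro V hV
    obtain ⟨hy0, hyi, hyc⟩ := hy2 V hV
    have hexp : h.eval y = y ^ h.natDegree *
        (1 + ∑ i ∈ Finset.range h.natDegree, h.coeff i * y ^ i * y⁻¹ ^ h.natDegree) := by
      rw [eval_eq_sum_range, Finset.sum_range_succ, hm.coeff_natDegree, one_mul, mul_add, mul_one,
        add_comm, Finset.mul_sum]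
      congr 1
      refine Finset.sum_congr rfl fun i _ => ?_
      rw [mul_comm (y ^ h.natDegree), mul_assoc (h.coeff i * y ^ i), ← mul_pow,
        inv_mul_cancel₀ hy0, one_pow, mul_one]
    have hsum : ∑ i ∈ Finset.range h.natDegree, h.coeff i * y ^ i * y⁻¹ ^ h.natDegree ∈
        V.nonunits := by
      have hmem : ∀ s : Finset ℕ, (∀ i ∈ s, i < h.natDegree) →
          ∑ i ∈ s, h.coeff i * y ^ i * y⁻¹ ^ h.natDegree ∈ V.nonunits := by
        intro s
        induction s using Finset.induction_on with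
        | empty =>
          intro _
          rw [Finset.sum_empty, nonunits_iff]
          exact Or.inl rfl
        | insert a s ha ih =>
          intro hs
          rw [Finset.sum_insert ha]
          refine nonunits_add ?_ (ih fun i hi => hs i (Finset.mem_insert_of_mem hi))
          have hlt := hs a (Finset.mem_insert_self a s)
          have hsplit : h.natDegree = a + 1 + (h.natDegree - 1 - a) := by omega
          have : h.coeff a * y ^ a * y⁻¹ ^ h.natDegree =
              (y⁻¹ * h.coeff a) * y⁻¹ ^ (h.natDegree - 1 - a) := by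
            conv_lhs => rw [hsplit, pow_add, pow_add, pow_one]
            have h1 : y ^ a * y⁻¹ ^ a = 1 := by rw [← mul_pow, mul_inv_cancel₀ hy0, one_pow]
            linear_combination (h.coeff a * y⁻¹ * y⁻¹ ^ (h.natDegree - 1 - a)) * h1
          rw [this]
          exact nonunits_mul (hyc ⟨a, hlt⟩) (pow_mem (nonunits_mem hyi) _)
      exact hmem _ fun i hi => Finset.mem_range.1 hi
    obtain ⟨h1, h2⟩ := inv_mem_of_one_add hsum
    rw [hexp]
    refine ⟨mul_ne_zero (pow_ne_zero _ hy0) h1, ?_⟩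
    rw [mul_inv, ← inv_pow]
    exact nonunits_mul (pow_nonunits hyi hd) h2
  have h0 := (key V₀ (Finset.mem_insert_self _ _)).1
  have hex : ∃ V : ValuationSubring k, (h.eval y)⁻¹ ∉ V := by
    by_contra hcon
    push Not at hcon
    have h1 := inv_mem_all _ hcon V₀
    rw [inv_inv] at h1
    have h2 := nonunits_mul (key V₀ (Finset.mem_insert_self _ _)).2 h1
    rw [inv_mul_cancel₀ h0] at h2
    exact one_notMem_nonunits V₀ h2
  obtain ⟨V, hV⟩ := hex
  have hVtop : V ≠ ⊤ := by
    rintro rfl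
    exact hV (ValuationSubring.mem_top _)
  have hVT : V ∉ insert V₀ T := fun hc => hV (nonunits_mem (key V hc).2)
  refine ⟨V, y, hVtop, fun hc => hVT (Finset.mem_insert_of_mem hc), hy1 V hVtop hVT, ?_⟩
  rw [nonunits_iff]
  exact Or.inr hV

end

section

variable {k : Type u} [Field k] [CharP k 2]

lemma eval₂_frob {R : Type*} [CommRing R] [CharP R 2] {σ : Type*} (f : k →+* R) (z : σ → R)
    (e : ℕ) (g : MvPolynomial σ k) :
    MvPolynomial.eval₂ f (fun i => z i ^ 2 ^ e) (MvPolynomial.map (iterateFrobenius k 2 e) g) =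
      (MvPolynomial.eval₂ f z g) ^ 2 ^ e := by
  have h : (MvPolynomial.eval₂Hom f (fun i => z i ^ 2 ^ e)).comp
      (MvPolynomial.map (iterateFrobenius k 2 e)) =
      (iterateFrobenius R 2 e).comp (MvPolynomial.eval₂Hom f z) := by
    apply MvPolynomial.ringHom_ext
    · intro r
      simp [iterateFrobenius_def]
    · intro i
      simp [iterateFrobenius_def]
  have h1 := RingHom.congr_fun h g
  rw [RingHom.comp_apply, RingHom.comp_apply, iterateFrobenius_def] at h1
  exact h1

lemma mv_congr {V : ValuationSubring k} {σ : Type*} (g : MvPolynomial σ k)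
    (hg : ∀ m, g.coeff m ∈ V) (u v : σ → k) (hu : ∀ i, u i ∈ V) (hv : ∀ i, v i ∈ V)
    (h : ∀ i, u i - v i ∈ V.nonunits) :
    MvPolynomial.eval u g ∈ V ∧ MvPolynomial.eval u g - MvPolynomial.eval v g ∈ V.nonunits := by
  have hr : g ∈ Set.range (MvPolynomial.map (V.subtype : V →+* k)) := by
    rw [MvPolynomial.mem_range_map_iff_coeffs_subset]
    intro x hx
    obtain ⟨m, -, rfl⟩ := MvPolynomial.mem_coeffs_iff.1 hx
    exact ⟨⟨_, hg m⟩, rfl⟩
  obtain ⟨g', rfl⟩ := hr
  have key : ∀ (w : σ → V), MvPolynomial.eval (fun i => (w i : k))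
      (MvPolynomial.map (V.subtype : V →+* k) g') = ((MvPolynomial.eval w g' : V) : k) := by
    intro w
    rw [MvPolynomial.eval_map]
    exact (MvPolynomial.eval₂_comp_left (V.subtype : V →+* k) (RingHom.id V) w g').symm
  have hu' := key (fun i => ⟨u i, hu i⟩)
  have hv' := key (fun i => ⟨v i, hv i⟩)
  dsimp only at hu' hv'
  rw [hu', hv']
  refine ⟨Subtype.prop _, ?_⟩
  have : ((MvPolynomial.eval (fun i => (⟨u i, hu i⟩ : V)) g' : V) : k) -
      ((MvPolynomial.eval (fun i => (⟨v i, hv i⟩ : V)) g' : V) : k) =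
      ((MvPolynomial.eval (fun i => (⟨u i, hu i⟩ : V)) g' -
        MvPolynomial.eval (fun i => (⟨v i, hv i⟩ : V)) g' : V) : k) := rfl
  rw [this]
  apply mem_nonunits_of_residue
  have hcomp : ∀ w : σ → V, IsLocalRing.residue V (MvPolynomial.eval w g') =
      MvPolynomial.eval₂ (IsLocalRing.residue V) (fun i => IsLocalRing.residue V (w i)) g' := by
    intro w
    exact MvPolynomial.eval₂_comp_left (IsLocalRing.residue V) (RingHom.id V) w g'
  rw [map_sub, hcomp, hcomp, sub_eq_zero]
  congr 1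
  funext i
  have h1 : IsLocalRing.residue V ((⟨u i, hu i⟩ : V) - ⟨v i, hv i⟩) = 0 :=
    residue_of_mem_nonunits (h i)
  rw [map_sub, sub_eq_zero] at h1
  exact h1

lemma finite_not_mvCoeff (hfin : ∀ x : k, {V : ValuationSubring k | x ∉ V}.Finite) {σ : Type*}
    (g : MvPolynomial σ k) : {V : ValuationSubring k | ¬ ∀ m, g.coeff m ∈ V}.Finite := by
  classical
  refine (g.support.finite_toSet.biUnion fun m _ => hfin (g.coeff m)).subset ?_
  intro V hV
  simp only [Set.mem_setOf_eq, not_forall] at hV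
  obtain ⟨m, hm⟩ := hV
  simp only [Set.mem_iUnion]
  refine ⟨m, ?_, hm⟩
  rw [Finset.mem_coe, MvPolynomial.mem_support_iff]
  intro h
  exact hm (h ▸ V.zero_mem)

/-- Every finite system of algebraic elements becomes polynomial in one separable element after
a power of Frobenius. -/
lemma exists_simple {E : Type*} [Field E] [Algebra k E] [Algebra.IsAlgebraic k E] {σ : Type*}
    [Finite σ] (z : σ → E) : ∃ (e : ℕ) (β : E) (A : σ → k[X]),
      ∀ i, aeval β (A i) = z i ^ 2 ^ e := by
  classical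
  have hchE : CharP E 2 := charP_of_injective_algebraMap (algebraMap k E).injective 2
  have _ : ExpChar k 2 := inferInstance
  have hpi := separableClosure.isPurelyInseparable k E
  have h1 : ∀ i, ∃ n : ℕ, z i ^ 2 ^ n ∈ (algebraMap (separableClosure k E) E).range :=
    fun i => IsPurelyInseparable.pow_mem (separableClosure k E) 2 (z i)
  choose n hn using h1
  cases nonempty_fintype σ
  set e := ∑ i, n i with he
  have hsep : ∀ i, IsSeparable k (z i ^ 2 ^ e) := by
    intro i
    have hle : n i ≤ e := Finset.single_le_sum (fun j _ => Nat.zero_le _) (Finset.mem_univ i)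
    obtain ⟨d, hd⟩ := Nat.exists_eq_add_of_le hle
    obtain ⟨y, hy⟩ := hn i
    have h2 : z i ^ 2 ^ e = ((y ^ 2 ^ d : separableClosure k E) : E) := by
      rw [hd, pow_add, pow_mul, ← hy]
      rfl
    rw [h2]
    exact mem_separableClosure_iff.1 (y ^ 2 ^ d).2
  set K := IntermediateField.adjoin k (Set.range fun i => z i ^ 2 ^ e) with hK
  have hKsep : Algebra.IsSeparable k K := by
    rw [hK, IntermediateField.isSeparable_adjoin_iff_isSeparable]
    rintro x ⟨i, rfl⟩
    exact hsep i
  have hKfin : FiniteDimensional k K := by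
    rw [hK]
    apply IntermediateField.finiteDimensional_adjoin
    rintro x ⟨i, rfl⟩
    exact (hsep i).isIntegral
  obtain ⟨β, hβ⟩ := Field.exists_primitive_element k K
  have hmem : ∀ i, z i ^ 2 ^ e ∈ K := fun i => IntermediateField.subset_adjoin _ _ ⟨i, rfl⟩
  have h3 : ∀ i, ∃ A : k[X], aeval (β : E) A = z i ^ 2 ^ e := by
    intro i
    have h4 : (⟨z i ^ 2 ^ e, hmem i⟩ : K) ∈ IntermediateField.adjoin k {β} := by
      rw [hβ]; trivial
    rw [← IntermediateField.mem_toSubalgebra,
      IntermediateField.adjoin_simple_toSubalgebra_of_isAlgebraic (Algebra.IsAlgebraic.isAlgebraic β),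
      Algebra.adjoin_singleton_eq_range_aeval] at h4
    obtain ⟨A, hA⟩ := h4
    refine ⟨A, ?_⟩
    have h5 := congrArg (fun x : K => (x : E)) hA
    dsimp only at h5
    rw [← h5]
    exact (Polynomial.aeval_algebraMap_apply E β A)
  choose A hA using h3
  exact ⟨e, β, A, hA⟩

end

section

variable {F : Type v} {k : Type u} [Field F] [Finite F] [CharP F 2] [Field k] [CharP k 2]

/-- Specialization: an algebraic point where the polynomials in `s` vanish and `g₀` does not
vanish has a reduction at some place outside of a given finite set. -/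
theorem GoodEmb.specialize {φ : RatFunc F →+* k} (hφ : GoodEmb φ) {E : Type*} [Field E]
    [Algebra k E] [Algebra.IsAlgebraic k E] {σ : Type*} [Finite σ] (z : σ → E)
    (s : Finset (MvPolynomial σ k)) (hs : ∀ g ∈ s, MvPolynomial.aeval z g = 0)
    (g₀ : MvPolynomial σ k) (hg₀ : MvPolynomial.aeval z g₀ ≠ 0)
    {T : Set (ValuationSubring k)} (hT : T.Finite) :
    ∃ (V : ValuationSubring k) (w : σ → k), V ≠ ⊤ ∧ V ∉ T ∧ (∀ i, w i ∈ V) ∧
      (∀ g ∈ s, MvPolynomial.eval w g ∈ V.nonunits) ∧ MvPolynomial.eval w g₀ ∈ V ∧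
      MvPolynomial.eval w g₀ ∉ V.nonunits := by
  classical
  have hchE : CharP E 2 := charP_of_injective_algebraMap (algebraMap k E).injective 2
  obtain ⟨e, β, A, hA⟩ := exists_simple (k := k) z
  have hβ : IsIntegral k β := (Algebra.IsAlgebraic.isAlgebraic β).isIntegral
  set h := minpoly k β with hh
  have hm : h.Monic := minpoly.monic hβ
  have hd : 0 < h.natDegree := minpoly.natDegree_pos hβ
  set fr := MvPolynomial.map (σ := σ) (iterateFrobenius k 2 e) with hfr
  set G : MvPolynomial σ k → k[X] := fun g => MvPolynomial.aeval A (fr g) with hG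
  have hGβ : ∀ g, aeval β (G g) = (MvPolynomial.aeval z g) ^ 2 ^ e := by
    intro g
    have h1 : aeval β (G g) = MvPolynomial.aeval (fun i => aeval β (A i)) (fr g) := by
      rw [hG]
      exact (MvPolynomial.comp_aeval_apply A (aeval β) (fr g))
    rw [h1, funext hA]
    exact eval₂_frob (algebraMap k E) z e g
  have hGy : ∀ (g : MvPolynomial σ k) (y : k), (G g).eval y =
      MvPolynomial.eval (fun i => (A i).eval y) (fr g) := by
    intro g y
    have h1 : (aeval y (G g) : k) = MvPolynomial.aeval (fun i => aeval y (A i)) (fr g) := by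
      rw [hG]
      exact (MvPolynomial.comp_aeval_apply A (aeval y) (fr g))
    rw [← coe_aeval_eq_eval, h1]
    rfl
  have hdvd : ∀ g ∈ s, ∃ H : k[X], G g = h * H := by
    intro g hg
    have h1 : aeval β (G g) = 0 := by
      rw [hGβ, hs g hg, zero_pow (pow_ne_zero _ two_ne_zero)]
    exact minpoly.dvd k β h1
  choose! H hH using hdvd
  have hcop : ∃ a b : k[X], a * h + b * G g₀ = 1 := by
    have h1 : IsCoprime h (G g₀) := by
      rw [(minpoly.irreducible hβ).coprime_iff_not_dvd]
      intro hdv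
      obtain ⟨c, hc⟩ := hdv
      have h2 : aeval β (G g₀) = 0 := by rw [hc, map_mul, minpoly.aeval, zero_mul]
      rw [hGβ] at h2
      exact hg₀ (pow_eq_zero_iff (pow_ne_zero _ two_ne_zero) |>.1 h2)
    exact h1
  obtain ⟨a, b, hab⟩ := hcop
  have hfin := hφ.hfin
  set B : Set (ValuationSubring k) := T ∪ ({V | ¬ CoeffIn V a} ∪ ({V | ¬ CoeffIn V b} ∪
    ((⋃ i, {V | ¬ CoeffIn V (A i)}) ∪ ((⋃ g ∈ s, {V | ¬ CoeffIn V (H g)}) ∪
      ((⋃ g ∈ insert g₀ s, {V : ValuationSubring k | ¬ ∀ m, (fr g).coeff m ∈ V}) ∪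
      (⋃ g ∈ insert g₀ s, {V : ValuationSubring k | ¬ ∀ m, g.coeff m ∈ V})))))) with hB
  have hBfin : B.Finite := by
    refine hT.union ((finite_not_coeffIn hfin a).union ((finite_not_coeffIn hfin b).union
      ((Set.finite_iUnion fun i => finite_not_coeffIn hfin (A i)).union
      (Set.Finite.union ?_ (Set.Finite.union ?_ ?_)))))
    · exact s.finite_toSet.biUnion fun g _ => finite_not_coeffIn hfin (H g)
    · exact (insert g₀ s).finite_toSet.biUnion fun g _ => finite_not_mvCoeff hfin (fr g)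
    · exact (insert g₀ s).finite_toSet.biUnion fun g _ => finite_not_mvCoeff hfin g
  obtain ⟨V, y, hVtop, hVT, hyV, hhy⟩ := hφ.exists_root_place
    (hBfin.toFinset.filter (· ≠ ⊤)) (fun V hV => (Finset.mem_filter.1 hV).2) h hm hd
  have hVB : V ∉ B := fun hc => hVT (Finset.mem_filter.2 ⟨hBfin.mem_toFinset.2 hc, hVtop⟩)
  simp only [hB, Set.mem_union, Set.mem_iUnion, Set.mem_setOf_eq, not_or, not_exists, not_not]
    at hVB
  obtain ⟨hVT', ha, hb, hAV, hHV, hfrV, hgV⟩ := hVB
  have hAy : ∀ i, (A i).eval y ∈ V := fun i => (hAV i).eval_mem hyV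
  -- the perfect residue field
  have hfinres := hφ.finite_residue hVtop
  have hchar := charP_residue V
  have hroot : ∀ i, ∃ w : V, IsLocalRing.residue V w ^ 2 ^ e =
      IsLocalRing.residue V ⟨(A i).eval y, hAy i⟩ := by
    intro i
    have hinj : Function.Injective (iterateFrobenius (IsLocalRing.ResidueField V) 2 e) :=
      (iterateFrobenius (IsLocalRing.ResidueField V) 2 e).injective
    have hsurj := Finite.injective_iff_surjective.1 hinj
    obtain ⟨x, hx⟩ := hsurj (IsLocalRing.residue V ⟨(A i).eval y, hAy i⟩)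
    obtain ⟨w, rfl⟩ := IsLocalRing.residue_surjective x
    exact ⟨w, by rw [← hx, iterateFrobenius_def]⟩
  choose w hw using hroot
  have hwA : ∀ i, ((w i : k)) ^ 2 ^ e - (A i).eval y ∈ V.nonunits := by
    intro i
    have : ((w i : k)) ^ 2 ^ e - (A i).eval y = ((w i ^ 2 ^ e - ⟨(A i).eval y, hAy i⟩ : V) : k) :=
      rfl
    rw [this]
    apply mem_nonunits_of_residue
    rw [map_sub, map_pow, hw, sub_self]
  have hmain : ∀ g : MvPolynomial σ k, (∀ m, (fr g).coeff m ∈ V) →
      (MvPolynomial.eval (fun i => (w i : k)) g) ^ 2 ^ e - (G g).eval y ∈ V.nonunits := by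
    intro g hg
    have h1 := (mv_congr (fr g) hg (fun i => (w i : k) ^ 2 ^ e) (fun i => (A i).eval y)
      (fun i => pow_mem (w i).2 _) hAy hwA).2
    rw [hGy]
    have h2 : MvPolynomial.eval (fun i => (w i : k) ^ 2 ^ e) (fr g) =
        (MvPolynomial.eval (fun i => (w i : k)) g) ^ 2 ^ e :=
      eval₂_frob (RingHom.id k) (fun i => (w i : k)) e g
    rwa [h2] at h1
  have hpow : ∀ x : k, x ∈ V → (x ^ 2 ^ e ∈ V.nonunits ↔ x ∈ V.nonunits) := by
    intro x hx
    constructor
    · intro h1
      have h2 : IsLocalRing.residue V (⟨x, hx⟩ ^ 2 ^ e) = 0 :=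
        residue_of_mem_nonunits (x := (⟨x, hx⟩ : V) ^ 2 ^ e) h1
      rw [map_pow] at h2
      exact mem_nonunits_of_residue (x := (⟨x, hx⟩ : V)) (pow_eq_zero_iff
        (pow_ne_zero _ two_ne_zero) |>.1 h2)
    · intro h1
      exact pow_nonunits h1 (Nat.one_le_two_pow)
  refine ⟨V, fun i => (w i : k), hVtop, hVT', fun i => (w i).2, ?_, ?_, ?_⟩
  · intro g hg
    have hgin : g ∈ insert g₀ s := Finset.mem_insert_of_mem hg
    have hmem : MvPolynomial.eval (fun i => (w i : k)) g ∈ V :=
      (mv_congr g (hgV g hgin) _ _ (fun i => (w i).2) (fun i => (w i).2)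
        (fun i => by rw [sub_self, nonunits_iff]; exact Or.inl rfl)).1
    rw [← hpow _ hmem]
    have h1 := hmain g (hfrV g hgin)
    have h2 : (G g).eval y ∈ V.nonunits := by
      rw [hH g hg, eval_mul]
      exact nonunits_mul hhy ((hHV g hg).eval_mem hyV)
    have : (MvPolynomial.eval (fun i => (w i : k)) g) ^ 2 ^ e =
        ((MvPolynomial.eval (fun i => (w i : k)) g) ^ 2 ^ e - (G g).eval y) + (G g).eval y := by
      ring
    rw [this]
    exact nonunits_add h1 h2
  · exact (mv_congr g₀ (hgV g₀ (Finset.mem_insert_self _ _)) _ _ (fun i => (w i).2)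
      (fun i => (w i).2) (fun i => by rw [sub_self, nonunits_iff]; exact Or.inl rfl)).1
  · have hmem : MvPolynomial.eval (fun i => (w i : k)) g₀ ∈ V :=
      (mv_congr g₀ (hgV g₀ (Finset.mem_insert_self _ _)) _ _ (fun i => (w i).2)
        (fun i => (w i).2) (fun i => by rw [sub_self, nonunits_iff]; exact Or.inl rfl)).1
    rw [← hpow _ hmem]
    intro hcon
    have h1 := hmain g₀ (hfrV g₀ (Finset.mem_insert_self _ _))
    have h2 : (G g₀).eval y ∈ V.nonunits := by
      have : (G g₀).eval y = (MvPolynomial.eval (fun i => (w i : k)) g₀) ^ 2 ^ e -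
          ((MvPolynomial.eval (fun i => (w i : k)) g₀) ^ 2 ^ e - (G g₀).eval y) := by ring
      rw [this]
      exact nonunits_sub hcon h1
    have h3 := congrArg (eval y) hab
    rw [eval_add, eval_mul, eval_mul, eval_one] at h3
    apply one_notMem_nonunits V
    rw [← h3]
    exact nonunits_add (nonunits_mul' (ha.eval_mem hyV) hhy) (nonunits_mul' (hb.eval_mem hyV) h2)

end

end Pool.Agent.Helper26
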