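import Mathlib
import Pool.Agent.Helper26.QuLine
import Pool.Agent.Helper26.QuSpec
import Pool.Agent.Helper26.NormLoc
import Pool.Agent.Helper26.LocT

set_option autoImplicit false
set_option linter.unusedSectionVars false

/-!
# Binary quartic forms without quadratic factors
-/

universe u v

namespace Pool.Agent.Helper26

section

variable {k : Type u} [Field k]

lemma unit_of_unit_mul {V : ValuationSubring k} {x y : k} (hy : y⁻¹ ∈ V)
    (hy0 : y ≠ 0) (hxy : x * y ∈ V.nonunits) : x ∈ V.nonunits := by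
  have : x = (x * y) * y⁻¹ := by rw [mul_assoc, mul_inv_cancel₀ hy0, mul_one]
  rw [this]
  exact nonunits_mul hxy hy

lemma not_quad_core {V : ValuationSubring k} {α β γ δ : k} (hα : α ∈ V) (hβ : β ∈ V)
    (hγ : γ ∈ V) (hδ : δ ∈ V) (h2 : β + δ + α * γ ∈ V.nonunits)
    (h1 : α * δ + β * γ ∈ V.nonunits) (h0 : IsUnif V (β * δ)) : False := by
  have hβ0 : β ≠ 0 := left_ne_zero_of_mul h0.1
  have hδ0 : δ ≠ 0 := right_ne_zero_of_mul h0.1
  have key : ∀ α β γ δ : k, α ∈ V → β ∈ V → γ ∈ V → δ ∈ V → β ≠ 0 →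
      β + δ + α * γ ∈ V.nonunits → α * δ + β * γ ∈ V.nonunits → β * δ ∈ V.nonunits →
      β ∈ V.nonunits := by
    intro α β γ δ hα hβ hγ hδ hβ0 h2 h1 h0
    rcases mem_nonunits_or hβ with h | ⟨-, h⟩
    · exact h
    · have hδn : δ ∈ V.nonunits := unit_of_unit_mul h hβ0 (by rwa [mul_comm])
      have hγn : γ ∈ V.nonunits := by
        apply unit_of_unit_mul h hβ0
        have : γ * β = (α * δ + β * γ) - α * δ := by ring
        rw [this]
        exact nonunits_sub h1 (nonunits_mul' hα hδn)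
      have : β = (β + δ + α * γ) - δ - α * γ := by ring
      rw [this]
      exact nonunits_sub (nonunits_sub h2 hδn) (nonunits_mul' hα hγn)
  have hβn := key α β γ δ hα hβ hγ hδ hβ0 h2 h1 h0.2.1
  have hδn := key γ δ α β hγ hδ hα hβ hδ0 (by
    have : δ + β + γ * α = β + δ + α * γ := by ring
    rwa [this]) (by
    have : γ * β + δ * α = α * δ + β * γ := by ring
    rwa [this]) (by rw [mul_comm]; exact h0.2.1)
  have h3 := h0.2.2 β hβn
  have h4 : β / (β * δ) = δ⁻¹ := by field_simp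
  rw [h4] at h3
  exact not_inv_mem hδn hδ0 h3

lemma coeff_mem_of_dvd {V : ValuationSubring k} {P g : Polynomial k} (hP : P.Monic)
    (hPV : ∀ n, P.coeff n ∈ V) (hg : g.Monic) (hdvd : g ∣ P) (n : ℕ) : g.coeff n ∈ V := by
  have hl : P ∈ Polynomial.lifts (algebraMap V k) := by
    rw [Polynomial.lifts_iff_coeff_lifts]
    intro n
    exact ⟨⟨_, hPV n⟩, rfl⟩
  obtain ⟨P', hP', -, hPm⟩ := Polynomial.lifts_and_degree_eq_and_monic hl hP
  rw [← hP'] at hdvd
  obtain ⟨g', hg'⟩ := IsIntegrallyClosed.eq_map_mul_C_of_dvd k hPm hdvd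
  rw [hg.leadingCoeff, Polynomial.C_1, mul_one] at hg'
  rw [← hg', Polynomial.coeff_map]
  exact (g'.coeff n).2

lemma not_quad_poly {V : ValuationSubring k} {α β γ δ : k} (h3 : α + γ ∈ V)
    (h2 : β + δ + α * γ ∈ V.nonunits) (h1 : α * δ + β * γ ∈ V.nonunits)
    (h0 : IsUnif V (β * δ)) : False := by
  open Polynomial in
  have hgm : ∀ a b : k, (X ^ 2 + C a * X + C b : k[X]).Monic := fun a b => by monicity!
  have hprod : (X ^ 2 + C α * X + C β) * (X ^ 2 + C γ * X + C δ) =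
      (X ^ 4 + C (α + γ) * X ^ 3 + C (β + δ + α * γ) * X ^ 2 + C (α * δ + β * γ) * X +
        C (β * δ) : k[X]) := by
    simp only [map_add, map_mul]
    ring
  have hPm : ((X ^ 2 + C α * X + C β) * (X ^ 2 + C γ * X + C δ) : k[X]).Monic :=
    (hgm α β).mul (hgm γ δ)
  have hPV : ∀ n, ((X ^ 2 + C α * X + C β) * (X ^ 2 + C γ * X + C δ) : k[X]).coeff n ∈ V := by
    intro n
    rw [hprod]
    simp only [coeff_add, coeff_X_pow, coeff_C_mul, coeff_X, coeff_C]
    refine V.add_mem _ _ (V.add_mem _ _ (V.add_mem _ _ (V.add_mem _ _ ?_ ?_) ?_) ?_) ?_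
    · split_ifs
      · exact V.one_mem
      · exact V.zero_mem
    · refine V.mul_mem _ _ h3 ?_
      split_ifs
      · exact V.one_mem
      · exact V.zero_mem
    · refine V.mul_mem _ _ (nonunits_mem h2) ?_
      split_ifs
      · exact V.one_mem
      · exact V.zero_mem
    · refine V.mul_mem _ _ (nonunits_mem h1) ?_
      split_ifs
      · exact V.one_mem
      · exact V.zero_mem
    · split_ifs
      · exact nonunits_mem h0.2.1
      · exact V.zero_mem
  have hg1 := coeff_mem_of_dvd hPm hPV (hgm α β) (dvd_mul_right _ _)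
  have hg2 := coeff_mem_of_dvd hPm hPV (hgm γ δ) (dvd_mul_left _ _)
  have hα : α ∈ V := by
    have := hg1 1
    simpa [coeff_X, coeff_C] using this
  have hβ : β ∈ V := by
    have := hg1 0
    simpa [coeff_X, coeff_C] using this
  have hγ : γ ∈ V := by
    have := hg2 1
    simpa [coeff_X, coeff_C] using this
  have hδ : δ ∈ V := by
    have := hg2 0
    simpa [coeff_X, coeff_C] using this
  exact not_quad_core hα hβ hγ hδ h2 h1 h0

lemma IsUnif.unit_mul {V : ValuationSubring k} {π u : k} (hu : IsUnif V π) (hu0 : u ≠ 0)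
    (huV : u ∈ V) (huV' : u⁻¹ ∈ V) : IsUnif V (π * u) := by
  refine ⟨mul_ne_zero hu.1 hu0, nonunits_mul hu.2.1 huV, ?_⟩
  intro x hx
  have : x / (π * u) = x / π * u⁻¹ := by field_simp
  rw [this]
  exact V.mul_mem _ _ (hu.2.2 x hx) huV'

open Polynomial in
lemma quartic_inj {a₄ a₃ a₂ a₁ a₀ b₄ b₃ b₂ b₁ b₀ : k}
    (h : (C a₄ * X ^ 4 + C a₃ * X ^ 3 + C a₂ * X ^ 2 + C a₁ * X + C a₀ : k[X]) =
      C b₄ * X ^ 4 + C b₃ * X ^ 3 + C b₂ * X ^ 2 + C b₁ * X + C b₀) :
    a₄ = b₄ ∧ a₃ = b₃ ∧ a₂ = b₂ ∧ a₁ = b₁ ∧ a₀ = b₀ := by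
  refine ⟨?_, ?_, ?_, ?_, ?_⟩
  · have := congrArg (fun P : k[X] => P.coeff 4) h
    simpa [coeff_X, coeff_C, coeff_X_pow] using this
  · have := congrArg (fun P : k[X] => P.coeff 3) h
    simpa [coeff_X, coeff_C, coeff_X_pow] using this
  · have := congrArg (fun P : k[X] => P.coeff 2) h
    simpa [coeff_X, coeff_C, coeff_X_pow] using this
  · have := congrArg (fun P : k[X] => P.coeff 1) h
    simpa [coeff_X, coeff_C, coeff_X_pow] using this
  · have := congrArg (fun P : k[X] => P.coeff 0) h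
    simpa [coeff_X, coeff_C, coeff_X_pow] using this

/-- A binary quartic form which reduces to a form with a triple zero and whose last coefficient is
a uniformizer is not a product of two quadratic forms. -/
theorem binForm_ne_mul {V : ValuationSubring k} (c : ℕ → k) (h4 : c 4 ≠ 0)
    (h4V : (c 4)⁻¹ ∈ V) (h4V' : c 4 ∈ V) (h3 : c 3 ∈ V) (h2 : c 2 ∈ V.nonunits)
    (h1 : c 1 ∈ V.nonunits) (h0 : IsUnif V (c 0)) (g h : MvPolynomial (Fin 2) k)
    (hg : g.IsHomogeneous 2) (hh : h.IsHomogeneous 2) (hgh : binForm c = g * h) : False := by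
  classical
  have eg := binary_eq_sum hg
  have eh := binary_eq_sum hh
  set a : ℕ → k := fun i => g.coeff (Finsupp.single 0 i + Finsupp.single 1 (2 - i)) with ha
  set b : ℕ → k := fun i => h.coeff (Finsupp.single 0 i + Finsupp.single 1 (2 - i)) with hb
  open Polynomial in
  have hG : MvPolynomial.aeval ![(X : k[X]), 1] g = C (a 2) * X ^ 2 + C (a 1) * X + C (a 0) := by
    rw [eg]
    simp only [Finset.sum_range_succ, Finset.range_zero, Finset.sum_empty, map_add, map_mul,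
      map_pow, MvPolynomial.aeval_X, MvPolynomial.aeval_C, Polynomial.algebraMap_eq,
      Matrix.cons_val_zero, Matrix.cons_val_one, one_pow, mul_one, pow_zero, pow_one, map_zero,
      zero_add, map_one]
    simp only [ha]
    ring
  have hH : MvPolynomial.aeval ![(X : k[X]), 1] h = C (b 2) * X ^ 2 + C (b 1) * X + C (b 0) := by
    rw [eh]
    simp only [Finset.sum_range_succ, Finset.range_zero, Finset.sum_empty, map_add, map_mul,
      map_pow, MvPolynomial.aeval_X, MvPolynomial.aeval_C, Polynomial.algebraMap_eq,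
      Matrix.cons_val_zero, Matrix.cons_val_one, one_pow, mul_one, pow_zero, pow_one, map_zero,
      zero_add, map_one]
    simp only [hb]
    ring
  have hB : MvPolynomial.aeval ![(X : k[X]), 1] (binForm c) = C (c 4) * X ^ 4 + C (c 3) * X ^ 3 +
      C (c 2) * X ^ 2 + C (c 1) * X + C (c 0) := by
    simp only [binForm, map_add, map_mul,
      map_pow, MvPolynomial.aeval_X, MvPolynomial.aeval_C, Polynomial.algebraMap_eq,
      Matrix.cons_val_zero, Matrix.cons_val_one, one_pow, mul_one]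
  have hE : (C (c 4) * X ^ 4 + C (c 3) * X ^ 3 +
      C (c 2) * X ^ 2 + C (c 1) * X + C (c 0) : k[X]) = C (a 2 * b 2) * X ^ 4 +
      C (a 2 * b 1 + a 1 * b 2) * X ^ 3 + C (a 2 * b 0 + a 1 * b 1 + a 0 * b 2) * X ^ 2 +
      C (a 1 * b 0 + a 0 * b 1) * X + C (a 0 * b 0) := by
    rw [← hB, hgh, map_mul, hG, hH]
    simp only [map_add, map_mul]
    ring
  obtain ⟨e4, e3, e2, e1, e0⟩ := quartic_inj hE
  rw [e4] at h4
  have ha2 : a 2 ≠ 0 := left_ne_zero_of_mul h4
  have hb2 : b 2 ≠ 0 := right_ne_zero_of_mul h4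
  apply not_quad_poly (V := V) (α := a 1 / a 2) (β := a 0 / a 2) (γ := b 1 / b 2)
    (δ := b 0 / b 2)
  · have : a 1 / a 2 + b 1 / b 2 = c 3 * (c 4)⁻¹ := by
      rw [e3, e4]; field_simp; ring
    rw [this]
    exact V.mul_mem _ _ h3 h4V
  · have : a 0 / a 2 + b 0 / b 2 + a 1 / a 2 * (b 1 / b 2) = c 2 * (c 4)⁻¹ := by
      rw [e2, e4]; field_simp; ring
    rw [this]
    exact nonunits_mul h2 h4V
  · have : a 1 / a 2 * (b 0 / b 2) + a 0 / a 2 * (b 1 / b 2) = c 1 * (c 4)⁻¹ := by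
      rw [e1, e4]; field_simp
    rw [this]
    exact nonunits_mul h1 h4V
  · have : a 0 / a 2 * (b 0 / b 2) = c 0 * (c 4)⁻¹ := by
      rw [e0, e4]; field_simp
    rw [this]
    exact h0.unit_mul (inv_ne_zero (e4 ▸ h4)) h4V (by rwa [inv_inv])

end

section

variable {F : Type v} {k : Type u} [Field F] [Finite F] [CharP F 2] [Field k] [CharP k 2]

/-- Units are norms at the places where `a` is integral. -/
lemma GoodEmb.NW_unit {φ : RatFunc F →+* k} (hφ : GoodEmb φ) {V : ValuationSubring k}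
    (hV : V ≠ ⊤) {a e : k} (ha : a ∈ V) (he : e ∈ V) (hei : e⁻¹ ∈ V) (he0 : e ≠ 0) :
    NW V a e := by
  obtain ⟨π, hu⟩ := hφ.exists_unif hV
  have ht := hφ.isTwoBasis.of_not_sq hu.not_sq
  rw [hφ.NW_iff hV ht a he0]
  apply hφ.LT_of_mem hV ht (nonunits_mem hu.2.1)
  apply (unif_cart_mem hu ht _).1
  refine V.mul_mem _ _ ha ?_
  rw [IsTwoBasis.dl, div_eq_mul_inv]
  exact V.mul_mem _ _ (pow_mem (unif_cart_mem hu ht he).1 2) hei

end

end Pool.Agent.Helper26
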