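import Mathlib
import Pool.Agent.Helper26.QuRed

set_option autoImplicit false
set_option linter.unusedSectionVars false

/-!
# The auxiliary place
-/

universe u v

namespace Pool.Agent.Helper26

open MvPolynomial Finset

section

variable {k : Type u} [Field k]

lemma taylor2_mem {V : ValuationSubring k} {σ : Type*} [Fintype σ] (f : MvPolynomial σ k)
    (hf : ∀ m, f.coeff m ∈ V) (x v : σ → k) (hx : ∀ i, x i ∈ V) (hv : ∀ i, v i ∈ V) {ε : k}
    (hε : ε ∈ V) : ∃ r ∈ V, eval (fun i => x i + ε * v i) f =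
      eval x f + ε * ∑ i, v i * eval x (pderiv i f) + ε ^ 2 * r := by
  have hr : f ∈ Set.range (MvPolynomial.map (V.subtype : V →+* k)) := by
    rw [MvPolynomial.mem_range_map_iff_coeffs_subset]
    intro x hx
    obtain ⟨m, -, rfl⟩ := MvPolynomial.mem_coeffs_iff.1 hx
    exact ⟨⟨_, hf m⟩, rfl⟩
  obtain ⟨f', rfl⟩ := hr
  obtain ⟨r, hr⟩ := taylor2 (V.subtype : V →+* k) x v ε f'
  obtain ⟨r', hr'⟩ := taylor2 (RingHom.id V) (fun i => (⟨x i, hx i⟩ : V))
    (fun i => (⟨v i, hv i⟩ : V)) ⟨ε, hε⟩ f'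
  have key : ∀ (w : σ → V) (g : MvPolynomial σ V), eval (fun i => (w i : k))
      (MvPolynomial.map (V.subtype : V →+* k) g) = ((eval₂ (RingHom.id V) w g : V) : k) := by
    intro w g
    rw [MvPolynomial.eval_map]
    exact (MvPolynomial.eval₂_comp_left (V.subtype : V →+* k) (RingHom.id V) w g).symm
  refine ⟨r', r'.2, ?_⟩
  have h1 := key (fun i => (⟨x i, hx i⟩ : V) + ⟨ε, hε⟩ * (⟨v i, hv i⟩ : V)) f'
  have h2 := key (fun i => (⟨x i, hx i⟩ : V)) f'
  have h3 : ∀ j, eval x (pderiv j (MvPolynomial.map (V.subtype : V →+* k) f')) =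
      ((eval₂ (RingHom.id V) (fun i => (⟨x i, hx i⟩ : V)) (pderiv j f') : V) : k) := by
    intro j
    rw [pderiv_map]
    exact key (fun i => (⟨x i, hx i⟩ : V)) (pderiv j f')
  have h4 : eval (fun i => x i + ε * v i) (MvPolynomial.map (V.subtype : V →+* k) f') =
      ((eval₂ (RingHom.id V) (fun i => (⟨x i, hx i⟩ : V) + ⟨ε, hε⟩ * (⟨v i, hv i⟩ : V)) f' : V) : k)
      := h1
  have h5 : eval x (MvPolynomial.map (V.subtype : V →+* k) f') =
      ((eval₂ (RingHom.id V) (fun i => (⟨x i, hx i⟩ : V)) f' : V) : k) := h2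
  rw [h4, h5, hr']
  simp only [h3]
  push_cast
  rfl

end

section

variable {F : Type v} {k : Type u} [Field F] [Finite F] [CharP F 2] [Field k] [CharP k 2]

lemma unit_of_mul_unit {V : ValuationSubring k} {x y : k} (hx : x ∈ V) (hy : y ∈ V)
    (h : x * y ∉ V.nonunits) : x ∉ V.nonunits ∧ y ∉ V.nonunits :=
  ⟨fun hc => h (nonunits_mul hc hy), fun hc => h (nonunits_mul' hx hc)⟩

lemma unit_iff {V : ValuationSubring k} {x : k} (h : x ∉ V.nonunits) : x ≠ 0 ∧ x⁻¹ ∈ V := by
  rw [nonunits_iff] at h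
  push Not at h
  exact h

lemma IsUnif.add_small {V : ValuationSubring k} {π f x : k} (hπ : IsUnif V π) (hf : IsUnif V f)
    (hx : x ∈ V) : IsUnif V (f + π ^ 2 * x) := by
  have h1 : f + π ^ 2 * x = f * (1 + π * (π / f) * x) := by
    have := hf.1
    field_simp
  obtain ⟨h2, h3⟩ := inv_mem_of_one_add (V := V) (x := π * (π / f) * x)
    (nonunits_mul (nonunits_mul hπ.2.1 (hf.2.2 π hπ.2.1)) hx)
  rw [h1]
  exact hf.unit_mul h2 (V.add_mem _ _ V.one_mem (V.mul_mem _ _ (V.mul_mem _ _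
    (nonunits_mem hπ.2.1) (hf.2.2 π hπ.2.1)) hx)) h3

/-- There is a place `V` and a ball of pairs of points such that the restriction of `f` to the
line through any pair of points of the ball is not a product of two quadratic forms. -/
theorem GoodEmb.exists_aux_place {φ : RatFunc F →+* k} (hφ : GoodEmb φ) {n : ℕ}
    {f : MvPolynomial (Fin n) k} (hf : f.IsHomogeneous 4) {E : Type*} [Field E] [Algebra k E]
    [Algebra.IsAlgebraic k E] (P Q : Fin n → E) (hP : aeval P f ≠ 0) (hQ : aeval Q f = 0)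
    (h1 : lc (algebraMap k E) f P Q 1 = 0) (h2 : lc (algebraMap k E) f P Q 2 = 0)
    (i₀ : Fin n) (hi : aeval Q (pderiv i₀ f) ≠ 0) (a : k) :
    ∃ (V : ValuationSubring k) (p₁ q₁ : Fin n → k) (ρ : k), V ≠ ⊤ ∧ ρ ≠ 0 ∧ ρ ∈ V ∧
      ∀ p q : Fin n → k, (∀ i, (p i - p₁ i) / ρ ∈ V) → (∀ i, (q i - q₁ i) / ρ ∈ V) →
        eval p f ≠ 0 ∧ NW V a (eval p f) ∧
        ∀ g h : MvPolynomial (Fin 2) k, g.IsHomogeneous 2 → h.IsHomogeneous 2 →
          binForm (lc (RingHom.id k) f p q) ≠ g * h := by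
  classical
  have hfin := hφ.hfin
  set z : Fin n ⊕ Fin n → E := Sum.elim P Q with hz
  have hlc : ∀ i, aeval z (gc f i) = lc (algebraMap k E) f P Q i := fun i => rfl
  have hlk : ∀ (p q : Fin n → k) i, eval (Sum.elim p q) (gc f i) = lc (RingHom.id k) f p q i :=
    fun p q i => rfl
  obtain ⟨V, w, hV, hVT, hwV, hws, hw0, hw0'⟩ := hφ.specialize z
    ({gc f 1, gc f 2, gc f 0} : Finset _) (by
      intro g hg
      simp only [mem_insert, mem_singleton] at hg
      rcases hg with rfl | rfl | rfl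
      · rw [hlc, h1]
      · rw [hlc, h2]
      · rw [hlc, lc_zero _ hf]; exact hQ)
    (gc f 4 * rename Sum.inr (pderiv i₀ f)) (by
      rw [map_mul, hlc, lc_four _ hf, aeval_rename]
      exact mul_ne_zero hP hi)
    (T := {V | a ∉ V} ∪ ((⋃ i ∈ range 5, {V : ValuationSubring k | ¬ ∀ m, (gc f i).coeff m ∈ V}) ∪
      ({V : ValuationSubring k | ¬ ∀ m, f.coeff m ∈ V} ∪
      {V : ValuationSubring k | ¬ ∀ m, (pderiv i₀ f).coeff m ∈ V})))
    ((hfin a).union (((range 5).finite_toSet.biUnion fun i _ =>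
      finite_not_mvCoeff hfin (gc f i)).union
      ((finite_not_mvCoeff hfin f).union (finite_not_mvCoeff hfin _))))
  simp only [Set.mem_union, Set.mem_iUnion, Set.mem_setOf_eq, not_or, not_exists, not_not]
    at hVT
  obtain ⟨haV, hgcV, hfV, hdV⟩ := hVT
  set p₁ : Fin n → k := fun i => w (Sum.inl i) with hp₁
  set q₀ : Fin n → k := fun i => w (Sum.inr i) with hq₀
  have hwe : w = Sum.elim p₁ q₀ := by
    funext i; cases i <;> rfl
  have hp₁V : ∀ i, p₁ i ∈ V := fun i => hwV _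
  have hq₀V : ∀ i, q₀ i ∈ V := fun i => hwV _
  obtain ⟨π, hπ⟩ := hφ.exists_unif hV
  have hself : ∀ (g : MvPolynomial (Fin n ⊕ Fin n) k), (∀ m, g.coeff m ∈ V) →
      ∀ x : Fin n ⊕ Fin n → k, (∀ i, x i ∈ V) → eval x g ∈ V := fun g hg x hx =>
    (mv_congr g hg x x hx hx (fun i => by rw [sub_self, nonunits_iff]; exact Or.inl rfl)).1
  have hself' : ∀ (g : MvPolynomial (Fin n) k), (∀ m, g.coeff m ∈ V) →
      ∀ x : Fin n → k, (∀ i, x i ∈ V) → eval x g ∈ V := fun g hg x hx =>
    (mv_congr g hg x x hx hx (fun i => by rw [sub_self, nonunits_iff]; exact Or.inl rfl)).1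
  -- the conditions at `(p₁, q₀)`
  have hfp : eval p₁ f ∉ V.nonunits ∧ eval q₀ (pderiv i₀ f) ∉ V.nonunits := by
    rw [map_mul, hwe, hlk, lc_four _ hf, eval_rename] at hw0'
    have h3 : eval (Sum.elim p₁ q₀ ∘ Sum.inr) (pderiv i₀ f) = eval q₀ (pderiv i₀ f) := rfl
    rw [h3] at hw0'
    exact unit_of_mul_unit (hself' f hfV p₁ hp₁V) (hself' _ hdV q₀ hq₀V) hw0'
  have hfq : eval q₀ f ∈ V.nonunits := by
    have := hws (gc f 0) (by simp)
    rw [hwe, hlk, lc_zero _ hf] at this
    exact this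
  -- the adjustment
  have hadj : ∃ q₁ : Fin n → k, (∀ i, q₁ i ∈ V) ∧ (∀ i, q₁ i - q₀ i ∈ V.nonunits) ∧
      IsUnif V (eval q₁ f) := by
    by_cases hu : IsUnif V (eval q₀ f)
    · exact ⟨q₀, hq₀V, fun i => by rw [sub_self, nonunits_iff]; exact Or.inl rfl, hu⟩
    · have hquo : eval q₀ f / π ∈ V.nonunits := by
        by_contra hcon
        obtain ⟨h3, h4⟩ := unit_iff hcon
        apply hu
        have : eval q₀ f = π * (eval q₀ f / π) := by
          have := hπ.1
          field_simp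
        rw [this]
        exact hπ.unit_mul h3 (hπ.2.2 _ hfq) h4
      obtain ⟨r, hr, hre⟩ := taylor2_mem f hfV q₀ (Pi.single i₀ 1) hq₀V (fun i => by
        by_cases hii : i = i₀
        · subst hii; rw [Pi.single_eq_same]; exact V.one_mem
        · rw [Pi.single_eq_of_ne hii]; exact V.zero_mem) (nonunits_mem hπ.2.1)
      have hs : ∀ i, (Pi.single i₀ (1 : k) : Fin n → k) i ∈ V := fun i => by
        by_cases hii : i = i₀
        · subst hii; rw [Pi.single_eq_same]; exact V.one_mem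
        · rw [Pi.single_eq_of_ne hii]; exact V.zero_mem
      refine ⟨fun i => q₀ i + π * (Pi.single i₀ (1 : k) : Fin n → k) i, fun i =>
        V.add_mem _ _ (hq₀V i) (V.mul_mem _ _ (nonunits_mem hπ.2.1) (hs i)), fun i => ?_, ?_⟩
      · rw [add_sub_cancel_left]
        exact nonunits_mul hπ.2.1 (hs i)
      · rw [hre]
        have hsum : ∑ i, (Pi.single i₀ (1 : k) : Fin n → k) i * eval q₀ (pderiv i f) =
            eval q₀ (pderiv i₀ f) := by
          rw [sum_eq_single i₀]
          · rw [Pi.single_eq_same, one_mul]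
          · intro b _ hb
            rw [Pi.single_eq_of_ne hb, zero_mul]
          · intro h; exact absurd (mem_univ i₀) h
        rw [hsum]
        set d := eval q₀ (pderiv i₀ f) with hd
        have e1 : eval q₀ f + π * d + π ^ 2 * r = π * (d + (eval q₀ f / π + π * r)) := by
          have := hπ.1
          field_simp
          ring
        have hn : eval q₀ f / π + π * r ∈ V.nonunits :=
          nonunits_add hquo (nonunits_mul hπ.2.1 hr)
        have hdn : d + (eval q₀ f / π + π * r) ∉ V.nonunits := by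
          intro hc
          apply hfp.2
          have : d = (d + (eval q₀ f / π + π * r)) - (eval q₀ f / π + π * r) := by ring
          rw [this]
          exact nonunits_sub hc hn
        obtain ⟨h5, h6⟩ := unit_iff hdn
        rw [e1]
        exact hπ.unit_mul h5 (V.add_mem _ _ (hself' _ hdV q₀ hq₀V) (nonunits_mem hn)) h6
  obtain ⟨q₁, hq₁V, hq₁, hq₁u⟩ := hadj
  refine ⟨V, p₁, q₁, π ^ 2, hV, pow_ne_zero _ hπ.1, pow_mem (nonunits_mem hπ.2.1) 2, ?_⟩
  intro p q hp hq
  have hπ2 : π ^ 2 ∈ V.nonunits := pow_nonunits hπ.2.1 (by norm_num)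
  have hpn : ∀ i, p i - p₁ i ∈ V.nonunits := by
    intro i
    have : p i - p₁ i = π ^ 2 * ((p i - p₁ i) / π ^ 2) := by
      have := hπ.1
      field_simp
    rw [this]
    exact nonunits_mul hπ2 (hp i)
  have hqn : ∀ i, q i - q₁ i ∈ V.nonunits := by
    intro i
    have : q i - q₁ i = π ^ 2 * ((q i - q₁ i) / π ^ 2) := by
      have := hπ.1
      field_simp
    rw [this]
    exact nonunits_mul hπ2 (hq i)
  have hpV : ∀ i, p i ∈ V := fun i => by
    have : p i = (p i - p₁ i) + p₁ i := by ring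
    rw [this]
    exact V.add_mem _ _ (nonunits_mem (hpn i)) (hp₁V i)
  have hqV : ∀ i, q i ∈ V := fun i => by
    have : q i = (q i - q₁ i) + q₁ i := by ring
    rw [this]
    exact V.add_mem _ _ (nonunits_mem (hqn i)) (hq₁V i)
  have hqn0 : ∀ i, q i - q₀ i ∈ V.nonunits := fun i => by
    have : q i - q₀ i = (q i - q₁ i) + (q₁ i - q₀ i) := by ring
    rw [this]
    exact nonunits_add (hqn i) (hq₁ i)
  have hsV : ∀ i, Sum.elim p q i ∈ V := by
    intro i; cases i
    · exact hpV _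
    · exact hqV _
  have hcongr : ∀ i ∈ range 5, lc (RingHom.id k) f p q i - eval w (gc f i) ∈ V.nonunits := by
    intro i hir
    refine (mv_congr (gc f i) (hgcV i hir) (Sum.elim p q) w hsV hwV ?_).2
    intro j
    rw [hwe]
    cases j
    · exact hpn _
    · exact hqn0 _
  have hmem : ∀ i ∈ range 5, lc (RingHom.id k) f p q i ∈ V := fun i hir =>
    hself _ (hgcV i hir) _ hsV
  have hl4 : lc (RingHom.id k) f p q 4 = eval p f := lc_four _ hf p q
  have hfpu : eval p f ∉ V.nonunits := by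
    intro hc
    apply hfp.1
    have h3 := hcongr 4 (by simp)
    rw [hl4, hwe, hlk, lc_four _ hf] at h3
    have h4 : eval p₁ f = eval p f - (eval p f - eval p₁ f) := by ring
    rw [h4]
    exact nonunits_sub hc h3
  obtain ⟨h3, h4⟩ := unit_iff hfpu
  have hnon : ∀ i ∈ range 5, eval w (gc f i) ∈ V.nonunits →
      lc (RingHom.id k) f p q i ∈ V.nonunits := by
    intro i hir hw
    have : lc (RingHom.id k) f p q i = (lc (RingHom.id k) f p q i - eval w (gc f i)) +
      eval w (gc f i) := by ring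
    rw [this]
    exact nonunits_add (hcongr i hir) hw
  refine ⟨h3, hφ.NW_unit hV haV (hself' f hfV p hpV) h4 h3, ?_⟩
  intro g h hg hh hgh
  refine binForm_ne_mul (V := V) (lc (RingHom.id k) f p q) ?_ ?_ ?_ ?_ ?_ ?_ ?_ g h hg hh hgh
  · rw [hl4]; exact h3
  · rw [hl4]; exact h4
  · rw [hl4]; exact hself' f hfV p hpV
  · exact hmem 3 (by simp)
  · exact hnon 2 (by simp) (hws _ (by simp))
  · exact hnon 1 (by simp) (hws _ (by simp))
  · rw [lc_zero _ hf]
    have hv : ∀ i, (q i - q₁ i) / π ^ 2 ∈ V := hq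
    obtain ⟨r, hr, hre⟩ := taylor2_mem f hfV q₁ (fun i => (q i - q₁ i) / π ^ 2) hq₁V hv
      (nonunits_mem hπ2)
    have hqe : (fun i => q₁ i + π ^ 2 * ((q i - q₁ i) / π ^ 2)) = q := by
      funext i
      have := hπ.1
      field_simp
      ring
    rw [hqe] at hre
    have hpd : ∀ i, eval q₁ (pderiv i f) ∈ V := by
      intro i
      refine hself' _ ?_ q₁ hq₁V
      have hr : f ∈ Set.range (MvPolynomial.map (V.subtype : V →+* k)) := by
        rw [MvPolynomial.mem_range_map_iff_coeffs_subset]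
        intro x hx
        obtain ⟨m, -, rfl⟩ := MvPolynomial.mem_coeffs_iff.1 hx
        exact ⟨⟨_, hfV m⟩, rfl⟩
      obtain ⟨f', hf'⟩ := hr
      intro m
      rw [← hf', pderiv_map, coeff_map]
      exact Subtype.prop _
    have e2 : eval₂ (RingHom.id k) q f = eval q₁ f + π ^ 2 *
        (∑ i, (q i - q₁ i) / π ^ 2 * eval q₁ (pderiv i f) + π ^ 2 * r) := by
      have : eval₂ (RingHom.id k) q f = eval q f := rfl
      rw [this, hre]
      ring
    rw [e2]
    exact hπ.add_small hq₁u (V.add_mem _ _ (sum_mem fun i _ => V.mul_mem _ _ (hq i) (hpd i))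
      (V.mul_mem _ _ (nonunits_mem hπ2) hr))

end

end Pool.Agent.Helper26
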