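import Mathlib
import Pool.Agent.Helper26.ChComp
import Pool.Agent.Helper26.ExtPlaces
import Pool.Agent.Helper31.CB.Defs

set_option autoImplicit false
set_option linter.unusedSectionVars false

/-!
# Conic bundles: points over the completions and places of extensions
-/

universe u v

namespace Pool.Agent.Helper31.CB

open MvPolynomial Pool.Agent.Helper26 Filter Topology

section

variable {R : Type*} [CommRing R]

/-- The ternary form. -/
def tern (l0 l1 q0 q1 q2 y0 y1 y2 : R) : R :=
  y0 ^ 2 + y0 * (l0 * y1 + l1 * y2) + q0 * y1 ^ 2 + q1 * y1 * y2 + q2 * y2 ^ 2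

/-- Its polar form. -/
def ternPol (l0 l1 q1 y0 y1 y2 v0 v1 v2 : R) : R :=
  y0 * (l0 * v1 + l1 * v2) + v0 * (l0 * y1 + l1 * y2) + q1 * (y1 * v2 + y2 * v1)

lemma tern_add [CharP R 2] (l0 l1 q0 q1 q2 y0 y1 y2 v0 v1 v2 s : R) :
    tern l0 l1 q0 q1 q2 (y0 + s * v0) (y1 + s * v1) (y2 + s * v2) =
      tern l0 l1 q0 q1 q2 y0 y1 y2 + s * ternPol l0 l1 q1 y0 y1 y2 v0 v1 v2 +
        s ^ 2 * tern l0 l1 q0 q1 q2 v0 v1 v2 := by
  have h2 : (2 : R) = 0 := CharTwo.two_eq_zero
  unfold tern ternPol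
  linear_combination (s * (y0 * v0 + q0 * y1 * v1 + q2 * y2 * v2)) * h2

lemma ternPol_self [CharP R 2] (l0 l1 q1 v0 v1 v2 s : R) :
    ternPol l0 l1 q1 (s * v0) (s * v1) (s * v2) v0 v1 v2 = 0 := by
  have h2 : (2 : R) = 0 := CharTwo.two_eq_zero
  unfold ternPol
  linear_combination (s * (v0 * (l0 * v1 + l1 * v2) + q1 * v1 * v2)) * h2

end

section

variable {L : Type*} [Field L] [CharP L 2]

/-- A zero of a form with nonzero discriminant is a smooth point. -/
lemma exists_ternPol_ne {l0 l1 q0 q1 q2 y0 y1 y2 : L}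
    (hd : q1 ^ 2 + l0 * l1 * q1 + q0 * l1 ^ 2 + q2 * l0 ^ 2 ≠ 0)
    (hy : ¬ (y0 = 0 ∧ y1 = 0 ∧ y2 = 0)) (h : tern l0 l1 q0 q1 q2 y0 y1 y2 = 0) :
    ∃ v0 v1 v2 : L, ternPol l0 l1 q1 y0 y1 y2 v0 v1 v2 ≠ 0 := by
  by_contra hcon
  push Not at hcon
  have h2 : (2 : L) = 0 := CharTwo.two_eq_zero
  have e0 := hcon 1 0 0
  have e1 := hcon 0 1 0
  have e2 := hcon 0 0 1
  unfold ternPol at e0 e1 e2
  unfold tern at h
  have e0' : l0 * y1 + l1 * y2 = 0 := by linear_combination e0
  have e1' : y0 * l0 + q1 * y2 = 0 := by linear_combination e1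
  have e2' : y0 * l1 + q1 * y1 = 0 := by linear_combination e2
  set d := q1 ^ 2 + l0 * l1 * q1 + q0 * l1 ^ 2 + q2 * l0 ^ 2 with hdd
  have hz : ∀ x : L, d * x ^ 2 = 0 → x = 0 := by
    intro x hx
    exact pow_eq_zero_iff (two_ne_zero) |>.1 ((mul_eq_zero.1 hx).resolve_left hd)
  refine hy ⟨hz _ ?_, hz _ ?_, hz _ ?_⟩
  · rw [hdd]
    linear_combination (q1 ^ 2) * h + (-(q1 ^ 2 * y0)) * e0' +
      (q1 * l1 * y0 + q2 * (l0 * y0 - q1 * y2)) * e1' +
      (q0 * (l1 * y0 - q1 * y1) - q1 ^ 2 * y2) * e2'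
  · rw [hdd]
    linear_combination (l1 ^ 2) * h + (-(l1 ^ 2 * y0) + q2 * (l0 * y1 - l1 * y2) +
      q1 * l1 * y1) * e0' - (l1 * y0 - q1 * y1) * e2' - (q1 * l1 ^ 2 * y1 * y2) * h2
  · rw [hdd]
    linear_combination (l0 ^ 2) * h + (-(l0 ^ 2 * y0) - q0 * (l0 * y1 - l1 * y2) +
      q1 * l0 * y2) * e0' - (l0 * y0 - q1 * y2) * e1' - (q1 * l0 ^ 2 * y1 * y2) * h2

lemma isNf_split (t d : L) : IsNf (t ^ 2 + t) d := by
  have h2 : (2 : L) = 0 := CharTwo.two_eq_zero
  refine ⟨d + t * (d + 1), d + 1, ?_⟩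
  rw [nf]
  linear_combination -(d ^ 2 + d * t * (d + 1) + (t ^ 2 + t) * (d + 1) ^ 2) * h2

/-- A zero of a ternary form with nonzero discriminant shows that the discriminant is a norm. -/
lemma isNf_of_tern {l0 l1 q0 q1 q2 y0 y1 y2 : L} (hl : l0 ≠ 0)
    (hy : ¬ (y0 = 0 ∧ y1 = 0 ∧ y2 = 0)) (h : tern l0 l1 q0 q1 q2 y0 y1 y2 = 0) :
    IsNf (q0 / l0 ^ 2) (q1 ^ 2 + l0 * l1 * q1 + q0 * l1 ^ 2 + q2 * l0 ^ 2) := by
  have h2 : (2 : L) = 0 := CharTwo.two_eq_zero
  set d := q1 ^ 2 + l0 * l1 * q1 + q0 * l1 ^ 2 + q2 * l0 ^ 2 with hd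
  have key : nf (q0 / l0 ^ 2) (l0 * y0 + q1 * y2) (l0 * (l0 * y1 + l1 * y2)) = d * y2 ^ 2 := by
    rw [nf, hd]
    unfold tern at h
    field_simp
    linear_combination (l0 ^ 2) * h +
      (l0 * y0 * q1 * y2 + l0 * y2 * y1 * l1 * q0 - l0 ^ 2 * y2 ^ 2 * q2) * h2
  set X := l0 * y0 + q1 * y2 with hX
  set Y := l0 * (l0 * y1 + l1 * y2) with hY
  set a := q0 / l0 ^ 2 with ha
  rcases eq_or_ne y2 0 with h0 | h0
  · have hX' : X = l0 * y0 := by rw [hX, h0]; ring
    have hY' : Y = l0 ^ 2 * y1 := by rw [hY, h0]; ring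
    rw [h0] at key
    have hY0 : Y ≠ 0 := by
      intro hY0
      have h3 : y1 = 0 := by
        rw [hY'] at hY0
        exact (mul_eq_zero.1 hY0).resolve_left (pow_ne_zero _ hl)
      rw [nf, hY0] at key
      have h4 : X ^ 2 = 0 := by linear_combination key
      have h5 : l0 * y0 = 0 := by
        rw [← hX']
        exact pow_eq_zero_iff (two_ne_zero) |>.1 h4
      exact hy ⟨(mul_eq_zero.1 h5).resolve_left hl, h3, h0⟩
    rw [nf] at key
    set t := X / Y with ht
    have hat : a = t ^ 2 + t := by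
      have h3 : t ^ 2 + t + a = 0 := by
        have : (t ^ 2 + t + a) * Y ^ 2 = 0 := by
          rw [ht]
          field_simp
          linear_combination key
        exact (mul_eq_zero.1 this).resolve_right (pow_ne_zero _ hY0)
      linear_combination h3 - (t ^ 2 + t) * h2
    rw [hat]
    exact isNf_split t d
  · refine ⟨X / y2, Y / y2, ?_⟩
    have : nf a (X / y2) (Y / y2) = nf a X Y / y2 ^ 2 := by
      rw [nf, nf]; field_simp
    rw [this, key]
    field_simp

end

section

variable {F : Type v} {k : Type u} [Field F] [Finite F] [CharP F 2] [Field k] [CharP k 2]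
  {L : Type*} [Field L] {Γ₀ : Type*} [LinearOrderedCommGroupWithZero Γ₀] [Valued L Γ₀]
  {V : ValuationSubring k} {f : k →+* L}

/-- Solving a quadratic equation with small constant term. -/
lemma _root_.Pool.Agent.Helper26.CompEmb.solve_quad [CompleteSpace L] (hf : CompEmb V f)
    (hr : IsRankOne V) (hV : V ≠ ⊤) (B C : L) (hB : B ≠ 0) :
    ∃ e : L, e ≠ 0 ∧ ∀ A B' C' : L, Valued.v (A / e) ≤ 1 → Valued.v (B' - B) < Valued.v B →
      Valued.v (C' - C) ≤ 1 → ∃ s : L, A + s * B' + s ^ 2 * C' = 0 := by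
  have hchar : CharP L 2 := charP_of_injective_ringHom f.injective 2
  obtain ⟨θ, hθ0, hθ⟩ := exists_nonunit hV
  obtain ⟨b, hb0, hb⟩ := hf.val hB
  obtain ⟨c, hc⟩ : ∃ c : k, Valued.v C ≤ Valued.v (f c) := by
    rcases eq_or_ne C 0 with h0 | h0
    · exact ⟨0, by rw [h0, map_zero]; exact zero_le'⟩
    · obtain ⟨c, -, hc⟩ := hf.val h0
      exact ⟨c, hc.ge⟩
  obtain ⟨e, he0, he, hec⟩ := exists_small hV ![c / (b * θ), 1 / (b * θ)]
  have hfe : f e ≠ 0 := by rwa [Ne, map_eq_zero]
  have hpos : ∀ x : L, x ≠ 0 → 0 < Valued.v x := by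
    intro x hx
    rw [zero_lt_iff, Ne, map_eq_zero]; exact hx
  have hfθ : f θ ≠ 0 := by rwa [Ne, map_eq_zero]
  have hbd : ∀ x : k, e * (x / (b * θ)) ∈ V.nonunits →
      Valued.v (f e) * Valued.v (f x) ≤ Valued.v (f θ) * Valued.v B := by
    intro x hx
    have h1 := (hf.mem _).2 (nonunits_mem hx)
    have h2 : e * (x / (b * θ)) = (e * x) / (b * θ) := by ring
    rw [h2, map_div₀, map_div₀, div_le_one₀ (hpos _ (by
      rw [Ne, map_eq_zero]; exact mul_ne_zero hb0 hθ0)), map_mul, map_mul, map_mul, map_mul,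
      hb, mul_comm (Valued.v B)] at h1
    exact h1
  refine ⟨B * f e, mul_ne_zero hB hfe, fun A B' C' hA hB' hC' => ?_⟩
  have hvB : Valued.v B' = Valued.v B := by
    have h1 : B' = B + (B' - B) := by ring
    rw [h1]
    exact Valuation.map_add_eq_of_lt_left _ hB'
  have hB'0 : B' ≠ 0 := by
    rintro rfl
    rw [map_zero] at hvB
    exact (hpos _ hB).ne hvB
  have hvC : Valued.v (f e) * Valued.v C' ≤ Valued.v (f θ) * Valued.v B := by
    have h1 : C' = C + (C' - C) := by ring
    have h2 : Valued.v C' ≤ max (Valued.v C) (Valued.v (C' - C)) := by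
      nth_rewrite 1 [h1]
      exact Valuation.map_add _ _ _
    rcases le_max_iff.1 h2 with h3 | h3
    · exact (mul_le_mul_right (h3.trans hc) _).trans (hbd c (hec 0))
    · refine (mul_le_mul_right (h3.trans hC') _).trans ?_
      have h4 := hbd 1 (hec 1)
      rwa [map_one, map_one] at h4
  obtain ⟨c₀, -, hc₀⟩ := hf.fix hr hθ (fun _ : Fin 1 => A / (B' * f e)) (fun _ _ => 0)
    (fun _ _ => f e * C' / B') (by
      intro _
      have h1 : Valued.v (A / (B' * f e)) = Valued.v (A / (B * f e)) := by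
        rw [map_div₀, map_div₀, map_mul, map_mul, hvB]
      rw [h1]
      exact hA) (by
      intro _ _
      rw [map_zero]; exact zero_le') (by
      intro _ _
      rw [map_div₀, map_mul, hvB, div_le_iff₀ (hpos _ hB)]
      exact hvC)
  refine ⟨f e * c₀ 0, ?_⟩
  have h5 := hc₀ 0
  rw [Fin.sum_univ_one, zero_mul, zero_add] at h5
  have h6 : f e * c₀ 0 * B' = A + (f e * c₀ 0) ^ 2 * C' := by
    nth_rewrite 1 [h5]
    field_simp
  have h2 : (2 : L) = 0 := CharTwo.two_eq_zero
  linear_combination h6 + (A + (f e * c₀ 0) ^ 2 * C') * h2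

lemma eval₂_discr {k L : Type*} [Field k] [Field L] (f : k →+* L)
    (l : Fin 2 → MvPolynomial (Fin 2) k) (q : Fin 3 → MvPolynomial (Fin 2) k) (u : Fin 2 → L) :
    eval₂ f u (discr l q) = eval₂ f u (q 1) ^ 2 + eval₂ f u (l 0) * eval₂ f u (l 1) *
      eval₂ f u (q 1) + eval₂ f u (q 0) * eval₂ f u (l 1) ^ 2 +
      eval₂ f u (q 2) * eval₂ f u (l 0) ^ 2 := by
  simp only [discr, eval₂_add, eval₂_mul, eval₂_pow]

lemma eval₂_hom_apply {k L : Type*} [Field k] [Field L] (f : k →+* L) {n : ℕ}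
    (p : MvPolynomial (Fin n) k) (w : Fin n → k) :
    eval₂ f (fun i => f (w i)) p = f (eval w p) := by
  rw [← MvPolynomial.eval₂_id, MvPolynomial.eval₂_comp_left]
  rfl

/-- Near a point of a conic bundle over the completion the fibres have points. -/
theorem _root_.Pool.Agent.Helper26.CompEmb.conic_approx [CompleteSpace L] {φ : RatFunc F →+* k}
    (hφ : GoodEmb φ) (hf : CompEmb V f) (hV : V ≠ ⊤)
    (l : Fin 2 → MvPolynomial (Fin 2) k) (q : Fin 3 → MvPolynomial (Fin 2) k)
    (u : Fin 2 → L) (y : Fin 3 → L) (hy : y ≠ 0) (h : bundleForm f l q u y = 0)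
    (hF : eval₂ f u (discr l q) ≠ 0) :
    ∃ O : Set (Fin 2 → L), IsOpen O ∧ u ∈ O ∧ ∀ u' : Fin 2 → k, (fun j => f (u' j)) ∈ O →
      eval u' (discr l q) ≠ 0 ∧ (eval u' (l 0) ≠ 0 →
        NW V (eval u' (q 0) / eval u' (l 0) ^ 2) (eval u' (discr l q))) := by
  have hchar : CharP L 2 := charP_of_injective_ringHom f.injective 2
  have hr := hφ.rankOne hV
  have hy' : ¬ (y 0 = 0 ∧ y 1 = 0 ∧ y 2 = 0) := by
    rintro ⟨h0, h1, h2⟩
    apply hy
    funext i
    fin_cases i
    · exact h0
    · exact h1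
    · exact h2
  have hcont : ∀ p : MvPolynomial (Fin 2) k, Continuous fun w : Fin 2 → L => eval₂ f w p := by
    intro p
    simp only [MvPolynomial.eval₂_eq_eval_map]
    exact MvPolynomial.continuous_eval _
  have hF' := hF
  rw [eval₂_discr] at hF'
  obtain ⟨v0, v1, v2, hv⟩ := exists_ternPol_ne hF' hy' h
  set A : (Fin 2 → L) → L := fun w => tern (eval₂ f w (l 0)) (eval₂ f w (l 1)) (eval₂ f w (q 0))
    (eval₂ f w (q 1)) (eval₂ f w (q 2)) (y 0) (y 1) (y 2) with hA
  set B : (Fin 2 → L) → L := fun w => ternPol (eval₂ f w (l 0)) (eval₂ f w (l 1))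
    (eval₂ f w (q 1)) (y 0) (y 1) (y 2) v0 v1 v2 with hB
  set C : (Fin 2 → L) → L := fun w => tern (eval₂ f w (l 0)) (eval₂ f w (l 1)) (eval₂ f w (q 0))
    (eval₂ f w (q 1)) (eval₂ f w (q 2)) v0 v1 v2 with hC
  have hAc : Continuous A := by
    have h0 := hcont (l 0)
    have h1 := hcont (l 1)
    have h2 := hcont (q 0)
    have h3 := hcont (q 1)
    have h4 := hcont (q 2)
    simp only [hA, tern]
    fun_prop
  have hBc : Continuous B := by
    have h0 := hcont (l 0)
    have h1 := hcont (l 1)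
    have h3 := hcont (q 1)
    simp only [hB, ternPol]
    fun_prop
  have hCc : Continuous C := by
    have h0 := hcont (l 0)
    have h1 := hcont (l 1)
    have h2 := hcont (q 0)
    have h3 := hcont (q 1)
    have h4 := hcont (q 2)
    simp only [hC, tern]
    fun_prop
  have hBu : B u ≠ 0 := hv
  have hAu : A u = 0 := h
  obtain ⟨e, he0, he⟩ := hf.solve_quad hr hV (B u) (C u) hBu
  obtain ⟨θ, hθ0, hθ⟩ := exists_nonunit hV
  have hfθ : f θ ≠ 0 := by rwa [Ne, map_eq_zero]
  set I : Set L := ((Valued.v (R := L) (Γ₀ := Γ₀)).integer : Set L) with hI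
  have hIo : IsOpen I := Valued.isOpen_integer L
  have hI0 : (0 : L) ∈ I := by
    change Valued.v (0 : L) ≤ 1
    rw [map_zero]
    exact zero_le'
  refine ⟨((fun w => A w / e) ⁻¹' I ∩ (fun w => (B w - B u) / (B u * f θ)) ⁻¹' I) ∩
    ((fun w => C w - C u) ⁻¹' I ∩ (fun w => eval₂ f w (discr l q)) ⁻¹' {0}ᶜ), ?_, ?_, ?_⟩
  · refine ((hIo.preimage (hAc.div_const _)).inter
      (hIo.preimage ((hBc.sub continuous_const).div_const _))).inter
      ((hIo.preimage (hCc.sub continuous_const)).inter ?_)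
    exact isOpen_compl_singleton.preimage (hcont _)
  · refine ⟨⟨?_, ?_⟩, ⟨?_, ?_⟩⟩
    · change A u / e ∈ I
      rw [hAu, zero_div]; exact hI0
    · change (B u - B u) / (B u * f θ) ∈ I
      rw [sub_self, zero_div]; exact hI0
    · change C u - C u ∈ I
      rw [sub_self]; exact hI0
    · exact hF
  · rintro w ⟨⟨h1, h2⟩, ⟨h3, h4⟩⟩
    set w' : Fin 2 → L := fun j => f (w j) with hw'
    have h1' : Valued.v (A w' / e) ≤ 1 := h1
    have h2' : Valued.v ((B w' - B u) / (B u * f θ)) ≤ 1 := h2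
    have h3' : Valued.v (C w' - C u) ≤ 1 := h3
    have h4' : eval₂ f w' (discr l q) ≠ 0 := h4
    have h5 : eval w (discr l q) ≠ 0 := by
      intro h0
      rw [hw', eval₂_hom_apply, h0, map_zero] at h4'
      exact h4' rfl
    refine ⟨h5, fun hl => ?_⟩
    rw [← hf.isNf_iff hφ hV h5]
    have hpos : ∀ x : L, x ≠ 0 → 0 < Valued.v x := by
      intro x hx
      rw [zero_lt_iff, Ne, map_eq_zero]; exact hx
    have h6 : Valued.v (B w' - B u) < Valued.v (B u) := by
      rw [map_div₀, div_le_one₀ (hpos _ (mul_ne_zero hBu hfθ)), map_mul] at h2'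
      refine h2'.trans_lt ?_
      calc Valued.v (B u) * Valued.v (f θ) < Valued.v (B u) * 1 :=
            mul_lt_mul_of_pos_left (hf.lt_one hθ) (hpos _ hBu)
        _ = _ := mul_one _
    obtain ⟨s, hs⟩ := he (A w') (B w') (C w') h1' h6 h3'
    have hBw : B w' ≠ 0 := by
      intro h0
      rw [h0, zero_sub, Valuation.map_neg] at h6
      exact lt_irrefl _ h6
    have h7 := tern_add (eval₂ f w' (l 0)) (eval₂ f w' (l 1)) (eval₂ f w' (q 0))
      (eval₂ f w' (q 1)) (eval₂ f w' (q 2)) (y 0) (y 1) (y 2) v0 v1 v2 s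
    have h8 : tern (eval₂ f w' (l 0)) (eval₂ f w' (l 1)) (eval₂ f w' (q 0))
      (eval₂ f w' (q 1)) (eval₂ f w' (q 2)) (y 0 + s * v0) (y 1 + s * v1) (y 2 + s * v2) = 0 := by
      rw [h7]
      exact hs
    have hne : ¬ (y 0 + s * v0 = 0 ∧ y 1 + s * v1 = 0 ∧ y 2 + s * v2 = 0) := by
      rintro ⟨e0, e1, e2⟩
      apply hBw
      have c2 : (2 : L) = 0 := CharTwo.two_eq_zero
      have e0' : y 0 = s * v0 := by linear_combination e0 - (s * v0) * c2
      have e1' : y 1 = s * v1 := by linear_combination e1 - (s * v1) * c2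
      have e2' : y 2 = s * v2 := by linear_combination e2 - (s * v2) * c2
      simp only [hB]
      rw [e0', e1', e2']
      exact ternPol_self _ _ _ _ _ _ _
    have hl' : eval₂ f w' (l 0) ≠ 0 := by
      rw [hw', eval₂_hom_apply, Ne, map_eq_zero]
      exact hl
    have h9 := isNf_of_tern hl' hne h8
    rw [← eval₂_discr, hw', eval₂_hom_apply, eval₂_hom_apply, eval₂_hom_apply, ← map_pow,
      ← map_div₀] at h9
    exact h9

end

section

variable {F : Type v} {k K : Type u} [Field F] [Finite F] [CharP F 2] [Field k] [CharP k 2]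
  [Field K] [CharP K 2] [Algebra k K] [FiniteDimensional k K] [Algebra.IsSeparable k K]

lemma exists_div_mem {V : ValuationSubring k} {W : ValuationSubring K} (hW : W ∈ above K V)
    {z : K} (hz : z ≠ 0) : ∃ d : k, d ≠ 0 ∧ algebraMap k K d / z ∈ W := by
  let _ : Algebra V K := ((algebraMap k K).comp V.subtype).toAlgebra
  have _ : IsScalarTower V k K := IsScalarTower.of_algebraMap_eq fun x => rfl
  have h1 : IsAlgebraic V z⁻¹ :=
    (IsFractionRing.isAlgebraic_iff V k K).2 (Algebra.IsAlgebraic.isAlgebraic z⁻¹)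
  obtain ⟨y, hy0, hy⟩ := h1.exists_integral_multiple
  let _ : Algebra V W := (((algebraMap k K).comp V.subtype).codRestrict W.toSubring
    fun x => (mem_above_mem hW).2 x.2).toAlgebra
  have _ : IsScalarTower V W K := IsScalarTower.of_algebraMap_eq fun x => rfl
  have h2 : IsIntegral W (y • z⁻¹) := hy.tower_top
  obtain ⟨w, hw⟩ := IsIntegrallyClosed.isIntegral_iff.1 h2
  refine ⟨y, by simpa using hy0, ?_⟩
  have h3 : algebraMap k K y / z = y • z⁻¹ := by
    rw [Algebra.smul_def, div_eq_mul_inv]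
    rfl
  rw [h3, ← hw]
  exact w.2

/-- The map of completions extends the embedding of `k` into `K`. -/
theorem compMap_spec {V : ValuationSubring k} {W : ValuationSubring K} (hW : W ∈ above K V) :
    ∃ g : V.valuation.Completion →+* W.valuation.Completion, (∀ x, g x = compMap V W x) ∧
      Continuous g ∧ ∀ a : k, g (toCompletion V a) = toCompletion W (algebraMap k K a) := by
  let h : WithVal V.valuation →+* WithVal W.valuation :=
    ((WithVal.equiv W.valuation).symm.toRingHom.comp (algebraMap k K)).comp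
      (WithVal.equiv V.valuation).toRingHom
  have hh : ∀ x, h x = (WithVal.equiv W.valuation).symm
    (algebraMap k K (WithVal.equiv V.valuation x)) := fun x => rfl
  have hcont : Continuous h := by
    apply continuous_of_continuousAt_zero
    rw [ContinuousAt, map_zero]
    intro s hs
    rw [Valued.mem_nhds_zero] at hs
    obtain ⟨γ, hγ⟩ := hs
    obtain ⟨z, hz⟩ := MonoidWithZeroHom.ValueGroup₀.restrict₀_surjective
      (MonoidWithZeroHom.ofClass (Valued.v (R := WithVal W.valuation))) γ.1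
    have hz' : Valued.v.restrict z = γ.1 := hz
    have hz0 : z ≠ 0 := by
      rintro rfl
      rw [map_zero] at hz'
      exact γ.ne_zero hz'.symm
    obtain ⟨d, hd0, hd⟩ := exists_div_mem hW (z := WithVal.equiv W.valuation z) (by
      rwa [Ne, map_eq_zero])
    set D : WithVal V.valuation := (WithVal.equiv V.valuation).symm d with hD
    have hD0 : D ≠ 0 := by rwa [hD, Ne, map_eq_zero]
    rw [Filter.mem_map, Valued.mem_nhds_zero]
    refine ⟨Units.mk0 (Valued.v.restrict D) (by rwa [Ne, map_eq_zero]), fun x hx => hγ ?_⟩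
    change Valued.v.restrict (h x) < γ.1
    rw [← hz', Valuation.restrict_lt_iff]
    have hx' : Valued.v.restrict x < Valued.v.restrict D := hx
    rw [Valuation.restrict_lt_iff] at hx'
    have hvV : ∀ y : WithVal V.valuation, Valued.v y = V.valuation (WithVal.equiv V.valuation y) :=
      fun y => rfl
    have hvW : ∀ y : WithVal W.valuation, Valued.v y = W.valuation (WithVal.equiv W.valuation y) :=
      fun y => rfl
    rw [hvV, hvV] at hx'
    rw [hvW, hvW, hh, RingEquiv.apply_symm_apply]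
    rw [hD, RingEquiv.apply_symm_apply] at hx'
    set x' := WithVal.equiv V.valuation x
    set z' := WithVal.equiv W.valuation z
    have hz'0 : z' ≠ 0 := by rwa [Ne, map_eq_zero]
    have hdK : algebraMap k K d ≠ 0 := by rwa [Ne, map_eq_zero]
    have hdp : 0 < V.valuation d := by rw [zero_lt_iff, Ne, map_eq_zero]; exact hd0
    have hdKp : 0 < W.valuation (algebraMap k K d) := by
      rw [zero_lt_iff, Ne, map_eq_zero]; exact hdK
    have hzp : 0 < W.valuation z' := by rw [zero_lt_iff, Ne, map_eq_zero]; exact hz'0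
    have h1 : x' / d ∈ V.nonunits := by
      rw [ValuationSubring.mem_nonunits_iff, map_div₀, div_lt_one₀ hdp]
      exact hx'
    rw [← mem_above_nonunits hW, ValuationSubring.mem_nonunits_iff, map_div₀, map_div₀,
      div_lt_one₀ hdKp] at h1
    rw [← ValuationSubring.valuation_le_one_iff, map_div₀, div_le_one₀ hzp] at hd
    exact h1.trans_le hd
  refine ⟨UniformSpace.Completion.mapRingHom h hcont, fun x => rfl,
    UniformSpace.Completion.continuous_map, fun a => ?_⟩
  have h1 := UniformSpace.Completion.mapRingHom_coe (f := h) hcont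
    ((WithVal.equiv V.valuation).symm a)
  have h2 : (toCompletion V a) = ((WithVal.equiv V.valuation).symm a :
    WithVal V.valuation) := rfl
  rw [h2, h1, hh, RingEquiv.apply_symm_apply]
  rfl

/-- Local constancy of the norm symbols of a linear form over the places above `V`. -/
theorem approx_above {φ : RatFunc F →+* k} (hφ : GoodEmb φ) {V : ValuationSubring k} (hV : V ≠ ⊤)
    {W : ValuationSubring K} (hW : W ∈ above K V) (t : Fin 2 → K) (ε : K)
    (u : Fin 2 → V.valuation.Completion)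
    (hu : toCompletion W (t 1) * compMap V W (u 0) + toCompletion W (t 0) * compMap V W (u 1) ≠ 0) :
    ∃ O : Set (Fin 2 → V.valuation.Completion), IsOpen O ∧ u ∈ O ∧
      ∀ u' : Fin 2 → k, (fun j => toCompletion V (u' j)) ∈ O →
        t 1 * algebraMap k K (u' 0) + t 0 * algebraMap k K (u' 1) ≠ 0 ∧
        (NW W ε (t 1 * algebraMap k K (u' 0) + t 0 * algebraMap k K (u' 1)) ↔
          IsNormValue (toCompletion W ε) (toCompletion W (t 1) * compMap V W (u 0) +
            toCompletion W (t 0) * compMap V W (u 1))) := by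
  obtain ⟨g, hg, hgc, hga⟩ := compMap_spec hW
  have hWt : W ≠ ⊤ := above_ne_top hV hW
  have hφK := hφ.ext (K := K)
  have hr := hφK.rankOne hWt
  have hf := compEmb W
  have hchar : CharP W.valuation.Completion 2 :=
    charP_of_injective_ringHom (toCompletion W).injective 2
  obtain ⟨r, hr0, hrV, hrc⟩ := hf.close_one hr hWt ε
  have hfr : toCompletion W r ≠ 0 := by rwa [Ne, map_eq_zero]
  set G : (Fin 2 → V.valuation.Completion) → W.valuation.Completion := fun w =>
    toCompletion W (t 1) * g (w 0) + toCompletion W (t 0) * g (w 1) with hG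
  have hGc : Continuous G := by
    simp only [hG]
    exact (continuous_const.mul (hgc.comp (continuous_apply 0))).add
      (continuous_const.mul (hgc.comp (continuous_apply 1)))
  have hGu : G u = toCompletion W (t 1) * compMap V W (u 0) +
      toCompletion W (t 0) * compMap V W (u 1) := by
    simp only [hG]
    rw [hg, hg]
  rw [← hGu] at hu ⊢
  set I : Set W.valuation.Completion :=
    ((Valued.v (R := W.valuation.Completion)).integer : Set W.valuation.Completion) with hI
  have hIo : IsOpen I := Valued.isOpen_integer W.valuation.Completion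
  refine ⟨(fun w => (G w - G u) / (G u * toCompletion W r)) ⁻¹' I,
    hIo.preimage ((hGc.sub continuous_const).div_const _), ?_, ?_⟩
  · change (G u - G u) / (G u * toCompletion W r) ∈ I
    rw [sub_self, zero_div]
    change Valued.v (0 : W.valuation.Completion) ≤ 1
    rw [map_zero]
    exact zero_le'
  · intro w hw
    have h1 : Valued.v ((G (fun j => toCompletion V (w j)) - G u) / (G u * toCompletion W r)) ≤ 1 :=
      hw
    have h2 : G (fun j => toCompletion V (w j)) =
        toCompletion W (t 1 * algebraMap k K (w 0) + t 0 * algebraMap k K (w 1)) := by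
      simp only [hG]
      rw [hga, hga, map_add, map_mul, map_mul]
    rw [h2] at h1
    set E : K := t 1 * algebraMap k K (w 0) + t 0 * algebraMap k K (w 1) with hE
    set ξ := toCompletion W r * ((toCompletion W E - G u) / (G u * toCompletion W r)) with hξ
    have h3 : Valued.v ξ ≤ Valued.v (toCompletion W r) := by
      rw [hξ, map_mul]
      exact mul_le_of_le_one_right' h1
    have h4 : toCompletion W E = G u * (1 + ξ) := by
      rw [hξ]
      field_simp
      ring
    obtain ⟨h5, s, hs⟩ := hrc ξ h3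
    have hE0 : E ≠ 0 := by
      intro h0
      rw [h0, map_zero] at h4
      exact mul_ne_zero hu h5 h4.symm
    refine ⟨hE0, ?_⟩
    rw [← hf.isNf_iff hφK hWt hE0, h4, isNf_mul_one_add h5 hs]
    constructor
    · rintro ⟨y, z, h⟩
      exact ⟨y, z, h.symm⟩
    · rintro ⟨y, z, h⟩
      exact ⟨y, z, h.symm⟩

end

end Pool.Agent.Helper31.CB
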