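import Mathlib
import Pool.Agent.Helper26.QuLine
import Pool.Agent.Helper26.QuDefs
import Pool.Agent.Helper26.ChComp
import Pool.Agent.Helper26.ChMove
import Pool.Agent.Helper26.CBLoc

set_option autoImplicit false
set_option linter.unusedSectionVars false

/-!
# Local points on conic bundles over projective space
-/

universe u v

namespace Pool.Agent.Helper26

open MvPolynomial Finset

/-- Smoothness over the algebraic closure implies smoothness over every extension. -/
lemma IsSmoothHyp.transfer {k : Type u} [Field k] {L : Type*} [Field L] (f : k →+* L) {n : ℕ}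
    {F : MvPolynomial (Fin n) k} (hs : IsSmoothHyp F) (x : Fin n → L) (hx : x ≠ 0)
    (h0 : eval₂ f x F = 0) : ∃ i, eval₂ f x (pderiv i F) ≠ 0 := by
  by_contra hcon
  push Not at hcon
  set K := AlgebraicClosure k
  set I : Ideal (MvPolynomial (Fin n) k) :=
    Ideal.span (insert F (Set.range fun i => pderiv i F)) with hI
  have hker : I ≤ RingHom.ker (eval₂Hom f x) := by
    rw [hI, Ideal.span_le]
    rintro g (rfl | ⟨i, rfl⟩)
    · exact h0
    · exact hcon i
  apply hx
  funext j
  have hXj : (X j : MvPolynomial (Fin n) k) ∈ vanishingIdeal k (zeroLocus K I) := by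
    rw [mem_vanishingIdeal_iff]
    intro z hz
    rw [mem_zeroLocus_iff] at hz
    have hz0 : z = 0 := by
      by_contra hne
      obtain ⟨i, hi⟩ := hs z hne (hz F (Ideal.subset_span (Set.mem_insert _ _)))
      exact hi (hz _ (Ideal.subset_span (Set.mem_insert_of_mem _ ⟨i, rfl⟩)))
    rw [aeval_X, hz0]
    rfl
  rw [vanishingIdeal_zeroLocus_eq_radical] at hXj
  obtain ⟨m, hm⟩ := hXj
  have h1 := hker hm
  rw [RingHom.mem_ker, map_pow] at h1
  have h2 : (eval₂Hom f x) (X j) = x j := by simp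
  rw [h2] at h1
  have hm0 : m ≠ 0 := fun h => by rw [h, pow_zero] at h1; exact one_ne_zero h1
  exact (pow_eq_zero_iff hm0).1 h1

section

variable {F : Type v} {k : Type u} [Field F] [Finite F] [CharP F 2] [Field k] [CharP k 2]
  {L : Type*} [Field L] {Γ₀ : Type*} [LinearOrderedCommGroupWithZero Γ₀] [Valued L Γ₀]
  {V : ValuationSubring k} {f : k →+* L}

lemma CompEmb.exists_small_k (hf : CompEmb V f) (hr : IsRankOne V) (hV : V ≠ ⊤) {U : Set L}
    (hU : U ∈ nhds (0 : L)) : ∃ ρ : k, ρ ≠ 0 ∧ ∀ z : L, Valued.v z ≤ Valued.v (f ρ) → z ∈ U := by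
  obtain ⟨γ, hγ⟩ := Valued.mem_nhds_zero.1 hU
  obtain ⟨θ, hθ0, hθ⟩ := exists_nonunit hV
  obtain ⟨y, hy⟩ := MonoidWithZeroHom.ValueGroup₀.restrict₀_surjective
    (MonoidWithZeroHom.ofClass (Valued.v (R := L) (Γ₀ := Γ₀))) γ.1
  have hy' : Valued.v.restrict y = γ.1 := hy
  have hy0 : y ≠ 0 := by
    rintro rfl
    rw [map_zero] at hy'
    exact γ.ne_zero hy'.symm
  obtain ⟨n, hn⟩ := hf.pow hr hθ hy0
  have h3 : 0 < Valued.v y := by
    rw [zero_lt_iff, Ne, map_eq_zero]; exact hy0
  refine ⟨θ ^ (n + 1), pow_ne_zero _ hθ0, fun z hz => hγ ?_⟩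
  change Valued.v.restrict z < γ.1
  rw [← hy', Valuation.restrict_lt_iff]
  refine hz.trans_lt ?_
  rw [map_pow, map_pow, pow_succ]
  exact mul_pow_lt (hf.lt_one hθ) h3 hn

/-- Open sets of the completion contain balls of `k`. -/
lemma CompEmb.exists_ball (hf : CompEmb V f) (hr : IsRankOne V) (hV : V ≠ ⊤) {n : ℕ}
    {O : Set (Fin n → L)} (hO : IsOpen O) {x : Fin n → L} (hx : x ∈ O) :
    ∃ (y : Fin n → k) (ρ : k), ρ ≠ 0 ∧
      ∀ q : Fin n → k, (∀ i, (q i - y i) / ρ ∈ V) → (fun i => f (q i)) ∈ O := by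
  have h1 : O ∈ nhds x := hO.mem_nhds hx
  rw [nhds_pi, Filter.mem_pi'] at h1
  obtain ⟨I, t, ht, hsub⟩ := h1
  have hU : (⋂ i, (fun z : L => x i + z) ⁻¹' t i) ∈ nhds (0 : L) := by
    rw [Filter.iInter_mem]
    intro i
    apply ContinuousAt.preimage_mem_nhds (by fun_prop)
    rw [add_zero]
    exact ht i
  obtain ⟨ρ, hρ0, hρ⟩ := hf.exists_small_k hr hV hU
  have hfρ : f ρ ≠ 0 := by rwa [Ne, map_eq_zero]
  set G : Fin n → (Fin n → L) → L := fun i z => (z i - x i) / f ρ with hG
  have hGc : ∀ i, Continuous (G i) := by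
    intro i
    simp only [hG]
    fun_prop
  set J : Set L := ((Valued.v (R := L) (Γ₀ := Γ₀)).integer : Set L) with hJ
  have hOo : IsOpen (⋂ i, G i ⁻¹' J) :=
    isOpen_iInter_of_finite fun j => (Valued.isOpen_integer L).preimage (hGc j)
  obtain ⟨y, hy⟩ := (DenseRange.piMap fun _ : Fin n => hf.dense).exists_mem_open hOo ⟨x, by
    rw [Set.mem_iInter]
    intro j
    change Valued.v (G j x) ≤ 1
    simp only [hG]
    rw [sub_self, zero_div, map_zero]
    exact zero_le'⟩
  rw [Set.mem_iInter] at hy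
  refine ⟨y, ρ, hρ0, fun q hq => hsub ?_⟩
  intro i _
  have h2 : Valued.v ((f (y i) - x i) / f ρ) ≤ 1 := hy i
  have h3 : Valued.v (f ((q i - y i) / ρ)) ≤ 1 := (hf.mem _).2 (hq i)
  have h4 : f (q i) - x i = f ρ * ((f (y i) - x i) / f ρ + f ((q i - y i) / ρ)) := by
    rw [map_div₀, map_sub]
    field_simp
    ring
  have h5 : Valued.v (f (q i) - x i) ≤ Valued.v (f ρ) := by
    rw [h4, map_mul]
    exact mul_le_of_le_one_right' ((Valuation.map_add _ _ _).trans (max_le h2 h3))
  have h6 := hρ _ h5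
  rw [Set.mem_iInter] at h6
  have h7 : x i + (f (q i) - x i) ∈ t i := h6 i
  rwa [add_sub_cancel] at h7

/-- The condition to be a nonzero local norm is open. -/
theorem CompEmb.good_ball [CompleteSpace L] {φ : RatFunc F →+* k} (hφ : GoodEmb φ)
    (hf : CompEmb V f) (hV : V ≠ ⊤) (a : k) {n : ℕ} (G : MvPolynomial (Fin n) k) (x : Fin n → L)
    (hx : eval₂ f x G ≠ 0) (hN : IsNf (f a) (eval₂ f x G)) :
    ∃ (y : Fin n → k) (ρ : k), ρ ≠ 0 ∧ ∀ q : Fin n → k, (∀ i, (q i - y i) / ρ ∈ V) →
      eval q G ≠ 0 ∧ NW V a (eval q G) := by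
  have hchar : CharP L 2 := charP_of_injective_ringHom f.injective 2
  have hr := hφ.rankOne hV
  obtain ⟨r, hr0, hrV, hrc⟩ := hf.close_one hr hV a
  have hfr : f r ≠ 0 := by rwa [Ne, map_eq_zero]
  set c := eval₂ f x G with hc
  set J : Set L := ((Valued.v (R := L) (Γ₀ := Γ₀)).integer : Set L) with hJ
  set H : (Fin n → L) → L := fun y => (eval₂ f y G - c) / (c * f r) with hH
  have hHc : Continuous H := by
    simp only [hH, MvPolynomial.eval₂_eq_eval_map]
    exact ((MvPolynomial.continuous_eval _).sub continuous_const).div_const _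
  obtain ⟨y, ρ, hρ0, hρ⟩ := hf.exists_ball hr hV ((Valued.isOpen_integer L).preimage hHc)
    (x := x) (by
      change Valued.v (H x) ≤ 1
      simp only [hH]
      rw [← hc, sub_self, zero_div, map_zero]
      exact zero_le')
  refine ⟨y, ρ, hρ0, fun q hq => ?_⟩
  have h1 : Valued.v (H (fun i => f (q i))) ≤ 1 := hρ q hq
  have h3 : eval₂ f (fun i => f (q i)) G = f (eval q G) := by
    rw [← MvPolynomial.eval₂_id, MvPolynomial.eval₂_comp_left]
    rfl
  set ξ : L := f r * H (fun i => f (q i)) with hξ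
  have h4 : f (eval q G) = c * (1 + ξ) := by
    rw [hξ]
    simp only [hH]
    rw [h3]
    field_simp
    ring
  have h5 : Valued.v ξ ≤ Valued.v (f r) := by
    rw [hξ, map_mul]
    exact mul_le_of_le_one_right' h1
  obtain ⟨h6, s, hs⟩ := hrc ξ h5
  have h7 : eval q G ≠ 0 := by
    intro h0
    rw [h0, map_zero] at h4
    exact mul_ne_zero hx h6 h4.symm
  refine ⟨h7, ?_⟩
  rw [← hf.isNf_iff hφ hV h7, h4]
  exact (isNf_mul_one_add h6 hs).2 hN

/-- Moving a local point away from the zeros of a form at which some derivative does not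
vanish. -/
theorem CompEmb.move_smooth [CompleteSpace L] (hf : CompEmb V f) (hr : IsRankOne V) (hV : V ≠ ⊤)
    (a : k) {n : ℕ} (G : MvPolynomial (Fin n) k) (x : Fin n → L) (h0 : eval₂ f x G = 0)
    (i : Fin n) (hi : eval₂ f x (pderiv i G) ≠ 0) :
    ∃ x' : Fin n → L, eval₂ f x' G ≠ 0 ∧ IsNf (f a) (eval₂ f x' G) := by
  classical
  have hchar : CharP L 2 := charP_of_injective_ringHom f.injective 2
  obtain ⟨r, hr0, hrV, hrc⟩ := hf.close_one hr hV a
  have hfr : f r ≠ 0 := by rwa [Ne, map_eq_zero]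
  set D := eval₂ f x (pderiv i G) with hD
  let h : L →+* Polynomial L := Polynomial.C
  let e : Fin n → L := Pi.single i 1
  have he1 : e i = 1 := Pi.single_eq_same i 1
  have he0 : ∀ b, b ≠ i → e b = 0 := fun b hb => Pi.single_eq_of_ne hb 1
  obtain ⟨R, hR⟩ := taylor2 (h.comp f) (fun j => h (x j)) (fun j => h (e j)) Polynomial.X G
  have key : ∀ τ : L, eval₂ f (fun j => x j + τ * e j) G =
      τ * D + τ ^ 2 * R.eval τ := by
    intro τ
    have h1 := congrArg (Polynomial.evalRingHom τ) hR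
    rw [eval₂_comp_left] at h1
    have h2 : (Polynomial.evalRingHom τ).comp (h.comp f) = f := by
      ext z; simp [h]
    rw [h2] at h1
    have h3 : (⇑(Polynomial.evalRingHom τ) ∘ fun j => h (x j) + Polynomial.X *
        h (e j)) = fun j => x j + τ * e j := by
      funext j
      change Polynomial.eval τ (Polynomial.C (x j) + Polynomial.X * Polynomial.C (e j)) = _
      rw [Polynomial.eval_add, Polynomial.eval_mul, Polynomial.eval_C, Polynomial.eval_X,
        Polynomial.eval_C]
    rw [h3] at h1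
    rw [h1, map_add, map_add, map_mul, map_mul, map_pow, map_sum]
    have h4 : ∀ g : MvPolynomial (Fin n) k, (Polynomial.evalRingHom τ)
        (eval₂ (h.comp f) (fun j => h (x j)) g) = eval₂ f x g := by
      intro g
      rw [eval₂_comp_left, h2]
      congr 1
      funext j; simp [h]
    rw [h4, h0, zero_add]
    have h5 : ∑ j, (Polynomial.evalRingHom τ) (h (e j) *
        eval₂ (h.comp f) (fun j => h (x j)) (pderiv j G)) = D := by
      rw [sum_eq_single i]
      · rw [map_mul, h4, he1]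
        simp [h, hD]
      · intro b _ hb
        rw [map_mul, h4, he0 b hb]
        simp [h]
      · intro hne; exact absurd (mem_univ i) hne
    rw [h5]
    simp
  set J : Set L := ((Valued.v (R := L) (Γ₀ := Γ₀)).integer : Set L) with hJ
  set H : L → L := fun σ => (σ ^ 2 * R.eval (σ ^ 2 * D)) / f r with hH
  have hHc : Continuous H := by
    simp only [hH]
    have := R.continuous
    fun_prop
  have hO : IsOpen (H ⁻¹' J) := (Valued.isOpen_integer L).preimage hHc
  obtain ⟨σ, hσ, hσ0⟩ := hf.exists_mem_ne hr hV hO (by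
    change Valued.v (H 0) ≤ 1
    simp only [hH]
    rw [zero_pow two_ne_zero, zero_mul, zero_div, map_zero]
    exact zero_le')
  have h1 : Valued.v (H σ) ≤ 1 := hσ
  set ξ : L := f r * H σ with hξ
  have h5 : Valued.v ξ ≤ Valued.v (f r) := by
    rw [hξ, map_mul]
    exact mul_le_of_le_one_right' h1
  obtain ⟨h6, s, hs⟩ := hrc ξ h5
  have h7 : eval₂ f (fun j => x j + σ ^ 2 * D * e j) G =
      (σ * D) ^ 2 * (1 + ξ) := by
    rw [key, hξ]
    simp only [hH]
    field_simp
  refine ⟨fun j => x j + σ ^ 2 * D * e j, ?_, ?_⟩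
  · rw [h7]
    exact mul_ne_zero (pow_ne_zero _ (mul_ne_zero hσ0 hi)) h6
  · rw [h7]
    exact (isNf_mul_one_add h6 hs).2 (isNf_sq _ _)

end

end Pool.Agent.Helper26
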