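import Mathlib

set_option autoImplicit false
set_option linter.unusedSectionVars false

/-!
# Common zeros of few polynomials on a cone
-/

namespace Pool.Agent.Helper26

open MvPolynomial

section

variable {K : Type*} [Field K] [IsAlgClosed K] {N : ℕ}

/-- The ideal of the origin. -/
noncomputable def origin (K : Type*) [Field K] (N : ℕ) : Ideal (MvPolynomial (Fin N) K) :=
  RingHom.ker (MvPolynomial.eval (0 : Fin N → K))

lemma mem_origin (p : MvPolynomial (Fin N) K) : p ∈ origin K N ↔ eval 0 p = 0 := Iff.rfl

instance : (origin K N).IsPrime := RingHom.ker_isPrime _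

theorem exists_zero_of_chain {d : ℕ} (P : Fin (d + 1) → Ideal (MvPolynomial (Fin N) K))
    (hP : ∀ i, (P i).IsPrime) (hlt : ∀ i : Fin d, P i.castSucc < P i.succ)
    (hlast : P (Fin.last d) = origin K N) (s : Finset (MvPolynomial (Fin N) K))
    (hs : s.card < d) (hsm : ∀ p ∈ s, p ∈ origin K N) :
    ∃ z : Fin N → K, z ≠ 0 ∧ (∀ p ∈ P 0, eval z p = 0) ∧ ∀ p ∈ s, eval z p = 0 := by
  classical
  by_contra hcon
  push Not at hcon
  have hmono : ∀ i : Fin (d + 1), P 0 ≤ P i := by
    intro i
    induction i using Fin.induction with
    | zero => exact le_rfl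
    | succ i ih => exact ih.trans (hlt i).le
  set m := origin K N with hm
  set J := P 0 ⊔ Ideal.span (s : Set (MvPolynomial (Fin N) K)) with hJ
  have hP0m : P 0 ≤ m := by rw [← hlast]; exact hmono _
  -- every prime over `J` contains the ideal of the origin
  have hrad : ∀ Q : Ideal (MvPolynomial (Fin N) K), Q.IsPrime → J ≤ Q → m ≤ Q := by
    intro Q hQ hJQ p hp
    have h1 : p ∈ vanishingIdeal K (zeroLocus K J) := by
      rw [mem_vanishingIdeal_iff]
      intro z hz
      have hz0 : z = 0 := by
        by_contra hne
        obtain ⟨q, hq, hqz⟩ := hcon z hne (fun p hp => by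
          have := hz p (Ideal.mem_sup_left hp)
          simpa using this)
        apply hqz
        have := hz q (Ideal.mem_sup_right (Ideal.subset_span hq))
        simpa using this
      rw [hz0]
      exact hp
    rw [vanishingIdeal_zeroLocus_eq_radical] at h1
    exact hQ.radical_le_iff.2 hJQ h1
  set π := Ideal.Quotient.mk (P 0) with hπ
  have hπs : Function.Surjective π := Ideal.Quotient.mk_surjective
  have := hP 0
  -- the chain in the quotient
  have hprime : ∀ i, ((P i).map π).IsPrime := by
    intro i
    have := hP i
    exact Ideal.isPrime_map_quotientMk_of_isPrime (hmono i)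
  have hcomap : ∀ I : Ideal (MvPolynomial (Fin N) K), P 0 ≤ I → (I.map π).comap π = I := by
    intro I hI
    rw [Ideal.comap_map_of_surjective π hπs, ← RingHom.ker_eq_comap_bot, hπ, Ideal.mk_ker]
    exact sup_eq_left.2 hI
  have hheight : ∀ i : Fin (d + 1), ((i : ℕ) : ℕ∞) ≤ ((P i).map π).height := by
    intro i
    induction i using Fin.induction with
    | zero => simp
    | succ i ih =>
      have := hprime i.castSucc
      have := hprime i.succ
      have hlt' : (P i.castSucc).map π < (P i.succ).map π := by
        refine lt_of_le_of_ne (Ideal.map_mono (hlt i).le) ?_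
        intro heq
        have h2 := congrArg (Ideal.comap π) heq
        rw [hcomap _ (hmono _), hcomap _ (hmono _)] at h2
        exact (hlt i).ne h2
      have h3 := Ideal.height_add_one_le_of_lt_of_isPrime hlt'
      refine le_trans ?_ h3
      rw [Fin.val_succ, Nat.cast_add, Nat.cast_one]
      exact add_le_add_left ih 1
  have hmin : m.map π ∈ (Ideal.span ((s.image π : Finset _) : Set _)).minimalPrimes := by
    have hpr : (m.map π).IsPrime := by rw [← hlast]; exact hprime _
    refine ⟨⟨hpr, ?_⟩, ?_⟩
    · rw [Ideal.span_le]
      intro x hx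
      obtain ⟨p, hp, rfl⟩ := Finset.mem_image.1 (Finset.mem_coe.1 hx)
      exact Ideal.mem_map_of_mem π (hsm p hp)
    · rintro Q ⟨hQ, hsQ⟩ hQm
      have h1 : J ≤ Q.comap π := by
        rw [hJ, sup_le_iff]
        constructor
        · intro x hx
          rw [Ideal.mem_comap]
          have : π x = 0 := Ideal.Quotient.eq_zero_iff_mem.2 hx
          rw [this]
          exact Q.zero_mem
        · rw [Ideal.span_le]
          intro x hx
          exact hsQ (Ideal.subset_span (by
            rw [Finset.coe_image]
            exact ⟨x, hx, rfl⟩))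
      have hQ' : (Q.comap π).IsPrime := Ideal.comap_isPrime π Q
      have h2 := Ideal.map_mono (f := π) (hrad _ hQ' h1)
      rwa [Ideal.map_comap_of_surjective π hπs] at h2
  have h1 := Ideal.height_le_card_of_mem_minimalPrimes_span_finset hmin
  have h2 := hheight (Fin.last d)
  rw [hlast] at h2
  have h3 : ((d : ℕ) : ℕ∞) ≤ (s.card : ℕ∞) := by
    refine (le_trans ?_ (h2.trans h1)).trans ?_
    · simp
    · exact_mod_cast Finset.card_image_le
  have h4 : d ≤ s.card := by exact_mod_cast h3
  omega

/-- Fewer than `N` polynomials in `N` variables without constant term have a common zero. -/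
theorem exists_common_zero (s : Finset (MvPolynomial (Fin N) K)) (hs : s.card < N)
    (hsm : ∀ p ∈ s, eval 0 p = 0) : ∃ z : Fin N → K, z ≠ 0 ∧ ∀ p ∈ s, eval z p = 0 := by
  classical
  let φ : Fin (N + 1) → MvPolynomial (Fin N) K →ₐ[K] MvPolynomial (Fin N) K := fun i =>
    aeval fun j => if (j : ℕ) < i then 0 else X j
  have hφX : ∀ i j, φ i (X j) = if (j : ℕ) < i then 0 else X j := fun i j => by
    simp only [φ, aeval_X]
  have hcomp : ∀ i : Fin N, (φ i.succ).comp (φ i.castSucc) = φ i.succ := by
    intro i
    apply MvPolynomial.algHom_ext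
    intro j
    rw [AlgHom.comp_apply, hφX, hφX]
    simp only [Fin.val_castSucc, Fin.val_succ]
    by_cases h : (j : ℕ) < i
    · rw [if_pos h, if_pos (by omega), map_zero]
    · rw [if_neg h, hφX]
      simp only [Fin.val_succ]
  obtain ⟨z, hz, -, h⟩ := exists_zero_of_chain (d := N)
    (fun i => RingHom.ker (φ i).toRingHom) (fun i => RingHom.ker_isPrime _) (by
      intro i
      refine lt_of_le_of_ne ?_ ?_
      · intro p hp
        have hp' : φ i.castSucc p = 0 := hp
        change φ i.succ p = 0
        rw [← hcomp, AlgHom.comp_apply, hp', map_zero]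
      · intro heq
        have h1 : (X i : MvPolynomial (Fin N) K) ∈ RingHom.ker (φ i.succ).toRingHom := by
          change φ i.succ (X i) = 0
          rw [hφX, if_pos (by simp)]
        rw [← heq] at h1
        have h2 : φ i.castSucc (X i) = 0 := h1
        rw [hφX, if_neg (by simp)] at h2
        exact X_ne_zero i h2) (by
      ext p
      rw [mem_origin]
      have h1 : φ (Fin.last N) p = C (eval 0 p) := by
        have h2 : φ (Fin.last N) = (Algebra.ofId K (MvPolynomial (Fin N) K)).comp
            (aeval (0 : Fin N → K)) := by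
          apply MvPolynomial.algHom_ext
          intro j
          rw [hφX, AlgHom.comp_apply, aeval_X, Pi.zero_apply, map_zero, if_pos (by simp)]
        rw [h2, AlgHom.comp_apply]
        rfl
      change φ (Fin.last N) p = 0 ↔ _
      rw [h1]
      simp) s hs (fun p hp => (mem_origin p).2 (hsm p hp))
  exact ⟨z, hz, h⟩

end

end Pool.Agent.Helper26
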