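import Mathlib
import Pool.Agent.Helper26.QuLine
import Pool.Agent.Helper26.QuDefs
import Pool.Agent.Helper26.Krull

set_option autoImplicit false
set_option linter.unusedSectionVars false

/-!
# Lines with triple contact with a quartic hypersurface in characteristic two
-/

universe u v

namespace Pool.Agent.Helper26

section

open Polynomial in
lemma quartic_inj' {R : Type*} [CommRing R] {a₄ a₃ a₂ a₁ a₀ b₄ b₃ b₂ b₁ b₀ : R}
    (h : (C a₄ * X ^ 4 + C a₃ * X ^ 3 + C a₂ * X ^ 2 + C a₁ * X + C a₀ : R[X]) =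
      C b₄ * X ^ 4 + C b₃ * X ^ 3 + C b₂ * X ^ 2 + C b₁ * X + C b₀) :
    a₄ = b₄ ∧ a₃ = b₃ ∧ a₂ = b₂ ∧ a₁ = b₁ ∧ a₀ = b₀ := by
  refine ⟨?_, ?_, ?_, ?_, ?_⟩
  · have := congrArg (fun P : R[X] => P.coeff 4) h
    simpa [coeff_X, coeff_C, coeff_X_pow] using this
  · have := congrArg (fun P : R[X] => P.coeff 3) h
    simpa [coeff_X, coeff_C, coeff_X_pow] using this
  · have := congrArg (fun P : R[X] => P.coeff 2) h
    simpa [coeff_X, coeff_C, coeff_X_pow] using this
  · have := congrArg (fun P : R[X] => P.coeff 1) h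
    simpa [coeff_X, coeff_C, coeff_X_pow] using this
  · have := congrArg (fun P : R[X] => P.coeff 0) h
    simpa [coeff_X, coeff_C, coeff_X_pow] using this

end

open MvPolynomial Finset

section

variable {k : Type u} [Field k] {n : ℕ} {R : Type*} [CommRing R] (g : k →+* R)
  {f : MvPolynomial (Fin n) k} (hf : f.IsHomogeneous 4)

include hf in
/-- The restriction of `f` to a line as a polynomial. -/
lemma line_poly (p q : Fin n → R) :
    eval₂ (Polynomial.C.comp g) (fun i => Polynomial.C (p i) * Polynomial.X +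
      Polynomial.C (q i)) f = Polynomial.C (lc g f p q 4) * Polynomial.X ^ 4 +
      Polynomial.C (lc g f p q 3) * Polynomial.X ^ 3 +
      Polynomial.C (lc g f p q 2) * Polynomial.X ^ 2 +
      Polynomial.C (lc g f p q 1) * Polynomial.X + Polynomial.C (lc g f p q 0) := by
  have h := eval₂_line (Polynomial.C.comp g) hf (fun i => Polynomial.C (p i))
    (fun i => Polynomial.C (q i)) Polynomial.X 1
  simp only [mul_one, one_pow] at h
  rw [h]
  simp only [lc_map g Polynomial.C f p q]

include hf in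
lemma lc_swap (p q : Fin n → R) : lc g f q p 4 = lc g f p q 0 ∧ lc g f q p 3 = lc g f p q 1 ∧
    lc g f q p 2 = lc g f p q 2 ∧ lc g f q p 1 = lc g f p q 3 ∧ lc g f q p 0 = lc g f p q 4 := by
  have h := eval₂_line (Polynomial.C.comp g) hf (fun i => Polynomial.C (q i))
    (fun i => Polynomial.C (p i)) 1 Polynomial.X
  simp only [mul_one, one_pow] at h
  have h1 : (fun i => Polynomial.C (q i) + Polynomial.C (p i) * (Polynomial.X : Polynomial R)) =
      fun i => Polynomial.C (p i) * Polynomial.X + Polynomial.C (q i) := by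
    funext i; ring
  rw [h1, line_poly g hf p q] at h
  simp only [lc_map g Polynomial.C f q p] at h
  have h2 : (Polynomial.C (lc g f p q 4) * Polynomial.X ^ 4 +
      Polynomial.C (lc g f p q 3) * Polynomial.X ^ 3 +
      Polynomial.C (lc g f p q 2) * Polynomial.X ^ 2 +
      Polynomial.C (lc g f p q 1) * Polynomial.X + Polynomial.C (lc g f p q 0) : Polynomial R) =
      Polynomial.C (lc g f q p 0) * Polynomial.X ^ 4 +
      Polynomial.C (lc g f q p 1) * Polynomial.X ^ 3 +
      Polynomial.C (lc g f q p 2) * Polynomial.X ^ 2 +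
      Polynomial.C (lc g f q p 3) * Polynomial.X + Polynomial.C (lc g f q p 4) := by
    rw [h]; ring
  obtain ⟨e4, e3, e2, e1, e0⟩ := quartic_inj' h2
  exact ⟨e0.symm, e1.symm, e2.symm, e3.symm, e4.symm⟩

include hf in
lemma lc_right_zero (p : Fin n → R) : lc g f p 0 3 = 0 ∧ lc g f p 0 2 = 0 ∧ lc g f p 0 1 = 0 ∧
    lc g f p 0 0 = 0 := by
  have h := eval₂_line (Polynomial.C.comp g) hf (fun i => Polynomial.C (p i))
    (fun i => Polynomial.C ((0 : Fin n → R) i)) 1 Polynomial.X
  have h1 : (fun i => Polynomial.C (p i) * 1 + Polynomial.C ((0 : Fin n → R) i) *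
      (Polynomial.X : Polynomial R)) = fun i => Polynomial.C (p i) := by
    funext i
    rw [Pi.zero_apply, map_zero]; ring
  rw [h1] at h
  simp only [lc_map g Polynomial.C f p 0] at h
  have hcc : eval₂ (Polynomial.C.comp g) (fun i => Polynomial.C (p i)) f =
      Polynomial.C (eval₂ g p f) := (eval₂_comp_left Polynomial.C g p f).symm
  rw [hcc] at h
  have h2 : (Polynomial.C 0 * Polynomial.X ^ 4 + Polynomial.C 0 * Polynomial.X ^ 3 +
      Polynomial.C 0 * Polynomial.X ^ 2 +
      Polynomial.C 0 * Polynomial.X + Polynomial.C (eval₂ g p f) : Polynomial R) =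
      Polynomial.C (lc g f p 0 0) * Polynomial.X ^ 4 +
      Polynomial.C (lc g f p 0 1) * Polynomial.X ^ 3 +
      Polynomial.C (lc g f p 0 2) * Polynomial.X ^ 2 +
      Polynomial.C (lc g f p 0 3) * Polynomial.X + Polynomial.C (lc g f p 0 4) := by
    simp only [map_zero, zero_mul, zero_add]
    rw [h]; ring
  obtain ⟨e4, e3, e2, e1, e0⟩ := quartic_inj' h2
  exact ⟨e1.symm, e2.symm, e3.symm, e4.symm⟩

include hf in
/-- Change of the first basis vector. -/
lemma lc_change (h2 : (2 : R) = 0) (p q : Fin n → R) (l m : R) :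
    lc g f (fun i => l * p i + m * q i) q 4 = lc g f p q 4 * l ^ 4 + lc g f p q 3 * l ^ 3 * m +
      lc g f p q 2 * l ^ 2 * m ^ 2 + lc g f p q 1 * l * m ^ 3 + lc g f p q 0 * m ^ 4 ∧
    lc g f (fun i => l * p i + m * q i) q 3 = lc g f p q 3 * l ^ 3 + lc g f p q 1 * l * m ^ 2 ∧
    lc g f (fun i => l * p i + m * q i) q 2 = lc g f p q 2 * l ^ 2 + lc g f p q 1 * l * m ∧
    lc g f (fun i => l * p i + m * q i) q 1 = lc g f p q 1 * l ∧
    lc g f (fun i => l * p i + m * q i) q 0 = lc g f p q 0 := by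
  have hP2 : (2 : Polynomial R) = 0 := by
    have := congrArg (Polynomial.C : R → Polynomial R) h2
    rwa [map_ofNat, map_zero] at this
  have h := line_poly g hf (fun i => l * p i + m * q i) q
  have h1 : (fun i => Polynomial.C (l * p i + m * q i) * Polynomial.X + Polynomial.C (q i)) =
      fun i => Polynomial.C (p i) * (Polynomial.C l * Polynomial.X) +
        Polynomial.C (q i) * (Polynomial.C m * Polynomial.X + 1) := by
    funext i
    rw [map_add, map_mul, map_mul]; ring
  rw [h1, eval₂_line (Polynomial.C.comp g) hf (fun i => Polynomial.C (p i))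
    (fun i => Polynomial.C (q i))] at h
  simp only [lc_map g Polynomial.C f p q] at h
  have h3 : (Polynomial.C (lc g f p q 4 * l ^ 4 + lc g f p q 3 * l ^ 3 * m +
      lc g f p q 2 * l ^ 2 * m ^ 2 + lc g f p q 1 * l * m ^ 3 + lc g f p q 0 * m ^ 4) *
        Polynomial.X ^ 4 +
      Polynomial.C (lc g f p q 3 * l ^ 3 + lc g f p q 1 * l * m ^ 2) * Polynomial.X ^ 3 +
      Polynomial.C (lc g f p q 2 * l ^ 2 + lc g f p q 1 * l * m) * Polynomial.X ^ 2 +
      Polynomial.C (lc g f p q 1 * l) * Polynomial.X + Polynomial.C (lc g f p q 0) :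
        Polynomial R) =
      Polynomial.C (lc g f (fun i => l * p i + m * q i) q 4) * Polynomial.X ^ 4 +
      Polynomial.C (lc g f (fun i => l * p i + m * q i) q 3) * Polynomial.X ^ 3 +
      Polynomial.C (lc g f (fun i => l * p i + m * q i) q 2) * Polynomial.X ^ 2 +
      Polynomial.C (lc g f (fun i => l * p i + m * q i) q 1) * Polynomial.X +
      Polynomial.C (lc g f (fun i => l * p i + m * q i) q 0) := by
    rw [← h]
    simp only [map_add, map_mul, map_pow]
    linear_combination (-Polynomial.C (lc g f p q 2) * Polynomial.C l ^ 2 * Polynomial.C m *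
      Polynomial.X ^ 3 - Polynomial.C (lc g f p q 1) * Polynomial.C l * Polynomial.X *
      (Polynomial.C m ^ 2 * Polynomial.X ^ 2 + Polynomial.C m * Polynomial.X) -
      Polynomial.C (lc g f p q 0) * (2 * Polynomial.C m ^ 3 * Polynomial.X ^ 3 +
      3 * Polynomial.C m ^ 2 * Polynomial.X ^ 2 + 2 * Polynomial.C m * Polynomial.X)) * hP2
  obtain ⟨e4, e3, e2, e1, e0⟩ := quartic_inj' h3
  exact ⟨e4.symm, e3.symm, e2.symm, e1.symm, e0.symm⟩

/-- The invariants of degree two and three of the restriction to a line. -/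
noncomputable def Iv (f : MvPolynomial (Fin n) k) (p q : Fin n → R) : R :=
  lc g f p q 2 ^ 2 + lc g f p q 3 * lc g f p q 1

noncomputable def Jv (f : MvPolynomial (Fin n) k) (p q : Fin n → R) : R :=
  lc g f p q 4 * lc g f p q 1 ^ 2 + lc g f p q 3 * lc g f p q 1 * lc g f p q 2 +
    lc g f p q 3 ^ 2 * lc g f p q 0

include hf in
lemma Iv_swap (p q : Fin n → R) : Iv g f q p = Iv g f p q := by
  obtain ⟨e4, e3, e2, e1, e0⟩ := lc_swap g hf p q
  rw [Iv, Iv, e3, e2, e1]; ring

include hf in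
lemma Jv_swap (p q : Fin n → R) : Jv g f q p = Jv g f p q := by
  obtain ⟨e4, e3, e2, e1, e0⟩ := lc_swap g hf p q
  rw [Jv, Jv, e4, e3, e2, e1, e0]; ring

include hf in
lemma Iv_change (h2 : (2 : R) = 0) (p q : Fin n → R) (l m : R) :
    Iv g f (fun i => l * p i + m * q i) q = l ^ 4 * Iv g f p q := by
  obtain ⟨e4, e3, e2, e1, e0⟩ := lc_change g hf h2 p q l m
  rw [Iv, Iv, e3, e2, e1]
  linear_combination (lc g f p q 1 * lc g f p q 2 * l ^ 3 * m + lc g f p q 1 ^ 2 * l ^ 2 * m ^ 2)
    * h2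

include hf in
lemma Jv_change (h2 : (2 : R) = 0) (p q : Fin n → R) (l m : R) :
    Jv g f (fun i => l * p i + m * q i) q = l ^ 6 * Jv g f p q := by
  obtain ⟨e4, e3, e2, e1, e0⟩ := lc_change g hf h2 p q l m
  rw [Jv, Jv, e4, e3, e2, e1, e0]
  set c4 := lc g f p q 4
  set c3 := lc g f p q 3
  set c2 := lc g f p q 2
  set c1 := lc g f p q 1
  set c0 := lc g f p q 0
  linear_combination (c1 ^ 3 * l ^ 3 * m ^ 3 + c1 ^ 2 * c2 * l ^ 4 * m ^ 2 +
    c1 ^ 2 * c3 * l ^ 5 * m + c0 * c1 ^ 2 * l ^ 2 * m ^ 4 + c0 * c1 * c3 * l ^ 4 * m ^ 2) * h2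

lemma Iv_map {S : Type*} [CommRing S] (h : R →+* S) (p q : Fin n → R) :
    Iv (h.comp g) f (fun j => h (p j)) (fun j => h (q j)) = h (Iv g f p q) := by
  simp only [Iv, lc_map, map_add, map_mul, map_pow]

lemma Jv_map {S : Type*} [CommRing S] (h : R →+* S) (p q : Fin n → R) :
    Jv (h.comp g) f (fun j => h (p j)) (fun j => h (q j)) = h (Jv g f p q) := by
  simp only [Jv, lc_map, map_add, map_mul, map_pow]

end

section

variable {k : Type u} [Field k] {n : ℕ} {K : Type*} [Field K] [IsAlgClosed K] [CharP K 2]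
  (g : k →+* K) {f : MvPolynomial (Fin n) k} (hf : f.IsHomogeneous 4)

include hf in
/-- If the two invariants vanish, the restriction to the line has a triple zero. -/
lemma exists_triple (P v : Fin n → K) (hP : eval₂ g P f ≠ 0) (hI : Iv g f P v = 0)
    (hJ : Jv g f P v = 0) : ∃ r : K, eval₂ g (fun i => v i + r * P i) f = 0 ∧
      lc g f P (fun i => v i + r * P i) 1 = 0 ∧ lc g f P (fun i => v i + r * P i) 2 = 0 := by
  have h2 : (2 : K) = 0 := CharTwo.two_eq_zero
  have key : ∀ r : K, lc g f P (fun i => v i + r * P i) 0 = lc g f P v 0 +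
      lc g f P v 1 * r + lc g f P v 2 * r ^ 2 + lc g f P v 3 * r ^ 3 + lc g f P v 4 * r ^ 4 ∧
      lc g f P (fun i => v i + r * P i) 1 = lc g f P v 1 + lc g f P v 3 * r ^ 2 ∧
      lc g f P (fun i => v i + r * P i) 2 = lc g f P v 2 + lc g f P v 3 * r := by
    intro r
    obtain ⟨e4, e3, e2, e1, e0⟩ := lc_change g hf h2 v P 1 r
    obtain ⟨s4, s3, s2, s1, s0⟩ := lc_swap g hf P v
    obtain ⟨t4, t3, t2, t1, t0⟩ := lc_swap g hf P (fun i => 1 * v i + r * P i)
    have hfun : (fun i => 1 * v i + r * P i) = fun i => v i + r * P i := by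
      funext i; rw [one_mul]
    rw [hfun] at e4 e3 e2 e1 e0 t4 t3 t2 t1 t0
    refine ⟨?_, ?_, ?_⟩
    · rw [← t4, e4, s4, s3, s2, s1, s0]; ring
    · rw [← t3, e3, s3, s1]; ring
    · rw [← t2, e2, s2, s1]; ring
  have h4 : lc g f P v 4 ≠ 0 := by rwa [lc_four g hf]
  rw [Iv] at hI
  rw [Jv] at hJ
  set c4 := lc g f P v 4
  set c3 := lc g f P v 3
  set c2 := lc g f P v 2
  set c1 := lc g f P v 1
  set c0 := lc g f P v 0
  by_cases h3 : c3 = 0
  · rw [h3] at hI hJ
    have hc2 : c2 = 0 := by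
      have : c2 ^ 2 = 0 := by linear_combination hI
      exact pow_eq_zero_iff (by norm_num) |>.1 this
    have hc1 : c1 = 0 := by
      have : c4 * c1 ^ 2 = 0 := by linear_combination hJ
      rcases mul_eq_zero.1 this with h5 | h5
      · exact absurd h5 h4
      · exact pow_eq_zero_iff (by norm_num) |>.1 h5
    obtain ⟨r, hr⟩ := IsAlgClosed.exists_pow_nat_eq (c0 / c4) (n := 4) (by norm_num)
    obtain ⟨k0, k1, k2⟩ := key r
    refine ⟨r, ?_, ?_, ?_⟩
    · rw [← lc_zero g hf P, k0, h3, hc2, hc1, hr]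
      field_simp
      linear_combination c0 * h2
    · rw [k1, h3, hc1]; ring
    · rw [k2, h3, hc2]; ring
  · obtain ⟨k0, k1, k2⟩ := key (c2 / c3)
    have hc1 : c1 = c2 ^ 2 / c3 := by
      field_simp
      linear_combination hI - c2 ^ 2 * h2
    refine ⟨c2 / c3, ?_, ?_, ?_⟩
    · rw [← lc_zero g hf P, k0]
      have e0 : c0 = (c4 * c1 ^ 2 + c3 * c1 * c2) / c3 ^ 2 := by
        field_simp
        linear_combination hJ - (c4 * c1 ^ 2 + c3 * c1 * c2) * h2
      rw [e0, hc1]
      field_simp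
      linear_combination (c4 * c2 ^ 4 + 2 * c2 ^ 3 * c3 ^ 2) * h2
    · rw [k1, hc1]
      field_simp
      linear_combination c2 ^ 2 * h2
    · rw [k2]
      field_simp
      linear_combination c2 * h2

include hf in
/-- Lines with triple contact through a given point, in dimension at least three. -/
lemma exists_triple_line_ge (hn : 4 ≤ n) (P : Fin n → K) (hP : eval₂ g P f ≠ 0) :
    ∃ Q : Fin n → K, Q ≠ 0 ∧ eval₂ g Q f = 0 ∧ lc g f P Q 1 = 0 ∧ lc g f P Q 2 = 0 := by
  classical
  have hP0 : ∃ i, P i ≠ 0 := by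
    by_contra hcon
    push Not at hcon
    apply hP
    have : P = 0 := funext hcon
    rw [this, ← lc_zero g hf 0 0]
    exact (lc_right_zero g hf 0).2.2.2
  obtain ⟨i₁, hi₁⟩ := hP0
  set g' : k →+* MvPolynomial (Fin n) K := C.comp g with hg'
  have hev : ∀ v : Fin n → K, (eval v).comp g' = g := by
    intro v
    ext x
    simp [hg']
  have hIe : ∀ v : Fin n → K, eval v (Iv g' f (fun j => C (P j)) X) = Iv g f P v := by
    intro v
    rw [← Iv_map, hev]
    congr 1
    · funext j; simp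
    · funext j; simp
  have hJe : ∀ v : Fin n → K, eval v (Jv g' f (fun j => C (P j)) X) = Jv g f P v := by
    intro v
    rw [← Jv_map, hev]
    congr 1
    · funext j; simp
    · funext j; simp
  obtain ⟨z3, z2, z1, z0⟩ := lc_right_zero g hf P
  obtain ⟨v, hv0, hv⟩ := exists_common_zero (K := K) (N := n)
    ({X i₁, Iv g' f (fun j => C (P j)) X, Jv g' f (fun j => C (P j)) X} : Finset _)
    (lt_of_le_of_lt Finset.card_le_three (by omega)) (by
      intro φ hφ
      simp only [mem_insert, mem_singleton] at hφ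
      rcases hφ with rfl | rfl | rfl
      · simp
      · rw [hIe, Iv, z3, z2]; ring
      · rw [hJe, Jv, z3, z1]; ring)
  have hvi : v i₁ = 0 := by
    have := hv (X i₁) (by simp)
    rwa [eval_X] at this
  have hvI : Iv g f P v = 0 := by
    rw [← hIe]; exact hv _ (by simp)
  have hvJ : Jv g f P v = 0 := by
    rw [← hJe]; exact hv _ (by simp)
  obtain ⟨r, hr0, hr1, hr2⟩ := exists_triple g hf P v hP hvI hvJ
  refine ⟨fun i => v i + r * P i, ?_, hr0, hr1, hr2⟩
  intro h
  have h1 := congrFun h i₁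
  simp only [hvi, zero_add, Pi.zero_apply] at h1
  have hr : r = 0 := (mul_eq_zero.1 h1).resolve_right hi₁
  apply hv0
  funext i
  have h2 := congrFun h i
  simp only [hr, zero_mul, add_zero, Pi.zero_apply] at h2
  exact h2

end

end Pool.Agent.Helper26
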