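import Mathlib
import Pool.Agent.Helper26.QuGeo

set_option autoImplicit false
set_option linter.unusedSectionVars false

/-!
# Lines with triple contact with a plane quartic in characteristic two
-/

universe u v

namespace Pool.Agent.Helper26

open MvPolynomial Finset

section

variable {K : Type*} [Field K]

lemma X_not_dvd {i j : Fin 3} (h : i ≠ j) (m : ℕ) :
    ¬ (X i : MvPolynomial (Fin 3) K) ∣ X j ^ m := by
  rintro ⟨c, hc⟩
  have h1 := congrArg (eval (Pi.single j (1 : K))) hc
  rw [map_pow, map_mul, eval_X, eval_X, Pi.single_eq_same, Pi.single_eq_of_ne h, zero_mul,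
    one_pow] at h1
  exact one_ne_zero h1

lemma X_prime' (i : Fin 3) : Prime (X i : MvPolynomial (Fin 3) K) := by
  exact X_prime

/-- Common factors in the definition of the contravariants. -/
lemma exists_contra {A B D : MvPolynomial (Fin 3) K} (m : ℕ)
    (hA : X 0 ^ m * A = X 2 ^ m * B) (hD : X 0 ^ m * D = X 1 ^ m * B) :
    ∃ E, B = X 0 ^ m * E ∧ A = X 2 ^ m * E ∧ D = X 1 ^ m * E := by
  have h1 : (X 0 : MvPolynomial (Fin 3) K) ^ m ∣ X 2 ^ m * B := ⟨A, hA.symm⟩
  obtain ⟨E, hE⟩ := (X_prime' (K := K) 0).pow_dvd_of_dvd_mul_left m (X_not_dvd (by decide) m) h1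
  have h0 : (X 0 : MvPolynomial (Fin 3) K) ^ m ≠ 0 := pow_ne_zero _ (X_prime' 0).ne_zero
  refine ⟨E, hE, ?_, ?_⟩
  · apply mul_left_cancel₀ h0
    rw [hA, hE]; ring
  · apply mul_left_cancel₀ h0
    rw [hD, hE]; ring

end

section

variable {k : Type u} [Field k] {K : Type*} [Field K] (g : k →+* K)
  {f : MvPolynomial (Fin 3) k} (hf : f.IsHomogeneous 4)

/-- Three vectors orthogonal to `(u, v, w)`. -/
def vecs {R : Type*} [CommRing R] (u v w : R) : Fin 3 → Fin 3 → R :=
  ![![0, w, v], ![w, 0, u], ![v, u, 0]]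

include hf in
lemma contra_rel {R : Type*} [CommRing R] (h2 : (2 : R) = 0) (g : k →+* R) (u v w : R) :
    u ^ 4 * Iv g f (vecs u v w 0) (vecs u v w 1) = w ^ 4 * Iv g f (vecs u v w 1) (vecs u v w 2) ∧
    u ^ 4 * Iv g f (vecs u v w 0) (vecs u v w 2) = v ^ 4 * Iv g f (vecs u v w 1) (vecs u v w 2) ∧
    u ^ 6 * Jv g f (vecs u v w 0) (vecs u v w 1) = w ^ 6 * Jv g f (vecs u v w 1) (vecs u v w 2) ∧
    u ^ 6 * Jv g f (vecs u v w 0) (vecs u v w 2) = v ^ 6 * Jv g f (vecs u v w 1) (vecs u v w 2) := by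
  have e1 : (fun i => u * vecs u v w 0 i + 0 * vecs u v w 1 i) =
      fun i => w * vecs u v w 2 i + v * vecs u v w 1 i := by
    funext i
    fin_cases i
    · simp [vecs]
      linear_combination (-v * w) * h2
    · simp [vecs]; ring
    · simp [vecs]; ring
  have e2 : (fun i => u * vecs u v w 0 i + 0 * vecs u v w 2 i) =
      fun i => v * vecs u v w 1 i + w * vecs u v w 2 i := by
    funext i
    fin_cases i
    · simp [vecs]
      linear_combination (-v * w) * h2
    · simp [vecs]; ring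
    · simp [vecs]; ring
  refine ⟨?_, ?_, ?_, ?_⟩
  · rw [← Iv_change g hf h2 (vecs u v w 0) (vecs u v w 1) u 0, e1,
      Iv_change g hf h2 (vecs u v w 2) (vecs u v w 1) w v, Iv_swap g hf]
  · rw [← Iv_change g hf h2 (vecs u v w 0) (vecs u v w 2) u 0, e2,
      Iv_change g hf h2 (vecs u v w 1) (vecs u v w 2) v w]
  · rw [← Jv_change g hf h2 (vecs u v w 0) (vecs u v w 1) u 0, e1,
      Jv_change g hf h2 (vecs u v w 2) (vecs u v w 1) w v, Jv_swap g hf]
  · rw [← Jv_change g hf h2 (vecs u v w 0) (vecs u v w 2) u 0, e2,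
      Jv_change g hf h2 (vecs u v w 1) (vecs u v w 2) v w]

lemma vecs_map {R S : Type*} [CommRing R] [CommRing S] (h : R →+* S) (u v w : R) (j : Fin 3) :
    (fun i => h (vecs u v w j i)) = vecs (h u) (h v) (h w) j := by
  funext i
  fin_cases j <;> fin_cases i <;> simp [vecs]

include hf in
lemma scale_IJ {R : Type*} [CommRing R] (h2 : (2 : R) = 0) (g : k →+* R) (T : R)
    (a b : Fin 3 → R) : Iv g f (fun i => T * a i) (fun i => T * b i) = T ^ 8 * Iv g f a b ∧
      Jv g f (fun i => T * a i) (fun i => T * b i) = T ^ 12 * Jv g f a b := by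
  have e1 : (fun i => T * a i) = fun i => T * a i + 0 * (T * b i) := by funext i; ring
  have e2 : (fun i => T * b i) = fun i => T * b i + 0 * a i := by funext i; ring
  constructor
  · rw [e1, Iv_change g hf h2 a (fun i => T * b i) T 0, Iv_swap g hf (fun i => T * b i) a, e2,
      Iv_change g hf h2 b a T 0, Iv_swap g hf a b]
    ring
  · rw [e1, Jv_change g hf h2 a (fun i => T * b i) T 0, Jv_swap g hf (fun i => T * b i) a, e2,
      Jv_change g hf h2 b a T 0, Jv_swap g hf a b]
    ring

variable [CharP K 2]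

include hf in
/-- The contravariants of a plane quartic. -/
lemma exists_contravariants : ∃ E₁ E₂ : MvPolynomial (Fin 3) K,
    eval 0 E₁ = 0 ∧ eval 0 E₂ = 0 ∧ ∀ l : Fin 3 → K,
      Iv g f (vecs (l 0) (l 1) (l 2) 1) (vecs (l 0) (l 1) (l 2) 2) = l 0 ^ 4 * eval l E₁ ∧
      Iv g f (vecs (l 0) (l 1) (l 2) 0) (vecs (l 0) (l 1) (l 2) 1) = l 2 ^ 4 * eval l E₁ ∧
      Iv g f (vecs (l 0) (l 1) (l 2) 0) (vecs (l 0) (l 1) (l 2) 2) = l 1 ^ 4 * eval l E₁ ∧
      Jv g f (vecs (l 0) (l 1) (l 2) 1) (vecs (l 0) (l 1) (l 2) 2) = l 0 ^ 6 * eval l E₂ ∧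
      Jv g f (vecs (l 0) (l 1) (l 2) 0) (vecs (l 0) (l 1) (l 2) 1) = l 2 ^ 6 * eval l E₂ ∧
      Jv g f (vecs (l 0) (l 1) (l 2) 0) (vecs (l 0) (l 1) (l 2) 2) = l 1 ^ 6 * eval l E₂ := by
  have h2K : (2 : K) = 0 := CharTwo.two_eq_zero
  have h2 : (2 : MvPolynomial (Fin 3) K) = 0 := by
    have := congrArg (C : K → MvPolynomial (Fin 3) K) h2K
    rwa [map_ofNat, map_zero] at this
  have h2T : (2 : Polynomial K) = 0 := by
    have := congrArg (Polynomial.C : K → Polynomial K) h2K
    rwa [map_ofNat, map_zero] at this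
  set g' : k →+* MvPolynomial (Fin 3) K := C.comp g with hg'
  obtain ⟨r1, r2, r3, r4⟩ := contra_rel hf h2 g' (X 0) (X 1) (X 2)
  obtain ⟨E₁, a1, a2, a3⟩ := exists_contra 4 r1 r2
  obtain ⟨E₂, b1, b2, b3⟩ := exists_contra 6 r3 r4
  have hev : ∀ l : Fin 3 → K, (eval l).comp g' = g := by
    intro v
    ext x
    simp [hg']
  have hIe : ∀ (l : Fin 3 → K) (i j : Fin 3),
      eval l (Iv g' f (vecs (X 0) (X 1) (X 2) i) (vecs (X 0) (X 1) (X 2) j)) =
      Iv g f (vecs (l 0) (l 1) (l 2) i) (vecs (l 0) (l 1) (l 2) j) := by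
    intro l i j
    rw [← Iv_map, hev]
    rw [vecs_map (eval l) (X 0) (X 1) (X 2) i, vecs_map (eval l) (X 0) (X 1) (X 2) j]
    simp only [eval_X]
  have hJe : ∀ (l : Fin 3 → K) (i j : Fin 3),
      eval l (Jv g' f (vecs (X 0) (X 1) (X 2) i) (vecs (X 0) (X 1) (X 2) j)) =
      Jv g f (vecs (l 0) (l 1) (l 2) i) (vecs (l 0) (l 1) (l 2) j) := by
    intro l i j
    rw [← Jv_map, hev]
    rw [vecs_map (eval l) (X 0) (X 1) (X 2) i, vecs_map (eval l) (X 0) (X 1) (X 2) j]
    simp only [eval_X]
  -- vanishing at the origin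
  set ψ : MvPolynomial (Fin 3) K →+* Polynomial K :=
    eval₂Hom Polynomial.C ![Polynomial.X, 0, 0] with hψ
  have hψ0 : ∀ E, Polynomial.eval 0 (ψ E) = eval 0 E := by
    intro E
    have : (Polynomial.evalRingHom (0 : K)).comp ψ = eval (0 : Fin 3 → K) := by
      apply ringHom_ext
      · intro r; simp [hψ]
      · intro i
        fin_cases i <;> simp [hψ]
    exact RingHom.congr_fun this E
  have hψX : ∀ j, (fun i => ψ (vecs (X 0) (X 1) (X 2) j i)) = vecs Polynomial.X 0 0 j := by
    intro j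
    rw [vecs_map]
    simp [hψ]
  have hv1 : vecs (Polynomial.X : Polynomial K) 0 0 1 =
      fun i => Polynomial.X * (![0, 0, 1] : Fin 3 → Polynomial K) i := by
    funext i
    fin_cases i <;> simp [vecs]
  have hv2 : vecs (Polynomial.X : Polynomial K) 0 0 2 =
      fun i => Polynomial.X * (![0, 1, 0] : Fin 3 → Polynomial K) i := by
    funext i
    fin_cases i <;> simp [vecs]
  obtain ⟨s1, s2⟩ := scale_IJ hf h2T (ψ.comp g') Polynomial.X ![0, 0, 1] ![0, 1, 0]
  have hψI : ψ (Iv g' f (vecs (X 0) (X 1) (X 2) 1) (vecs (X 0) (X 1) (X 2) 2)) =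
      Polynomial.X ^ 8 * Iv (ψ.comp g') f ![0, 0, 1] ![0, 1, 0] := by
    rw [← Iv_map, hψX, hψX, hv1, hv2, s1]
  have hψJ : ψ (Jv g' f (vecs (X 0) (X 1) (X 2) 1) (vecs (X 0) (X 1) (X 2) 2)) =
      Polynomial.X ^ 12 * Jv (ψ.comp g') f ![0, 0, 1] ![0, 1, 0] := by
    rw [← Jv_map, hψX, hψX, hv1, hv2, s2]
  have hψu : ψ (X 0) = Polynomial.X := by simp [hψ]
  have hE₁ : eval 0 E₁ = 0 := by
    rw [a1, map_mul, map_pow, hψu] at hψI
    have h5 : ψ E₁ = Polynomial.X ^ 4 * Iv (ψ.comp g') f ![0, 0, 1] ![0, 1, 0] := by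
      apply mul_left_cancel₀ (pow_ne_zero 4 (Polynomial.X_ne_zero (R := K)))
      rw [hψI]; ring
    rw [← hψ0, h5]
    simp
  have hE₂ : eval 0 E₂ = 0 := by
    rw [b1, map_mul, map_pow, hψu] at hψJ
    have h5 : ψ E₂ = Polynomial.X ^ 6 * Jv (ψ.comp g') f ![0, 0, 1] ![0, 1, 0] := by
      apply mul_left_cancel₀ (pow_ne_zero 6 (Polynomial.X_ne_zero (R := K)))
      rw [hψJ]; ring
    rw [← hψ0, h5]
    simp
  refine ⟨E₁, E₂, hE₁, hE₂, fun l => ⟨?_, ?_, ?_, ?_, ?_, ?_⟩⟩
  · rw [← hIe l 1 2, a1]; simp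
  · rw [← hIe l 0 1, a2]; simp
  · rw [← hIe l 0 2, a3]; simp
  · rw [← hJe l 1 2, b1]; simp
  · rw [← hJe l 0 1, b2]; simp
  · rw [← hJe l 0 2, b3]; simp

include hf in
/-- There is a line on which both invariants vanish. -/
lemma exists_line [IsAlgClosed K] : ∃ (l p q : Fin 3 → K), l ≠ 0 ∧ Iv g f p q = 0 ∧
    Jv g f p q = 0 ∧ (∀ s t : K, (∀ i, s * p i + t * q i = 0) → s = 0 ∧ t = 0) ∧
    (∀ s t : K, l 0 * (s * p 0 + t * q 0) + l 1 * (s * p 1 + t * q 1) +
      l 2 * (s * p 2 + t * q 2) = 0) ∧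
    ∀ y : Fin 3 → K, l 0 * y 0 + l 1 * y 1 + l 2 * y 2 = 0 →
      ∃ s t : K, ∀ i, y i = s * p i + t * q i := by
  classical
  have h2 : (2 : K) = 0 := CharTwo.two_eq_zero
  obtain ⟨E₁, E₂, h01, h02, hE⟩ := exists_contravariants g hf
  obtain ⟨l, hl0, hl⟩ := exists_common_zero (K := K) (N := 3) ({E₁, E₂} : Finset _)
    (lt_of_le_of_lt Finset.card_le_two (by norm_num)) (by
      intro φ hφ
      simp only [mem_insert, mem_singleton] at hφ
      rcases hφ with rfl | rfl
      · exact h01
      · exact h02)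
  have hl1 := hl E₁ (by simp)
  have hl2 := hl E₂ (by simp)
  obtain ⟨i1, i2, i3, j1, j2, j3⟩ := hE l
  rw [hl1, mul_zero] at i1 i2 i3
  rw [hl2, mul_zero] at j1 j2 j3
  have hcases : l 0 ≠ 0 ∨ l 1 ≠ 0 ∨ l 2 ≠ 0 := by
    by_contra hcon
    push Not at hcon
    apply hl0
    funext i
    fin_cases i
    · exact hcon.1
    · exact hcon.2.1
    · exact hcon.2.2
  rcases hcases with h | h | h
  · refine ⟨l, _, _, hl0, i1, j1, ?_, ?_, ?_⟩
    · intro s t hst
      have h1 := hst 1
      have h3 := hst 2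
      simp [vecs, h] at h1 h3
      exact ⟨h3, h1⟩
    · intro s t
      simp [vecs]
      linear_combination (l 0 * l 1 * t + l 0 * l 2 * s) * h2
    · intro y hy
      refine ⟨y 2 / l 0, y 1 / l 0, fun i => ?_⟩
      fin_cases i
      · simp [vecs]
        field_simp
        linear_combination hy - (l 1 * y 1 + l 2 * y 2) * h2
      · simp [vecs, h]
      · simp [vecs, h]
  · refine ⟨l, _, _, hl0, i3, j3, ?_, ?_, ?_⟩
    · intro s t hst
      have h1 := hst 0
      have h3 := hst 2
      simp [vecs, h] at h1 h3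
      exact ⟨h3, h1⟩
    · intro s t
      simp [vecs]
      linear_combination (l 0 * l 1 * t + l 1 * l 2 * s) * h2
    · intro y hy
      refine ⟨y 2 / l 1, y 0 / l 1, fun i => ?_⟩
      fin_cases i
      · simp [vecs, h]
      · simp [vecs]
        field_simp
        linear_combination hy - (l 0 * y 0 + l 2 * y 2) * h2
      · simp [vecs, h]
  · refine ⟨l, _, _, hl0, i2, j2, ?_, ?_, ?_⟩
    · intro s t hst
      have h1 := hst 0
      have h3 := hst 1
      simp [vecs, h] at h1 h3
      exact ⟨h3, h1⟩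
    · intro s t
      simp [vecs]
      linear_combination (l 1 * l 2 * s + l 0 * l 2 * t) * h2
    · intro y hy
      refine ⟨y 1 / l 2, y 0 / l 2, fun i => ?_⟩
      fin_cases i
      · simp [vecs, h]
      · simp [vecs, h]
      · simp [vecs]
        field_simp
        linear_combination hy - (l 0 * y 0 + l 1 * y 1) * h2

end

section

variable {k : Type u} [Field k] {n : ℕ} {K : Type*} [Field K] [Infinite K] (g : k →+* K)
  {f : MvPolynomial (Fin n) k} (hf : f.IsHomogeneous 4)

include hf in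
lemma lc_of_vanish (y x : Fin n → K)
    (h : ∀ s : K, eval₂ g (fun i => s * y i + x i) f = 0) : lc g f y x 1 = 0 := by
  have h1 : (Polynomial.C (lc g f y x 4) * Polynomial.X ^ 4 +
      Polynomial.C (lc g f y x 3) * Polynomial.X ^ 3 +
      Polynomial.C (lc g f y x 2) * Polynomial.X ^ 2 +
      Polynomial.C (lc g f y x 1) * Polynomial.X + Polynomial.C (lc g f y x 0) : Polynomial K) =
      Polynomial.C 0 * Polynomial.X ^ 4 + Polynomial.C 0 * Polynomial.X ^ 3 +
      Polynomial.C 0 * Polynomial.X ^ 2 + Polynomial.C 0 * Polynomial.X + Polynomial.C 0 := by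
    apply Polynomial.funext
    intro s
    have h2 := eval₂_line g hf y x s 1
    have h3 : (fun i => y i * s + x i * 1) = fun i => s * y i + x i := by
      funext i; ring
    rw [h3, h s] at h2
    simp only [Polynomial.eval_add, Polynomial.eval_mul, Polynomial.eval_C, Polynomial.eval_pow,
      Polynomial.eval_X]
    linear_combination -h2
  exact (quartic_inj' h1).2.2.2.1

end

section

variable {k : Type u} [Field k] {K : Type*} [Field K] [IsAlgClosed K] [CharP K 2] (g : k →+* K)
  {f : MvPolynomial (Fin 3) k} (hf : f.IsHomogeneous 4)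

include hf in
/-- A smooth plane quartic has a line with triple contact which is not contained in it. -/
lemma exists_triple_line_three (hs : ∀ x : Fin 3 → K, x ≠ 0 → eval₂ g x f = 0 →
    ∃ i, eval₂ g x (pderiv i f) ≠ 0) : ∃ P Q : Fin 3 → K, eval₂ g P f ≠ 0 ∧ Q ≠ 0 ∧
      eval₂ g Q f = 0 ∧ lc g f P Q 1 = 0 ∧ lc g f P Q 2 = 0 := by
  classical
  have _ : Infinite K := IsAlgClosed.instInfinite
  have h2 : (2 : K) = 0 := CharTwo.two_eq_zero
  obtain ⟨l, p, q, hl0, hI, hJ, hind, hperp, hspan⟩ := exists_line g hf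
  -- the form does not vanish on the line
  have hne : ∃ s t : K, eval₂ g (fun i => s * p i + t * q i) f ≠ 0 := by
    by_contra hcon
    push Not at hcon
    have hvan : ∀ y : Fin 3 → K, l 0 * y 0 + l 1 * y 1 + l 2 * y 2 = 0 → eval₂ g y f = 0 := by
      intro y hy
      obtain ⟨s, t, hst⟩ := hspan y hy
      have : y = fun i => s * p i + t * q i := funext hst
      rw [this]
      exact hcon s t
    have hm : ∃ m : Fin 3 → K, l 0 * m 0 + l 1 * m 1 + l 2 * m 2 = 1 := by
      have hex : ∃ i, l i ≠ 0 := by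
        by_contra hc
        push Not at hc
        exact hl0 (funext hc)
      obtain ⟨i, hi⟩ := hex
      refine ⟨Pi.single i (l i)⁻¹, ?_⟩
      fin_cases i
      · simp at hi ⊢
        simp [hi]
      · simp at hi ⊢
        simp [hi]
      · simp at hi ⊢
        simp [hi]
    obtain ⟨m, hm⟩ := hm
    set G : MvPolynomial (Fin 2) K := ∑ i, C (m i) *
      eval₂ (C.comp g) (fun j => C (p j) * X 0 + C (q j) * X 1) (pderiv i f) with hG
    have hGe : ∀ z : Fin 2 → K, eval z G =
        ∑ i, m i * eval₂ g (fun j => p j * z 0 + q j * z 1) (pderiv i f) := by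
      intro z
      rw [hG, map_sum]
      refine sum_congr rfl fun i _ => ?_
      rw [map_mul, eval_C]
      congr 1
      have h3 := eval₂_comp_left (eval z) (C.comp g) (fun j => C (p j) * X 0 + C (q j) * X 1)
        (pderiv i f)
      rw [h3]
      have h4 : (eval z).comp ((C : K →+* MvPolynomial (Fin 2) K).comp g) = g := by
        ext x; simp
      rw [h4]
      congr 1
      funext j
      simp
    have hd0 : ∀ i, eval₂ g (0 : Fin 3 → K) (pderiv i f) = 0 := by
      intro i
      have h3 := (hf.pderiv (i := i))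
      have h4 : eval₂ g (0 : Fin 3 → K) (pderiv i f) = g (constantCoeff (pderiv i f)) := by
        have : (eval₂Hom g (0 : Fin 3 → K)) = g.comp constantCoeff := by
          apply ringHom_ext
          · intro r; simp
          · intro j; simp
        exact RingHom.congr_fun this _
      rw [h4, constantCoeff_eq, h3.coeff_eq_zero (by simp), map_zero]
    obtain ⟨z, hz0, hz⟩ := exists_common_zero (K := K) (N := 2) ({G} : Finset _) (by simp) (by
      intro φ hφ
      rw [mem_singleton.1 hφ, hGe]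
      refine sum_eq_zero fun i _ => ?_
      have : (fun j => p j * (0 : Fin 2 → K) 0 + q j * (0 : Fin 2 → K) 1) = 0 := by
        funext j; simp
      rw [this, hd0, mul_zero])
    have hzG := hz G (mem_singleton_self _)
    rw [hGe] at hzG
    set x : Fin 3 → K := fun j => p j * z 0 + q j * z 1 with hx
    have hx0 : x ≠ 0 := by
      intro h
      obtain ⟨c0, c1⟩ := hind (z 0) (z 1) (fun i => by
        have := congrFun h i
        simp only [hx, Pi.zero_apply] at this
        linear_combination this)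
      apply hz0
      funext j
      fin_cases j
      · exact c0
      · exact c1
    have hxl : l 0 * x 0 + l 1 * x 1 + l 2 * x 2 = 0 := by
      simp only [hx]
      linear_combination hperp (z 0) (z 1)
    obtain ⟨i, hi⟩ := hs x hx0 (hvan x hxl)
    apply hi
    -- all directional derivatives vanish
    have hdir : ∀ y : Fin 3 → K, l 0 * y 0 + l 1 * y 1 + l 2 * y 2 = 0 →
        ∑ j, y j * eval₂ g x (pderiv j f) = 0 := by
      intro y hy
      rw [← lc_one g hf y x]
      apply lc_of_vanish g hf y x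
      intro s
      apply hvan
      linear_combination s * hy + hxl
    set e : Fin 3 → K := Pi.single i 1 with he
    set c := l 0 * e 0 + l 1 * e 1 + l 2 * e 2 with hc
    have h5 := hdir (fun j => e j - c * m j) (by
      linear_combination -hc - c * hm)
    have h6 : ∑ j, (e j - c * m j) * eval₂ g x (pderiv j f) =
        ∑ j, e j * eval₂ g x (pderiv j f) - c * ∑ j, m j * eval₂ g x (pderiv j f) := by
      rw [mul_sum, ← sum_sub_distrib]
      refine sum_congr rfl fun j _ => ?_
      ring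
    rw [h6, hzG, mul_zero, sub_zero] at h5
    rw [sum_eq_single i] at h5
    · rwa [he, Pi.single_eq_same, one_mul] at h5
    · intro b _ hb
      rw [he, Pi.single_eq_of_ne hb, zero_mul]
    · intro h; exact absurd (mem_univ i) h
  obtain ⟨s, t, hst⟩ := hne
  by_cases hs0 : s = 0
  · have ht0 : t ≠ 0 := by
      rintro rfl
      apply hst
      rw [hs0]
      have : (fun i => (0 : K) * p i + 0 * q i) = 0 := by
        funext i; simp
      rw [this, ← lc_zero g hf 0 0]
      exact (lc_right_zero g hf 0).2.2.2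
    have hPe : (fun i => s * p i + t * q i) = fun i => t * q i + 0 * p i := by
      funext i; rw [hs0]; ring
    rw [hPe] at hst
    obtain ⟨r, hr0, hr1, hr2⟩ := exists_triple g hf (fun i => t * q i + 0 * p i) p hst
      (by rw [Iv_change g hf h2, Iv_swap g hf, hI, mul_zero])
      (by rw [Jv_change g hf h2, Jv_swap g hf, hJ, mul_zero])
    refine ⟨_, _, hst, ?_, hr0, hr1, hr2⟩
    intro h
    obtain ⟨c0, c1⟩ := hind 1 (r * t) (fun i => by
      have := congrFun h i
      simp only [Pi.zero_apply] at this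
      linear_combination this)
    exact one_ne_zero c0
  · obtain ⟨r, hr0, hr1, hr2⟩ := exists_triple g hf (fun i => s * p i + t * q i) q hst
      (by rw [Iv_change g hf h2, hI, mul_zero])
      (by rw [Jv_change g hf h2, hJ, mul_zero])
    refine ⟨_, _, hst, ?_, hr0, hr1, hr2⟩
    intro h
    obtain ⟨c0, c1⟩ := hind (r * s) (1 + r * t) (fun i => by
      have := congrFun h i
      simp only [Pi.zero_apply] at this
      linear_combination this)
    have hr : r = 0 := (mul_eq_zero.1 c0).resolve_right hs0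
    rw [hr, zero_mul, add_zero] at c1
    exact one_ne_zero c1

end

end Pool.Agent.Helper26
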