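import Mathlib
import Pool.Agent.Helper26.QuLine
import Pool.Agent.Helper26.QuDefs
import Pool.Agent.Helper26.Krull

set_option autoImplicit false
set_option linter.unusedSectionVars false

/-!
# The generic restriction of a smooth quartic form to a line through a point is smooth
-/

universe u v

namespace Pool.Agent.Helper26

open MvPolynomial Finset

section

variable {k : Type u} [Field k] {n : ℕ}

lemma linear_prime {g : MvPolynomial (Fin n) k} (hg : g.IsHomogeneous 1) (h0 : g ≠ 0) :
    Prime g := by
  rw [← UniqueFactorizationMonoid.irreducible_iff_prime]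
  apply irreducible_of_totalDegree_eq_one (hg.totalDegree h0)
  intro x hx
  have hex : ∃ m, g.coeff m ≠ 0 := by
    by_contra hcon
    push Not at hcon
    exact h0 (MvPolynomial.ext _ _ fun m => by rw [hcon m, coeff_zero])
  obtain ⟨m, hm⟩ := hex
  exact isUnit_iff_ne_zero.2 fun hx0 => hm (zero_dvd_iff.1 (hx0 ▸ hx m))

/-- The polynomial in `q` whose value is the condition for the restriction to the line through
`p` and `q` to be smooth. -/
noncomputable def Jpol (f : MvPolynomial (Fin n) k) (p : Fin n → k) : MvPolynomial (Fin n) k :=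
  lc C f (fun j => C (p j)) X 4 * lc C f (fun j => C (p j)) X 1 ^ 2 +
    lc C f (fun j => C (p j)) X 3 * lc C f (fun j => C (p j)) X 1 *
      lc C f (fun j => C (p j)) X 2 +
    lc C f (fun j => C (p j)) X 3 ^ 2 * lc C f (fun j => C (p j)) X 0

lemma eval_lc (f : MvPolynomial (Fin n) k) (p q : Fin n → k) (i : ℕ) :
    eval q (lc C f (fun j => C (p j)) X i) = lc (RingHom.id k) f p q i := by
  have h := lc_map (C : k →+* MvPolynomial (Fin n) k) (eval q) f (fun j => C (p j)) X i
  rw [← h]
  have h1 : (eval q).comp C = RingHom.id k := by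
    ext x; simp
  rw [h1]
  congr 1
  · funext j; simp
  · funext j; simp

lemma eval_Jpol (f : MvPolynomial (Fin n) k) (p q : Fin n → k) :
    eval q (Jpol f p) =
      lc (RingHom.id k) f p q 4 * lc (RingHom.id k) f p q 1 ^ 2 +
      lc (RingHom.id k) f p q 3 * lc (RingHom.id k) f p q 1 * lc (RingHom.id k) f p q 2 +
      lc (RingHom.id k) f p q 3 ^ 2 * lc (RingHom.id k) f p q 0 := by
  simp only [Jpol, map_add, map_mul, map_pow, eval_lc]

lemma lc_two_zero (f : MvPolynomial (Fin n) k) (hf : f.IsHomogeneous 4) (p : Fin n → k) :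
    lc (RingHom.id k) f p 0 2 = 0 := by
  let h : k →+* Polynomial k := Polynomial.C
  have h1 := eval₂_line (h.comp (RingHom.id k)) hf (fun i => h (p i)) (fun i => h ((0 : Fin n → k) i))
    1 Polynomial.X
  have h2 : (fun i => h (p i) * 1 + h ((0 : Fin n → k) i) * (Polynomial.X : Polynomial k)) =
      fun i => h (p i) := by
    funext i
    rw [Pi.zero_apply, map_zero]; ring
  rw [h2] at h1
  simp only [lc_map] at h1
  have hcc : eval₂ (h.comp (RingHom.id k)) (fun i => h (p i)) f = h (eval₂ (RingHom.id k) p f) :=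
    (eval₂_comp_left h (RingHom.id k) p f).symm
  rw [hcc] at h1
  have h4 := congrArg (fun P : Polynomial k => P.coeff 2) h1
  simp only [h, one_pow, mul_one, one_mul, Polynomial.coeff_add, Polynomial.coeff_C_mul,
    Polynomial.coeff_X_pow, Polynomial.coeff_X, Polynomial.coeff_C] at h4
  simpa using h4.symm

theorem Jpol_ne_zero [CharP k 2] (hn : 3 ≤ n) {f : MvPolynomial (Fin n) k}
    (hf : f.IsHomogeneous 4) (hs : IsSmoothHyp f) (p : Fin n → k) (hp : eval p f ≠ 0)
    (hD : ∑ i, C (p i) * pderiv i f ≠ 0) : Jpol f p ≠ 0 := by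
  classical
  intro hJ
  set L : ℕ → MvPolynomial (Fin n) k := fun i => lc C f (fun j => C (p j)) X i with hL
  have h2 : (2 : MvPolynomial (Fin n) k) = 0 := by
    have h3 := congrArg (C : k → MvPolynomial (Fin n) k) (CharTwo.two_eq_zero (R := k))
    rwa [map_ofNat, map_zero] at h3
  have hL4 : L 4 = C (eval p f) := by
    rw [hL]
    show lc C f (fun j => C (p j)) X 4 = _
    rw [lc_four _ hf]
    have := eval₂_comp_left (C : k →+* MvPolynomial (Fin n) k) (RingHom.id k) p f
    exact this.symm
  have hL0 : L 0 = f := by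
    rw [hL]
    show lc C f (fun j => C (p j)) X 0 = _
    rw [lc_zero _ hf]
    exact eval₂_eta f
  have hL1 : L 1 = ∑ i, C (p i) * pderiv i f := by
    rw [hL]
    show lc C f (fun j => C (p j)) X 1 = _
    rw [lc_one _ hf]
    refine sum_congr rfl fun i _ => ?_
    rw [eval₂_eta]
  have hL3 : L 3 = ∑ i, C (eval p (pderiv i f)) * X i := by
    rw [hL]
    show lc C f (fun j => C (p j)) X 3 = _
    rw [lc_three _ hf]
    refine sum_congr rfl fun i _ => ?_
    have := eval₂_comp_left (C : k →+* MvPolynomial (Fin n) k) (RingHom.id k) p (pderiv i f)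
    rw [mul_comm]
    congr 1
    exact this.symm
  have hJ' : L 4 * L 1 ^ 2 + L 3 * L 1 * L 2 + L 3 ^ 2 * L 0 = 0 := hJ
  have hL1' : L 1 ≠ 0 := by rw [hL1]; exact hD
  have hL4' : L 4 ≠ 0 := by
    rw [hL4, Ne, C_eq_zero]; exact hp
  have hL3' : L 3 ≠ 0 := by
    intro h
    rw [h] at hJ'
    have : L 4 * L 1 ^ 2 = 0 := by linear_combination hJ'
    rcases mul_eq_zero.1 this with h3 | h3
    · exact hL4' h3
    · exact hL1' (pow_eq_zero_iff (by norm_num) |>.1 h3)
  have hhom3 : (L 3).IsHomogeneous 1 := by
    rw [hL3]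
    exact IsHomogeneous.sum _ _ _ fun i _ => isHomogeneous_C_mul_X _ _
  have hprime := linear_prime hhom3 hL3'
  have hdvd : L 3 ∣ L 1 := by
    have h3 : L 3 ∣ L 4 * L 1 ^ 2 := by
      refine ⟨L 1 * L 2 + L 3 * L 0, ?_⟩
      linear_combination hJ' - (L 3 * L 1 * L 2 + L 3 ^ 2 * L 0) * h2
    rcases hprime.dvd_or_dvd h3 with h4 | h4
    · exfalso
      rw [hL4] at h4
      have h5 : IsUnit (C (eval p f) : MvPolynomial (Fin n) k) :=
        (isUnit_iff_ne_zero.2 hp).map C
      exact hprime.not_unit (isUnit_of_dvd_unit h4 h5)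
    · exact hprime.dvd_of_dvd_pow h4
  obtain ⟨e, he⟩ := hdvd
  have hfe : f = e * (L 4 * e + L 2) := by
    have h3 : L 3 ^ 2 * (L 4 * e ^ 2 + e * L 2 + f) = 0 := by
      rw [← hL0]
      rw [he] at hJ'
      linear_combination hJ'
    have h4 : L 4 * e ^ 2 + e * L 2 + f = 0 :=
      (mul_eq_zero.1 h3).resolve_left (pow_ne_zero _ hL3')
    linear_combination h4 - (L 4 * e ^ 2 + e * L 2) * h2
  -- the factors vanish at the origin
  have hL2_0 : eval 0 (L 2) = 0 := by
    rw [hL, eval_lc]
    exact lc_two_zero f hf p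
  have he_0 : eval 0 e = 0 := by
    have hex : ∃ j, eval p (pderiv j f) ≠ 0 := by
      by_contra hcon
      push Not at hcon
      apply hL3'
      rw [hL3]
      exact sum_eq_zero fun i _ => by rw [hcon i, map_zero, zero_mul]
    obtain ⟨j, hj⟩ := hex
    have h3 := congrArg (fun P => eval 0 (pderiv j P)) he
    simp only [pderiv_mul, map_add, map_mul] at h3
    have h4 : eval 0 (pderiv j (L 1)) = 0 := by
      have hh : (L 1).IsHomogeneous 3 := by
        rw [hL1]
        refine IsHomogeneous.sum _ _ _ fun i _ => ?_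
        have := (hf.pderiv (i := i)).C_mul (p i)
        simpa using this
      have hh2 := hh.pderiv (i := j)
      rw [show (eval (0 : Fin n → k)) (pderiv j (L 1)) = constantCoeff (pderiv j (L 1)) from
        RingHom.congr_fun eval_zero _, constantCoeff_eq]
      exact hh2.coeff_eq_zero (by simp)
    have h5 : eval 0 (L 3) = 0 := by
      rw [hL3]
      simp
    have h6 : eval 0 (pderiv j (L 3)) = eval p (pderiv j f) := by
      rw [hL3]
      simp only [map_sum, pderiv_C_mul, pderiv_X]
      rw [sum_eq_single j]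
      · simp
      · intro b _ hb
        rw [Pi.single_eq_of_ne hb]
        simp
      · intro h; exact absurd (mem_univ j) h
    rw [h4, h5, h6, zero_mul, add_zero] at h3
    exact (mul_eq_zero.1 h3.symm).resolve_left hj
  -- a common zero
  set K := AlgebraicClosure k
  set h' := L 4 * e + L 2 with hh'
  have hz := exists_common_zero (K := K) (N := n)
    ({MvPolynomial.map (algebraMap k K) e, MvPolynomial.map (algebraMap k K) h'} : Finset _)
    (lt_of_le_of_lt Finset.card_le_two (by omega)) (by
      intro φ hφ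
      have h3 : ∀ ψ : MvPolynomial (Fin n) k, eval 0 ψ = 0 →
          eval (0 : Fin n → K) (MvPolynomial.map (algebraMap k K) ψ) = 0 := by
        intro ψ hψ
        rw [eval_map, show (0 : Fin n → K) = fun i => algebraMap k K ((0 : Fin n → k) i) by
          funext i; simp]
        have := eval₂_comp_left (algebraMap k K) (RingHom.id k) (0 : Fin n → k) ψ
        rw [show eval₂ (RingHom.id k) (0 : Fin n → k) ψ = eval 0 ψ from rfl, hψ, map_zero] at this
        exact this.symm
      rcases Finset.mem_insert.1 hφ with rfl | hφ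
      · exact h3 _ he_0
      · rw [Finset.mem_singleton.1 hφ]
        apply h3
        rw [hh', map_add, map_mul, he_0, hL2_0, mul_zero, add_zero])
  obtain ⟨z, hz0, hz⟩ := hz
  have hze : aeval z e = 0 := by
    have := hz _ (Finset.mem_insert_self _ _)
    rwa [eval_map] at this
  have hzh : aeval z h' = 0 := by
    have := hz _ (Finset.mem_insert_of_mem (Finset.mem_singleton_self _))
    rwa [eval_map] at this
  obtain ⟨i, hi⟩ := hs z hz0 (by rw [hfe, map_mul, hze, zero_mul])
  apply hi
  rw [hfe, pderiv_mul, map_add, map_mul, map_mul, hze, hzh, mul_zero, zero_mul, add_zero]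

end

end Pool.Agent.Helper26
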