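import Mathlib

set_option autoImplicit false

/-!
# Lines with triple contact
-/

universe u

namespace Pool.Agent.Helper26

open MvPolynomial

/-- Over an algebraic closure there are points `P` and `Q` with `f P ≠ 0` such that `Q` is a smooth
point of the hypersurface `f = 0` and the restriction of the quartic form `f` to the line through
`P` and `Q` is `s ^ 3 * (f P * s + b * t)`, so that this line meets `f = 0` in `Q` with
multiplicity at least three. -/
def HasTripleContact {n : ℕ} {k : Type u} [Field k] (f : MvPolynomial (Fin n) k) : Prop :=
  ∃ (P Q : Fin n → AlgebraicClosure k) (b : AlgebraicClosure k), aeval P f ≠ 0 ∧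
    (∃ i, aeval Q (pderiv i f) ≠ 0) ∧
    ∀ s t : AlgebraicClosure k,
      aeval (fun i => s * P i + t * Q i) f = s ^ 3 * (aeval P f * s + b * t)

/-- The point with coordinates `x` in the field `L` does not lie on the singular locus of the
hypersurface `f = 0`: the value of `f` or of some partial derivative of `f` at `x` is not zero. -/
def IsNonsingularAt {n : ℕ} {k L : Type*} [Field k] [Field L] (g : k →+* L)
    (f : MvPolynomial (Fin n) k) (x : Fin n → L) : Prop :=
  eval₂ g x f ≠ 0 ∨ ∃ i, eval₂ g x (pderiv i f) ≠ 0

end Pool.Agent.Helper26
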