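import Mathlib
import Pool.Agent.Helper26.QuJ
import Pool.Agent.Helper26.QuGeo
import Pool.Agent.Helper26.QuDual
import Pool.Agent.Helper26.QuTDefs

set_option autoImplicit false
set_option linter.unusedSectionVars false

/-!
# Consequences of triple contact
-/

universe u v

namespace Pool.Agent.Helper26

open MvPolynomial Finset

section

variable {k : Type u} [Field k] {n : ℕ}

lemma natDegree_eval₂_le {K : Type*} [Field K] (g : k →+* K) {σ : Type*} [Fintype σ]
    (φ : σ → Polynomial K)
    (hφ : ∀ i, (φ i).natDegree ≤ 1) (e : MvPolynomial σ k) :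
    (eval₂ (Polynomial.C.comp g) φ e).natDegree ≤ e.totalDegree := by
  classical
  rw [eval₂_eq']
  apply Polynomial.natDegree_sum_le_of_forall_le
  intro d hd
  refine (Polynomial.natDegree_C_mul_le _ _).trans ?_
  refine (Polynomial.natDegree_prod_le _ _).trans ?_
  have h1 : ∑ i, (φ i ^ d i).natDegree ≤ ∑ i, d i := by
    refine sum_le_sum fun i _ => ?_
    refine (Polynomial.natDegree_pow_le).trans ?_
    calc d i * (φ i).natDegree ≤ d i * 1 := Nat.mul_le_mul_left _ (hφ i)
      _ = d i := mul_one _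
  refine h1.trans ?_
  have h2 := le_totalDegree hd
  rwa [Finsupp.sum_fintype _ _ (fun _ => rfl)] at h2

/-- A form with a line of triple contact is not a product of two quadratic forms. -/
lemma HasTripleContact.ne_mul {f : MvPolynomial (Fin n) k} (hT : HasTripleContact f)
    {e h : MvPolynomial (Fin n) k} (he : e.totalDegree ≤ 2) (hh : h.totalDegree ≤ 2)
    (hf : f = e * h) : False := by
  obtain ⟨P, Q, b, hP, ⟨i, hi⟩, hline⟩ := hT
  set g : k →+* AlgebraicClosure k := algebraMap k (AlgebraicClosure k) with hg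
  have hinf : Infinite (AlgebraicClosure k) := IsAlgClosed.instInfinite
  set c : AlgebraicClosure k := aeval P f with hc
  set φ : Fin n → Polynomial (AlgebraicClosure k) :=
    fun i => Polynomial.C (P i) * Polynomial.X + Polynomial.C (Q i) with hφ
  have hφ1 : ∀ i, (φ i).natDegree ≤ 1 := fun i => Polynomial.natDegree_linear_le
  set ε := eval₂ (Polynomial.C.comp g) φ e with hε
  set η := eval₂ (Polynomial.C.comp g) φ h with hη
  have hεd : ε.natDegree ≤ 2 := (natDegree_eval₂_le g φ hφ1 e).trans he
  have hηd : η.natDegree ≤ 2 := (natDegree_eval₂_le g φ hφ1 h).trans hh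
  have hev : ∀ (p : MvPolynomial (Fin n) k) (s : AlgebraicClosure k),
      (eval₂ (Polynomial.C.comp g) φ p).eval s = aeval (fun i => s * P i + 1 * Q i) p := by
    intro p s
    have h1 := eval₂_comp_left (Polynomial.evalRingHom s) (Polynomial.C.comp g) φ p
    have h2 : (Polynomial.evalRingHom s).comp (Polynomial.C.comp g) = g := by
      ext x; simp
    rw [h2] at h1
    have h3 : (⇑(Polynomial.evalRingHom s) ∘ φ) = fun i => s * P i + 1 * Q i := by
      funext j
      simp only [hφ, Function.comp_apply]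
      change Polynomial.eval s (Polynomial.C (P j) * Polynomial.X + Polynomial.C (Q j)) = _
      rw [Polynomial.eval_add, Polynomial.eval_mul, Polynomial.eval_C, Polynomial.eval_C,
        Polynomial.eval_X]
      ring
    rw [h3] at h1
    exact h1
  have hprod : ε * η = Polynomial.X ^ 3 * (Polynomial.C c * Polynomial.X +
      Polynomial.C b) := by
    apply Polynomial.funext
    intro s
    rw [Polynomial.eval_mul, hev, hev, ← map_mul, ← hf, hline]
    simp only [Polynomial.eval_add, Polynomial.eval_mul, Polynomial.eval_C, Polynomial.eval_pow,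
      Polynomial.eval_X, mul_one]
  have hne : ε * η ≠ 0 := by
    rw [hprod]
    refine mul_ne_zero (pow_ne_zero _ Polynomial.X_ne_zero) ?_
    intro h0
    have h1 := congrArg (fun p : Polynomial (AlgebraicClosure k) => p.coeff 1) h0
    simp only [Polynomial.coeff_add, Polynomial.coeff_C_mul, Polynomial.coeff_X_one, mul_one,
      Polynomial.coeff_C_succ, add_zero, Polynomial.coeff_zero] at h1
    exact hP h1
  have hQ : aeval Q f = 0 := by
    have := hline 0 1
    simp only [zero_mul, one_mul, zero_add, ne_eq, OfNat.ofNat_ne_zero, not_false_eq_true,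
      zero_pow] at this
    exact this
  have hQ' : (fun i => (0 : AlgebraicClosure k) * P i + 1 * Q i) = Q := by
    funext j; ring
  have hε0 : ε.eval 0 = aeval Q e := by
    rw [hev, hQ']
  have hη0 : η.eval 0 = aeval Q h := by
    rw [hev, hQ']
  have hkey : ∀ α β : Polynomial (AlgebraicClosure k), α.natDegree ≤ 2 →
      α * β = Polynomial.X ^ 3 * (Polynomial.C c * Polynomial.X + Polynomial.C b) →
      α * β ≠ 0 → β.eval 0 ≠ 0 → False := by
    intro α β hα hαβ h0 hβ
    have h1 : (Polynomial.X : Polynomial (AlgebraicClosure k)) ^ 3 ∣ α * β := ⟨_, hαβ⟩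
    have h2 : ¬ (Polynomial.X : Polynomial (AlgebraicClosure k)) ∣ β := by
      rw [Polynomial.X_dvd_iff, Polynomial.coeff_zero_eq_eval_zero]
      exact hβ
    have h3 : (Polynomial.X : Polynomial (AlgebraicClosure k)) ^ 3 ∣ α :=
      Polynomial.prime_X.pow_dvd_of_dvd_mul_right 3 h2 h1
    have hα0 : α ≠ 0 := left_ne_zero_of_mul h0
    have h4 := Polynomial.natDegree_le_of_dvd h3 hα0
    rw [Polynomial.natDegree_X_pow] at h4
    omega
  have hi' : aeval Q (pderiv i e) * aeval Q h + aeval Q e * aeval Q (pderiv i h) ≠ 0 := by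
    rw [hf, pderiv_mul, map_add, map_mul, map_mul] at hi
    exact hi
  by_cases h0 : aeval Q h = 0
  · have h1 : aeval Q e ≠ 0 := by
      intro h1
      apply hi'
      rw [h0, h1, mul_zero, zero_mul, add_zero]
    refine hkey η ε hηd (by rw [mul_comm]; exact hprod) (by rw [mul_comm]; exact hne) ?_
    rw [hε0]; exact h1
  · refine hkey ε η hεd hprod hne ?_
    rw [hη0]; exact h0

theorem Jpol_ne_zero_of_triple [CharP k 2] {f : MvPolynomial (Fin n) k}
    (hf : f.IsHomogeneous 4) (hT : HasTripleContact f) (p : Fin n → k) (hp : eval p f ≠ 0)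
    (hD : ∑ i, C (p i) * pderiv i f ≠ 0) : Jpol f p ≠ 0 := by
  classical
  intro hJ
  set L : ℕ → MvPolynomial (Fin n) k := fun i => lc C f (fun j => C (p j)) X i with hL
  have h2 : (2 : MvPolynomial (Fin n) k) = 0 := by
    have h3 := congrArg (C : k → MvPolynomial (Fin n) k) (CharTwo.two_eq_zero (R := k))
    rwa [map_ofNat, map_zero] at h3
  have hL4 : L 4 = C (eval p f) := by
    rw [hL]
    show lc C f (fun j => C (p j)) X 4 = _
    rw [lc_four _ hf]
    have := eval₂_comp_left (C : k →+* MvPolynomial (Fin n) k) (RingHom.id k) p f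
    exact this.symm
  have hL0 : L 0 = f := by
    rw [hL]
    show lc C f (fun j => C (p j)) X 0 = _
    rw [lc_zero _ hf]
    exact eval₂_eta f
  have hL1 : L 1 = ∑ i, C (p i) * pderiv i f := by
    rw [hL]
    show lc C f (fun j => C (p j)) X 1 = _
    rw [lc_one _ hf]
    refine sum_congr rfl fun i _ => ?_
    rw [eval₂_eta]
  have hL3 : L 3 = ∑ i, C (eval p (pderiv i f)) * X i := by
    rw [hL]
    show lc C f (fun j => C (p j)) X 3 = _
    rw [lc_three _ hf]
    refine sum_congr rfl fun i _ => ?_
    have := eval₂_comp_left (C : k →+* MvPolynomial (Fin n) k) (RingHom.id k) p (pderiv i f)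
    rw [mul_comm]
    congr 1
    exact this.symm
  have hJ' : L 4 * L 1 ^ 2 + L 3 * L 1 * L 2 + L 3 ^ 2 * L 0 = 0 := hJ
  have hL1' : L 1 ≠ 0 := by rw [hL1]; exact hD
  have hL4' : L 4 ≠ 0 := by
    rw [hL4, Ne, C_eq_zero]; exact hp
  have hL3' : L 3 ≠ 0 := by
    intro h
    rw [h] at hJ'
    have : L 4 * L 1 ^ 2 = 0 := by linear_combination hJ'
    rcases mul_eq_zero.1 this with h3 | h3
    · exact hL4' h3
    · exact hL1' (pow_eq_zero_iff (by norm_num) |>.1 h3)
  have hhom3 : (L 3).IsHomogeneous 1 := by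
    rw [hL3]
    exact IsHomogeneous.sum _ _ _ fun i _ => isHomogeneous_C_mul_X _ _
  have hhom1 : (L 1).IsHomogeneous 3 := by
    rw [hL1]
    refine IsHomogeneous.sum _ _ _ fun i _ => ?_
    have := (hf.pderiv (i := i)).C_mul (p i)
    simpa using this
  have hprime := linear_prime hhom3 hL3'
  have hdvd : L 3 ∣ L 1 := by
    have h3 : L 3 ∣ L 4 * L 1 ^ 2 := by
      refine ⟨L 1 * L 2 + L 3 * L 0, ?_⟩
      linear_combination hJ' - (L 3 * L 1 * L 2 + L 3 ^ 2 * L 0) * h2
    rcases hprime.dvd_or_dvd h3 with h4 | h4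
    · exfalso
      rw [hL4] at h4
      have h5 : IsUnit (C (eval p f) : MvPolynomial (Fin n) k) :=
        (isUnit_iff_ne_zero.2 hp).map C
      exact hprime.not_unit (isUnit_of_dvd_unit h4 h5)
    · exact hprime.dvd_of_dvd_pow h4
  obtain ⟨e, he⟩ := hdvd
  have hfe : f = e * (L 4 * e + L 2) := by
    have h3 : L 3 ^ 2 * (L 4 * e ^ 2 + e * L 2 + f) = 0 := by
      rw [← hL0]
      rw [he] at hJ'
      linear_combination hJ'
    have h4 : L 4 * e ^ 2 + e * L 2 + f = 0 :=
      (mul_eq_zero.1 h3).resolve_left (pow_ne_zero _ hL3')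
    linear_combination h4 - (L 4 * e ^ 2 + e * L 2) * h2
  have hf0 : f ≠ 0 := by
    rintro rfl
    rw [map_zero] at hp
    exact hp rfl
  have he0 : e ≠ 0 := by
    rintro rfl
    rw [mul_zero] at he
    exact hL1' he
  have hed : e.totalDegree = 2 := by
    have h3 := congrArg totalDegree he
    rw [totalDegree_mul_of_isDomain hL3' he0, hhom1.totalDegree hL1', hhom3.totalDegree hL3'] at h3
    omega
  have hh0 : L 4 * e + L 2 ≠ 0 := by
    intro h
    rw [h, mul_zero] at hfe
    exact hf0 hfe
  have hhd : (L 4 * e + L 2).totalDegree = 2 := by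
    have h3 := congrArg totalDegree hfe
    rw [totalDegree_mul_of_isDomain he0 hh0, hf.totalDegree hf0, hed] at h3
    omega
  exact hT.ne_mul hed.le hhd.le hfe

/-- The lines provided by the geometric lemmas. -/
lemma HasTripleContact.lc_eq {f : MvPolynomial (Fin n) k} (hf : f.IsHomogeneous 4)
    (hT : HasTripleContact f) : ∃ (P Q : Fin n → AlgebraicClosure k), aeval P f ≠ 0 ∧
      aeval Q f = 0 ∧ lc (algebraMap k (AlgebraicClosure k)) f P Q 1 = 0 ∧
      lc (algebraMap k (AlgebraicClosure k)) f P Q 2 = 0 ∧ ∃ i, aeval Q (pderiv i f) ≠ 0 := by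
  obtain ⟨P, Q, b, hP, hi, hline⟩ := hT
  have hinf : Infinite (AlgebraicClosure k) := IsAlgClosed.instInfinite
  set g := algebraMap k (AlgebraicClosure k) with hg
  have hQ : aeval Q f = 0 := by
    have := hline 0 1
    simp only [zero_mul, one_mul, zero_add, ne_eq, OfNat.ofNat_ne_zero, not_false_eq_true,
      zero_pow] at this
    exact this
  have h1 : (Polynomial.C (lc g f P Q 4) * Polynomial.X ^ 4 +
      Polynomial.C (lc g f P Q 3) * Polynomial.X ^ 3 +
      Polynomial.C (lc g f P Q 2) * Polynomial.X ^ 2 +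
      Polynomial.C (lc g f P Q 1) * Polynomial.X + Polynomial.C (lc g f P Q 0) :
        Polynomial (AlgebraicClosure k)) =
      Polynomial.C (aeval P f) * Polynomial.X ^ 4 + Polynomial.C b * Polynomial.X ^ 3 +
      Polynomial.C 0 * Polynomial.X ^ 2 + Polynomial.C 0 * Polynomial.X + Polynomial.C 0 := by
    apply Polynomial.funext
    intro s
    have h2 := eval₂_line g hf P Q s 1
    have h3 : (fun i => P i * s + Q i * 1) = fun i => s * P i + 1 * Q i := by
      funext i; ring
    rw [h3] at h2
    have h4 : eval₂ g (fun i => s * P i + 1 * Q i) f = s ^ 3 * (aeval P f * s + b * 1) :=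
      hline s 1
    rw [h4] at h2
    simp only [Polynomial.eval_add, Polynomial.eval_mul, Polynomial.eval_C, Polynomial.eval_pow,
      Polynomial.eval_X]
    linear_combination -h2
  obtain ⟨-, -, e2, e1, -⟩ := quartic_inj' h1
  exact ⟨P, Q, hP, hQ, e1, e2, hi⟩

lemma hasTripleContact_of_lc {f : MvPolynomial (Fin n) k} (hf : f.IsHomogeneous 4)
    (P Q : Fin n → AlgebraicClosure k) (hP : aeval P f ≠ 0) (hQ : aeval Q f = 0)
    (h1 : lc (algebraMap k (AlgebraicClosure k)) f P Q 1 = 0)
    (h2 : lc (algebraMap k (AlgebraicClosure k)) f P Q 2 = 0)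
    (hi : ∃ i, aeval Q (pderiv i f) ≠ 0) : HasTripleContact f := by
  refine ⟨P, Q, lc (algebraMap k (AlgebraicClosure k)) f P Q 3, hP, hi, fun s t => ?_⟩
  have h3 := eval₂_line (algebraMap k (AlgebraicClosure k)) hf P Q s t
  have h4 : (fun i => P i * s + Q i * t) = fun i => s * P i + t * Q i := by
    funext i; ring
  rw [h4, h1, h2, lc_four _ hf, lc_zero _ hf] at h3
  have h5 : aeval (fun i => s * P i + t * Q i) f =
    eval₂ (algebraMap k (AlgebraicClosure k)) (fun i => s * P i + t * Q i) f := rfl
  have h6 : eval₂ (algebraMap k (AlgebraicClosure k)) Q f = 0 := hQ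
  have h7 : eval₂ (algebraMap k (AlgebraicClosure k)) P f = aeval P f := rfl
  rw [h5, h3, h6, h7]
  ring

/-- Smooth quartic hypersurfaces of positive dimension have lines with triple contact. -/
theorem IsSmoothHyp.hasTripleContact [CharP k 2] [Infinite k] (hn : 3 ≤ n)
    {f : MvPolynomial (Fin n) k} (hf : f.IsHomogeneous 4) (hs : IsSmoothHyp f) :
    HasTripleContact f := by
  have hch : CharP (AlgebraicClosure k) 2 :=
    charP_of_injective_algebraMap (algebraMap k (AlgebraicClosure k)).injective 2
  set K := AlgebraicClosure k with hK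
  set g : k →+* K := algebraMap k K with hg
  rcases Nat.lt_or_ge 3 n with h4 | h4
  · have hf0 : f ≠ 0 := by
      rintro rfl
      obtain ⟨i, hi⟩ := hs (Pi.single ⟨0, by omega⟩ 1) (by
        intro h
        have := congrFun h ⟨0, by omega⟩
        simp at this) (map_zero _)
      rw [map_zero, map_zero] at hi
      exact hi rfl
    have hex : ∃ p : Fin n → k, eval p f ≠ 0 := by
      by_contra hcon
      push Not at hcon
      apply hf0
      apply MvPolynomial.funext
      intro x
      rw [hcon x, map_zero]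
    obtain ⟨p, hp⟩ := hex
    have hP : eval₂ g (fun i => g (p i)) f ≠ 0 := by
      have h5 : eval₂ g (fun i => g (p i)) f = g (eval p f) :=
        (eval₂_comp_left g (RingHom.id k) p f).symm
      rw [h5, Ne, map_eq_zero]
      exact hp
    obtain ⟨Q, hQ0, hQ, h1, h2⟩ := exists_triple_line_ge g hf h4 (fun i => g (p i)) hP
    exact hasTripleContact_of_lc hf _ Q hP hQ h1 h2 (hs Q hQ0 hQ)
  · obtain rfl : n = 3 := le_antisymm h4 hn
    obtain ⟨P, Q, hP, hQ0, hQ, h1, h2⟩ := exists_triple_line_three g hf hs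
    exact hasTripleContact_of_lc hf P Q hP hQ h1 h2 (hs Q hQ0 hQ)

end

end Pool.Agent.Helper26
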