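import Mathlib
import Pool.Agent.Helper26.QuTriple
import Pool.Agent.Helper26.QuAux
import Pool.Agent.Helper26.QuLoc
import Pool.Agent.Helper26.ChFinal2

set_option autoImplicit false
set_option linter.unusedSectionVars false

/-!
# The Hasse principle for conic bundles with smooth quartic discriminant, given a line with triple
contact
-/

universe u v

namespace Pool.Agent.Helper26

open MvPolynomial Finset Pool.Agent.Helper31.Fam

section

variable {k : Type u} [Field k] [CharP k 2] {n : ℕ}

lemma char_four : (4 : k) = 0 := by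
  have h := CharTwo.two_eq_zero (R := k)
  linear_combination 2 * h

/-- Euler's identity. -/
lemma euler_four {f : MvPolynomial (Fin n) k} (hf : f.IsHomogeneous 4) (x : Fin n → k) :
    ∑ i, x i * eval x (pderiv i f) = 0 := by
  have h := congrArg (eval x) hf.sum_X_mul_pderiv
  rw [map_sum] at h
  simp only [map_mul, eval_X] at h
  rw [h, map_nsmul, nsmul_eq_mul]
  push_cast
  rw [char_four, zero_mul]

/-- The line through `p` and `q` meets the hypersurface in nonsingular points. -/
lemma nonsing_of_Jpol {f : MvPolynomial (Fin n) k} (hf : f.IsHomogeneous 4) (p q : Fin n → k)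
    (hp : eval p f ≠ 0) (hJ : eval q (Jpol f p) ≠ 0) (s t : k) (hst : s ≠ 0 ∨ t ≠ 0) :
    IsNonsingularAt (RingHom.id k) f (fun i => s * p i + t * q i) := by
  by_contra hcon
  rw [IsNonsingularAt, not_or, not_not, not_exists] at hcon
  obtain ⟨h0, h1⟩ := hcon
  have h2 := CharTwo.two_eq_zero (R := k)
  have hsw : (fun i => s * p i + t * q i) = fun i => t * q i + s * p i := by
    funext i; ring
  have hc1 : lc (RingHom.id k) f p (fun i => t * q i + s * p i) 1 = 0 := by
    rw [lc_one _ hf]
    refine sum_eq_zero fun i _ => ?_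
    have := h1 i
    rw [hsw] at this
    rw [not_not.1 this, mul_zero]
  have hc0 : lc (RingHom.id k) f p (fun i => t * q i + s * p i) 0 = 0 := by
    rw [lc_zero _ hf, ← hsw]
    exact h0
  by_cases ht : t = 0
  · have hs : s ≠ 0 := hst.resolve_right (fun h => h ht)
    obtain ⟨e4, -⟩ := lc_change (RingHom.id k) hf h2 q p t s
    have h3 := lc_swap (RingHom.id k) hf p (fun i => t * q i + s * p i)
    rw [h3.1, hc0] at e4
    obtain ⟨z4, z3, z2, z1, z0⟩ := lc_swap (RingHom.id k) hf p q
    rw [z4, z3, z2, z1, z0, ht, lc_four _ hf] at e4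
    apply hp
    have h4 : eval₂ (RingHom.id k) p f * s ^ 4 = 0 := by linear_combination -e4
    exact (mul_eq_zero.1 h4).resolve_right (pow_ne_zero _ hs)
  · have h3 : Jv (RingHom.id k) f p (fun i => t * q i + s * p i) =
        t ^ 6 * Jv (RingHom.id k) f p q := by
      rw [← Jv_swap _ hf, Jv_change _ hf h2 q p t s, Jv_swap _ hf]
    rw [Jv, hc1, hc0] at h3
    have h4 : Jv (RingHom.id k) f p q = 0 := by
      have : t ^ 6 * Jv (RingHom.id k) f p q = 0 := by linear_combination -h3
      exact (mul_eq_zero.1 this).resolve_left (pow_ne_zero _ ht)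
    apply hJ
    rw [eval_Jpol]
    exact h4

end

/-- The Hasse principle for `y ^ 2 + y * z + a * z ^ 2 = f(x)` for quartic forms `f` with a line
of triple contact. -/
theorem quartic_hp {k : Type u} [Field k] [Algebra (RatFunc (ZMod 2)) k]
    [FiniteDimensional (RatFunc (ZMod 2)) k] {n : ℕ} (a : k)
    (f : MvPolynomial (Fin n) k) (hf : f.IsHomogeneous 4) (hT : HasTripleContact f)
    (hx : ∀ V : ValuationSubring k, V ≠ ⊤ → ∃ x : Fin n → V.valuation.Completion,
      IsNonsingularAt (toCompletion V) f x ∧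
      IsNormValue (toCompletion V a) (eval₂ (toCompletion V) x f)) :
    ∃ y : Fin n → k, IsNonsingularAt (RingHom.id k) f y ∧ IsNormValue a (eval y f) := by
  classical
  have _ : Infinite k := infinite_of_algebra k
  obtain ⟨φ, hφ⟩ := exists_goodEmb (ZMod 2) k
  have hchk : CharP k 2 := charP_of_injective_algebraMap
    (algebraMap (RatFunc (ZMod 2)) k).injective 2
  obtain ⟨P, Q, hP, hQ, h1, h2, i₀, hi₀⟩ := hT.lc_eq hf
  obtain ⟨V₁, p₁, q₁, ρ₁, hV₁, hρ₁, hρ₁V, hV₁c⟩ :=
    hφ.exists_aux_place hf P Q hP hQ h1 h2 i₀ hi₀ a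
  have hd0 : pderiv i₀ f ≠ 0 := by
    intro h
    rw [h, map_zero] at hi₀
    exact hi₀ rfl
  -- the point `p`
  have hp : ∃ p : Fin n → k, (∀ i, (p i - p₁ i) / ρ₁ ∈ V₁) ∧ ∑ i, C (p i) * pderiv i f ≠ 0 := by
    by_cases h0 : ∑ i, C (p₁ i) * pderiv i f = 0
    · refine ⟨fun i => p₁ i + ρ₁ * (Pi.single i₀ (1 : k) : Fin n → k) i, fun i => ?_, ?_⟩
      · rw [add_sub_cancel_left, mul_comm, mul_div_assoc, div_self hρ₁, mul_one]
        by_cases hii : i = i₀
        · subst hii; rw [Pi.single_eq_same]; exact V₁.one_mem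
        · rw [Pi.single_eq_of_ne hii]; exact V₁.zero_mem
      · have : ∑ i, C (p₁ i + ρ₁ * (Pi.single i₀ (1 : k) : Fin n → k) i) * pderiv i f =
            C ρ₁ * pderiv i₀ f := by
          have h3 : ∀ i, C (p₁ i + ρ₁ * (Pi.single i₀ (1 : k) : Fin n → k) i) * pderiv i f =
              C (p₁ i) * pderiv i f + C ρ₁ * (C ((Pi.single i₀ (1 : k) : Fin n → k) i) *
                pderiv i f) := by
            intro i
            rw [map_add, map_mul]; ring
          rw [sum_congr rfl fun i _ => h3 i, sum_add_distrib, h0, zero_add, ← mul_sum]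
          congr 1
          rw [sum_eq_single i₀]
          · rw [Pi.single_eq_same, map_one, one_mul]
          · intro b _ hb
            rw [Pi.single_eq_of_ne hb, map_zero, zero_mul]
          · intro h; exact absurd (mem_univ i₀) h
        rw [this]
        refine mul_ne_zero ?_ hd0
        rw [Ne, C_eq_zero]
        exact hρ₁
    · exact ⟨p₁, fun i => by rw [sub_self, zero_div]; exact V₁.zero_mem, h0⟩
  obtain ⟨p, hp1, hpD⟩ := hp
  have hself : ∀ i, (q₁ i - q₁ i) / ρ₁ ∈ V₁ := fun i => by
    rw [sub_self, zero_div]; exact V₁.zero_mem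
  obtain ⟨hfp, hNW₁, -⟩ := hV₁c p q₁ hp1 hself
  have hJ := Jpol_ne_zero_of_triple hf hT p hfp hpD
  -- the bad places of `f p`
  obtain ⟨hTfin, -⟩ := hφ.norm_parity (a := a) hfp
  set T : Set (ValuationSubring k) := {V | V ≠ ⊤ ∧ ¬ NW V a (eval p f)} with hT
  have hV₁T : V₁ ∉ T := fun h => h.2 hNW₁
  -- local data
  have hloc : ∀ V : ValuationSubring k, ∃ (y : Fin n → k) (ρ : k), ρ ≠ 0 ∧ (V ≠ ⊤ →
      ∀ q : Fin n → k, (∀ i, (q i - y i) / ρ ∈ V) → eval q f ≠ 0 ∧ NW V a (eval q f)) := by
    intro V
    by_cases hV : V = ⊤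
    · exact ⟨0, 1, one_ne_zero, fun h => absurd hV h⟩
    · obtain ⟨xV, hx0, hxN⟩ := hx V hV
      rw [← isNf_iff_isNormValue] at hxN
      have hmove : ∃ x' : Fin n → V.valuation.Completion, eval₂ (toCompletion V) x' f ≠ 0 ∧
          IsNf (toCompletion V a) (eval₂ (toCompletion V) x' f) := by
        by_cases h0 : eval₂ (toCompletion V) xV f = 0
        · obtain ⟨i, hi⟩ := hx0.resolve_left (fun h => h h0)
          exact (compEmb V).move_smooth (hφ.rankOne hV) hV a f xV h0 i hi
        · exact ⟨xV, h0, hxN⟩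
      obtain ⟨x', hx', hx'N⟩ := hmove
      obtain ⟨y, ρ, hρ, hy⟩ := (compEmb V).good_ball hφ hV a f x' hx' hx'N
      exact ⟨y, ρ, hρ, fun _ => hy⟩
  choose Y R hR hY using hloc
  -- weak approximation
  set S : Finset (ValuationSubring k) := insert V₁ hTfin.toFinset with hS
  have hSr : ∀ V ∈ S, IsRankOne V ∧ V ≠ ⊤ := by
    intro V hV
    rcases mem_insert.1 hV with rfl | hV
    · exact ⟨hφ.rankOne hV₁, hV₁⟩
    · have := (hTfin.mem_toFinset.1 hV).1
      exact ⟨hφ.rankOne this, this⟩
  set Y' : Fin n → ValuationSubring k → k := fun i V => if V = V₁ then q₁ i else Y V i with hY'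
  set R' : ValuationSubring k → k := fun V => if V = V₁ then ρ₁ else R V with hR'
  have hR'0 : ∀ V ∈ S, R' V ≠ 0 := by
    intro V _
    simp only [hR']
    split_ifs
    · exact hρ₁
    · exact hR V
  have hinf : ∀ i, {z : k | ∀ V ∈ S, (z - Y' i V) / R' V ∈ V}.Infinite := fun i =>
    infinite_near S hSr ⟨V₁, mem_insert_self _ _⟩ (Y' i) R' hR'0
  have hq : ∃ q : Fin n → k, (∀ i, ∀ V ∈ S, (q i - Y' i V) / R' V ∈ V) ∧
      eval q (Jpol f p) ≠ 0 := by
    by_contra hcon
    push Not at hcon
    apply hJ
    refine funext_set (fun i => {z : k | ∀ V ∈ S, (z - Y' i V) / R' V ∈ V}) hinf ?_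
    intro q hq
    rw [map_zero]
    exact hcon q fun i => hq i (Set.mem_univ i)
  obtain ⟨q, hqS, hqJ⟩ := hq
  have hq₁' : ∀ i, (q i - q₁ i) / ρ₁ ∈ V₁ := by
    intro i
    have := hqS i V₁ (mem_insert_self _ _)
    simpa [hY', hR'] using this
  have hqT : ∀ V ∈ T, eval q f ≠ 0 ∧ NW V a (eval q f) := by
    intro V hV
    have hne : V ≠ V₁ := fun h => hV₁T (h ▸ hV)
    refine hY V hV.1 q fun i => ?_
    have := hqS i V (mem_insert_of_mem (hTfin.mem_toFinset.2 hV))
    simpa [hY', hR', hne] using this
  obtain ⟨-, -, hnf⟩ := hV₁c p q hp1 hq₁'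
  -- the binary form
  set c : ℕ → k := lc (RingHom.id k) f p q with hc
  have hc4 : c 4 = eval p f := lc_four _ hf p q
  have hc0 : c 0 = eval q f := lc_zero _ hf p q
  have hsm : IsSmoothForm (binForm c) := by
    apply isSmoothForm_binForm c
    · rw [hc4]; exact hfp
    · rw [← eval_Jpol]; exact hqJ
  obtain ⟨w, hw0, hwN⟩ := chatelet_bm a (binForm c) (binForm_isHomogeneous c) hsm
    (fun V => if V ∈ T then ![0, 1] else ![1, 0]) (by
      intro V hV
      by_cases hVT : V ∈ T
      · rw [if_pos hVT]
        refine ⟨?_, ?_⟩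
        · intro h
          have := congrFun h 1
          simp at this
        · rw [← isNf_iff_isNormValue, eval₂_binForm]
          have : toCompletion V (c 4) * (![0, 1] : Fin 2 → V.valuation.Completion) 0 ^ 4 +
              toCompletion V (c 3) * ((![0, 1] : Fin 2 → V.valuation.Completion) 0 ^ 3 *
                (![0, 1] : Fin 2 → V.valuation.Completion) 1) +
              toCompletion V (c 2) * ((![0, 1] : Fin 2 → V.valuation.Completion) 0 ^ 2 *
                (![0, 1] : Fin 2 → V.valuation.Completion) 1 ^ 2) +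
              toCompletion V (c 1) * ((![0, 1] : Fin 2 → V.valuation.Completion) 0 *
                (![0, 1] : Fin 2 → V.valuation.Completion) 1 ^ 3) +
              toCompletion V (c 0) * (![0, 1] : Fin 2 → V.valuation.Completion) 1 ^ 4 =
              toCompletion V (eval q f) := by
            rw [hc0]; simp
          rw [this]
          exact ((compEmb V).isNf_iff hφ hV (hqT V hVT).1).2 (hqT V hVT).2
      · rw [if_neg hVT]
        refine ⟨?_, ?_⟩
        · intro h
          have := congrFun h 0
          simp at this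
        · rw [← isNf_iff_isNormValue, eval₂_binForm]
          have : toCompletion V (c 4) * (![1, 0] : Fin 2 → V.valuation.Completion) 0 ^ 4 +
              toCompletion V (c 3) * ((![1, 0] : Fin 2 → V.valuation.Completion) 0 ^ 3 *
                (![1, 0] : Fin 2 → V.valuation.Completion) 1) +
              toCompletion V (c 2) * ((![1, 0] : Fin 2 → V.valuation.Completion) 0 ^ 2 *
                (![1, 0] : Fin 2 → V.valuation.Completion) 1 ^ 2) +
              toCompletion V (c 1) * ((![1, 0] : Fin 2 → V.valuation.Completion) 0 *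
                (![1, 0] : Fin 2 → V.valuation.Completion) 1 ^ 3) +
              toCompletion V (c 0) * (![1, 0] : Fin 2 → V.valuation.Completion) 1 ^ 4 =
              toCompletion V (eval p f) := by
            rw [hc4]; simp
          rw [this]
          refine ((compEmb V).isNf_iff hφ hV hfp).2 ?_
          by_contra hcon
          exact hVT ⟨hV, hcon⟩)
    (fun g h hg hh hgh => absurd hgh (hnf g h hg hh))
  refine ⟨fun i => w 0 * p i + w 1 * q i, ?_, ?_⟩
  · apply nonsing_of_Jpol hf p q hfp hqJ
    by_contra hcon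
    push Not at hcon
    apply hw0
    funext j
    fin_cases j
    · exact hcon.1
    · exact hcon.2
  · have h3 : eval w (binForm c) = eval (fun i => w 0 * p i + w 1 * q i) f := by
      have h4 := eval₂_binForm (RingHom.id k) c w
      have h5 := eval₂_line (RingHom.id k) hf p q (w 0) (w 1)
      have h6 : eval w (binForm c) = eval₂ (RingHom.id k) w (binForm c) := rfl
      have h8 : (fun i => w 0 * p i + w 1 * q i) = fun i => p i * w 0 + q i * w 1 := by
        funext i
        ring
      have h7 : eval (fun i => w 0 * p i + w 1 * q i) f =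
          eval₂ (RingHom.id k) (fun i => p i * w 0 + q i * w 1) f := by
        rw [h8]; rfl
      rw [h6, h7, h4, h5]
      rfl
    rw [← h3]
    exact hwN

/-- The Hasse principle for smooth conic bundles with quartic discriminant over projective
spaces. -/
theorem quartic_hp_smooth {k : Type u} [Field k] [Algebra (RatFunc (ZMod 2)) k]
    [FiniteDimensional (RatFunc (ZMod 2)) k] {n : ℕ} (hn : 3 ≤ n) (a : k)
    (f : MvPolynomial (Fin n) k) (hf : f.IsHomogeneous 4) (hs : IsSmoothHyp f)
    (hx : ∀ V : ValuationSubring k, V ≠ ⊤ → ∃ x : Fin n → V.valuation.Completion, x ≠ 0 ∧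
      IsNormValue (toCompletion V a) (eval₂ (toCompletion V) x f)) :
    ∃ y : Fin n → k, y ≠ 0 ∧ IsNormValue a (eval y f) := by
  have _ : Infinite k := infinite_of_algebra k
  have hchk : CharP k 2 := charP_of_injective_algebraMap
    (algebraMap (RatFunc (ZMod 2)) k).injective 2
  obtain ⟨y, hy, hyN⟩ := quartic_hp a f hf (hs.hasTripleContact hn hf) (fun V hV => by
    obtain ⟨x, hx0, hxN⟩ := hx V hV
    refine ⟨x, ?_, hxN⟩
    by_cases h0 : eval₂ (toCompletion V) x f = 0
    · exact Or.inr (hs.transfer (toCompletion V) x hx0 h0)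
    · exact Or.inl h0)
  refine ⟨y, ?_, hyN⟩
  rintro rfl
  have hzero : ∀ (g : MvPolynomial (Fin n) k) (d : ℕ), g.IsHomogeneous d → d ≠ 0 →
      eval₂ (RingHom.id k) (0 : Fin n → k) g = 0 := by
    intro g d hg hd
    change eval (0 : Fin n → k) g = 0
    rw [show (eval (0 : Fin n → k)) g = constantCoeff g from
          RingHom.congr_fun eval_zero _, constantCoeff_eq]
    exact hg.coeff_eq_zero (by simpa using hd.symm)
  rcases hy with hy | ⟨i, hi⟩
  · exact hy (hzero f 4 hf (by norm_num))
  · exact hi (hzero _ 3 (hf.pderiv (i := i)) (by norm_num))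

end Pool.Agent.Helper26
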