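import Mathlib
import Pool.Agent.Helper26.QF

set_option autoImplicit false
set_option linter.unusedSectionVars false

/-!
# Systems of quadratic forms in many variables over a global function field
-/

universe u v

namespace Pool.Agent.Helper26

open Finset

section

variable {F : Type u} [Field F] [Finite F]

/-- Systems of quadratic forms over a polynomial ring. -/
theorem exists_zero_poly {ι κ : Type*} [Fintype ι] [Fintype κ]
    (g : κ → ι → ι → Polynomial F) (h : 4 * Fintype.card κ < Fintype.card ι) :
    ∃ x : ι → Polynomial F, x ≠ 0 ∧ ∀ l, qf (g l) x = 0 := by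
  classical
  have := Fintype.ofFinite F
  obtain ⟨e, he⟩ : ∃ e : ℕ, ∀ l i j, (g l i j).natDegree ≤ e :=
    ⟨∑ l, ∑ i, ∑ j, (g l i j).natDegree, fun l i j =>
      ((Finset.single_le_sum (f := fun j => (g l i j).natDegree) (fun _ _ => Nat.zero_le _)
        (Finset.mem_univ j)).trans (Finset.single_le_sum
          (f := fun i => ∑ j, (g l i j).natDegree) (fun _ _ => Nat.zero_le _)
        (Finset.mem_univ i))).trans (Finset.single_le_sum
          (f := fun l => ∑ i, ∑ j, (g l i j).natDegree) (fun _ _ => Nat.zero_le _)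
        (Finset.mem_univ l))⟩
  set s := 2 * Fintype.card κ * (e + 1) with hs
  let f : κ × Fin (2 * s + e + 1) → MvPolynomial (ι × Fin (s + 1)) F := fun q =>
    ∑ i, ∑ j, ∑ b : Fin (s + 1), ∑ c : Fin (s + 1),
      MvPolynomial.C ((g q.1 i j * Polynomial.X ^ ((b : ℕ) + c)).coeff q.2) *
        (MvPolynomial.X (i, b) * MvPolynomial.X (j, c))
  have hdeg : ∀ q, (f q).totalDegree ≤ 2 := by
    intro q
    refine MvPolynomial.totalDegree_finsetSum_le fun i _ => ?_
    refine MvPolynomial.totalDegree_finsetSum_le fun j _ => ?_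
    refine MvPolynomial.totalDegree_finsetSum_le fun b _ => ?_
    refine MvPolynomial.totalDegree_finsetSum_le fun c _ => ?_
    refine (MvPolynomial.totalDegree_mul _ _).trans ?_
    rw [MvPolynomial.totalDegree_C, zero_add]
    refine (MvPolynomial.totalDegree_mul _ _).trans ?_
    rw [MvPolynomial.totalDegree_X, MvPolynomial.totalDegree_X]
  have hsum : ∑ q ∈ (Finset.univ : Finset (κ × Fin (2 * s + e + 1))), (f q).totalDegree <
      Fintype.card (ι × Fin (s + 1)) := by
    refine lt_of_le_of_lt (Finset.sum_le_card_nsmul _ _ 2 fun q _ => hdeg q) ?_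
    rw [Finset.card_univ, Fintype.card_prod, Fintype.card_prod, Fintype.card_fin, Fintype.card_fin,
      smul_eq_mul]
    have h1 : 4 * Fintype.card κ + 1 ≤ Fintype.card ι := h
    have h2 : (4 * Fintype.card κ + 1) * (s + 1) ≤ Fintype.card ι * (s + 1) :=
      Nat.mul_le_mul_right _ h1
    refine lt_of_lt_of_le ?_ h2
    have h3 : 2 * Fintype.card κ * (e + 1) = s := hs.symm
    nlinarith
  obtain ⟨p, hp⟩ := CharP.exists F
  have hpp : p.Prime := (CharP.char_is_prime_or_zero F p).resolve_right (CharP.char_ne_zero_of_finite F p)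
  have hdvd := char_dvd_card_solutions_of_sum_lt (K := F) p (s := Finset.univ) (f := f) hsum
  have h0s : ∀ q ∈ (Finset.univ : Finset (κ × Fin (2 * s + e + 1))),
      MvPolynomial.eval (0 : ι × Fin (s + 1) → F) (f q) = 0 := by
    intro q _
    simp [f]
  obtain ⟨x, hx0, hx⟩ : ∃ x : ι × Fin (s + 1) → F, x ≠ 0 ∧
      ∀ q ∈ (Finset.univ : Finset (κ × Fin (2 * s + e + 1))), MvPolynomial.eval x (f q) = 0 := by
    by_contra hcon
    push Not at hcon
    have hone : Fintype.card {x : ι × Fin (s + 1) → F //
        ∀ q ∈ (Finset.univ : Finset (κ × Fin (2 * s + e + 1))), MvPolynomial.eval x (f q) = 0} =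
        1 := by
      rw [Fintype.card_eq_one_iff]
      refine ⟨⟨0, h0s⟩, ?_⟩
      rintro ⟨y, hy⟩
      apply Subtype.ext
      by_contra hne
      obtain ⟨q, hq, hq'⟩ := hcon y hne
      exact hq' (hy q hq)
    have h1 : p ∣ 1 := by
      rw [← hone]
      convert hdvd
    exact hpp.one_lt.ne' (Nat.dvd_one.1 h1)
  set X : ι → Polynomial F := fun i => ∑ b : Fin (s + 1), Polynomial.C (x (i, b)) *
    Polynomial.X ^ (b : ℕ) with hX
  refine ⟨X, ?_, ?_⟩
  · intro h
    apply hx0
    ext ⟨i, b⟩
    have h1 := congrArg (fun p => p.coeff (b : ℕ)) (congrFun h i)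
    simp only [hX, Polynomial.finset_sum_coeff, Polynomial.coeff_C_mul, Polynomial.coeff_X_pow,
      Pi.zero_apply, Polynomial.coeff_zero] at h1
    rw [Finset.sum_eq_single b] at h1
    · simpa using h1
    · intro j _ hji
      rw [if_neg, mul_zero]
      intro h
      exact hji (Fin.ext h.symm)
    · intro h; exact absurd (Finset.mem_univ b) h
  · intro l
    ext m
    rw [Polynomial.coeff_zero]
    have hexp : (qf (g l) X).coeff m = ∑ i, ∑ j, ∑ b : Fin (s + 1), ∑ c : Fin (s + 1),
        (g l i j * Polynomial.X ^ ((b : ℕ) + c)).coeff m * (x (i, b) * x (j, c)) := by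
      simp only [qf, Polynomial.finset_sum_coeff]
      refine Finset.sum_congr rfl fun i _ => Finset.sum_congr rfl fun j _ => ?_
      rw [hX]
      simp only
      rw [mul_assoc, Finset.sum_mul_sum, Finset.mul_sum, Polynomial.finset_sum_coeff]
      refine Finset.sum_congr rfl fun b _ => ?_
      rw [Finset.mul_sum, Polynomial.finset_sum_coeff]
      refine Finset.sum_congr rfl fun c _ => ?_
      have : g l i j * (Polynomial.C (x (i, b)) * Polynomial.X ^ (b : ℕ) *
          (Polynomial.C (x (j, c)) * Polynomial.X ^ (c : ℕ))) =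
          (g l i j * Polynomial.X ^ ((b : ℕ) + c)) * Polynomial.C (x (i, b) * x (j, c)) := by
        rw [pow_add, map_mul]
        ring
      rw [this, Polynomial.coeff_mul_C]
    by_cases hm : m < 2 * s + e + 1
    · have h1 := hx (l, ⟨m, hm⟩) (Finset.mem_univ _)
      rw [hexp, ← h1]
      simp only [f, map_sum, map_mul, MvPolynomial.eval_C, MvPolynomial.eval_X]
    · rw [hexp]
      refine Finset.sum_eq_zero fun i _ => Finset.sum_eq_zero fun j _ =>
        Finset.sum_eq_zero fun b _ => Finset.sum_eq_zero fun c _ => ?_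
      rw [Polynomial.coeff_eq_zero_of_natDegree_lt, zero_mul]
      refine lt_of_le_of_lt Polynomial.natDegree_mul_le ?_
      rw [Polynomial.natDegree_X_pow]
      have h1 := he l i j
      have h2 := b.2
      have h3 := c.2
      omega

end

section

/-- Two quadratic forms in at least nine variables over a global function field have a common
zero. -/
theorem exists_zero_nine (F : Type u) [Field F] [Finite F] {k : Type v} [Field k]
    [Algebra (RatFunc F) k] [FiniteDimensional (RatFunc F) k] {N : ℕ} (hN : 9 ≤ N) (g₁ g₂ : Fin N → Fin N → k) :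
    ∃ z : Fin N → k, z ≠ 0 ∧ qf g₁ z = 0 ∧ qf g₂ z = 0 := by
  classical
  set d := Module.finrank (RatFunc F) k with hd
  have hdpos : 0 < d := Module.finrank_pos
  set b := Module.finBasis (RatFunc F) k with hb
  -- the coefficients over the rational function field
  let G : Fin 2 × Fin d → (Fin N × Fin d) → (Fin N × Fin d) → RatFunc F := fun l i j =>
    b.repr ((![g₁, g₂] : Fin 2 → Fin N → Fin N → k) l.1 i.1 j.1 * b i.2 * b j.2) l.2
  obtain ⟨D, hD⟩ := IsLocalization.exist_integer_multiples_of_finite
    (nonZeroDivisors (Polynomial F))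
    (fun q : (Fin 2 × Fin d) × (Fin N × Fin d) × (Fin N × Fin d) => G q.1 q.2.1 q.2.2)
  choose w hw using hD
  have hD0 : algebraMap (Polynomial F) (RatFunc F) D ≠ 0 := by
    rw [Ne, map_eq_zero_iff _ (IsFractionRing.injective (Polynomial F) (RatFunc F))]
    exact nonZeroDivisors.coe_ne_zero D
  obtain ⟨x, hx0, hx⟩ := exists_zero_poly (F := F) (ι := Fin N × Fin d) (κ := Fin 2 × Fin d)
    (fun l i j => w (l, i, j)) (by
      simp only [Fintype.card_prod, Fintype.card_fin]
      nlinarith)
  set f := algebraMap (Polynomial F) (RatFunc F) with hf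
  have hGx : ∀ l, qf (G l) (fun i => f (x i)) = 0 := by
    intro l
    have h1 := congrArg f (hx l)
    rw [map_zero, qf_map] at h1
    have h2 : qf (fun i j => f (w (l, i, j))) (fun i => f (x i)) =
        f D * qf (G l) (fun i => f (x i)) := by
      simp only [qf, Finset.mul_sum]
      refine Finset.sum_congr rfl fun i _ => Finset.sum_congr rfl fun j _ => ?_
      have h3 := hw (l, i, j)
      rw [Algebra.smul_def] at h3
      simp only at h3
      rw [hf, h3]
      ring
    rw [h2] at h1
    exact (mul_eq_zero.1 h1).resolve_left hD0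
  set z : Fin N → k := fun i => ∑ a, f (x (i, a)) • b a with hz
  have hq : ∀ m : Fin 2, qf ((![g₁, g₂] : Fin 2 → Fin N → Fin N → k) m) z = 0 := by
    intro m
    have h1 : qf ((![g₁, g₂] : Fin 2 → Fin N → Fin N → k) m) z =
        ∑ i : Fin N × Fin d, ∑ j : Fin N × Fin d, (f (x i) * f (x j)) •
          ((![g₁, g₂] : Fin 2 → Fin N → Fin N → k) m i.1 j.1 * b i.2 * b j.2) := by
      simp only [qf, hz, Fintype.sum_prod_type]
      refine Finset.sum_congr rfl fun i _ => ?_
      rw [Finset.sum_comm]
      refine Finset.sum_congr rfl fun j _ => ?_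
      rw [mul_assoc, Finset.sum_mul_sum, Finset.mul_sum]
      refine Finset.sum_congr rfl fun a _ => ?_
      rw [Finset.mul_sum]
      refine Finset.sum_congr rfl fun c _ => ?_
      simp only [Algebra.smul_def, map_mul]
      ring
    apply b.repr.injective
    ext c
    rw [h1, map_zero]
    simp only [map_sum, map_smul, Finsupp.coe_finsetSum, Finset.sum_apply, Finsupp.coe_smul,
      Pi.smul_apply, smul_eq_mul, Finsupp.coe_zero, Pi.zero_apply]
    rw [← hGx (m, c)]
    simp only [qf, G]
    refine Finset.sum_congr rfl fun i _ => Finset.sum_congr rfl fun j _ => ?_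
    ring
  refine ⟨z, ?_, hq 0, hq 1⟩
  intro h
  apply hx0
  ext1 ⟨i, a⟩
  have h1 := congrFun h i
  simp only [hz, Pi.zero_apply] at h1
  have h2 := Fintype.linearIndependent_iff.1 b.linearIndependent _ h1 a
  exact (map_eq_zero_iff _ (IsFractionRing.injective (Polynomial F) (RatFunc F))).1 h2

end

end Pool.Agent.Helper26
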