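import Mathlib
import Pool.Agent.Helper26.Krull
import Pool.Agent.Helper26.Pull

set_option autoImplicit false
set_option linter.unusedSectionVars false

/-!
# Pencils all of whose members are degenerate
-/

namespace Pool.Agent.Helper26

open Matrix Finset

section

/-- An alternating matrix of even size with vanishing determinant has two independent kernel
vectors. -/
lemma exists_two_kernel {F : Type*} [Field F] [CharP F 2] {n : Type*} [Fintype n] [DecidableEq n]
    (hn : Even (Fintype.card n)) (M : Matrix n n F) (hs : ∀ i j, M i j = M j i)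
    (hd : ∀ i, M i i = 0) (hdet : M.det = 0) :
    ∃ u v : n → F, M.mulVec u = 0 ∧ M.mulVec v = 0 ∧
      ∀ a b : F, a • u + b • v = 0 → a = 0 ∧ b = 0 := by
  set B : LinearMap.BilinForm F (n → F) := Matrix.toBilin' M with hB
  have hBapp : ∀ v w, B v w = v ⬝ᵥ M.mulVec w := fun v w => Matrix.toBilin'_apply' M v w
  have hker : ∀ v, v ∈ LinearMap.ker B ↔ M.mulVec v = 0 := by
    intro v
    rw [LinearMap.mem_ker]
    constructor
    · intro h
      ext i
      have h2 := congrArg (fun f => f (Pi.single i 1)) h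
      simp only [hBapp, LinearMap.zero_apply] at h2
      rw [dot_symm hs, single_dotProduct, one_mul] at h2
      rw [h2]
      rfl
    · intro h
      ext w
      simp only [LinearMap.coe_comp, LinearMap.coe_single, Function.comp_apply, hBapp,
        LinearMap.zero_apply]
      rw [dot_symm hs, h, dotProduct_zero]
  obtain ⟨U, hU⟩ := Submodule.exists_isCompl (LinearMap.ker B)
  have heven : Even (Module.finrank F U) := even_of_isCompl B
    (fun v w => by rw [hBapp, hBapp, dot_symm hs]) (fun v => by rw [hBapp, dot_self hs hd]) U hU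
  have hsum : Module.finrank F (LinearMap.ker B) + Module.finrank F U = Fintype.card n := by
    rw [Submodule.finrank_add_eq_of_isCompl hU, Module.finrank_fintype_fun_eq_card]
  have hpos : 0 < Module.finrank F (LinearMap.ker B) := by
    obtain ⟨x, hx0, hx⟩ := Matrix.exists_mulVec_eq_zero_iff.2 hdet
    have : Nontrivial (LinearMap.ker B) :=
      ⟨⟨⟨x, (hker x).2 hx⟩, 0, fun h => hx0 (congrArg Subtype.val h)⟩⟩
    exact Module.finrank_pos
  have htwo : 2 ≤ Module.finrank F (LinearMap.ker B) := by
    have h1 : Even (Module.finrank F (LinearMap.ker B)) := by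
      rw [← hsum] at hn
      exact (Nat.even_add.1 hn).2 heven
    obtain ⟨m, hm⟩ := h1
    omega
  set b' := Module.finBasis F (LinearMap.ker B) with hb'
  set e : Fin 2 → (n → F) := fun i => (b' (Fin.castLE htwo i) : n → F) with he
  have hli : LinearIndependent F e := by
    have h1 := (b'.linearIndependent.comp (Fin.castLE htwo) (Fin.castLE_injective htwo)).map'
      (LinearMap.ker B).subtype (Submodule.ker_subtype _)
    exact h1
  refine ⟨e 0, e 1, (hker _).1 (b' _).2, (hker _).1 (b' _).2, ?_⟩
  intro a b h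
  have h2 := Fintype.linearIndependent_iff.1 hli ![a, b] (by
    rw [Fin.sum_univ_two]; simpa using h)
  exact ⟨h2 0, h2 1⟩

/-- Two maps between spaces of the same dimension: some combination is not injective. -/
lemma exists_kernel_outside {K : Type*} [Field K] [IsAlgClosed K] {V W : Type*} [AddCommGroup V]
    [Module K V] [AddCommGroup W] [Module K W] [FiniteDimensional K V] [FiniteDimensional K W]
    (U : Submodule K V) (hU : U ≠ ⊤) (R : Submodule K W) (f₁ f₂ : V →ₗ[K] W)
    (h₁ : ∀ x ∈ U, f₁ x = 0) (h₂ : ∀ x ∈ U, f₂ x = 0) (hR₁ : ∀ x, f₁ x ∈ R) (hR₂ : ∀ x, f₂ x ∈ R)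
    (hdim : Module.finrank K R + Module.finrank K U = Module.finrank K V) :
    ∃ (a b : K) (x : V), (a ≠ 0 ∨ b ≠ 0) ∧ x ∉ U ∧ a • f₁ x + b • f₂ x = 0 := by
  set g₁ : (V ⧸ U) →ₗ[K] R := U.liftQ (f₁.codRestrict R hR₁) (by
    intro x hx
    rw [LinearMap.mem_ker]
    exact Subtype.ext (h₁ x hx)) with hg₁
  set g₂ : (V ⧸ U) →ₗ[K] R := U.liftQ (f₂.codRestrict R hR₂) (by
    intro x hx
    rw [LinearMap.mem_ker]
    exact Subtype.ext (h₂ x hx)) with hg₂
  have e₁ : ∀ x, ((g₁ (U.mkQ x) : R) : W) = f₁ x := fun x => by rw [hg₁]; simp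
  have e₂ : ∀ x, ((g₂ (U.mkQ x) : R) : W) = f₂ x := fun x => by rw [hg₂]; simp
  have hnt : Nontrivial (V ⧸ U) := Submodule.Quotient.nontrivial_iff.2 hU
  by_cases hinj : Function.Injective g₁
  · have hfr : Module.finrank K (V ⧸ U) = Module.finrank K R := by
      have := Submodule.finrank_quotient_add_finrank U
      omega
    have hsurj : Function.Surjective g₁ :=
      (LinearMap.injective_iff_surjective_of_finrank_eq_finrank hfr).1 hinj
    set e := LinearEquiv.ofBijective g₁ ⟨hinj, hsurj⟩ with he
    obtain ⟨μ, hμ⟩ := Module.End.exists_eigenvalue (e.symm.toLinearMap.comp g₂)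
    obtain ⟨y, hy⟩ := hμ.exists_hasEigenvector
    obtain ⟨x, rfl⟩ := U.mkQ_surjective y
    have h3 := hy.apply_eq_smul
    have h4 : g₂ (U.mkQ x) = μ • g₁ (U.mkQ x) := by
      have h5 := congrArg e h3
      rw [LinearMap.comp_apply, LinearEquiv.coe_coe, LinearEquiv.apply_symm_apply, map_smul] at h5
      exact h5
    refine ⟨-μ, 1, x, Or.inr one_ne_zero, ?_, ?_⟩
    · intro hx
      apply hy.2
      rw [Submodule.mkQ_apply, Submodule.Quotient.mk_eq_zero]
      exact hx
    · rw [← e₁, ← e₂, h4]
      simp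
  · rw [← LinearMap.ker_eq_bot, LinearMap.ker_eq_bot'] at hinj
    push Not at hinj
    obtain ⟨y, hy, hy0⟩ := hinj
    obtain ⟨x, rfl⟩ := U.mkQ_surjective y
    refine ⟨1, 0, x, Or.inl one_ne_zero, ?_, ?_⟩
    · intro hx
      apply hy0
      rw [Submodule.mkQ_apply, Submodule.Quotient.mk_eq_zero]
      exact hx
    · rw [← e₁, hy]
      simp

end

end Pool.Agent.Helper26
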