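import Mathlib
import Pool.Agent.Helper26.Degen

set_option autoImplicit false
set_option linter.unusedSectionVars false

/-!
# A smooth pair in eight variables has a nondegenerate member
-/

namespace Pool.Agent.Helper26

open Matrix Finset Polynomial

section

variable {K : Type*} [Field K] [CharP K 2]

/-- Polynomial kernel vectors of a degenerate pencil. -/
lemma exists_poly_kernel [Infinite K] {B₁ B₂ : Matrix (Fin 8) (Fin 8) K}
    (hB₁ : ∀ i j, B₁ i j = B₁ j i) (hB₂ : ∀ i j, B₂ i j = B₂ j i) (hd₁ : ∀ i, B₁ i i = 0)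
    (hd₂ : ∀ i, B₂ i i = 0) (hdet : ∀ t : K, (t • B₁ + B₂).det = 0) :
    ∃ u v : Fin 8 → K[X], (pencil B₁ B₂).mulVec u = 0 ∧ (pencil B₁ B₂).mulVec v = 0 ∧
      ∃ i j, u i * v j - u j * v i ≠ 0 := by
  set M := pencil B₁ B₂ with hM
  have hMapp : ∀ i j, M i j = X * C (B₁ i j) + C (B₂ i j) := by
    intro i j; simp [hM, pencil]
  have hMs : ∀ i j, M i j = M j i := by
    intro i j; rw [hMapp, hMapp, hB₁, hB₂]
  have hMd : ∀ i, M i i = 0 := by
    intro i; rw [hMapp, hd₁, hd₂]; simp
  have hMdet : M.det = 0 := by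
    apply Polynomial.funext
    intro t
    rw [eval_zero]
    have h1 := RingHom.map_det (evalRingHom t) M
    rw [coe_evalRingHom] at h1
    rw [h1, ← hdet t]
    congr 1
    ext i j
    rw [RingHom.mapMatrix_apply, Matrix.map_apply, hMapp]
    simp
    ring
  let F := FractionRing K[X]
  have hcF : CharP F 2 :=
    charP_of_injective_algebraMap (IsFractionRing.injective K[X] F) 2
  set f := algebraMap K[X] F with hf
  have hfinj : Function.Injective f := IsFractionRing.injective K[X] F
  obtain ⟨u', v', hu', hv', hind'⟩ := exists_two_kernel (F := F) (n := Fin 8) (by decide) (M.map f)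
    (fun i j => by rw [Matrix.map_apply, Matrix.map_apply, hMs]) (fun i => by
      rw [Matrix.map_apply, hMd, map_zero]) (by
      have := RingHom.map_det f M
      rw [hMdet, map_zero] at this
      exact this.symm)
  obtain ⟨b, hb⟩ := IsLocalization.exist_integer_multiples_of_finite (nonZeroDivisors K[X])
    (Sum.elim u' v')
  have hb0 : f (b : K[X]) ≠ 0 := by
    rw [Ne, map_eq_zero_iff f hfinj]
    exact nonZeroDivisors.coe_ne_zero b
  choose w hw using hb
  set u : Fin 8 → K[X] := fun i => w (Sum.inl i) with hu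
  set v : Fin 8 → K[X] := fun i => w (Sum.inr i) with hv
  have hfu : (fun i => f (u i)) = f (b : K[X]) • u' := by
    ext i
    have := hw (Sum.inl i)
    rw [Sum.elim_inl, Algebra.smul_def] at this
    exact this
  have hfv : (fun i => f (v i)) = f (b : K[X]) • v' := by
    ext i
    have := hw (Sum.inr i)
    rw [Sum.elim_inr, Algebra.smul_def] at this
    exact this
  have hker : ∀ (x : Fin 8 → K[X]) (x' : Fin 8 → F), (fun i => f (x i)) = f (b : K[X]) • x' →
      (M.map f).mulVec x' = 0 → M.mulVec x = 0 := by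
    intro x x' h1 h2
    ext1 i
    apply hfinj
    have h3 := congrFun (mulVec_map f M x) i
    rw [h1, Matrix.mulVec_smul, h2, smul_zero] at h3
    rw [← h3]
    simp
  refine ⟨u, v, hker u u' hfu hu', hker v v' hfv hv', ?_⟩
  by_contra hcon
  push Not at hcon
  have hu0 : u' ≠ 0 := by
    intro h0
    have := (hind' 1 0 (by rw [h0]; simp)).1
    exact one_ne_zero this
  obtain ⟨i, hi⟩ := Function.ne_iff.1 hu0
  have hi' : u' i ≠ 0 := hi
  have hrel : v' i • u' + (-u' i) • v' = 0 := by
    ext1 j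
    have h1 := congrArg f (hcon i j)
    rw [map_sub, map_mul, map_mul, map_zero] at h1
    have e1 := congrFun hfu i
    have e2 := congrFun hfu j
    have e3 := congrFun hfv i
    have e4 := congrFun hfv j
    simp only [Pi.smul_apply, smul_eq_mul] at e1 e2 e3 e4
    rw [e1, e2, e3, e4] at h1
    have h2 : f (b : K[X]) ^ 2 * (v' i * u' j - u' i * v' j) = 0 := by
      linear_combination -h1
    have h3 := (mul_eq_zero.1 h2).resolve_left (pow_ne_zero _ hb0)
    simp only [Pi.add_apply, Pi.smul_apply, smul_eq_mul, Pi.zero_apply]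
    linear_combination h3
  have := (hind' _ _ hrel).2
  exact hi' (neg_eq_zero.1 this)

end

section

variable {K : Type*} [Field K] [CharP K 2]

/-- The constant case. -/
lemma degen_const [IsAlgClosed K] {G₁ G₂ : Fin 8 → Fin 8 → K} (hs : JacInd G₁ G₂)
    {u₀ v₀ : Fin 8 → K} (hind : ∀ a b : K, a • u₀ + b • v₀ = 0 → a = 0 ∧ b = 0)
    (hu₁ : (pm G₁).mulVec u₀ = 0) (hu₂ : (pm G₂).mulVec u₀ = 0)
    (hv₁ : (pm G₁).mulVec v₀ = 0) (hv₂ : (pm G₂).mulVec v₀ = 0) : False := by
  set U := Submodule.span K (Set.range ![u₀, v₀]) with hU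
  have hli : LinearIndependent K ![u₀, v₀] := by
    rw [LinearIndependent.pair_iff]
    exact hind
  have hUfr : Module.finrank K U = 2 := by
    rw [hU, finrank_span_eq_card hli, Fintype.card_fin]
  have hUmem : ∀ x ∈ U, ∃ a b : K, x = a • u₀ + b • v₀ := by
    intro x hx
    rw [hU, Submodule.mem_span_range_iff_exists_fun] at hx
    obtain ⟨c, hc⟩ := hx
    refine ⟨c 0, c 1, ?_⟩
    rw [← hc, Fin.sum_univ_two]
    rfl
  set N : Matrix (Fin 2) (Fin 8) K := Matrix.of ![u₀, v₀] with hN
  have hrank : N.rank = 2 := by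
    have := LinearIndependent.rank_matrix (M := N) hli
    rwa [Fintype.card_fin] at this
  have hRfr : Module.finrank K (LinearMap.ker N.mulVecLin) = 6 := by
    have h1 := N.mulVecLin.finrank_range_add_finrank_ker
    rw [Module.finrank_fin_fun] at h1
    have h2 : Module.finrank K (LinearMap.range N.mulVecLin) = 2 := hrank
    omega
  have hRmem : ∀ y : Fin 8 → K, u₀ ⬝ᵥ y = 0 → v₀ ⬝ᵥ y = 0 → y ∈ LinearMap.ker N.mulVecLin := by
    intro y h1 h2
    rw [LinearMap.mem_ker]
    ext i
    fin_cases i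
    · exact h1
    · exact h2
  have hperp : ∀ (M : Matrix (Fin 8) (Fin 8) K) (w : Fin 8 → K), (∀ i j, M i j = M j i) →
      M.mulVec w = 0 → ∀ x, w ⬝ᵥ M.mulVec x = 0 := by
    intro M w hM hw x
    rw [dot_symm hM, hw, dotProduct_zero]
  obtain ⟨a, b, x, hab, hxU, hx⟩ := exists_kernel_outside U (by
      intro h
      rw [h, finrank_top, Module.finrank_fin_fun] at hUfr
      omega) (LinearMap.ker N.mulVecLin) (pm G₁).mulVecLin (pm G₂).mulVecLin
    (by
      intro x hx
      obtain ⟨a, b, rfl⟩ := hUmem x hx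
      rw [map_add, map_smul, map_smul, Matrix.mulVecLin_apply, Matrix.mulVecLin_apply, hu₁, hv₁,
        smul_zero, smul_zero, add_zero])
    (by
      intro x hx
      obtain ⟨a, b, rfl⟩ := hUmem x hx
      rw [map_add, map_smul, map_smul, Matrix.mulVecLin_apply, Matrix.mulVecLin_apply, hu₂, hv₂,
        smul_zero, smul_zero, add_zero])
    (fun x => hRmem _ (hperp _ _ (pm_symm G₁) hu₁ x) (hperp _ _ (pm_symm G₁) hv₁ x))
    (fun x => hRmem _ (hperp _ _ (pm_symm G₂) hu₂ x) (hperp _ _ (pm_symm G₂) hv₂ x))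
    (by rw [hRfr, hUfr, Module.finrank_fin_fun])
  refine no_three hs hab u₀ v₀ x ?_ ?_ ?_ ?_
  · rw [Matrix.add_mulVec, Matrix.smul_mulVec, Matrix.smul_mulVec, hu₁, hu₂, smul_zero, smul_zero,
      add_zero]
  · rw [Matrix.add_mulVec, Matrix.smul_mulVec, Matrix.smul_mulVec, hv₁, hv₂, smul_zero, smul_zero,
      add_zero]
  · rw [Matrix.add_mulVec, Matrix.smul_mulVec, Matrix.smul_mulVec]
    exact hx
  · intro s₁ s₂ s₃ h
    have h3 : s₃ = 0 := by
      by_contra hne
      apply hxU
      have h4 : x = (-(s₃⁻¹ * s₁)) • u₀ + (-(s₃⁻¹ * s₂)) • v₀ := by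
        have h5 : s₃ • x = -(s₁ • u₀ + s₂ • v₀) := eq_neg_of_add_eq_zero_right h
        have h6 : x = s₃⁻¹ • (s₃ • x) := by rw [smul_smul, inv_mul_cancel₀ hne, one_smul]
        rw [h6, h5, smul_neg, smul_add, smul_smul, smul_smul, neg_smul, neg_smul, neg_add]
      rw [h4]
      exact U.add_mem (U.smul_mem _ (Submodule.subset_span ⟨0, rfl⟩))
        (U.smul_mem _ (Submodule.subset_span ⟨1, rfl⟩))
    rw [h3, zero_smul, add_zero] at h
    obtain ⟨h1, h2⟩ := hind _ _ h
    exact ⟨h1, h2, h3⟩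

end

end Pool.Agent.Helper26
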