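import Mathlib
import Pool.Agent.Helper26.Degen2

set_option autoImplicit false
set_option linter.unusedSectionVars false

/-!
# A smooth pair in eight variables has a nondegenerate member, II
-/

namespace Pool.Agent.Helper26

open Matrix Finset Polynomial

section

variable {K : Type*} [Field K] [CharP K 2]

/-- The linear form attached to a vector. -/
noncomputable def linForm (l : Fin 8 → K) : MvPolynomial (Fin 8) K :=
  ∑ i, MvPolynomial.C (l i) * MvPolynomial.X i

/-- Two proportional vectors. -/
lemma exists_rel_of_minors {n : Type*} {x y : n → K} (h : ∀ i j, x i * y j = x j * y i) :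
    ∃ a b : K, (a ≠ 0 ∨ b ≠ 0) ∧ a • x + b • y = 0 := by
  by_cases hx : x = 0
  · exact ⟨1, 0, Or.inl one_ne_zero, by rw [hx]; simp⟩
  · obtain ⟨i, hi⟩ := Function.ne_iff.1 hx
    refine ⟨y i, -x i, Or.inr (neg_ne_zero.2 hi), ?_⟩
    ext j
    simp only [Pi.add_apply, Pi.smul_apply, smul_eq_mul, Pi.zero_apply]
    linear_combination h j i

lemma lin_zero {R : Type*} [CommRing R] {a b : R} (h : (MvPolynomial.C a * MvPolynomial.X 0 +
    MvPolynomial.C b * MvPolynomial.X 1 : MvPolynomial (Fin 2) R) = 0) : a = 0 ∧ b = 0 := by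
  constructor
  · have := congrArg (MvPolynomial.eval ![1, 0]) h
    simpa using this
  · have := congrArg (MvPolynomial.eval ![0, 1]) h
    simpa using this

theorem exists_nondeg [IsAlgClosed K] {G₁ G₂ : Fin 8 → Fin 8 → K} (hs : JacInd G₁ G₂) :
    ∃ a b : K, (a • pm G₁ + b • pm G₂).det ≠ 0 := by
  classical
  by_contra hcon
  push Not at hcon
  obtain ⟨u, v, hu, hv, i₀, j₀, hδ⟩ := exists_poly_kernel (pm_symm G₁) (pm_symm G₂) (pm_diag G₁)
    (pm_diag G₂) (fun t => by have := hcon t 1; rwa [one_smul] at this)
  set δ := u i₀ * v j₀ - u j₀ * v i₀ with hδd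
  obtain ⟨t₀, ht₀⟩ : ∃ t : K, δ.eval t ≠ 0 := by
    by_contra h
    push Not at h
    exact hδ (Polynomial.funext fun r => by rw [h r, eval_zero])
  -- evaluation of the kernel vectors
  have hMe : ∀ (w : Fin 8 → K[X]), (pencil (pm G₁) (pm G₂)).mulVec w = 0 → ∀ t : K,
      (t • pm G₁ + (1 : K) • pm G₂).mulVec (fun i => (w i).eval t) = 0 := by
    intro w hw t
    have h1 := mulVec_map (evalRingHom t) (pencil (pm G₁) (pm G₂)) w
    rw [hw] at h1
    have h2 : (pencil (pm G₁) (pm G₂)).map (evalRingHom t) = t • pm G₁ + (1 : K) • pm G₂ := by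
      ext i j
      simp [pencil]
      ring
    rw [h2] at h1
    exact h1.trans (by ext i; simp)
  set u₀ : Fin 8 → K := fun i => (u i).eval t₀ with hu₀
  set v₀ : Fin 8 → K := fun i => (v i).eval t₀ with hv₀
  have hδ₀ : u₀ i₀ * v₀ j₀ - u₀ j₀ * v₀ i₀ ≠ 0 := by
    have : δ.eval t₀ = u₀ i₀ * v₀ j₀ - u₀ j₀ * v₀ i₀ := by
      rw [hδd, eval_sub, eval_mul, eval_mul]
    rwa [← this]
  have hind : ∀ a b : K, a • u₀ + b • v₀ = 0 → a = 0 ∧ b = 0 := by
    intro a b h
    have e1 := congrFun h i₀
    have e2 := congrFun h j₀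
    simp only [Pi.add_apply, Pi.smul_apply, smul_eq_mul, Pi.zero_apply] at e1 e2
    constructor
    · have h3 : a * (u₀ i₀ * v₀ j₀ - u₀ j₀ * v₀ i₀) = 0 := by
        linear_combination v₀ j₀ * e1 - v₀ i₀ * e2
      exact (mul_eq_zero.1 h3).resolve_right hδ₀
    · have h3 : b * (u₀ i₀ * v₀ j₀ - u₀ j₀ * v₀ i₀) = 0 := by
        linear_combination u₀ i₀ * e2 - u₀ j₀ * e1
      exact (mul_eq_zero.1 h3).resolve_right hδ₀
  set U := Submodule.span K (Set.range ![u₀, v₀]) with hU
  have hUmem : ∀ x ∈ U, ∃ a b : K, x = a • u₀ + b • v₀ := by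
    intro x hx
    rw [hU, Submodule.mem_span_range_iff_exists_fun] at hx
    obtain ⟨c, hc⟩ := hx
    refine ⟨c 0, c 1, ?_⟩
    rw [← hc, Fin.sum_univ_two]
    rfl
  by_cases hconst : ∀ t : K, (fun i => (u i).eval t) ∈ U ∧ (fun i => (v i).eval t) ∈ U
  · -- the constant case
    obtain ⟨t₁, ht₁⟩ : ∃ t : K, (δ * (X - C t₀)).eval t ≠ 0 := by
      by_contra h
      push Not at h
      exact (mul_ne_zero hδ (X_sub_C_ne_zero t₀))
        (Polynomial.funext fun r => by rw [h r, eval_zero])
    rw [eval_mul] at ht₁
    have hδ₁ : δ.eval t₁ ≠ 0 := left_ne_zero_of_mul ht₁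
    have ht₁' : t₁ - t₀ ≠ 0 := by
      have := right_ne_zero_of_mul ht₁
      rwa [eval_sub, eval_X, eval_C] at this
    obtain ⟨a, b, hab⟩ := hUmem _ (hconst t₁).1
    obtain ⟨c, d, hcd⟩ := hUmem _ (hconst t₁).2
    have hdet : a * d - b * c ≠ 0 := by
      intro h0
      apply hδ₁
      rw [hδd, eval_sub, eval_mul, eval_mul]
      have e1 := congrFun hab i₀
      have e2 := congrFun hab j₀
      have e3 := congrFun hcd i₀
      have e4 := congrFun hcd j₀
      simp only [Pi.add_apply, Pi.smul_apply, smul_eq_mul] at e1 e2 e3 e4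
      rw [e1, e2, e3, e4]
      linear_combination (u₀ i₀ * v₀ j₀ - u₀ j₀ * v₀ i₀) * h0
    have k1 := hMe u hu t₁
    have k2 := hMe v hv t₁
    have hab' : (fun i => (u i).eval t₁) = a • u₀ + b • v₀ := hab
    have hcd' : (fun i => (v i).eval t₁) = c • u₀ + d • v₀ := hcd
    rw [hab', Matrix.mulVec_add, Matrix.mulVec_smul, Matrix.mulVec_smul] at k1
    rw [hcd', Matrix.mulVec_add, Matrix.mulVec_smul, Matrix.mulVec_smul] at k2
    set y₁ := (t₁ • pm G₁ + (1 : K) • pm G₂).mulVec u₀ with hy₁
    set y₂ := (t₁ • pm G₁ + (1 : K) • pm G₂).mulVec v₀ with hy₂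
    have hy1 : y₁ = 0 := by
      ext i
      have e1 := congrFun k1 i
      have e2 := congrFun k2 i
      simp only [Pi.add_apply, Pi.smul_apply, smul_eq_mul, Pi.zero_apply] at e1 e2
      have h3 : (a * d - b * c) * y₁ i = 0 := by linear_combination d * e1 - b * e2
      exact (mul_eq_zero.1 h3).resolve_left hdet
    have hy2 : y₂ = 0 := by
      ext i
      have e1 := congrFun k1 i
      have e2 := congrFun k2 i
      simp only [Pi.add_apply, Pi.smul_apply, smul_eq_mul, Pi.zero_apply] at e1 e2
      have h3 : (a * d - b * c) * y₂ i = 0 := by linear_combination a * e2 - c * e1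
      exact (mul_eq_zero.1 h3).resolve_left hdet
    have hboth : ∀ w : Fin 8 → K, (t₀ • pm G₁ + (1 : K) • pm G₂).mulVec w = 0 →
        (t₁ • pm G₁ + (1 : K) • pm G₂).mulVec w = 0 → (pm G₁).mulVec w = 0 ∧
          (pm G₂).mulVec w = 0 := by
      intro w h1 h2
      rw [Matrix.add_mulVec, Matrix.smul_mulVec, Matrix.smul_mulVec] at h1 h2
      have h3 : (pm G₁).mulVec w = 0 := by
        ext i
        have e1 := congrFun h1 i
        have e2 := congrFun h2 i
        simp only [Pi.add_apply, Pi.smul_apply, smul_eq_mul, Pi.zero_apply] at e1 e2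
        have h3 : (t₁ - t₀) * (pm G₁).mulVec w i = 0 := by linear_combination e2 - e1
        exact (mul_eq_zero.1 h3).resolve_left ht₁'
      refine ⟨h3, ?_⟩
      rw [h3, smul_zero, zero_add, one_smul] at h1
      exact h1
    obtain ⟨z1, z2⟩ := hboth u₀ (hMe u hu t₀) (by rw [← hy₁]; exact hy1)
    obtain ⟨z3, z4⟩ := hboth v₀ (hMe v hv t₀) (by rw [← hy₂]; exact hy2)
    exact degen_const hs hind z1 z2 z3 z4
  · -- the general case
    let ψ : MvPolynomial (Fin 8) K →ₐ[K] MvPolynomial (Fin 2) K[X] :=
      MvPolynomial.aeval fun i => MvPolynomial.C (u i) * MvPolynomial.X 0 +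
        MvPolynomial.C (v i) * MvPolynomial.X 1
    let ψ₁ : MvPolynomial (Fin 8) K →ₐ[K] MvPolynomial (Fin 2) K :=
      MvPolynomial.aeval fun i => MvPolynomial.C (u₀ i) * MvPolynomial.X 0 +
        MvPolynomial.C (v₀ i) * MvPolynomial.X 1
    let ψ₂ : MvPolynomial (Fin 8) K →ₐ[K] MvPolynomial (Fin 2) K :=
      MvPolynomial.aeval fun i => MvPolynomial.C (u₀ i) * MvPolynomial.X 0
    let ρ₁ : MvPolynomial (Fin 2) K[X] →+* MvPolynomial (Fin 2) K :=
      MvPolynomial.map (evalRingHom t₀)
    let ρ₂ : MvPolynomial (Fin 2) K →ₐ[K] MvPolynomial (Fin 2) K :=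
      MvPolynomial.aeval ![MvPolynomial.X 0, 0]
    have hψX : ∀ i, ψ (MvPolynomial.X i) = MvPolynomial.C (u i) * MvPolynomial.X 0 +
        MvPolynomial.C (v i) * MvPolynomial.X 1 := fun i => MvPolynomial.aeval_X _ _
    have hψ₁X : ∀ i, ψ₁ (MvPolynomial.X i) = MvPolynomial.C (u₀ i) * MvPolynomial.X 0 +
        MvPolynomial.C (v₀ i) * MvPolynomial.X 1 := fun i => MvPolynomial.aeval_X _ _
    have hψ₂X : ∀ i, ψ₂ (MvPolynomial.X i) = MvPolynomial.C (u₀ i) * MvPolynomial.X 0 :=
      fun i => MvPolynomial.aeval_X _ _
    have hψC : ∀ c, ψ (MvPolynomial.C c) = MvPolynomial.C (C c) := fun c => by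
      simp only [ψ, MvPolynomial.aeval_C]
      rfl
    have hψ₁C : ∀ c, ψ₁ (MvPolynomial.C c) = MvPolynomial.C c := fun c => by
      simp only [ψ₁, MvPolynomial.aeval_C]
      rfl
    have hψ₂C : ∀ c, ψ₂ (MvPolynomial.C c) = MvPolynomial.C c := fun c => by
      simp only [ψ₂, MvPolynomial.aeval_C]
      rfl
    have hc1 : ∀ p, ρ₁ (ψ p) = ψ₁ p := by
      intro p
      have : ρ₁.comp ψ.toRingHom = ψ₁.toRingHom := by
        apply MvPolynomial.ringHom_ext
        · intro c
          change ρ₁ (ψ (MvPolynomial.C c)) = ψ₁ (MvPolynomial.C c)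
          rw [hψC, hψ₁C]
          simp [ρ₁]
        · intro i
          change ρ₁ (ψ (MvPolynomial.X i)) = ψ₁ (MvPolynomial.X i)
          rw [hψX, hψ₁X]
          simp [ρ₁, hu₀, hv₀]
      exact congrArg (fun g => g p) this
    have hc2 : ∀ p, ρ₂ (ψ₁ p) = ψ₂ p := by
      intro p
      have : ρ₂.comp ψ₁ = ψ₂ := by
        apply MvPolynomial.algHom_ext
        intro i
        rw [AlgHom.comp_apply, hψ₁X, hψ₂X]
        simp [ρ₂]
      exact congrArg (fun g => g p) this
    have hc3 : ∀ p, MvPolynomial.eval 0 (ψ₂ p) = MvPolynomial.eval 0 p := by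
      intro p
      have : (MvPolynomial.aeval (R := K) (0 : Fin 2 → K)).comp ψ₂ =
          MvPolynomial.aeval (0 : Fin 8 → K) := by
        apply MvPolynomial.algHom_ext
        intro i
        rw [AlgHom.comp_apply, hψ₂X]
        simp
      exact congrArg (fun g => g p) this
    -- linear forms
    have hlin : ∀ l : Fin 8 → K, ψ (linForm l) =
        MvPolynomial.C (∑ i, C (l i) * u i) * MvPolynomial.X 0 +
        MvPolynomial.C (∑ i, C (l i) * v i) * MvPolynomial.X 1 := by
      intro l
      simp only [linForm, map_sum, map_mul, hψC, hψX, Finset.sum_mul, ← Finset.sum_add_distrib]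
      refine Finset.sum_congr rfl fun i _ => ?_
      ring
    have hlin₁ : ∀ l : Fin 8 → K, ψ₁ (linForm l) =
        MvPolynomial.C (∑ i, l i * u₀ i) * MvPolynomial.X 0 +
        MvPolynomial.C (∑ i, l i * v₀ i) * MvPolynomial.X 1 := by
      intro l
      simp only [linForm, map_sum, map_mul, hψ₁C, hψ₁X, Finset.sum_mul, ← Finset.sum_add_distrib]
      refine Finset.sum_congr rfl fun i _ => ?_
      ring
    have hu₀0 : u₀ ≠ 0 := by
      intro h0
      have := (hind 1 0 (by rw [h0]; simp)).1
      exact one_ne_zero this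
    obtain ⟨z, hz0, hzP, hzs⟩ := exists_zero_of_chain (N := 8) (d := 3)
      ![RingHom.ker ψ.toRingHom, RingHom.ker ψ₁.toRingHom, RingHom.ker ψ₂.toRingHom, origin K 8]
      (by
        intro i
        fin_cases i
        · exact RingHom.ker_isPrime _
        · exact RingHom.ker_isPrime _
        · exact RingHom.ker_isPrime _
        · exact RingHom.ker_isPrime _)
      (by
        intro i
        fin_cases i
        · change RingHom.ker ψ.toRingHom < RingHom.ker ψ₁.toRingHom
          refine lt_of_le_of_ne ?_ ?_
          · intro p hp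
            have hp' : ψ p = 0 := hp
            change ψ₁ p = 0
            rw [← hc1, hp', map_zero]
          · intro heq
            apply hconst
            intro t
            have key : ∀ w : Fin 8 → K[X], (∀ l : Fin 8 → K, ψ (linForm l) = 0 →
                ∑ i, C (l i) * w i = 0) → (fun i => (w i).eval t) ∈ U := by
              intro w hw
              by_contra hnot
              obtain ⟨f, hf, hUf⟩ := Submodule.exists_le_ker_of_notMem hnot
              set l : Fin 8 → K := fun i => f (Pi.single i 1) with hl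
              have hfl : ∀ x : Fin 8 → K, f x = ∑ i, l i * x i := by
                intro x
                have hx : x = ∑ i, x i • (Pi.single i (1 : K) : Fin 8 → K) := by
                  ext j
                  simp [Finset.sum_apply, Pi.single_apply]
                nth_rewrite 1 [hx]
                rw [map_sum]
                refine Finset.sum_congr rfl fun i _ => ?_
                rw [map_smul, smul_eq_mul, mul_comm]
              have h1 : ψ₁ (linForm l) = 0 := by
                rw [hlin₁, ← hfl, ← hfl]
                have e1 : f u₀ = 0 := hUf (Submodule.subset_span ⟨0, rfl⟩)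
                have e2 : f v₀ = 0 := hUf (Submodule.subset_span ⟨1, rfl⟩)
                rw [e1, e2]
                simp
              have h2 : linForm l ∈ RingHom.ker ψ₁.toRingHom := h1
              rw [← heq] at h2
              have h3 := hw l h2
              apply hf
              rw [hfl]
              have h4 := congrArg (eval t) h3
              rw [eval_finset_sum, eval_zero] at h4
              simpa using h4
            constructor
            · apply key
              intro l hl
              rw [hlin] at hl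
              exact (lin_zero hl).1
            · apply key
              intro l hl
              rw [hlin] at hl
              exact (lin_zero hl).2
        · change RingHom.ker ψ₁.toRingHom < RingHom.ker ψ₂.toRingHom
          refine lt_of_le_of_ne ?_ ?_
          · intro p hp
            have hp' : ψ₁ p = 0 := hp
            change ψ₂ p = 0
            rw [← hc2, hp', map_zero]
          · intro heq
            have h1 : (MvPolynomial.C (u₀ j₀) * MvPolynomial.X i₀ -
                MvPolynomial.C (u₀ i₀) * MvPolynomial.X j₀ : MvPolynomial (Fin 8) K) ∈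
                RingHom.ker ψ₂.toRingHom := by
              change ψ₂ _ = 0
              rw [map_sub, map_mul, map_mul, hψ₂C, hψ₂C, hψ₂X, hψ₂X]
              ring
            rw [← heq] at h1
            have h2 : ψ₁ (MvPolynomial.C (u₀ j₀) * MvPolynomial.X i₀ -
                MvPolynomial.C (u₀ i₀) * MvPolynomial.X j₀) = 0 := h1
            rw [map_sub, map_mul, map_mul, hψ₁C, hψ₁C, hψ₁X, hψ₁X] at h2
            have h3 := congrArg (MvPolynomial.eval ![0, 1]) h2
            simp at h3
            apply hδ₀
            linear_combination -h3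
        · change RingHom.ker ψ₂.toRingHom < origin K 8
          refine lt_of_le_of_ne ?_ ?_
          · intro p hp
            have hp' : ψ₂ p = 0 := hp
            rw [mem_origin, ← hc3, hp', map_zero]
          · intro heq
            obtain ⟨l, hl⟩ := Function.ne_iff.1 hu₀0
            have h1 : (MvPolynomial.X l : MvPolynomial (Fin 8) K) ∈ origin K 8 := by
              rw [mem_origin]; simp
            rw [← heq] at h1
            have h2 : ψ₂ (MvPolynomial.X l) = 0 := h1
            rw [hψ₂X] at h2
            have h3 := congrArg (MvPolynomial.eval ![1, 0]) h2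
            simp at h3
            exact hl h3)
      rfl
      ({qf (fun i j => MvPolynomial.C (G₁ i j)) MvPolynomial.X,
        qf (fun i j => MvPolynomial.C (G₂ i j)) MvPolynomial.X} :
        Finset (MvPolynomial (Fin 8) K))
      (lt_of_le_of_lt Finset.card_le_two (by norm_num))
      (by
        intro p hp
        rw [Finset.mem_insert, Finset.mem_singleton] at hp
        rcases hp with rfl | rfl
        · rw [mem_origin, qf_map]; simp [qf]
        · rw [mem_origin, qf_map]; simp [qf])
    have hq : ∀ G : Fin 8 → Fin 8 → K, MvPolynomial.eval z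
        (qf (fun i j => MvPolynomial.C (G i j)) MvPolynomial.X) = qf G z := by
      intro G
      rw [qf_map]
      simp
    have hq1 : qf G₁ z = 0 := by rw [← hq]; exact hzs _ (by simp)
    have hq2 : qf G₂ z = 0 := by rw [← hq]; exact hzs _ (by simp)
    -- the minors
    have hminor : ∀ i j, (pm G₁).mulVec z i * (pm G₂).mulVec z j =
        (pm G₁).mulVec z j * (pm G₂).mulVec z i := by
      intro i j
      set y₁ : Fin 8 → MvPolynomial (Fin 8) K :=
        ((pm G₁).map MvPolynomial.C).mulVec MvPolynomial.X with hy₁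
      set y₂ : Fin 8 → MvPolynomial (Fin 8) K :=
        ((pm G₂).map MvPolynomial.C).mulVec MvPolynomial.X with hy₂
      have hψy : ∀ i, ψ (y₂ i) = -(MvPolynomial.C X * ψ (y₁ i)) := by
        intro i
        have e1 : ∀ G : Fin 8 → Fin 8 → K,
            ψ (((pm G).map MvPolynomial.C).mulVec MvPolynomial.X i) =
            MvPolynomial.C (∑ j, C (pm G i j) * u j) * MvPolynomial.X 0 +
            MvPolynomial.C (∑ j, C (pm G i j) * v j) * MvPolynomial.X 1 := by
          intro G
          simp only [Matrix.mulVec, dotProduct, map_sum, map_mul, Matrix.map_apply, hψC, hψX,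
            Finset.sum_mul, ← Finset.sum_add_distrib]
          refine Finset.sum_congr rfl fun j _ => ?_
          ring
        have e2 : ∀ w : Fin 8 → K[X], (pencil (pm G₁) (pm G₂)).mulVec w = 0 →
            ∑ j, C (pm G₂ i j) * w j = -(X * ∑ j, C (pm G₁ i j) * w j) := by
          intro w hw
          have h1 := congrFun hw i
          simp only [Matrix.mulVec, dotProduct, pencil, Matrix.add_apply, Matrix.smul_apply,
            Matrix.map_apply, smul_eq_mul, add_mul, Finset.sum_add_distrib, Pi.zero_apply] at h1
          rw [Finset.mul_sum]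
          simp only [mul_assoc] at h1
          linear_combination h1
        rw [hy₁, hy₂, e1, e1, e2 u hu, e2 v hv, map_neg, map_neg, map_mul, map_mul]
        ring
      have h1 : y₁ i * y₂ j - y₁ j * y₂ i ∈ RingHom.ker ψ.toRingHom := by
        change ψ _ = 0
        rw [map_sub, map_mul, map_mul, hψy, hψy]
        ring
      have h2 := hzP _ h1
      have e3 : ∀ (G : Fin 8 → Fin 8 → K) (i : Fin 8), MvPolynomial.eval z
          (((pm G).map MvPolynomial.C).mulVec MvPolynomial.X i) = (pm G).mulVec z i := by
        intro G i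
        simp [Matrix.mulVec, dotProduct]
      rw [map_sub, map_mul, map_mul, hy₁, hy₂, e3, e3, e3, e3] at h2
      linear_combination h2
    obtain ⟨a, b, hab, hrel⟩ := exists_rel_of_minors hminor
    obtain ⟨h1, h2⟩ := hs z hz0 hq1 hq2 a b (by
      rw [Matrix.add_mulVec, Matrix.smul_mulVec, Matrix.smul_mulVec]
      exact hrel)
    rcases hab with h | h
    · exact h h1
    · exact h h2

end

end Pool.Agent.Helper26
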