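import Mathlib
import Pool.Agent.Helper26.Degen3

set_option autoImplicit false
set_option linter.unusedSectionVars false

/-!
# Cyclic subspaces of a self-adjoint operator
-/

namespace Pool.Agent.Helper26

open Matrix Finset Polynomial

section

variable {k : Type*} [Field k] [CharP k 2]

/-- Cyclic subspaces are isotropic. -/
lemma cyclic_isotropic {n : Type*} [Fintype n] [DecidableEq n] {B A : Matrix n n k}
    (hB : ∀ i j, B i j = B j i) (hd : ∀ i, B i i = 0) (hBA : ∀ i j, (B * A) i j = (B * A) j i)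
    (hBAd : ∀ i, (B * A) i i = 0) (w : n → k) (i j : ℕ) :
    ((A ^ i).mulVec w) ⬝ᵥ B.mulVec ((A ^ j).mulVec w) = 0 := by
  have hadj : ∀ x y : n → k, (A.mulVec x) ⬝ᵥ B.mulVec y = x ⬝ᵥ B.mulVec (A.mulVec y) := by
    intro x y
    rw [dot_symm hB, Matrix.mulVec_mulVec, dot_symm hBA, ← Matrix.mulVec_mulVec]
  have hpow : ∀ (i : ℕ) (x y : n → k), ((A ^ i).mulVec x) ⬝ᵥ B.mulVec y =
      x ⬝ᵥ B.mulVec ((A ^ i).mulVec y) := by
    intro i
    induction i with
    | zero => intro x y; simp
    | succ i ih =>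
      intro x y
      have h1 : (A ^ (i + 1)).mulVec y = A.mulVec ((A ^ i).mulVec y) := by
        rw [Matrix.mulVec_mulVec, ← pow_succ']
      rw [h1, ← hadj, pow_succ, ← Matrix.mulVec_mulVec, ih]
  rw [hpow, Matrix.mulVec_mulVec w (A ^ i) (A ^ j), ← pow_add]
  rcases Nat.even_or_odd (i + j) with ⟨m, hm⟩ | ⟨m, hm⟩
  · rw [hm, pow_add, ← Matrix.mulVec_mulVec, ← hpow, dot_self hB hd]
  · have h1 : A ^ (i + j) = A ^ m * (A * A ^ m) := by
      rw [hm, ← pow_succ', ← pow_add]
      congr 1
      omega
    rw [h1, ← Matrix.mulVec_mulVec, ← hpow, ← Matrix.mulVec_mulVec, Matrix.mulVec_mulVec _ B A,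
      dot_self hBA hBAd]

/-- Isotropic families in dimension eight have at most four independent members. -/
lemma no_five_isotropic {B : Matrix (Fin 8) (Fin 8) k} (hdet : B.det ≠ 0)
    (x : Fin 5 → Fin 8 → k) (hx : LinearIndependent k x)
    (hiso : ∀ i j, x i ⬝ᵥ B.mulVec (x j) = 0) : False := by
  have hunit : IsUnit B := (Matrix.isUnit_iff_isUnit_det B).2 (isUnit_iff_ne_zero.2 hdet)
  set N : Matrix (Fin 5) (Fin 8) k := Matrix.of x * B with hN
  have hrank : N.rank = 5 := by
    have h1 : (Matrix.of x).rank = 5 := by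
      have := LinearIndependent.rank_matrix (M := Matrix.of x) hx
      rwa [Fintype.card_fin] at this
    rw [hN, Matrix.rank_mul_eq_left_of_isUnit_det B (Matrix.of x)
      ((Matrix.isUnit_iff_isUnit_det B).1 hunit), h1]
  have hker : Module.finrank k (LinearMap.ker N.mulVecLin) = 3 := by
    have h1 := N.mulVecLin.finrank_range_add_finrank_ker
    rw [Module.finrank_fin_fun] at h1
    have h2 : Module.finrank k (LinearMap.range N.mulVecLin) = 5 := hrank
    omega
  have hmem : ∀ j, x j ∈ LinearMap.ker N.mulVecLin := by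
    intro j
    rw [LinearMap.mem_ker, Matrix.mulVecLin_apply, hN, ← Matrix.mulVec_mulVec]
    ext i
    exact hiso i j
  have hspan : Submodule.span k (Set.range x) ≤ LinearMap.ker N.mulVecLin := by
    rw [Submodule.span_le]
    rintro _ ⟨j, rfl⟩
    exact hmem j
  have h1 := Submodule.finrank_mono hspan
  rw [finrank_span_eq_card hx, hker, Fintype.card_fin] at h1
  omega

/-- A vector whose annihilator is generated by the minimal polynomial. -/
lemma exists_generic [Infinite k] {n : Type*} [Fintype n] [DecidableEq n] (A : Matrix n n k) :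
    ∃ w : n → k, ∀ q : k[X], q ≠ 0 → q.natDegree < (minpoly k A).natDegree →
      (aeval A q).mulVec w ≠ 0 := by
  classical
  set m := minpoly k A with hm
  have hint : IsIntegral k A := Algebra.IsIntegral.isIntegral A
  have hm0 : m ≠ 0 := minpoly.ne_zero hint
  set S := (UniqueFactorizationMonoid.normalizedFactors m).toFinset with hS
  have hdvd : ∀ p ∈ S, p ∣ m := by
    intro p hp
    rw [hS, Multiset.mem_toFinset] at hp
    exact UniqueFactorizationMonoid.dvd_of_mem_normalizedFactors hp
  have hirr : ∀ p ∈ S, Irreducible p := by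
    intro p hp
    rw [hS, Multiset.mem_toFinset] at hp
    exact UniqueFactorizationMonoid.irreducible_of_normalized_factor p hp
  choose! r hr using hdvd
  have hr0 : ∀ p ∈ S, r p ≠ 0 := by
    intro p hp h0
    have := hr p hp
    rw [h0, mul_zero] at this
    exact hm0 this
  have hrA : ∀ p ∈ S, aeval A (r p) ≠ 0 := by
    intro p hp h0
    have h1 : m ∣ r p := minpoly.dvd k A h0
    have h2 := natDegree_le_of_dvd h1 (hr0 p hp)
    have h3 : m.natDegree = p.natDegree + (r p).natDegree := by
      rw [← natDegree_mul (hirr p hp).ne_zero (hr0 p hp), ← hr p hp]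
    have h4 := (hirr p hp).natDegree_pos
    omega
  set U : k[X] → Submodule k (n → k) := fun p => LinearMap.ker (aeval A (r p)).mulVecLin with hU
  have hne : (⋃ p ∈ S, (U p : Set (n → k))) ≠ Set.univ := by
    intro huniv
    have := Subspace.top_mem_of_biUnion_eq_univ (s := S.image U) (by
      rw [← huniv]
      ext x
      simp)
    rw [Finset.mem_image] at this
    obtain ⟨p, hp, h1⟩ := this
    apply hrA p hp
    have h2 : (aeval A (r p)).mulVecLin = 0 := LinearMap.ker_eq_top.1 h1
    ext i j
    have h3 := congrArg (fun f => f (Pi.single j 1) i) h2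
    simpa using h3
  obtain ⟨w, hw⟩ := (Set.ne_univ_iff_exists_notMem _).1 hne
  refine ⟨w, ?_⟩
  intro q hq0 hdeg hqw
  -- the greatest common divisor kills `w`
  set g := EuclideanDomain.gcd q m with hg
  have hgw : (aeval A g).mulVec w = 0 := by
    have h1 : g = EuclideanDomain.gcdA q m * q + EuclideanDomain.gcdB q m * m := by
      rw [hg, EuclideanDomain.gcd_eq_gcd_ab q m]
      ring
    rw [h1, map_add, map_mul, map_mul, minpoly.aeval, mul_zero, add_zero, ← Matrix.mulVec_mulVec,
      hqw, Matrix.mulVec_zero]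
  obtain ⟨h, hgh⟩ := EuclideanDomain.gcd_dvd_right q m
  rw [← hg] at hgh
  have hg0 : g ≠ 0 := by
    intro h0
    rw [h0, zero_mul] at hgh
    exact hm0 hgh
  have hh0 : h ≠ 0 := by
    rintro rfl
    rw [mul_zero] at hgh
    exact hm0 hgh
  have hgdeg : g.natDegree ≤ q.natDegree :=
    natDegree_le_of_dvd (EuclideanDomain.gcd_dvd_left q m) hq0
  have hhu : ¬ IsUnit h := by
    intro hu
    have h1 : m.natDegree = g.natDegree + h.natDegree := by
      rw [← natDegree_mul hg0 hh0, ← hgh]
    have h2 := natDegree_eq_zero_of_isUnit hu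
    omega
  obtain ⟨p, hp, hph⟩ := WfDvdMonoid.exists_irreducible_factor hhu hh0
  obtain ⟨p', hp', hpp'⟩ := UniqueFactorizationMonoid.exists_mem_normalizedFactors_of_dvd hm0 hp
    (hph.trans (Dvd.intro_left g hgh.symm))
  have hp'S : p' ∈ S := by
    rw [hS, Multiset.mem_toFinset]
    exact hp'
  obtain ⟨h', hh'⟩ := (hpp'.dvd_iff_dvd_left).1 hph
  have h3 : r p' = g * h' := by
    apply mul_left_cancel₀ (hirr p' hp'S).ne_zero
    rw [← hr p' hp'S, hgh, hh']
    ring
  apply hw
  rw [Set.mem_iUnion₂]
  refine ⟨p', hp'S, ?_⟩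
  change w ∈ LinearMap.ker (aeval A (r p')).mulVecLin
  rw [LinearMap.mem_ker, Matrix.mulVecLin_apply, h3, mul_comm, map_mul, ← Matrix.mulVec_mulVec,
    hgw, Matrix.mulVec_zero]

/-- The self-adjoint operator has a monic annihilating polynomial of degree four. -/
lemma exists_quartic [Infinite k] {B A : Matrix (Fin 8) (Fin 8) k}
    (hB : ∀ i j, B i j = B j i) (hd : ∀ i, B i i = 0) (hBA : ∀ i j, (B * A) i j = (B * A) j i)
    (hBAd : ∀ i, (B * A) i i = 0) (hdet : B.det ≠ 0) :
    ∃ μ : Fin 4 → k, A ^ 4 + μ 3 • A ^ 3 + μ 2 • A ^ 2 + μ 1 • A + μ 0 • (1 : Matrix _ _ k) = 0 := by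
  have hint : IsIntegral k A := Algebra.IsIntegral.isIntegral A
  have hdeg : (minpoly k A).natDegree ≤ 4 := by
    by_contra hcon
    push Not at hcon
    obtain ⟨w, hw⟩ := exists_generic A
    apply no_five_isotropic hdet (fun i : Fin 5 => (A ^ (i : ℕ)).mulVec w) ?_
      (fun i j => cyclic_isotropic hB hd hBA hBAd w i j)
    rw [Fintype.linearIndependent_iff]
    intro c hc i
    set q : k[X] := ∑ i : Fin 5, C (c i) * X ^ (i : ℕ) with hq
    have hqw : (aeval A q).mulVec w = 0 := by
      rw [← hc, hq]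
      simp only [map_sum, map_mul, aeval_C, map_pow, aeval_X, Matrix.sum_mulVec]
      refine Finset.sum_congr rfl fun i _ => ?_
      rw [← Algebra.smul_def, Matrix.smul_mulVec]
    have hqdeg : q.natDegree ≤ 4 := by
      rw [hq]
      apply natDegree_sum_le_of_forall_le
      intro i _
      refine (natDegree_C_mul_X_pow_le _ _).trans ?_
      omega
    have hq0 : q = 0 := by
      by_contra hne
      exact hw q hne (by omega) hqw
    have h1 := congrArg (fun p => p.coeff (i : ℕ)) hq0
    simp only [hq, finset_sum_coeff, coeff_C_mul, coeff_X_pow, coeff_zero] at h1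
    rw [Finset.sum_eq_single i] at h1
    · simpa using h1
    · intro j _ hji
      rw [if_neg, mul_zero]
      intro h
      exact hji (Fin.ext h.symm)
    · intro h; exact absurd (Finset.mem_univ i) h
  -- multiply by a power of `X`
  set m := minpoly k A with hm
  have hmon : m.Monic := minpoly.monic hint
  set p := X ^ (4 - m.natDegree) * m with hp
  have hpm : p.Monic := (monic_X_pow _).mul hmon
  have hpd : p.natDegree = 4 := by
    rw [hp, natDegree_mul (pow_ne_zero _ X_ne_zero) hmon.ne_zero, natDegree_X_pow]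
    omega
  have hpA : aeval A p = 0 := by
    rw [hp, map_mul, minpoly.aeval, mul_zero]
  refine ⟨fun i => p.coeff i, ?_⟩
  rw [aeval_eq_sum_range, hpd] at hpA
  have hc4 : p.coeff 4 = 1 := by
    rw [← hpd]; exact hpm.coeff_natDegree
  simp only [Finset.sum_range_succ, Finset.sum_range_zero, zero_add, hc4, one_smul, pow_zero,
    pow_one] at hpA
  rw [← hpA]
  simp only [Fin.isValue, Fin.val_zero, Fin.val_one, Fin.val_two]
  have h3 : ((3 : Fin 4) : ℕ) = 3 := rfl
  rw [h3]
  abel

end

end Pool.Agent.Helper26
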