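import Mathlib
import Pool.Agent.Helper26.Cyclic

set_option autoImplicit false
set_option linter.unusedSectionVars false

/-!
# Good hyperplanes of a smooth pair in eight variables
-/

namespace Pool.Agent.Helper26

open Matrix Finset Polynomial

section

variable {R S : Type*} [CommRing R] [CommRing S] {n : Type*} [Fintype n]

/-- The vectors attached to `w`. -/
def pw (A : Matrix n n R) (μ : Fin 4 → R) (w : n → R) : Fin 4 → n → R :=
  ![A.mulVec (A.mulVec (A.mulVec w + μ 3 • w) + μ 2 • w) + μ 1 • w,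
    A.mulVec (A.mulVec w + μ 3 • w) + μ 2 • w, A.mulVec w + μ 3 • w, w]

lemma pw_map (f : R →+* S) (A : Matrix n n R) (μ : Fin 4 → R) (w : n → R) (j : Fin 4) (i : n) :
    f (pw A μ w j i) = pw (A.map f) (fun i => f (μ i)) (fun i => f (w i)) j i := by
  have h1 : ∀ v : n → R, (fun i => f (A.mulVec v i)) = (A.map f).mulVec (fun i => f (v i)) :=
    fun v => (mulVec_map f A v).symm
  have h2 : ∀ (v v' : n → R) (c : R), (fun i => f ((v + c • v') i)) =
      (fun i => f (v i)) + f c • fun i => f (v' i) := by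
    intro v v' c
    ext i
    simp
  have key : ∀ v : n → R, ∀ c : R, (fun i => f ((A.mulVec v + c • w) i)) =
      (A.map f).mulVec (fun i => f (v i)) + f c • fun i => f (w i) := by
    intro v c
    rw [h2, h1]
  fin_cases j
  · have := congrFun (key (A.mulVec (A.mulVec w + μ 3 • w) + μ 2 • w) (μ 1)) i
    rw [key, key] at this
    exact this
  · have := congrFun (key (A.mulVec w + μ 3 • w) (μ 2)) i
    rw [key] at this
    exact this
  · exact congrFun (key w (μ 3)) i
  · rfl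

/-- The resultant attached to `w`. -/
def rw8 (G₁ G₂ : n → n → R) (A : Matrix n n R) (μ : Fin 4 → R) (w : n → R) : R :=
  (sylvMat (fun j => qf G₁ (pw A μ w j)) (fun j => qf G₂ (pw A μ w j))).det

lemma rw8_map (f : R →+* S) (G₁ G₂ : n → n → R) (A : Matrix n n R) (μ : Fin 4 → R) (w : n → R) :
    f (rw8 G₁ G₂ A μ w) = rw8 (fun i j => f (G₁ i j)) (fun i j => f (G₂ i j)) (A.map f)
      (fun i => f (μ i)) (fun i => f (w i)) := by
  simp only [rw8, sylvMat_map, qf_map, pw_map]

end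

section

variable {K : Type*} [Field K] [CharP K 2] {n : Type*} [Fintype n] [DecidableEq n]

/-- The annihilation relation on vectors. -/
lemma quartic_mulVec {A : Matrix n n K} {μ : Fin 4 → K}
    (hμ : A ^ 4 + μ 3 • A ^ 3 + μ 2 • A ^ 2 + μ 1 • A + μ 0 • (1 : Matrix _ _ K) = 0) (z : n → K) :
    A.mulVec (A.mulVec (A.mulVec (A.mulVec z))) + μ 3 • A.mulVec (A.mulVec (A.mulVec z)) +
      μ 2 • A.mulVec (A.mulVec z) + μ 1 • A.mulVec z + μ 0 • z = 0 := by
  have h1 := congrArg (fun M => M.mulVec z) hμ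
  simp only [Matrix.add_mulVec, Matrix.smul_mulVec, Matrix.one_mulVec, Matrix.zero_mulVec] at h1
  rw [← h1]
  have e2 : A ^ 2 = A * A := pow_two A
  have e3 : A ^ 3 = A * (A * A) := by rw [pow_succ', pow_two]
  have e4 : A ^ 4 = A * (A * (A * A)) := by rw [pow_succ', e3]
  rw [e2, e3, e4]
  simp only [Matrix.mulVec_mulVec]

/-- The value of the vector polynomial of `(t + A) z`. -/
lemma kerAt_pw {A : Matrix n n K} {μ : Fin 4 → K}
    (hμ : A ^ 4 + μ 3 • A ^ 3 + μ 2 • A ^ 2 + μ 1 • A + μ 0 • (1 : Matrix _ _ K) = 0) (z : n → K)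
    (t : K) : kerAt (pw A μ (t • z + A.mulVec z)) t =
      (t ^ 4 + μ 3 * t ^ 3 + μ 2 * t ^ 2 + μ 1 * t + μ 0) • z := by
  have h1 := quartic_mulVec hμ z
  ext1 i
  have h2 := congrFun h1 i
  simp only [kerAt, pw, Matrix.cons_val_zero, Matrix.cons_val_one, Matrix.cons_val,
    Matrix.mulVec_add, Matrix.mulVec_smul, Pi.add_apply, Pi.smul_apply, smul_eq_mul,
    Pi.zero_apply, smul_add] at h2 ⊢
  generalize A.mulVec (A.mulVec (A.mulVec (A.mulVec z))) i = a4 at h2 ⊢
  generalize A.mulVec (A.mulVec (A.mulVec z)) i = a3 at h2 ⊢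
  generalize A.mulVec (A.mulVec z) i = a2 at h2 ⊢
  generalize A.mulVec z i = a1 at h2 ⊢
  generalize z i = a0 at h2 ⊢
  have d := fun x : K => CharTwo.add_self_eq_zero x
  linear_combination h2 + d (t * a3) + d (μ 3 * t * a2) + d (t ^ 2 * a2) + d (μ 2 * t * a1) +
    d (μ 3 * t ^ 2 * a1) + d (t ^ 3 * a1) - d (μ 0 * a0)

/-- The relation of the vectors attached to `w`. -/
lemma mulVec_pw {A : Matrix n n K} {μ : Fin 4 → K}
    (hμ : A ^ 4 + μ 3 • A ^ 3 + μ 2 • A ^ 2 + μ 1 • A + μ 0 • (1 : Matrix _ _ K) = 0) (w : n → K) :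
    A.mulVec (pw A μ w 0) = μ 0 • w ∧ A.mulVec (pw A μ w 1) = pw A μ w 0 + μ 1 • w ∧
    A.mulVec (pw A μ w 2) = pw A μ w 1 + μ 2 • w ∧ A.mulVec (pw A μ w 3) = pw A μ w 2 + μ 3 • w := by
  have h1 := quartic_mulVec hμ w
  have d := fun x : K => CharTwo.add_self_eq_zero x
  refine ⟨?_, ?_, ?_, ?_⟩
  · ext1 i
    have h2 := congrFun h1 i
    simp only [pw, Matrix.cons_val_zero, Matrix.mulVec_add, Matrix.mulVec_smul, Pi.add_apply,
      Pi.smul_apply, smul_eq_mul, Pi.zero_apply] at h2 ⊢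
    linear_combination h2 - d (μ 0 * w i)
  · ext1 i
    simp only [pw, Matrix.cons_val_zero, Matrix.cons_val_one, Pi.add_apply, Pi.smul_apply,
      smul_eq_mul]
    linear_combination - d (μ 1 * w i)
  · ext1 i
    simp only [pw, Matrix.cons_val_one, Matrix.cons_val, Pi.add_apply, Pi.smul_apply,
      smul_eq_mul]
    linear_combination - d (μ 2 * w i)
  · ext1 i
    simp only [pw, Matrix.cons_val, Pi.add_apply, Pi.smul_apply, smul_eq_mul]
    linear_combination - d (μ 3 * w i)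

end

section

variable {K : Type*} [Field K] [CharP K 2] {n : Type*} [Fintype n] [DecidableEq n]

/-- Isotropy of the vectors attached to `w`. -/
lemma pw_isotropic {B A : Matrix n n K} (hB : ∀ i j, B i j = B j i) (hd : ∀ i, B i i = 0)
    (hBA : ∀ i j, (B * A) i j = (B * A) j i) (hBAd : ∀ i, (B * A) i i = 0) (μ : Fin 4 → K)
    (w : n → K) (i j : Fin 4) :
    pw A μ w i ⬝ᵥ B.mulVec (pw A μ w j) = 0 ∧ pw A μ w i ⬝ᵥ (B * A).mulVec (pw A μ w j) = 0 := by
  obtain ⟨e, he⟩ : ∃ e : ℕ → n → K, e = fun i => (A ^ i).mulVec w := ⟨_, rfl⟩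
  have hc : ∀ i j, e i ⬝ᵥ B.mulVec (e j) = 0 := by
    intro i j
    rw [he]
    exact cyclic_isotropic hB hd hBA hBAd w i j
  have hc0 : ∀ i j, e i ⬝ᵥ (B * A).mulVec (e j) = 0 := by
    intro i j
    rw [he]
    simp only
    rw [← Matrix.mulVec_mulVec, Matrix.mulVec_mulVec _ A, ← pow_succ']
    exact cyclic_isotropic hB hd hBA hBAd w i (j + 1)
  have hexp : ∀ j, ∃ c : Fin 4 → K, pw A μ w j = c 0 • e 0 + c 1 • e 1 + c 2 • e 2 + c 3 • e 3 := by
    have e0 : e 0 = w := by rw [he]; simp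
    have e1 : e 1 = A.mulVec w := by rw [he]; simp
    have e2 : e 2 = A.mulVec (A.mulVec w) := by
      rw [he]
      simp only
      rw [pow_two, Matrix.mulVec_mulVec]
    have e3 : e 3 = A.mulVec (A.mulVec (A.mulVec w)) := by
      rw [he]
      simp only
      rw [pow_succ', pow_two]
      simp only [Matrix.mulVec_mulVec]
    intro j
    rw [e0, e1, e2, e3]
    fin_cases j
    · refine ⟨![μ 1, μ 2, μ 3, 1], ?_⟩
      simp [pw, Matrix.mulVec_add, Matrix.mulVec_smul]
      abel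
    · refine ⟨![μ 2, μ 3, 1, 0], ?_⟩
      simp [pw, Matrix.mulVec_add, Matrix.mulVec_smul]
      abel
    · refine ⟨![μ 3, 1, 0, 0], ?_⟩
      simp [pw]
      abel
    · refine ⟨![1, 0, 0, 0], ?_⟩
      simp [pw]
  obtain ⟨c, hci⟩ := hexp i
  obtain ⟨c', hcj⟩ := hexp j
  rw [hci, hcj]
  constructor
  · simp only [dot_add_left, dot_add_right, dot_smul_left, dot_smul_right, hc, mul_zero, add_zero]
  · simp only [dot_add_left, dot_add_right, dot_smul_left, dot_smul_right, hc0, mul_zero, add_zero]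

/-- If the resultant at `w` does not vanish, the hyperplane orthogonal to `w` is good. -/
lemma good_of_rw8 {G₁ G₂ : n → n → K} (hs : JacInd G₁ G₂) {A : Matrix n n K} {μ : Fin 4 → K}
    (hB : (pm G₁) * A = pm G₂) (hdet : IsUnit (pm G₁))
    (hμ : A ^ 4 + μ 3 • A ^ 3 + μ 2 • A ^ 2 + μ 1 • A + μ 0 • (1 : Matrix _ _ K) = 0) {w : n → K}
    (hw : rw8 G₁ G₂ A μ w ≠ 0) {z : n → K} (hz : z ≠ 0) (h1 : qf G₁ z = 0) (h2 : qf G₂ z = 0)
    {a b c : K} (hab : (a • pm G₁ + b • pm G₂).mulVec z = c • (pm G₁).mulVec w) :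
    a = 0 ∧ b = 0 := by
  by_contra hne
  have hne' : a ≠ 0 ∨ b ≠ 0 := by
    by_contra hcon
    push Not at hcon
    exact hne hcon
  have hc : c ≠ 0 := by
    rintro rfl
    rw [zero_smul] at hab
    exact hne (hs z hz h1 h2 a b hab)
  have hinj : Function.Injective (pm G₁).mulVec := Matrix.mulVec_injective_iff_isUnit.2 hdet
  have hwz : c • w = a • z + b • A.mulVec z := by
    apply hinj
    rw [Matrix.mulVec_smul, ← hab, Matrix.mulVec_add, Matrix.mulVec_smul, Matrix.mulVec_smul,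
      Matrix.mulVec_mulVec, hB, Matrix.add_mulVec, Matrix.smul_mulVec, Matrix.smul_mulVec]
  have hwz' : w = c⁻¹ • (a • z + b • A.mulVec z) := by
    rw [← hwz, smul_smul, inv_mul_cancel₀ hc, one_smul]
  apply hw
  by_cases hb : b = 0
  · have hwa : w = (c⁻¹ * a) • z := by
      rw [hwz', hb, zero_smul, add_zero, smul_smul]
    refine sylvMat_det_eq_zero (s := 1) (t := 0) (Or.inl one_ne_zero) ?_ ?_
    · have : qf G₁ (pw A μ w 3) = 0 := by
        change qf G₁ w = 0
        rw [hwa, qf_smul, h1, mul_zero]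
      rw [this]; ring
    · have : qf G₂ (pw A μ w 3) = 0 := by
        change qf G₂ w = 0
        rw [hwa, qf_smul, h2, mul_zero]
      rw [this]; ring
  · set t := a / b with ht
    have hwt : w = (c⁻¹ * b) • (t • z + A.mulVec z) := by
      rw [hwz', ← smul_smul]
      congr 1
      rw [smul_add, smul_smul, ht]
      congr 2
      field_simp
    have hker : kerAt (pw A μ w) t =
        (c⁻¹ * b * (t ^ 4 + μ 3 * t ^ 3 + μ 2 * t ^ 2 + μ 1 * t + μ 0)) • z := by
      have h3 : pw A μ w = fun j => (c⁻¹ * b) • pw A μ (t • z + A.mulVec z) j := by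
        nth_rewrite 1 [hwt]
        ext1 j
        fin_cases j <;> simp [pw, Matrix.mulVec_smul, Matrix.mulVec_add, smul_add, smul_comm (c⁻¹ * b)]
      have h4 : kerAt (pw A μ w) t = (c⁻¹ * b) • kerAt (pw A μ (t • z + A.mulVec z)) t := by
        rw [h3]
        simp only [kerAt, smul_add, smul_comm (c⁻¹ * b)]
      rw [h4, kerAt_pw hμ, smul_smul]
    have hBA' : (pm G₁) * A = pm G₂ := hB
    have hiso := fun i j => pw_isotropic (pm_symm G₁) (pm_diag G₁) (fun i j => by
      rw [hBA', pm_symm]) (fun i => by rw [hBA', pm_diag]) μ w i j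
    have q1 := qf_kerAt G₁ (pw A μ w) (fun i j => (hiso i j).1) t
    have q2 := qf_kerAt G₂ (pw A μ w) (fun i j => by
      have := (hiso i j).2
      rwa [hBA'] at this) t
    rw [hker, qf_smul, h1, mul_zero] at q1
    rw [hker, qf_smul, h2, mul_zero] at q2
    refine sylvMat_det_eq_zero (s := t ^ 2) (t := 1) (Or.inr one_ne_zero) ?_ ?_
    · linear_combination -q1
    · linear_combination -q2

end

end Pool.Agent.Helper26
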