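import Mathlib
import Pool.Agent.Helper26.Bert8

set_option autoImplicit false
set_option linter.unusedSectionVars false

/-!
# Existence of good hyperplanes of a smooth pair in eight variables
-/

namespace Pool.Agent.Helper26

open Matrix Finset

section

variable {K : Type*} [Field K] [CharP K 2]

lemma sylv_special (c : K) (hc : c ≠ 0) : (sylvMat ![0, 0, 0, c] ![c, 0, 0, 0]).det ≠ 0 := by
  intro h
  obtain ⟨v, hv0, hv⟩ := Matrix.exists_mulVec_eq_zero_iff.2 h
  apply hv0
  have g0 := congrFun hv 0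
  have g1 := congrFun hv 1
  have g2 := congrFun hv 2
  have g3 := congrFun hv 3
  have g4 := congrFun hv 4
  have g5 := congrFun hv 5
  simp [sylvMat, Matrix.mulVec, dotProduct, Fin.sum_univ_succ, hc] at g0 g1 g2 g3 g4 g5
  ext i
  fin_cases i
  · exact g3
  · exact g4
  · exact g5
  · exact g0
  · exact g1
  · exact g2

/-- Over an algebraically closed field the resultant does not vanish identically. -/
theorem exists_rw8 [IsAlgClosed K] {G₁ G₂ : Fin 8 → Fin 8 → K} (hs : JacInd G₁ G₂)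
    {A : Matrix (Fin 8) (Fin 8) K} {μ : Fin 4 → K} (hB : (pm G₁) * A = pm G₂)
    (hμ : A ^ 4 + μ 3 • A ^ 3 + μ 2 • A ^ 2 + μ 1 • A + μ 0 • (1 : Matrix _ _ K) = 0) :
    ∃ w : Fin 8 → K, rw8 G₁ G₂ A μ w ≠ 0 := by
  classical
  let P : Fin 4 → Fin 8 → MvPolynomial (Fin 8) K := fun j =>
    pw (A.map MvPolynomial.C) (fun i => MvPolynomial.C (μ i)) MvPolynomial.X j
  let q : (Fin 8 → Fin 8 → K) → Fin 4 → MvPolynomial (Fin 8) K := fun G j =>
    qf (fun i j => MvPolynomial.C (G i j)) (P j)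
  have hq : ∀ (G : Fin 8 → Fin 8 → K) (j : Fin 4) (w : Fin 8 → K),
      MvPolynomial.eval w (q G j) = qf G (pw A μ w j) := by
    intro G j w
    simp only [q, P, qf_map, pw_map]
    have e1 : (fun i j => MvPolynomial.eval w (MvPolynomial.C (G i j))) = G := by
      ext i j; simp
    have e2 : ((A.map MvPolynomial.C).map (MvPolynomial.eval w)) = A := by
      ext i j; simp
    have e3 : (fun i => MvPolynomial.eval w (MvPolynomial.C (μ i))) = μ := by
      ext i; simp
    have e4 : (fun i => MvPolynomial.eval w (MvPolynomial.X i)) = w := by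
      ext i; simp
    rw [e1, e2, e3, e4]
  have hpw0 : ∀ j, pw A μ (0 : Fin 8 → K) j = 0 := by
    intro j
    fin_cases j <;> simp [pw]
  have hq0 : ∀ (G : Fin 8 → Fin 8 → K) (j : Fin 4), MvPolynomial.eval 0 (q G j) = 0 := by
    intro G j
    rw [hq, hpw0]
    simp [qf]
  obtain ⟨w, hw0, hw⟩ := exists_common_zero (K := K) (N := 8)
    ({q G₁ 0, q G₁ 1, q G₁ 2, q G₂ 1, q G₂ 2, q G₂ 3, q G₁ 3 - q G₂ 0} :
      Finset (MvPolynomial (Fin 8) K))
    (lt_of_le_of_lt ((Finset.card_insert_le _ _).trans (Nat.succ_le_succ Finset.card_le_six))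
      (by norm_num))
    (by
      intro p hp
      simp only [Finset.mem_insert, Finset.mem_singleton] at hp
      rcases hp with rfl | rfl | rfl | rfl | rfl | rfl | rfl
      · exact hq0 _ _
      · exact hq0 _ _
      · exact hq0 _ _
      · exact hq0 _ _
      · exact hq0 _ _
      · exact hq0 _ _
      · rw [map_sub, hq0, hq0, sub_zero])
  have a0 : qf G₁ (pw A μ w 0) = 0 := by rw [← hq]; exact hw _ (by simp)
  have a1 : qf G₁ (pw A μ w 1) = 0 := by rw [← hq]; exact hw _ (by simp)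
  have a2 : qf G₁ (pw A μ w 2) = 0 := by rw [← hq]; exact hw _ (by simp)
  have b1 : qf G₂ (pw A μ w 1) = 0 := by rw [← hq]; exact hw _ (by simp)
  have b2 : qf G₂ (pw A μ w 2) = 0 := by rw [← hq]; exact hw _ (by simp)
  have b3 : qf G₂ (pw A μ w 3) = 0 := by rw [← hq]; exact hw _ (by simp)
  have ab : qf G₁ (pw A μ w 3) = qf G₂ (pw A μ w 0) := by
    have := hw (q G₁ 3 - q G₂ 0) (by simp)
    rw [map_sub, hq, hq] at this
    exact sub_eq_zero.1 this
  refine ⟨w, ?_⟩
  have hA : (fun j => qf G₁ (pw A μ w j)) = ![0, 0, 0, qf G₁ (pw A μ w 3)] := by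
    ext j; fin_cases j
    · exact a0
    · exact a1
    · exact a2
    · rfl
  have hB' : (fun j => qf G₂ (pw A μ w j)) = ![qf G₁ (pw A μ w 3), 0, 0, 0] := by
    ext j; fin_cases j
    · exact ab.symm
    · exact b1
    · exact b2
    · exact b3
  rw [rw8, hA, hB']
  apply sylv_special
  intro hc
  have b0 : qf G₂ (pw A μ w 0) = 0 := by rw [← ab]; exact hc
  have all1 : ∀ j, qf G₁ (pw A μ w j) = 0 := by
    intro j; fin_cases j
    · exact a0
    · exact a1
    · exact a2
    · exact hc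
  have all2 : ∀ j, qf G₂ (pw A μ w j) = 0 := by
    intro j; fin_cases j
    · exact b0
    · exact b1
    · exact b2
    · exact b3
  have hiso := fun i j => pw_isotropic (pm_symm G₁) (pm_diag G₁) (fun i j => by
      rw [hB, pm_symm]) (fun i => by rw [hB, pm_diag]) μ w i j
  -- the cyclic subspace
  set C := Submodule.span K (Set.range (pw A μ w)) with hC
  have hmem : ∀ x ∈ C, ∃ c : Fin 4 → K, x = c 0 • pw A μ w 0 + c 1 • pw A μ w 1 +
      c 2 • pw A μ w 2 + c 3 • pw A μ w 3 := by
    intro x hx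
    rw [hC, Submodule.mem_span_range_iff_exists_fun] at hx
    obtain ⟨c, hc⟩ := hx
    exact ⟨c, by rw [← hc, Fin.sum_univ_four]⟩
  have hpC : ∀ j, pw A μ w j ∈ C := fun j => Submodule.subset_span ⟨j, rfl⟩
  have hwC : w ∈ C := hpC 3
  obtain ⟨r0, r1, r2, r3⟩ := mulVec_pw hμ w
  have hstab : ∀ x ∈ C, A.mulVecLin x ∈ C := by
    intro x hx
    obtain ⟨c, rfl⟩ := hmem x hx
    rw [map_add, map_add, map_add, map_smul, map_smul, map_smul, map_smul]
    simp only [Matrix.mulVecLin_apply, r0, r1, r2, r3]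
    exact C.add_mem (C.add_mem (C.add_mem (C.smul_mem _ (C.smul_mem _ hwC))
      (C.smul_mem _ (C.add_mem (hpC 0) (C.smul_mem _ hwC))))
      (C.smul_mem _ (C.add_mem (hpC 1) (C.smul_mem _ hwC))))
      (C.smul_mem _ (C.add_mem (hpC 2) (C.smul_mem _ hwC)))
  have hnt : Nontrivial C := ⟨⟨⟨w, hwC⟩, 0, fun h => hw0 (congrArg Subtype.val h)⟩⟩
  obtain ⟨θ, hθ⟩ := Module.End.exists_eigenvalue (A.mulVecLin.restrict hstab)
  obtain ⟨z, hz⟩ := hθ.exists_hasEigenvector
  have hz0 : (z : Fin 8 → K) ≠ 0 := fun h => hz.2 (Subtype.ext h)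
  have hAz : A.mulVec (z : Fin 8 → K) = θ • (z : Fin 8 → K) := by
    have := congrArg Subtype.val hz.apply_eq_smul
    simpa using this
  obtain ⟨c, hcz⟩ := hmem z z.2
  have hq1 : qf G₁ (z : Fin 8 → K) = 0 := by
    rw [hcz, qf_isotropic G₁ (pw A μ w) (fun i j => (hiso i j).1)]
    simp [all1]
  have hq2 : qf G₂ (z : Fin 8 → K) = 0 := by
    rw [hcz, qf_isotropic G₂ (pw A μ w) (fun i j => by
      have := (hiso i j).2
      rwa [hB] at this)]
    simp [all2]
  have := hs z hz0 hq1 hq2 θ 1 (by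
    rw [Matrix.add_mulVec, Matrix.smul_mulVec, one_smul, ← hB, ← Matrix.mulVec_mulVec, hAz,
      Matrix.mulVec_smul]
    ext i
    exact CharTwo.add_self_eq_zero _)
  exact one_ne_zero this.2

end

section

variable {k : Type*} [Field k] [CharP k 2]

/-- Over an infinite field there is a good vector. -/
theorem exists_rw8_of_infinite [Infinite k] {G₁ G₂ : Fin 8 → Fin 8 → k}
    (hs : JacInd (fun i j => algebraMap k (AlgebraicClosure k) (G₁ i j))
      (fun i j => algebraMap k (AlgebraicClosure k) (G₂ i j)))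
    {A : Matrix (Fin 8) (Fin 8) k} {μ : Fin 4 → k} (hB : (pm G₁) * A = pm G₂)
    (hμ : A ^ 4 + μ 3 • A ^ 3 + μ 2 • A ^ 2 + μ 1 • A + μ 0 • (1 : Matrix _ _ k) = 0) :
    ∃ w : Fin 8 → k, rw8 G₁ G₂ A μ w ≠ 0 := by
  have hc : CharP (AlgebraicClosure k) 2 :=
    charP_of_injective_algebraMap (algebraMap k (AlgebraicClosure k)).injective 2
  set f := algebraMap k (AlgebraicClosure k) with hf
  obtain ⟨W, hW⟩ := exists_rw8 (A := A.map f) (μ := fun i => f (μ i)) hs (by
    rw [← pm_map, ← pm_map, ← hB, Matrix.map_mul]) (by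
    have h1 := congrArg (fun M : Matrix (Fin 8) (Fin 8) k => M.map f) hμ
    have hadd : ∀ M N : Matrix (Fin 8) (Fin 8) k, (M + N).map f = M.map f + N.map f :=
      fun M N => Matrix.map_add f (map_add f) M N
    have hsm : ∀ (c : k) (M : Matrix (Fin 8) (Fin 8) k), (c • M).map f = f c • M.map f := by
      intro c M
      ext i j
      simp
    have hpow : ∀ j : ℕ, (A ^ j).map f = (A.map f) ^ j := by
      intro j
      exact map_pow f.mapMatrix A j
    simp only [hadd, hsm, hpow] at h1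
    rw [Matrix.map_one f (map_zero f) (map_one f)] at h1
    rw [h1]
    ext i j
    simp)
  by_contra hcon
  push Not at hcon
  set p : MvPolynomial (Fin 8) k := rw8 (fun i j => MvPolynomial.C (G₁ i j))
    (fun i j => MvPolynomial.C (G₂ i j)) (A.map MvPolynomial.C) (fun i => MvPolynomial.C (μ i))
    MvPolynomial.X with hp
  have hp0 : p = 0 := by
    apply MvPolynomial.funext
    intro w
    rw [map_zero, hp, rw8_map]
    have h1 := hcon w
    rw [← h1]
    congr 1
    · ext i j; simp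
    · ext i j; simp
    · ext i j; simp
    · ext i; simp
    · ext i; simp
  apply hW
  have h2 : MvPolynomial.aeval W p = 0 := by rw [hp0, map_zero]
  have h3 := rw8_map (MvPolynomial.aeval (R := k) W).toRingHom
    (fun i j => MvPolynomial.C (G₁ i j)) (fun i j => MvPolynomial.C (G₂ i j))
    (A.map MvPolynomial.C) (fun i => MvPolynomial.C (μ i)) MvPolynomial.X
  rw [← hp] at h3
  have h4 : (MvPolynomial.aeval (R := k) W).toRingHom p = 0 := h2
  rw [h4] at h3
  rw [h3]
  congr 1
  · ext i j; simp [hf]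
  · ext i j; simp [hf]
  · ext i j; simp [hf]
  · ext i; simp [hf]
  · ext i; simp

end

end Pool.Agent.Helper26
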