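import Mathlib
import Pool.Agent.Helper26.Bert8b

set_option autoImplicit false
set_option linter.unusedSectionVars false

/-!
# A good hyperplane over the ground field, and transfer of smoothness
-/

namespace Pool.Agent.Helper26

open Matrix Finset

section

lemma JacInd.unchange {n : Type*} [Fintype n] {R : Type*} [CommRing R] {g₁ g₂ : n → n → R}
    {r : R} (hs : JacInd (fun i j => r * g₁ i j + g₂ i j) g₁) : JacInd g₁ g₂ := by
  intro x hx h1 h2 a b hab
  obtain ⟨e1, e2⟩ := hs x hx (by rw [qf_change, h1, h2]; ring) h1 b (a - b * r) (by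
    rw [pm_change, ← hab]
    congr 1
    ext i j
    simp only [Matrix.add_apply, Matrix.smul_apply, smul_eq_mul]
    ring)
  rw [e1, zero_mul, sub_zero] at e2
  exact ⟨e2, e1⟩

variable {k : Type*} [Field k] [CharP k 2]

theorem exists_hyperplane [Infinite k] {G₁ G₂ : Fin 8 → Fin 8 → k}
    (hs : JacInd (fun i j => algebraMap k (AlgebraicClosure k) (G₁ i j))
      (fun i j => algebraMap k (AlgebraicClosure k) (G₂ i j))) :
    ∃ T : Fin 7 → Fin 8 → k, (∀ w, comb T w = 0 → w = 0) ∧
      JacInd (fun i j => algebraMap k (AlgebraicClosure k) (pull G₁ T i j))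
        (fun i j => algebraMap k (AlgebraicClosure k) (pull G₂ T i j)) := by
  have hc : CharP (AlgebraicClosure k) 2 :=
    charP_of_injective_algebraMap (algebraMap k (AlgebraicClosure k)).injective 2
  set f := algebraMap k (AlgebraicClosure k) with hf
  -- a nondegenerate member over `k`
  obtain ⟨r, hr⟩ : ∃ r : k, (r • pm G₁ + (1 : k) • pm G₂).det ≠ 0 := by
    by_contra hcon
    push Not at hcon
    have hD : (pencil (pm G₁) (pm G₂)).det = 0 := by
      apply Polynomial.funext
      intro t
      rw [Polynomial.eval_zero]
      have h1 := RingHom.map_det (Polynomial.evalRingHom t) (pencil (pm G₁) (pm G₂))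
      rw [Polynomial.coe_evalRingHom] at h1
      rw [h1, ← hcon t]
      congr 1
      ext i j
      rw [RingHom.mapMatrix_apply, Matrix.map_apply]
      simp [pencil]
      ring
    obtain ⟨a, b, hab⟩ := exists_nondeg hs
    apply hab
    have hev : ∀ t : AlgebraicClosure k, (t • pm (fun i j => f (G₁ i j)) +
        pm (fun i j => f (G₂ i j))).det = 0 := by
      intro t
      have h1 := RingHom.map_det (Polynomial.aeval (R := k) t).toRingHom (pencil (pm G₁) (pm G₂))
      rw [hD, map_zero] at h1
      rw [h1]
      congr 1
      ext i j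
      rw [RingHom.mapMatrix_apply, Matrix.map_apply]
      simp [pencil, pm, hf]
    by_cases hb : b = 0
    · have h1 := Polynomial.coeff_det_X_add_C_card (pm G₁) (pm G₂)
      have h2 : (Polynomial.X : Polynomial k) • (pm G₁).map Polynomial.C +
          (pm G₂).map Polynomial.C = pencil (pm G₁) (pm G₂) := rfl
      rw [h2, hD, Polynomial.coeff_zero] at h1
      have h3 : (pm fun i j => f (G₁ i j)).det = 0 := by
        rw [← pm_map]
        have h4 := RingHom.map_det f (pm G₁)
        rw [← h1, map_zero] at h4
        exact h4.symm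
      rw [hb, zero_smul, add_zero, Matrix.det_smul, h3, mul_zero]
    · have h1 : a • pm (fun i j => f (G₁ i j)) + b • pm (fun i j => f (G₂ i j)) =
          b • ((a / b) • pm (fun i j => f (G₁ i j)) + pm (fun i j => f (G₂ i j))) := by
        rw [smul_add, smul_smul, mul_div_cancel₀ _ hb]
      rw [h1, Matrix.det_smul, hev, mul_zero]
  set H : Fin 8 → Fin 8 → k := fun i j => r * G₁ i j + G₂ i j with hH
  have hpmH : pm H = r • pm G₁ + (1 : k) • pm G₂ := pm_change G₁ G₂ r
  have hdet : (pm H).det ≠ 0 := by rw [hpmH]; exact hr
  have hunit : IsUnit (pm H).det := isUnit_iff_ne_zero.2 hdet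
  have hsH : JacInd (fun i j => f (H i j)) (fun i j => f (G₁ i j)) := by
    have := hs.change (f r)
    simpa only [hH, map_add, map_mul] using this
  set A : Matrix (Fin 8) (Fin 8) k := (pm H)⁻¹ * pm G₁ with hA
  have hBA : pm H * A = pm G₁ := by
    rw [hA, ← Matrix.mul_assoc, Matrix.mul_nonsing_inv _ hunit, Matrix.one_mul]
  obtain ⟨μ, hμ⟩ := exists_quartic (B := pm H) (A := A) (pm_symm H) (pm_diag H)
    (fun i j => by rw [hBA, pm_symm]) (fun i => by rw [hBA, pm_diag]) hdet
  obtain ⟨w, hw⟩ := exists_rw8_of_infinite hsH hBA hμ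
  set h := (pm H).mulVec w with hh
  have hh0 : h ≠ 0 := by
    intro h0
    have hw0 : w = 0 := by
      apply Matrix.mulVec_injective_iff_isUnit.2 ((Matrix.isUnit_iff_isUnit_det _).2 hunit)
      rw [Matrix.mulVec_zero]
      exact h0
    apply hw
    have hpw0 : ∀ j, pw A μ (0 : Fin 8 → k) j = 0 := by
      intro j
      fin_cases j <;> simp [pw]
    rw [hw0, rw8]
    refine sylvMat_det_eq_zero (s := 1) (t := 0) (Or.inl one_ne_zero) ?_ ?_
    · rw [hpw0 3]; simp [qf]
    · rw [hpw0 3]; simp [qf]
  obtain ⟨i₀, hi₀⟩ := Function.ne_iff.1 hh0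
  have hi₀' : h i₀ ≠ 0 := hi₀
  set T : Fin 7 → Fin 8 → k := fun j => h i₀ • Pi.single (i₀.succAbove j) 1 +
    h (i₀.succAbove j) • Pi.single i₀ 1 with hT
  have hTs : ∀ (j j' : Fin 7), T j (i₀.succAbove j') = if j = j' then h i₀ else 0 := by
    intro j j'
    simp only [hT, Pi.add_apply, Pi.smul_apply, smul_eq_mul, Pi.single_apply]
    rw [if_neg (Fin.succAbove_ne i₀ j')]
    by_cases hj : j = j'
    · rw [if_pos hj, if_pos (by rw [hj])]; ring
    · rw [if_neg hj, if_neg (by
        intro h'
        exact hj (Fin.succAbove_right_injective h').symm)]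
      ring
  have hTinj : ∀ (f' : k →+* AlgebraicClosure k) (u : Fin 7 → AlgebraicClosure k),
      comb (fun i j => f' (T i j)) u = 0 → u = 0 := by
    intro f' u hu
    ext j
    have h1 := congrFun hu (i₀.succAbove j)
    simp only [comb, hTs, Pi.zero_apply] at h1
    simp only [apply_ite f', map_zero, mul_ite, mul_zero, Finset.sum_ite_eq', Finset.mem_univ,
      if_true] at h1
    rcases mul_eq_zero.1 h1 with h2 | h2
    · exact h2
    · exact absurd ((map_eq_zero f').1 h2) hi₀'
  refine ⟨T, ?_, ?_⟩
  · intro u hu
    ext j
    have h1 := congrFun hu (i₀.succAbove j)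
    simp only [comb, hTs, Pi.zero_apply, mul_ite, mul_zero, Finset.sum_ite_eq', Finset.mem_univ,
      if_true] at h1
    exact (mul_eq_zero.1 h1).resolve_right hi₀'
  · have hjac : JacInd (fun i j => f (pull H T i j)) (fun i j => f (pull G₁ T i j)) := by
      intro u hu h1 h2 a b hab
      simp only [pull_map] at h1 h2 hab
      have h1' := qf_pull (fun i j => f (H i j)) (fun i j => f (T i j)) u
      have h2' := qf_pull (fun i j => f (G₁ i j)) (fun i j => f (T i j)) u
      set z := comb (fun i j => f (T i j)) u with hz
      have hz0 : z ≠ 0 := fun h => hu (hTinj f u h)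
      have hqz1 : qf (fun i j => f (H i j)) z = 0 := by rw [← h1']; exact h1
      have hqz2 : qf (fun i j => f (G₁ i j)) z = 0 := by rw [← h2']; exact h2
      set v := (a • pm (fun i j => f (H i j)) + b • pm (fun i j => f (G₁ i j))).mulVec z with hv
      have hTv : ∀ j, (fun l => f (T j l)) ⬝ᵥ v = 0 := by
        intro j
        have h7 := congrFun hab j
        have h8 := mulVec_pull (fun i j => f (H i j)) (fun i j => f (T i j)) u j
        have h9 := mulVec_pull (fun i j => f (G₁ i j)) (fun i j => f (T i j)) u j
        rw [Matrix.add_mulVec, Matrix.smul_mulVec, Matrix.smul_mulVec, Pi.add_apply,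
          Pi.smul_apply, Pi.smul_apply] at h7
        rw [hv, Matrix.add_mulVec, Matrix.smul_mulVec, Matrix.smul_mulVec, dotProduct_add,
          dotProduct_smul, dotProduct_smul, ← h8, ← h9]
        exact h7
      have hfh : (fun i => f (h i)) = (pm (fun i j => f (H i j))).mulVec (fun i => f (w i)) := by
        rw [hh, ← mulVec_map, pm_map]
      have hvh : v = (v i₀ / f (h i₀)) • (fun i => f (h i)) := by
        have hfi : f (h i₀) ≠ 0 := by rw [Ne, map_eq_zero]; exact hi₀'
        ext l
        rcases Fin.eq_self_or_eq_succAbove i₀ l with h' | ⟨j, h'⟩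
        · rw [h']
          simp only [Pi.smul_apply, smul_eq_mul]
          field_simp
        · rw [h']
          have h10 := hTv j
          have h11 : (fun l => f (T j l)) ⬝ᵥ v =
              f (h i₀) * v (i₀.succAbove j) + f (h (i₀.succAbove j)) * v i₀ := by
            rw [dotProduct, Fin.sum_univ_succAbove _ i₀]
            simp only [hTs, apply_ite f, map_zero, ite_mul, zero_mul, Finset.sum_ite_eq,
              Finset.mem_univ, if_true]
            have h12 : T j i₀ = h (i₀.succAbove j) := by
              simp only [hT, Pi.add_apply, Pi.smul_apply, smul_eq_mul, Pi.single_apply]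
              rw [if_neg (Fin.succAbove_ne i₀ j).symm]
              simp
            rw [h12]
            ring
          rw [h11] at h10
          simp only [Pi.smul_apply, smul_eq_mul]
          have h13 : f (h i₀) * v (i₀.succAbove j) = f (h (i₀.succAbove j)) * v i₀ :=
            CharTwo.add_eq_zero.1 h10
          field_simp
          linear_combination h13
      refine good_of_rw8 (A := A.map f) (μ := fun i => f (μ i)) (w := fun i => f (w i)) hsH ?_ ?_ ?_
        ?_ hz0 hqz1 hqz2 (c := v i₀ / f (h i₀)) ?_
      · have hmm : (pm H * A).map f = (pm H).map f * A.map f := Matrix.map_mul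
        rw [← pm_map, ← pm_map, ← hmm, hBA]
      · rw [Matrix.isUnit_iff_isUnit_det, isUnit_iff_ne_zero, ← pm_map]
        have h4 := RingHom.map_det f (pm H)
        change ((f.mapMatrix (pm H))).det ≠ 0
        rw [← h4, Ne, map_eq_zero]
        exact hdet
      · have h1 := congrArg (fun M : Matrix (Fin 8) (Fin 8) k => M.map f) hμ
        have hadd : ∀ M N : Matrix (Fin 8) (Fin 8) k, (M + N).map f = M.map f + N.map f :=
          fun M N => Matrix.map_add f (map_add f) M N
        have hsm : ∀ (c : k) (M : Matrix (Fin 8) (Fin 8) k), (c • M).map f = f c • M.map f := by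
          intro c M
          ext i j
          simp
        have hpow : ∀ j : ℕ, (A ^ j).map f = (A.map f) ^ j := by
          intro j
          exact map_pow f.mapMatrix A j
        simp only [hadd, hsm, hpow] at h1
        rw [Matrix.map_one f (map_zero f) (map_one f)] at h1
        rw [h1]
        ext i j
        simp
      · rw [← rw8_map, Ne, map_eq_zero]
        exact hw
      · rw [← hfh]
        exact hvh
    have hpull : (fun i j => f (pull H T i j)) =
        fun i j => f r * f (pull G₁ T i j) + f (pull G₂ T i j) := by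
      ext i j
      rw [← map_mul, ← map_add]
      congr 1
      simp only [pull, hH, Finset.mul_sum, ← Finset.sum_add_distrib]
      refine Finset.sum_congr rfl fun l _ => Finset.sum_congr rfl fun l' _ => ?_
      ring
    rw [hpull] at hjac
    exact hjac.unchange

end

end Pool.Agent.Helper26
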