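import Mathlib
import Pool.Agent.Helper26.QF

set_option autoImplicit false
set_option linter.unusedSectionVars false

/-!
# Transfer of the Jacobian condition to arbitrary extensions
-/

universe u

namespace Pool.Agent.Helper26

open Matrix Finset MvPolynomial

/-- A system of polynomial equations with a solution in some extension has a solution in the
algebraic closure. -/
lemma exists_point_closure {k : Type u} [Field k] {L : Type*} [Field L] (f : k →+* L) {σ : Type*}
    [Finite σ] (s : Set (MvPolynomial σ k)) (x : σ → L) (hx : ∀ p ∈ s, eval₂ f x p = 0) :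
    ∃ y : σ → AlgebraicClosure k, ∀ p ∈ s, aeval y p = 0 := by
  have hne : Ideal.span s ≠ ⊤ := by
    intro h
    have h1 : (1 : MvPolynomial σ k) ∈ Ideal.span s := by rw [h]; trivial
    have h2 : Ideal.span s ≤ RingHom.ker (eval₂Hom f x) := by
      rw [Ideal.span_le]
      intro p hp
      exact hx p hp
    have h3 : eval₂Hom f x 1 = 0 := h2 h1
    rw [map_one] at h3
    exact one_ne_zero h3
  obtain ⟨M, hM, hle⟩ := Ideal.exists_le_maximal _ hne
  let _ : Field (MvPolynomial σ k ⧸ M) := Ideal.Quotient.field M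
  have hfin : Module.Finite k (MvPolynomial σ k ⧸ M) :=
    finite_of_finite_type_of_isJacobsonRing k (MvPolynomial σ k ⧸ M)
  have halg : Algebra.IsAlgebraic k (MvPolynomial σ k ⧸ M) := Algebra.IsAlgebraic.of_finite k _
  let g : (MvPolynomial σ k ⧸ M) →ₐ[k] AlgebraicClosure k := IsAlgClosed.lift
  refine ⟨fun i => g (Ideal.Quotient.mk M (X i)), ?_⟩
  intro p hp
  have h1 : aeval (fun i => g (Ideal.Quotient.mk M (X i))) p =
      g (Ideal.Quotient.mkₐ k M p) := by
    have : aeval (fun i => g (Ideal.Quotient.mk M (X i))) = g.comp (Ideal.Quotient.mkₐ k M) := by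
      apply MvPolynomial.algHom_ext
      intro i
      rw [aeval_X]
      rfl
    rw [this]
    rfl
  rw [h1]
  have h2 : Ideal.Quotient.mkₐ k M p = 0 :=
    Ideal.Quotient.eq_zero_iff_mem.2 (hle (Ideal.subset_span hp))
  rw [h2, map_zero]

/-- The Jacobian condition over the algebraic closure implies it over every extension. -/
theorem JacInd.transfer {k : Type u} [Field k] {L : Type*} [Field L] (f : k →+* L) {n : Type*}
    [Fintype n] {g₁ g₂ : n → n → k}
    (hs : JacInd (fun i j => algebraMap k (AlgebraicClosure k) (g₁ i j))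
      (fun i j => algebraMap k (AlgebraicClosure k) (g₂ i j))) :
    JacInd (fun i j => f (g₁ i j)) (fun i j => f (g₂ i j)) := by
  intro x hx h1 h2 a b hab
  by_contra hne
  obtain ⟨j, hj⟩ := Function.ne_iff.1 hx
  have hj' : x j ≠ 0 := hj
  -- normalisation of the coefficients
  obtain ⟨a', b', c, hab', hc⟩ : ∃ a' b' : L, ∃ c : Fin 2, (a' • pm (fun i j => f (g₁ i j)) +
      b' • pm (fun i j => f (g₂ i j))).mulVec x = 0 ∧ (![a', b'] : Fin 2 → L) c = 1 := by
    by_cases ha : a = 0
    · have hb : b ≠ 0 := fun h => hne ⟨ha, h⟩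
      refine ⟨b⁻¹ * a, b⁻¹ * b, 1, ?_, ?_⟩
      · rw [← smul_smul, ← smul_smul, ← smul_add, Matrix.smul_mulVec, hab, smul_zero]
      · exact inv_mul_cancel₀ hb
    · refine ⟨a⁻¹ * a, a⁻¹ * b, 0, ?_, ?_⟩
      · rw [← smul_smul, ← smul_smul, ← smul_add, Matrix.smul_mulVec, hab, smul_zero]
      · exact inv_mul_cancel₀ ha
  let Q : (n → n → k) → MvPolynomial (n ⊕ Fin 2) k := fun g =>
    qf (fun i j => C (g i j)) fun i => X (Sum.inl i)
  let E : n → MvPolynomial (n ⊕ Fin 2) k := fun i =>
    ∑ l, (X (Sum.inr 0) * C (pm g₁ i l) + X (Sum.inr 1) * C (pm g₂ i l)) * X (Sum.inl l)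
  have hpmf : ∀ (g : n → n → k) (i l : n), pm (fun i j => f (g i j)) i l = f (pm g i l) := by
    intro g i l; simp [pm]
  have hpma : ∀ (g : n → n → k) (i l : n), pm (fun i j => algebraMap k (AlgebraicClosure k)
      (g i j)) i l = algebraMap k (AlgebraicClosure k) (pm g i l) := by
    intro g i l; simp [pm]
  set x' : n → L := (x j)⁻¹ • x with hx'
  have hx'j : x' j = 1 := inv_mul_cancel₀ hj'
  have hE : ∀ i, eval₂ f (Sum.elim x' ![a', b']) (E i) = (a' • pm (fun i j => f (g₁ i j)) +
      b' • pm (fun i j => f (g₂ i j))).mulVec x' i := by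
    intro i
    simp only [E, eval₂_sum, eval₂_mul, eval₂_add, eval₂_X, eval₂_C, Sum.elim_inl, Sum.elim_inr,
      Matrix.mulVec, dotProduct, Matrix.add_apply, Matrix.smul_apply, smul_eq_mul, hpmf]
    rfl
  have hE' : ∀ (y : n ⊕ Fin 2 → AlgebraicClosure k) (i : n), aeval y (E i) =
      (y (Sum.inr 0) • pm (fun i j => algebraMap k (AlgebraicClosure k) (g₁ i j)) +
      y (Sum.inr 1) • pm (fun i j => algebraMap k (AlgebraicClosure k) (g₂ i j))).mulVec
      (fun l => y (Sum.inl l)) i := by
    intro y i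
    simp only [E, map_sum, map_mul, map_add, aeval_X, aeval_C,
      Matrix.mulVec, dotProduct, Matrix.add_apply, Matrix.smul_apply, smul_eq_mul, hpma]
  have hQ : ∀ g : n → n → k, eval₂ f (Sum.elim x' ![a', b']) (Q g) =
      qf (fun i j => f (g i j)) x' := by
    intro g
    have h3 := qf_map (eval₂Hom f (Sum.elim x' ![a', b'])) (fun i j => C (g i j))
      (fun i => X (Sum.inl i))
    simp only [coe_eval₂Hom, eval₂_C, eval₂_X, Sum.elim_inl] at h3
    exact h3
  have hQ' : ∀ (y : n ⊕ Fin 2 → AlgebraicClosure k) (g : n → n → k), aeval y (Q g) =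
      qf (fun i j => algebraMap k (AlgebraicClosure k) (g i j)) fun i => y (Sum.inl i) := by
    intro y g
    have h3 := qf_map (aeval (R := k) y).toRingHom (fun i j => C (g i j))
      (fun i => X (Sum.inl i))
    simp only [AlgHom.toRingHom_eq_coe, RingHom.coe_coe, aeval_C, aeval_X] at h3
    exact h3
  obtain ⟨y, hy⟩ := exists_point_closure f
    ({Q g₁, Q g₂, X (Sum.inl j) - 1, X (Sum.inr c) - 1} ∪ Set.range E)
    (Sum.elim x' ![a', b']) (by
      intro p hp
      rcases hp with hp | ⟨i, rfl⟩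
      · rcases hp with rfl | rfl | rfl | rfl
        · rw [hQ, hx', qf_smul, h1, mul_zero]
        · rw [hQ, hx', qf_smul, h2, mul_zero]
        · rw [eval₂_sub, eval₂_X, eval₂_one, Sum.elim_inl, hx'j, sub_self]
        · rw [eval₂_sub, eval₂_X, eval₂_one, Sum.elim_inr, hc, sub_self]
      · rw [hE, hx', Matrix.mulVec_smul, hab', smul_zero]
        rfl)
  have y1 := hy (Q g₁) (Or.inl (by simp))
  have y2 := hy (Q g₂) (Or.inl (by simp))
  have y3 := hy (X (Sum.inl j) - 1) (Or.inl (by simp))
  have y4 := hy (X (Sum.inr c) - 1) (Or.inl (by simp))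
  rw [hQ'] at y1 y2
  rw [map_sub, aeval_X, map_one, sub_eq_zero] at y3 y4
  obtain ⟨e1, e2⟩ := hs (fun i => y (Sum.inl i)) (by
    intro h0
    have := congrFun h0 j
    simp only [Pi.zero_apply] at this
    rw [y3] at this
    exact one_ne_zero this) y1 y2 (y (Sum.inr 0)) (y (Sum.inr 1)) (by
    ext1 i
    rw [← hE']
    exact hy (E i) (Or.inr ⟨i, rfl⟩))
  have h5 : y (Sum.inr c) = 0 := by
    fin_cases c
    · exact e1
    · exact e2
  rw [y4] at h5
  exact one_ne_zero h5

end Pool.Agent.Helper26
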