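import Mathlib
import Pool.Agent.Helper26.HP8c
import Pool.Agent.Helper26.Hyper8
import Pool.Agent.Helper26.Transfer
import Pool.Agent.Helper26.HP7Mv

set_option autoImplicit false
set_option linter.unusedSectionVars false

/-!
# The Hasse principle for smooth pairs of quadratic forms in eight variables
-/

universe u v

namespace Pool.Agent.Helper26

open Matrix Finset

theorem hp_eight_smooth {F : Type v} {k : Type u} [Field F] [Finite F] [CharP F 2] [Field k]
    [CharP k 2] {φ : RatFunc F →+* k} (hφ : GoodEmb φ) [Infinite k]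
    (G₁ G₂ : Fin 8 → Fin 8 → k)
    (hs : JacInd (fun i j => algebraMap k (AlgebraicClosure k) (G₁ i j))
      (fun i j => algebraMap k (AlgebraicClosure k) (G₂ i j)))
    (hloc : ∀ V : ValuationSubring k, V ≠ ⊤ → ∃ z : Fin 8 → V.valuation.Completion, z ≠ 0 ∧
      qf (fun i j => toCompletion V (G₁ i j)) z = 0 ∧
      qf (fun i j => toCompletion V (G₂ i j)) z = 0) :
    ∃ z : Fin 8 → k, z ≠ 0 ∧ qf G₁ z = 0 ∧ qf G₂ z = 0 := by
  obtain ⟨T, hT, hjac⟩ := exists_hyperplane hs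
  refine hp_eight hφ G₁ G₂ T hT hjac ?_
  intro V hV
  obtain ⟨z, hz0, hz1, hz2⟩ := hloc V hV
  exact ⟨z, hz0, hz1, hz2, hs.transfer (toCompletion V) z hz0 hz1 hz2⟩

open MvPolynomial in
theorem hp_eight_mv {k : Type u} [Field k] [Algebra (RatFunc (ZMod 2)) k]
    [FiniteDimensional (RatFunc (ZMod 2)) k] (Q₁ Q₂ : MvPolynomial (Fin 8) k)
    (h₁ : Q₁.IsHomogeneous 2) (h₂ : Q₂.IsHomogeneous 2) (hsmooth : IsSmoothPair Q₁ Q₂)
    (hloc : ∀ V : ValuationSubring k, V ≠ ⊤ → HasNontrivialZero (toCompletion V) Q₁ Q₂) :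
    HasNontrivialZero (RingHom.id k) Q₁ Q₂ := by
  obtain ⟨g₁, rfl⟩ := exists_quadPoly h₁
  obtain ⟨g₂, rfl⟩ := exists_quadPoly h₂
  have hchar : CharP k 2 :=
    charP_of_injective_algebraMap (algebraMap (RatFunc (ZMod 2)) k).injective 2
  have hinf0 : Infinite (RatFunc (ZMod 2)) :=
    Infinite.of_injective _ (IsFractionRing.injective (Polynomial (ZMod 2)) (RatFunc (ZMod 2)))
  have hinf : Infinite k :=
    Infinite.of_injective _ (algebraMap (RatFunc (ZMod 2)) k).injective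
  obtain ⟨φ, hφ⟩ := exists_goodEmb (ZMod 2) k
  obtain ⟨z, hz0, hz1, hz2⟩ := hp_eight_smooth hφ g₁ g₂ hsmooth.jacInd (by
    intro V hV
    obtain ⟨z, hz0, hz1, hz2⟩ := hloc V hV
    rw [eval₂_quadPoly] at hz1 hz2
    exact ⟨z, hz0, hz1, hz2⟩)
  refine ⟨z, hz0, ?_, ?_⟩
  · rw [eval₂_quadPoly]
    simpa using hz1
  · rw [eval₂_quadPoly]
    simpa using hz2

end Pool.Agent.Helper26
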