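import Mathlib
import Pool.Agent.Helper26.HP8d
import Pool.Agent.Helper26.CTwo

set_option autoImplicit false
set_option linter.unusedSectionVars false

/-!
# The Hasse principle for smooth intersections of two quadrics in characteristic two
-/

universe u

namespace Pool.Agent.Helper26

open MvPolynomial

theorem hp_nine_mv {n : ℕ} (hn : 9 ≤ n) {k : Type u} [Field k] [Algebra (RatFunc (ZMod 2)) k]
    [FiniteDimensional (RatFunc (ZMod 2)) k] (Q₁ Q₂ : MvPolynomial (Fin n) k)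
    (h₁ : Q₁.IsHomogeneous 2) (h₂ : Q₂.IsHomogeneous 2) :
    HasNontrivialZero (RingHom.id k) Q₁ Q₂ := by
  obtain ⟨g₁, rfl⟩ := exists_quadPoly h₁
  obtain ⟨g₂, rfl⟩ := exists_quadPoly h₂
  obtain ⟨z, hz0, hz1, hz2⟩ := exists_zero_nine (ZMod 2) hn g₁ g₂
  refine ⟨z, hz0, ?_, ?_⟩
  · rw [eval₂_quadPoly]
    simpa using hz1
  · rw [eval₂_quadPoly]
    simpa using hz2

theorem hp_mv {n : ℕ} (hn : 7 ≤ n) {k : Type u} [Field k] [Algebra (RatFunc (ZMod 2)) k]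
    [FiniteDimensional (RatFunc (ZMod 2)) k] (Q₁ Q₂ : MvPolynomial (Fin n) k)
    (h₁ : Q₁.IsHomogeneous 2) (h₂ : Q₂.IsHomogeneous 2) (hsmooth : IsSmoothPair Q₁ Q₂)
    (hloc : ∀ V : ValuationSubring k, V ≠ ⊤ → HasNontrivialZero (toCompletion V) Q₁ Q₂) :
    HasNontrivialZero (RingHom.id k) Q₁ Q₂ := by
  rcases Nat.lt_or_ge n 9 with h9 | h9
  · have : n = 7 ∨ n = 8 := by omega
    rcases this with rfl | rfl
    · exact hp_seven_mv Q₁ Q₂ h₁ h₂ hsmooth hloc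
    · exact hp_eight_mv Q₁ Q₂ h₁ h₂ hsmooth hloc
  · exact hp_nine_mv h9 Q₁ Q₂ h₁ h₂

end Pool.Agent.Helper26
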